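import Pool.Agent.TH894.J104D

/-!
# Eleven relations on codes (and some more) are arithmetical
-/

set_option autoImplicit false
namespace Pool.Agent.TH672
open Form

theorem ar_im : Ar (fun v => Rim (v 0) (v 1) (v 2)) := R104.ar_im
theorem ar_al : Ar (fun v => Ral (v 0) (v 1)) := R104.ar_al
theorem ar_in : Ar (fun v => Rin (v 0) (v 1) (v 2)) := R104.ar_in
theorem ar_at : Ar (fun v => Rat (v 0)) := R104.ar_at
theorem ar_tt : Ar (fun v => Rtt (v 0)) := R104.ar_tt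
theorem ar_dp : Ar (fun v => Rdp (v 0) (v 1)) := R104.ar_dp
theorem ar_cl : Ar (fun v => Rcl (v 0) (v 1) (v 2)) := R104.ar_cl
theorem ar_vv : Ar (fun v => Rvv (v 0) (v 1) (v 2)) := R104.ar_vv
theorem ar_cat : Ar (fun v => Rcat (v 0) (v 1) (v 2)) := R104.ar_cat
theorem ar_vs : Ar (fun v => Rvs (v 0) (v 1)) := R104.ar_vs
theorem ar_lc : Ar (fun v => Rlc (v 0)) := R104.ar_lc
theorem ar_mem : Ar (fun v => Rmem (v 0) (v 1)) := R104.ar_mem
theorem ar_ln : Ar (fun v => Rln (v 0) (v 1)) := R104.ar_ln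
theorem ar_tm (x : ℕ) : Ar (fun v => Rtm x (v 0) (v 1) (v 2)) := R104.ar_tm x

end Pool.Agent.TH672
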