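import Pool.Agent.TH894.PV5

set_option autoImplicit false

/-! The variance of the primes in the classes of one modulus: the deterministic part, continued. -/

namespace Pool.Agent.TH894.PV
open Finset
open Pool.Agent.H373R2.T7
open Pool.Agent.TH894.PA (cz)

/-- the deterministic part -/
theorem det_var (κ : ℕ) (ε : ℝ) (hε : 0 < ε) (hε1 : ε ≤ 1) : ∀ E : ℕ, ∃ Y₀ : ℕ, ∀ Y : ℕ, Y₀ ≤ Y → ∀ z : ℕ,
    Real.log Y ^ (κ + 2) ≤ z → (z : ℝ) ≤ Real.log Y ^ E → ∀ Q : ℕ, Q ≤ Y → (Y : ℝ) ≤ Q * Real.log Y ^ κ →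
    ∀ x : ℝ, (Q : ℝ) ≤ x → x ≤ Q * Real.log Y ^ κ →
    (∀ h : ℕ, 1 ≤ h → (h : ℝ) ≤ Real.log Y ^ κ → ∀ N₁ : ℕ, (N₁ : ℝ) ≤ Y * Real.log Y ^ κ → |cz z N₁ (h * Q)| ≤ Y / Real.log Y ^ (2 * κ)) →
    |G x Q - x * Real.log Q| ≤ ε * (x * Real.log Q) := by
  intro E
  obtain ⟨σ, hσ⟩ : ∃ σ : ℝ, σ = 1 / (4 * ((κ : ℝ) + 1)) := ⟨_, rfl⟩
  have hκ0 : (0 : ℝ) ≤ κ := Nat.cast_nonneg _
  have hσ0 : 0 < σ := by rw [hσ]; positivity
  have hσ1 : σ ≤ 1 := by
    rw [hσ, div_le_one (by positivity)]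
    linarith
  obtain ⟨Cs, hCs1, hCs⟩ := prod_bdd σ hσ0
  obtain ⟨n1, h1⟩ := main_one E (3 * κ)
  obtain ⟨n2, h2⟩ := diag (ε / 8) (by positivity)
  obtain ⟨C, hC, n3, h3⟩ := first (κ + 1)
  obtain ⟨n4, h4⟩ := Vz_root E
  obtain ⟨m, hm⟩ : ∃ m : ℕ, m = ⌈16 / ε⌉₊ := ⟨_, rfl⟩
  obtain ⟨n5, h5⟩ := ev_log' (κ * m + κ) 1
  obtain ⟨n6, h6⟩ := ev_log' (2 * κ + 3) 40
  obtain ⟨n7, h7⟩ := ev_L' ((64 * Cs / ε) ^ 2 + 2 * (8 / ε) * (20 + (6 * C * 2 ^ (κ + 1) + 1)) + 1000 / ε + 16)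
  obtain ⟨n8, h8⟩ := Vz_inv_small E
  refine ⟨n1 + n2 * n2 + n3 * n3 + n4 + n5 + n6 + n7 + n8 + 16, fun Y hY z hz1 hz2 Q hQY hYQ x hQx hxQ hcor => ?_⟩
  have a4 := h4 Y (by omega)
  have a5 := h5 Y (by omega)
  have a6 := h6 Y (by omega)
  have a7 := h7 Y (by omega)
  obtain ⟨L, hL⟩ : ∃ L, L = Real.log (Y : ℝ) := ⟨_, rfl⟩
  rw [← hL] at a4 a5 a6 a7 hz1 hz2 hYQ hxQ hcor
  rw [one_mul] at a5
  have p1 : 0 ≤ (64 * Cs / ε) ^ 2 := by positivity
  have p2 : 0 ≤ 2 * (8 / ε) * (20 + (6 * C * 2 ^ (κ + 1) + 1)) := by positivity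
  have p3 : 0 ≤ 1000 / ε := by positivity
  have hL1 : 1 ≤ L := by linarith
  have hL16 : 16 ≤ L := by linarith
  have hL0 : 0 < L := by linarith
  have hYn : 0 < Y := by omega
  have hY0 : (0 : ℝ) < Y := by exact_mod_cast hYn
  have hz : 1 ≤ z := by
    have : (1 : ℝ) ≤ z := (one_le_pow₀ hL1).trans hz1
    exact_mod_cast this
  have hz0 : (0 : ℝ) < z := by exact_mod_cast hz
  have a4' := a4 z hz hz2
  have a8 := h8 Y (by omega) z hz (by rw [← hL]; exact hz2)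
  rw [← hL] at a8
  have hLκ : 0 < L ^ κ := by positivity
  have hLκ1 : 1 ≤ L ^ κ := one_le_pow₀ hL1
  have hss : √(Y : ℝ) * √(Y : ℝ) = Y := Real.mul_self_sqrt hY0.le
  have hs0 : 0 < √(Y : ℝ) := Real.sqrt_pos.2 hY0
  -- sizes
  have hQ0 : (0 : ℝ) < Q := by
    by_contra hcon
    push Not at hcon
    have : (Q : ℝ) * L ^ κ ≤ 0 := mul_nonpos_of_nonpos_of_nonneg hcon hLκ.le
    linarith
  have hQ : 1 ≤ Q := by exact_mod_cast hQ0
  have hLκs : L ^ κ ≤ √Y := (pow_le_pow_right₀ hL1 (by omega)).trans a5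
  have hQs : √(Y : ℝ) ≤ Q := by
    have e1 : √(Y : ℝ) * L ^ κ ≤ Q * L ^ κ := by
      calc √(Y : ℝ) * L ^ κ ≤ √Y * √Y := mul_le_mul_of_nonneg_left hLκs hs0.le
        _ = Y := hss
        _ ≤ _ := hYQ
    exact le_of_mul_le_mul_right e1 hLκ
  obtain ⟨l, hl⟩ : ∃ l, l = Real.log (Q : ℝ) := ⟨_, rfl⟩
  have hl1 : L / 2 ≤ l := by
    have e1 := Real.log_le_log hs0 hQs
    rw [Real.log_sqrt hY0.le, ← hL, ← hl] at e1
    exact e1
  have hl2 : l ≤ L := by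
    rw [hl, hL]
    exact Real.log_le_log hQ0 (by exact_mod_cast hQY)
  have hl0 : 0 < l := by linarith
  have hx0 : 0 < x := by linarith
  have hx1 : (1 : ℝ) ≤ x := le_trans (by exact_mod_cast hQ) hQx
  obtain ⟨X, hX⟩ : ∃ X, X = ⌊x⌋₊ := ⟨_, rfl⟩
  have hXx : (X : ℝ) ≤ x := by rw [hX]; exact Nat.floor_le hx0.le
  have hxX : x < X + 1 := by rw [hX]; exact Nat.lt_floor_add_one x
  have hQX : Q ≤ X := by rw [hX]; exact Nat.le_floor hQx
  have hX1 : 1 ≤ X := by omega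
  have hX0 : (0 : ℝ) < X := by exact_mod_cast hX1
  have hQXr : (Q : ℝ) ≤ X := by exact_mod_cast hQX
  have hXn : ∀ n : ℕ, n * n ≤ Y → n ≤ X := by
    intro n hn
    have e1 : (n : ℝ) ≤ √Y := by
      apply Real.le_sqrt_of_sq_le
      rw [pow_two]
      exact_mod_cast hn
    have e2 : (n : ℝ) ≤ X := e1.trans (hQs.trans hQXr)
    exact_mod_cast e2
  have hlx : Real.log x ≤ l + ε / 16 * L := by
    have e1 : Real.log x ≤ Real.log (Q * L ^ κ) := Real.log_le_log hx0 hxQ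
    rw [Real.log_mul hQ0.ne' hLκ.ne', Real.log_pow, ← hl] at e1
    have e2 : (κ : ℝ) * Real.log L ≤ ε / 16 * L := by
      have hlL : 0 ≤ Real.log L := Real.log_nonneg hL1
      have e3 : L ^ (κ * m + κ) ≤ √Y := a5
      have e4 := Real.log_le_log (by positivity) e3
      rw [Real.log_pow, Real.log_sqrt hY0.le, ← hL] at e4
      push_cast at e4
      have e5 : 16 / ε ≤ m := by rw [hm]; exact Nat.le_ceil _
      have e6 : 0 ≤ (κ : ℝ) * Real.log L := mul_nonneg hκ0 hlL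
      have e7 : 16 / ε * (κ * Real.log L) ≤ m * (κ * Real.log L) := mul_le_mul_of_nonneg_right e5 e6
      have e8 : 16 / ε * (κ * Real.log L) ≤ L / 2 := by
        have g1 : ((κ : ℝ) * m + κ) * Real.log L = m * (κ * Real.log L) + κ * Real.log L := by ring
        rw [g1] at e4
        linarith
      have e9 : κ * Real.log L = ε / 16 * (16 / ε * (κ * Real.log L)) := by field_simp
      rw [e9]
      apply mul_le_mul_of_nonneg_left _ (by positivity)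
      linarith
    linarith
  have hεLl : ε / 16 * L ≤ ε / 8 * l := by
    have g1 : ε / 8 * (L / 2) ≤ ε / 8 * l := mul_le_mul_of_nonneg_left hl1 (by positivity)
    have g2 : ε / 8 * (L / 2) = ε / 16 * L := by ring
    linarith
  have hεl : ε * l ≤ l := mul_le_of_le_one_left hl0.le hε1
  have hlx2 : Real.log x ≤ (1 + ε / 8) * l := by
    have g1 : (1 + ε / 8) * l = l + ε / 8 * l := by ring
    rw [g1]
    linarith
  have hlX : Real.log X ≤ Real.log x := Real.log_le_log hX0 hXx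
  have hlX2 : Real.log X ≤ 2 * L := by
    have g1 : (1 + ε / 8) * l = l + ε * l / 8 := by ring
    rw [g1] at hlx2
    linarith
  have hlX3 : l ≤ Real.log X := by rw [hl]; exact Real.log_le_log hQ0 hQXr
  have hω : (Q.primeFactors.card : ℝ) ≤ 2 * L := (card_pf Q hQ).trans (by rw [← hl]; linarith)
  have hxY : x ≤ Y * L ^ κ := hxQ.trans (mul_le_mul_of_nonneg_right (by exact_mod_cast hQY) hLκ.le)
  have hxq : x / Q ≤ L ^ κ := by rw [div_le_iff₀ hQ0, mul_comm]; exact hxQ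
  -- Euler's function
  have hφ : (0 : ℝ) < (Nat.totient Q : ℝ) := by exact_mod_cast Nat.totient_pos.2 hQ
  have hLz : L ^ κ * L ^ 2 ≤ z := by rw [← pow_add]; exact hz1
  have hωz : (Q.primeFactors.card : ℝ) ≤ z := by
    have e1 : L ^ 2 ≤ L ^ κ * L ^ 2 := le_mul_of_one_le_left (by positivity) hLκ1
    have e2 : 2 * L ≤ L ^ 2 := by
      rw [pow_two]
      exact mul_le_mul_of_nonneg_right (by linarith) hL0.le
    linarith
  obtain ⟨t1, t2⟩ := totient_fac z Q hz hQ hωz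
  obtain ⟨c, hc⟩ : ∃ c, c = CQ z Q := ⟨_, rfl⟩
  rw [← hc] at t1 t2
  have hc1 : 1 ≤ c := by rw [hc]; exact CQ_one z Q
  have hcV : c ≤ (Vz z)⁻¹ := by rw [hc]; exact CQ_le z Q
  have hcL : c ≤ L := hcV.trans a8
  have hQφ3 : (Q : ℝ) / (Nat.totient Q : ℝ) ≤ 3 * L := by
    have e1 : (Q.primeFactors.card : ℝ) / z ≤ 1 := by rw [div_le_one hz0]; exact hωz
    have e2 : c * (1 + 2 * (Q.primeFactors.card / z)) ≤ c * 3 := mul_le_mul_of_nonneg_left (by linarith) (by linarith)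
    linarith
  obtain ⟨T, hT⟩ : ∃ T, T = x * l := ⟨_, rfl⟩
  have hT0 : 0 < T := by rw [hT]; positivity
  have hsm : ∀ a : ℝ, 0 ≤ a → a ≤ ε / 16 * L → a * x ≤ ε / 8 * T := by
    intro a ha ha2
    rw [hT]
    have g1 : a ≤ ε / 8 * l := ha2.trans hεLl
    calc a * x ≤ (ε / 8 * l) * x := mul_le_mul_of_nonneg_right g1 hx0.le
      _ = ε / 8 * (x * l) := by ring
  -- the four parts
  have E1 : |∑ n ∈ Icc 1 X, vq Q n ^ 2 - T| ≤ ε / 2 * T := by
    have e1 := h2 X (hXn n2 (by omega)) Q hQ hQX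
    have hXlX : (X : ℝ) * Real.log X ≤ x * Real.log x := mul_le_mul hXx hlX (Real.log_nonneg (by exact_mod_cast hX1)) hx0.le
    have e2 : x * Real.log x ≤ (1 + ε / 8) * T := by
      rw [hT]
      calc x * Real.log x ≤ x * ((1 + ε / 8) * l) := mul_le_mul_of_nonneg_left hlx2 hx0.le
        _ = _ := by ring
    have e3 : T - l ≤ X * Real.log X := by
      have : (x - 1) * l ≤ X * Real.log X := mul_le_mul (by linarith) hlX3 hl0.le hX0.le
      rw [hT]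
      linarith
    have e4 : l ≤ ε / 8 * T := by
      rw [hT]
      have e5 : 8 / ε ≤ x := by
        have g1 : (L : ℝ) ≤ Y := by
          rw [hL]
          exact (Real.log_le_sub_one_of_pos hY0).trans (by linarith)
        have g2 : L ^ 1 ≤ L ^ (2 * κ + 3) := pow_le_pow_right₀ hL1 (by omega)
        have g3 : L ^ (2 * κ + 3) ≤ √Y := by
          have : 0 ≤ L ^ (2 * κ + 3) := by positivity
          linarith
        have g4 : 8 / ε ≤ 1000 / ε := div_le_div_of_nonneg_right (by norm_num) hε.le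
        rw [pow_one] at g2
        linarith
      have e6 : 1 ≤ ε / 8 * x := by
        rw [div_le_iff₀ hε] at e5
        linarith
      calc l = 1 * l := (one_mul _).symm
        _ ≤ (ε / 8 * x) * l := mul_le_mul_of_nonneg_right e6 hl0.le
        _ = ε / 8 * (x * l) := by ring
    have e7 : ε / 8 * (X * Real.log X) ≤ ε / 8 * ((1 + ε / 8) * T) := mul_le_mul_of_nonneg_left (hXlX.trans e2) (by positivity)
    have e8 : ε * ε * T ≤ ε * T := by
      rw [mul_assoc]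
      apply mul_le_mul_of_nonneg_left _ hε.le
      exact mul_le_of_le_one_left hT0.le hε1
    have e9 : 0 ≤ ε * T := by positivity
    have e10 : (1 + ε / 8) * T = T + ε * T / 8 := by ring
    have e11 : ε / 8 * ((1 + ε / 8) * T) = ε * T / 8 + ε * ε * T / 64 := by ring
    rw [e11] at e7
    rw [e10] at e2
    have e12 : ε / 2 * T = ε * T / 2 := by ring
    have e13 : ε / 8 * T = ε * T / 8 := by ring
    rw [e12]
    rw [e13] at e4
    rw [abs_le] at e1 ⊢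
    obtain ⟨e14, e15⟩ := e1
    clear e11 e10 e12 e13
    constructor <;> linarith
  have hY2κ : 40 * L ^ (2 * κ + 3) ≤ x := a6.trans (hQs.trans hQx)
  have E2 : |∑ h ∈ Icc 1 (X / Q), ∑ n ∈ Icc 1 (X - h * Q), vq Q n * vq Q (n + h * Q) -
      ∑ h ∈ Icc 1 (X / Q), (x - ((h * Q : ℕ) : ℝ)) * (c * fs ((pz z).filter (fun p => ¬ p ∣ Q)) h)| ≤ 4 * x := by
    rw [← sum_sub_distrib]
    refine (abs_sum_le_sum_abs _ _).trans ?_
    have g0 : ∀ h ∈ Icc 1 (X / Q), |∑ n ∈ Icc 1 (X - h * Q), vq Q n * vq Q (n + h * Q) -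
        (x - ((h * Q : ℕ) : ℝ)) * (c * fs ((pz z).filter (fun p => ¬ p ∣ Q)) h)| ≤ 8 * L ^ 3 + L + 3 * (Y / L ^ (2 * κ)) := by
      intro h hh
      rw [mem_Icc] at hh
      have hhQ : h * Q ≤ X := by rw [← Nat.le_div_iff_mul_le hQ]; exact hh.2
      have hhL : (h : ℝ) ≤ L ^ κ := by
        have g1 : (h : ℝ) * Q ≤ X := by exact_mod_cast hhQ
        rw [← div_le_div_iff_of_pos_right hQ0] at g1
        rw [mul_div_cancel_right₀ _ hQ0.ne'] at g1
        exact g1.trans ((div_le_div_of_nonneg_right hXx hQ0.le).trans hxq)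
      have hN1 : ((X - h * Q : ℕ) : ℝ) ≤ Y * L ^ κ := by
        have : ((X - h * Q : ℕ) : ℝ) ≤ X := by exact_mod_cast Nat.sub_le _ _
        linarith
      obtain ⟨F, hF⟩ : ∃ F, F = c * fs ((pz z).filter (fun p => ¬ p ∣ Q)) h := ⟨_, rfl⟩
      have hF0 : 0 ≤ F := by
        rw [hF]
        exact mul_nonneg (by linarith) (fs_nonneg _ (fun p hp => (mem_pz.1 (mem_filter.1 hp).1).2) h)
      have hF1 : F ≤ L := by rw [hF, hc]; exact (fs_le z Q h).trans a8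
      have g1 := h1 Y (by omega) z hz (by rw [← hL]; exact hz2) Q h (X - h * Q)
      rw [← hL, ← hc, ← hF] at g1
      have g2 : (((X - h * Q : ℕ) : ℝ) + Y) / L ^ (3 * κ) ≤ 2 * (Y / L ^ (2 * κ)) := by
        have g3 : ((X - h * Q : ℕ) : ℝ) + Y ≤ 2 * Y * L ^ κ := by
          have g31 : (Y : ℝ) ≤ Y * L ^ κ := le_mul_of_one_le_right hY0.le hLκ1
          have g32 : 2 * (Y : ℝ) * L ^ κ = Y * L ^ κ + Y * L ^ κ := by ring
          rw [g32]
          linarith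
        calc (((X - h * Q : ℕ) : ℝ) + Y) / L ^ (3 * κ) ≤ (2 * Y * L ^ κ) / L ^ (3 * κ) := div_le_div_of_nonneg_right g3 (by positivity)
          _ = 2 * (Y / L ^ (2 * κ)) := by
            rw [show 3 * κ = 2 * κ + κ by ring, pow_add L (2 * κ) κ]
            field_simp
      have g4 := off_one z Q h X F (Y / L ^ (2 * κ)) (2 * (Y / L ^ (2 * κ))) (2 * L) hQ hQX hh.1 hhQ hlX2 hω (hcor h hh.1 hhL _ hN1) (g1.trans g2)
      have g5 : ((X - h * Q : ℕ) : ℝ) = X - ((h * Q : ℕ) : ℝ) := by rw [Nat.cast_sub hhQ]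
      have g6 : ∑ n ∈ Icc 1 (X - h * Q), vq Q n * vq Q (n + h * Q) - (x - ((h * Q : ℕ) : ℝ)) * F =
          (∑ n ∈ Icc 1 (X - h * Q), vq Q n * vq Q (n + h * Q) - ((X - h * Q : ℕ) : ℝ) * F) - (x - X) * F := by
        rw [g5]; ring
      rw [← hF, g6]
      refine (abs_sub _ _).trans ?_
      have g7 : |(x - X) * F| ≤ L := by
        rw [abs_of_nonneg (mul_nonneg (by linarith) hF0)]
        calc (x - X) * F ≤ 1 * L := mul_le_mul (by linarith) hF1 hF0 (by norm_num)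
          _ = L := one_mul _
      have g8 : (2 * L) ^ 3 = 8 * L ^ 3 := by ring
      rw [g8] at g4
      linarith
    refine (sum_le_sum g0).trans ?_
    rw [sum_const, Nat.card_Icc, Nat.add_sub_cancel, nsmul_eq_mul]
    have g1 : ((X / Q : ℕ) : ℝ) ≤ L ^ κ := by
      refine Nat.cast_div_le.trans ((div_le_div_of_nonneg_right hXx hQ0.le).trans hxq)
    have g2 : 0 ≤ 8 * L ^ 3 + L + 3 * (Y / L ^ (2 * κ)) := by positivity
    refine (mul_le_mul_of_nonneg_right g1 g2).trans ?_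
    have g3 : L ^ κ * (Y / L ^ (2 * κ)) = Y / L ^ κ := by
      rw [two_mul, pow_add]
      field_simp
    have g4 : Y / L ^ κ ≤ x := by
      rw [div_le_iff₀ hLκ]
      exact hYQ.trans (mul_le_mul_of_nonneg_right hQx hLκ.le)
    have g5 : L ^ κ * (8 * L ^ 3 + L) ≤ x := by
      refine le_trans ?_ hY2κ
      have g6 : 8 * L ^ 3 + L ≤ 40 * L ^ 3 := by
        have : L ≤ L ^ 3 := le_self_pow₀ hL1 (by norm_num)
        have : 0 ≤ L ^ 3 := by positivity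
        linarith
      calc L ^ κ * (8 * L ^ 3 + L) ≤ L ^ (2 * κ) * (40 * L ^ 3) := mul_le_mul (pow_le_pow_right₀ hL1 (by omega)) g6 (by positivity) (by positivity)
        _ = 40 * L ^ (2 * κ + 3) := by rw [pow_add]; ring
    have g6 : L ^ κ * (8 * L ^ 3 + L + 3 * (Y / L ^ (2 * κ))) = L ^ κ * (8 * L ^ 3 + L) + 3 * (L ^ κ * (Y / L ^ (2 * κ))) := by ring
    rw [g6, g3]
    linarith
  have E3 : |2 * ∑ h ∈ Icc 1 (X / Q), (x - ((h * Q : ℕ) : ℝ)) * (c * fs ((pz z).filter (fun p => ¬ p ∣ Q)) h) - x ^ 2 / (Nat.totient Q : ℝ)| ≤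
      ε / 8 * T + 4 * x := by
    have g1 := main_sum z Q x σ Cs hQ hQx hσ0 hσ1 hCs
    rw [← hX, ← hc] at g1
    obtain ⟨q, hq⟩ : ∃ q : ℝ, q = L ^ (1 / 4 : ℝ) := ⟨_, rfl⟩
    have hq0 : 0 < q := by rw [hq]; positivity
    have hq4 : q ^ 4 = L := by
      rw [hq, ← Real.rpow_natCast, ← Real.rpow_mul hL0.le]
      norm_num
    have g2 : (x / Q) ^ σ ≤ q := by
      calc (x / Q) ^ σ ≤ (L ^ κ) ^ σ := Real.rpow_le_rpow (by positivity) hxq hσ0.le
        _ = L ^ ((κ : ℝ) * σ) := by rw [← Real.rpow_natCast L κ, ← Real.rpow_mul hL0.le]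
        _ ≤ L ^ (1 / 4 : ℝ) := by
            apply Real.rpow_le_rpow_of_exponent_le hL1
            rw [hσ, mul_one_div, div_le_div_iff₀ (by positivity) (by norm_num)]
            linarith
        _ = q := hq.symm
    have g3 : c ≤ 2 * q := by rw [hq]; exact hcV.trans a4'
    have g4 : 2 * c * x * (x / Q) ^ σ * Cs ≤ (4 * Cs * q ^ 2) * x := by
      have hp : 0 ≤ (x / Q) ^ σ := by positivity
      calc 2 * c * x * (x / Q) ^ σ * Cs = 2 * x * Cs * (c * (x / Q) ^ σ) := by ring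
        _ ≤ 2 * x * Cs * (2 * q * q) := by
            apply mul_le_mul_of_nonneg_left _ (by positivity)
            exact mul_le_mul g3 g2 hp (by positivity)
        _ = _ := by ring
    have g5 : 4 * Cs * q ^ 2 ≤ ε / 16 * L := by
      have g6 : 64 * Cs / ε ≤ q ^ 2 := by
        have g7 : (64 * Cs / ε) ^ 2 ≤ (q ^ 2) ^ 2 := by
          rw [← pow_mul]
          norm_num
          rw [hq4]
          linarith
        exact (pow_le_pow_iff_left₀ (by positivity) (by positivity) (by norm_num)).1 g7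
      rw [div_le_iff₀ hε] at g6
      rw [← hq4]
      have g7 : 0 < q ^ 2 := by positivity
      calc 4 * Cs * q ^ 2 = (64 * Cs) * q ^ 2 / 16 := by ring
        _ ≤ (q ^ 2 * ε) * q ^ 2 / 16 := by
            apply div_le_div_of_nonneg_right _ (by norm_num)
            exact mul_le_mul_of_nonneg_right g6 g7.le
        _ = ε / 16 * q ^ 4 := by ring
    have g6 := hsm (4 * Cs * q ^ 2) (by positivity) g5
    have g7 : |c * (x ^ 2 / Q) - x ^ 2 / (Nat.totient Q : ℝ)| ≤ 4 * x := by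
      have g8 : c * (x ^ 2 / Q) - x ^ 2 / (Nat.totient Q : ℝ) = -((x / Q) * x * ((Q : ℝ) / (Nat.totient Q : ℝ) - c)) := by
        field_simp
        ring
      rw [g8, abs_neg, abs_of_nonneg (mul_nonneg (by positivity) (by linarith))]
      have g9 : (Q : ℝ) / (Nat.totient Q : ℝ) - c ≤ L * (2 * (2 * L / z)) := by
        have g10 : (Q : ℝ) / (Nat.totient Q : ℝ) - c ≤ c * (2 * (Q.primeFactors.card / z)) := by linarith
        refine g10.trans ?_
        apply mul_le_mul hcL _ (by positivity) hL0.le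
        apply mul_le_mul_of_nonneg_left _ (by norm_num)
        exact div_le_div_of_nonneg_right hω hz0.le
      calc (x / Q) * x * ((Q : ℝ) / (Nat.totient Q : ℝ) - c) ≤ L ^ κ * x * (L * (2 * (2 * L / z))) := by
            apply mul_le_mul _ g9 (by linarith) (by positivity)
            exact mul_le_mul_of_nonneg_right hxq hx0.le
        _ = 4 * x * (L ^ κ * L ^ 2 / z) := by field_simp; ring
        _ ≤ 4 * x * 1 := by
            apply mul_le_mul_of_nonneg_left _ (by positivity)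
            rw [div_le_one hz0]
            exact hLz
        _ = 4 * x := mul_one _
    have g8 : 2 * ∑ h ∈ Icc 1 (X / Q), (x - ((h * Q : ℕ) : ℝ)) * (c * fs ((pz z).filter (fun p => ¬ p ∣ Q)) h) - x ^ 2 / (Nat.totient Q : ℝ) =
        (2 * ∑ h ∈ Icc 1 (X / Q), (x - ((h * Q : ℕ) : ℝ)) * (c * fs ((pz z).filter (fun p => ¬ p ∣ Q)) h) - c * (x ^ 2 / Q)) +
        (c * (x ^ 2 / Q) - x ^ 2 / (Nat.totient Q : ℝ)) := by ring
    rw [g8]
    refine (abs_add_le _ _).trans ?_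
    linarith
  have E4 : |2 * (x / (Nat.totient Q : ℝ)) * (x - ∑ n ∈ Icc 1 X, vq Q n)| ≤ (6 * C * 2 ^ (κ + 1) + 1) * x := by
    have g1 := h3 X (hXn n3 (by omega)) Q hQ hQX
    have g2 : x / (Nat.totient Q : ℝ) ≤ L ^ κ * (3 * L) := by
      calc x / (Nat.totient Q : ℝ) = (x / Q) * ((Q : ℝ) / (Nat.totient Q : ℝ)) := by field_simp
        _ ≤ _ := mul_le_mul hxq hQφ3 (by positivity) hLκ.le
    have g3 : |x - ∑ n ∈ Icc 1 X, vq Q n| ≤ C * (x * (2 ^ (κ + 1) / L ^ (κ + 1))) + 1 := by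
      have g4 : (X : ℝ) / Real.log X ^ (κ + 1) ≤ x * (2 ^ (κ + 1) / L ^ (κ + 1)) := by
        have g5 : (L / 2) ^ (κ + 1) ≤ Real.log X ^ (κ + 1) := pow_le_pow_left₀ (by positivity) (hl1.trans hlX3) _
        calc (X : ℝ) / Real.log X ^ (κ + 1) ≤ x / (L / 2) ^ (κ + 1) := by
              apply div_le_div₀ hx0.le hXx (by positivity) g5
          _ = _ := by rw [div_pow]; field_simp
      have g5 := mul_le_mul_of_nonneg_left g4 hC.le
      rw [abs_le] at g1 ⊢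
      constructor <;> linarith
    rw [abs_mul, abs_of_nonneg (by positivity)]
    calc 2 * (x / (Nat.totient Q : ℝ)) * |x - ∑ n ∈ Icc 1 X, vq Q n| ≤ 2 * (L ^ κ * (3 * L)) * (C * (x * (2 ^ (κ + 1) / L ^ (κ + 1))) + 1) := by
          apply mul_le_mul _ g3 (abs_nonneg _) (by positivity)
          linarith
      _ = 6 * C * 2 ^ (κ + 1) * x + 6 * L ^ (κ + 1) := by
          rw [pow_succ L κ]
          field_simp
          ring
      _ ≤ 6 * C * 2 ^ (κ + 1) * x + x := by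
          apply add_le_add le_rfl
          refine le_trans ?_ hY2κ
          have : L ^ (κ + 1) ≤ L ^ (2 * κ + 3) := pow_le_pow_right₀ hL1 (by omega)
          have : 0 ≤ L ^ (2 * κ + 3) := by positivity
          linarith
      _ = _ := by ring
  -- conclusion
  obtain ⟨A0, hA0⟩ : ∃ A0 : ℝ, A0 = 20 + (6 * C * 2 ^ (κ + 1) + 1) := ⟨_, rfl⟩
  rw [← hA0] at a7 p2
  have hA00 : 0 < A0 := by rw [hA0]; positivity
  have hfin : A0 * x ≤ ε / 8 * T := by
    apply hsm A0 hA00.le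
    have g1 : 2 * (8 / ε) * A0 ≤ L := by linarith
    have g2 : 2 * (8 / ε) * A0 = (16 * A0) / ε := by ring
    rw [g2, div_le_iff₀ hε] at g1
    linarith
  rw [G_expand x Q hQ, ← hX, ← hl, ← hT]
  have hid : (∑ n ∈ Icc 1 X, vq Q n ^ 2 + 2 * ∑ h ∈ Icc 1 (X / Q), ∑ n ∈ Icc 1 (X - h * Q), vq Q n * vq Q (n + h * Q)) -
      2 * (x / (Nat.totient Q : ℝ)) * (∑ n ∈ Icc 1 X, vq Q n) + x ^ 2 / (Nat.totient Q : ℝ) - T =
      (∑ n ∈ Icc 1 X, vq Q n ^ 2 - T) + 2 * (∑ h ∈ Icc 1 (X / Q), ∑ n ∈ Icc 1 (X - h * Q), vq Q n * vq Q (n + h * Q) -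
      ∑ h ∈ Icc 1 (X / Q), (x - ((h * Q : ℕ) : ℝ)) * (c * fs ((pz z).filter (fun p => ¬ p ∣ Q)) h)) +
      (2 * ∑ h ∈ Icc 1 (X / Q), (x - ((h * Q : ℕ) : ℝ)) * (c * fs ((pz z).filter (fun p => ¬ p ∣ Q)) h) - x ^ 2 / (Nat.totient Q : ℝ)) +
      2 * (x / (Nat.totient Q : ℝ)) * (x - ∑ n ∈ Icc 1 X, vq Q n) := by
    have g1 : x ^ 2 / (Nat.totient Q : ℝ) = x / (Nat.totient Q : ℝ) * x := by ring
    rw [g1]
    ring
  rw [hid]
  have f1 := abs_add_le ((∑ n ∈ Icc 1 X, vq Q n ^ 2 - T) + 2 * (∑ h ∈ Icc 1 (X / Q), ∑ n ∈ Icc 1 (X - h * Q), vq Q n * vq Q (n + h * Q) -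
      ∑ h ∈ Icc 1 (X / Q), (x - ((h * Q : ℕ) : ℝ)) * (c * fs ((pz z).filter (fun p => ¬ p ∣ Q)) h)) +
      (2 * ∑ h ∈ Icc 1 (X / Q), (x - ((h * Q : ℕ) : ℝ)) * (c * fs ((pz z).filter (fun p => ¬ p ∣ Q)) h) - x ^ 2 / (Nat.totient Q : ℝ)))
      (2 * (x / (Nat.totient Q : ℝ)) * (x - ∑ n ∈ Icc 1 X, vq Q n))
  have f2 := abs_add_le ((∑ n ∈ Icc 1 X, vq Q n ^ 2 - T) + 2 * (∑ h ∈ Icc 1 (X / Q), ∑ n ∈ Icc 1 (X - h * Q), vq Q n * vq Q (n + h * Q) -
      ∑ h ∈ Icc 1 (X / Q), (x - ((h * Q : ℕ) : ℝ)) * (c * fs ((pz z).filter (fun p => ¬ p ∣ Q)) h)))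
      (2 * ∑ h ∈ Icc 1 (X / Q), (x - ((h * Q : ℕ) : ℝ)) * (c * fs ((pz z).filter (fun p => ¬ p ∣ Q)) h) - x ^ 2 / (Nat.totient Q : ℝ))
  have f3 := abs_add_le (∑ n ∈ Icc 1 X, vq Q n ^ 2 - T) (2 * (∑ h ∈ Icc 1 (X / Q), ∑ n ∈ Icc 1 (X - h * Q), vq Q n * vq Q (n + h * Q) -
      ∑ h ∈ Icc 1 (X / Q), (x - ((h * Q : ℕ) : ℝ)) * (c * fs ((pz z).filter (fun p => ¬ p ∣ Q)) h)))
  rw [abs_mul, abs_of_pos (by norm_num : (0 : ℝ) < 2)] at f3
  have hA0x : A0 * x = 20 * x + (6 * C * 2 ^ (κ + 1) + 1) * x := by rw [hA0]; ring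
  have hεT : 0 ≤ ε * T := by positivity
  refine f1.trans ?_
  refine (add_le_add (f2.trans (add_le_add (f3.trans (add_le_add E1 (mul_le_mul_of_nonneg_left E2 (by norm_num)))) E3)) E4).trans ?_
  have g1 : ε / 2 * T + 2 * (4 * x) + (ε / 8 * T + 4 * x) + (6 * C * 2 ^ (κ + 1) + 1) * x = ε * T / 2 + ε * T / 8 + (A0 * x - 8 * x) := by
    rw [hA0x]; ring
  rw [g1]
  have g2 : ε / 8 * T = ε * T / 8 := by ring
  rw [g2] at hfin
  linarith

end Pool.Agent.TH894.PV
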