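import Pool.Agent.TH894.CW3

set_option autoImplicit false

/-! The number of digits and the logarithm; the form for the Hamming spheres. -/

namespace Pool.Agent.TH894.CW
open Finset
open Pool.Agent.W93.DG
open Pool.Agent.W93.LM (Nice)
open Pool.Agent.TH894.SM (change Sph sphere_avg)

lemma conv (b : ℕ) (hb : 2 ≤ b) : ∃ N₀ : ℕ, ∀ N : ℕ, N₀ ≤ N → ((Nat.log b N + 1 : ℕ) : ℝ) / Real.log ((Nat.log b N + 1 : ℕ) : ℝ) ≤
    4 / Real.log b * (Real.log N / Real.log (Real.log N)) := by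
  have hlb : 0 < Real.log b := Real.log_pos (by exact_mod_cast (by omega : 1 < b))
  obtain ⟨N₁, h1⟩ := Pool.Agent.H373R2.T7.ev_L' (Real.log b ^ 2 + Real.log b + 3)
  refine ⟨N₁ + b, fun N hN => ?_⟩
  have hL := h1 N (by omega)
  obtain ⟨L, hLd⟩ : ∃ L, L = Real.log N := ⟨_, rfl⟩
  rw [← hLd] at hL ⊢
  have hL3 : 3 ≤ L := by nlinarith [sq_nonneg (Real.log b)]
  have hL0 : 0 < L := by linarith
  have hN0 : N ≠ 0 := by omega
  have hNr : (0 : ℝ) < N := by exact_mod_cast Nat.pos_of_ne_zero hN0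
  have hbr : (0 : ℝ) < b := by exact_mod_cast (by omega : 0 < b)
  obtain ⟨D, hD⟩ : ∃ D : ℕ, D = Nat.log b N + 1 := ⟨_, rfl⟩
  rw [← hD]
  have k1 : ((Nat.log b N : ℕ) : ℝ) * Real.log b ≤ L := by
    have h2 : b ^ Nat.log b N ≤ N := Nat.pow_log_le_self b hN0
    have h3 : Real.log ((b : ℝ) ^ Nat.log b N) ≤ Real.log N := by
      apply Real.log_le_log (by positivity)
      exact_mod_cast h2
    rw [Real.log_pow] at h3
    rw [hLd]
    exact h3
  have k2 : L ≤ (D : ℝ) * Real.log b := by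
    have h2 : N < b ^ (Nat.log b N + 1) := Nat.lt_pow_succ_log_self (by omega) N
    have h3 : Real.log N ≤ Real.log ((b : ℝ) ^ (Nat.log b N + 1)) := by
      apply Real.log_le_log hNr
      exact_mod_cast h2.le
    rw [Real.log_pow] at h3
    rw [hLd, hD]
    exact h3
  have k3 : (D : ℝ) * Real.log b ≤ 2 * L := by
    have h2 : (D : ℝ) = (Nat.log b N : ℕ) + 1 := by rw [hD]; push_cast; ring
    rw [h2]
    nlinarith [sq_nonneg (Real.log b)]
  have hlen0 : (0 : ℝ) < D := by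
    by_contra hcon
    push Not at hcon
    nlinarith
  -- the logarithm of the number of digits
  have k4 : √L ≤ D := by
    have h2 : Real.log b ≤ √L := by
      apply Real.le_sqrt_of_sq_le
      linarith
    have h3 : √L * √L = L := Real.mul_self_sqrt hL0.le
    have h4 : √L * Real.log b ≤ (D : ℝ) * Real.log b := by
      calc √L * Real.log b ≤ √L * √L := mul_le_mul_of_nonneg_left h2 (Real.sqrt_nonneg _)
        _ = L := h3
        _ ≤ _ := k2
    exact le_of_mul_le_mul_right h4 hlb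
  have hsq1 : 0 < √L := Real.sqrt_pos.2 hL0
  have hll : 0 < Real.log L := Real.log_pos (by linarith)
  have k5 : Real.log L ≤ 2 * Real.log D := by
    have h2 := Real.log_le_log hsq1 k4
    rw [Real.log_sqrt hL0.le] at h2
    linarith
  have hlk : 0 < Real.log D := by linarith
  have e1 : 4 / Real.log b * (L / Real.log L) = (4 * L) / (Real.log b * Real.log L) := by
    rw [div_mul_div_comm]
  rw [e1, div_le_div_iff₀ hlk (by positivity)]
  calc (D : ℝ) * (Real.log b * Real.log L) = (D * Real.log b) * Real.log L := by ring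
    _ ≤ (2 * L) * (2 * Real.log D) := mul_le_mul k3 k5 hll.le (by linarith)
    _ = 4 * L * Real.log D := by ring

/-- sizes -/
lemma sizes (b : ℕ) (hb : 2 ≤ b) (R : ℕ) (hR : 1 ≤ R) (C : ℝ) (hC : 0 < C) (k₀ : ℕ) : ∃ N₀ : ℕ, ∀ N : ℕ, N₀ ≤ N → ∀ r : ℕ,
    4 * C / Real.log b * (Real.log N / Real.log (Real.log N)) ≤ r → (r : ℝ) ≤ 1 / (R * b) * Real.log N →
    k₀ ≤ Nat.log b N + 1 ∧ b ^ Nat.log b N ≤ N ∧ N < b ^ (Nat.log b N + 1) ∧
    C * (Nat.log b N + 1 : ℕ) / Real.log ((Nat.log b N + 1 : ℕ) : ℝ) ≤ r ∧ R * r ≤ Nat.log b N + 1 := by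
  have hbr : (2 : ℝ) ≤ b := by exact_mod_cast hb
  have hRr : (1 : ℝ) ≤ R := by exact_mod_cast hR
  have hlb : 0 < Real.log b := Real.log_pos (by linarith)
  obtain ⟨N₁, hconv⟩ := conv b hb
  refine ⟨N₁ + b ^ k₀ + 2, fun N hN r hr hr' => ?_⟩
  obtain ⟨K, hK⟩ : ∃ K, K = Nat.log b N + 1 := ⟨_, rfl⟩
  have hN0 : N ≠ 0 := by omega
  have hKk : k₀ ≤ K := by
    have : k₀ ≤ Nat.log b N := Nat.le_log_of_pow_le (by omega) (by omega)
    omega
  have hNu : N < b ^ K := by
    rw [hK]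
    exact Nat.lt_pow_succ_log_self (by omega) N
  refine ⟨by omega, Nat.pow_log_le_self b hN0, by rw [← hK]; exact hNu, ?_, ?_⟩
  · have h2 := hconv N (by omega)
    rw [← hK] at h2 ⊢
    calc C * K / Real.log K = C * (K / Real.log K) := by ring
      _ ≤ C * (4 / Real.log b * (Real.log N / Real.log (Real.log N))) := mul_le_mul_of_nonneg_left h2 hC.le
      _ = 4 * C / Real.log b * (Real.log N / Real.log (Real.log N)) := by ring
      _ ≤ r := hr
  · rw [← hK]
    have h2 : Real.log N ≤ K * Real.log b := by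
      have h3 : Real.log N ≤ Real.log ((b : ℝ) ^ K) := by
        apply Real.log_le_log (by exact_mod_cast Nat.pos_of_ne_zero hN0)
        exact_mod_cast hNu.le
      rwa [Real.log_pow] at h3
    have h3 : Real.log b ≤ b := (Real.log_le_sub_one_of_pos (by linarith)).trans (by linarith)
    have h4 : (r : ℝ) * (R * b) ≤ Real.log N := by
      have h5 : (r : ℝ) * (R * b) ≤ (1 / (R * b) * Real.log N) * (R * b) :=
        mul_le_mul_of_nonneg_right hr' (by positivity)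
      have h6 : (1 / (R * b) * Real.log N) * (R * b) = Real.log N := by
        field_simp
      linarith
    have h5 : (R * r : ℝ) * b ≤ K * b := by
      calc (R * r : ℝ) * b = r * (R * b) := by ring
        _ ≤ Real.log N := h4
        _ ≤ K * Real.log b := h2
        _ ≤ K * b := mul_le_mul_of_nonneg_left h3 (Nat.cast_nonneg _)
    have h6 := le_of_mul_le_mul_right h5 (by linarith)
    exact_mod_cast h6

/-- few members of the Hamming spheres are bad -/
theorem final_N (b : ℕ) (hb : 2 ≤ b) (u : ℕ → ℂ) (hu : Nice u) : ∃ c : ℝ, 0 < c ∧ ∀ ε : ℝ, 0 < ε → ∀ L : ℕ, ∃ (C : ℝ) (N₀ : ℕ), 0 < C ∧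
    ∀ N : ℕ, N₀ ≤ N → ∀ r : ℕ, C * (Real.log N / Real.log (Real.log N)) ≤ r → (r : ℝ) ≤ c * Real.log N →
    ∀ (m : ℕ) (F : ℕ → Finset ℕ), 1 ≤ m → (∀ i, F i ⊆ range b ∧ N / b ^ i % b ∉ F i ∧ (F i).card = m) →
    ∀ (a : Fin L → ℕ) (g : Fin L → ℕ → ℂ), (∀ l, 1 ≤ a l) → (∀ l n, ‖g l n‖ ≤ 1) →
    ∀ B ⊆ Sph b (Nat.log b N + 1) N (Ico 1 (Nat.log b N + 1)) F r,
    (∀ s ∈ B, ∃ l, ∃ X : ℕ, a l * X ≤ N ∧ ε * N < ‖∑ n ∈ Icc 1 X, g l n * Pool.Agent.H373R2.T7.exI u (((a l * n : ℕ) : ℤ) + s)‖) →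
    (B.card : ℝ) ≤ ε * (Sph b (Nat.log b N + 1) N (Ico 1 (Nat.log b N + 1)) F r).card := by
  classical
  obtain ⟨R, hR, H⟩ := final_S b hb u hu
  have hbr : (2 : ℝ) ≤ b := by exact_mod_cast hb
  have hRr : (1 : ℝ) ≤ R := by exact_mod_cast hR
  have hlb : 0 < Real.log b := Real.log_pos (by linarith)
  refine ⟨1 / (R * b), by positivity, fun ε hε L => ?_⟩
  obtain ⟨C, k₀, hC, h1⟩ := H (ε / b) (by positivity) L
  obtain ⟨N₀, hsz⟩ := sizes b hb R hR C hC (k₀ + 1)
  refine ⟨4 * C / Real.log b, N₀, by positivity, fun N hN r hr hr' m F hm hF a g ha hg B hB hBb => ?_⟩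
  obtain ⟨z1, z2, z3, z4, z5⟩ := hsz N hN r hr hr'
  obtain ⟨K, hK⟩ : ∃ K, K = Nat.log b N + 1 := ⟨_, rfl⟩
  have hlog : Nat.log b N = K - 1 := by omega
  rw [← hK] at z1 z3 z4 z5 hB ⊢
  have hVsub : Ico 1 K ⊆ range K := by
    intro i hi
    rw [mem_Ico] at hi
    rw [mem_range]
    omega
  refine sphere_avg b K N hb z3 (Ico 1 K) hVsub F m hm hF r ε B hB ?_
  intro f hf
  have hbN : (b : ℝ) ^ K ≤ b * N := by
    have : b ^ K ≤ b * N := by
      rw [hlog] at z2
      calc b ^ K = b * b ^ (K - 1) := by rw [← pow_succ']; congr 1; omega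
        _ ≤ b * N := Nat.mul_le_mul_left _ z2
    exact_mod_cast this
  have h2 := h1 K (by omega) N z3 f hf r z4 z5 a g ha hg ((powersetCard r (Ico 1 K)).filter (fun S => change b K N f S ∈ B))
    (filter_subset _ _) (by
      intro T hT
      rw [mem_filter] at hT
      obtain ⟨l, X, hX, hbig⟩ := hBb _ hT.2
      refine ⟨l, X, hX.trans z3.le, lt_of_le_of_lt ?_ hbig⟩
      calc ε / b * (b : ℝ) ^ K ≤ ε / b * (b * N) := mul_le_mul_of_nonneg_left hbN (by positivity)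
        _ = ε * N := by field_simp)
  refine h2.trans ?_
  rw [card_powersetCard, Nat.card_Ico]
  apply mul_le_mul_of_nonneg_right _ (Nat.cast_nonneg _)
  exact div_le_self hε.le (by linarith)

end Pool.Agent.TH894.CW
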