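import Pool.Agent.TH894.SM5

set_option autoImplicit false

/-! The second moment over random changes of digits, for an arbitrary function of the frequency. -/

namespace Pool.Agent.TH894.CW
open Finset
open Pool.Agent.H807R2.Dav
open Pool.Agent.H373R2.T7
open Pool.Agent.W93.DG
open Pool.Agent.W93.HD
open Pool.Agent.W93.RD (EE mass ne_window)
open Pool.Agent.TH894.SM

lemma Pos_card (b R K h : ℕ) (J : Fin 3 → Finset ℕ) (hR : 1 ≤ R) (hh : 1 ≤ h) (hK : 8 * h + 16 ≤ K) (hJ : Pos b R K h J) :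
    K ≤ 4 * (J 1).card ∧ J 1 ⊆ range (K - 2) := by
  have hcd : ∀ (x y : ℕ) (S : Finset ℕ), S ⊆ Ico x y → 8 * R * (Ico x y \ S).card ≤ y - x → 7 * (y - x) ≤ 8 * S.card := by
    intro x y S hS hc
    have e1 := card_sdiff_add_card_eq_card hS
    rw [Nat.card_Ico] at e1
    have e2 : 8 * (Ico x y \ S).card ≤ 8 * R * (Ico x y \ S).card := by
      calc 8 * (Ico x y \ S).card = 8 * 1 * (Ico x y \ S).card := by ring
        _ ≤ _ := Nat.mul_le_mul_right _ (Nat.mul_le_mul_left _ hR)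
    omega
  have hc1 := hcd _ _ _ hJ.s1 (hJ.c1.trans (by omega))
  refine ⟨by omega, fun j hj => ?_⟩
  have := mem_Ico.1 (hJ.s1 hj)
  rw [mem_range]
  omega

theorem core (b : ℕ) (hb : 2 ≤ b) (R : ℕ) (hR : 1 ≤ R) : ∃ η : ℝ, 0 < η ∧ η ≤ 1 ∧ ∀ A : ℕ, 3 ≤ A → ∃ k₀ : ℕ, ∀ K : ℕ, k₀ ≤ K →
    ∀ (N : ℕ) (e : ℕ → ℤ), (∀ j, e j ≠ 0 ∧ |e j| < b) → ∀ J : Fin 3 → Finset ℕ, Pos b R K (hh b A K) J →
    ∀ t : ℕ, 4 ≤ t → ∀ (V : ℕ → ℂ) (E₀ : ℝ),
    (∀ r < b ^ (K + 1), ∀ S : Finset ℕ, (∀ r' ∈ S, r' < b ^ (K + 1) ∧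
        Bad b R K (hh b A K) (K / (16 * b)) ((mu b * r' + mu b * (b ^ (K + 1) - r)) % b ^ (K + 1))) →
      ∑ r' ∈ S, ‖V r'‖ ≤ E₀) →
    ∑ ω ∈ Om J t, ‖EE V (b ^ (K + 1)) (nw b N e ω)‖ ^ 2 ≤
      (E₀ * ∑ r ∈ range (b ^ (K + 1)), ‖V r‖ + (1 - η) ^ (t - 4) / ((J 1).card : ℝ) ^ 4 *
        ∑ r ∈ range (b ^ (K + 1)), ∑ r' ∈ range (b ^ (K + 1)),
          ‖V r‖ * ‖V r'‖ * ‖Ph (dl b e) (J 1) (((r' : ℝ) - r) / ((b ^ (K + 1) : ℕ) : ℝ))‖ ^ 4) * (Om J t).card := by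
  classical
  have hbn : 0 < b := by omega
  have hb1 : 1 < b := by omega
  obtain ⟨η, hη0, hη1, hwin⟩ := Ph_window b R hb hR
  refine ⟨η, hη0, hη1.le, fun A hUA => ?_⟩
  obtain ⟨k4, h4⟩ := hh_small b A (512 * b) hb
  refine ⟨k4 + 256 * b + 64, fun K hK N e he J hJ t ht V E₀ hbadK => ?_⟩
  refine (EE_second b N (b ^ (K + 1)) e J t _).trans ?_
  obtain ⟨M, hM⟩ : ∃ M, M = b ^ (K + 1) := ⟨_, rfl⟩
  rw [← hM] at hbadK ⊢
  obtain ⟨h, hh'⟩ : ∃ h, h = hh b A K := ⟨_, rfl⟩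
  rw [← hh'] at hJ hbadK
  obtain ⟨g, hg⟩ : ∃ g, g = K / (16 * b) / 8 := ⟨_, rfl⟩
  have hh1 : 8 ≤ h := by
    rw [hh']
    unfold hh
    have hlog : 1 ≤ Nat.log b K := Nat.log_pos hb1 (by omega)
    calc 8 ≤ 2 * 3 * (1 + 1) := by norm_num
      _ ≤ 2 * A * (Nat.log b K + 1) := Nat.mul_le_mul (Nat.mul_le_mul_left _ hUA) (by omega)
  have hgh : 4 * h ≤ g := by
    have e1 := h4 K (by omega)
    rw [← hh'] at e1
    rw [hg, Nat.div_div_eq_div_mul]
    apply (Nat.le_div_iff_mul_le (by omega)).2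
    calc 4 * h * (16 * b * 8) = 512 * b * h := by ring
      _ ≤ K := e1
  have hgK3 : 256 * g ≤ K := by
    rw [hg, Nat.div_div_eq_div_mul]
    refine le_trans ?_ (Nat.mul_div_le K (16 * b * 8))
    apply Nat.mul_le_mul_right
    omega
  have hKh : 2 * h + 10 ≤ K := by omega
  obtain ⟨hJ1card, hJ1sub⟩ := Pos_card b R K h J hR (by omega) (by omega) hJ
  have hJ1pos : (0 : ℝ) < (J 1).card := by exact_mod_cast (by omega : 0 < (J 1).card)
  obtain ⟨s, hs⟩ : ∃ s : ℕ → ℕ → ℕ, s = fun r r' => (mu b * r' + mu b * (M - r)) % M := ⟨_, rfl⟩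
  obtain ⟨P, hP⟩ : ∃ P : Fin 3 → ℕ → ℕ → ℝ, P = fun (q : Fin 3) (r r' : ℕ) => ‖Ph (dl b e) (J q) (((r' : ℝ) - (r : ℝ)) / (M : ℝ))‖ := ⟨_, rfl⟩
  obtain ⟨T, hT⟩ : ∃ T : Fin 3 → ℝ, T = fun q => ((J q).card : ℝ) := ⟨_, rfl⟩
  have hP0 : ∀ q r r', 0 ≤ P q r r' := fun q r r' => by rw [hP]; exact norm_nonneg _
  have hPT : ∀ q r r', P q r r' ≤ T q := fun q r r' => by rw [hP, hT]; exact Ph_le _ _ _
  have hT0 : ∀ q, 0 ≤ T q := fun q => by rw [hT]; exact Nat.cast_nonneg _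
  have hOm : ((Om J t).card : ℝ) = ∏ q, T q ^ t := by rw [card_Om, hT]
  have hTall : 0 ≤ ∏ q, T q ^ t := prod_nonneg fun q _ => pow_nonneg (hT0 q) t
  have hT1 : 0 < T 1 := by rw [hT]; exact hJ1pos
  have hT1' : T 1 = ((J 1).card : ℝ) := by rw [hT]
  rw [hOm, ← hT1']
  -- the frequencies which are not nearly extremal
  have hgood : ∀ r < M, ∀ r', ¬ Bad b R K h (K / (16 * b)) (s r r') →
      ∏ q, P q r r' ^ t ≤ (1 - η) ^ (t - 4) * (P 1 r r' ^ 4 / T 1 ^ 4) * ∏ q, T q ^ t := by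
    intro r hr r' hnb
    have hex : ∃ q₀ : Fin 3, P q₀ r r' ≤ (1 - η) * T q₀ := by
      unfold Bad at hnb
      rw [← hg] at hnb
      rw [hs] at hnb
      simp only at hnb
      by_cases c1 : ne b (K - 1 - h) h ((mu b * r' + mu b * (M - r)) % M) * R ≤ 2 * h
      · by_cases c2 : ne b 1 h ((mu b * r' + mu b * (M - r)) % M) * R ≤ 2 * h
        · by_cases c3 : ne b g (K - 2 * g) ((mu b * r' + mu b * (M - r)) % M) * R ≤ K
          · exact absurd ⟨c1, c2, c3⟩ hnb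
          · refine ⟨1, ?_⟩
            have e1 : Ico (1 + h) (K - 1 - h) = Ico (1 + h) ((1 + h) + (K - 2 - 2 * h)) := by congr 1; omega
            have e0 := hwin K (1 + h) (K - 2 - 2 * h) r r' (by rw [← hM]; exact hr.le) (by omega) (by omega) e he (J 1)
              (by rw [← e1]; exact hJ.s1) (by rw [← e1]; exact hJ.c1) (by
                rw [← hM]
                have e2 : K - (1 + h) - (K - 2 - 2 * h) = 1 + h := by omega
                rw [e2]
                have e3 := ne_window b g (K - 2 * g) (1 + h) (K - 2 - 2 * h) ((mu b * r' + mu b * (M - r)) % M) (by omega) (by omega)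
                have e4 : ne b g (K - 2 * g) ((mu b * r' + mu b * (M - r)) % M) * R ≤ ne b (1 + h) (K - 2 - 2 * h) ((mu b * r' + mu b * (M - r)) % M) * R :=
                  Nat.mul_le_mul_right _ e3
                rw [mul_comm R]
                omega)
            rw [← hM] at e0
            rw [hP, hT]
            exact e0
        · refine ⟨2, ?_⟩
          have e1 : Ico (K - 1 - h) (K - 1) = Ico (K - 1 - h) ((K - 1 - h) + h) := by congr 1; omega
          have e0 := hwin K (K - 1 - h) h r r' (by rw [← hM]; exact hr.le) (by omega) hh1 e he (J 2)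
              (by rw [← e1]; exact hJ.s2) (by rw [← e1]; exact hJ.c2) (by
                rw [← hM]
                have e2 : K - (K - 1 - h) - h = 1 := by omega
                rw [e2, mul_comm R]
                omega)
          rw [← hM] at e0
          rw [hP, hT]
          exact e0
      · refine ⟨0, ?_⟩
        have e0 := hwin K 1 h r r' (by rw [← hM]; exact hr.le) (by omega) hh1 e he (J 0) hJ.s0 hJ.c0 (by
                rw [← hM]
                rw [mul_comm R]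
                omega)
        rw [← hM] at e0
        rw [hP, hT]
        exact e0
    obtain ⟨q₀, hq₀⟩ := hex
    exact three_win (fun q => P q r r') T η t (by omega) hη0.le hη1.le (fun q => hP0 q r r') (fun q => hPT q r r') hT1 q₀ hq₀
  have hη' : 0 ≤ 1 - η := by linarith
  -- the rows
  have hrow : ∀ r ∈ range M, ∑ r' ∈ range M, ‖V r‖ * ‖V r'‖ * ∏ q, P q r r' ^ t ≤
      ‖V r‖ * (E₀ * ∏ q, T q ^ t) +
      (((1 - η) ^ (t - 4) / T 1 ^ 4) * ∏ q, T q ^ t) * ∑ r' ∈ range M, ‖V r‖ * ‖V r'‖ * P 1 r r' ^ 4 := by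
    intro r hr
    rw [mem_range] at hr
    rw [← sum_filter_add_sum_filter_not (range M) (fun r' => Bad b R K h (K / (16 * b)) (s r r'))]
    apply add_le_add
    · have e1 := hbadK r hr ((range M).filter (fun r' => Bad b R K h (K / (16 * b)) (s r r'))) (by
          intro r' hr'
          rw [mem_filter, mem_range, hs] at hr'
          exact hr')
      have e2 : ∑ r' ∈ (range M).filter (fun r' => Bad b R K h (K / (16 * b)) (s r r')), ‖V r‖ * ‖V r'‖ * ∏ q, P q r r' ^ t ≤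
          ∑ r' ∈ (range M).filter (fun r' => Bad b R K h (K / (16 * b)) (s r r')), ‖V r‖ * (‖V r'‖ * ∏ q, T q ^ t) := by
        apply sum_le_sum
        intro r' _
        rw [mul_assoc]
        apply mul_le_mul_of_nonneg_left _ (norm_nonneg _)
        apply mul_le_mul_of_nonneg_left _ (norm_nonneg _)
        exact prod_le_prod (fun q _ => pow_nonneg (hP0 q r r') t) fun q _ => pow_le_pow_left₀ (hP0 q r r') (hPT q r r') t
      refine e2.trans ?_
      rw [← mul_sum, ← sum_mul]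
      apply mul_le_mul_of_nonneg_left _ (norm_nonneg _)
      exact mul_le_mul_of_nonneg_right e1 hTall
    · have e1 : ∀ r' ∈ (range M).filter (fun r' => ¬ Bad b R K h (K / (16 * b)) (s r r')),
          ‖V r‖ * ‖V r'‖ * ∏ q, P q r r' ^ t ≤
          (((1 - η) ^ (t - 4) / T 1 ^ 4) * ∏ q, T q ^ t) * (‖V r‖ * ‖V r'‖ * P 1 r r' ^ 4) := by
        intro r' hr'
        rw [mem_filter] at hr'
        have e2 := hgood r hr r' hr'.2
        calc ‖V r‖ * ‖V r'‖ * ∏ q, P q r r' ^ t ≤ (‖V r‖ * ‖V r'‖) * ((1 - η) ^ (t - 4) * (P 1 r r' ^ 4 / T 1 ^ 4) * ∏ q, T q ^ t) :=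
              mul_le_mul_of_nonneg_left e2 (by positivity)
          _ = _ := by ring
      refine (sum_le_sum e1).trans ?_
      rw [← mul_sum]
      apply mul_le_mul_of_nonneg_left _ (by positivity)
      apply sum_le_sum_of_subset_of_nonneg (filter_subset _ _)
      intro r' _ _
      have := hP0 1 r r'
      positivity
  have hsum := sum_le_sum hrow
  rw [sum_add_distrib, ← sum_mul, ← mul_sum] at hsum
  have hgoal : ∑ r ∈ range M, ∑ r' ∈ range M, ‖V r‖ * ‖V r'‖ * ∏ q, ‖Ph (dl b e) (J q) (((r' : ℝ) - r) / (M : ℝ))‖ ^ t =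
      ∑ r ∈ range M, ∑ r' ∈ range M, ‖V r‖ * ‖V r'‖ * ∏ q, P q r r' ^ t := by rw [hP]
  rw [hgoal]
  refine hsum.trans (le_of_eq ?_)
  have hgoal2 : ∑ r ∈ range M, ∑ r' ∈ range M, ‖V r‖ * ‖V r'‖ * ‖Ph (dl b e) (J 1) (((r' : ℝ) - r) / (M : ℝ))‖ ^ 4 =
      ∑ r ∈ range M, ∑ r' ∈ range M, ‖V r‖ * ‖V r'‖ * P 1 r r' ^ 4 := by rw [hP]
  rw [hgoal2]
  ring

end Pool.Agent.TH894.CW
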