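import Pool.Agent.TH894.CW1
import Pool.Agent.TH894.GN2
import Pool.Agent.W93.LM8

set_option autoImplicit false

/-! Correlations of a bounded function with a nice function, at shifts after few changes of digits. -/

namespace Pool.Agent.TH894.CW
open Finset
open Pool.Agent.H807R2.Dav
open Pool.Agent.H373R2.T7 (SupSmall exI)
open Pool.Agent.W93.DG
open Pool.Agent.W93.LM (FC FC_pars Nice bad_sqC EE_corrC grid_step exI_norm)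
open Pool.Agent.W93.RD (EE)
open Pool.Agent.TH894.SM (Ph Om nw card_Om dl Pos mu mu_pos Ph_le)

lemma pow_small (η δ : ℝ) (hη0 : 0 < η) (hη1 : η ≤ 1) (hδ : 0 < δ) : ∃ t₀ : ℕ, ∀ t : ℕ, t₀ ≤ t → (1 - η) ^ (t - 4) ≤ δ := by
  obtain ⟨v, hv⟩ := exists_pow_lt_of_lt_one hδ (show 1 - η < 1 by linarith)
  refine ⟨v + 4, fun t ht => ?_⟩
  refine le_trans ?_ hv.le
  exact pow_le_pow_of_le_one (by linarith) (by linarith) (by omega)

/-- the second moment -/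
theorem second_C (b : ℕ) (hb : 2 ≤ b) (u : ℕ → ℂ) (hu : Nice u) : ∃ R A : ℕ, 1 ≤ R ∧ 3 ≤ A ∧ ∀ δ : ℝ, 0 < δ → ∃ t₀ : ℕ, ∀ t : ℕ, t₀ ≤ t →
    ∃ k₀ : ℕ, ∀ K : ℕ, k₀ ≤ K → ∀ (N : ℕ) (e : ℕ → ℤ), (∀ j, e j ≠ 0 ∧ |e j| < b) →
    ∀ J : Fin 3 → Finset ℕ, Pos b R K (hh b A K) J → ∀ g : ℕ → ℂ, (∀ n, ‖g n‖ ≤ 1) →
    ∑ ω ∈ Om J t, ‖EE (fun r => (starRingEnd ℂ) (FC (fun n => (starRingEnd ℂ) (g n)) (b ^ K) (b ^ (K + 1)) r) *
        FC u (b ^ K) (b ^ (K + 1)) r) (b ^ (K + 1)) (nw b N e ω)‖ ^ 2 ≤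
      δ * (((b ^ (K + 1) : ℕ) : ℝ) * ((b ^ K : ℕ) : ℝ)) ^ 2 * (Om J t).card := by
  classical
  have hbn : 0 < b := by omega
  have hb1 : 1 < b := by omega
  obtain ⟨R, hR, hbad⟩ := bad_sqC b hb
  obtain ⟨η, hη0, hη1, hcore⟩ := core b hb R hR
  obtain ⟨A, hUA, k1, h1⟩ := hbad u hu (mu b) 3
  obtain ⟨k2, h2⟩ := hcore A (by omega)
  obtain ⟨k4, h4⟩ := hh_small b A (512 * b) hb
  refine ⟨R, A, hR, by omega, fun δ hδ => ?_⟩
  obtain ⟨t₀, ht₀⟩ := pow_small η (δ / 2) hη0 hη1 (by positivity)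
  refine ⟨t₀ + 4, fun t ht => ?_⟩
  obtain ⟨k5, hk5⟩ := exists_nat_ge (2 / δ)
  refine ⟨k1 + k2 + k4 + k5 + 256 * b + 64, fun K hK N e he J hJ g hg => ?_⟩
  obtain ⟨X, hX⟩ : ∃ X, X = b ^ K := ⟨_, rfl⟩
  obtain ⟨M, hM⟩ : ∃ M, M = b ^ (K + 1) := ⟨_, rfl⟩
  have hXM : X ≤ M := by rw [hX, hM]; exact Nat.pow_le_pow_right hbn (by omega)
  have hX1 : 1 ≤ X := by rw [hX]; exact Nat.one_le_pow _ _ hbn
  have hX0 : (0 : ℝ) < X := by exact_mod_cast (by omega : 0 < X)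
  have hM0 : (0 : ℝ) < M := by exact_mod_cast (by omega : 0 < M)
  have hK0 : (0 : ℝ) < K := by exact_mod_cast (by omega : 0 < K)
  have hK1 : (1 : ℝ) ≤ K := by exact_mod_cast (by omega : 1 ≤ K)
  obtain ⟨Fg, hFg⟩ : ∃ Fg : ℕ → ℂ, Fg = FC (fun n => (starRingEnd ℂ) (g n)) X M := ⟨_, rfl⟩
  obtain ⟨Fu, hFu⟩ : ∃ Fu : ℕ → ℂ, Fu = FC u X M := ⟨_, rfl⟩
  obtain ⟨V, hV⟩ : ∃ V : ℕ → ℂ, V = fun r => (starRingEnd ℂ) (Fg r) * Fu r := ⟨_, rfl⟩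
  have hVn : ∀ r, ‖V r‖ = ‖Fg r‖ * ‖Fu r‖ := fun r => by rw [hV]; simp only [norm_mul, RCLike.norm_conj]
  have hVe : (fun r => (starRingEnd ℂ) (FC (fun n => (starRingEnd ℂ) (g n)) (b ^ K) (b ^ (K + 1)) r) *
        FC u (b ^ K) (b ^ (K + 1)) r) = V := by rw [hV, hFg, hFu, hX, hM]
  rw [hVe]
  have hsqb : ∀ w : ℕ → ℂ, (∀ n, ‖w n‖ ≤ 1) → ∑ r ∈ range M, ‖FC w X M r‖ ^ 2 ≤ M * X := by
    intro w hw
    rw [FC_pars w X M (by omega) hXM]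
    apply mul_le_mul_of_nonneg_left _ hM0.le
    refine (sum_le_sum (fun n _ => pow_le_one₀ (norm_nonneg _) (hw n))).trans (le_of_eq ?_)
    rw [sum_const, Nat.card_Icc, nsmul_eq_mul, Nat.add_sub_cancel, mul_one]
  have hg2 : ∑ r ∈ range M, ‖Fg r‖ ^ 2 ≤ M * X := by
    rw [hFg]
    exact hsqb _ fun n => by rw [RCLike.norm_conj]; exact hg n
  have hu2 : ∑ r ∈ range M, ‖Fu r‖ ^ 2 ≤ M * X := by
    rw [hFu]
    exact hsqb _ hu.1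
  have hMX0 : (0 : ℝ) ≤ M * X := by positivity
  have hmass : ∑ r ∈ range M, ‖V r‖ ≤ M * X := by
    simp only [hVn]
    refine (Real.sum_mul_le_sqrt_mul_sqrt _ _ _).trans ?_
    calc √(∑ r ∈ range M, ‖Fg r‖ ^ 2) * √(∑ r ∈ range M, ‖Fu r‖ ^ 2) ≤ √((M : ℝ) * X) * √((M : ℝ) * X) :=
          mul_le_mul (Real.sqrt_le_sqrt hg2) (Real.sqrt_le_sqrt hu2) (Real.sqrt_nonneg _) (Real.sqrt_nonneg _)
      _ = M * X := Real.mul_self_sqrt hMX0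
  have hbadV : ∀ r < b ^ (K + 1), ∀ S : Finset ℕ, (∀ r' ∈ S, r' < b ^ (K + 1) ∧
        Bad b R K (hh b A K) (K / (16 * b)) ((mu b * r' + mu b * (b ^ (K + 1) - r)) % b ^ (K + 1))) →
      ∑ r' ∈ S, ‖V r'‖ ≤ (M : ℝ) * X / K := by
    intro r _ S hS
    have e1 := h1 K (by omega) (mu b * (b ^ (K + 1) - r)) (mu b) (mu_pos b) ((Nat.lt_pow_self hb1).le) S hS
    rw [← hX, ← hM, ← hFu] at e1
    simp only [hVn]
    refine (Real.sum_mul_le_sqrt_mul_sqrt _ _ _).trans ?_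
    have hsub : S ⊆ range M := by
      intro r' hr'
      rw [mem_range, hM]
      exact (hS r' hr').1
    have e2 : ∑ r ∈ S, ‖Fg r‖ ^ 2 ≤ M * X :=
      (sum_le_sum_of_subset_of_nonneg hsub fun _ _ _ => sq_nonneg _).trans hg2
    have e3 : (M : ℝ) * X / (K : ℝ) ^ 3 ≤ M * X / K ^ 2 := by
      apply div_le_div_of_nonneg_left hMX0 (by positivity)
      exact pow_le_pow_right₀ hK1 (by norm_num)
    calc √(∑ r ∈ S, ‖Fg r‖ ^ 2) * √(∑ r ∈ S, ‖Fu r‖ ^ 2) ≤ √((M : ℝ) * X) * √((M : ℝ) * X / K ^ 2) :=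
          mul_le_mul (Real.sqrt_le_sqrt e2) (Real.sqrt_le_sqrt (e1.trans e3)) (Real.sqrt_nonneg _) (Real.sqrt_nonneg _)
      _ = M * X / K := by
          rw [Real.sqrt_div' _ (by positivity), Real.sqrt_sq hK0.le, mul_div_assoc', Real.mul_self_sqrt hMX0]
  have hmain := h2 K (by omega) N e he J hJ t (by omega) V ((M : ℝ) * X / K) hbadV
  rw [← hM] at hmain
  rw [← hM, ← hX]
  refine hmain.trans ?_
  apply mul_le_mul_of_nonneg_right _ (Nat.cast_nonneg _)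
  have hhs := h4 K (by omega)
  have hgK : 512 * b * hh b A K ≤ K := hhs
  have hJ8 : 8 * hh b A K + 16 ≤ K := by
    have : 512 * 2 * hh b A K ≤ 512 * b * hh b A K := Nat.mul_le_mul_right _ (Nat.mul_le_mul_left _ hb)
    omega
  have hh1 : 1 ≤ hh b A K := by
    unfold hh
    exact Nat.mul_pos (by omega) (by omega)
  obtain ⟨hJc, _⟩ := Pos_card b R K (hh b A K) J hR hh1 hJ8 hJ
  obtain ⟨T, hT⟩ : ∃ T : ℝ, T = ((J 1).card : ℝ) := ⟨_, rfl⟩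
  have hT0 : 0 < T := by rw [hT]; exact_mod_cast (by omega : 0 < (J 1).card)
  rw [← hT]
  have hfour : ∑ r ∈ range M, ∑ r' ∈ range M, ‖V r‖ * ‖V r'‖ * ‖Ph (dl b e) (J 1) (((r' : ℝ) - r) / (M : ℝ))‖ ^ 4 ≤ (M * X) ^ 2 * T ^ 4 := by
    have e1 : ∀ r ∈ range M, ∀ r' ∈ range M, ‖V r‖ * ‖V r'‖ * ‖Ph (dl b e) (J 1) (((r' : ℝ) - r) / (M : ℝ))‖ ^ 4 ≤ ‖V r‖ * ‖V r'‖ * T ^ 4 := by
      intro r _ r' _
      apply mul_le_mul_of_nonneg_left _ (by positivity)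
      apply pow_le_pow_left₀ (norm_nonneg _)
      rw [hT]
      exact Ph_le _ _ _
    refine (sum_le_sum fun r hr => sum_le_sum (e1 r hr)).trans ?_
    have e2 : ∑ r ∈ range M, ∑ r' ∈ range M, ‖V r‖ * ‖V r'‖ * T ^ 4 = (∑ r ∈ range M, ‖V r‖) ^ 2 * T ^ 4 := by
      rw [sq, sum_mul_sum, sum_mul]
      apply sum_congr rfl
      intro r _
      rw [sum_mul]
    rw [e2]
    apply mul_le_mul_of_nonneg_right _ (by positivity)
    exact pow_le_pow_left₀ (sum_nonneg fun _ _ => norm_nonneg _) hmass 2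
  have hp := ht₀ t (by omega)
  have hη' : 0 ≤ (1 - η) ^ (t - 4) := pow_nonneg (by linarith) _
  have hpart1 : (M : ℝ) * X / K * ∑ r ∈ range M, ‖V r‖ ≤ δ / 2 * (M * X) ^ 2 := by
    have e3 : 1 / (K : ℝ) ≤ δ / 2 := by
      have e4 : 2 / δ ≤ K := hk5.trans (by exact_mod_cast (by omega : k5 ≤ K))
      rw [div_le_iff₀ hδ] at e4
      rw [div_le_iff₀ hK0]
      linarith
    calc (M : ℝ) * X / K * ∑ r ∈ range M, ‖V r‖ ≤ (M : ℝ) * X / K * (M * X) := mul_le_mul_of_nonneg_left hmass (by positivity)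
      _ = (1 / (K : ℝ)) * (M * X) ^ 2 := by ring
      _ ≤ _ := mul_le_mul_of_nonneg_right e3 (by positivity)
  have hpart2 : (1 - η) ^ (t - 4) / T ^ 4 * ∑ r ∈ range M, ∑ r' ∈ range M, ‖V r‖ * ‖V r'‖ * ‖Ph (dl b e) (J 1) (((r' : ℝ) - r) / (M : ℝ))‖ ^ 4 ≤
      δ / 2 * (M * X) ^ 2 := by
    calc _ ≤ (1 - η) ^ (t - 4) / T ^ 4 * ((M * X) ^ 2 * T ^ 4) := mul_le_mul_of_nonneg_left hfour (by positivity)
      _ = (1 - η) ^ (t - 4) * (M * X) ^ 2 := by field_simp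
      _ ≤ _ := mul_le_mul_of_nonneg_right hp (by positivity)
  linarith

/-- the bad property: some correlation up to the length `b ^ (K - 1)` is large -/
def Bdc (b : ℕ) (u : ℕ → ℂ) (ε : ℝ) (g : ℕ → ℂ) (K : ℕ) (y : ℤ) : Prop :=
  (∀ n, ‖g n‖ ≤ 1) ∧ 0 ≤ y ∧ y < (b : ℤ) ^ (K - 1) ∧ ∃ X : ℕ, X ≤ b ^ (K - 1) ∧
    ε * (b : ℝ) ^ (K - 1) < ‖∑ n ∈ Icc 1 X, g n * exI u ((n : ℤ) + y)‖

lemma grid_len (b : ℕ) (hb : 2 ≤ b) (ε : ℝ) (hε : 0 < ε) (hε1 : ε ≤ 1) : ∃ (G k₀ : ℕ), ∀ K : ℕ, k₀ ≤ K → ∃ D : ℕ, 1 ≤ D ∧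
    (D : ℝ) ≤ ε / 2 * (b : ℝ) ^ (K - 1) ∧ b ^ (K - 1) / D ≤ G := by
  obtain ⟨G, hG⟩ := exists_nat_ge (4 / ε)
  obtain ⟨k₀, hk₀⟩ := exists_nat_ge (4 / ε)
  refine ⟨G, k₀ + 1, fun K hK => ?_⟩
  obtain ⟨Y, hY⟩ : ∃ Y : ℝ, Y = (b : ℝ) ^ (K - 1) := ⟨_, rfl⟩
  have hYk : (k₀ : ℝ) ≤ Y := by
    have h1 : k₀ ≤ K - 1 := by omega
    have h2 : K - 1 < b ^ (K - 1) := Nat.lt_pow_self (by omega)
    rw [hY]
    exact_mod_cast (by omega : k₀ ≤ b ^ (K - 1))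
  have hY4 : 4 ≤ ε * Y := by
    have h1 : 4 / ε ≤ Y := hk₀.trans hYk
    rw [div_le_iff₀ hε] at h1
    linarith
  refine ⟨⌊ε / 2 * Y⌋₊, ?_, ?_, ?_⟩
  · apply Nat.le_floor
    push_cast
    linarith
  · rw [← hY]
    exact Nat.floor_le (by linarith)
  · have h1 : ε / 4 * Y ≤ (⌊ε / 2 * Y⌋₊ : ℝ) := by
      have h2 := Nat.lt_floor_add_one (ε / 2 * Y)
      linarith
    have h3 : Y ≤ G * (⌊ε / 2 * Y⌋₊ : ℝ) := by
      have h4 : Y = 4 / ε * (ε / 4 * Y) := by field_simp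
      calc Y = 4 / ε * (ε / 4 * Y) := h4
        _ ≤ G * (⌊ε / 2 * Y⌋₊ : ℝ) := mul_le_mul hG h1 (by linarith) (Nat.cast_nonneg _)
    apply Nat.div_le_of_le_mul
    have h5 : ((b ^ (K - 1) : ℕ) : ℝ) ≤ ((⌊ε / 2 * Y⌋₊ * G : ℕ) : ℝ) := by
      push_cast
      rw [← hY]
      linarith
    exact_mod_cast h5

/-- few choices are bad -/
theorem choices_C (b : ℕ) (hb : 2 ≤ b) (u : ℕ → ℂ) (hu : Nice u) : ∃ R A : ℕ, 1 ≤ R ∧ 1 ≤ A ∧ ∀ ε : ℝ, 0 < ε → ε ≤ 1 → ∀ ρ : ℝ, 0 < ρ →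
    ∃ t₀ : ℕ, ∀ t : ℕ, t₀ ≤ t → ∃ k₀ : ℕ, ∀ K : ℕ, k₀ ≤ K → ∀ g : ℕ → ℂ, ∀ (N : ℕ) (e : ℕ → ℤ),
      (∀ j, e j ≠ 0 ∧ |e j| < b) → ∀ J : Fin 3 → Finset ℕ, Pos b R K (hh b A K) J → ∀ S ⊆ Om J t,
      (∀ ω ∈ S, Bdc b u ε g K (nw b N e ω)) → (S.card : ℝ) ≤ ρ * ∏ q, ((J q).card : ℝ) ^ t := by
  classical
  obtain ⟨R, A, hR, hA, hsec⟩ := second_C b hb u hu
  refine ⟨R, A, hR, by omega, fun ε hε hε1 ρ hρ => ?_⟩
  obtain ⟨G, k₁, hgrid⟩ := grid_len b hb ε hε hε1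
  have hbr : (2 : ℝ) ≤ b := by exact_mod_cast hb
  have hb0 : (0 : ℝ) < b := by linarith
  obtain ⟨δ, hδ⟩ : ∃ δ : ℝ, δ = ρ * (ε / 2) ^ 2 / ((G + 1) * b ^ 2) := ⟨_, rfl⟩
  have hδ0 : 0 < δ := by rw [hδ]; positivity
  obtain ⟨t₀, ht₀⟩ := hsec δ hδ0
  refine ⟨t₀, fun t ht => ?_⟩
  obtain ⟨k₀, hk₀⟩ := ht₀ t ht
  refine ⟨k₀ + k₁ + 1, fun K hK g N e he J hJ S hS hSb => ?_⟩
  rcases S.eq_empty_or_nonempty with hSe | ⟨ω₀, hω₀⟩
  · rw [hSe, card_empty, Nat.cast_zero]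
    exact mul_nonneg hρ.le (prod_nonneg fun q _ => pow_nonneg (Nat.cast_nonneg _) _)
  have hg := (hSb ω₀ hω₀).1
  obtain ⟨D, hD1, hD2, hD3⟩ := hgrid K (by omega)
  obtain ⟨Y, hY⟩ : ∃ Y : ℝ, Y = (b : ℝ) ^ (K - 1) := ⟨_, rfl⟩
  have hY0 : 0 < Y := by rw [hY]; positivity
  rw [← hY] at hD2
  rw [← card_Om]
  -- the moments for the lengths of the grid
  have hmom : ∀ j ∈ range (G + 1), (((S.filter (fun ω => j * D ≤ b ^ (K - 1) ∧ ε / 2 * Y < ‖∑ n ∈ Icc 1 (j * D), g n * exI u ((n : ℤ) + nw b N e ω)‖)).card : ℝ)) ≤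
      ρ / (G + 1) * (Om J t).card := by
    intro j _
    by_cases hjD : j * D ≤ b ^ (K - 1)
    swap
    · rw [filter_false_of_mem (fun ω _ h => hjD h.1), card_empty, Nat.cast_zero]
      positivity
    obtain ⟨g', hg'⟩ : ∃ g' : ℕ → ℂ, g' = fun n => if n ≤ j * D then g n else 0 := ⟨_, rfl⟩
    have hg'1 : ∀ n, ‖g' n‖ ≤ 1 := by
      intro n
      rw [hg']
      simp only
      split_ifs
      · exact hg n
      · rw [norm_zero]; norm_num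
    have h1 := hk₀ K (by omega) N e he J hJ g' hg'1
    obtain ⟨X, hX⟩ : ∃ X, X = b ^ K := ⟨_, rfl⟩
    obtain ⟨M, hM⟩ : ∃ M, M = b ^ (K + 1) := ⟨_, rfl⟩
    rw [← hX, ← hM] at h1
    have hXK : X = b ^ (K - 1) * b := by rw [hX, ← pow_succ]; congr 1; omega
    have hMX : M = b * X := by rw [hM, hX, pow_succ']
    have hX1 : 1 ≤ X := by rw [hX]; exact Nat.one_le_pow _ _ (by omega)
    have hXr : (X : ℝ) = Y * b := by rw [hXK, hY]; push_cast; ring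
    have h2X : 2 * b ^ (K - 1) ≤ X := by rw [hXK, mul_comm]; exact Nat.mul_le_mul_left _ hb
    have hM0 : (0 : ℝ) < M := by rw [hMX]; push_cast; have : (0 : ℝ) < X := by exact_mod_cast hX1
                                 positivity
    obtain ⟨E, hE⟩ : ∃ E : (Fin 3 × Fin t → ℕ) → ℂ, E = fun ω => EE (fun r => (starRingEnd ℂ) (FC (fun n => (starRingEnd ℂ) (g' n)) X M r) *
        FC u X M r) M (nw b N e ω) := ⟨_, rfl⟩
    have h2 : ∀ ω ∈ S.filter (fun ω => j * D ≤ b ^ (K - 1) ∧ ε / 2 * Y < ‖∑ n ∈ Icc 1 (j * D), g n * exI u ((n : ℤ) + nw b N e ω)‖),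
        (M * (ε / 2 * Y)) ^ 2 ≤ ‖E ω‖ ^ 2 := by
      intro ω hω
      rw [mem_filter] at hω
      obtain ⟨hωS, _, hω2⟩ := hω
      obtain ⟨_, hy0, hy1, _⟩ := hSb ω hωS
      apply pow_le_pow_left₀ (by positivity)
      have hbK : ((b ^ (K - 1) : ℕ) : ℤ) = (b : ℤ) ^ (K - 1) := by push_cast; ring
      have h3 := EE_corrC g' u X M (j * D) hX1 (by rw [hMX]; exact Nat.mul_le_mul_right _ hb) (by omega)
        (fun n hn => by rw [hg']; simp only; rw [if_neg (by omega)]) (nw b N e ω) (by omega) (by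
          have : (((j * D : ℕ) : ℤ)) ≤ ((b ^ (K - 1) : ℕ) : ℤ) := by exact_mod_cast hjD
          have h4 : ((2 * b ^ (K - 1) : ℕ) : ℤ) ≤ (X : ℤ) := by exact_mod_cast h2X
          rw [Nat.cast_mul, hbK] at h4
          rw [hbK] at this
          push_cast at this h4 ⊢
          linarith)
      rw [hE]
      simp only
      rw [h3, norm_mul, Complex.norm_natCast]
      apply mul_le_mul_of_nonneg_left _ hM0.le
      refine hω2.le.trans (le_of_eq ?_)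
      congr 1
      apply sum_congr rfl
      intro n hn
      rw [mem_Icc] at hn
      rw [hg']
      simp only
      rw [if_pos hn.2]
      rfl
    have h3 : ((S.filter (fun ω => j * D ≤ b ^ (K - 1) ∧ ε / 2 * Y < ‖∑ n ∈ Icc 1 (j * D), g n * exI u ((n : ℤ) + nw b N e ω)‖)).card : ℝ) * (M * (ε / 2 * Y)) ^ 2 ≤
        δ * ((M : ℝ) * X) ^ 2 * (Om J t).card := by
      rw [← nsmul_eq_mul]
      refine (card_nsmul_le_sum _ _ _ h2).trans ?_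
      refine (sum_le_sum_of_subset_of_nonneg ((filter_subset _ _).trans hS) fun ω _ _ => sq_nonneg _).trans ?_
      rw [hE]
      exact h1
    have h4 : δ * ((M : ℝ) * X) ^ 2 * (Om J t).card = (ρ / (G + 1) * (Om J t).card) * (M * (ε / 2 * Y)) ^ 2 := by
      rw [hδ, hXr]
      field_simp
    rw [h4] at h3
    exact le_of_mul_le_mul_right h3 (by positivity)
  have hcover : S ⊆ (range (G + 1)).biUnion (fun j => S.filter (fun ω => j * D ≤ b ^ (K - 1) ∧ ε / 2 * Y < ‖∑ n ∈ Icc 1 (j * D), g n * exI u ((n : ℤ) + nw b N e ω)‖)) := by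
    intro ω hω
    obtain ⟨_, hy0, hy1, X, hX, hbig⟩ := hSb ω hω
    rw [mem_biUnion]
    refine ⟨X / D, ?_, ?_⟩
    · rw [mem_range]
      have : X / D ≤ b ^ (K - 1) / D := Nat.div_le_div_right hX
      omega
    · rw [mem_filter]
      refine ⟨hω, (Nat.div_mul_le_self _ _).trans hX, ?_⟩
      have h1 := grid_step (fun m => exI u ((m : ℤ) + nw b N e ω)) g X D hD1 1 (fun m => exI_norm u hu.1 _) (fun m _ => hg m) (by norm_num)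
      rw [← hY] at hbig
      linarith
  have h5 : (S.card : ℝ) ≤ ∑ j ∈ range (G + 1), ρ / (G + 1) * (Om J t).card := by
    calc (S.card : ℝ) ≤ (((range (G + 1)).biUnion (fun j => S.filter (fun ω => j * D ≤ b ^ (K - 1) ∧ ε / 2 * Y < ‖∑ n ∈ Icc 1 (j * D), g n * exI u ((n : ℤ) + nw b N e ω)‖))).card : ℝ) := by
          exact_mod_cast card_le_card hcover
      _ ≤ ∑ j ∈ range (G + 1), ((S.filter (fun ω => j * D ≤ b ^ (K - 1) ∧ ε / 2 * Y < ‖∑ n ∈ Icc 1 (j * D), g n * exI u ((n : ℤ) + nw b N e ω)‖)).card : ℝ) := by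
          exact_mod_cast card_biUnion_le
      _ ≤ _ := sum_le_sum hmom
  refine h5.trans (le_of_eq ?_)
  rw [sum_const, card_range, nsmul_eq_mul]
  push_cast
  field_simp

end Pool.Agent.TH894.CW
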