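import Pool.Agent.TH894.SM11
import Pool.Agent.W93.GB1

set_option autoImplicit false

namespace Pool.Agent.TH894.GK

open Finset Pool.Agent.H560R3.GB

/-- The number of primes `p` with `√n < p ≤ n / 2` such that `n - p` is prime. -/
def K (n : ℕ) : ℕ := ((Ioc (Nat.sqrt n) (n / 2)).filter (fun p => p.Prime ∧ (n - p).Prime)).card

lemma g_range (n : ℕ) : g n = ((range (n + 1)).filter (fun p => p.Prime ∧ (n - p).Prime)).card := by
  unfold g
  apply card_bij (fun q _ => q.1)
  · intro q hq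
    rw [mem_filter, HasAntidiagonal.mem_antidiagonal] at hq
    rw [mem_filter, mem_range]
    have h : n - q.1 = q.2 := by omega
    exact ⟨by omega, hq.2.1, by rw [h]; exact hq.2.2⟩
  · intro q hq q' hq' h
    rw [mem_filter, HasAntidiagonal.mem_antidiagonal] at hq hq'
    ext
    · exact h
    · omega
  · intro p hp
    rw [mem_filter, mem_range] at hp
    refine ⟨(p, n - p), ?_, rfl⟩
    rw [mem_filter, HasAntidiagonal.mem_antidiagonal]
    exact ⟨by simp only; omega, hp.2⟩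

lemma g_K (n : ℕ) (hn : Even n) (h4 : 4 ≤ n) : g n ≤ 2 * K n + 2 * (Nat.sqrt n + 1) ∧ 2 * K n ≤ g n + 1 := by
  classical
  obtain ⟨A, hA⟩ : ∃ A : Finset ℕ, A = (range (n + 1)).filter (fun p => p.Prime ∧ (n - p).Prime) := ⟨_, rfl⟩
  have hs : Nat.sqrt n ≤ n / 2 := by
    have h1 : Nat.sqrt n * Nat.sqrt n ≤ n := Nat.sqrt_le n
    have h2 : 2 ≤ Nat.sqrt n := by
      rw [Nat.le_sqrt]
      omega
    rw [Nat.le_div_iff_mul_le (by norm_num)]
    nlinarith
  have hg : g n = A.card := by rw [g_range, hA]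
  have hK : K n = (A.filter (fun p => Nat.sqrt n < p ∧ p ≤ n / 2)).card := by
    unfold K
    congr 1
    ext p
    rw [hA]
    simp only [mem_filter, mem_Ioc, mem_range]
    constructor
    · rintro ⟨⟨h1, h2⟩, h3, h5⟩
      exact ⟨⟨by omega, h3, h5⟩, h1, h2⟩
    · rintro ⟨⟨h1, h3, h5⟩, h2, h6⟩
      exact ⟨⟨h2, h6⟩, h3, h5⟩
  have h1 : A.card = (A.filter (fun p => p ≤ n / 2)).card + (A.filter (fun p => ¬ p ≤ n / 2)).card :=
    (card_filter_add_card_filter_not _).symm
  have h2 : (A.filter (fun p => p ≤ n / 2)).card ≤ K n + (Nat.sqrt n + 1) := by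
    rw [hK]
    have hsub : A.filter (fun p => p ≤ n / 2) ⊆ A.filter (fun p => Nat.sqrt n < p ∧ p ≤ n / 2) ∪ range (Nat.sqrt n + 1) := by
      intro p hp
      rw [mem_filter] at hp
      rw [mem_union, mem_filter, mem_range]
      by_cases h : Nat.sqrt n < p
      · left
        exact ⟨hp.1, h, hp.2⟩
      · right
        omega
    refine (card_le_card hsub).trans ((card_union_le _ _).trans ?_)
    rw [card_range]
  have h3 : K n ≤ (A.filter (fun p => p ≤ n / 2)).card := by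
    rw [hK]
    apply card_le_card
    intro p hp
    rw [mem_filter] at hp ⊢
    exact ⟨hp.1, hp.2.2⟩
  have h5 : (A.filter (fun p => ¬ p ≤ n / 2)).card ≤ (A.filter (fun p => p ≤ n / 2)).card := by
    apply card_le_card_of_injOn (fun p => n - p)
    · intro p hp
      rw [mem_coe, mem_filter, hA, mem_filter, mem_range] at hp
      rw [mem_coe, mem_filter, hA, mem_filter, mem_range]
      have hq : n - (n - p) = p := by omega
      refine ⟨⟨by show n - p < n + 1; omega, hp.1.2.2, by show (n - (n - p)).Prime; rw [hq]; exact hp.1.2.1⟩, ?_⟩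
      have := hp.2
      show n - p ≤ n / 2
      omega
    · intro p hp q hq h
      rw [mem_coe, mem_filter, hA, mem_filter, mem_range] at hp hq
      simp only at h
      omega
  have h6 : (A.filter (fun p => p ≤ n / 2)).card ≤ (A.filter (fun p => ¬ p ≤ n / 2)).card + 1 := by
    have hsub : A.filter (fun p => p ≤ n / 2) ⊆ (A.filter (fun p => ¬ p ≤ n / 2)).image (fun p => n - p) ∪ {n / 2} := by
      intro p hp
      rw [mem_filter, hA, mem_filter, mem_range] at hp
      rw [mem_union, mem_image, mem_singleton]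
      by_cases h : p = n / 2
      · right
        exact h
      · left
        obtain ⟨k, hk⟩ := hn
        have hq : n - (n - p) = p := by omega
        refine ⟨n - p, ?_, hq⟩
        rw [mem_filter, hA, mem_filter, mem_range]
        refine ⟨⟨by omega, hp.1.2.2, by rw [hq]; exact hp.1.2.1⟩, ?_⟩
        omega
    refine (card_le_card hsub).trans ((card_union_le _ _).trans ?_)
    rw [card_singleton]
    exact Nat.add_le_add_right card_image_le 1
  omega

lemma HL_ge (n : ℕ) : (n : ℝ) / Real.log n ^ 2 ≤ HL n := by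
  have h1 : (1 : ℝ) ≤ sing n := by
    unfold sing
    have h1 : (1 : ℝ) ≤ ∏ p ∈ n.primeFactors.filter (fun p => 2 < p), ((p : ℝ) - 1) / ((p : ℝ) - 2) := by
      calc (1 : ℝ) = ∏ p ∈ n.primeFactors.filter (fun p => 2 < p), (1 : ℝ) := by rw [prod_const_one]
        _ ≤ _ := by
          apply prod_le_prod
          · intro p _
            norm_num
          · intro p hp
            rw [mem_filter] at hp
            have h2 : (3 : ℝ) ≤ p := by exact_mod_cast hp.2
            rw [le_div_iff₀ (by linarith)]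
            linarith
    have h2 := Pool.Agent.W93.GB.C2_half
    nlinarith
  unfold HL
  have h2 : (0 : ℝ) ≤ n / Real.log n ^ 2 := by positivity
  nlinarith

lemma small_ev (η : ℝ) (hη : 0 < η) : ∃ n₀ : ℕ, ∀ n : ℕ, n₀ ≤ n → 2 * √(n : ℝ) + 3 ≤ η * (n / Real.log n ^ 2) := by
  obtain ⟨n₀, hn₀⟩ := exists_nat_ge ((320 / η) ^ 4)
  refine ⟨n₀ + 3, fun n hn => ?_⟩
  have hn3 : (3 : ℝ) ≤ n := by exact_mod_cast (by omega : 3 ≤ n)
  have hn1 : (n₀ : ℝ) ≤ n := by exact_mod_cast (by omega : n₀ ≤ n)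
  have h1 : Real.log n ≤ (n : ℝ) ^ (1 / 8 : ℝ) / (1 / 8) := Real.log_le_rpow_div (by linarith) (by norm_num)
  obtain ⟨t, ht⟩ : ∃ t : ℝ, t = (n : ℝ) ^ (1 / 8 : ℝ) := ⟨_, rfl⟩
  have ht0 : 0 < t := by rw [ht]; exact Real.rpow_pos_of_pos (by linarith) _
  have ht8 : t ^ 8 = n := by
    rw [ht, ← Real.rpow_natCast, ← Real.rpow_mul (by linarith)]
    norm_num
  have hl0 : 0 < Real.log n := Real.log_pos (by linarith)
  have ht1 : 1 ≤ t := by
    by_contra hcon
    push_neg at hcon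
    have : t ^ 8 ≤ 1 := pow_le_one₀ ht0.le hcon.le
    linarith
  have h2 : Real.log n ≤ 8 * t := by rw [ht]; linarith
  have h3 : √(n : ℝ) = t ^ 4 := by
    rw [← ht8, show t ^ 8 = (t ^ 4) ^ 2 by ring, Real.sqrt_sq (by positivity)]
  have h4 : 320 / η ≤ t ^ 2 := by
    by_contra hcon
    push_neg at hcon
    have : (t ^ 2) ^ 4 < (320 / η) ^ 4 := pow_lt_pow_left₀ hcon (by positivity) (by norm_num)
    have h5 : (t ^ 2) ^ 4 = n := by rw [← ht8]; ring
    linarith
  have h5 : 320 ≤ η * t ^ 2 := by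
    rw [div_le_iff₀ hη] at h4
    linarith
  have h6 : Real.log n ^ 2 ≤ 64 * t ^ 2 := by
    have := pow_le_pow_left₀ hl0.le h2 2
    nlinarith
  rw [← mul_div_assoc, le_div_iff₀ (by positivity), h3]
  have h7 : 1 ≤ t ^ 4 := one_le_pow₀ ht1
  calc (2 * t ^ 4 + 3) * Real.log n ^ 2 ≤ (5 * t ^ 4) * (64 * t ^ 2) := by
        apply mul_le_mul _ h6 (by positivity) (by positivity)
        linarith
    _ = 320 * (t ^ 4 * t ^ 2) := by ring
    _ ≤ (η * t ^ 2) * (t ^ 4 * t ^ 2) := mul_le_mul_of_nonneg_right h5 (by positivity)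
    _ = η * t ^ 8 := by ring
    _ = η * n := by rw [ht8]

/-- The number of representations with `√n < p ≤ n / 2`. -/
theorem window (ε : ℝ) (hε : 0 < ε) : ∃ (η : ℝ) (n₀ : ℕ), 0 < η ∧ ∀ n : ℕ, n₀ ≤ n → Even n →
    |(g n : ℝ) - HL n| ≤ η * HL n →
    |(K n : ℝ) - HL n / 2| ≤ ε * (HL n / 2) ∧ ∃ p : ℕ, p.Prime ∧ (n - p).Prime ∧ n < p ^ 2 ∧ 2 * p ≤ n := by
  obtain ⟨e, he⟩ : ∃ e, e = min ε (1 / 2) := ⟨_, rfl⟩
  have he0 : 0 < e := by rw [he]; exact lt_min hε (by norm_num)
  obtain ⟨n₀, h0⟩ := small_ev (e / 4) (by linarith)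
  refine ⟨e / 2, n₀ + 4, by linarith, fun n hn hev hg => ?_⟩
  obtain ⟨h1, h2⟩ := g_K n hev (by omega)
  have h3 := h0 n (by omega)
  have h4 := HL_ge n
  have hs : ((Nat.sqrt n : ℕ) : ℝ) ≤ √(n : ℝ) := Real.nat_sqrt_le_real_sqrt
  have h1' : (g n : ℝ) ≤ 2 * K n + 2 * ((Nat.sqrt n : ℕ) + 1) := by exact_mod_cast h1
  have h2' : (2 : ℝ) * K n ≤ g n + 1 := by exact_mod_cast h2
  have hsq := Real.sqrt_nonneg (n : ℝ)
  have h5 : 2 * √(n : ℝ) + 3 ≤ e / 4 * HL n := h3.trans (mul_le_mul_of_nonneg_left h4 (by linarith))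
  have hHL : 0 < HL n := by
    by_contra hcon
    push_neg at hcon
    nlinarith
  have h6 : |(K n : ℝ) - HL n / 2| ≤ e * (HL n / 2) := by
    rw [abs_le] at hg ⊢
    constructor
    · nlinarith [hg.1]
    · nlinarith [hg.2]
  have hee : e ≤ ε := by rw [he]; exact min_le_left _ _
  have he2 : e ≤ 1 / 2 := by rw [he]; exact min_le_right _ _
  refine ⟨h6.trans (mul_le_mul_of_nonneg_right hee (by linarith)), ?_⟩
  have h7 : (0 : ℝ) < K n := by
    rw [abs_le] at h6
    nlinarith [h6.1]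
  have h8 : 0 < K n := by exact_mod_cast h7
  unfold K at h8
  rw [card_pos] at h8
  obtain ⟨p, hp⟩ := h8
  rw [mem_filter, mem_Ioc] at hp
  refine ⟨p, hp.2.1, hp.2.2, ?_, by omega⟩
  have := hp.1.1
  rw [Nat.sqrt_lt'] at this
  exact this

end Pool.Agent.TH894.GK
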