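import Pool.Agent.TH894.SM10
import Pool.Agent.TH894.SM11

set_option autoImplicit false

/-! From choices of positions to sets of positions, for an arbitrary property. -/

namespace Pool.Agent.TH894.GN
open Finset
open Pool.Agent.W93.DG
open Pool.Agent.TH894.SM (enm enm_eq enm_inj enm_mem enm_image enm_sum pow_le_desc expose Om nw card_Om dl Pos change ed sum_digits
  change_eq change_lt le_change Win Win_sub Win_disj un un_sum hyp_dev fibre_card un_inter un_Win)

/-- few sets of positions are exceptional -/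
theorem few_sets (b : ℕ) (hb : 2 ≤ b) (R A : ℕ) (hR : 1 ≤ R) (hA : 1 ≤ A) {ι : Type*} (Bd : ι → ℕ → ℤ → Prop)
    (H : ∀ ρ : ℝ, 0 < ρ → ∃ t₀ : ℕ, ∀ t : ℕ, t₀ ≤ t → ∃ k₀ : ℕ, ∀ K : ℕ, k₀ ≤ K → ∀ i : ι, ∀ (N : ℕ) (e : ℕ → ℤ),
      (∀ j, e j ≠ 0 ∧ |e j| < b) → ∀ J : Fin 3 → Finset ℕ, Pos b R K (hh b A K) J → ∀ S ⊆ Om J t,
      (∀ ω ∈ S, Bd i K (nw b N e ω)) → (S.card : ℝ) ≤ ρ * ∏ q, ((J q).card : ℝ) ^ t)
    (ρ : ℝ) (hρ : 0 < ρ) : ∃ t₀ : ℕ, ∀ t : ℕ, t₀ ≤ t →
    ∃ k₀ : ℕ, ∀ K : ℕ, k₀ ≤ K → ∀ i : ι, ∀ (N : ℕ) (e : ℕ → ℤ), (∀ j, e j ≠ 0 ∧ |e j| < b) →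
    ∀ J : Fin 3 → Finset ℕ, Pos b R K (hh b A K) J → ∀ S ⊆ Fintype.piFinset (fun q => powersetCard t (J q)),
    (∀ T ∈ S, Bd i K (N + ∑ q, ∑ j ∈ T q, dl b e j)) →
    (S.card : ℝ) ≤ ρ * ∏ q, ((J q).card.choose t : ℝ) := by
  classical
  obtain ⟨t₀, ht₀⟩ := H (ρ / 8) (by positivity)
  refine ⟨t₀, fun t ht => ?_⟩
  obtain ⟨k₀, hk₀⟩ := ht₀ t ht
  obtain ⟨k1, hk1⟩ := hh_small b A 4 hb
  refine ⟨k₀ + k1 + b ^ (4 * t ^ 2 + 4) + 100, fun K hK i N e he J hJ S hS hSb => ?_⟩
  obtain ⟨h, hh'⟩ : ∃ h, h = hh b A K := ⟨_, rfl⟩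
  have hh1 : 8 * t ^ 2 + 8 ≤ h := by
    rw [hh']
    unfold hh
    have hlog : 4 * t ^ 2 + 4 ≤ Nat.log b K := Nat.le_log_of_pow_le (by omega) (by omega)
    calc 8 * t ^ 2 + 8 = 2 * 1 * (4 * t ^ 2 + 4) := by ring
      _ ≤ 2 * A * (Nat.log b K + 1) := Nat.mul_le_mul (Nat.mul_le_mul_left _ hA) (by omega)
  have hh2 : 4 * h ≤ K := by rw [hh']; exact hk1 K (by omega)
  have hcd : ∀ (x y : ℕ) (S : Finset ℕ), S ⊆ Ico x y → 8 * R * (Ico x y \ S).card ≤ y - x → 7 * (y - x) ≤ 8 * S.card := by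
    intro x y S hS hc
    have e1 := card_sdiff_add_card_eq_card hS
    rw [Nat.card_Ico] at e1
    have e2 : 8 * (Ico x y \ S).card ≤ 8 * R * (Ico x y \ S).card := by
      calc 8 * (Ico x y \ S).card = 8 * 1 * (Ico x y \ S).card := by ring
        _ ≤ _ := Nat.mul_le_mul_right _ (Nat.mul_le_mul_left _ hR)
    omega
  have hJ' := hJ
  rw [← hh'] at hJ'
  have g0 := hcd _ _ _ hJ'.s0 (hJ'.c0.trans (by omega))
  have g1 := hcd _ _ _ hJ'.s1 (hJ'.c1.trans (by omega))
  have g2 := hcd _ _ _ hJ'.s2 (hJ'.c2.trans (by omega))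
  have hcard : ∀ q, 2 * t ^ 2 + 1 ≤ (J q).card := by
    intro q
    have hq3 : q = 0 ∨ q = 1 ∨ q = 2 := by
      fin_cases q <;> simp
    rcases hq3 with rfl | rfl | rfl <;> omega
  -- the map
  obtain ⟨Φ, hΦ⟩ : ∃ Φ : (Fin 3 → Finset ℕ) × (Fin 3 → Equiv.Perm (Fin t)) → (Fin 3 × Fin t → ℕ),
      Φ = fun p c => enm t (p.1 c.1) (p.2 c.1 c.2) := ⟨_, rfl⟩
  have hTc : ∀ T ∈ S, ∀ q, T q ⊆ J q ∧ (T q).card = t := by
    intro T hT q
    have := hS hT
    rw [Fintype.mem_piFinset] at this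
    exact mem_powersetCard.1 (this q)
  have himg : (S ×ˢ (univ : Finset (Fin 3 → Equiv.Perm (Fin t)))).image Φ ⊆ Om J t := by
    intro ω hω
    rw [mem_image] at hω
    obtain ⟨p, hp, rfl⟩ := hω
    rw [mem_product] at hp
    unfold Om
    rw [Fintype.mem_piFinset]
    intro c
    rw [hΦ]
    exact (hTc p.1 hp.1 c.1).1 (enm_mem (hTc p.1 hp.1 c.1).2 _)
  have hinj : Set.InjOn Φ ((S ×ˢ (univ : Finset (Fin 3 → Equiv.Perm (Fin t))) : Finset _) : Set ((Fin 3 → Finset ℕ) × (Fin 3 → Equiv.Perm (Fin t)))) := by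
    intro p hp p' hp' hpp
    rw [mem_coe, mem_product] at hp hp'
    have e1 : ∀ q i, enm t (p.1 q) (p.2 q i) = enm t (p'.1 q) (p'.2 q i) := by
      intro q i
      have := congrFun hpp (q, i)
      rw [hΦ] at this
      exact this
    have e2 : p.1 = p'.1 := by
      funext q
      rw [← enm_image (hTc p.1 hp.1 q).2, ← enm_image (hTc p'.1 hp'.1 q).2]
      ext x
      simp only [mem_image, mem_univ, true_and]
      constructor
      · rintro ⟨i, hi⟩
        refine ⟨p'.2 q ((p.2 q).symm i), ?_⟩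
        rw [← e1, Equiv.apply_symm_apply]
        exact hi
      · rintro ⟨i, hi⟩
        refine ⟨p.2 q ((p'.2 q).symm i), ?_⟩
        rw [e1, Equiv.apply_symm_apply]
        exact hi
    refine Prod.ext e2 ?_
    funext q
    apply Equiv.ext
    intro i
    have e3 := e1 q i
    rw [← e2] at e3
    exact enm_inj (hTc p.1 hp.1 q).2 e3
  have hbadω : ∀ ω ∈ (S ×ˢ (univ : Finset (Fin 3 → Equiv.Perm (Fin t)))).image Φ,
      Bd i K (nw b N e ω) := by
    intro ω hω
    rw [mem_image] at hω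
    obtain ⟨p, hp, rfl⟩ := hω
    rw [mem_product] at hp
    have hy := hSb p.1 hp.1
    refine (congrArg (Bd i K) ?_).mp hy
    unfold nw
    congr 1
    rw [Fintype.sum_prod_type]
    apply sum_congr rfl
    intro q _
    rw [hΦ]
    simp only
    rw [Equiv.sum_comp (p.2 q) (fun i => dl b e (enm t (p.1 q) i))]
    exact (enm_sum (hTc p.1 hp.1 q).2 (dl b e)).symm
  have hmain := hk₀ K (by omega) i N e he J hJ _ himg hbadω
  rw [card_image_of_injOn hinj, card_product, card_univ, Fintype.card_fun, Fintype.card_fin, Fintype.card_perm, Fintype.card_fin] at hmain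
  push_cast at hmain
  have hf0 : (0 : ℝ) < t.factorial := by exact_mod_cast Nat.factorial_pos t
  have hprod : ∏ q, ((J q).card : ℝ) ^ t ≤ ∏ q, (2 * ((t.factorial : ℝ) * ((J q).card.choose t : ℝ))) := by
    apply prod_le_prod
    · intro q _; positivity
    · intro q _
      exact pow_le_desc _ t (hcard q)
  have hprod2 : ∏ q : Fin 3, (2 * ((t.factorial : ℝ) * ((J q).card.choose t : ℝ))) = 8 * (t.factorial : ℝ) ^ 3 * ∏ q, ((J q).card.choose t : ℝ) := by
    rw [Fin.prod_univ_three, Fin.prod_univ_three]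
    ring
  rw [hprod2] at hprod
  have h1 : (S.card : ℝ) * (t.factorial : ℝ) ^ 3 ≤ (ρ * ∏ q, ((J q).card.choose t : ℝ)) * (t.factorial : ℝ) ^ 3 := by
    calc (S.card : ℝ) * (t.factorial : ℝ) ^ 3 ≤ ρ / 8 * ∏ q, ((J q).card : ℝ) ^ t := hmain
      _ ≤ ρ / 8 * (8 * (t.factorial : ℝ) ^ 3 * ∏ q, ((J q).card.choose t : ℝ)) := mul_le_mul_of_nonneg_left hprod (by positivity)
      _ = _ := by ring
  exact le_of_mul_le_mul_right h1 (by positivity)

/-- few triples of sets of positions are exceptional -/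
theorem few_general (b : ℕ) (hb : 2 ≤ b) (R A : ℕ) (hR : 1 ≤ R) (hA : 1 ≤ A) {ι : Type*} (Bd : ι → ℕ → ℤ → Prop)
    (H : ∀ ρ : ℝ, 0 < ρ → ∃ t₀ : ℕ, ∀ t : ℕ, t₀ ≤ t → ∃ k₀ : ℕ, ∀ K : ℕ, k₀ ≤ K → ∀ i : ι, ∀ (N : ℕ) (e : ℕ → ℤ),
      (∀ j, e j ≠ 0 ∧ |e j| < b) → ∀ J : Fin 3 → Finset ℕ, Pos b R K (hh b A K) J → ∀ S ⊆ Om J t,
      (∀ ω ∈ S, Bd i K (nw b N e ω)) → (S.card : ℝ) ≤ ρ * ∏ q, ((J q).card : ℝ) ^ t)
    (ρ : ℝ) (hρ : 0 < ρ) : ∃ t₀ : ℕ, ∀ t : ℕ, t₀ ≤ t →
    ∃ k₀ : ℕ, ∀ K : ℕ, k₀ ≤ K → ∀ i : ι, ∀ N : ℕ, N < b ^ K → ∀ f : ℕ → ℕ, (∀ j, f j < b ∧ f j ≠ N / b ^ j % b) →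
    ∀ r : Fin 3 → ℕ, (∀ q, t ≤ r q) → (∀ q, 8 * R * r q ≤ (Win (hh b A K) K q).card) →
    ∀ S ⊆ Fintype.piFinset (fun q => powersetCard (r q) (Win (hh b A K) K q)),
    (∀ T ∈ S, Bd i K (change b K N f (un T))) →
    (S.card : ℝ) ≤ ρ * ∏ q, ((Win (hh b A K) K q).card.choose (r q) : ℝ) := by
  classical
  obtain ⟨t₀, ht₀⟩ := few_sets b hb R A hR hA Bd H ρ hρ
  refine ⟨t₀, fun t ht => ?_⟩
  obtain ⟨k₀, hk₀⟩ := ht₀ t ht
  obtain ⟨k1, hk1⟩ := hh_small b A 4 hb
  refine ⟨k₀ + k1 + 4, fun K hK i N hN' f hf r hr hr' S hS hSb => ?_⟩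
  have hh2 : 4 * hh b A K ≤ K := hk1 K (by omega)
  set h := hh b A K with hhd
  obtain ⟨W, hW⟩ : ∃ W, W = Win h K := ⟨_, rfl⟩
  rw [← hW] at hr' hS ⊢
  have hWsub : ∀ q, W q ⊆ Ico 1 (K - 1) := fun q => by rw [hW]; exact Win_sub h K q (by omega)
  have hWdisj : ∀ q q', q ≠ q' → Disjoint (W q) (W q') := fun q q' hq => by rw [hW]; exact Win_disj h K q q' (by omega) hq
  have hb1 : 1 ≤ b := by omega
  -- the inner bound
  have hinner : ∀ Z ∈ Fintype.piFinset (fun q => powersetCard (r q - t) (W q)),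
      (∑ T ∈ Fintype.piFinset (fun q => powersetCard t (W q \ Z q)), (if (fun q => Z q ∪ T q) ∈ S then (1 : ℝ) else 0)) ≤
        ρ * ∏ q, (((W q).card - (r q - t)).choose t : ℝ) := by
    intro Z hZ
    rw [Fintype.mem_piFinset] at hZ
    simp only [mem_powersetCard] at hZ
    rw [← sum_filter, sum_const, nsmul_eq_mul, mul_one]
    have hcardJ : ∀ q, (W q \ Z q).card = (W q).card - (r q - t) := fun q => by
      rw [card_sdiff_of_subset (hZ q).1, (hZ q).2]
    simp only [← hcardJ]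
    have hZsub : un Z ⊆ range K := by
      intro x hx
      unfold un at hx
      rw [mem_biUnion] at hx
      obtain ⟨q, _, hxq⟩ := hx
      have := mem_Ico.1 (hWsub q ((hZ q).1 hxq))
      rw [mem_range]; omega
    have hpos : Pos b R K h (fun q => W q \ Z q) := by
      have hc : ∀ q, 8 * R * (W q \ (W q \ Z q)).card ≤ (W q).card := by
        intro q
        refine le_trans (Nat.mul_le_mul_left _ ?_) (hr' q)
        rw [Finset.sdiff_sdiff_eq_self (hZ q).1, (hZ q).2]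
        omega
      have w0 : W 0 = Ico 1 (1 + h) := by rw [hW]; rfl
      have w1 : W 1 = Ico (1 + h) (K - 1 - h) := by rw [hW]; rfl
      have w2 : W 2 = Ico (K - 1 - h) (K - 1) := by rw [hW]; rfl
      have h0 := hc 0
      have h1 := hc 1
      have h2 := hc 2
      constructor
      · rw [← w0]; exact sdiff_subset
      · rw [← w1]; exact sdiff_subset
      · rw [← w2]; exact sdiff_subset
      · rw [← w0]
        refine h0.trans ?_
        rw [w0, Nat.card_Ico]; omega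
      · rw [← w1]
        refine h1.trans ?_
        rw [w1, Nat.card_Ico]; omega
      · rw [← w2]
        refine h2.trans ?_
        rw [w2, Nat.card_Ico]; omega
    refine hk₀ K (by omega) i (change b K N f (un Z)) (ed b N f) ?_ (fun q => W q \ Z q) hpos _ (filter_subset _ _) ?_
    · intro j
      have h1 := hf j
      have h2 := Nat.mod_lt (N / b ^ j) hb1
      unfold ed
      constructor
      · intro h3
        apply h1.2
        omega
      · rw [abs_lt]
        constructor <;> omega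
    · intro T hT
      rw [mem_filter, Fintype.mem_piFinset] at hT
      simp only [mem_powersetCard] at hT
      obtain ⟨hT1, hT2⟩ := hT
      have hb' := hSb _ hT2
      refine (congrArg (Bd i K) ?_).mp hb'
      have hsub : un (fun q => Z q ∪ T q) ⊆ range K := by
        intro x hx
        unfold un at hx
        rw [mem_biUnion] at hx
        obtain ⟨q, _, hxq⟩ := hx
        have h1 : x ∈ W q := by
          rw [mem_union] at hxq
          rcases hxq with hxq | hxq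
          · exact (hZ q).1 hxq
          · exact (mem_sdiff.1 ((hT1 q).1 hxq)).1
        have := mem_Ico.1 (hWsub q h1)
        rw [mem_range]; omega
      rw [change_eq b K N hN' f _ hsub, change_eq b K N hN' f _ hZsub, un_sum, un_sum]
      · rw [add_assoc, ← sum_add_distrib]
        congr 1
        apply sum_congr rfl
        intro q _
        rw [sum_union]
        exact disjoint_of_subset_right (hT1 q).1 disjoint_sdiff
      · intro q q' hq
        exact disjoint_of_subset_left (hZ q).1 (disjoint_of_subset_right (hZ q').1 (hWdisj q q' hq))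
      · intro q q' hq
        refine disjoint_of_subset_left (union_subset (hZ q).1 ((hT1 q).1.trans sdiff_subset)) ?_
        exact disjoint_of_subset_right (union_subset (hZ q').1 ((hT1 q').1.trans sdiff_subset)) (hWdisj q q' hq)
  -- double counting
  have hdc := expose W r t hr (fun T => if T ∈ S then (1 : ℝ) else 0)
  have hL : ∑ T ∈ Fintype.piFinset (fun q => powersetCard (r q) (W q)), ∑ _T ∈ Fintype.piFinset (fun q => powersetCard t (T q)),
      (if T ∈ S then (1 : ℝ) else 0) = S.card * ∏ q, ((r q).choose t : ℝ) := by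
    have h1 : ∀ T ∈ Fintype.piFinset (fun q => powersetCard (r q) (W q)), ∑ _T ∈ Fintype.piFinset (fun q => powersetCard t (T q)),
        (if T ∈ S then (1 : ℝ) else 0) = (if T ∈ S then (1 : ℝ) else 0) * ∏ q, ((r q).choose t : ℝ) := by
      intro T hT
      rw [Fintype.mem_piFinset] at hT
      simp only [mem_powersetCard] at hT
      rw [sum_const, nsmul_eq_mul, mul_comm, Fintype.card_piFinset]
      congr 1
      push_cast
      apply prod_congr rfl
      intro q _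
      rw [card_powersetCard, (hT q).2]
    rw [sum_congr rfl h1, ← sum_mul, ← sum_filter, sum_const, nsmul_eq_mul, mul_one]
    congr 3
    rw [filter_mem_eq_inter]
    exact inter_eq_right.2 hS
  have hRr : ∑ Z ∈ Fintype.piFinset (fun q => powersetCard (r q - t) (W q)), ∑ T ∈ Fintype.piFinset (fun q => powersetCard t (W q \ Z q)),
      (if (fun q => Z q ∪ T q) ∈ S then (1 : ℝ) else 0) ≤
      (∏ q, ((W q).card.choose (r q - t) : ℝ)) * (ρ * ∏ q, (((W q).card - (r q - t)).choose t : ℝ)) := by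
    refine (sum_le_card_nsmul _ _ _ hinner).trans (le_of_eq ?_)
    rw [nsmul_eq_mul, Fintype.card_piFinset]
    congr 1
    push_cast
    apply prod_congr rfl
    intro q _
    rw [card_powersetCard]
  have hid : (∏ q, ((W q).card.choose (r q - t) : ℝ)) * (ρ * ∏ q, (((W q).card - (r q - t)).choose t : ℝ)) =
      (ρ * ∏ q, ((W q).card.choose (r q) : ℝ)) * ∏ q, ((r q).choose t : ℝ) := by
    have h1 : (∏ q, ((W q).card.choose (r q - t) : ℝ)) * (∏ q, (((W q).card - (r q - t)).choose t : ℝ)) =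
        (∏ q, ((W q).card.choose (r q) : ℝ)) * ∏ q, ((r q).choose t : ℝ) := by
      rw [← prod_mul_distrib, ← prod_mul_distrib]
      apply prod_congr rfl
      intro q _
      have hrw : r q ≤ (W q).card := by
        refine le_trans ?_ (hr' q)
        exact Nat.le_mul_of_pos_left _ (by omega)
      have h2 := Nat.choose_mul (n := (W q).card) (Nat.sub_le (r q) t)
      rw [Nat.choose_symm (hr q)] at h2
      have h3 : r q - (r q - t) = t := by have := hr q; omega
      rw [h3] at h2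
      exact_mod_cast h2.symm
    linear_combination ρ * h1
  rw [hL] at hdc
  rw [hid, ← hdc] at hRr
  refine le_of_mul_le_mul_right hRr ?_
  apply prod_pos
  intro q _
  exact_mod_cast Nat.choose_pos (hr q)


end Pool.Agent.TH894.GN
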