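import Pool.Agent.TH672.Rel
import Pool.Agent.TH39.J102
set_option autoImplicit false
namespace Pool.Agent.TH672.R104
open Form

/-! ### Finitely many variables matter -/

lemma holds_fin (φ : Form) : ∃ M : ℕ, ∀ v w : ℕ → ℕ, (∀ i < M, v i = w i) → (φ.Holds v ↔ φ.Holds w) := by
  induction φ with
  | bot => exact ⟨0, fun v w _ => Iff.rfl⟩
  | eq x y =>
    refine ⟨x + y + 1, fun v w h => ?_⟩
    simp only [Form.Holds, h x (by omega), h y (by omega)]
  | zero x =>
    refine ⟨x + 1, fun v w h => ?_⟩
    simp only [Form.Holds, h x (by omega)]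
  | succ x y =>
    refine ⟨x + y + 1, fun v w h => ?_⟩
    simp only [Form.Holds, h x (by omega), h y (by omega)]
  | add x y z =>
    refine ⟨x + y + z + 1, fun v w h => ?_⟩
    simp only [Form.Holds, h x (by omega), h y (by omega), h z (by omega)]
  | mul x y z =>
    refine ⟨x + y + z + 1, fun v w h => ?_⟩
    simp only [Form.Holds, h x (by omega), h y (by omega), h z (by omega)]
  | imp φ ψ h1 h2 =>
    obtain ⟨M, hM⟩ := h1
    obtain ⟨N, hN⟩ := h2
    refine ⟨M + N, fun v w h => ?_⟩
    simp only [Form.Holds]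
    rw [hM v w (fun i hi => h i (by omega)), hN v w (fun i hi => h i (by omega))]
  | all x φ h1 =>
    obtain ⟨M, hM⟩ := h1
    refine ⟨M, fun v w h => ?_⟩
    simp only [Form.Holds]
    apply forall_congr'
    intro a
    apply hM
    intro i hi
    unfold Function.update
    split_ifs
    · rfl
    · exact h i hi

lemma ar_fin {R : (ℕ → ℕ) → Prop} (h : Ar R) : ∃ M : ℕ, ∀ v w : ℕ → ℕ, (∀ i < M, v i = w i) → (R v ↔ R w) := by
  obtain ⟨φ, hφ⟩ := h
  obtain ⟨M, hM⟩ := holds_fin φ
  exact ⟨M, fun v w h => by rw [← hφ, ← hφ]; exact hM v w h⟩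

/-- existential quantifier, the bound variable is the variable `0` of the body -/
theorem Ar.exd {R : ℕ → (ℕ → ℕ) → Prop} (h : Ar (fun v => R (v 0) (fun i => v (i + 1)))) :
    Ar (fun v => ∃ a, R a v) := by
  obtain ⟨M, hM⟩ := ar_fin h
  have h1 := Ar.ex M (h.sub (fun i => match i with
    | 0 => Tm.var M
    | j + 1 => Tm.var j))
  refine h1.congr fun v => ?_
  apply exists_congr
  intro a
  have e := hM (fun i => ((match i with | 0 => Tm.var M | j + 1 => Tm.var j : Tm)).eval (Function.update v M a))
    (fun i => match i with | 0 => a | j + 1 => v j) (by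
      intro i hi
      match i with
      | 0 => simp [Tm.eval]
      | j + 1 =>
        simp only [Tm.eval]
        rw [Function.update_of_ne (by omega)])
  exact e

theorem Ar.alld {R : ℕ → (ℕ → ℕ) → Prop} (h : Ar (fun v => R (v 0) (fun i => v (i + 1)))) :
    Ar (fun v => ∀ a, R a v) := by
  have h1 : Ar (fun v => ¬ ∃ a, ¬ R a v) := (Ar.exd (R := fun a v => ¬ R a v) h.not).not
  exact h1.congr fun v => by push Not; rfl

/-- numerals -/
def tn : ℕ → Tm
  | 0 => .zero
  | n + 1 => .succ (tn n)

lemma tn_eval (v : ℕ → ℕ) (n : ℕ) : (tn n).eval v = n := by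
  induction n with
  | zero => rfl
  | succ n ih => simp [tn, Tm.eval, ih]

/-- equation of a term with a constant -/
theorem Ar.const (s : Tm) (n : ℕ) : Ar (fun v => s.eval v = n) :=
  (Ar.tm s (tn n)).congr fun v => by rw [tn_eval]

theorem Ar.app1 {R : ℕ → Prop} (h : Ar (fun v => R (v 0))) (s : Tm) : Ar (fun v => R (s.eval v)) :=
  h.sub (fun _ => s)

theorem Ar.app2 {R : ℕ → ℕ → Prop} (h : Ar (fun v => R (v 0) (v 1))) (s t : Tm) :
    Ar (fun v => R (s.eval v) (t.eval v)) :=
  h.sub (fun i => match i with | 0 => s | _ => t)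

theorem Ar.app3 {R : ℕ → ℕ → ℕ → Prop} (h : Ar (fun v => R (v 0) (v 1) (v 2))) (s t u : Tm) :
    Ar (fun v => R (s.eval v) (t.eval v) (u.eval v)) :=
  h.sub (fun i => match i with | 0 => s | 1 => t | _ => u)

theorem Ar.app4 {R : ℕ → ℕ → ℕ → ℕ → Prop} (h : Ar (fun v => R (v 0) (v 1) (v 2) (v 3))) (s t u w : Tm) :
    Ar (fun v => R (s.eval v) (t.eval v) (u.eval v) (w.eval v)) :=
  h.sub (fun i => match i with | 0 => s | 1 => t | 2 => u | _ => w)

/-- derivability of a term -/
theorem Ar.der (R : List Rule) (hR : ∀ r ∈ R, Ar r.side) (s : Tm) : Ar (fun v => Derivable R (s.eval v)) :=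
  Ar.app1 (R := fun n => Derivable R n) (Ar.derivable R hR) s

/-- induction on derivations -/
theorem Derivable.ind {R : List Rule} {P : ℕ → Prop}
    (h : ∀ r ∈ R, ∀ ρ : ℕ → ℕ, r.side ρ → (∀ t ∈ r.prems, P (t.eval ρ)) → P (r.concl.eval ρ)) {n : ℕ}
    (hn : Derivable R n) : P n := by
  induction hn with
  | intro r hr ρ hs _ ih => exact h r hr ρ hs ih

/-- the assignment given by a list -/
def asn (l : List ℕ) : ℕ → ℕ := fun i => l.getD i 0

theorem der0 {R : List Rule} (j : ℕ) (hj : j < R.length) (l : List ℕ) {n : ℕ} (e : R[j].prems = [])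
    (hs : R[j].side (asn l)) (hn : R[j].concl.eval (asn l) = n) : Derivable R n := by
  rw [← hn]
  exact Derivable.intro _ (List.getElem_mem hj) _ hs (by rw [e]; intro t ht; simp at ht)

theorem der1 {R : List Rule} (j : ℕ) (hj : j < R.length) (l : List ℕ) {n : ℕ} {p : Tm} (e : R[j].prems = [p])
    (hs : R[j].side (asn l)) (hp : Derivable R (p.eval (asn l)))
    (hn : R[j].concl.eval (asn l) = n) : Derivable R n := by
  rw [← hn]
  exact Derivable.intro _ (List.getElem_mem hj) _ hs (by
    rw [e]; intro t ht; rw [List.mem_singleton] at ht; rw [ht]; exact hp)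

theorem der2 {R : List Rule} (j : ℕ) (hj : j < R.length) (l : List ℕ) {n : ℕ} {p q : Tm} (e : R[j].prems = [p, q])
    (hs : R[j].side (asn l)) (hp : Derivable R (p.eval (asn l))) (hq : Derivable R (q.eval (asn l)))
    (hn : R[j].concl.eval (asn l) = n) : Derivable R n := by
  rw [← hn]
  exact Derivable.intro _ (List.getElem_mem hj) _ hs (by
    rw [e]; intro t ht; simp only [List.mem_cons, List.not_mem_nil, or_false] at ht
    rcases ht with rfl | rfl
    · exact hp
    · exact hq)

theorem ar_true : Ar (fun _ => _root_.True) := (Ar.eq 0 0).congr fun _ => by simp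

/-! ### Strings and numbers -/

lemma num_append (u w : List Bool) : num (u ++ w) = w.foldl (fun n b => 2 * n + if b then 2 else 1) (num u) := by
  unfold num
  rw [List.foldl_append]

lemma num_snoc (w : List Bool) (b : Bool) : num (w ++ [b]) = 2 * num w + if b then 2 else 1 := by
  rw [num_append]; rfl

lemma num_nil : num [] = 0 := rfl

lemma digits_zero : digits 0 = [] := by
  rw [digits]; simp

lemma digits_pos {n : ℕ} (h : n ≠ 0) : digits n = digits ((n - 1) / 2) ++ [decide (n % 2 = 0)] := by
  rw [digits]; simp [h]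

lemma digits_odd (n : ℕ) : digits (2 * n + 1) = digits n ++ [false] := by
  rw [digits_pos (by omega)]
  have e1 : (2 * n + 1 - 1) / 2 = n := by omega
  have e2 : ¬ ((2 * n + 1) % 2 = 0) := by omega
  rw [e1, decide_eq_false e2]

lemma digits_even (n : ℕ) : digits (2 * n + 2) = digits n ++ [true] := by
  rw [digits_pos (by omega)]
  have e1 : (2 * n + 2 - 1) / 2 = n := by omega
  have e2 : (2 * n + 2) % 2 = 0 := by omega
  rw [e1, decide_eq_true e2]

lemma digits_num (w : List Bool) : digits (num w) = w := by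
  induction w using List.reverseRecOn with
  | nil => exact digits_zero
  | append_singleton w b ih =>
    rw [num_snoc]
    cases b
    · simp only [Bool.false_eq_true, if_false]
      rw [digits_odd, ih]
    · simp only [if_true]
      rw [digits_even, ih]

lemma num_digits (n : ℕ) : num (digits n) = n := by
  induction n using Nat.strong_induction_on with
  | _ n ih =>
    by_cases h : n = 0
    · subst h; rw [digits_zero]; rfl
    · rw [digits_pos h, num_snoc, ih _ (by omega)]
      by_cases h2 : n % 2 = 0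
      · rw [decide_eq_true h2]; simp only [if_true]; omega
      · rw [decide_eq_false h2]; simp only [Bool.false_eq_true, if_false]; omega

lemma num_inj {u w : List Bool} (h : num u = num w) : u = w := by
  rw [← digits_num u, ← digits_num w, h]

/-! ### doubling -/

theorem ar_dbl1 : Ar (fun v => v 1 = 2 * v 0 + 1) := by
  have h : Ar (fun v => ∃ a, v 0 + v 0 = a ∧ v 1 = a + 1) := by
    apply Ar.exd
    exact (Ar.addRel 1 1 0).and (Ar.tm (.var 2) (.succ (.var 0)))
  refine h.congr fun v => ?_
  constructor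
  · rintro ⟨a, h1, h2⟩; omega
  · intro h; exact ⟨v 0 + v 0, rfl, by omega⟩

theorem ar_dbl2 : Ar (fun v => v 1 = 2 * v 0 + 2) := by
  have h : Ar (fun v => ∃ a, v 0 + v 0 = a ∧ v 1 = a + 2) := by
    apply Ar.exd
    exact (Ar.addRel 1 1 0).and (Ar.tm (.var 2) (.succ (.succ (.var 0))))
  refine h.congr fun v => ?_
  constructor
  · rintro ⟨a, h1, h2⟩; omega
  · intro h; exact ⟨v 0 + v 0, rfl, by omega⟩

theorem ar_d1 (s t : Tm) : Ar (fun v => t.eval v = 2 * s.eval v + 1) :=
  Ar.app2 (R := fun a b => b = 2 * a + 1) ar_dbl1 s t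

theorem ar_d2 (s t : Tm) : Ar (fun v => t.eval v = 2 * s.eval v + 2) :=
  Ar.app2 (R := fun a b => b = 2 * a + 2) ar_dbl2 s t

/-! ### concatenation -/

lemma Rcat_iff (x y z : ℕ) : Rcat x y z ↔ z = num (digits x ++ digits y) := by
  constructor
  · rintro ⟨u, w, rfl, rfl, rfl⟩
    rw [digits_num, digits_num]
  · intro h
    exact ⟨digits x, digits y, (num_digits x).symm, (num_digits y).symm, h⟩

/-- the rules for concatenation -/
def catRules : List Rule := [
  ⟨.pair (.var 0) (.pair .zero (.var 0)), [], fun _ => _root_.True⟩,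
  ⟨.pair (.var 0) (.pair (.var 3) (.var 4)), [.pair (.var 0) (.pair (.var 1) (.var 2))],
    fun v => v 3 = 2 * v 1 + 1 ∧ v 4 = 2 * v 2 + 1⟩,
  ⟨.pair (.var 0) (.pair (.var 3) (.var 4)), [.pair (.var 0) (.pair (.var 1) (.var 2))],
    fun v => v 3 = 2 * v 1 + 2 ∧ v 4 = 2 * v 2 + 2⟩]

lemma dyad_cases {y : ℕ} (hy : 0 < y) : ∃ k, k < y ∧ (y = 2 * k + 1 ∨ y = 2 * k + 2) := ⟨(y - 1) / 2, by omega⟩

lemma cat_der (x y z : ℕ) : Rcat x y z ↔ Derivable catRules (Nat.pair x (Nat.pair y z)) := by
  rw [Rcat_iff]
  constructor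
  · rintro rfl
    induction y using Nat.strong_induction_on with
    | _ y ih =>
      rcases Nat.eq_zero_or_pos y with rfl | hy
      · rw [digits_zero, List.append_nil, num_digits]
        exact der0 0 (by decide) [x] rfl trivial rfl
      · obtain ⟨k, hk0, hk⟩ := dyad_cases hy
        have hi := ih k hk0
        rcases hk with rfl | rfl
        · rw [digits_odd, ← List.append_assoc, num_snoc]
          exact der1 1 (by decide) [x, k, num (digits x ++ digits k), 2 * k + 1, 2 * num (digits x ++ digits k) + 1]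
            rfl ⟨rfl, rfl⟩ hi rfl
        · rw [digits_even, ← List.append_assoc, num_snoc]
          exact der1 2 (by decide) [x, k, num (digits x ++ digits k), 2 * k + 2, 2 * num (digits x ++ digits k) + 2]
            rfl ⟨rfl, rfl⟩ hi rfl
  · intro h
    have key := Derivable.ind (R := catRules)
      (P := fun n => n.unpair.2.unpair.2 = num (digits n.unpair.1 ++ digits n.unpair.2.unpair.1)) (by
        intro r hr ρ hs hp
        simp only [catRules, List.mem_cons, List.not_mem_nil, or_false] at hr
        rcases hr with rfl | rfl | rfl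
        · simp [Tm.eval, digits_zero, num_digits]
        · obtain ⟨h1, h2⟩ := hs
          have h3 := hp _ (List.mem_singleton.2 rfl)
          simp only [Tm.eval, Nat.unpair_pair] at h3 ⊢
          rw [h1, h2, h3, digits_odd, ← List.append_assoc, num_snoc]
          simp
        · obtain ⟨h1, h2⟩ := hs
          have h3 := hp _ (List.mem_singleton.2 rfl)
          simp only [Tm.eval, Nat.unpair_pair] at h3 ⊢
          rw [h1, h2, h3, digits_even, ← List.append_assoc, num_snoc]
          simp) h
    simpa using key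

theorem ar_cat : Ar (fun v => Rcat (v 0) (v 1) (v 2)) := by
  have h := Ar.der catRules (by
    intro r hr
    simp only [catRules, List.mem_cons, List.not_mem_nil, or_false] at hr
    rcases hr with rfl | rfl | rfl
    · exact ar_true
    · exact (ar_d1 (.var 1) (.var 3)).and (ar_d1 (.var 2) (.var 4))
    · exact (ar_d2 (.var 1) (.var 3)).and (ar_d2 (.var 2) (.var 4)))
    (.pair (.var 0) (.pair (.var 1) (.var 2)))
  exact h.congr fun v => (cat_der _ _ _).symm

end Pool.Agent.TH672.R104
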