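import Pool.Agent.TH894.J104A
set_option autoImplicit false
namespace Pool.Agent.TH672.R104
open Form

/-! ### concatenation again -/

lemma Rcat_num (u w : List Bool) (z : ℕ) : Rcat (num u) (num w) z ↔ z = num (u ++ w) := by
  rw [Rcat_iff, digits_num, digits_num]

theorem ar_catT (s t u : Tm) : Ar (fun v => Rcat (s.eval v) (t.eval v) (u.eval v)) :=
  Ar.app3 (R := Rcat) ar_cat s t u

theorem ar_catc (k : List Bool) (s t : Tm) : Ar (fun v => Rcat (num k) (s.eval v) (t.eval v)) :=
  (ar_catT (tn (num k)) s t).congr fun v => by rw [tn_eval]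

/-! ### the string of a variable -/

def vsRules : List Rule := [
  ⟨.pair .zero .zero, [], fun _ => _root_.True⟩,
  ⟨.pair (.succ (.var 0)) (.var 2), [.pair (.var 0) (.var 1)], fun v => v 2 = 2 * v 1 + 2⟩]

lemma vs_der (x y : ℕ) : y = num (List.replicate x true) ↔ Derivable vsRules (Nat.pair x y) := by
  constructor
  · rintro rfl
    induction x with
    | zero => exact der0 0 (by decide) [] rfl trivial rfl
    | succ x ih =>
      exact der1 1 (by decide) [x, num (List.replicate x true), num (List.replicate (x + 1) true)] rfl
        (by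
          show num (List.replicate (x + 1) true) = 2 * num (List.replicate x true) + 2
          rw [List.replicate_succ', num_snoc]; simp) ih rfl
  · intro h
    have key := Derivable.ind (R := vsRules)
      (P := fun n => n.unpair.2 = num (List.replicate n.unpair.1 true)) (by
        intro r hr ρ hs hp
        simp only [vsRules, List.mem_cons, List.not_mem_nil, or_false] at hr
        rcases hr with rfl | rfl
        · simp [Tm.eval, num_nil]
        · have h3 := hp _ (List.mem_singleton.2 rfl)
          simp only [Tm.eval, Nat.unpair_pair] at h3 hs ⊢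
          rw [hs, h3, List.replicate_succ', num_snoc]
          simp) h
    simpa using key

theorem ar_vs : Ar (fun v => Rvs (v 0) (v 1)) := by
  have h0 := Ar.der vsRules (by
    intro r hr
    simp only [vsRules, List.mem_cons, List.not_mem_nil, or_false] at hr
    rcases hr with rfl | rfl
    · exact ar_true
    · exact ar_d2 (.var 1) (.var 2)) (.pair (.var 1) (.var 0))
  have h1 : Ar (fun v => ∃ a, Derivable vsRules (Nat.pair (v 0) a) ∧ v 1 = 2 * a + 1) := by
    apply Ar.exd
    exact h0.and (ar_d1 (.var 0) (.var 2))
  refine h1.congr fun v => ?_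
  unfold Rvs varStr
  rw [num_snoc]
  simp only [Bool.false_eq_true, if_false]
  constructor
  · rintro ⟨a, ha, hb⟩
    rw [← vs_der] at ha
    rw [hb, ha]
  · intro h
    exact ⟨_, (vs_der _ _).1 rfl, h⟩

theorem ar_vsT (s t : Tm) : Ar (fun v => Rvs (s.eval v) (t.eval v)) := Ar.app2 (R := Rvs) ar_vs s t

/-! ### the number of digits -/

def lnRules : List Rule := [
  ⟨.pair .zero .zero, [], fun _ => _root_.True⟩,
  ⟨.pair (.var 2) (.succ (.var 1)), [.pair (.var 0) (.var 1)], fun v => v 2 = 2 * v 0 + 1⟩,
  ⟨.pair (.var 2) (.succ (.var 1)), [.pair (.var 0) (.var 1)], fun v => v 2 = 2 * v 0 + 2⟩]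

lemma ln_der (x y : ℕ) : Rln x y ↔ Derivable lnRules (Nat.pair x y) := by
  unfold Rln
  constructor
  · rintro rfl
    induction x using Nat.strong_induction_on with
    | _ y ih =>
      rcases Nat.eq_zero_or_pos y with rfl | hy
      · rw [digits_zero]
        exact der0 0 (by decide) [] rfl trivial rfl
      · obtain ⟨k, hk0, hk⟩ := dyad_cases hy
        have hi := ih k hk0
        rcases hk with rfl | rfl
        · rw [digits_odd, List.length_append]
          exact der1 1 (by decide) [k, (digits k).length, 2 * k + 1] rfl rfl hi rfl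
        · rw [digits_even, List.length_append]
          exact der1 2 (by decide) [k, (digits k).length, 2 * k + 2] rfl rfl hi rfl
  · intro h
    have key := Derivable.ind (R := lnRules)
      (P := fun n => n.unpair.2 = (digits n.unpair.1).length) (by
        intro r hr ρ hs hp
        simp only [lnRules, List.mem_cons, List.not_mem_nil, or_false] at hr
        rcases hr with rfl | rfl | rfl
        · simp [Tm.eval, digits_zero]
        · have h3 := hp _ (List.mem_singleton.2 rfl)
          simp only [Tm.eval, Nat.unpair_pair] at h3 hs ⊢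
          rw [hs, h3, digits_odd, List.length_append]
          simp
        · have h3 := hp _ (List.mem_singleton.2 rfl)
          simp only [Tm.eval, Nat.unpair_pair] at h3 hs ⊢
          rw [hs, h3, digits_even, List.length_append]
          simp) h
    simpa using key

theorem ar_ln : Ar (fun v => Rln (v 0) (v 1)) := by
  have h := Ar.der lnRules (by
    intro r hr
    simp only [lnRules, List.mem_cons, List.not_mem_nil, or_false] at hr
    rcases hr with rfl | rfl | rfl
    · exact ar_true
    · exact ar_d1 (.var 0) (.var 2)
    · exact ar_d2 (.var 0) (.var 2)) (.pair (.var 0) (.var 1))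
  exact h.congr fun v => (ln_der _ _).symm

/-! ### values of assignments -/

lemma asg_zero (x : ℕ) : asg 0 x = 0 := by
  cases x <;> simp [asg]

lemma asg_cons_zero (a t : ℕ) : asg (Nat.pair a t + 1) 0 = a := by
  simp [asg]

lemma asg_cons_succ (a t x : ℕ) : asg (Nat.pair a t + 1) (x + 1) = asg t x := by
  simp [asg]

def vvRules : List Rule := [
  ⟨.pair .zero (.pair (.var 0) .zero), [], fun _ => _root_.True⟩,
  ⟨.pair (.succ (.pair (.var 0) (.var 1))) (.pair .zero (.var 0)), [], fun _ => _root_.True⟩,
  ⟨.pair (.succ (.pair (.var 0) (.var 1))) (.pair (.succ (.var 2)) (.var 3)),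
    [.pair (.var 1) (.pair (.var 2) (.var 3))], fun _ => _root_.True⟩]

lemma vv_der (s x a : ℕ) : Rvv s x a ↔ Derivable vvRules (Nat.pair s (Nat.pair x a)) := by
  unfold Rvv
  constructor
  · rintro rfl
    induction x generalizing s with
    | zero =>
      rcases s with _ | s
      · rw [asg_zero]
        exact der0 0 (by decide) [0] rfl trivial rfl
      · obtain ⟨a, t, rfl⟩ : ∃ a t, s = Nat.pair a t := ⟨s.unpair.1, s.unpair.2, (Nat.pair_unpair s).symm⟩
        rw [asg_cons_zero]
        exact der0 1 (by decide) [a, t] rfl trivial rfl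
    | succ x ih =>
      rcases s with _ | s
      · rw [asg_zero]
        exact der0 0 (by decide) [x + 1] rfl trivial rfl
      · obtain ⟨a, t, rfl⟩ : ∃ a t, s = Nat.pair a t := ⟨s.unpair.1, s.unpair.2, (Nat.pair_unpair s).symm⟩
        rw [asg_cons_succ]
        exact der1 2 (by decide) [a, t, x, asg t x] rfl trivial (ih t) rfl
  · intro h
    have key := Derivable.ind (R := vvRules)
      (P := fun n => asg n.unpair.1 n.unpair.2.unpair.1 = n.unpair.2.unpair.2) (by
        intro r hr ρ hs hp
        simp only [vvRules, List.mem_cons, List.not_mem_nil, or_false] at hr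
        rcases hr with rfl | rfl | rfl
        · simp only [Tm.eval, Nat.unpair_pair]
          exact asg_zero _
        · simp only [Tm.eval, Nat.unpair_pair]
          exact asg_cons_zero _ _
        · have h3 := hp _ (List.mem_singleton.2 rfl)
          simp only [Tm.eval, Nat.unpair_pair] at h3 ⊢
          rw [asg_cons_succ, h3]) h
    simpa using key

theorem ar_vv : Ar (fun v => Rvv (v 0) (v 1) (v 2)) := by
  have h := Ar.der vvRules (by
    intro r hr
    simp only [vvRules, List.mem_cons, List.not_mem_nil, or_false] at hr
    rcases hr with rfl | rfl | rfl <;> exact ar_true) (.pair (.var 0) (.pair (.var 1) (.var 2)))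
  exact h.congr fun v => (vv_der _ _ _).symm

theorem ar_vvT (s t u : Tm) : Ar (fun v => Rvv (s.eval v) (t.eval v) (u.eval v)) := Ar.app3 (R := Rvv) ar_vv s t u

/-! ### strings of numerals -/

def tmRules (x : ℕ) : List Rule := [
  ⟨.pair .zero .zero, [], fun _ => _root_.True⟩,
  ⟨.pair (.var 2) (.var 3), [.pair (.var 0) (.var 1)],
    fun v => v 2 = 2 * v 0 + 1 ∧ Rcat (v 1) (num (tmpl x false)) (v 3)⟩,
  ⟨.pair (.var 2) (.var 3), [.pair (.var 0) (.var 1)],
    fun v => v 2 = 2 * v 0 + 2 ∧ Rcat (v 1) (num (tmpl x true)) (v 3)⟩]

lemma tm_der (x n u : ℕ) : u = num ((digits n).flatMap (tmpl x)) ↔ Derivable (tmRules x) (Nat.pair n u) := by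
  constructor
  · rintro rfl
    induction n using Nat.strong_induction_on with
    | _ y ih =>
      rcases Nat.eq_zero_or_pos y with rfl | hy
      · rw [digits_zero]
        exact der0 0 (by simp [tmRules]) [] rfl trivial rfl
      · obtain ⟨k, hk0, hk⟩ := dyad_cases hy
        have hi := ih k hk0
        rcases hk with rfl | rfl
        · exact der1 1 (by simp [tmRules]) [k, num ((digits k).flatMap (tmpl x)), 2 * k + 1,
            num ((digits (2 * k + 1)).flatMap (tmpl x))] rfl ⟨rfl, by
              show Rcat (num ((digits k).flatMap (tmpl x))) (num (tmpl x false)) (num ((digits (2 * k + 1)).flatMap (tmpl x)))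
              rw [Rcat_num, digits_odd, List.flatMap_append]
              simp⟩ hi rfl
        · exact der1 2 (by simp [tmRules]) [k, num ((digits k).flatMap (tmpl x)), 2 * k + 2,
            num ((digits (2 * k + 2)).flatMap (tmpl x))] rfl ⟨rfl, by
              show Rcat (num ((digits k).flatMap (tmpl x))) (num (tmpl x true)) (num ((digits (2 * k + 2)).flatMap (tmpl x)))
              rw [Rcat_num, digits_even, List.flatMap_append]
              simp⟩ hi rfl
  · intro h
    have key := Derivable.ind (R := tmRules x)
      (P := fun n => n.unpair.2 = num ((digits n.unpair.1).flatMap (tmpl x))) (by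
        intro r hr ρ hs hp
        simp only [tmRules, List.mem_cons, List.not_mem_nil, or_false] at hr
        rcases hr with rfl | rfl | rfl
        · simp [Tm.eval, digits_zero, num_nil]
        · have h3 := hp _ (List.mem_singleton.2 rfl)
          simp only [Tm.eval, Nat.unpair_pair] at h3 hs ⊢
          obtain ⟨h1, h2⟩ := hs
          rw [h3, Rcat_num] at h2
          rw [h1, h2, digits_odd, List.flatMap_append]
          simp
        · have h3 := hp _ (List.mem_singleton.2 rfl)
          simp only [Tm.eval, Nat.unpair_pair] at h3 hs ⊢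
          obtain ⟨h1, h2⟩ := hs
          rw [h3, Rcat_num] at h2
          rw [h1, h2, digits_even, List.flatMap_append]
          simp) h
    simpa using key

theorem ar_catc' (k : List Bool) (s t : Tm) : Ar (fun v => Rcat (s.eval v) (num k) (t.eval v)) :=
  (ar_catT s (tn (num k)) t).congr fun v => by rw [tn_eval]

theorem ar_tm (x : ℕ) : Ar (fun v => Rtm x (v 0) (v 1) (v 2)) := by
  have h := Ar.der (tmRules x) (by
    intro r hr
    simp only [tmRules, List.mem_cons, List.not_mem_nil, or_false] at hr
    rcases hr with rfl | rfl | rfl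
    · exact ar_true
    · exact (ar_d1 (.var 0) (.var 2)).and (ar_catc' _ (.var 1) (.var 3))
    · exact (ar_d2 (.var 0) (.var 2)).and (ar_catc' _ (.var 1) (.var 3))) (.pair (.var 3) (.var 1))
  have h1 : Ar (fun v => ∃ u t, Derivable (tmRules x) (Nat.pair (v 1) u) ∧ Rcat (v 0) (num (hd x)) t ∧ Rcat t u (v 2)) := by
    apply Ar.exd
    apply Ar.exd
    exact h.and ((ar_catc' _ (.var 2) (.var 0)).and (ar_catT (.var 0) (.var 1) (.var 4)))
  refine h1.congr fun v => ?_
  unfold Rtm
  constructor
  · rintro ⟨u, t, h2, h3, h4⟩
    rw [← tm_der] at h2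
    rw [Rcat_iff, digits_num] at h3
    rw [h2, h3, Rcat_num] at h4
    exact h4
  · intro h2
    refine ⟨_, _, (tm_der _ _ _).1 rfl, (Rcat_iff _ _ _).2 rfl, ?_⟩
    rw [digits_num, Rcat_num]
    exact h2

end Pool.Agent.TH672.R104
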