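import Pool.Agent.TH894.J104B
set_option autoImplicit false
namespace Pool.Agent.TH672.R104
open Form

/-! ### Argument places and instances of formulas -/

/-- `c` is the code of an argument place -/
def IsSlot (c : ℕ) : Prop := ∃ S : Slot, c = S.code

lemma isSlot_iff (c : ℕ) : IsSlot c ↔ (∃ i, c = Nat.pair 0 i) ∨ ∃ i, c = Nat.pair 1 i := by
  constructor
  · rintro ⟨S, rfl⟩
    cases S with
    | bd i => exact Or.inl ⟨i, rfl⟩
    | par a => exact Or.inr ⟨a, rfl⟩
  · rintro (⟨i, rfl⟩ | ⟨i, rfl⟩)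
    · exact ⟨.bd i, rfl⟩
    · exact ⟨.par i, rfl⟩

theorem ar_isSlot (s : Tm) : Ar (fun v => IsSlot (s.eval v)) := by
  have h : Ar (fun v => IsSlot (v 0)) := by
    have h1 : Ar (fun v => (∃ i, v 0 = Nat.pair 0 i) ∨ ∃ i, v 0 = Nat.pair 1 i) := by
      apply Ar.or
      · apply Ar.exd
        exact Ar.tm (.var 1) (.pair .zero (.var 0))
      · apply Ar.exd
        exact Ar.tm (.var 1) (.pair (.succ .zero) (.var 0))
    exact h1.congr fun v => (isSlot_iff _).symm
  exact Ar.app1 (R := IsSlot) h s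

theorem ar_at : Ar (fun v => Rat (v 0)) := by
  have h : Ar (fun v => ∃ k a b c, IsSlot a ∧ IsSlot b ∧ IsSlot c ∧
      v 0 = Nat.pair 0 (Nat.pair k (Nat.pair a (Nat.pair b c)))) := by
    apply Ar.exd; apply Ar.exd; apply Ar.exd; apply Ar.exd
    exact (ar_isSlot (.var 2)).and ((ar_isSlot (.var 1)).and ((ar_isSlot (.var 0)).and
      (Ar.tm (.var 4) (.pair .zero (.pair (.var 3) (.pair (.var 2) (.pair (.var 1) (.var 0))))))))
  refine h.congr fun v => ?_
  constructor
  · rintro ⟨k, a, b, c, ⟨A, rfl⟩, ⟨B, rfl⟩, ⟨C, rfl⟩, h⟩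
    exact ⟨k, A, B, C, h⟩
  · rintro ⟨k, A, B, C, h⟩
    exact ⟨k, _, _, _, ⟨A, rfl⟩, ⟨B, rfl⟩, ⟨C, rfl⟩, h⟩

theorem ar_atT (s : Tm) : Ar (fun v => Rat (s.eval v)) := Ar.app1 (R := Rat) ar_at s

/-- `c` is the code of an instance of a formula -/
def IsDB (c : ℕ) : Prop := ∃ g : DB, c = g.code

def dbRules : List Rule := [
  ⟨.var 0, [], fun v => Rat (v 0)⟩,
  ⟨.pair (.succ .zero) (.pair (.var 0) (.var 1)), [.var 0, .var 1], fun _ => _root_.True⟩,
  ⟨.pair (.succ (.succ .zero)) (.var 0), [.var 0], fun _ => _root_.True⟩]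

lemma db_der (n : ℕ) : IsDB n ↔ Derivable dbRules n := by
  constructor
  · rintro ⟨g, rfl⟩
    induction g with
    | atom k a b c => exact der0 0 (by decide) [(DB.atom k a b c).code] rfl ⟨k, a, b, c, rfl⟩ rfl
    | imp f g h1 h2 => exact der2 1 (by decide) [f.code, g.code] rfl trivial h1 h2 rfl
    | all f h1 => exact der1 2 (by decide) [f.code] rfl trivial h1 rfl
  · intro h
    refine Derivable.ind (R := dbRules) (P := IsDB) ?_ h
    intro r hr ρ hs hp
    simp only [dbRules, List.mem_cons, List.not_mem_nil, or_false] at hr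
    rcases hr with rfl | rfl | rfl
    · obtain ⟨k, a, b, c, h⟩ := hs
      exact ⟨_, h⟩
    · obtain ⟨f, hf⟩ := hp (.var 0) (by simp)
      obtain ⟨g, hg⟩ := hp (.var 1) (by simp)
      refine ⟨.imp f g, ?_⟩
      simp only [Tm.eval] at hf hg ⊢
      rw [hf, hg]; rfl
    · obtain ⟨f, hf⟩ := hp (.var 0) (by simp)
      refine ⟨.all f, ?_⟩
      simp only [Tm.eval] at hf ⊢
      rw [hf]; rfl

theorem ar_db (s : Tm) : Ar (fun v => IsDB (s.eval v)) := by
  have h := Ar.der dbRules (by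
    intro r hr
    simp only [dbRules, List.mem_cons, List.not_mem_nil, or_false] at hr
    rcases hr with rfl | rfl | rfl
    · exact ar_at
    · exact ar_true
    · exact ar_true) s
  exact h.congr fun v => (db_der _).symm

theorem ar_im : Ar (fun v => Rim (v 0) (v 1) (v 2)) := by
  have h : Ar (fun v => IsDB (v 0) ∧ IsDB (v 1) ∧ v 2 = Nat.pair 1 (Nat.pair (v 0) (v 1))) :=
    (ar_db (.var 0)).and ((ar_db (.var 1)).and (Ar.tm (.var 2) (.pair (.succ .zero) (.pair (.var 0) (.var 1)))))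
  refine h.congr fun v => ?_
  constructor
  · rintro ⟨⟨g, hg⟩, ⟨h, hh⟩, h1⟩
    refine ⟨g, h, hg, hh, ?_⟩
    rw [h1, hg, hh]; rfl
  · rintro ⟨g, h, hg, hh, h1⟩
    refine ⟨⟨g, hg⟩, ⟨h, hh⟩, ?_⟩
    rw [h1, hg, hh]; rfl

theorem ar_al : Ar (fun v => Ral (v 0) (v 1)) := by
  have h : Ar (fun v => IsDB (v 0) ∧ v 1 = Nat.pair 2 (v 0)) :=
    (ar_db (.var 0)).and (Ar.tm (.var 1) (.pair (.succ (.succ .zero)) (.var 0)))
  refine h.congr fun v => ?_
  constructor
  · rintro ⟨⟨g, hg⟩, h1⟩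
    refine ⟨g, hg, ?_⟩
    rw [h1, hg]; rfl
  · rintro ⟨g, hg, h1⟩
    refine ⟨⟨g, hg⟩, ?_⟩
    rw [h1, hg]; rfl

/-! ### substitution -/

/-- substitution in an argument place -/
def SP (k a s s' : ℕ) : Prop := ∃ S : Slot, s = S.code ∧ s' = (S.put k a).code

lemma SP_iff (k a s s' : ℕ) : SP k a s s' ↔
    (∃ i, s = Nat.pair 0 i ∧ ((i = k ∧ s' = Nat.pair 1 a) ∨ (¬ i = k ∧ s' = s))) ∨
      ∃ b, s = Nat.pair 1 b ∧ s' = s := by
  constructor
  · rintro ⟨S, rfl, rfl⟩
    cases S with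
    | bd i =>
      left
      refine ⟨i, rfl, ?_⟩
      by_cases h : i = k
      · left; exact ⟨h, by simp [Slot.put, h, Slot.code]⟩
      · right; exact ⟨h, by simp [Slot.put, h]⟩
    | par b => right; exact ⟨b, rfl, rfl⟩
  · rintro (⟨i, rfl, ⟨h, rfl⟩ | ⟨h, rfl⟩⟩ | ⟨b, rfl, rfl⟩)
    · exact ⟨.bd i, rfl, by simp [Slot.put, h, Slot.code]⟩
    · exact ⟨.bd i, rfl, by simp [Slot.put, h, Slot.code]⟩
    · exact ⟨.par b, rfl, rfl⟩

theorem ar_SP (p q s t : Tm) : Ar (fun v => SP (p.eval v) (q.eval v) (s.eval v) (t.eval v)) := by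
  have h : Ar (fun v => SP (v 0) (v 1) (v 2) (v 3)) := by
    have h1 : Ar (fun v => (∃ i, v 2 = Nat.pair 0 i ∧ ((i = v 0 ∧ v 3 = Nat.pair 1 (v 1)) ∨ (¬ i = v 0 ∧ v 3 = v 2))) ∨
        ∃ b, v 2 = Nat.pair 1 b ∧ v 3 = v 2) := by
      apply Ar.or
      · apply Ar.exd
        exact (Ar.tm (.var 3) (.pair .zero (.var 0))).and
          (((Ar.eq 0 1).and (Ar.tm (.var 4) (.pair (.succ .zero) (.var 2)))).or ((Ar.eq 0 1).not.and (Ar.eq 4 3)))
      · apply Ar.exd
        exact (Ar.tm (.var 3) (.pair (.succ .zero) (.var 0))).and (Ar.eq 4 3)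
    exact h1.congr fun v => (SP_iff _ _ _ _).symm
  exact Ar.app4 (R := SP) h p q s t

/-- substitution in an atomic instance -/
def AP (G a k H : ℕ) : Prop := ∃ j s t u s' t' u', SP k a s s' ∧ SP k a t t' ∧ SP k a u u' ∧
  G = Nat.pair 0 (Nat.pair j (Nat.pair s (Nat.pair t u))) ∧
  H = Nat.pair 0 (Nat.pair j (Nat.pair s' (Nat.pair t' u')))

theorem ar_AP : Ar (fun v => AP (v 0) (v 1) (v 2) (v 3)) := by
  unfold AP
  apply Ar.exd; apply Ar.exd; apply Ar.exd; apply Ar.exd; apply Ar.exd; apply Ar.exd; apply Ar.exd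
  exact (ar_SP (.var 9) (.var 8) (.var 5) (.var 2)).and ((ar_SP (.var 9) (.var 8) (.var 4) (.var 1)).and
    ((ar_SP (.var 9) (.var 8) (.var 3) (.var 0)).and
      ((Ar.tm (.var 7) (.pair .zero (.pair (.var 6) (.pair (.var 5) (.pair (.var 4) (.var 3)))))).and
        (Ar.tm (.var 10) (.pair .zero (.pair (.var 6) (.pair (.var 2) (.pair (.var 1) (.var 0)))))))))

def puRules : List Rule := [
  ⟨.pair (.var 0) (.pair (.var 1) (.pair (.var 2) (.var 3))), [], fun v => AP (v 0) (v 1) (v 2) (v 3)⟩,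
  ⟨.pair (.pair (.succ .zero) (.pair (.var 0) (.var 1))) (.pair (.var 2) (.pair (.var 3)
      (.pair (.succ .zero) (.pair (.var 4) (.var 5))))),
    [.pair (.var 0) (.pair (.var 2) (.pair (.var 3) (.var 4))), .pair (.var 1) (.pair (.var 2) (.pair (.var 3) (.var 5)))],
    fun _ => _root_.True⟩,
  ⟨.pair (.pair (.succ (.succ .zero)) (.var 0)) (.pair (.var 2) (.pair (.var 3) (.pair (.succ (.succ .zero)) (.var 4)))),
    [.pair (.var 0) (.pair (.var 2) (.pair (.succ (.var 3)) (.var 4)))], fun _ => _root_.True⟩]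

def Pu (G a k H : ℕ) : Prop := ∃ g : DB, G = g.code ∧ H = (g.put a k).code

lemma pu_der (G a k H : ℕ) : Pu G a k H ↔ Derivable puRules (Nat.pair G (Nat.pair a (Nat.pair k H))) := by
  constructor
  · rintro ⟨g, rfl, rfl⟩
    induction g generalizing k with
    | atom j s t u =>
      exact der0 0 (by decide) [(DB.atom j s t u).code, a, k, ((DB.atom j s t u).put a k).code] rfl
        ⟨j, _, _, _, _, _, _, ⟨s, rfl, rfl⟩, ⟨t, rfl, rfl⟩, ⟨u, rfl, rfl⟩, rfl, rfl⟩ rfl
    | imp f g h1 h2 =>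
      exact der2 1 (by decide) [f.code, g.code, a, k, (f.put a k).code, (g.put a k).code] rfl trivial (h1 k) (h2 k) rfl
    | all f h1 =>
      exact der1 2 (by decide) [f.code, 0, a, k, (f.put a (k + 1)).code] rfl trivial (h1 (k + 1)) rfl
  · intro h
    have key := Derivable.ind (R := puRules)
      (P := fun n => Pu n.unpair.1 n.unpair.2.unpair.1 n.unpair.2.unpair.2.unpair.1 n.unpair.2.unpair.2.unpair.2) (by
        intro r hr ρ hs hp
        simp only [puRules, List.mem_cons, List.not_mem_nil, or_false] at hr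
        rcases hr with rfl | rfl | rfl
        · obtain ⟨j, s, t, u, s', t', u', ⟨S, rfl, rfl⟩, ⟨T, rfl, rfl⟩, ⟨U, rfl, rfl⟩, h1, h2⟩ := hs
          simp only [Tm.eval, Nat.unpair_pair]
          exact ⟨.atom j S T U, h1, h2⟩
        · obtain ⟨f, hf1, hf2⟩ := hp (.pair (.var 0) (.pair (.var 2) (.pair (.var 3) (.var 4)))) (by simp)
          obtain ⟨g, hg1, hg2⟩ := hp (.pair (.var 1) (.pair (.var 2) (.pair (.var 3) (.var 5)))) (by simp)
          simp only [Tm.eval, Nat.unpair_pair] at hf1 hf2 hg1 hg2 ⊢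
          refine ⟨.imp f g, ?_, ?_⟩
          · rw [hf1, hg1]; rfl
          · rw [hf2, hg2]; rfl
        · obtain ⟨f, hf1, hf2⟩ := hp _ (List.mem_singleton.2 rfl)
          simp only [Tm.eval, Nat.unpair_pair] at hf1 hf2 ⊢
          refine ⟨.all f, ?_, ?_⟩
          · rw [hf1]; rfl
          · rw [hf2]; rfl) h
    simpa using key

theorem ar_in : Ar (fun v => Rin (v 0) (v 1) (v 2)) := by
  have h := Ar.der puRules (by
    intro r hr
    simp only [puRules, List.mem_cons, List.not_mem_nil, or_false] at hr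
    rcases hr with rfl | rfl | rfl
    · exact ar_AP
    · exact ar_true
    · exact ar_true) (.pair (.var 0) (.pair (.var 1) (.pair .zero (.var 2))))
  exact h.congr fun v => (pu_der _ _ _ _).symm

/-! ### true atomic instances -/

theorem ar_tt : Ar (fun v => Rtt (v 0)) := by
  have h : Ar (fun v =>
      (∃ a, v 0 = Nat.pair 0 (Nat.pair 1 (Nat.pair (Nat.pair 1 a) (Nat.pair (Nat.pair 1 a) (Nat.pair 1 0))))) ∨
      (v 0 = Nat.pair 0 (Nat.pair 2 (Nat.pair (Nat.pair 1 0) (Nat.pair (Nat.pair 1 0) (Nat.pair 1 0))))) ∨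
      (∃ a, v 0 = Nat.pair 0 (Nat.pair 3 (Nat.pair (Nat.pair 1 a) (Nat.pair (Nat.pair 1 (a + 1)) (Nat.pair 1 0))))) ∨
      (∃ a b c, a + b = c ∧ v 0 = Nat.pair 0 (Nat.pair 4 (Nat.pair (Nat.pair 1 a) (Nat.pair (Nat.pair 1 b) (Nat.pair 1 c))))) ∨
      (∃ a b c, a * b = c ∧ v 0 = Nat.pair 0 (Nat.pair 5 (Nat.pair (Nat.pair 1 a) (Nat.pair (Nat.pair 1 b) (Nat.pair 1 c)))))) := by
    refine Ar.or ?_ (Ar.or ?_ (Ar.or ?_ (Ar.or ?_ ?_)))
    · apply Ar.exd
      exact Ar.tm (.var 1) (.pair .zero (.pair (.succ .zero) (.pair (.pair (.succ .zero) (.var 0))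
        (.pair (.pair (.succ .zero) (.var 0)) (.pair (.succ .zero) .zero)))))
    · exact Ar.tm (.var 0) (.pair .zero (.pair (.succ (.succ .zero)) (.pair (.pair (.succ .zero) .zero)
        (.pair (.pair (.succ .zero) .zero) (.pair (.succ .zero) .zero)))))
    · apply Ar.exd
      exact Ar.tm (.var 1) (.pair .zero (.pair (.succ (.succ (.succ .zero))) (.pair (.pair (.succ .zero) (.var 0))
        (.pair (.pair (.succ .zero) (.succ (.var 0))) (.pair (.succ .zero) .zero)))))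
    · apply Ar.exd; apply Ar.exd; apply Ar.exd
      exact (Ar.addRel 2 1 0).and (Ar.tm (.var 3) (.pair .zero (.pair (.succ (.succ (.succ (.succ .zero))))
        (.pair (.pair (.succ .zero) (.var 2)) (.pair (.pair (.succ .zero) (.var 1)) (.pair (.succ .zero) (.var 0)))))))
    · apply Ar.exd; apply Ar.exd; apply Ar.exd
      exact (Ar.mulRel 2 1 0).and (Ar.tm (.var 3) (.pair .zero (.pair (.succ (.succ (.succ (.succ (.succ .zero)))))
        (.pair (.pair (.succ .zero) (.var 2)) (.pair (.pair (.succ .zero) (.var 1)) (.pair (.succ .zero) (.var 0)))))))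
  refine h.congr fun v => ?_
  unfold Rtt
  simp only [DB.code, Slot.code]
  refine or_congr Iff.rfl (or_congr Iff.rfl (or_congr Iff.rfl (or_congr ?_ ?_)))
  · constructor
    · rintro ⟨a, b, c, rfl, h⟩; exact ⟨a, b, h⟩
    · rintro ⟨a, b, h⟩; exact ⟨a, b, _, rfl, h⟩
  · constructor
    · rintro ⟨a, b, c, rfl, h⟩; exact ⟨a, b, h⟩
    · rintro ⟨a, b, h⟩; exact ⟨a, b, _, rfl, h⟩

/-! ### the depth -/

def dpRules : List Rule := [
  ⟨.pair (.var 0) (.succ (.var 1)), [], fun v => Rat (v 0)⟩,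
  ⟨.pair (.pair (.succ .zero) (.pair (.var 0) (.var 1))) (.succ (.var 2)),
    [.pair (.var 0) (.var 2), .pair (.var 1) (.var 2)], fun _ => _root_.True⟩,
  ⟨.pair (.pair (.succ (.succ .zero)) (.var 0)) (.succ (.var 2)), [.pair (.var 0) (.var 2)], fun _ => _root_.True⟩]

lemma dp_der (F k : ℕ) : Rdp F k ↔ Derivable dpRules (Nat.pair F k) := by
  constructor
  · rintro ⟨f, rfl, hf⟩
    induction f generalizing k with
    | atom j s t u =>
      obtain ⟨k, rfl⟩ : ∃ l, k = l + 1 := ⟨k - 1, by simp only [DB.depth] at hf; omega⟩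
      exact der0 0 (by decide) [(DB.atom j s t u).code, k] rfl ⟨j, s, t, u, rfl⟩ rfl
    | imp f g h1 h2 =>
      simp only [DB.depth] at hf
      obtain ⟨k, rfl⟩ : ∃ l, k = l + 1 := ⟨k - 1, by omega⟩
      exact der2 1 (by decide) [f.code, g.code, k] rfl trivial (h1 k (by omega)) (h2 k (by omega)) rfl
    | all f h1 =>
      simp only [DB.depth] at hf
      obtain ⟨k, rfl⟩ : ∃ l, k = l + 1 := ⟨k - 1, by omega⟩
      exact der1 2 (by decide) [f.code, 0, k] rfl trivial (h1 k (by omega)) rfl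
  · intro h
    have key := Derivable.ind (R := dpRules)
      (P := fun n => Rdp n.unpair.1 n.unpair.2) (by
        intro r hr ρ hs hp
        simp only [dpRules, List.mem_cons, List.not_mem_nil, or_false] at hr
        rcases hr with rfl | rfl | rfl
        · obtain ⟨j, s, t, u, h1⟩ := hs
          simp only [Tm.eval, Nat.unpair_pair]
          exact ⟨_, h1, by simp [DB.depth]⟩
        · obtain ⟨f, hf1, hf2⟩ := hp (.pair (.var 0) (.var 2)) (by simp)
          obtain ⟨g, hg1, hg2⟩ := hp (.pair (.var 1) (.var 2)) (by simp)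
          simp only [Tm.eval, Nat.unpair_pair] at hf1 hf2 hg1 hg2 ⊢
          refine ⟨.imp f g, ?_, ?_⟩
          · rw [hf1, hg1]; rfl
          · simp only [DB.depth]; omega
        · obtain ⟨f, hf1, hf2⟩ := hp _ (List.mem_singleton.2 rfl)
          simp only [Tm.eval, Nat.unpair_pair] at hf1 hf2 ⊢
          refine ⟨.all f, ?_, ?_⟩
          · rw [hf1]; rfl
          · simp only [DB.depth]; omega) h
    simpa using key

theorem ar_dp : Ar (fun v => Rdp (v 0) (v 1)) := by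
  have h := Ar.der dpRules (by
    intro r hr
    simp only [dpRules, List.mem_cons, List.not_mem_nil, or_false] at hr
    rcases hr with rfl | rfl | rfl
    · exact ar_at
    · exact ar_true
    · exact ar_true) (.pair (.var 0) (.var 1))
  exact h.congr fun v => (dp_der _ _).symm

end Pool.Agent.TH672.R104
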