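import Pool.Agent.TH894.J104C
set_option autoImplicit false
namespace Pool.Agent.TH672.R104
open Form

/-! ### coded lists -/

/-- the code of a list of numbers -/
def lc : List ℕ → ℕ
  | [] => 0
  | a :: l => Nat.pair a (lc l) + 1

lemma lc_inj : ∀ {l l' : List ℕ}, lc l = lc l' → l = l'
  | [], [], _ => rfl
  | [], _ :: _, h => by simp [lc] at h
  | _ :: _, [], h => by simp [lc] at h
  | a :: l, a' :: l', h => by
    simp only [lc, Nat.add_right_cancel_iff, Nat.pair_eq_pair] at h
    rw [h.1, lc_inj h.2]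

lemma lc_surj (n : ℕ) : ∃ l, n = lc l := by
  induction n using Nat.strong_induction_on with
  | _ n ih =>
    rcases n with _ | n
    · exact ⟨[], rfl⟩
    · obtain ⟨l, hl⟩ := ih n.unpair.2 (by have := Nat.unpair_right_le n; omega)
      refine ⟨n.unpair.1 :: l, ?_⟩
      simp only [lc]
      rw [← hl, Nat.pair_unpair]

/-- `u` is in the list and `i` is its index -/
def Ix (σ u i : ℕ) : Prop := ∃ l : List ℕ, σ = lc l ∧ u ∈ l ∧ l.idxOf u = i

def ixRules : List Rule := [
  ⟨.pair (.succ (.pair (.var 0) (.var 1))) (.pair (.var 0) .zero), [], fun _ => _root_.True⟩,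
  ⟨.pair (.succ (.pair (.var 2) (.var 1))) (.pair (.var 0) (.succ (.var 3))),
    [.pair (.var 1) (.pair (.var 0) (.var 3))], fun v => ¬ v 0 = v 2⟩]

lemma ix_der (σ u i : ℕ) : Ix σ u i ↔ Derivable ixRules (Nat.pair σ (Nat.pair u i)) := by
  constructor
  · rintro ⟨l, rfl, hu, rfl⟩
    induction l with
    | nil => simp at hu
    | cons a l ih =>
      by_cases h : u = a
      · subst h
        rw [List.idxOf_cons_self]
        exact der0 0 (by decide) [u, lc l] rfl trivial rfl
      · have hu' : u ∈ l := by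
          rcases List.mem_cons.1 hu with h1 | h1
          · exact absurd h1 h
          · exact h1
        rw [List.idxOf_cons_ne _ (by exact fun e => h e.symm)]
        exact der1 1 (by decide) [u, lc l, a, l.idxOf u] rfl h (ih hu') rfl
  · intro h
    have key := Derivable.ind (R := ixRules)
      (P := fun n => Ix n.unpair.1 n.unpair.2.unpair.1 n.unpair.2.unpair.2) (by
        intro r hr ρ hs hp
        simp only [ixRules, List.mem_cons, List.not_mem_nil, or_false] at hr
        rcases hr with rfl | rfl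
        · simp only [Tm.eval, Nat.unpair_pair]
          obtain ⟨l, hl⟩ := lc_surj (ρ 1)
          refine ⟨ρ 0 :: l, ?_, List.mem_cons_self, List.idxOf_cons_self⟩
          rw [hl]; rfl
        · obtain ⟨l, hl, h1, h2⟩ := hp _ (List.mem_singleton.2 rfl)
          simp only [Tm.eval, Nat.unpair_pair] at hl h1 h2 hs ⊢
          refine ⟨ρ 2 :: l, ?_, List.mem_cons_of_mem _ h1, ?_⟩
          · rw [hl]; rfl
          · rw [List.idxOf_cons_ne _ (by exact fun e => hs e.symm), h2]) h
    simpa using key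

theorem ar_ix (s t u : Tm) : Ar (fun v => Ix (s.eval v) (t.eval v) (u.eval v)) := by
  have h0 : Ar (fun v => Ix (v 0) (v 1) (v 2)) := by
    have h := Ar.der ixRules (by
      intro r hr
      simp only [ixRules, List.mem_cons, List.not_mem_nil, or_false] at hr
      rcases hr with rfl | rfl
      · exact ar_true
      · exact (Ar.eq 0 2).not) (.pair (.var 0) (.pair (.var 1) (.var 2)))
    exact h.congr fun v => (ix_der _ _ _).symm
  exact Ar.app3 (R := Ix) h0 s t u

/-- the argument place of a variable -/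
def Sl (s σ u c : ℕ) : Prop := ∃ l : List ℕ, σ = lc l ∧ c = (slot (asg s) l u).code

lemma Sl_iff (s σ u c : ℕ) : Sl s σ u c ↔ (∃ i, Ix σ u i ∧ c = Nat.pair 0 i) ∨
    ((¬ ∃ i, Ix σ u i) ∧ ∃ a, Rvv s u a ∧ c = Nat.pair 1 a) := by
  constructor
  · rintro ⟨l, rfl, rfl⟩
    by_cases h : u ∈ l
    · left
      refine ⟨l.idxOf u, ⟨l, rfl, h, rfl⟩, ?_⟩
      unfold slot
      rw [if_pos h]; rfl
    · right
      refine ⟨?_, asg s u, rfl, ?_⟩
      · rintro ⟨i, l', h1, h2, h3⟩
        rw [lc_inj h1] at h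
        exact h h2
      · unfold slot
        rw [if_neg h]; rfl
  · rintro (⟨i, ⟨l, rfl, h, rfl⟩, rfl⟩ | ⟨h, a, h1, rfl⟩)
    · refine ⟨l, rfl, ?_⟩
      unfold slot
      rw [if_pos h]; rfl
    · obtain ⟨l, rfl⟩ := lc_surj σ
      refine ⟨l, rfl, ?_⟩
      have : ¬ u ∈ l := fun hu => h ⟨_, l, rfl, hu, rfl⟩
      unfold slot
      rw [if_neg this]
      unfold Rvv at h1
      rw [h1]; rfl

theorem ar_Sl (p q s t : Tm) : Ar (fun v => Sl (p.eval v) (q.eval v) (s.eval v) (t.eval v)) := by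
  have h : Ar (fun v => Sl (v 0) (v 1) (v 2) (v 3)) := by
    have h1 : Ar (fun v => (∃ i, Ix (v 1) (v 2) i ∧ v 3 = Nat.pair 0 i) ∨
        ((¬ ∃ i, Ix (v 1) (v 2) i) ∧ ∃ a, Rvv (v 0) (v 2) a ∧ v 3 = Nat.pair 1 a)) := by
      refine Ar.or ?_ (Ar.and (Ar.not ?_) ?_)
      · apply Ar.exd
        exact (ar_ix (.var 2) (.var 3) (.var 0)).and (Ar.tm (.var 4) (.pair .zero (.var 0)))
      · apply Ar.exd
        exact ar_ix (.var 2) (.var 3) (.var 0)
      · apply Ar.exd
        exact (ar_vvT (.var 1) (.var 3) (.var 0)).and (Ar.tm (.var 4) (.pair (.succ .zero) (.var 0)))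
    exact h1.congr fun v => (Sl_iff _ _ _ _).symm
  exact Ar.app4 (R := Sl) h p q s t

/-! ### atomic formulas -/

/-- strings with one variable -/
theorem ar_s1 (k : List Bool) (s t : Tm) : Ar (fun v => t.eval v = num (k ++ varStr (s.eval v))) := by
  have h : Ar (fun v => v 1 = num (k ++ varStr (v 0))) := by
    have h1 : Ar (fun v => ∃ u, Rvs (v 0) u ∧ Rcat (num k) u (v 1)) := by
      apply Ar.exd
      exact (ar_vsT (.var 1) (.var 0)).and (ar_catc k (.var 0) (.var 2))
    refine h1.congr fun v => ?_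
    constructor
    · rintro ⟨u, rfl, h⟩
      exact (Rcat_num _ _ _).1 h
    · intro h
      exact ⟨_, rfl, (Rcat_num _ _ _).2 h⟩
  exact Ar.app2 (R := fun a b => b = num (k ++ varStr a)) h s t

/-- strings with two variables -/
theorem ar_s2 (k : List Bool) (s t u : Tm) :
    Ar (fun v => u.eval v = num (k ++ varStr (s.eval v) ++ varStr (t.eval v))) := by
  have h : Ar (fun v => v 2 = num (k ++ varStr (v 0) ++ varStr (v 1))) := by
    have h1 : Ar (fun v => ∃ a b, a = num (k ++ varStr (v 0)) ∧ Rvs (v 1) b ∧ Rcat a b (v 2)) := by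
      apply Ar.exd; apply Ar.exd
      exact (ar_s1 k (.var 2) (.var 1)).and ((ar_vsT (.var 3) (.var 0)).and (ar_catT (.var 1) (.var 0) (.var 4)))
    refine h1.congr fun v => ?_
    constructor
    · rintro ⟨a, b, rfl, rfl, h⟩
      exact (Rcat_num _ _ _).1 h
    · intro h
      exact ⟨_, _, rfl, rfl, (Rcat_num _ _ _).2 h⟩
  exact Ar.app3 (R := fun a b c => c = num (k ++ varStr a ++ varStr b)) h s t u

/-- strings with three variables -/
theorem ar_s3 (k : List Bool) (s t u w : Tm) :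
    Ar (fun v => w.eval v = num (k ++ varStr (s.eval v) ++ varStr (t.eval v) ++ varStr (u.eval v))) := by
  have h : Ar (fun v => v 3 = num (k ++ varStr (v 0) ++ varStr (v 1) ++ varStr (v 2))) := by
    have h1 : Ar (fun v => ∃ a b, a = num (k ++ varStr (v 0) ++ varStr (v 1)) ∧ Rvs (v 2) b ∧ Rcat a b (v 3)) := by
      apply Ar.exd; apply Ar.exd
      exact (ar_s2 k (.var 2) (.var 3) (.var 1)).and ((ar_vsT (.var 4) (.var 0)).and (ar_catT (.var 1) (.var 0) (.var 5)))
    refine h1.congr fun v => ?_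
    constructor
    · rintro ⟨a, b, rfl, rfl, h⟩
      exact (Rcat_num _ _ _).1 h
    · intro h
      exact ⟨_, _, rfl, rfl, (Rcat_num _ _ _).2 h⟩
  exact Ar.app4 (R := fun a b c d => d = num (k ++ varStr a ++ varStr b ++ varStr c)) h s t u w

/-- the code of the argument place of the number `0` -/
def P0 : Tm := .pair (.succ .zero) .zero

/-- instances of atomic formulas -/
def AtCl (y s σ F : ℕ) : Prop :=
  (y = num [false, false, false] ∧
    F = Nat.pair 0 (Nat.pair 0 (Nat.pair (Nat.pair 1 0) (Nat.pair (Nat.pair 1 0) (Nat.pair 1 0))))) ∨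
  (∃ x z c d, y = num ([false, false, true] ++ varStr x ++ varStr z) ∧ Sl s σ x c ∧ Sl s σ z d ∧
    F = Nat.pair 0 (Nat.pair 1 (Nat.pair c (Nat.pair d (Nat.pair 1 0))))) ∨
  (∃ x c, y = num ([false, true, false] ++ varStr x) ∧ Sl s σ x c ∧
    F = Nat.pair 0 (Nat.pair 2 (Nat.pair c (Nat.pair (Nat.pair 1 0) (Nat.pair 1 0))))) ∨
  (∃ x z c d, y = num ([false, true, true] ++ varStr x ++ varStr z) ∧ Sl s σ x c ∧ Sl s σ z d ∧
    F = Nat.pair 0 (Nat.pair 3 (Nat.pair c (Nat.pair d (Nat.pair 1 0))))) ∨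
  (∃ x z w c d e, y = num ([true, false, false] ++ varStr x ++ varStr z ++ varStr w) ∧ Sl s σ x c ∧ Sl s σ z d ∧
    Sl s σ w e ∧ F = Nat.pair 0 (Nat.pair 4 (Nat.pair c (Nat.pair d e)))) ∨
  (∃ x z w c d e, y = num ([true, false, true] ++ varStr x ++ varStr z ++ varStr w) ∧ Sl s σ x c ∧ Sl s σ z d ∧
    Sl s σ w e ∧ F = Nat.pair 0 (Nat.pair 5 (Nat.pair c (Nat.pair d e))))

theorem ar_AtCl : Ar (fun v => AtCl (v 0) (v 1) (v 2) (v 3)) := by
  unfold AtCl
  refine Ar.or ?_ (Ar.or ?_ (Ar.or ?_ (Ar.or ?_ (Ar.or ?_ ?_))))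
  · exact (Ar.const (.var 0) _).and (Ar.tm (.var 3) (.pair .zero (.pair .zero (.pair P0 (.pair P0 P0)))))
  · apply Ar.exd; apply Ar.exd; apply Ar.exd; apply Ar.exd
    exact (ar_s2 _ (.var 3) (.var 2) (.var 4)).and ((ar_Sl (.var 5) (.var 6) (.var 3) (.var 1)).and
      ((ar_Sl (.var 5) (.var 6) (.var 2) (.var 0)).and
        (Ar.tm (.var 7) (.pair .zero (.pair (.succ .zero) (.pair (.var 1) (.pair (.var 0) P0)))))))
  · apply Ar.exd; apply Ar.exd
    exact (ar_s1 _ (.var 1) (.var 2)).and ((ar_Sl (.var 3) (.var 4) (.var 1) (.var 0)).and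
      (Ar.tm (.var 5) (.pair .zero (.pair (.succ (.succ .zero)) (.pair (.var 0) (.pair P0 P0))))))
  · apply Ar.exd; apply Ar.exd; apply Ar.exd; apply Ar.exd
    exact (ar_s2 _ (.var 3) (.var 2) (.var 4)).and ((ar_Sl (.var 5) (.var 6) (.var 3) (.var 1)).and
      ((ar_Sl (.var 5) (.var 6) (.var 2) (.var 0)).and
        (Ar.tm (.var 7) (.pair .zero (.pair (.succ (.succ (.succ .zero))) (.pair (.var 1) (.pair (.var 0) P0)))))))
  · apply Ar.exd; apply Ar.exd; apply Ar.exd; apply Ar.exd; apply Ar.exd; apply Ar.exd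
    exact (ar_s3 _ (.var 5) (.var 4) (.var 3) (.var 6)).and ((ar_Sl (.var 7) (.var 8) (.var 5) (.var 2)).and
      ((ar_Sl (.var 7) (.var 8) (.var 4) (.var 1)).and ((ar_Sl (.var 7) (.var 8) (.var 3) (.var 0)).and
        (Ar.tm (.var 9) (.pair .zero (.pair (.succ (.succ (.succ (.succ .zero))))
          (.pair (.var 2) (.pair (.var 1) (.var 0)))))))))
  · apply Ar.exd; apply Ar.exd; apply Ar.exd; apply Ar.exd; apply Ar.exd; apply Ar.exd
    exact (ar_s3 _ (.var 5) (.var 4) (.var 3) (.var 6)).and ((ar_Sl (.var 7) (.var 8) (.var 5) (.var 2)).and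
      ((ar_Sl (.var 7) (.var 8) (.var 4) (.var 1)).and ((ar_Sl (.var 7) (.var 8) (.var 3) (.var 0)).and
        (Ar.tm (.var 9) (.pair .zero (.pair (.succ (.succ (.succ (.succ (.succ .zero)))))
          (.pair (.var 2) (.pair (.var 1) (.var 0)))))))))

/-! ### instances of formulas -/

/-- `y` is the code of a formula and `F` is its instance -/
def Cl (y s σ F : ℕ) : Prop := ∃ (φ : Form) (l : List ℕ), y = num φ.str ∧ σ = lc l ∧ F = (clo (asg s) φ l).code

/-- strings of implications -/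
def Im (y y' z : ℕ) : Prop := z = num ([true, true, false] ++ digits y ++ digits y')

/-- strings of generalizations -/
def Al (x y z : ℕ) : Prop := z = num ([true, true, true] ++ varStr x ++ digits y)

theorem ar_Im (s t u : Tm) : Ar (fun v => Im (s.eval v) (t.eval v) (u.eval v)) := by
  have h : Ar (fun v => Im (v 0) (v 1) (v 2)) := by
    have h1 : Ar (fun v => ∃ a, Rcat (num [true, true, false]) (v 0) a ∧ Rcat a (v 1) (v 2)) := by
      apply Ar.exd
      exact (ar_catc _ (.var 1) (.var 0)).and (ar_catT (.var 0) (.var 2) (.var 3))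
    refine h1.congr fun v => ?_
    simp only [Rcat_iff, digits_num, Im]
    constructor
    · rintro ⟨a, rfl, h⟩
      rwa [digits_num] at h
    · intro h
      exact ⟨_, rfl, by rwa [digits_num]⟩
  exact Ar.app3 (R := Im) h s t u

theorem ar_Al (s t u : Tm) : Ar (fun v => Al (s.eval v) (t.eval v) (u.eval v)) := by
  have h : Ar (fun v => Al (v 0) (v 1) (v 2)) := by
    have h1 : Ar (fun v => ∃ a, a = num ([true, true, true] ++ varStr (v 0)) ∧ Rcat a (v 1) (v 2)) := by
      apply Ar.exd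
      exact (ar_s1 _ (.var 1) (.var 0)).and (ar_catT (.var 0) (.var 2) (.var 3))
    refine h1.congr fun v => ?_
    simp only [Rcat_iff, Al]
    constructor
    · rintro ⟨a, rfl, h⟩
      rwa [digits_num] at h
    · intro h
      exact ⟨_, rfl, by rwa [digits_num]⟩
  exact Ar.app3 (R := Al) h s t u

def clRules : List Rule := [
  ⟨.pair (.var 0) (.pair (.var 1) (.pair (.var 2) (.var 3))), [], fun v => AtCl (v 0) (v 1) (v 2) (v 3)⟩,
  ⟨.pair (.var 0) (.pair (.var 1) (.pair (.var 2) (.pair (.succ .zero) (.pair (.var 3) (.var 4))))),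
    [.pair (.var 5) (.pair (.var 1) (.pair (.var 2) (.var 3))),
     .pair (.var 6) (.pair (.var 1) (.pair (.var 2) (.var 4)))], fun v => Im (v 5) (v 6) (v 0)⟩,
  ⟨.pair (.var 0) (.pair (.var 1) (.pair (.var 2) (.pair (.succ (.succ .zero)) (.var 3)))),
    [.pair (.var 4) (.pair (.var 1) (.pair (.succ (.pair (.var 5) (.var 2))) (.var 3)))],
    fun v => Al (v 5) (v 4) (v 0)⟩]

lemma cl_der (y s σ F : ℕ) : Cl y s σ F ↔ Derivable clRules (Nat.pair y (Nat.pair s (Nat.pair σ F))) := by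
  constructor
  · rintro ⟨φ, l, rfl, rfl, rfl⟩
    induction φ generalizing l with
    | bot =>
      exact der0 0 (by decide) [num Form.bot.str, s, lc l, (clo (asg s) Form.bot l).code] rfl
        (Or.inl ⟨rfl, rfl⟩) rfl
    | eq x z =>
      exact der0 0 (by decide) [num (Form.eq x z).str, s, lc l, (clo (asg s) (Form.eq x z) l).code] rfl
        (Or.inr (Or.inl ⟨x, z, _, _, rfl, ⟨l, rfl, rfl⟩, ⟨l, rfl, rfl⟩, rfl⟩)) rfl
    | zero x =>
      exact der0 0 (by decide) [num (Form.zero x).str, s, lc l, (clo (asg s) (Form.zero x) l).code] rfl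
        (Or.inr (Or.inr (Or.inl ⟨x, _, rfl, ⟨l, rfl, rfl⟩, rfl⟩))) rfl
    | succ x z =>
      exact der0 0 (by decide) [num (Form.succ x z).str, s, lc l, (clo (asg s) (Form.succ x z) l).code] rfl
        (Or.inr (Or.inr (Or.inr (Or.inl ⟨x, z, _, _, rfl, ⟨l, rfl, rfl⟩, ⟨l, rfl, rfl⟩, rfl⟩)))) rfl
    | add x z w =>
      exact der0 0 (by decide) [num (Form.add x z w).str, s, lc l, (clo (asg s) (Form.add x z w) l).code] rfl
        (Or.inr (Or.inr (Or.inr (Or.inr (Or.inl
          ⟨x, z, w, _, _, _, rfl, ⟨l, rfl, rfl⟩, ⟨l, rfl, rfl⟩, ⟨l, rfl, rfl⟩, rfl⟩))))) rfl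
    | mul x z w =>
      exact der0 0 (by decide) [num (Form.mul x z w).str, s, lc l, (clo (asg s) (Form.mul x z w) l).code] rfl
        (Or.inr (Or.inr (Or.inr (Or.inr (Or.inr
          ⟨x, z, w, _, _, _, rfl, ⟨l, rfl, rfl⟩, ⟨l, rfl, rfl⟩, ⟨l, rfl, rfl⟩, rfl⟩))))) rfl
    | imp φ ψ h1 h2 =>
      exact der2 1 (by decide) [num (φ.imp ψ).str, s, lc l, (clo (asg s) φ l).code, (clo (asg s) ψ l).code,
        num φ.str, num ψ.str] rfl (by
          show Im (num φ.str) (num ψ.str) (num (φ.imp ψ).str)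
          unfold Im
          rw [digits_num, digits_num]; rfl) (h1 l) (h2 l) rfl
    | all x φ h1 =>
      exact der1 2 (by decide) [num (Form.all x φ).str, s, lc l, (clo (asg s) φ (x :: l)).code, num φ.str, x] rfl (by
          show Al x (num φ.str) (num (Form.all x φ).str)
          unfold Al
          rw [digits_num]; rfl) (h1 (x :: l)) rfl
  · intro h
    have key := Derivable.ind (R := clRules)
      (P := fun n => Cl n.unpair.1 n.unpair.2.unpair.1 n.unpair.2.unpair.2.unpair.1 n.unpair.2.unpair.2.unpair.2) (by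
        intro r hr ρ hs hp
        simp only [clRules, List.mem_cons, List.not_mem_nil, or_false] at hr
        rcases hr with rfl | rfl | rfl
        · simp only [Tm.eval, Nat.unpair_pair]
          rcases hs with ⟨h1, h2⟩ | ⟨x, z, c, d, h1, ⟨l, hl, hc⟩, ⟨l', hl', hd⟩, h2⟩ | ⟨x, c, h1, ⟨l, hl, hc⟩, h2⟩ |
            ⟨x, z, c, d, h1, ⟨l, hl, hc⟩, ⟨l', hl', hd⟩, h2⟩ |
            ⟨x, z, w, c, d, e, h1, ⟨l, hl, hc⟩, ⟨l', hl', hd⟩, ⟨l'', hl'', he⟩, h2⟩ |
            ⟨x, z, w, c, d, e, h1, ⟨l, hl, hc⟩, ⟨l', hl', hd⟩, ⟨l'', hl'', he⟩, h2⟩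
          · obtain ⟨l, hl⟩ := lc_surj (ρ 2)
            exact ⟨.bot, l, h1, hl, h2⟩
          · obtain rfl : l = l' := lc_inj (hl.symm.trans hl')
            exact ⟨.eq x z, l, h1, hl, by rw [h2, hc, hd]; rfl⟩
          · exact ⟨.zero x, l, h1, hl, by rw [h2, hc]; rfl⟩
          · obtain rfl : l = l' := lc_inj (hl.symm.trans hl')
            exact ⟨.succ x z, l, h1, hl, by rw [h2, hc, hd]; rfl⟩
          · obtain rfl : l = l' := lc_inj (hl.symm.trans hl')
            obtain rfl : l = l'' := lc_inj (hl.symm.trans hl'')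
            exact ⟨.add x z w, l, h1, hl, by rw [h2, hc, hd, he]; rfl⟩
          · obtain rfl : l = l' := lc_inj (hl.symm.trans hl')
            obtain rfl : l = l'' := lc_inj (hl.symm.trans hl'')
            exact ⟨.mul x z w, l, h1, hl, by rw [h2, hc, hd, he]; rfl⟩
        · obtain ⟨φ, l, h1, h2, h3⟩ := hp (.pair (.var 5) (.pair (.var 1) (.pair (.var 2) (.var 3)))) (by simp)
          obtain ⟨ψ, l', h1', h2', h3'⟩ := hp (.pair (.var 6) (.pair (.var 1) (.pair (.var 2) (.var 4)))) (by simp)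
          simp only [Tm.eval, Nat.unpair_pair] at h1 h2 h3 h1' h2' h3' hs ⊢
          obtain rfl : l = l' := lc_inj (h2.symm.trans h2')
          refine ⟨.imp φ ψ, l, ?_, h2, ?_⟩
          · unfold Im at hs
            rw [hs, h1, h1', digits_num, digits_num]; rfl
          · rw [h3, h3']; rfl
        · obtain ⟨φ, l, h1, h2, h3⟩ := hp _ (List.mem_singleton.2 rfl)
          simp only [Tm.eval, Nat.unpair_pair] at h1 h2 h3 hs ⊢
          obtain ⟨l', hl'⟩ := lc_surj (ρ 2)
          have h4 : lc (ρ 5 :: l') = lc l := by rw [← h2, hl']; rfl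
          have h5 := lc_inj h4
          subst h5
          refine ⟨.all (ρ 5) φ, l', ?_, hl', ?_⟩
          · unfold Al at hs
            rw [hs, h1, digits_num]; rfl
          · rw [h3]; rfl) h
    simpa using key

theorem ar_Cl (p q s t : Tm) : Ar (fun v => Cl (p.eval v) (q.eval v) (s.eval v) (t.eval v)) := by
  have h0 : Ar (fun v => Cl (v 0) (v 1) (v 2) (v 3)) := by
    have h := Ar.der clRules (by
      intro r hr
      simp only [clRules, List.mem_cons, List.not_mem_nil, or_false] at hr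
      rcases hr with rfl | rfl | rfl
      · exact ar_AtCl
      · exact ar_Im (.var 5) (.var 6) (.var 0)
      · exact ar_Al (.var 5) (.var 4) (.var 0)) (.pair (.var 0) (.pair (.var 1) (.pair (.var 2) (.var 3))))
    exact h.congr fun v => (cl_der _ _ _ _).symm
  exact Ar.app4 (R := Cl) h0 p q s t

lemma code_single (φ : Form) : code [φ] = num φ.str := by
  unfold code strs
  simp

lemma code_cons (φ : Form) (Γ : List Form) : code (φ :: Γ) = num (φ.str ++ strs Γ) := by
  unfold code strs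
  simp

theorem ar_cl : Ar (fun v => Rcl (v 0) (v 1) (v 2)) := by
  refine (ar_Cl (.var 0) (.var 1) .zero (.var 2)).congr fun v => ?_
  constructor
  · rintro ⟨φ, l, h1, h2, h3⟩
    have : l = [] := lc_inj (l' := []) (by rw [← h2]; rfl)
    subst this
    exact ⟨φ, by rw [code_single]; exact h1, h3⟩
  · rintro ⟨φ, h1, h3⟩
    exact ⟨φ, [], by rw [← code_single]; exact h1, rfl, h3⟩

/-- `y` is the code of a formula -/
def IsF (y : ℕ) : Prop := ∃ φ : Form, y = num φ.str

theorem ar_isF (s : Tm) : Ar (fun v => IsF (s.eval v)) := by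
  have h : Ar (fun v => IsF (v 0)) := by
    have h1 : Ar (fun v => ∃ F, Cl (v 0) 0 0 F) := by
      apply Ar.exd
      exact ar_Cl (.var 1) .zero .zero (.var 0)
    refine h1.congr fun v => ?_
    constructor
    · rintro ⟨F, φ, l, h1, h2, h3⟩
      exact ⟨φ, h1⟩
    · rintro ⟨φ, h1⟩
      exact ⟨_, φ, [], h1, rfl, rfl⟩
  exact Ar.app1 (R := IsF) h s

/-! ### lists of formulas -/

def lcRules : List Rule := [
  ⟨.zero, [], fun _ => _root_.True⟩,
  ⟨.var 2, [.var 1], fun v => IsF (v 0) ∧ Rcat (v 0) (v 1) (v 2)⟩]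

lemma lc_der (z : ℕ) : Rlc z ↔ Derivable lcRules z := by
  constructor
  · rintro ⟨Γ, rfl⟩
    induction Γ with
    | nil => exact der0 0 (by decide) [] rfl trivial rfl
    | cons φ Γ ih =>
      exact der1 1 (by decide) [num φ.str, code Γ, code (φ :: Γ)] rfl ⟨⟨φ, rfl⟩, by
        show Rcat (num φ.str) (num (strs Γ)) (code (φ :: Γ))
        rw [Rcat_num, code_cons]⟩ ih rfl
  · intro h
    refine Derivable.ind (R := lcRules) (P := Rlc) ?_ h
    intro r hr ρ hs hp
    simp only [lcRules, List.mem_cons, List.not_mem_nil, or_false] at hr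
    rcases hr with rfl | rfl
    · exact ⟨[], rfl⟩
    · obtain ⟨Γ, hΓ⟩ := hp (.var 1) (by simp)
      obtain ⟨⟨φ, hφ⟩, h2⟩ := hs
      simp only [Tm.eval] at hΓ ⊢
      rw [hΓ, hφ] at h2
      refine ⟨φ :: Γ, ?_⟩
      rw [code_cons]
      exact (Rcat_num _ _ _).1 h2

theorem ar_lcT (s : Tm) : Ar (fun v => Rlc (s.eval v)) := by
  have h := Ar.der lcRules (by
    intro r hr
    simp only [lcRules, List.mem_cons, List.not_mem_nil, or_false] at hr
    rcases hr with rfl | rfl
    · exact ar_true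
    · exact (ar_isF (.var 0)).and (ar_catT (.var 0) (.var 1) (.var 2))) s
  exact h.congr fun v => (lc_der _).symm

theorem ar_lc : Ar (fun v => Rlc (v 0)) := ar_lcT (.var 0)

def memRules : List Rule := [
  ⟨.pair (.var 0) (.var 2), [], fun v => IsF (v 0) ∧ Rlc (v 1) ∧ Rcat (v 0) (v 1) (v 2)⟩,
  ⟨.pair (.var 0) (.var 2), [.pair (.var 0) (.var 1)], fun v => IsF (v 3) ∧ Rcat (v 3) (v 1) (v 2)⟩]

lemma mem_der (y z : ℕ) : Rmem y z ↔ Derivable memRules (Nat.pair y z) := by
  constructor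
  · rintro ⟨Γ, φ, rfl, rfl, h⟩
    rw [code_single]
    induction Γ with
    | nil => simp at h
    | cons ψ Γ ih =>
      rcases List.mem_cons.1 h with rfl | h
      · exact der0 0 (by decide) [num φ.str, code Γ, code (φ :: Γ)] rfl ⟨⟨φ, rfl⟩, ⟨Γ, rfl⟩, by
          show Rcat (num φ.str) (num (strs Γ)) (code (φ :: Γ))
          rw [Rcat_num, code_cons]⟩ rfl
      · exact der1 1 (by decide) [num φ.str, code Γ, code (ψ :: Γ), num ψ.str] rfl ⟨⟨ψ, rfl⟩, by
          show Rcat (num ψ.str) (num (strs Γ)) (code (ψ :: Γ))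
          rw [Rcat_num, code_cons]⟩ (ih h) rfl
  · intro h
    have key := Derivable.ind (R := memRules) (P := fun n => Rmem n.unpair.1 n.unpair.2) (by
      intro r hr ρ hs hp
      simp only [memRules, List.mem_cons, List.not_mem_nil, or_false] at hr
      rcases hr with rfl | rfl
      · obtain ⟨⟨φ, hφ⟩, ⟨Γ, hΓ⟩, h2⟩ := hs
        simp only [Tm.eval, Nat.unpair_pair]
        rw [hΓ, hφ] at h2
        refine ⟨φ :: Γ, φ, ?_, ?_, List.mem_cons_self⟩
        · rw [code_cons]
          exact (Rcat_num _ _ _).1 h2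
        · rw [code_single]; exact hφ
      · obtain ⟨Γ, φ, hΓ, hφ, hm⟩ := hp _ (List.mem_singleton.2 rfl)
        obtain ⟨⟨ψ, hψ⟩, h2⟩ := hs
        simp only [Tm.eval, Nat.unpair_pair] at hΓ hφ ⊢
        rw [hΓ, hψ] at h2
        refine ⟨ψ :: Γ, φ, ?_, hφ, List.mem_cons_of_mem _ hm⟩
        rw [code_cons]
        exact (Rcat_num _ _ _).1 h2) h
    simpa using key

theorem ar_mem : Ar (fun v => Rmem (v 0) (v 1)) := by
  have h := Ar.der memRules (by
    intro r hr
    simp only [memRules, List.mem_cons, List.not_mem_nil, or_false] at hr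
    rcases hr with rfl | rfl
    · exact (ar_isF (.var 0)).and ((ar_lcT (.var 1)).and (ar_catT (.var 0) (.var 1) (.var 2)))
    · exact (ar_isF (.var 3)).and (ar_catT (.var 3) (.var 1) (.var 2))) (.pair (.var 0) (.var 1))
  exact h.congr fun v => (mem_der _ _).symm

end Pool.Agent.TH672.R104
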