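import Pool.Agent.TH894.CW2

set_option autoImplicit false

/-! The second moment over random changes of digits, with savings of powers of the logarithm. -/

namespace Pool.Agent.TH894.LG
open Finset
open Pool.Agent.H807R2.Dav
open Pool.Agent.H373R2.T7
open Pool.Agent.W93.DG
open Pool.Agent.W93.RD (EE)
open Pool.Agent.TH894.SM (Ph Om nw card_Om dl Pos mu mu_pos Ph_le)
open Pool.Agent.TH894.CW (core Pos_card)

lemma pow_small_log (b : ℕ) (hb : 2 ≤ b) (η : ℝ) (hη0 : 0 < η) (hη1 : η ≤ 1) (W : ℕ) : ∃ C₁ : ℕ, 4 ≤ C₁ ∧ ∀ K : ℕ, 1 ≤ K →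
    ∀ t : ℕ, C₁ * (Nat.log b K + 1) ≤ t → (1 - η) ^ (t - 4) ≤ 1 / (K : ℝ) ^ W := by
  have hb0 : (0 : ℝ) < b := by exact_mod_cast (by omega : 0 < b)
  obtain ⟨v, hv⟩ := exists_pow_lt_of_lt_one (show (0 : ℝ) < 1 / (b : ℝ) ^ W by positivity) (show 1 - η < 1 by linarith)
  refine ⟨v + 4, by omega, fun K hK t ht => ?_⟩
  obtain ⟨l, hl⟩ : ∃ l, l = Nat.log b K + 1 := ⟨_, rfl⟩
  rw [← hl] at ht
  have hl1 : 1 ≤ l := by omega
  have h1 : v * l ≤ t - 4 := by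
    have : (v + 4) * l = v * l + 4 * l := by ring
    omega
  have hKl : K ≤ b ^ l := by
    rw [hl]
    exact (Nat.lt_pow_succ_log_self (by omega) K).le
  have hK0 : (0 : ℝ) < K := by exact_mod_cast (by omega : 0 < K)
  calc (1 - η) ^ (t - 4) ≤ (1 - η) ^ (v * l) := pow_le_pow_of_le_one (by linarith) (by linarith) h1
    _ = ((1 - η) ^ v) ^ l := pow_mul _ _ _
    _ ≤ (1 / (b : ℝ) ^ W) ^ l := pow_le_pow_left₀ (pow_nonneg (by linarith) _) hv.le _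
    _ = 1 / ((b : ℝ) ^ l) ^ W := by
        rw [div_pow, one_pow, ← pow_mul, ← pow_mul, mul_comm]
    _ ≤ 1 / (K : ℝ) ^ W := by
        apply one_div_le_one_div_of_le (by positivity)
        apply pow_le_pow_left₀ hK0.le
        exact_mod_cast hKl

/-- the second moment, general form -/
theorem second_log (b : ℕ) (hb : 2 ≤ b) (R : ℕ) (hR : 1 ≤ R) (U : ℕ) : ∃ C₁ : ℕ, 4 ≤ C₁ ∧ ∀ A : ℕ, 3 ≤ A → ∃ k₀ : ℕ, ∀ K : ℕ, k₀ ≤ K →
    ∀ (N : ℕ) (e : ℕ → ℤ), (∀ j, e j ≠ 0 ∧ |e j| < b) → ∀ J : Fin 3 → Finset ℕ, Pos b R K (hh b A K) J →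
    ∀ t : ℕ, C₁ * (Nat.log b K + 1) ≤ t → ∀ Fg Fu : ℕ → ℂ,
    (∑ r ∈ range (b ^ (K + 1)), ‖Fg r‖ ^ 2 ≤ ((b ^ (K + 1) : ℕ) : ℝ) * ((b ^ K : ℕ) : ℝ)) →
    (∑ r ∈ range (b ^ (K + 1)), ‖Fu r‖ ^ 2 ≤ ((b ^ (K + 1) : ℕ) : ℝ) * ((b ^ K : ℕ) : ℝ) * (K : ℝ) ^ 4) →
    (∀ r < b ^ (K + 1), ∀ S : Finset ℕ, (∀ r' ∈ S, r' < b ^ (K + 1) ∧
        Bad b R K (hh b A K) (K / (16 * b)) ((mu b * r' + mu b * (b ^ (K + 1) - r)) % b ^ (K + 1))) →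
      ∑ r' ∈ S, ‖Fu r'‖ ^ 2 ≤ ((b ^ (K + 1) : ℕ) : ℝ) * ((b ^ K : ℕ) : ℝ) / (K : ℝ) ^ (2 * U + 6)) →
    ∑ ω ∈ Om J t, ‖EE (fun r => (starRingEnd ℂ) (Fg r) * Fu r) (b ^ (K + 1)) (nw b N e ω)‖ ^ 2 ≤
      (((b ^ (K + 1) : ℕ) : ℝ) * ((b ^ K : ℕ) : ℝ)) ^ 2 / (K : ℝ) ^ U * (Om J t).card := by
  classical
  have hbn : 0 < b := by omega
  have hb1 : 1 < b := by omega
  obtain ⟨η, hη0, hη1, hcore⟩ := core b hb R hR
  obtain ⟨C₁, hC₁, hpow⟩ := pow_small_log b hb η hη0 hη1 (U + 5)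
  refine ⟨C₁, hC₁, fun A hA => ?_⟩
  obtain ⟨k2, h2⟩ := hcore A hA
  obtain ⟨k4, h4⟩ := hh_small b A (512 * b) hb
  refine ⟨k2 + k4 + 256 * b + 64, fun K hK N e he J hJ t ht Fg Fu hg2 hu2 hbad => ?_⟩
  obtain ⟨X, hX⟩ : ∃ X, X = b ^ K := ⟨_, rfl⟩
  obtain ⟨M, hM⟩ : ∃ M, M = b ^ (K + 1) := ⟨_, rfl⟩
  have hX1 : 1 ≤ X := by rw [hX]; exact Nat.one_le_pow _ _ hbn
  have hM1 : 1 ≤ M := by rw [hM]; exact Nat.one_le_pow _ _ hbn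
  have hX0 : (0 : ℝ) < X := by exact_mod_cast (by omega : 0 < X)
  have hM0 : (0 : ℝ) < M := by exact_mod_cast (by omega : 0 < M)
  have hK0 : (0 : ℝ) < K := by exact_mod_cast (by omega : 0 < K)
  have hK2 : (2 : ℝ) ≤ K := by exact_mod_cast (by omega : 2 ≤ K)
  have hK1 : (1 : ℝ) ≤ K := by linarith
  obtain ⟨V, hV⟩ : ∃ V : ℕ → ℂ, V = fun r => (starRingEnd ℂ) (Fg r) * Fu r := ⟨_, rfl⟩
  have hVn : ∀ r, ‖V r‖ = ‖Fg r‖ * ‖Fu r‖ := fun r => by rw [hV]; simp only [norm_mul, RCLike.norm_conj]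
  rw [← hV]
  rw [← hX, ← hM] at hg2 hu2 hbad ⊢
  have hMX0 : (0 : ℝ) ≤ M * X := by positivity
  have ht4 : 4 ≤ t := by
    have : 4 * 1 ≤ C₁ * (Nat.log b K + 1) := Nat.mul_le_mul hC₁ (by omega)
    omega
  have hmass : ∑ r ∈ range M, ‖V r‖ ≤ M * X * K ^ 2 := by
    simp only [hVn]
    refine (Real.sum_mul_le_sqrt_mul_sqrt _ _ _).trans ?_
    calc √(∑ r ∈ range M, ‖Fg r‖ ^ 2) * √(∑ r ∈ range M, ‖Fu r‖ ^ 2) ≤ √((M : ℝ) * X) * √((M : ℝ) * X * K ^ 4) :=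
          mul_le_mul (Real.sqrt_le_sqrt hg2) (Real.sqrt_le_sqrt hu2) (Real.sqrt_nonneg _) (Real.sqrt_nonneg _)
      _ = M * X * K ^ 2 := by
          rw [Real.sqrt_mul hMX0, ← mul_assoc, Real.mul_self_sqrt hMX0, show (K : ℝ) ^ 4 = (K ^ 2) ^ 2 by ring, Real.sqrt_sq (by positivity)]
  have hbadV : ∀ r < M, ∀ S : Finset ℕ, (∀ r' ∈ S, r' < M ∧
        Bad b R K (hh b A K) (K / (16 * b)) ((mu b * r' + mu b * (M - r)) % M)) →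
      ∑ r' ∈ S, ‖V r'‖ ≤ (M : ℝ) * X / K ^ (U + 3) := by
    intro r hr S hS
    have e1 := hbad r hr S hS
    simp only [hVn]
    refine (Real.sum_mul_le_sqrt_mul_sqrt _ _ _).trans ?_
    have hsub : S ⊆ range M := by
      intro r' hr'
      rw [mem_range]
      exact (hS r' hr').1
    have e2 : ∑ r ∈ S, ‖Fg r‖ ^ 2 ≤ M * X :=
      (sum_le_sum_of_subset_of_nonneg hsub fun _ _ _ => sq_nonneg _).trans hg2
    calc √(∑ r ∈ S, ‖Fg r‖ ^ 2) * √(∑ r ∈ S, ‖Fu r‖ ^ 2) ≤ √((M : ℝ) * X) * √((M : ℝ) * X / K ^ (2 * U + 6)) :=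
          mul_le_mul (Real.sqrt_le_sqrt e2) (Real.sqrt_le_sqrt e1) (Real.sqrt_nonneg _) (Real.sqrt_nonneg _)
      _ = M * X / K ^ (U + 3) := by
          rw [show (K : ℝ) ^ (2 * U + 6) = (K ^ (U + 3)) ^ 2 by ring, Real.sqrt_div' _ (by positivity), Real.sqrt_sq (by positivity),
            mul_div_assoc', Real.mul_self_sqrt hMX0]
  rw [hM] at hbadV
  have hmain := h2 K (by omega) N e he J hJ t ht4 V ((M : ℝ) * X / K ^ (U + 3)) (by rw [hM]; exact hbadV)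
  rw [← hM] at hmain
  refine hmain.trans ?_
  apply mul_le_mul_of_nonneg_right _ (Nat.cast_nonneg _)
  have hhs := h4 K (by omega)
  have hJ8 : 8 * hh b A K + 16 ≤ K := by
    have : 512 * 2 * hh b A K ≤ 512 * b * hh b A K := Nat.mul_le_mul_right _ (Nat.mul_le_mul_left _ hb)
    omega
  have hh1 : 1 ≤ hh b A K := by
    unfold hh
    exact Nat.mul_pos (by omega) (by omega)
  obtain ⟨hJc, _⟩ := Pos_card b R K (hh b A K) J hR hh1 hJ8 hJ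
  obtain ⟨T, hT⟩ : ∃ T : ℝ, T = ((J 1).card : ℝ) := ⟨_, rfl⟩
  have hT0 : 0 < T := by rw [hT]; exact_mod_cast (by omega : 0 < (J 1).card)
  rw [← hT]
  have hfour : ∑ r ∈ range M, ∑ r' ∈ range M, ‖V r‖ * ‖V r'‖ * ‖Ph (dl b e) (J 1) (((r' : ℝ) - r) / (M : ℝ))‖ ^ 4 ≤ (M * X * K ^ 2) ^ 2 * T ^ 4 := by
    have e1 : ∀ r ∈ range M, ∀ r' ∈ range M, ‖V r‖ * ‖V r'‖ * ‖Ph (dl b e) (J 1) (((r' : ℝ) - r) / (M : ℝ))‖ ^ 4 ≤ ‖V r‖ * ‖V r'‖ * T ^ 4 := by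
      intro r _ r' _
      apply mul_le_mul_of_nonneg_left _ (by positivity)
      apply pow_le_pow_left₀ (norm_nonneg _)
      rw [hT]
      exact Ph_le _ _ _
    refine (sum_le_sum fun r hr => sum_le_sum (e1 r hr)).trans ?_
    have e2 : ∑ r ∈ range M, ∑ r' ∈ range M, ‖V r‖ * ‖V r'‖ * T ^ 4 = (∑ r ∈ range M, ‖V r‖) ^ 2 * T ^ 4 := by
      rw [sq, sum_mul_sum, sum_mul]
      apply sum_congr rfl
      intro r _
      rw [sum_mul]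
    rw [e2]
    apply mul_le_mul_of_nonneg_right _ (by positivity)
    exact pow_le_pow_left₀ (sum_nonneg fun _ _ => norm_nonneg _) hmass 2
  have hp := hpow K (by omega) t ht
  have hη' : 0 ≤ (1 - η) ^ (t - 4) := pow_nonneg (by linarith) _
  have hKU : 0 < (K : ℝ) ^ U := by positivity
  have hpart1 : (M : ℝ) * X / K ^ (U + 3) * ∑ r ∈ range M, ‖V r‖ ≤ (1 / 2) * ((M * X) ^ 2 / K ^ U) := by
    calc (M : ℝ) * X / K ^ (U + 3) * ∑ r ∈ range M, ‖V r‖ ≤ (M : ℝ) * X / K ^ (U + 3) * (M * X * K ^ 2) := mul_le_mul_of_nonneg_left hmass (by positivity)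
      _ = (1 / K) * ((M * X) ^ 2 / K ^ U) := by
          rw [show (K : ℝ) ^ (U + 3) = K ^ U * K * K ^ 2 by ring]
          field_simp
      _ ≤ (1 / 2) * ((M * X) ^ 2 / K ^ U) := by
          apply mul_le_mul_of_nonneg_right _ (by positivity)
          exact one_div_le_one_div_of_le (by norm_num) hK2
  have hpart2 : (1 - η) ^ (t - 4) / T ^ 4 * ∑ r ∈ range M, ∑ r' ∈ range M, ‖V r‖ * ‖V r'‖ * ‖Ph (dl b e) (J 1) (((r' : ℝ) - r) / (M : ℝ))‖ ^ 4 ≤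
      (1 / 2) * ((M * X) ^ 2 / K ^ U) := by
    calc _ ≤ (1 - η) ^ (t - 4) / T ^ 4 * ((M * X * K ^ 2) ^ 2 * T ^ 4) := mul_le_mul_of_nonneg_left hfour (by positivity)
      _ = (1 - η) ^ (t - 4) * (M * X * K ^ 2) ^ 2 := by field_simp
      _ ≤ 1 / (K : ℝ) ^ (U + 5) * (M * X * K ^ 2) ^ 2 := mul_le_mul_of_nonneg_right hp (by positivity)
      _ = (1 / K) * ((M * X) ^ 2 / K ^ U) := by
          rw [show (K : ℝ) ^ (U + 5) = K ^ U * K * (K ^ 2) ^ 2 by ring]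
          field_simp
      _ ≤ (1 / 2) * ((M * X) ^ 2 / K ^ U) := by
          apply mul_le_mul_of_nonneg_right _ (by positivity)
          exact one_div_le_one_div_of_le (by norm_num) hK2
  have hfin : (M * X) ^ 2 / (K : ℝ) ^ U = (1 / 2) * ((M * X) ^ 2 / K ^ U) + (1 / 2) * ((M * X) ^ 2 / K ^ U) := by ring
  linarith

end Pool.Agent.TH894.LG
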