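import Pool.Agent.TH894.LG10

set_option autoImplicit false

/-! The level of distribution `X exp(- B (log log X)^2)`: the residue arises by few changes of digits. -/

namespace Pool.Agent.TH894.LG
open Finset
open Pool.Agent.H807R2.Dav
open Pool.Agent.H373R2.T7
open Pool.Agent.W93.DG
open Pool.Agent.W93.AU (dI)
open Pool.Agent.W93.LV
open Pool.Agent.TH894.SM (change change_lt Win Win_sub Win_disj un)

/-- the size of the sieve weights -/
lemma W_size (K E1 T U z : ℕ) (L : ℝ) (hK : 3 ≤ K) (hL : 54 ≤ L) (hLK : L ≤ (K : ℝ) ^ 2) (hz : 1 ≤ z) (hz2 : (z : ℝ) ≤ L ^ (E1 + 1)) :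
    ∃ r : ℕ, Real.exp (3 * (1 + Real.log z) - r) ≤ 1 / L ^ (T + U + 3) ∧
      54 * L ^ (T + U + 4) * ((z : ℝ) + 1) ^ r ≤
        Real.exp (((2 * (6 * E1 + 2 * T + 2 * U + 17) * (E1 + 2) + 2 * (T + U + 5) : ℕ) : ℝ) * Real.log K ^ 2) := by
  have hL0 : 0 < L := by linarith
  have hL1 : 1 ≤ L := by linarith
  have hK0 : (0 : ℝ) < K := by exact_mod_cast (by omega : 0 < K)
  have hlK : 1 ≤ Real.log K := by
    rw [Real.le_log_iff_exp_le hK0]
    have : (3 : ℝ) ≤ K := by exact_mod_cast hK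
    linarith [Real.exp_one_lt_d9]
  have hlL0 : 0 ≤ Real.log L := Real.log_nonneg hL1
  have hlL : Real.log L ≤ 2 * Real.log K := by
    have := Real.log_le_log hL0 hLK
    rwa [Real.log_pow] at this
  have hz0 : (0 : ℝ) < z := by exact_mod_cast hz
  have hlz0 : 0 ≤ Real.log z := Real.log_natCast_nonneg z
  have hlz : Real.log z ≤ (E1 + 1) * Real.log L := by
    have := Real.log_le_log hz0 hz2
    rw [Real.log_pow] at this
    push_cast at this
    exact this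
  refine ⟨⌈3 * (1 + Real.log z) + (T + U + 3) * Real.log L⌉₊, ?_, ?_⟩
  · have h1 := Nat.le_ceil (3 * (1 + Real.log z) + (T + U + 3) * Real.log L)
    calc Real.exp (3 * (1 + Real.log z) - (⌈3 * (1 + Real.log z) + (T + U + 3) * Real.log L⌉₊ : ℕ)) ≤
        Real.exp (-((T + U + 3) * Real.log L)) := Real.exp_le_exp.2 (by linarith)
      _ = 1 / L ^ (T + U + 3) := by
          rw [Real.exp_neg, one_div]
          congr 1
          rw [mul_comm, ← Real.rpow_def_of_pos hL0, show ((T : ℝ) + U + 3) = ((T + U + 3 : ℕ) : ℝ) by push_cast; ring, Real.rpow_natCast]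
  · obtain ⟨r, hr⟩ : ∃ r, r = ⌈3 * (1 + Real.log z) + (T + U + 3) * Real.log L⌉₊ := ⟨_, rfl⟩
    rw [← hr]
    have hr1 : (r : ℝ) ≤ (6 * E1 + 2 * T + 2 * U + 17) * Real.log K := by
      have h1 : (r : ℝ) < 3 * (1 + Real.log z) + (T + U + 3) * Real.log L + 1 := by
        rw [hr]; exact Nat.ceil_lt_add_one (by positivity)
      have hE : (0 : ℝ) ≤ E1 := Nat.cast_nonneg _
      have hT : (0 : ℝ) ≤ T := Nat.cast_nonneg _
      have hU : (0 : ℝ) ≤ U := Nat.cast_nonneg _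
      have h2 : ((E1 : ℝ) + 1) * Real.log L ≤ (E1 + 1) * (2 * Real.log K) := mul_le_mul_of_nonneg_left hlL (by positivity)
      have h3 : ((T : ℝ) + U + 3) * Real.log L ≤ (T + U + 3) * (2 * Real.log K) := mul_le_mul_of_nonneg_left hlL (by positivity)
      nlinarith
    have hr0 : (0 : ℝ) ≤ r := Nat.cast_nonneg _
    have hw : Real.log ((z : ℝ) + 1) ≤ 2 * (E1 + 2) * Real.log K := by
      have h1 : (z : ℝ) + 1 ≤ L ^ (E1 + 2) := by
        have h2 : 1 ≤ L ^ (E1 + 1) := one_le_pow₀ hL1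
        rw [pow_succ L (E1 + 1)]
        nlinarith
      have h3 := Real.log_le_log (by linarith) h1
      rw [Real.log_pow] at h3
      push_cast at h3
      have h4 : ((E1 : ℝ) + 2) * Real.log L ≤ (E1 + 2) * (2 * Real.log K) := mul_le_mul_of_nonneg_left hlL (by positivity)
      linarith
    have hw0 : 0 ≤ Real.log ((z : ℝ) + 1) := Real.log_nonneg (by linarith)
    have h5 : ((z : ℝ) + 1) ^ r ≤ Real.exp (2 * (6 * E1 + 2 * T + 2 * U + 17) * (E1 + 2) * Real.log K ^ 2) := by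
      rw [← Real.exp_log (by positivity : (0 : ℝ) < ((z : ℝ) + 1) ^ r), Real.log_pow]
      apply Real.exp_le_exp.2
      calc (r : ℝ) * Real.log ((z : ℝ) + 1) ≤ ((6 * E1 + 2 * T + 2 * U + 17) * Real.log K) * (2 * (E1 + 2) * Real.log K) :=
            mul_le_mul hr1 hw hw0 (by positivity)
        _ = _ := by ring
    have h6 : 54 * L ^ (T + U + 4) ≤ Real.exp (2 * (T + U + 5) * Real.log K ^ 2) := by
      calc 54 * L ^ (T + U + 4) ≤ L * L ^ (T + U + 4) := mul_le_mul_of_nonneg_right hL (by positivity)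
        _ = L ^ (T + U + 5) := by rw [← pow_succ']
        _ = Real.exp ((T + U + 5) * Real.log L) := by
            rw [mul_comm, ← Real.rpow_def_of_pos hL0, show ((T : ℝ) + U + 5) = ((T + U + 5 : ℕ) : ℝ) by push_cast; ring, Real.rpow_natCast]
        _ ≤ Real.exp (2 * (T + U + 5) * Real.log K ^ 2) := by
            apply Real.exp_le_exp.2
            have h7 : Real.log K ≤ Real.log K ^ 2 := by nlinarith
            calc ((T : ℝ) + U + 5) * Real.log L ≤ (T + U + 5) * (2 * Real.log K ^ 2) :=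
                  mul_le_mul_of_nonneg_left (by linarith) (by positivity)
              _ = _ := by ring
    calc 54 * L ^ (T + U + 4) * ((z : ℝ) + 1) ^ r ≤ Real.exp (2 * (T + U + 5) * Real.log K ^ 2) *
          Real.exp (2 * (6 * E1 + 2 * T + 2 * U + 17) * (E1 + 2) * Real.log K ^ 2) :=
            mul_le_mul h6 h5 (by positivity) (Real.exp_pos _).le
      _ = _ := by
          rw [← Real.exp_add]
          congr 1
          push_cast
          ring

/-- few choices are exceptional -/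
theorem lv_K2 (b : ℕ) (hb : 2 ≤ b) : ∃ R : ℕ, 1 ≤ R ∧ ∀ T₀ U₀ : ℕ, ∃ C₁ : ℕ, 1 ≤ C₁ ∧ ∀ A₀ : ℕ, ∃ A : ℕ, A₀ ≤ A ∧ ∃ D k₀ : ℕ,
    ∀ K : ℕ, k₀ ≤ K → ∀ Nn : ℕ, Nn < b ^ K → ∀ f : ℕ → ℕ, (∀ j, f j < b ∧ f j ≠ Nn / b ^ j % b) →
    ∀ rr : Fin 3 → ℕ, (∀ q, C₁ * (Nat.log b (K + 1) + 1) ≤ rr q) → (∀ q, 8 * R * rr q ≤ (Win (hh b A (K + 1)) (K + 1) q).card) →
    ∀ lam : ℕ → ℝ, (∀ q, |lam q| ≤ (K : ℝ) ^ T₀) → ∀ Q : ℕ, (Q : ℝ) * Real.exp ((D : ℝ) * Real.log K ^ 2) ≤ ((b ^ K : ℕ) : ℝ) → ∀ S ⊆ Ch b A K rr,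
    (∀ T ∈ S, 0 < change b K Nn f (un T) ∧ ∃ y ≤ b ^ K, ((b ^ K : ℕ) : ℝ) / (K : ℝ) ^ U₀ <
      |∑ q ∈ (Icc 1 Q).filter (fun q => (change b K Nn f (un T)).Coprime q),
        lam q * (Fu (fun n => ArithmeticFunction.vonMangoldt n) y q (change b K Nn f (un T)) - (y : ℝ) / Nat.totient q)|) →
    (S.card : ℝ) ≤ 1 / (K : ℝ) ^ U₀ * (Ch b A K rr).card := by
  classical
  obtain ⟨R, hR, htwo⟩ := two_P b hb
  refine ⟨R, hR, fun T₀ U₀ => ?_⟩
  obtain ⟨T, hT⟩ : ∃ T, T = T₀ + 1 := ⟨_, rfl⟩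
  obtain ⟨U, hU⟩ : ∃ U, U = U₀ + 1 := ⟨_, rfl⟩
  obtain ⟨C₁, hC₁, hA⟩ := htwo (2 * (T + (T + U + 5))) (2 * (U + 1))
  refine ⟨C₁, hC₁, fun A₀ => ?_⟩
  obtain ⟨A, B0, hAA, hB⟩ := hA A₀
  refine ⟨A, hAA, ?_⟩
  obtain ⟨E1, hE1⟩ : ∃ E1, E1 = B0 + T + U + 5 := ⟨_, rfl⟩
  obtain ⟨n0, h0⟩ := hB (E1 + 1)
  obtain ⟨n2, h2⟩ := Vz_inv_small (E1 + 1)
  obtain ⟨n4, h4⟩ := ev_L' (508 + 2 ^ T₀ + 2 ^ U₀)
  refine ⟨2 * (6 * E1 + 2 * T + 2 * U + 17) * (E1 + 2) + 2 * (T + U + 5), n0 + n2 + n4 + b + 4, fun K hK Nn hNn f hf rr hrr hrr' lam hlam Q hQ S hS hSb => ?_⟩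
  have hb1 : 1 < b := by omega
  have hbr : (2 : ℝ) ≤ b := by exact_mod_cast hb
  have hKX : K < b ^ K := Nat.lt_pow_self hb1
  have hK0 : (0 : ℝ) < K := by exact_mod_cast (by omega : 0 < K)
  have hK1 : (1 : ℝ) ≤ K := by exact_mod_cast (by omega : 1 ≤ K)
  have hKb : (b : ℝ) ≤ K := by exact_mod_cast (by omega : b ≤ K)
  obtain ⟨N, hN⟩ : ∃ N : ℕ, N = b ^ K := ⟨_, rfl⟩
  have hNK : K < N := by rw [hN]; exact hKX
  rw [← hN] at hQ
  simp only [← hN] at hSb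
  have hN1 : 1 ≤ N := by omega
  have hNr : (1 : ℝ) ≤ N := by exact_mod_cast hN1
  have hN0 : (0 : ℝ) < N := by linarith
  obtain ⟨L, hL⟩ : ∃ L, L = Real.log (N : ℝ) := ⟨_, rfl⟩
  have hbig0 := h4 N (by omega)
  rw [← hL] at hbig0
  have hpT : (0 : ℝ) < 2 ^ T₀ := by positivity
  have hpU : (0 : ℝ) < 2 ^ U₀ := by positivity
  have hL1 : 1 ≤ L := by linarith
  have hL0 : 0 < L := by linarith
  have hLK : L = (K : ℝ) * Real.log b := by rw [hL, hN]; push_cast; rw [Real.log_pow]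
  have hlb : 1 / 2 ≤ Real.log b := by
    have q1 : (1 : ℝ) / 2 ≤ Real.log 2 := by linarith [Real.log_two_gt_d9]
    exact q1.trans (Real.log_le_log (by norm_num) hbr)
  have hlb2 : Real.log b ≤ b := (Real.log_le_sub_one_of_pos (by linarith)).trans (by linarith)
  have hKL : (K : ℝ) ≤ 2 * L := by rw [hLK]; nlinarith
  have hLK2 : L ≤ (K : ℝ) ^ 2 := by
    rw [hLK, pow_two]
    exact mul_le_mul_of_nonneg_left (hlb2.trans hKb) hK0.le
  -- the conversions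
  have hlam' : ∀ q, |lam q| ≤ L ^ T := by
    intro q
    refine (hlam q).trans ?_
    calc (K : ℝ) ^ T₀ ≤ (2 * L) ^ T₀ := pow_le_pow_left₀ hK0.le hKL _
      _ = 2 ^ T₀ * L ^ T₀ := mul_pow _ _ _
      _ ≤ L * L ^ T₀ := mul_le_mul_of_nonneg_right (by linarith) (by positivity)
      _ = L ^ T := by rw [hT, pow_succ]; ring
  have hUU : (N : ℝ) / L ^ U ≤ N / (K : ℝ) ^ U₀ := by
    apply div_le_div_of_nonneg_left hN0.le (by positivity)
    calc (K : ℝ) ^ U₀ ≤ (2 * L) ^ U₀ := pow_le_pow_left₀ hK0.le hKL _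
      _ = 2 ^ U₀ * L ^ U₀ := mul_pow _ _ _
      _ ≤ L * L ^ U₀ := mul_le_mul_of_nonneg_right (by linarith) (by positivity)
      _ = L ^ U := by rw [hU, pow_succ]; ring
  -- the level
  obtain ⟨z, hz⟩ : ∃ z, z = ⌈L ^ E1⌉₊ := ⟨_, rfl⟩
  have hz1 : L ^ E1 ≤ z := by rw [hz]; exact Nat.le_ceil _
  have hz2 : (z : ℝ) ≤ L ^ (E1 + 1) := by
    have q1 : (z : ℝ) < L ^ E1 + 1 := by rw [hz]; exact Nat.ceil_lt_add_one (by positivity)
    have q2 : 1 ≤ L ^ E1 := one_le_pow₀ (by linarith)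
    rw [pow_succ]
    nlinarith
  have hzge : 1 ≤ z := by
    have : (1 : ℝ) ≤ z := (one_le_pow₀ hL1).trans hz1
    exact_mod_cast this
  have hV := h2 N (by omega) z hzge (by rw [← hL]; exact hz2)
  rw [← hL] at hV
  -- the sieve
  obtain ⟨r, hr1, hr2⟩ := W_size K E1 T U z L (by omega) (by linarith) hLK2 hzge hz2
  obtain ⟨W, hW⟩ : ∃ W : ℝ, W = ((z : ℝ) + 1) ^ r := ⟨_, rfl⟩
  rw [← hW] at hr2
  have hW1 : 1 ≤ W := by rw [hW]; exact one_le_pow₀ (by linarith [(Nat.cast_nonneg z : (0 : ℝ) ≤ z)])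
  have hQW : 54 * L ^ (T + U + 4) * ((Q : ℝ) * W) ≤ N := by
    calc 54 * L ^ (T + U + 4) * ((Q : ℝ) * W) = Q * (54 * L ^ (T + U + 4) * W) := by ring
      _ ≤ Q * Real.exp (((2 * (6 * E1 + 2 * T + 2 * U + 17) * (E1 + 2) + 2 * (T + U + 5) : ℕ) : ℝ) * Real.log K ^ 2) :=
          mul_le_mul_of_nonneg_left hr2 (Nat.cast_nonneg _)
      _ ≤ N := hQ
  have hQX : Q ≤ N := by
    have q1 : (Q : ℝ) ≤ N := by
      refine le_trans ?_ hQ
      exact le_mul_of_one_le_right (Nat.cast_nonneg _) (Real.one_le_exp (by positivity))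
    exact_mod_cast q1
  have hτ : (0 : ℝ) < L ^ (T + U + 5) := by positivity
  have hthr : (b : ℝ) ^ K / (K : ℝ) ^ (2 * (U + 1)) ≤ N / L ^ (U + 1) := by
    have : ((b : ℝ)) ^ K = N := by rw [hN]; push_cast; rfl
    rw [this]
    apply div_le_div_of_nonneg_left hN0.le (by positivity)
    rw [pow_mul]
    exact pow_le_pow_left₀ hL0.le hLK2 _
  -- the exceptional set
  have key := h0 K (by omega) z (by rw [← hN, ← hL]; exact (pow_le_pow_right₀ hL1 (by omega)).trans hz1)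
    (by rw [← hN, ← hL]; exact hz2) Nn hNn f hf rr hrr hrr'
    (DT lam Q (L ^ (T + U + 5))) (fun n => by
      refine (DT_le lam Q _ (L ^ T) hτ.le hlam' n).trans ?_
      rw [← pow_add, pow_mul]
      exact pow_le_pow_left₀ hL0.le hLK2 _) S hS (by
      intro Tc hTc
      obtain ⟨ha, y, hy, hlt⟩ := hSb Tc hTc
      obtain ⟨a, haa⟩ : ∃ a, a = change b K Nn f (un Tc) := ⟨_, rfl⟩
      rw [← haa] at ha hlt ⊢
      have haX : a ≤ N := by
        rw [haa, hN]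
        exact (change_lt b K Nn (by omega) f (fun j => (hf j).1) _).le
      by_contra hcon
      rw [not_or] at hcon
      obtain ⟨c1, c2⟩ := hcon
      push Not at c1 c2
      rw [← hN] at c1 c2
      have s1 := (c1 (y - a) (by omega)).trans hthr
      have s2 := (c2 (a - 1) (by omega)).trans hthr
      have s3 := (c2 (a - 1 - y) (by omega)).trans hthr
      have d1 := det1 lam Q y a z r N (L ^ T) L L ha hzge haX hy hQX hlam' hV hL.symm le_rfl hL1
      have d2 := three lam Q a y z N (L ^ (T + U + 5)) (L ^ T) L hτ hlam' ha haX hy hL.symm hV hL1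
      rw [← hW] at d1
      have d3 : 1 + Real.log (N : ℝ) ≤ 2 * L := by rw [← hL]; linarith
      have d4 : L * (L ^ T / L ^ (T + U + 5) * (N * (1 + Real.log N) ^ 3)) ≤ L * (L ^ T / L ^ (T + U + 5) * (N * (2 * L) ^ 3)) := by
        have g0 := log1_nonneg N
        gcongr
      have d5 := fin_num L L N N Q W (Real.exp (3 * (1 + Real.log z) - r)) z _ _ _ 1 T U E1 hL1 hL1 (by linarith) hN0
        (by ring) (by norm_num) (Nat.cast_nonneg Q) hW1 (Real.exp_pos _).le hr1 (by exact_mod_cast hzge) hz1 (by omega) hQW (by linarith) s1 s2 s3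
      linarith)
  refine key.trans ?_
  apply mul_le_mul_of_nonneg_right _ (Nat.cast_nonneg _)
  apply one_div_le_one_div_of_le (by positivity)
  exact pow_le_pow_right₀ hK1 (by omega)

end Pool.Agent.TH894.LG
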