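import Pool.Agent.TH894.GN2

set_option autoImplicit false

/-! From choices of positions to sets of positions, when the number of the positions is of the order of the
logarithm of the number of digits. -/

namespace Pool.Agent.TH894.LG
open Finset
open Pool.Agent.W93.DG
open Pool.Agent.TH894.SM (enm enm_eq enm_inj enm_mem enm_image enm_sum expose Om nw card_Om dl Pos change ed
  change_eq change_lt le_change Win Win_sub Win_disj un un_sum)

/-- powers and falling factorials -/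
lemma pow_le_choose (b K C₁ m : ℕ) (hb : 2 ≤ b) (hK : 1 ≤ K) (hm : 8 * C₁ ^ 2 * (Nat.log b K + 1) ≤ m) (hC : 1 ≤ C₁) :
    (m : ℝ) ^ (C₁ * (Nat.log b K + 1)) ≤ (b * K) * (((C₁ * (Nat.log b K + 1)).factorial : ℝ) * (m.choose (C₁ * (Nat.log b K + 1)) : ℝ)) := by
  obtain ⟨l, hl⟩ : ∃ l, l = Nat.log b K + 1 := ⟨_, rfl⟩
  rw [← hl] at hm ⊢
  have hl1 : 1 ≤ l := by omega
  obtain ⟨t, ht⟩ : ∃ t, t = C₁ * l := ⟨_, rfl⟩
  rw [← ht]
  have htm : 8 * t * C₁ ≤ m := by
    calc 8 * t * C₁ = 8 * C₁ ^ 2 * l := by rw [ht]; ring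
      _ ≤ m := hm
  have ht1 : 1 ≤ t := by rw [ht]; exact Nat.mul_pos (by omega) (by omega)
  have htm' : 8 * t ≤ m := le_trans (Nat.le_mul_of_pos_right _ (by omega)) htm
  have hm0 : (0 : ℝ) < m := by exact_mod_cast (by omega : 0 < m)
  have ht0 : (0 : ℝ) < t := by exact_mod_cast (by omega : 0 < t)
  have h1 : (((m - t : ℕ) : ℝ)) ^ t ≤ (t.factorial : ℝ) * (m.choose t : ℝ) := by
    have h2 := Nat.pow_sub_le_descFactorial m t
    rw [Nat.descFactorial_eq_factorial_mul_choose] at h2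
    have h3 : (m - t) ^ t ≤ (m + 1 - t) ^ t := Nat.pow_le_pow_left (by omega) t
    exact_mod_cast h3.trans h2
  obtain ⟨x, hx⟩ : ∃ x : ℝ, x = t / m := ⟨_, rfl⟩
  have hx0 : 0 < x := by rw [hx]; positivity
  have hx1 : x ≤ 1 / 8 := by
    rw [hx, div_le_div_iff₀ hm0 (by norm_num)]
    have : ((8 * t : ℕ) : ℝ) ≤ m := by exact_mod_cast htm'
    push_cast at this
    linarith
  have h2 : (((m - t : ℕ) : ℝ)) = m * (1 - x) := by
    rw [Nat.cast_sub (by omega), hx]
    field_simp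
  -- `1 ≤ (1 - x) * exp (2 * x)`
  have h3 : 1 ≤ (1 - x) * Real.exp (2 * x) := by
    have h4 : 1 + 2 * x ≤ Real.exp (2 * x) := by
      have := Real.add_one_le_exp (2 * x)
      linarith
    have h5 : 1 ≤ (1 - x) * (1 + 2 * x) := by nlinarith
    exact h5.trans (mul_le_mul_of_nonneg_left h4 (by linarith))
  have h4 : (1 : ℝ) ≤ (1 - x) ^ t * Real.exp (2 * x * t) := by
    have h5 : (1 : ℝ) ≤ ((1 - x) * Real.exp (2 * x)) ^ t := one_le_pow₀ h3
    rw [mul_pow, ← Real.exp_nat_mul] at h5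
    rwa [show (t : ℝ) * (2 * x) = 2 * x * t by ring] at h5
  have h5 : Real.exp (2 * x * t) ≤ b * K := by
    have h6 : 2 * x * t ≤ l * (1 / 4) := by
      rw [hx]
      have h7 : ((8 * t * C₁ : ℕ) : ℝ) ≤ m := by exact_mod_cast htm
      push_cast at h7
      have h8 : (t : ℝ) = C₁ * l := by rw [ht]; push_cast; ring
      rw [mul_div_assoc', div_mul_eq_mul_div, div_le_iff₀ hm0]
      calc 2 * (t : ℝ) * t = (1 / 4) * l * (8 * t * C₁) := by
            nth_rewrite 2 [h8]
            ring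
        _ ≤ (1 / 4) * l * m := mul_le_mul_of_nonneg_left h7 (by positivity)
        _ = _ := by ring
    have h9 : Real.exp (l * (1 / 4)) ≤ (2 : ℝ) ^ l := by
      rw [Real.exp_nat_mul]
      apply pow_le_pow_left₀ (Real.exp_pos _).le
      have := Real.exp_bound_div_one_sub_of_interval (show (0 : ℝ) ≤ 1 / 4 by norm_num) (by norm_num : (1 / 4 : ℝ) < 1)
      refine this.trans ?_
      norm_num
    have h10 : (2 : ℝ) ^ l ≤ (b : ℝ) ^ l := pow_le_pow_left₀ (by norm_num) (by exact_mod_cast hb) _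
    have h11 : (b : ℝ) ^ l ≤ b * K := by
      rw [hl, pow_succ']
      have : b ^ Nat.log b K ≤ K := Nat.pow_log_le_self b (by omega)
      have h12 : (b : ℝ) ^ Nat.log b K ≤ K := by exact_mod_cast this
      exact mul_le_mul_of_nonneg_left h12 (Nat.cast_nonneg _)
    exact (Real.exp_le_exp.2 h6).trans (h9.trans (h10.trans h11))
  have hx' : 0 ≤ (1 - x) ^ t := pow_nonneg (by linarith) _
  have hbK : (0 : ℝ) ≤ b * K := by positivity
  calc (m : ℝ) ^ t = (m : ℝ) ^ t * 1 := (mul_one _).symm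
    _ ≤ (m : ℝ) ^ t * ((1 - x) ^ t * Real.exp (2 * x * t)) := mul_le_mul_of_nonneg_left h4 (by positivity)
    _ ≤ (m : ℝ) ^ t * ((1 - x) ^ t * (b * K)) := by
        apply mul_le_mul_of_nonneg_left _ (by positivity)
        exact mul_le_mul_of_nonneg_left h5 hx'
    _ = (b * K) * (m * (1 - x)) ^ t := by rw [mul_pow]; ring
    _ ≤ _ := by
        rw [← h2]
        exact mul_le_mul_of_nonneg_left h1 hbK

/-- few sets of positions are exceptional -/
theorem few_sets (b : ℕ) (hb : 2 ≤ b) (R A C₁ : ℕ) (hR : 1 ≤ R) (hC : 1 ≤ C₁) (hA : 5 * C₁ ^ 2 ≤ A) : ∃ k₁ : ℕ, ∀ K : ℕ, k₁ ≤ K →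
    ∀ (Bd : ℤ → Prop) (κ : ℝ), 0 ≤ κ → ∀ (N : ℕ) (e : ℕ → ℤ), (∀ j, e j ≠ 0 ∧ |e j| < b) → ∀ J : Fin 3 → Finset ℕ, Pos b R K (hh b A K) J →
    (∀ S ⊆ Om J (C₁ * (Nat.log b K + 1)), (∀ ω ∈ S, Bd (nw b N e ω)) → (S.card : ℝ) ≤ κ * ∏ q, ((J q).card : ℝ) ^ (C₁ * (Nat.log b K + 1))) →
    ∀ S ⊆ Fintype.piFinset (fun q => powersetCard (C₁ * (Nat.log b K + 1)) (J q)),
    (∀ T ∈ S, Bd (N + ∑ q, ∑ j ∈ T q, dl b e j)) →
    (S.card : ℝ) ≤ κ * (K : ℝ) ^ 4 * ∏ q, ((J q).card.choose (C₁ * (Nat.log b K + 1)) : ℝ) := by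
  classical
  obtain ⟨k1, hk1⟩ := hh_small b A 4 hb
  refine ⟨k1 + b ^ 3 + 100, fun K hK Bd κ hκ N e he J hJ H S hS hSb => ?_⟩
  obtain ⟨t, ht⟩ : ∃ t, t = C₁ * (Nat.log b K + 1) := ⟨_, rfl⟩
  rw [← ht] at H hS ⊢
  obtain ⟨h, hh'⟩ : ∃ h, h = hh b A K := ⟨_, rfl⟩
  have hh2 : 4 * h ≤ K := by rw [hh']; exact hk1 K (by omega)
  have hhA : 10 * C₁ ^ 2 * (Nat.log b K + 1) ≤ h := by
    rw [hh']
    unfold hh
    apply Nat.mul_le_mul_right
    omega
  have hcd : ∀ (x y : ℕ) (S : Finset ℕ), S ⊆ Ico x y → 8 * R * (Ico x y \ S).card ≤ y - x → 7 * (y - x) ≤ 8 * S.card := by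
    intro x y S hS hc
    have e1 := card_sdiff_add_card_eq_card hS
    rw [Nat.card_Ico] at e1
    have e2 : 8 * (Ico x y \ S).card ≤ 8 * R * (Ico x y \ S).card := by
      calc 8 * (Ico x y \ S).card = 8 * 1 * (Ico x y \ S).card := by ring
        _ ≤ _ := Nat.mul_le_mul_right _ (Nat.mul_le_mul_left _ hR)
    omega
  have hJ' := hJ
  rw [← hh'] at hJ'
  have g0 := hcd _ _ _ hJ'.s0 (hJ'.c0.trans (by omega))
  have g1 := hcd _ _ _ hJ'.s1 (hJ'.c1.trans (by omega))
  have g2 := hcd _ _ _ hJ'.s2 (hJ'.c2.trans (by omega))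
  have hcard : ∀ q, 8 * C₁ ^ 2 * (Nat.log b K + 1) ≤ (J q).card := by
    intro q
    obtain ⟨w, hw⟩ : ∃ w, w = C₁ ^ 2 * (Nat.log b K + 1) := ⟨_, rfl⟩
    have e1 : 8 * C₁ ^ 2 * (Nat.log b K + 1) = 8 * w := by rw [hw]; ring
    have e2 : 10 * C₁ ^ 2 * (Nat.log b K + 1) = 10 * w := by rw [hw]; ring
    rw [e1]
    rw [e2] at hhA
    have hw1 : 1 ≤ w := by rw [hw]; exact Nat.mul_pos (by positivity) (by omega)
    have hq3 : q = 0 ∨ q = 1 ∨ q = 2 := by
      fin_cases q <;> simp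
    rcases hq3 with rfl | rfl | rfl <;> omega
  -- the map
  obtain ⟨Φ, hΦ⟩ : ∃ Φ : (Fin 3 → Finset ℕ) × (Fin 3 → Equiv.Perm (Fin t)) → (Fin 3 × Fin t → ℕ),
      Φ = fun p c => enm t (p.1 c.1) (p.2 c.1 c.2) := ⟨_, rfl⟩
  have hTc : ∀ T ∈ S, ∀ q, T q ⊆ J q ∧ (T q).card = t := by
    intro T hT q
    have := hS hT
    rw [Fintype.mem_piFinset] at this
    exact mem_powersetCard.1 (this q)
  have himg : (S ×ˢ (univ : Finset (Fin 3 → Equiv.Perm (Fin t)))).image Φ ⊆ Om J t := by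
    intro ω hω
    rw [mem_image] at hω
    obtain ⟨p, hp, rfl⟩ := hω
    rw [mem_product] at hp
    unfold Om
    rw [Fintype.mem_piFinset]
    intro c
    rw [hΦ]
    exact (hTc p.1 hp.1 c.1).1 (enm_mem (hTc p.1 hp.1 c.1).2 _)
  have hinj : Set.InjOn Φ ((S ×ˢ (univ : Finset (Fin 3 → Equiv.Perm (Fin t))) : Finset _) : Set ((Fin 3 → Finset ℕ) × (Fin 3 → Equiv.Perm (Fin t)))) := by
    intro p hp p' hp' hpp
    rw [mem_coe, mem_product] at hp hp'
    have e1 : ∀ q i, enm t (p.1 q) (p.2 q i) = enm t (p'.1 q) (p'.2 q i) := by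
      intro q i
      have := congrFun hpp (q, i)
      rw [hΦ] at this
      exact this
    have e2 : p.1 = p'.1 := by
      funext q
      rw [← enm_image (hTc p.1 hp.1 q).2, ← enm_image (hTc p'.1 hp'.1 q).2]
      ext x
      simp only [mem_image, mem_univ, true_and]
      constructor
      · rintro ⟨i, hi⟩
        refine ⟨p'.2 q ((p.2 q).symm i), ?_⟩
        rw [← e1, Equiv.apply_symm_apply]
        exact hi
      · rintro ⟨i, hi⟩
        refine ⟨p.2 q ((p'.2 q).symm i), ?_⟩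
        rw [e1, Equiv.apply_symm_apply]
        exact hi
    refine Prod.ext e2 ?_
    funext q
    apply Equiv.ext
    intro i
    have e3 := e1 q i
    rw [← e2] at e3
    exact enm_inj (hTc p.1 hp.1 q).2 e3
  have hbadω : ∀ ω ∈ (S ×ˢ (univ : Finset (Fin 3 → Equiv.Perm (Fin t)))).image Φ,
      Bd (nw b N e ω) := by
    intro ω hω
    rw [mem_image] at hω
    obtain ⟨p, hp, rfl⟩ := hω
    rw [mem_product] at hp
    have hy := hSb p.1 hp.1
    refine (congrArg Bd ?_).mp hy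
    unfold nw
    congr 1
    rw [Fintype.sum_prod_type]
    apply sum_congr rfl
    intro q _
    rw [hΦ]
    simp only
    rw [Equiv.sum_comp (p.2 q) (fun i => dl b e (enm t (p.1 q) i))]
    exact (enm_sum (hTc p.1 hp.1 q).2 (dl b e)).symm
  have hmain := H _ himg hbadω
  rw [card_image_of_injOn hinj, card_product, card_univ, Fintype.card_fun, Fintype.card_fin, Fintype.card_perm, Fintype.card_fin] at hmain
  push_cast at hmain
  have hf0 : (0 : ℝ) < t.factorial := by exact_mod_cast Nat.factorial_pos t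
  have hprod : ∏ q, ((J q).card : ℝ) ^ t ≤ ∏ q, ((b * K : ℝ) * ((t.factorial : ℝ) * ((J q).card.choose t : ℝ))) := by
    apply prod_le_prod
    · intro q _; positivity
    · intro q _
      rw [ht]
      exact pow_le_choose b K C₁ _ hb (by omega) (hcard q) hC
  have hprod2 : ∏ q : Fin 3, ((b * K : ℝ) * ((t.factorial : ℝ) * ((J q).card.choose t : ℝ))) = (b * K : ℝ) ^ 3 * (t.factorial : ℝ) ^ 3 * ∏ q, ((J q).card.choose t : ℝ) := by
    rw [Fin.prod_univ_three, Fin.prod_univ_three]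
    ring
  rw [hprod2] at hprod
  have hbK : (b * K : ℝ) ^ 3 ≤ (K : ℝ) ^ 4 := by
    have h1 : ((b ^ 3 : ℕ) : ℝ) ≤ K := by exact_mod_cast (by omega : b ^ 3 ≤ K)
    push_cast at h1
    calc (b * K : ℝ) ^ 3 = (b : ℝ) ^ 3 * (K : ℝ) ^ 3 := by ring
      _ ≤ K * (K : ℝ) ^ 3 := mul_le_mul_of_nonneg_right h1 (by positivity)
      _ = _ := by ring
  have hch0 : 0 ≤ ∏ q, ((J q).card.choose t : ℝ) := prod_nonneg fun q _ => Nat.cast_nonneg _
  have h1 : (S.card : ℝ) * (t.factorial : ℝ) ^ 3 ≤ (κ * (K : ℝ) ^ 4 * ∏ q, ((J q).card.choose t : ℝ)) * (t.factorial : ℝ) ^ 3 := by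
    calc (S.card : ℝ) * (t.factorial : ℝ) ^ 3 ≤ κ * ∏ q, ((J q).card : ℝ) ^ t := hmain
      _ ≤ κ * ((b * K : ℝ) ^ 3 * (t.factorial : ℝ) ^ 3 * ∏ q, ((J q).card.choose t : ℝ)) := mul_le_mul_of_nonneg_left hprod hκ
      _ ≤ κ * ((K : ℝ) ^ 4 * (t.factorial : ℝ) ^ 3 * ∏ q, ((J q).card.choose t : ℝ)) := by
          apply mul_le_mul_of_nonneg_left _ hκ
          apply mul_le_mul_of_nonneg_right _ hch0
          exact mul_le_mul_of_nonneg_right hbK (by positivity)
      _ = _ := by ring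
  exact le_of_mul_le_mul_right h1 (by positivity)

/-- few triples of sets of positions are exceptional -/
theorem few_general (b : ℕ) (hb : 2 ≤ b) (R A K t : ℕ) (hK4 : 4 ≤ K) (hh2 : 4 * hh b A K ≤ K)
    (Bd : ℤ → Prop) (ρ : ℝ)
    (H : ∀ (N : ℕ) (e : ℕ → ℤ), (∀ j, e j ≠ 0 ∧ |e j| < b) → ∀ J : Fin 3 → Finset ℕ, Pos b R K (hh b A K) J →
      ∀ S ⊆ Fintype.piFinset (fun q => powersetCard t (J q)), (∀ T ∈ S, Bd (N + ∑ q, ∑ j ∈ T q, dl b e j)) →
      (S.card : ℝ) ≤ ρ * ∏ q, ((J q).card.choose t : ℝ))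
    (N : ℕ) (hN' : N < b ^ K) (f : ℕ → ℕ) (hf : ∀ j, f j < b ∧ f j ≠ N / b ^ j % b)
    (r : Fin 3 → ℕ) (hr : ∀ q, t ≤ r q) (hr' : ∀ q, 8 * R * r q ≤ (Win (hh b A K) K q).card) (hR : 1 ≤ R) :
    ∀ S ⊆ Fintype.piFinset (fun q => powersetCard (r q) (Win (hh b A K) K q)),
    (∀ T ∈ S, Bd (change b K N f (un T))) →
    (S.card : ℝ) ≤ ρ * ∏ q, ((Win (hh b A K) K q).card.choose (r q) : ℝ) := by
  classical
  intro S hS hSb
  set h := hh b A K with hhd
  obtain ⟨W, hW⟩ : ∃ W, W = Win h K := ⟨_, rfl⟩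
  rw [← hW] at hr' hS ⊢
  have hWsub : ∀ q, W q ⊆ Ico 1 (K - 1) := fun q => by rw [hW]; exact Win_sub h K q (by omega)
  have hWdisj : ∀ q q', q ≠ q' → Disjoint (W q) (W q') := fun q q' hq => by rw [hW]; exact Win_disj h K q q' (by omega) hq
  have hb1 : 1 ≤ b := by omega
  -- the inner bound
  have hinner : ∀ Z ∈ Fintype.piFinset (fun q => powersetCard (r q - t) (W q)),
      (∑ T ∈ Fintype.piFinset (fun q => powersetCard t (W q \ Z q)), (if (fun q => Z q ∪ T q) ∈ S then (1 : ℝ) else 0)) ≤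
        ρ * ∏ q, (((W q).card - (r q - t)).choose t : ℝ) := by
    intro Z hZ
    rw [Fintype.mem_piFinset] at hZ
    simp only [mem_powersetCard] at hZ
    rw [← sum_filter, sum_const, nsmul_eq_mul, mul_one]
    have hcardJ : ∀ q, (W q \ Z q).card = (W q).card - (r q - t) := fun q => by
      rw [card_sdiff_of_subset (hZ q).1, (hZ q).2]
    simp only [← hcardJ]
    have hZsub : un Z ⊆ range K := by
      intro x hx
      unfold un at hx
      rw [mem_biUnion] at hx
      obtain ⟨q, _, hxq⟩ := hx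
      have := mem_Ico.1 (hWsub q ((hZ q).1 hxq))
      rw [mem_range]; omega
    have hpos : Pos b R K h (fun q => W q \ Z q) := by
      have hc : ∀ q, 8 * R * (W q \ (W q \ Z q)).card ≤ (W q).card := by
        intro q
        refine le_trans (Nat.mul_le_mul_left _ ?_) (hr' q)
        rw [Finset.sdiff_sdiff_eq_self (hZ q).1, (hZ q).2]
        omega
      have w0 : W 0 = Ico 1 (1 + h) := by rw [hW]; rfl
      have w1 : W 1 = Ico (1 + h) (K - 1 - h) := by rw [hW]; rfl
      have w2 : W 2 = Ico (K - 1 - h) (K - 1) := by rw [hW]; rfl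
      have h0 := hc 0
      have h1 := hc 1
      have h2 := hc 2
      constructor
      · rw [← w0]; exact sdiff_subset
      · rw [← w1]; exact sdiff_subset
      · rw [← w2]; exact sdiff_subset
      · rw [← w0]
        refine h0.trans ?_
        rw [w0, Nat.card_Ico]; omega
      · rw [← w1]
        refine h1.trans ?_
        rw [w1, Nat.card_Ico]; omega
      · rw [← w2]
        refine h2.trans ?_
        rw [w2, Nat.card_Ico]; omega
    refine H (change b K N f (un Z)) (ed b N f) ?_ (fun q => W q \ Z q) hpos _ (filter_subset _ _) ?_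
    · intro j
      have h1 := hf j
      have h2 := Nat.mod_lt (N / b ^ j) hb1
      unfold ed
      constructor
      · intro h3
        apply h1.2
        omega
      · rw [abs_lt]
        constructor <;> omega
    · intro T hT
      rw [mem_filter, Fintype.mem_piFinset] at hT
      simp only [mem_powersetCard] at hT
      obtain ⟨hT1, hT2⟩ := hT
      have hb' := hSb _ hT2
      refine (congrArg Bd ?_).mp hb'
      have hsub : un (fun q => Z q ∪ T q) ⊆ range K := by
        intro x hx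
        unfold un at hx
        rw [mem_biUnion] at hx
        obtain ⟨q, _, hxq⟩ := hx
        have h1 : x ∈ W q := by
          rw [mem_union] at hxq
          rcases hxq with hxq | hxq
          · exact (hZ q).1 hxq
          · exact (mem_sdiff.1 ((hT1 q).1 hxq)).1
        have := mem_Ico.1 (hWsub q h1)
        rw [mem_range]; omega
      rw [change_eq b K N hN' f _ hsub, change_eq b K N hN' f _ hZsub, un_sum, un_sum]
      · rw [add_assoc, ← sum_add_distrib]
        congr 1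
        apply sum_congr rfl
        intro q _
        rw [sum_union]
        exact disjoint_of_subset_right (hT1 q).1 disjoint_sdiff
      · intro q q' hq
        exact disjoint_of_subset_left (hZ q).1 (disjoint_of_subset_right (hZ q').1 (hWdisj q q' hq))
      · intro q q' hq
        refine disjoint_of_subset_left (union_subset (hZ q).1 ((hT1 q).1.trans sdiff_subset)) ?_
        exact disjoint_of_subset_right (union_subset (hZ q').1 ((hT1 q').1.trans sdiff_subset)) (hWdisj q q' hq)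
  -- double counting
  have hdc := expose W r t hr (fun T => if T ∈ S then (1 : ℝ) else 0)
  have hL : ∑ T ∈ Fintype.piFinset (fun q => powersetCard (r q) (W q)), ∑ _T ∈ Fintype.piFinset (fun q => powersetCard t (T q)),
      (if T ∈ S then (1 : ℝ) else 0) = S.card * ∏ q, ((r q).choose t : ℝ) := by
    have h1 : ∀ T ∈ Fintype.piFinset (fun q => powersetCard (r q) (W q)), ∑ _T ∈ Fintype.piFinset (fun q => powersetCard t (T q)),
        (if T ∈ S then (1 : ℝ) else 0) = (if T ∈ S then (1 : ℝ) else 0) * ∏ q, ((r q).choose t : ℝ) := by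
      intro T hT
      rw [Fintype.mem_piFinset] at hT
      simp only [mem_powersetCard] at hT
      rw [sum_const, nsmul_eq_mul, mul_comm, Fintype.card_piFinset]
      congr 1
      push_cast
      apply prod_congr rfl
      intro q _
      rw [card_powersetCard, (hT q).2]
    rw [sum_congr rfl h1, ← sum_mul, ← sum_filter, sum_const, nsmul_eq_mul, mul_one]
    congr 3
    rw [filter_mem_eq_inter]
    exact inter_eq_right.2 hS
  have hRr : ∑ Z ∈ Fintype.piFinset (fun q => powersetCard (r q - t) (W q)), ∑ T ∈ Fintype.piFinset (fun q => powersetCard t (W q \ Z q)),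
      (if (fun q => Z q ∪ T q) ∈ S then (1 : ℝ) else 0) ≤
      (∏ q, ((W q).card.choose (r q - t) : ℝ)) * (ρ * ∏ q, (((W q).card - (r q - t)).choose t : ℝ)) := by
    refine (sum_le_card_nsmul _ _ _ hinner).trans (le_of_eq ?_)
    rw [nsmul_eq_mul, Fintype.card_piFinset]
    congr 1
    push_cast
    apply prod_congr rfl
    intro q _
    rw [card_powersetCard]
  have hid : (∏ q, ((W q).card.choose (r q - t) : ℝ)) * (ρ * ∏ q, (((W q).card - (r q - t)).choose t : ℝ)) =
      (ρ * ∏ q, ((W q).card.choose (r q) : ℝ)) * ∏ q, ((r q).choose t : ℝ) := by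
    have h1 : (∏ q, ((W q).card.choose (r q - t) : ℝ)) * (∏ q, (((W q).card - (r q - t)).choose t : ℝ)) =
        (∏ q, ((W q).card.choose (r q) : ℝ)) * ∏ q, ((r q).choose t : ℝ) := by
      rw [← prod_mul_distrib, ← prod_mul_distrib]
      apply prod_congr rfl
      intro q _
      have hrw : r q ≤ (W q).card := by
        refine le_trans ?_ (hr' q)
        exact Nat.le_mul_of_pos_left _ (by omega)
      have h2 := Nat.choose_mul (n := (W q).card) (Nat.sub_le (r q) t)
      rw [Nat.choose_symm (hr q)] at h2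
      have h3 : r q - (r q - t) = t := by have := hr q; omega
      rw [h3] at h2
      exact_mod_cast h2.symm
    linear_combination ρ * h1
  rw [hL] at hdc
  rw [hid, ← hdc] at hRr
  refine le_of_mul_le_mul_right hRr ?_
  apply prod_pos
  intro q _
  exact_mod_cast Nat.choose_pos (hr q)

end Pool.Agent.TH894.LG
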