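import Pool.Agent.TH894.CW5

set_option autoImplicit false

/-! Correlations of a function dominated by the von Mangoldt function with the primes, at shifts after few changes of digits. -/

namespace Pool.Agent.TH894.PR
open Finset
open Pool.Agent.H807R2.Dav
open Pool.Agent.H373R2.T7
open Pool.Agent.W93.DG
open Pool.Agent.W93.HD
open Pool.Agent.W93.TD (EE_corr G_sq bad_sq)
open Pool.Agent.W93.LM (FC FC_pars)
open Pool.Agent.W93.RD (EE)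
open Pool.Agent.TH894.CW
open Pool.Agent.TH894.SM (Ph VV VV_nonneg VV_four dl dl_abs Om nw card_Om Pos mu mu_pos Ph_le)

lemma FC_FF (f : ℕ → ℝ) (X M r : ℕ) : FC (fun n => (starRingEnd ℂ) ((f n : ℝ) : ℂ)) X M r = FF f X M r := by
  unfold FC FF
  apply sum_congr rfl
  intro n _
  simp only
  rw [Complex.conj_ofReal]

/-- the second moment -/
theorem second_P (b : ℕ) (hb : 2 ≤ b) : ∃ R A B : ℕ, 1 ≤ R ∧ 3 ≤ A ∧ ∀ δ : ℝ, 0 < δ → ∃ t₀ : ℕ, ∀ t : ℕ, t₀ ≤ t →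
    ∀ Ez : ℕ, ∃ k₀ : ℕ, ∀ K : ℕ, k₀ ≤ K → ∀ z : ℕ,
    Real.log ((b ^ K : ℕ) : ℝ) ^ B ≤ z → (z : ℝ) ≤ Real.log ((b ^ K : ℕ) : ℝ) ^ Ez → ∀ (N : ℕ) (e : ℕ → ℤ), (∀ j, e j ≠ 0 ∧ |e j| < b) →
    ∀ J : Fin 3 → Finset ℕ, Pos b R K (hh b A K) J → ∀ g : ℕ → ℝ, (∀ n, |g n| ≤ ArithmeticFunction.vonMangoldt n) →
    ∑ ω ∈ Om J t, ‖EE (fun r => (starRingEnd ℂ) (FF g (b ^ K) (b ^ (K + 1)) r) *
        FF (fun n => ArithmeticFunction.vonMangoldt n - lamz z n) (b ^ K) (b ^ (K + 1)) r) (b ^ (K + 1)) (nw b N e ω)‖ ^ 2 ≤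
      δ * (((b ^ (K + 1) : ℕ) : ℝ) * ((b ^ K : ℕ) : ℝ)) ^ 2 * (Om J t).card := by
  classical
  have hbn : 0 < b := by omega
  have hb1 : 1 < b := by omega
  have hbr : (2 : ℝ) ≤ b := by exact_mod_cast hb
  obtain ⟨R, hR, hbad⟩ := bad_sq b hb
  obtain ⟨A, B, hUA, hB⟩ := hbad (mu b) 10
  obtain ⟨C, hC0, hfour⟩ := VV_four b hb
  refine ⟨R, A, B + 1, hR, by omega, fun δ hδ => ?_⟩
  obtain ⟨t₀, ht₀⟩ := second_L b hb R hR A (by omega) (4 * C) (by positivity) δ hδ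
  refine ⟨t₀, fun t ht Ez => ?_⟩
  obtain ⟨k0, h0⟩ := ht₀ t ht
  obtain ⟨k1, h1⟩ := hB Ez
  obtain ⟨k2, h2⟩ := G_sq Ez
  obtain ⟨k3, h3⟩ := hfour Ez
  obtain ⟨k4, h4⟩ := hh_small b A (512 * b) hb
  refine ⟨k0 + k1 + k2 + k3 + k4 + 14 * b ^ 2 + 256 * b + 64, fun K hK z hz1 hz2 N e he J hJ g hg => ?_⟩
  obtain ⟨hL1, hL2⟩ := logX b K hb
  have hK8 : (64 : ℝ) ≤ K := by exact_mod_cast (by omega : 64 ≤ K)
  obtain ⟨L, hL⟩ : ∃ L, L = Real.log ((b ^ K : ℕ) : ℝ) := ⟨_, rfl⟩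
  have hL4 : 4 ≤ L := by rw [hL]; linarith
  have hzB : L ^ B ≤ z := (pow_le_pow_right₀ (by linarith) (Nat.le_succ B)).trans (by rw [hL]; exact hz1)
  have hzL : L ≤ z := by
    refine le_trans ?_ (by rw [hL]; exact hz1 : L ^ (B + 1) ≤ z)
    exact le_self_pow₀ (by linarith) (by omega)
  have hz : 1 ≤ z := by
    have : (1 : ℝ) ≤ z := by linarith
    exact_mod_cast this
  have hKX : K < b ^ K := Nat.lt_pow_self hb1
  have hXM : b ^ K ≤ b ^ (K + 1) := Nat.pow_le_pow_right hbn (by omega)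
  have h512 : 512 * 2 * hh b A K ≤ 512 * b * hh b A K := Nat.mul_le_mul_right _ (Nat.mul_le_mul_left _ hb)
  have hgK := h4 K (by omega)
  have hh1 : 1 ≤ hh b A K := by
    unfold hh
    exact Nat.mul_pos (by omega) (by omega)
  obtain ⟨hJc, hJsub⟩ := Pos_card b R K (hh b A K) J hR hh1 (by omega) hJ
  have hmain := h0 K (by omega) N e he J hJ (fun n => ((g n : ℝ) : ℂ)) (fun n => by
      rw [Complex.norm_real, Real.norm_eq_abs]; exact hg n)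
    (FF (fun n => ArithmeticFunction.vonMangoldt n - lamz z n) (b ^ K) (b ^ (K + 1))) ?_ ?_ ?_
  · refine le_trans (le_of_eq ?_) hmain
    apply sum_congr rfl
    intro ω _
    congr 3
    funext r
    rw [FC_FF]
  · intro r _ S hS
    have e1 := h1 K (by omega) z (by rw [← hL]; exact hzB) hz2 (mu b * (b ^ (K + 1) - r)) (mu b) (mu_pos b) ((Nat.lt_pow_self hb1).le) S hS
    exact e1
  · have e1 := h2 (b ^ K) (by omega) (b ^ (K + 1)) hXM z hz hz2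
    refine e1.trans ?_
    rw [← hL]
    rw [← hL] at hL2
    have e2 : 14 * L ^ 2 ≤ (K : ℝ) ^ 3 := by
      have e3 : (14 * b ^ 2 : ℝ) ≤ K := by exact_mod_cast (by omega : 14 * b ^ 2 ≤ K)
      have e4 : L ^ 2 ≤ (b * K) ^ 2 := pow_le_pow_left₀ (by linarith) hL2 2
      calc 14 * L ^ 2 ≤ 14 * (b * K) ^ 2 := by linarith
        _ = (14 * b ^ 2) * (K : ℝ) ^ 2 := by ring
        _ ≤ K * (K : ℝ) ^ 2 := mul_le_mul_of_nonneg_right e3 (by positivity)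
        _ = _ := by ring
    have hM0 : (0 : ℝ) ≤ ((b ^ (K + 1) : ℕ) : ℝ) := Nat.cast_nonneg _
    have hX0 : (0 : ℝ) ≤ ((b ^ K : ℕ) : ℝ) := Nat.cast_nonneg _
    calc ((b ^ (K + 1) : ℕ) : ℝ) * (14 * ((b ^ K : ℕ) : ℝ) * L ^ 2) = (((b ^ (K + 1) : ℕ) : ℝ) * ((b ^ K : ℕ) : ℝ)) * (14 * L ^ 2) := by ring
      _ ≤ _ := mul_le_mul_of_nonneg_left e2 (by positivity)
  · have e1 := h3 K (by omega) z (by rw [← hL]; exact hzL) hz2 e he (J 1) hJsub hJc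
    have e2 : ∀ r, ‖FF (fun n => ArithmeticFunction.vonMangoldt n - lamz z n) (b ^ K) (b ^ (K + 1)) r‖ ^ 2 ≤ 2 * VV z (b ^ K) (b ^ (K + 1)) r := by
      intro r
      rw [FF_sub]
      have e3 := norm_sub_le (FF (fun n => ArithmeticFunction.vonMangoldt n) (b ^ K) (b ^ (K + 1)) r) (FF (lamz z) (b ^ K) (b ^ (K + 1)) r)
      have e4 := pow_le_pow_left₀ (norm_nonneg _) e3 2
      unfold VV
      nlinarith [sq_nonneg (‖FF (fun n => ArithmeticFunction.vonMangoldt n) (b ^ K) (b ^ (K + 1)) r‖ - ‖FF (lamz z) (b ^ K) (b ^ (K + 1)) r‖)]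
    calc _ ≤ ∑ r ∈ range (b ^ (K + 1)), ∑ r' ∈ range (b ^ (K + 1)), 4 * (VV z (b ^ K) (b ^ (K + 1)) r * VV z (b ^ K) (b ^ (K + 1)) r' *
        ‖Ph (dl b e) (J 1) (((r' : ℝ) - r) / ((b ^ (K + 1) : ℕ) : ℝ))‖ ^ 4) := by
          apply sum_le_sum
          intro r _
          apply sum_le_sum
          intro r' _
          have e5 := e2 r
          have e6 := e2 r'
          have v0 := VV_nonneg z (b ^ K) (b ^ (K + 1)) r
          rw [show 4 * (VV z (b ^ K) (b ^ (K + 1)) r * VV z (b ^ K) (b ^ (K + 1)) r' *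
            ‖Ph (dl b e) (J 1) (((r' : ℝ) - r) / ((b ^ (K + 1) : ℕ) : ℝ))‖ ^ 4) = ((2 * VV z (b ^ K) (b ^ (K + 1)) r) * (2 * VV z (b ^ K) (b ^ (K + 1)) r')) *
            ‖Ph (dl b e) (J 1) (((r' : ℝ) - r) / ((b ^ (K + 1) : ℕ) : ℝ))‖ ^ 4 by ring]
          apply mul_le_mul_of_nonneg_right _ (by positivity)
          exact mul_le_mul e5 e6 (by positivity) (by positivity)
      _ = 4 * ∑ r ∈ range (b ^ (K + 1)), ∑ r' ∈ range (b ^ (K + 1)), (VV z (b ^ K) (b ^ (K + 1)) r * VV z (b ^ K) (b ^ (K + 1)) r' *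
        ‖Ph (dl b e) (J 1) (((r' : ℝ) - r) / ((b ^ (K + 1) : ℕ) : ℝ))‖ ^ 4) := by
          rw [mul_sum]
          apply sum_congr rfl
          intro r _
          rw [mul_sum]
      _ ≤ 4 * (C * (((b ^ (K + 1) : ℕ) : ℝ) * ((b ^ K : ℕ) : ℝ)) ^ 2 * ((J 1).card : ℝ) ^ 4) := by linarith
      _ = _ := by ring

/-- few choices are bad -/
theorem choices_P (b : ℕ) (hb : 2 ≤ b) : ∃ R A B : ℕ, 1 ≤ R ∧ 3 ≤ A ∧ ∀ ε : ℝ, 0 < ε → ∀ ρ : ℝ, 0 < ρ →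
    ∃ t₀ : ℕ, ∀ t : ℕ, t₀ ≤ t → ∀ Ez : ℕ, ∃ k₀ : ℕ, ∀ K : ℕ, k₀ ≤ K → ∀ z : ℕ,
    Real.log ((b ^ K : ℕ) : ℝ) ^ B ≤ z → (z : ℝ) ≤ Real.log ((b ^ K : ℕ) : ℝ) ^ Ez → ∀ (N : ℕ) (e : ℕ → ℤ),
      (∀ j, e j ≠ 0 ∧ |e j| < b) → ∀ J : Fin 3 → Finset ℕ, Pos b R K (hh b A K) J → ∀ g : ℕ → ℝ,
      (∀ n, |g n| ≤ ArithmeticFunction.vonMangoldt n) → ∀ N₁ ≤ b ^ (K - 1), ∀ S ⊆ Om J t,
      (∀ ω ∈ S, 0 ≤ nw b N e ω ∧ nw b N e ω < (b : ℤ) ^ (K - 1) ∧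
        ε * (b : ℝ) ^ (K - 1) < |∑ n ∈ Icc 1 N₁, g n * (lamI ((n : ℤ) + nw b N e ω) - lamzI z ((n : ℤ) + nw b N e ω))|) →
      (S.card : ℝ) ≤ ρ * ∏ q, ((J q).card : ℝ) ^ t := by
  classical
  obtain ⟨R, A, B, hR, hA, hsec⟩ := second_P b hb
  refine ⟨R, A, B, hR, hA, fun ε hε ρ hρ => ?_⟩
  have hbr : (2 : ℝ) ≤ b := by exact_mod_cast hb
  have hb0 : (0 : ℝ) < b := by linarith
  obtain ⟨δ, hδ⟩ : ∃ δ : ℝ, δ = ρ * ε ^ 2 / b ^ 2 := ⟨_, rfl⟩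
  have hδ0 : 0 < δ := by rw [hδ]; positivity
  obtain ⟨t₀, ht₀⟩ := hsec δ hδ0
  refine ⟨t₀, fun t ht Ez => ?_⟩
  obtain ⟨k₀, hk₀⟩ := ht₀ t ht Ez
  refine ⟨k₀ + 1, fun K hK z hz1 hz2 N e he J hJ g hg N₁ hN₁ S hS hSb => ?_⟩
  obtain ⟨Y, hY⟩ : ∃ Y : ℝ, Y = (b : ℝ) ^ (K - 1) := ⟨_, rfl⟩
  have hY0 : 0 < Y := by rw [hY]; positivity
  rw [← card_Om]
  obtain ⟨g', hg'⟩ : ∃ g' : ℕ → ℝ, g' = fun n => if n ≤ N₁ then g n else 0 := ⟨_, rfl⟩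
  have hg'1 : ∀ n, |g' n| ≤ ArithmeticFunction.vonMangoldt n := by
    intro n
    rw [hg']
    simp only
    split_ifs
    · exact hg n
    · rw [abs_zero]; exact ArithmeticFunction.vonMangoldt_nonneg
  have h1 := hk₀ K (by omega) z hz1 hz2 N e he J hJ g' hg'1
  obtain ⟨X, hX⟩ : ∃ X, X = b ^ K := ⟨_, rfl⟩
  obtain ⟨M, hM⟩ : ∃ M, M = b ^ (K + 1) := ⟨_, rfl⟩
  rw [← hX, ← hM] at h1
  have hXK : X = b ^ (K - 1) * b := by rw [hX, ← pow_succ]; congr 1; omega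
  have hMX : M = b * X := by rw [hM, hX, pow_succ']
  have hX1 : 1 ≤ X := by rw [hX]; exact Nat.one_le_pow _ _ (by omega)
  have hXr : (X : ℝ) = Y * b := by rw [hXK, hY]; push_cast; ring
  have h2X : 2 * b ^ (K - 1) ≤ X := by rw [hXK, mul_comm]; exact Nat.mul_le_mul_left _ hb
  have hM0 : (0 : ℝ) < M := by
    rw [hMX]; push_cast
    have : (0 : ℝ) < X := by exact_mod_cast hX1
    positivity
  obtain ⟨E, hE⟩ : ∃ E : (Fin 3 × Fin t → ℕ) → ℂ, E = fun ω => EE (fun r => (starRingEnd ℂ) (FF g' X M r) *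
      FF (fun n => ArithmeticFunction.vonMangoldt n - lamz z n) X M r) M (nw b N e ω) := ⟨_, rfl⟩
  have h2 : ∀ ω ∈ S, (M * (ε * Y)) ^ 2 ≤ ‖E ω‖ ^ 2 := by
    intro ω hω
    obtain ⟨hy0, hy1, hω2⟩ := hSb ω hω
    apply pow_le_pow_left₀ (by positivity)
    have hbK : ((b ^ (K - 1) : ℕ) : ℤ) = (b : ℤ) ^ (K - 1) := by push_cast; ring
    have h3 := EE_corr g' (fun n => ArithmeticFunction.vonMangoldt n - lamz z n) X M N₁ hX1 (by rw [hMX]; exact Nat.mul_le_mul_right _ hb) (by omega)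
      (fun n hn => by rw [hg']; simp only; rw [if_neg (by omega)]) (nw b N e ω) (by omega) (by
        have : ((N₁ : ℕ) : ℤ) ≤ ((b ^ (K - 1) : ℕ) : ℤ) := by exact_mod_cast hN₁
        have h4 : ((2 * b ^ (K - 1) : ℕ) : ℤ) ≤ (X : ℤ) := by exact_mod_cast h2X
        rw [Nat.cast_mul, hbK] at h4
        rw [hbK] at this
        push_cast at this h4 ⊢
        linarith)
    rw [hE]
    simp only
    rw [h3, Complex.norm_real, Real.norm_eq_abs, abs_mul, abs_of_pos hM0]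
    apply mul_le_mul_of_nonneg_left _ hM0.le
    rw [hY]
    refine hω2.le.trans (le_of_eq ?_)
    congr 1
    apply sum_congr rfl
    intro n hn
    rw [mem_Icc] at hn
    rw [hg']
    simp only
    rw [if_pos hn.2]
    unfold lamI lamzI
    by_cases h7 : 1 ≤ (n : ℤ) + nw b N e ω
    · rw [if_pos h7, if_pos h7, if_pos h7]
    · rw [if_neg h7, if_neg h7, if_neg h7, sub_zero]
  have h3 : (S.card : ℝ) * (M * (ε * Y)) ^ 2 ≤ δ * ((M : ℝ) * X) ^ 2 * (Om J t).card := by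
    rw [← nsmul_eq_mul]
    refine (card_nsmul_le_sum _ _ _ h2).trans ?_
    refine (sum_le_sum_of_subset_of_nonneg hS fun ω _ _ => sq_nonneg _).trans ?_
    rw [hE]
    exact h1
  have h4 : δ * ((M : ℝ) * X) ^ 2 * (Om J t).card = (ρ * (Om J t).card) * (M * (ε * Y)) ^ 2 := by
    rw [hδ, hXr]
    field_simp
  rw [h4] at h3
  exact le_of_mul_le_mul_right h3 (by positivity)

end Pool.Agent.TH894.PR
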