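import Pool.Agent.TH894.LG3
import Pool.Agent.TH894.CW3

set_option autoImplicit false

/-! One shift: the average over the choices of the positions. -/

namespace Pool.Agent.TH894.LG
open Finset
open Pool.Agent.H807R2.Dav
open Pool.Agent.H373R2.T7
open Pool.Agent.W93.DG
open Pool.Agent.TH894.SM (change change_lt Win Win_sub Win_disj un)
open Pool.Agent.TH894.CW (change_succ)

/-- the choices of the positions -/
def Ch (b A K : ℕ) (r : Fin 3 → ℕ) : Finset (Fin 3 → Finset ℕ) :=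
  Fintype.piFinset (fun q => powersetCard (r q) (Win (hh b A (K + 1)) (K + 1) q))

lemma card_Ch (b A K : ℕ) (r : Fin 3 → ℕ) : ((Ch b A K r).card : ℝ) = ∏ q, ((Win (hh b A (K + 1)) (K + 1) q).card.choose (r q) : ℝ) := by
  unfold Ch
  rw [Fintype.card_piFinset]
  push_cast
  apply prod_congr rfl
  intro q _
  rw [card_powersetCard]

lemma un_Ch (b A K : ℕ) (hK : 2 * hh b A (K + 1) + 2 ≤ K) (r : Fin 3 → ℕ) (T : Fin 3 → Finset ℕ) (hT : T ∈ Ch b A K r) :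
    un T ⊆ Ico 1 K := by
  intro x hx
  unfold Ch at hT
  rw [Fintype.mem_piFinset] at hT
  unfold un at hx
  rw [mem_biUnion] at hx
  obtain ⟨q, _, hxq⟩ := hx
  have h3 := (mem_powersetCard.1 (hT q)).1 hxq
  have h4 := Win_sub (hh b A (K + 1)) (K + 1) q (by omega) h3
  rwa [Nat.add_sub_cancel] at h4

/-- few sets of positions are exceptional: numbers with at most `K` digits -/
theorem count_K (b : ℕ) (hb : 2 ≤ b) (R : ℕ) (hR : 1 ≤ R) (V : ℕ) : ∃ C₁ : ℕ, 4 ≤ C₁ ∧ ∀ A : ℕ, 5 * C₁ ^ 2 ≤ A → ∃ k₀ : ℕ, ∀ K : ℕ, k₀ ≤ K →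
    ∀ u : ℕ → ℂ, Uok b R A (K + 1) (2 * (3 * V + 6) + 6) u → ∀ g : ℕ → ℂ, (∀ n, ‖g n‖ ≤ 1) → ∀ N₁ ≤ b ^ K,
    ∀ N : ℕ, N < b ^ K → ∀ f : ℕ → ℕ, (∀ j, f j < b ∧ f j ≠ N / b ^ j % b) →
    ∀ r : Fin 3 → ℕ, (∀ q, C₁ * (Nat.log b (K + 1) + 1) ≤ r q) → (∀ q, 8 * R * r q ≤ (Win (hh b A (K + 1)) (K + 1) q).card) →
    ∀ S ⊆ Ch b A K r, (∀ T ∈ S, (b : ℝ) ^ K / (K : ℝ) ^ V < ‖∑ n ∈ Icc 1 N₁, g n * exI u ((n : ℤ) + (change b K N f (un T) : ℕ))‖) →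
    (S.card : ℝ) ≤ 1 / (K : ℝ) ^ V * (Ch b A K r).card := by
  classical
  obtain ⟨C₁, hC₁, h⟩ := count_log b hb R hR V
  refine ⟨C₁, hC₁, fun A hA => ?_⟩
  obtain ⟨k0, h0⟩ := h A hA
  obtain ⟨k2, h2⟩ := hh_small b A 4 hb
  refine ⟨k0 + k2 + 16, fun K hK u hu g hg N₁ hN₁ N hN f hf r hr hr' S hS hSb => ?_⟩
  have hh2 := h2 (K + 1) (by omega)
  have hNK : N < b ^ (K + 1) := hN.trans (Nat.pow_lt_pow_right (by omega) (by omega))
  have hK0 : (0 : ℝ) < K := by exact_mod_cast (by omega : 0 < K)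
  have e1 := h0 (K + 1) (by omega) u hu g hg N₁ (by rw [Nat.add_sub_cancel]; exact hN₁) N hNK f hf r hr hr' S hS ?_
  · rw [← card_Ch] at e1
    refine e1.trans ?_
    apply mul_le_mul_of_nonneg_right _ (Nat.cast_nonneg _)
    apply one_div_le_one_div_of_le (by positivity)
    apply pow_le_pow_left₀ hK0.le
    push_cast
    linarith
  · intro T hT
    have hKT : K ∉ un T := by
      intro hx
      have := mem_Ico.1 (un_Ch b A K (by omega) r T (hS hT) hx)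
      omega
    rw [change_succ b K N hN f _ hKT, Nat.add_sub_cancel]
    refine ⟨change_lt b K N (by omega) f (fun j => (hf j).1) _, lt_of_le_of_lt ?_ (hSb T hT)⟩
    apply div_le_div_of_nonneg_left (by positivity) (by positivity)
    apply pow_le_pow_left₀ hK0.le
    push_cast
    linarith

/-- the trivial bound -/
lemma triv_P (b K z : ℕ) (hb : 2 ≤ b) (hK : 1 ≤ K) (N₁ y : ℕ) (hN₁ : N₁ ≤ b ^ K) (hy : y ≤ b ^ K) (Kc : ℝ) (hKc : 0 < Kc) (G : ℕ → ℝ)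
    (hG : ∀ n ∈ Icc 1 N₁, |G n| ≤ Kc) (D : ℝ) (hD : Real.log ((2 * b ^ K : ℕ) : ℝ) + (Vz z)⁻¹ ≤ D) :
    |∑ n ∈ Icc 1 N₁, G n * (lamI ((n : ℤ) + (y : ℤ)) - lamzI z ((n : ℤ) + (y : ℤ)))| ≤ Kc * (b ^ K * D) := by
  have hX1 : 1 ≤ 2 * b ^ K := Nat.mul_pos (by norm_num) (Nat.pow_pos (by omega))
  have hD0 : 0 ≤ D := le_trans (add_nonneg (Real.log_natCast_nonneg _) (inv_nonneg.2 (Vz_pos z).le)) hD
  refine (abs_sum_le_sum_abs _ _).trans ?_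
  have h1 : ∀ n ∈ Icc 1 N₁, |G n * (lamI ((n : ℤ) + (y : ℤ)) - lamzI z ((n : ℤ) + (y : ℤ)))| ≤ Kc * D := by
    intro n hn
    rw [abs_mul]
    apply mul_le_mul (hG n hn) _ (abs_nonneg _) hKc.le
    refine (abs_sub _ _).trans ?_
    rw [abs_of_nonneg (lamI_nonneg _), abs_of_nonneg (lamzI_nonneg _ _)]
    refine le_trans (add_le_add (lamI_le _ _ (by exact_mod_cast hX1) ?_) (lamzI_le z _)) hD
    rw [mem_Icc] at hn
    have : n + y ≤ 2 * b ^ K := by omega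
    exact_mod_cast this
  refine (sum_le_sum h1).trans ?_
  rw [sum_const, Nat.card_Icc, Nat.add_sub_cancel, nsmul_eq_mul]
  have h2 : (N₁ : ℝ) ≤ (b : ℝ) ^ K := by exact_mod_cast hN₁
  calc (N₁ : ℝ) * (Kc * D) ≤ (b : ℝ) ^ K * (Kc * D) := mul_le_mul_of_nonneg_right h2 (by positivity)
    _ = _ := by ring

/-- the primes: the average over the choices -/
theorem one_P (b : ℕ) (hb : 2 ≤ b) : ∃ R : ℕ, 1 ≤ R ∧ ∀ V : ℕ, ∃ C₁ : ℕ, 4 ≤ C₁ ∧ ∀ A₀ : ℕ, ∃ A B : ℕ, A₀ ≤ A ∧ ∀ Ez : ℕ, ∃ k₀ : ℕ, ∀ K : ℕ, k₀ ≤ K →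
    ∀ z : ℕ, Real.log ((b ^ K : ℕ) : ℝ) ^ B ≤ z → (z : ℝ) ≤ Real.log ((b ^ K : ℕ) : ℝ) ^ Ez →
    ∀ N : ℕ, N < b ^ K → ∀ f : ℕ → ℕ, (∀ j, f j < b ∧ f j ≠ N / b ^ j % b) →
    ∀ r : Fin 3 → ℕ, (∀ q, C₁ * (Nat.log b (K + 1) + 1) ≤ r q) → (∀ q, 8 * R * r q ≤ (Win (hh b A (K + 1)) (K + 1) q).card) →
    ∀ N₁ ≤ b ^ K, ∀ Kc : ℝ, 0 < Kc → ∀ G : ℕ → ℝ, (∀ n ∈ Icc 1 N₁, |G n| ≤ Kc) →
    ∑ T ∈ Ch b A K r, |∑ n ∈ Icc 1 N₁, G n * (lamI ((n : ℤ) + ((change b K N f (un T) : ℕ) : ℤ)) -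
      lamzI z ((n : ℤ) + ((change b K N f (un T) : ℕ) : ℤ)))| ≤ Kc * ((b : ℝ) ^ K / (K : ℝ) ^ V) * (Ch b A K r).card := by
  classical
  obtain ⟨R, hR, hU⟩ := Uok_lam b hb
  refine ⟨R, hR, fun V => ?_⟩
  obtain ⟨C₁, hC₁, hcount⟩ := count_K b hb R hR (V + 3)
  refine ⟨C₁, hC₁, fun A₀ => ?_⟩
  obtain ⟨A, B, hA, hB⟩ := hU (2 * (3 * (V + 3) + 6) + 6) (A₀ + 5 * C₁ ^ 2)
  obtain ⟨k0, h0⟩ := hcount A (by omega)
  refine ⟨A, B + 1, by omega, fun Ez => ?_⟩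
  obtain ⟨k1, h1⟩ := hB (Ez + 1)
  obtain ⟨k2, h2⟩ := Vz_inv_small Ez
  obtain ⟨k3, h3⟩ := ev_L' (2 ^ B + 2)
  refine ⟨k0 + k1 + k2 + k3 + 4 * b + 4, fun K hK z hz1 hz2 N hN f hf r hr hr' N₁ hN₁ Kc hKc G hG => ?_⟩
  have hb1 : 1 < b := by omega
  have hbr : (2 : ℝ) ≤ b := by exact_mod_cast hb
  have hKX : K < b ^ K := Nat.lt_pow_self hb1
  have hK0 : (0 : ℝ) < K := by exact_mod_cast (by omega : 0 < K)
  have hKb : (4 * b + 4 : ℝ) ≤ K := by exact_mod_cast (by omega : 4 * b + 4 ≤ K)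
  obtain ⟨L, hL⟩ : ∃ L, L = Real.log ((b ^ K : ℕ) : ℝ) := ⟨_, rfl⟩
  obtain ⟨L', hL'⟩ : ∃ L', L' = Real.log ((b ^ (K + 1) : ℕ) : ℝ) := ⟨_, rfl⟩
  have hlb : 0 < Real.log b := Real.log_pos (by linarith)
  have hlb2 : Real.log b ≤ b := (Real.log_le_sub_one_of_pos (by linarith)).trans (by linarith)
  have hLK : L = (K : ℝ) * Real.log b := by rw [hL]; push_cast; rw [Real.log_pow]
  have hLK' : L' = ((K : ℝ) + 1) * Real.log b := by rw [hL']; push_cast; rw [Real.log_pow]; push_cast; ring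
  have hLL' : L ≤ L' := by rw [hLK, hLK']; nlinarith
  have hL'2 : L' ≤ 2 * L := by rw [hLK, hLK']; nlinarith
  have hLbig := h3 (b ^ K) (by omega)
  rw [← hL] at hLbig hz1 hz2
  have hp2 : (0 : ℝ) < 2 ^ B := by positivity
  have hL1 : 1 ≤ L := by linarith
  have hL0 : 0 < L := by linarith
  have hz : 1 ≤ z := by
    have : (1 : ℝ) ≤ z := (one_le_pow₀ hL1).trans hz1
    exact_mod_cast this
  have hV := h2 (b ^ K) (by omega) z hz (by rw [← hL]; exact hz2)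
  rw [← hL] at hV
  have hu := h1 (K + 1) (by omega) z (by
      rw [← hL']
      refine le_trans ?_ hz1
      calc L' ^ B ≤ (2 * L) ^ B := pow_le_pow_left₀ (by linarith) hL'2 B
        _ = 2 ^ B * L ^ B := mul_pow _ _ _
        _ ≤ L * L ^ B := mul_le_mul_of_nonneg_right (by linarith) (by positivity)
        _ = L ^ (B + 1) := by ring) (by
      rw [← hL']
      calc (z : ℝ) ≤ L ^ Ez := hz2
        _ ≤ L ^ (Ez + 1) := pow_le_pow_right₀ hL1 (by omega)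
        _ ≤ L' ^ (Ez + 1) := pow_le_pow_left₀ hL0.le hLL' _)
  obtain ⟨g, hg⟩ : ∃ g : ℕ → ℂ, g = fun n => if n ∈ Icc 1 N₁ then ((G n / Kc : ℝ) : ℂ) else 0 := ⟨_, rfl⟩
  have hg1 : ∀ n, ‖g n‖ ≤ 1 := by
    intro n
    rw [hg]
    simp only
    split_ifs with h
    · rw [Complex.norm_real, Real.norm_eq_abs, abs_div, abs_of_pos hKc, div_le_one hKc]
      exact hG n h
    · rw [norm_zero]; norm_num
  obtain ⟨Fy, hFy⟩ : ∃ Fy : (Fin 3 → Finset ℕ) → ℝ, Fy = fun T => |∑ n ∈ Icc 1 N₁, G n * (lamI ((n : ℤ) + ((change b K N f (un T) : ℕ) : ℤ)) -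
      lamzI z ((n : ℤ) + ((change b K N f (un T) : ℕ) : ℤ)))| := ⟨_, rfl⟩
  have hrel : ∀ T, Fy T = Kc * ‖∑ n ∈ Icc 1 N₁, g n * exI (uz z) ((n : ℤ) + (change b K N f (un T) : ℕ))‖ := by
    intro T
    rw [hFy]
    simp only
    have e1 : ∑ n ∈ Icc 1 N₁, g n * exI (uz z) ((n : ℤ) + (change b K N f (un T) : ℕ)) =
        (((∑ n ∈ Icc 1 N₁, G n * (lamI ((n : ℤ) + ((change b K N f (un T) : ℕ) : ℤ)) -
      lamzI z ((n : ℤ) + ((change b K N f (un T) : ℕ) : ℤ)))) / Kc : ℝ) : ℂ) := by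
      rw [sum_div, Complex.ofReal_sum]
      apply sum_congr rfl
      intro n hn
      rw [hg]
      simp only
      rw [if_pos hn]
      unfold exI uz lamI lamzI
      have h7 : 1 ≤ (n : ℤ) + (change b K N f (un T) : ℕ) := by
        rw [mem_Icc] at hn
        omega
      rw [if_pos h7, if_pos h7, if_pos h7]
      push_cast
      ring
    rw [e1, Complex.norm_real, Real.norm_eq_abs, abs_div, abs_of_pos hKc]
    field_simp
  obtain ⟨S, hS⟩ : ∃ S, S = (Ch b A K r).filter (fun T => (b : ℝ) ^ K / (K : ℝ) ^ (V + 3) <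
      ‖∑ n ∈ Icc 1 N₁, g n * exI (uz z) ((n : ℤ) + (change b K N f (un T) : ℕ))‖) := ⟨_, rfl⟩
  have hSc := h0 K (by omega) (uz z) hu g hg1 N₁ hN₁ N hN f hf r hr hr' S (by rw [hS]; exact filter_subset _ _) (by
    intro T hT
    rw [hS, mem_filter] at hT
    exact hT.2)
  have hbK0 : (0 : ℝ) < (b : ℝ) ^ K := by positivity
  have hD : Real.log ((2 * b ^ K : ℕ) : ℝ) + (Vz z)⁻¹ ≤ (K : ℝ) ^ 2 := by
    have e1 : Real.log ((2 * b ^ K : ℕ) : ℝ) ≤ L' := by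
      rw [hL']
      apply Real.log_le_log (by exact_mod_cast Nat.mul_pos (by norm_num) (Nat.pow_pos (by omega)))
      have : 2 * b ^ K ≤ b ^ (K + 1) := by rw [pow_succ']; exact Nat.mul_le_mul_right _ hb
      exact_mod_cast this
    have e2 : L ≤ b * K := by rw [hLK]; nlinarith
    have e3 : (4 * b) * (K : ℝ) ≤ K * K := mul_le_mul_of_nonneg_right (by linarith) hK0.le
    have e4 : 0 ≤ (b : ℝ) * K := by positivity
    nlinarith
  have hpt : ∀ T ∈ Ch b A K r, Fy T ≤ Kc * ((b : ℝ) ^ K / (K : ℝ) ^ (V + 3)) + (if T ∈ S then Kc * ((b : ℝ) ^ K * (K : ℝ) ^ 2) else 0) := by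
    intro T hT
    by_cases h : T ∈ S
    · rw [if_pos h]
      have e1 : Fy T ≤ Kc * ((b : ℝ) ^ K * (K : ℝ) ^ 2) := by
        rw [hFy]
        exact triv_P b K z hb (by omega) N₁ _ hN₁ (change_lt b K N (by omega) f (fun j => (hf j).1) _).le Kc hKc G hG _ hD
      have e2 : 0 ≤ Kc * ((b : ℝ) ^ K / (K : ℝ) ^ (V + 3)) := by positivity
      linarith
    · rw [if_neg h, add_zero, hrel]
      apply mul_le_mul_of_nonneg_left _ hKc.le
      by_contra hcon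
      push Not at hcon
      apply h
      rw [hS, mem_filter]
      exact ⟨hT, hcon⟩
  have hsum := sum_le_sum hpt
  rw [sum_add_distrib, sum_const, nsmul_eq_mul, ← sum_filter, sum_const, nsmul_eq_mul] at hsum
  have hSS : (Ch b A K r).filter (fun T => T ∈ S) = S := by
    rw [filter_mem_eq_inter, inter_eq_right, hS]
    exact filter_subset _ _
  rw [hSS] at hsum
  have hgoal : ∑ T ∈ Ch b A K r, |∑ n ∈ Icc 1 N₁, G n * (lamI ((n : ℤ) + ((change b K N f (un T) : ℕ) : ℤ)) -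
      lamzI z ((n : ℤ) + ((change b K N f (un T) : ℕ) : ℤ)))| = ∑ T ∈ Ch b A K r, Fy T := by rw [hFy]
  rw [hgoal]
  refine hsum.trans ?_
  have e5 : (S.card : ℝ) * (Kc * ((b : ℝ) ^ K * (K : ℝ) ^ 2)) ≤ (1 / (K : ℝ) ^ (V + 3) * (Ch b A K r).card) * (Kc * ((b : ℝ) ^ K * (K : ℝ) ^ 2)) :=
    mul_le_mul_of_nonneg_right hSc (by positivity)
  have e6 : 2 * (1 / K : ℝ) ≤ 1 := by
    rw [mul_one_div, div_le_one hK0]
    linarith
  have e7 : (1 : ℝ) / K ^ 3 ≤ 1 / K := by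
    apply one_div_le_one_div_of_le hK0
    exact le_self_pow₀ (by linarith) (by norm_num)
  have hc0 : (0 : ℝ) ≤ (Ch b A K r).card := Nat.cast_nonneg _
  calc ((Ch b A K r).card : ℝ) * (Kc * ((b : ℝ) ^ K / (K : ℝ) ^ (V + 3))) + (S.card : ℝ) * (Kc * ((b : ℝ) ^ K * (K : ℝ) ^ 2))
      ≤ ((Ch b A K r).card : ℝ) * (Kc * ((b : ℝ) ^ K / (K : ℝ) ^ (V + 3))) + (1 / (K : ℝ) ^ (V + 3) * (Ch b A K r).card) * (Kc * ((b : ℝ) ^ K * (K : ℝ) ^ 2)) := by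
        linarith
    _ = (1 / K ^ 3 + 1 / K) * (Kc * ((b : ℝ) ^ K / (K : ℝ) ^ V) * (Ch b A K r).card) := by
        rw [show (K : ℝ) ^ (V + 3) = K ^ V * K ^ 3 by ring]
        field_simp
    _ ≤ 1 * (Kc * ((b : ℝ) ^ K / (K : ℝ) ^ V) * (Ch b A K r).card) := by
        apply mul_le_mul_of_nonneg_right _ (by positivity)
        linarith
    _ = _ := one_mul _

end Pool.Agent.TH894.LG
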