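import Pool.Agent.TH894.LG5

set_option autoImplicit false

/-! Correlations with a nice function at shifts which arise by few changes of digits, with savings of powers of
the logarithm: many functions, all lengths. -/

namespace Pool.Agent.TH894.LG
open Finset
open Pool.Agent.H373R2.T7 (SupSmall exI)
open Pool.Agent.W93.DG
open Pool.Agent.W93.LM (FC FC_pars Nice spread)
open Pool.Agent.TH894.SM (change change_lt Win Win_sub un dl_abs)

lemma pow_le_two_pow (V : ℕ) : ∃ k₀ : ℕ, ∀ K : ℕ, k₀ ≤ K → K ^ V ≤ 2 ^ K := by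
  have h := (isLittleO_pow_const_const_pow_of_one_lt (R := ℝ) V (by norm_num : (1 : ℝ) < 2)).bound (by norm_num : (0 : ℝ) < 1)
  obtain ⟨k₀, hk⟩ := Filter.eventually_atTop.1 h
  refine ⟨k₀, fun K hK => ?_⟩
  have h1 := hk K hK
  rw [one_mul, Real.norm_of_nonneg (by positivity), Real.norm_of_nonneg (by positivity)] at h1
  exact_mod_cast h1

lemma exI_le (u : ℕ → ℂ) (hu : ∀ n, ‖u n‖ ≤ 1) (y : ℤ) : ‖exI u y‖ ≤ 1 := by
  unfold exI
  split_ifs
  · exact hu _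
  · rw [norm_zero]; norm_num

/-- few choices are exceptional, for many functions and all lengths -/
theorem final_L (b : ℕ) (hb : 2 ≤ b) : ∃ R : ℕ, 1 ≤ R ∧ ∀ U T P : ℕ, ∃ C₁ : ℕ, 1 ≤ C₁ ∧ ∀ u : ℕ → ℂ, Nice u → ∀ A₀ : ℕ, ∃ A : ℕ, A₀ ≤ A ∧
    ∃ k₀ : ℕ, ∀ K : ℕ, k₀ ≤ K → ∀ N : ℕ, N < b ^ K → ∀ f : ℕ → ℕ, (∀ j, f j < b ∧ f j ≠ N / b ^ j % b) →
    ∀ r : Fin 3 → ℕ, (∀ q, C₁ * (Nat.log b (K + 1) + 1) ≤ r q) → (∀ q, 8 * R * r q ≤ (Win (hh b A (K + 1)) (K + 1) q).card) →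
    ∀ L : ℕ, L ≤ K ^ T → ∀ (a : Fin L → ℕ) (g : Fin L → ℕ → ℂ), (∀ l, 1 ≤ a l) →
      (∀ l n, 1 ≤ n → a l * n ≤ b ^ K → ‖g l n‖ ≤ (K : ℝ) ^ P) →
    ∀ S ⊆ Ch b A K r,
    (∀ T ∈ S, ∃ l, ∃ X, a l * X ≤ b ^ K ∧
      (b : ℝ) ^ K / (K : ℝ) ^ U < ‖∑ n ∈ Icc 1 X, g l n * exI u (((a l * n : ℕ) : ℤ) + (change b K N f (un T) : ℕ))‖) →
    (S.card : ℝ) ≤ 1 / (K : ℝ) ^ U * (Ch b A K r).card := by
  classical
  obtain ⟨R, hR, hUo⟩ := Uok_nice b hb
  refine ⟨R, hR, fun U Tt P => ?_⟩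
  obtain ⟨V', hV'⟩ : ∃ V', V' = U + P + 2 := ⟨_, rfl⟩
  obtain ⟨V, hV⟩ : ∃ V, V = Tt + V' + U + P + 3 := ⟨_, rfl⟩
  obtain ⟨C₁, hC₁, hcount⟩ := count_K b hb R hR V
  refine ⟨C₁, by omega, fun u hu A₀ => ?_⟩
  obtain ⟨A, hA, k1, h1⟩ := hUo u hu (2 * (3 * V + 6) + 6) (A₀ + 5 * C₁ ^ 2)
  obtain ⟨k2, h2⟩ := hcount A (by omega)
  obtain ⟨k3, h3⟩ := pow_le_two_pow V'
  refine ⟨A, by omega, k1 + k2 + k3 + 4, fun K hK N hN f hf r hr hr' L hL a g ha hg S hS hSb => ?_⟩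
  have hbr : (2 : ℝ) ≤ b := by exact_mod_cast hb
  have hK4 : (4 : ℝ) ≤ K := by exact_mod_cast (by omega : 4 ≤ K)
  have hK0 : (0 : ℝ) < K := by linarith
  have hKn : 0 < K := by omega
  have hbK : 0 < b ^ K := Nat.pow_pos (by omega)
  have hKV : 0 < K ^ V' := Nat.pow_pos hKn
  obtain ⟨D, hD⟩ : ∃ D, D = b ^ K / K ^ V' + 1 := ⟨_, rfl⟩
  have hD0 : 0 < D := by rw [hD]; exact Nat.succ_pos _
  have hDr : (D : ℝ) ≤ 2 * ((b : ℝ) ^ K / (K : ℝ) ^ V') := by
    have e1 : ((b ^ K / K ^ V' : ℕ) : ℝ) ≤ (b : ℝ) ^ K / (K : ℝ) ^ V' := by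
      have := @Nat.cast_div_le ℝ _ _ _ (b ^ K) (K ^ V')
      push_cast at this
      exact this
    have e2 : 1 ≤ (b : ℝ) ^ K / (K : ℝ) ^ V' := by
      rw [le_div_iff₀ (by positivity), one_mul]
      have : K ^ V' ≤ b ^ K := (h3 K (by omega)).trans (Nat.pow_le_pow_left hb K)
      exact_mod_cast this
    rw [hD]
    push_cast
    push_cast at e1
    linarith
  have hjK : ∀ j : ℕ, j * D ≤ b ^ K → j < K ^ V' := by
    intro j hj
    by_contra hcon
    push Not at hcon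
    have e1 : K ^ V' * D ≤ b ^ K := le_trans (Nat.mul_le_mul_right _ hcon) hj
    have e2 : b ^ K < K ^ V' * D := by
      rw [hD]
      exact Nat.lt_mul_div_succ (b ^ K) hKV
    omega
  obtain ⟨G, hG⟩ : ∃ G : Fin L → ℕ → ℂ, G = fun l m => if 1 ≤ m ∧ m ≤ b ^ K ∧ a l ∣ m then g l (m / a l) / ((K : ℂ) ^ P) else 0 := ⟨_, rfl⟩
  have hG1 : ∀ l m, ‖G l m‖ ≤ 1 := by
    intro l m
    rw [hG]
    simp only
    split_ifs with h
    · obtain ⟨h4, h5, h6⟩ := h
      obtain ⟨c, rfl⟩ := h6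
      have hal := ha l
      rw [Nat.mul_div_cancel_left c (by omega), norm_div, norm_pow, Complex.norm_natCast, div_le_one (by positivity)]
      apply hg l c _ h5
      by_contra hcon
      have : c = 0 := by omega
      rw [this, mul_zero] at h4
      omega
    · rw [norm_zero]; norm_num
  -- the pieces
  obtain ⟨Sp, hSp⟩ : ∃ Sp : Fin L → ℕ → Finset (Fin 3 → Finset ℕ), Sp = fun l j => S.filter (fun T => j * D ≤ b ^ K ∧
      (b : ℝ) ^ K / (K : ℝ) ^ V < ‖∑ m ∈ Icc 1 (j * D), G l m * exI u ((m : ℤ) + (change b K N f (un T) : ℕ))‖) := ⟨_, rfl⟩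
  have hpiece : ∀ l j, ((Sp l j).card : ℝ) ≤ 1 / (K : ℝ) ^ V * (Ch b A K r).card := by
    intro l j
    by_cases hj : j * D ≤ b ^ K
    · apply h2 K (by omega) u (h1 (K + 1) (by omega)) (G l) (hG1 l) (j * D) hj N hN f hf r hr hr' (Sp l j)
      · rw [hSp]; exact (filter_subset _ _).trans hS
      · intro T hT
        rw [hSp, mem_filter] at hT
        exact hT.2.2
    · have : Sp l j = ∅ := by
        rw [hSp]
        apply filter_eq_empty_iff.2
        intro T _ h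
        exact hj h.1
      rw [this, card_empty]
      push_cast
      positivity
  have hcover : S ⊆ univ.biUnion (fun l : Fin L => (range (K ^ V')).biUnion (fun j => Sp l j)) := by
    intro T hT
    obtain ⟨l, X, hX, hbig⟩ := hSb T hT
    rw [mem_biUnion]
    refine ⟨l, mem_univ _, ?_⟩
    rw [mem_biUnion]
    have hj1 : a l * X / D * D ≤ a l * X := Nat.div_mul_le_self _ _
    have hj2 : a l * X / D * D ≤ b ^ K := hj1.trans hX
    refine ⟨a l * X / D, mem_range.2 (hjK _ hj2), ?_⟩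
    rw [hSp]
    refine mem_filter.2 ⟨hT, hj2, ?_⟩
    obtain ⟨y, hy⟩ : ∃ y : ℤ, y = (change b K N f (un T) : ℕ) := ⟨_, rfl⟩
    rw [← hy] at hbig ⊢
    rw [spread (fun m => exI u ((m : ℤ) + y)) (g l) (a l) X (ha l)] at hbig
    have e1 : ∑ m ∈ Icc 1 (a l * X), (if a l ∣ m then g l (m / a l) else 0) * exI u ((m : ℤ) + y) =
        (K : ℂ) ^ P * ∑ m ∈ Icc 1 (a l * X), G l m * exI u ((m : ℤ) + y) := by
      rw [mul_sum]
      apply sum_congr rfl
      intro m hm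
      rw [mem_Icc] at hm
      rw [hG]
      simp only
      have hKP : (K : ℂ) ^ P ≠ 0 := pow_ne_zero _ (by exact_mod_cast hKn.ne')
      by_cases hd : a l ∣ m
      · rw [if_pos hd, if_pos ⟨hm.1, hm.2.trans hX, hd⟩]
        field_simp
      · rw [if_neg hd, if_neg (fun h => hd h.2.2)]
        ring
    rw [e1, norm_mul, norm_pow, Complex.norm_natCast] at hbig
    have e2 : ∑ m ∈ Icc 1 (a l * X), G l m * exI u ((m : ℤ) + y) = ∑ m ∈ Icc 1 (a l * X / D * D), G l m * exI u ((m : ℤ) + y) +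
        ∑ m ∈ Ioc (a l * X / D * D) (a l * X), G l m * exI u ((m : ℤ) + y) := by
      rw [← sum_union]
      · congr 1
        ext m
        rw [mem_union, mem_Icc, mem_Icc, mem_Ioc]
        omega
      · rw [disjoint_left]
        intro m hm hm'
        rw [mem_Icc] at hm
        rw [mem_Ioc] at hm'
        omega
    have e3 : ‖∑ m ∈ Ioc (a l * X / D * D) (a l * X), G l m * exI u ((m : ℤ) + y)‖ ≤ D := by
      refine (norm_sum_le _ _).trans ?_
      have e4 : ∀ m ∈ Ioc (a l * X / D * D) (a l * X), ‖G l m * exI u ((m : ℤ) + y)‖ ≤ 1 := by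
        intro m _
        rw [norm_mul]
        exact mul_le_one₀ (hG1 l m) (norm_nonneg _) (exI_le u hu.1 _)
      refine (sum_le_sum e4).trans ?_
      rw [sum_const, Nat.card_Ioc, nsmul_eq_mul, mul_one]
      have e5 : a l * X - a l * X / D * D ≤ D := by
        have := Nat.div_add_mod (a l * X) D
        have h6 := Nat.mod_lt (a l * X) hD0
        rw [mul_comm] at this
        omega
      exact_mod_cast e5
    rw [e2] at hbig
    have e6 := norm_add_le (∑ m ∈ Icc 1 (a l * X / D * D), G l m * exI u ((m : ℤ) + y))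
      (∑ m ∈ Ioc (a l * X / D * D) (a l * X), G l m * exI u ((m : ℤ) + y))
    obtain ⟨Z, hZ⟩ : ∃ Z, Z = ‖∑ m ∈ Icc 1 (a l * X / D * D), G l m * exI u ((m : ℤ) + y)‖ := ⟨_, rfl⟩
    rw [← hZ] at e6 ⊢
    have e7 : (b : ℝ) ^ K / (K : ℝ) ^ U < (K : ℝ) ^ P * (Z + D) := lt_of_lt_of_le hbig
      (mul_le_mul_of_nonneg_left (e6.trans (by linarith)) (by positivity))
    have e8 : (b : ℝ) ^ K / (K : ℝ) ^ (U + P) < Z + D := by
      rw [pow_add, ← div_div, div_lt_iff₀ (by positivity), mul_comm]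
      exact e7
    have e9 : (D : ℝ) ≤ (b : ℝ) ^ K / (K : ℝ) ^ (U + P) * (2 / K ^ 2) := by
      refine hDr.trans (le_of_eq ?_)
      rw [hV', pow_add (K : ℝ) (U + P) 2]
      field_simp
    have e10 : (b : ℝ) ^ K / (K : ℝ) ^ V ≤ (b : ℝ) ^ K / (K : ℝ) ^ (U + P) * (1 / K) := by
      have : (b : ℝ) ^ K / (K : ℝ) ^ (U + P) * (1 / K) = (b : ℝ) ^ K / (K : ℝ) ^ (U + P + 1) := by
        rw [pow_succ]; field_simp
      rw [this]
      apply div_le_div_of_nonneg_left (by positivity) (by positivity)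
      exact pow_le_pow_right₀ (by linarith) (by omega)
    have e11 : (2 : ℝ) / K ^ 2 + 1 / K ≤ 1 := by
      rw [div_add_div _ _ (by positivity) (by positivity), div_le_one (by positivity)]
      nlinarith
    have e12 : 0 < (b : ℝ) ^ K / (K : ℝ) ^ (U + P) := by positivity
    have e13 : (b : ℝ) ^ K / (K : ℝ) ^ (U + P) * (2 / K ^ 2 + 1 / K) ≤ (b : ℝ) ^ K / (K : ℝ) ^ (U + P) * 1 :=
      mul_le_mul_of_nonneg_left e11 e12.le
    nlinarith
  have hc0 : (0 : ℝ) ≤ (Ch b A K r).card := Nat.cast_nonneg _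
  have hLr : (L : ℝ) ≤ (K : ℝ) ^ Tt := by exact_mod_cast hL
  calc (S.card : ℝ) ≤ ((univ.biUnion (fun l : Fin L => (range (K ^ V')).biUnion (fun j => Sp l j))).card : ℝ) := by
        exact_mod_cast card_le_card hcover
    _ ≤ ∑ l : Fin L, ∑ j ∈ range (K ^ V'), ((Sp l j).card : ℝ) := by
        have e1 : (univ.biUnion (fun l : Fin L => (range (K ^ V')).biUnion (fun j => Sp l j))).card ≤
            ∑ l : Fin L, ∑ j ∈ range (K ^ V'), (Sp l j).card :=
          card_biUnion_le.trans (sum_le_sum fun l _ => card_biUnion_le)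
        exact_mod_cast e1
    _ ≤ ∑ _l : Fin L, ∑ _j ∈ range (K ^ V'), 1 / (K : ℝ) ^ V * (Ch b A K r).card := sum_le_sum fun l _ => sum_le_sum fun j _ => hpiece l j
    _ = L * ((K : ℝ) ^ V' * (1 / (K : ℝ) ^ V * (Ch b A K r).card)) := by
        rw [sum_const, sum_const, card_univ, Fintype.card_fin, card_range, nsmul_eq_mul, nsmul_eq_mul]
        push_cast
        ring
    _ ≤ (K : ℝ) ^ Tt * ((K : ℝ) ^ V' * (1 / (K : ℝ) ^ V * (Ch b A K r).card)) := mul_le_mul_of_nonneg_right hLr (by positivity)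
    _ = 1 / (K : ℝ) ^ (P + 3) * (1 / (K : ℝ) ^ U * (Ch b A K r).card) := by
        rw [hV, show (K : ℝ) ^ (Tt + V' + U + P + 3) = K ^ Tt * K ^ V' * K ^ U * K ^ (P + 3) by ring]
        field_simp
    _ ≤ 1 * (1 / (K : ℝ) ^ U * (Ch b A K r).card) := by
        apply mul_le_mul_of_nonneg_right _ (by positivity)
        rw [div_le_one (by positivity)]
        exact one_le_pow₀ (by linarith)
    _ = _ := one_mul _

end Pool.Agent.TH894.LG
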