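import Pool.Agent.TH894.LG5

set_option autoImplicit false

/-! Few sets of positions are exceptional: the shift moved by a constant. -/

namespace Pool.Agent.TH894.LG
open Finset
open Pool.Agent.H807R2.Dav
open Pool.Agent.H373R2.T7
open Pool.Agent.W93.DG
open Pool.Agent.W93.RD (EE)
open Pool.Agent.W93.LM (FC FC_pars Nice bad_sqC EE_corrC)
open Pool.Agent.W93.TD (G_sq bad_sq)
open Pool.Agent.TH894.SM (Ph Om nw card_Om dl Pos mu mu_pos Ph_le change change_lt Win Win_sub un)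
open Pool.Agent.TH894.CW (change_succ)

lemma EE_period (A : ℕ → ℂ) (M : ℕ) (hM : 1 ≤ M) (a : ℤ) : EE A M (a + (M : ℤ)) = EE A M a := by
  unfold EE
  apply sum_congr rfl
  intro r _
  congr 1
  have hM0 : (M : ℝ) ≠ 0 := by exact_mod_cast (by omega : M ≠ 0)
  have e1 : -(((a + (M : ℤ) : ℤ) : ℝ) * ((r : ℝ) / (M : ℝ))) = -((a : ℝ) * ((r : ℝ) / (M : ℝ))) + ((-(r : ℤ) : ℤ) : ℝ) := by
    push_cast
    field_simp
    ring
  rw [e1, ee_add_int]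

/-- few sets of positions are exceptional: the shift is moved by a constant -/
theorem count_logc (b : ℕ) (hb : 2 ≤ b) (R : ℕ) (hR : 1 ≤ R) (V : ℕ) : ∃ C₁ : ℕ, 4 ≤ C₁ ∧ ∀ A : ℕ, 5 * C₁ ^ 2 ≤ A → ∃ k₀ : ℕ, ∀ K : ℕ, k₀ ≤ K →
    ∀ u : ℕ → ℂ, Uok b R A K (2 * (3 * V + 6) + 6) u → ∀ g : ℕ → ℂ, (∀ n, ‖g n‖ ≤ 1) → ∀ N₁ ≤ b ^ (K - 1),
    ∀ c : ℤ, -((b : ℤ) ^ (K - 1) + 1) ≤ c → c ≤ 0 → ∀ N : ℕ, N < b ^ K → ∀ f : ℕ → ℕ, (∀ j, f j < b ∧ f j ≠ N / b ^ j % b) →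
    ∀ r : Fin 3 → ℕ, (∀ q, C₁ * (Nat.log b K + 1) ≤ r q) → (∀ q, 8 * R * r q ≤ (Win (hh b A K) K q).card) →
    ∀ S ⊆ Fintype.piFinset (fun q => powersetCard (r q) (Win (hh b A K) K q)),
    (∀ T ∈ S, change b K N f (un T) < b ^ (K - 1) ∧
      (b : ℝ) ^ (K - 1) / (K : ℝ) ^ V < ‖∑ n ∈ Icc 1 N₁, g n * exI u ((n : ℤ) + ((change b K N f (un T) : ℕ) + c))‖) →
    (S.card : ℝ) ≤ 1 / (K : ℝ) ^ V * ∏ q, ((Win (hh b A K) K q).card.choose (r q) : ℝ) := by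
  classical
  obtain ⟨C₁, hC₁, hsec⟩ := second_log b hb R hR (3 * V + 6)
  refine ⟨C₁, hC₁, fun A hA => ?_⟩
  have hA3 : 3 ≤ A := by
    have : 5 * 4 ^ 2 ≤ 5 * C₁ ^ 2 := Nat.mul_le_mul_left _ (Nat.pow_le_pow_left hC₁ 2)
    omega
  obtain ⟨k0, h0⟩ := hsec A hA3
  obtain ⟨k1, h1⟩ := few_sets b hb R A C₁ hR (by omega) hA
  obtain ⟨k2, h2⟩ := hh_small b A 4 hb
  refine ⟨k0 + k1 + k2 + b ^ 2 + 4, fun K hK u hu g hg N₁ hN₁ c hc1 hc2 N hN f hf r hr hr' S hS hSb => ?_⟩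
  have hbn : 0 < b := by omega
  have hbr : (2 : ℝ) ≤ b := by exact_mod_cast hb
  have hb0 : (0 : ℝ) < b := by linarith
  have hK0 : (0 : ℝ) < K := by exact_mod_cast (by omega : 0 < K)
  obtain ⟨Y, hY⟩ : ∃ Y : ℝ, Y = (b : ℝ) ^ (K - 1) := ⟨_, rfl⟩
  have hY0 : 0 < Y := by rw [hY]; positivity
  obtain ⟨X, hX⟩ : ∃ X, X = b ^ K := ⟨_, rfl⟩
  obtain ⟨M, hM⟩ : ∃ M, M = b ^ (K + 1) := ⟨_, rfl⟩
  have hXM : X ≤ M := by rw [hX, hM]; exact Nat.pow_le_pow_right hbn (by omega)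
  have hXK : X = b ^ (K - 1) * b := by rw [hX, ← pow_succ]; congr 1; omega
  have hMX : M = b * X := by rw [hM, hX, pow_succ']
  have hX1 : 1 ≤ X := by rw [hX]; exact Nat.one_le_pow _ _ (by omega)
  have hXr : (X : ℝ) = Y * b := by rw [hXK, hY]; push_cast; ring
  have h2X : 2 * b ^ (K - 1) ≤ X := by rw [hXK, mul_comm]; exact Nat.mul_le_mul_left _ hb
  have hbK3 : 2 < b ^ (K - 1) := lt_of_lt_of_le (by omega : 2 < K - 1) (Nat.lt_pow_self (by omega)).le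
  have hX2 : b ^ (K - 1) + 1 < X := by omega
  have hM1 : b ^ (K - 1) + 1 ≤ M := by omega
  have hM0 : (0 : ℝ) < M := by
    rw [hMX]; push_cast
    have : (0 : ℝ) < X := by exact_mod_cast hX1
    positivity
  -- the function
  obtain ⟨g', hg'⟩ : ∃ g' : ℕ → ℂ, g' = fun n => if n ≤ N₁ then g n else 0 := ⟨_, rfl⟩
  have hg'1 : ∀ n, ‖g' n‖ ≤ 1 := by
    intro n
    rw [hg']
    simp only
    split_ifs
    · exact hg n
    · rw [norm_zero]; norm_num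
  have hg2 : ∑ r ∈ range M, ‖FC (fun n => (starRingEnd ℂ) (g' n)) X M r‖ ^ 2 ≤ M * X := by
    rw [FC_pars _ X M (by omega) hXM]
    apply mul_le_mul_of_nonneg_left _ hM0.le
    refine (sum_le_sum (fun n _ => pow_le_one₀ (norm_nonneg _) ?_)).trans (le_of_eq ?_)
    · rw [RCLike.norm_conj]; exact hg'1 n
    · rw [sum_const, Nat.card_Icc, nsmul_eq_mul, Nat.add_sub_cancel, mul_one]
  obtain ⟨hu1, hu2⟩ := hu
  have key : (S.card : ℝ) ≤ (1 / (K : ℝ) ^ (V + 4)) * (K : ℝ) ^ 4 * ∏ q, ((Win (hh b A K) K q).card.choose (r q) : ℝ) := by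
    refine few_general b hb R A K (C₁ * (Nat.log b K + 1)) (by omega) (h2 K (by omega))
      (fun y => 0 ≤ y ∧ y < (b : ℤ) ^ (K - 1) ∧ (b : ℝ) ^ (K - 1) / (K : ℝ) ^ V < ‖∑ n ∈ Icc 1 N₁, g n * exI u ((n : ℤ) + (y + c))‖) _
      ?_ N hN f hf r hr hr' hR S hS ?_
    · intro N' e he J hJ
      refine h1 K (by omega) (fun y => 0 ≤ y ∧ y < (b : ℤ) ^ (K - 1) ∧ (b : ℝ) ^ (K - 1) / (K : ℝ) ^ V < ‖∑ n ∈ Icc 1 N₁, g n * exI u ((n : ℤ) + (y + c))‖)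
        (1 / (K : ℝ) ^ (V + 4)) (by positivity) N' e he J hJ ?_
      intro Z hZ hZb
      have hbase : (((N' : ℤ) + c + (M : ℤ)).toNat : ℤ) = (N' : ℤ) + c + (M : ℤ) := by
        apply Int.toNat_of_nonneg
        have g1 : ((b ^ (K - 1) : ℕ) : ℤ) = (b : ℤ) ^ (K - 1) := by push_cast; ring
        have g2 : ((b ^ (K - 1) + 1 : ℕ) : ℤ) ≤ ((M : ℕ) : ℤ) := by exact_mod_cast hM1
        push_cast at g2
        have g3 : (0 : ℤ) ≤ (N' : ℤ) := Int.natCast_nonneg _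
        omega
      have hnw : ∀ ω : Fin 3 × Fin (C₁ * (Nat.log b K + 1)) → ℕ, nw b ((N' : ℤ) + c + (M : ℤ)).toNat e ω = nw b N' e ω + c + (M : ℤ) := by
        intro ω
        unfold nw
        rw [hbase]
        ring
      have hmom := h0 K (by omega) ((N' : ℤ) + c + (M : ℤ)).toNat e he J hJ _ le_rfl (FC (fun n => (starRingEnd ℂ) (g' n)) X M) (FC u X M)
        (by rw [← hM, ← hX]; exact hg2) (by rw [hM, hX]; exact hu1) (by rw [hM, hX]; exact hu2)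
      obtain ⟨E, hE⟩ : ∃ E : (Fin 3 × Fin (C₁ * (Nat.log b K + 1)) → ℕ) → ℂ, E = fun ω => EE (fun r => (starRingEnd ℂ) (FC (fun n => (starRingEnd ℂ) (g' n)) X M r) *
        FC u X M r) M (nw b N' e ω + c) := ⟨_, rfl⟩
      rw [← hM, ← hX] at hmom
      simp only [hnw, EE_period _ M (by omega)] at hmom
      have h3 : ∀ ω ∈ Z, (M * (Y / (K : ℝ) ^ V)) ^ 2 ≤ ‖E ω‖ ^ 2 := by
        intro ω hω
        obtain ⟨hy0, hy1, hω2⟩ := hZb ω hω
        apply pow_le_pow_left₀ (by positivity)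
        have hbK : ((b ^ (K - 1) : ℕ) : ℤ) = (b : ℤ) ^ (K - 1) := by push_cast; ring
        have h5 := EE_corrC g' u X M N₁ hX1 (by rw [hMX]; exact Nat.mul_le_mul_right _ hb) (by omega)
          (fun n hn => by rw [hg']; simp only; rw [if_neg (by omega)]) (nw b N' e ω + c) (by
            have g2 : ((b ^ (K - 1) + 1 : ℕ) : ℤ) < ((X : ℕ) : ℤ) := by exact_mod_cast hX2
            push_cast at g2
            omega) (by
            have : ((N₁ : ℕ) : ℤ) ≤ ((b ^ (K - 1) : ℕ) : ℤ) := by exact_mod_cast hN₁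
            have h4 : ((2 * b ^ (K - 1) : ℕ) : ℤ) ≤ (X : ℤ) := by exact_mod_cast h2X
            rw [Nat.cast_mul, hbK] at h4
            rw [hbK] at this
            push_cast at this h4 ⊢
            linarith)
        rw [hE]
        simp only
        rw [h5, norm_mul, Complex.norm_natCast]
        apply mul_le_mul_of_nonneg_left _ hM0.le
        rw [hY]
        refine hω2.le.trans (le_of_eq ?_)
        congr 1
        apply sum_congr rfl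
        intro n hn
        rw [mem_Icc] at hn
        rw [hg']
        simp only
        rw [if_pos hn.2]
        rfl
      have h4 : (Z.card : ℝ) * (M * (Y / (K : ℝ) ^ V)) ^ 2 ≤ ((M : ℝ) * X) ^ 2 / (K : ℝ) ^ (3 * V + 6) * (Om J (C₁ * (Nat.log b K + 1))).card := by
        rw [← nsmul_eq_mul]
        refine (card_nsmul_le_sum _ _ _ h3).trans ?_
        refine (sum_le_sum_of_subset_of_nonneg hZ fun ω _ _ => sq_nonneg _).trans ?_
        rw [hE]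
        exact hmom
      rw [← card_Om]
      have h5 : ((M : ℝ) * X) ^ 2 / (K : ℝ) ^ (3 * V + 6) * (Om J (C₁ * (Nat.log b K + 1))).card ≤
          (1 / (K : ℝ) ^ (V + 4) * (Om J (C₁ * (Nat.log b K + 1))).card) * (M * (Y / (K : ℝ) ^ V)) ^ 2 := by
        have h6 : ((b : ℝ)) ^ 2 ≤ K := by
          have : ((b ^ 2 : ℕ) : ℝ) ≤ K := by exact_mod_cast (by omega : b ^ 2 ≤ K)
          exact_mod_cast this
        rw [hXr]
        have e1 : ((M : ℝ) * (Y * b)) ^ 2 / (K : ℝ) ^ (3 * V + 6) * (Om J (C₁ * (Nat.log b K + 1))).card =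
            (b : ℝ) ^ 2 * ((M * Y) ^ 2 / (K : ℝ) ^ (3 * V + 6) * (Om J (C₁ * (Nat.log b K + 1))).card) := by ring
        have e2 : (1 / (K : ℝ) ^ (V + 4) * (Om J (C₁ * (Nat.log b K + 1))).card) * (M * (Y / (K : ℝ) ^ V)) ^ 2 =
            (K : ℝ) ^ 2 * ((M * Y) ^ 2 / (K : ℝ) ^ (3 * V + 6) * (Om J (C₁ * (Nat.log b K + 1))).card) := by
          rw [show (K : ℝ) ^ (3 * V + 6) = K ^ (V + 4) * K ^ 2 * (K ^ V) ^ 2 by ring]
          field_simp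
        rw [e1, e2]
        apply mul_le_mul_of_nonneg_right _ (by positivity)
        have h7 : (1 : ℝ) ≤ K := by exact_mod_cast (by omega : 1 ≤ K)
        nlinarith
      exact le_of_mul_le_mul_right (h4.trans h5) (by positivity)
    · intro T hT
      obtain ⟨h3, h4⟩ := hSb T hT
      exact ⟨Int.natCast_nonneg _, by exact_mod_cast h3, h4⟩
  refine key.trans (le_of_eq ?_)
  congr 1
  rw [show (K : ℝ) ^ (V + 4) = K ^ V * K ^ 4 by ring]
  field_simp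


/-- numbers with at most `K` digits -/
theorem count_Kc (b : ℕ) (hb : 2 ≤ b) (R : ℕ) (hR : 1 ≤ R) (V : ℕ) : ∃ C₁ : ℕ, 4 ≤ C₁ ∧ ∀ A : ℕ, 5 * C₁ ^ 2 ≤ A → ∃ k₀ : ℕ, ∀ K : ℕ, k₀ ≤ K →
    ∀ u : ℕ → ℂ, Uok b R A (K + 1) (2 * (3 * V + 6) + 6) u → ∀ g : ℕ → ℂ, (∀ n, ‖g n‖ ≤ 1) → ∀ N₁ ≤ b ^ K,
    ∀ c : ℤ, -((b : ℤ) ^ K + 1) ≤ c → c ≤ 0 →
    ∀ N : ℕ, N < b ^ K → ∀ f : ℕ → ℕ, (∀ j, f j < b ∧ f j ≠ N / b ^ j % b) →
    ∀ r : Fin 3 → ℕ, (∀ q, C₁ * (Nat.log b (K + 1) + 1) ≤ r q) → (∀ q, 8 * R * r q ≤ (Win (hh b A (K + 1)) (K + 1) q).card) →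
    ∀ S ⊆ Ch b A K r, (∀ T ∈ S, (b : ℝ) ^ K / (K : ℝ) ^ V < ‖∑ n ∈ Icc 1 N₁, g n * exI u ((n : ℤ) + ((change b K N f (un T) : ℕ) + c))‖) →
    (S.card : ℝ) ≤ 1 / (K : ℝ) ^ V * (Ch b A K r).card := by
  classical
  obtain ⟨C₁, hC₁, h⟩ := count_logc b hb R hR V
  refine ⟨C₁, hC₁, fun A hA => ?_⟩
  obtain ⟨k0, h0⟩ := h A hA
  obtain ⟨k2, h2⟩ := hh_small b A 4 hb
  refine ⟨k0 + k2 + 16, fun K hK u hu g hg N₁ hN₁ c hc1 hc2 N hN f hf r hr hr' S hS hSb => ?_⟩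
  have hh2 := h2 (K + 1) (by omega)
  have hNK : N < b ^ (K + 1) := hN.trans (Nat.pow_lt_pow_right (by omega) (by omega))
  have hK0 : (0 : ℝ) < K := by exact_mod_cast (by omega : 0 < K)
  have e1 := h0 (K + 1) (by omega) u hu g hg N₁ (by rw [Nat.add_sub_cancel]; exact hN₁) c (by rw [Nat.add_sub_cancel]; exact hc1) hc2
    N hNK f hf r hr hr' S hS ?_
  · rw [← card_Ch] at e1
    refine e1.trans ?_
    apply mul_le_mul_of_nonneg_right _ (Nat.cast_nonneg _)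
    apply one_div_le_one_div_of_le (by positivity)
    apply pow_le_pow_left₀ hK0.le
    push_cast
    linarith
  · intro T hT
    have hKT : K ∉ un T := by
      intro hx
      have := mem_Ico.1 (un_Ch b A K (by omega) r T (hS hT) hx)
      omega
    rw [change_succ b K N hN f _ hKT, Nat.add_sub_cancel]
    refine ⟨change_lt b K N (by omega) f (fun j => (hf j).1) _, lt_of_le_of_lt ?_ (hSb T hT)⟩
    apply div_le_div_of_nonneg_left (by positivity) (by positivity)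
    apply pow_le_pow_left₀ hK0.le
    push_cast
    linarith

end Pool.Agent.TH894.LG
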