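import Pool.Agent.TH894.LG7
import Pool.Agent.TH894.LG8
import Pool.Agent.W93.AU17

set_option autoImplicit false

/-! The primes: sums over `n + y` and over `y - n`, all lengths. -/

namespace Pool.Agent.TH894.LG
open Finset
open Pool.Agent.H807R2.Dav
open Pool.Agent.H373R2.T7
open Pool.Agent.W93.DG
open Pool.Agent.W93.AU (dI)
open Pool.Agent.TH894.SM (change change_lt Win Win_sub Win_disj un)
open Pool.Agent.TH894.CW (change_succ)

lemma exI_uz (z : ℕ) (k : ℤ) : exI (uz z) k = ((dI z k : ℝ) : ℂ) := by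
  unfold exI uz dI lamI lamzI
  split_ifs with h
  · rfl
  · simp

lemma refl_sum (M : ℕ) (F : ℕ → ℝ) : ∑ n ∈ Icc 1 M, F n = ∑ m ∈ Icc 1 M, F (M + 1 - m) := by
  apply sum_nbij' (fun n => M + 1 - n) (fun m => M + 1 - m)
  · intro n hn
    rw [mem_Icc] at hn ⊢
    omega
  · intro n hn
    rw [mem_Icc] at hn ⊢
    omega
  · intro n hn
    rw [mem_Icc] at hn
    omega
  · intro n hn
    rw [mem_Icc] at hn
    omega
  · intro n hn
    rw [mem_Icc] at hn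
    congr 1
    omega

/-- passing to a multiple of `D` -/
lemma grid_sum (H : ℕ → ℝ) (Bh : ℝ) (X D N' : ℕ) (hD : 0 < D) (hN' : N' ≤ X) (hH : ∀ n, 1 ≤ n → n ≤ X → |H n| ≤ Bh) (hBh : 0 ≤ Bh) :
    |∑ n ∈ Icc 1 N', H n| ≤ |∑ n ∈ Icc 1 (N' / D * D), H n| + D * Bh := by
  have hj1 : N' / D * D ≤ N' := Nat.div_mul_le_self _ _
  have e2 : ∑ m ∈ Icc 1 N', H m = ∑ m ∈ Icc 1 (N' / D * D), H m + ∑ m ∈ Ioc (N' / D * D) N', H m := by
    rw [← sum_union]
    · congr 1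
      ext m
      rw [mem_union, mem_Icc, mem_Icc, mem_Ioc]
      omega
    · rw [disjoint_left]
      intro m hm hm'
      rw [mem_Icc] at hm
      rw [mem_Ioc] at hm'
      omega
  rw [e2]
  refine (abs_add_le _ _).trans (add_le_add le_rfl ?_)
  refine (abs_sum_le_sum_abs _ _).trans ?_
  have e4 : ∀ m ∈ Ioc (N' / D * D) N', |H m| ≤ Bh := by
    intro m hm
    rw [mem_Ioc] at hm
    exact hH m (by omega) (by omega)
  refine (sum_le_sum e4).trans ?_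
  rw [sum_const, Nat.card_Ioc, nsmul_eq_mul]
  apply mul_le_mul_of_nonneg_right _ hBh
  have e5 : N' - N' / D * D ≤ D := by
    have := Nat.div_add_mod N' D
    have h6 := Nat.mod_lt N' hD
    rw [mul_comm] at this
    omega
  exact_mod_cast e5

/-- few choices are exceptional -/
theorem two_P (b : ℕ) (hb : 2 ≤ b) : ∃ R : ℕ, 1 ≤ R ∧ ∀ Tt U : ℕ, ∃ C₁ : ℕ, 1 ≤ C₁ ∧ ∀ A₀ : ℕ, ∃ A B : ℕ, A₀ ≤ A ∧ ∀ Ez : ℕ, ∃ k₀ : ℕ,
    ∀ K : ℕ, k₀ ≤ K → ∀ z : ℕ, Real.log ((b ^ K : ℕ) : ℝ) ^ B ≤ z → (z : ℝ) ≤ Real.log ((b ^ K : ℕ) : ℝ) ^ Ez →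
    ∀ N : ℕ, N < b ^ K → ∀ f : ℕ → ℕ, (∀ j, f j < b ∧ f j ≠ N / b ^ j % b) →
    ∀ r : Fin 3 → ℕ, (∀ q, C₁ * (Nat.log b (K + 1) + 1) ≤ r q) → (∀ q, 8 * R * r q ≤ (Win (hh b A (K + 1)) (K + 1) q).card) →
    ∀ G : ℕ → ℝ, (∀ n, |G n| ≤ (K : ℝ) ^ Tt) → ∀ S ⊆ Ch b A K r,
    (∀ T ∈ S, (∃ N' ≤ b ^ K, (b : ℝ) ^ K / (K : ℝ) ^ U < |∑ n ∈ Icc 1 N', G n * dI z ((n : ℤ) + ((change b K N f (un T) : ℕ) : ℤ))|) ∨
      (∃ N' ≤ b ^ K, (b : ℝ) ^ K / (K : ℝ) ^ U < |∑ n ∈ Icc 1 N', G n * dI z (((change b K N f (un T) : ℕ) : ℤ) - (n : ℤ))|)) →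
    (S.card : ℝ) ≤ 1 / (K : ℝ) ^ U * (Ch b A K r).card := by
  classical
  obtain ⟨R, hR, hU⟩ := Uok_lam b hb
  refine ⟨R, hR, fun Tt U => ?_⟩
  obtain ⟨V', hV'⟩ : ∃ V', V' = U + Tt + 4 := ⟨_, rfl⟩
  obtain ⟨V, hV⟩ : ∃ V, V = V' + U + Tt + 4 := ⟨_, rfl⟩
  obtain ⟨C₁, hC₁, hcount⟩ := count_Kc b hb R hR V
  refine ⟨C₁, by omega, fun A₀ => ?_⟩
  obtain ⟨A, B, hA, hB⟩ := hU (2 * (3 * V + 6) + 6) (A₀ + 5 * C₁ ^ 2)
  obtain ⟨k0, h0⟩ := hcount A (by omega)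
  refine ⟨A, B + 1, by omega, fun Ez => ?_⟩
  obtain ⟨k1, h1⟩ := hB (Ez + 1)
  obtain ⟨k2, h2⟩ := Vz_inv_small Ez
  obtain ⟨k3, h3⟩ := ev_L' (2 ^ B + 2)
  obtain ⟨k4, h4⟩ := pow_le_two_pow V'
  refine ⟨k0 + k1 + k2 + k3 + k4 + 4 * b + 4, fun K hK z hz1 hz2 N hN f hf r hr hr' G hG S hS hSb => ?_⟩
  have hb1 : 1 < b := by omega
  have hbr : (2 : ℝ) ≤ b := by exact_mod_cast hb
  have hKX : K < b ^ K := Nat.lt_pow_self hb1
  have hK0 : (0 : ℝ) < K := by exact_mod_cast (by omega : 0 < K)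
  have hKn : 0 < K := by omega
  have hKb : (4 * b + 4 : ℝ) ≤ K := by exact_mod_cast (by omega : 4 * b + 4 ≤ K)
  obtain ⟨L, hL⟩ : ∃ L, L = Real.log ((b ^ K : ℕ) : ℝ) := ⟨_, rfl⟩
  obtain ⟨L', hL'⟩ : ∃ L', L' = Real.log ((b ^ (K + 1) : ℕ) : ℝ) := ⟨_, rfl⟩
  have hlb : 0 < Real.log b := Real.log_pos (by linarith)
  have hlb2 : Real.log b ≤ b := (Real.log_le_sub_one_of_pos (by linarith)).trans (by linarith)
  have hLK : L = (K : ℝ) * Real.log b := by rw [hL]; push_cast; rw [Real.log_pow]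
  have hLK' : L' = ((K : ℝ) + 1) * Real.log b := by rw [hL']; push_cast; rw [Real.log_pow]; push_cast; ring
  have hLL' : L ≤ L' := by rw [hLK, hLK']; nlinarith
  have hL'2 : L' ≤ 2 * L := by rw [hLK, hLK']; nlinarith
  have hLbig := h3 (b ^ K) (by omega)
  rw [← hL] at hLbig hz1 hz2
  have hp2 : (0 : ℝ) < 2 ^ B := by positivity
  have hL1 : 1 ≤ L := by linarith
  have hL0 : 0 < L := by linarith
  have hz : 1 ≤ z := by
    have : (1 : ℝ) ≤ z := (one_le_pow₀ hL1).trans hz1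
    exact_mod_cast this
  have hVz := h2 (b ^ K) (by omega) z hz (by rw [← hL]; exact hz2)
  rw [← hL] at hVz
  have hu := h1 (K + 1) (by omega) z (by
      rw [← hL']
      refine le_trans ?_ hz1
      calc L' ^ B ≤ (2 * L) ^ B := pow_le_pow_left₀ (by linarith) hL'2 B
        _ = 2 ^ B * L ^ B := mul_pow _ _ _
        _ ≤ L * L ^ B := mul_le_mul_of_nonneg_right (by linarith) (by positivity)
        _ = L ^ (B + 1) := by ring) (by
      rw [← hL']
      calc (z : ℝ) ≤ L ^ Ez := hz2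
        _ ≤ L ^ (Ez + 1) := pow_le_pow_right₀ hL1 (by omega)
        _ ≤ L' ^ (Ez + 1) := pow_le_pow_left₀ hL0.le hLL' _)
  -- the sizes of the values
  have hDb : Real.log ((2 * b ^ K : ℕ) : ℝ) + (Vz z)⁻¹ ≤ (K : ℝ) ^ 2 := by
    have e1 : Real.log ((2 * b ^ K : ℕ) : ℝ) ≤ L' := by
      rw [hL']
      apply Real.log_le_log (by exact_mod_cast Nat.mul_pos (by norm_num) (Nat.pow_pos (by omega)))
      have : 2 * b ^ K ≤ b ^ (K + 1) := by rw [pow_succ']; exact Nat.mul_le_mul_right _ hb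
      exact_mod_cast this
    have e2 : L ≤ b * K := by rw [hLK]; nlinarith
    have e3 : (4 * b) * (K : ℝ) ≤ K * K := mul_le_mul_of_nonneg_right (by linarith) hK0.le
    have e4 : 0 ≤ (b : ℝ) * K := by positivity
    nlinarith
  have hX1 : 1 ≤ 2 * b ^ K := Nat.mul_pos (by norm_num) (Nat.pow_pos (by omega))
  have hdI : ∀ k : ℤ, k ≤ 2 * (b : ℤ) ^ K → |dI z k| ≤ (K : ℝ) ^ 2 := by
    intro k hk
    unfold dI
    refine (abs_sub _ _).trans ?_
    rw [abs_of_nonneg (lamI_nonneg _), abs_of_nonneg (lamzI_nonneg _ _)]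
    refine le_trans (add_le_add (lamI_le _ _ (by exact_mod_cast hX1) ?_) (lamzI_le z _)) hDb
    exact_mod_cast hk
  -- the grid
  have hKV : 0 < K ^ V' := Nat.pow_pos hKn
  obtain ⟨D, hD⟩ : ∃ D, D = b ^ K / K ^ V' + 1 := ⟨_, rfl⟩
  have hD0 : 0 < D := by rw [hD]; exact Nat.succ_pos _
  have hDr : (D : ℝ) ≤ 2 * ((b : ℝ) ^ K / (K : ℝ) ^ V') := by
    have e1 : ((b ^ K / K ^ V' : ℕ) : ℝ) ≤ (b : ℝ) ^ K / (K : ℝ) ^ V' := by
      have := @Nat.cast_div_le ℝ _ _ _ (b ^ K) (K ^ V')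
      push_cast at this
      exact this
    have e2 : 1 ≤ (b : ℝ) ^ K / (K : ℝ) ^ V' := by
      rw [le_div_iff₀ (by positivity), one_mul]
      have : K ^ V' ≤ b ^ K := (h4 K (by omega)).trans (Nat.pow_le_pow_left hb K)
      exact_mod_cast this
    rw [hD]
    push_cast
    push_cast at e1
    linarith
  have hjK : ∀ j : ℕ, j * D ≤ b ^ K → j < K ^ V' := by
    intro j hj
    by_contra hcon
    push Not at hcon
    have e1 : K ^ V' * D ≤ b ^ K := le_trans (Nat.mul_le_mul_right _ hcon) hj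
    have e2 : b ^ K < K ^ V' * D := by
      rw [hD]
      exact Nat.lt_mul_div_succ (b ^ K) hKV
    omega
  -- from large sums to large sums on the grid
  have hstep : ∀ (H : ℕ → ℝ), (∀ n, 1 ≤ n → n ≤ b ^ K → |H n| ≤ (K : ℝ) ^ Tt * (K : ℝ) ^ 2) → ∀ N' ≤ b ^ K,
      (b : ℝ) ^ K / (K : ℝ) ^ U < |∑ n ∈ Icc 1 N', H n| →
      (b : ℝ) ^ K / (K : ℝ) ^ V < |∑ n ∈ Icc 1 (N' / D * D), H n| / (K : ℝ) ^ Tt := by
    intro H hH N' hN' hbig
    have e1 := grid_sum H _ (b ^ K) D N' hD0 hN' hH (by positivity)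
    have e2 : (D : ℝ) * ((K : ℝ) ^ Tt * (K : ℝ) ^ 2) ≤ (b : ℝ) ^ K / (K : ℝ) ^ U * (2 / K ^ 2) := by
      refine (mul_le_mul_of_nonneg_right hDr (by positivity)).trans (le_of_eq ?_)
      rw [hV', show (K : ℝ) ^ (U + Tt + 4) = K ^ U * K ^ Tt * (K ^ 2 * K ^ 2) by ring]
      field_simp
    have e3 : (b : ℝ) ^ K / (K : ℝ) ^ V * (K : ℝ) ^ Tt ≤ (b : ℝ) ^ K / (K : ℝ) ^ U * (1 / K) := by
      have : (b : ℝ) ^ K / (K : ℝ) ^ U * (1 / K) = (b : ℝ) ^ K / (K : ℝ) ^ (U + 1) := by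
        rw [pow_succ]; field_simp
      rw [this]
      have h5 : (b : ℝ) ^ K / (K : ℝ) ^ V * (K : ℝ) ^ Tt = (b : ℝ) ^ K / (K : ℝ) ^ (V' + U + 4) := by
        rw [hV, show (K : ℝ) ^ (V' + U + Tt + 4) = K ^ (V' + U + 4) * K ^ Tt by ring]
        field_simp
      rw [h5]
      apply div_le_div_of_nonneg_left (by positivity) (by positivity)
      exact pow_le_pow_right₀ (by linarith) (by omega)
    have e11 : (2 : ℝ) / K ^ 2 + 1 / K ≤ 1 := by
      rw [div_add_div _ _ (by positivity) (by positivity), div_le_one (by positivity)]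
      nlinarith
    have e12 : 0 < (b : ℝ) ^ K / (K : ℝ) ^ U := by positivity
    have e13 : (b : ℝ) ^ K / (K : ℝ) ^ U * (2 / K ^ 2 + 1 / K) ≤ (b : ℝ) ^ K / (K : ℝ) ^ U * 1 :=
      mul_le_mul_of_nonneg_left e11 e12.le
    rw [lt_div_iff₀ (by positivity)]
    linarith
  -- the pieces
  obtain ⟨Y, hY⟩ : ∃ Y : (Fin 3 → Finset ℕ) → ℤ, Y = fun T => ((change b K N f (un T) : ℕ) : ℤ) := ⟨_, rfl⟩
  have hYT : ∀ T, ((change b K N f (un T) : ℕ) : ℤ) = Y T := fun T => by rw [hY]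
  have hYb : ∀ T, 0 ≤ Y T ∧ Y T < (b : ℤ) ^ K := by
    intro T
    rw [← hYT]
    refine ⟨Int.natCast_nonneg _, ?_⟩
    exact_mod_cast change_lt b K N (by omega) f (fun j => (hf j).1) _
  simp only [hYT] at hSb
  obtain ⟨S1, hS1⟩ : ∃ S1 : ℕ → Finset (Fin 3 → Finset ℕ), S1 = fun j => S.filter (fun T => j * D ≤ b ^ K ∧
      (b : ℝ) ^ K / (K : ℝ) ^ V < |∑ n ∈ Icc 1 (j * D), G n * dI z ((n : ℤ) + Y T)| / (K : ℝ) ^ Tt) := ⟨_, rfl⟩
  obtain ⟨S2, hS2⟩ : ∃ S2 : ℕ → Finset (Fin 3 → Finset ℕ), S2 = fun j => S.filter (fun T => j * D ≤ b ^ K ∧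
      (b : ℝ) ^ K / (K : ℝ) ^ V < |∑ n ∈ Icc 1 (j * D), G n * dI z (Y T - (n : ℤ))| / (K : ℝ) ^ Tt) := ⟨_, rfl⟩
  have hgb : ∀ n : ℕ, ‖((G n / (K : ℝ) ^ Tt : ℝ) : ℂ)‖ ≤ 1 := by
    intro n
    rw [Complex.norm_real, Real.norm_eq_abs, abs_div, abs_of_pos (by positivity : (0 : ℝ) < (K : ℝ) ^ Tt), div_le_one (by positivity)]
    exact hG n
  have hp1 : ∀ j, ((S1 j).card : ℝ) ≤ 1 / (K : ℝ) ^ V * (Ch b A K r).card := by
    intro j
    by_cases hj : j * D ≤ b ^ K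
    · apply h0 K (by omega) (uz z) hu (fun n => ((G n / (K : ℝ) ^ Tt : ℝ) : ℂ)) hgb (j * D) hj 0 (by
        have : (0 : ℤ) ≤ (b : ℤ) ^ K := by positivity
        linarith) le_rfl N hN f hf r hr hr' (S1 j)
      · rw [hS1]; exact (filter_subset _ _).trans hS
      · intro T hT
        rw [hS1, mem_filter] at hT
        refine lt_of_lt_of_eq hT.2.2 ?_
        rw [hYT, add_zero]
        simp only [exI_uz]
        rw [← Real.norm_eq_abs, ← Complex.norm_real, Complex.ofReal_sum]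
        have hKT : (0 : ℝ) < (K : ℝ) ^ Tt := by positivity
        rw [div_eq_iff hKT.ne']
        have e5 : (K : ℝ) ^ Tt = ‖(((K : ℝ) ^ Tt : ℝ) : ℂ)‖ := by
          rw [Complex.norm_real, Real.norm_of_nonneg hKT.le]
        nth_rewrite 2 [e5]
        rw [← norm_mul, sum_mul]
        congr 1
        apply sum_congr rfl
        intro n _
        push_cast
        have : ((K : ℂ)) ^ Tt ≠ 0 := pow_ne_zero _ (by exact_mod_cast hKn.ne')
        field_simp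
    · have : S1 j = ∅ := by
        rw [hS1]
        apply filter_eq_empty_iff.2
        intro T _ h
        exact hj h.1
      rw [this, card_empty]
      push_cast
      positivity
  have hp2' : ∀ j, ((S2 j).card : ℝ) ≤ 1 / (K : ℝ) ^ V * (Ch b A K r).card := by
    intro j
    by_cases hj : j * D ≤ b ^ K
    · have hjz : ((j * D : ℕ) : ℤ) ≤ (b : ℤ) ^ K := by exact_mod_cast hj
      apply h0 K (by omega) (uz z) hu (fun n => ((G (j * D + 1 - n) / (K : ℝ) ^ Tt : ℝ) : ℂ)) (fun n => hgb _) (j * D) hj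
        (-(((j * D : ℕ) : ℤ) + 1)) (by linarith) (by
        have : (0 : ℤ) ≤ ((j * D : ℕ) : ℤ) := Int.natCast_nonneg _
        linarith) N hN f hf r hr hr' (S2 j)
      · rw [hS2]; exact (filter_subset _ _).trans hS
      · intro T hT
        rw [hS2, mem_filter] at hT
        refine lt_of_lt_of_eq hT.2.2 ?_
        rw [hYT]
        simp only [exI_uz]
        rw [refl_sum (j * D) (fun n => G n * dI z (Y T - (n : ℤ)))]
        rw [← Real.norm_eq_abs, ← Complex.norm_real, Complex.ofReal_sum]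
        have hKT : (0 : ℝ) < (K : ℝ) ^ Tt := by positivity
        rw [div_eq_iff hKT.ne']
        have e5 : (K : ℝ) ^ Tt = ‖(((K : ℝ) ^ Tt : ℝ) : ℂ)‖ := by
          rw [Complex.norm_real, Real.norm_of_nonneg hKT.le]
        nth_rewrite 2 [e5]
        rw [← norm_mul, sum_mul]
        congr 1
        apply sum_congr rfl
        intro n hn
        rw [mem_Icc] at hn
        have e6 : Y T - ((j * D + 1 - n : ℕ) : ℤ) = (n : ℤ) + (Y T + -(((j * D : ℕ) : ℤ) + 1)) := by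
          rw [Nat.cast_sub (by omega)]
          push_cast
          ring
        rw [e6]
        push_cast
        have : ((K : ℂ)) ^ Tt ≠ 0 := pow_ne_zero _ (by exact_mod_cast hKn.ne')
        field_simp
    · have : S2 j = ∅ := by
        rw [hS2]
        apply filter_eq_empty_iff.2
        intro T _ h
        exact hj h.1
      rw [this, card_empty]
      push_cast
      positivity
  have hcover : S ⊆ (range (K ^ V')).biUnion (fun j => S1 j ∪ S2 j) := by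
    intro T hT
    obtain ⟨hY0, hY1⟩ := hYb T
    rcases hSb T hT with ⟨N', hN', hbig⟩ | ⟨N', hN', hbig⟩
    · have e1 := hstep (fun n => G n * dI z ((n : ℤ) + Y T)) (by
        intro n hn1 hn2
        rw [abs_mul]
        have hnb : (n : ℤ) ≤ (b : ℤ) ^ K := by exact_mod_cast hn2
        exact mul_le_mul (hG n) (hdI _ (by linarith)) (abs_nonneg _) (by positivity)) N' hN' hbig
      rw [mem_biUnion]
      have hj2 : N' / D * D ≤ b ^ K := (Nat.div_mul_le_self _ _).trans hN'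
      refine ⟨N' / D, mem_range.2 (hjK _ hj2), mem_union_left _ ?_⟩
      rw [hS1]
      exact mem_filter.2 ⟨hT, hj2, e1⟩
    · have e1 := hstep (fun n => G n * dI z (Y T - (n : ℤ))) (by
        intro n hn1 hn2
        rw [abs_mul]
        have hb0 : (0 : ℤ) ≤ (b : ℤ) ^ K := by positivity
        exact mul_le_mul (hG n) (hdI _ (by omega)) (abs_nonneg _) (by positivity)) N' hN' hbig
      rw [mem_biUnion]
      have hj2 : N' / D * D ≤ b ^ K := (Nat.div_mul_le_self _ _).trans hN'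
      refine ⟨N' / D, mem_range.2 (hjK _ hj2), mem_union_right _ ?_⟩
      rw [hS2]
      exact mem_filter.2 ⟨hT, hj2, e1⟩
  have hc0 : (0 : ℝ) ≤ (Ch b A K r).card := Nat.cast_nonneg _
  calc (S.card : ℝ) ≤ (((range (K ^ V')).biUnion (fun j => S1 j ∪ S2 j)).card : ℝ) := by
        exact_mod_cast card_le_card hcover
    _ ≤ ∑ j ∈ range (K ^ V'), (((S1 j).card : ℝ) + ((S2 j).card : ℝ)) := by
        have e1 : ((range (K ^ V')).biUnion (fun j => S1 j ∪ S2 j)).card ≤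
            ∑ j ∈ range (K ^ V'), ((S1 j).card + (S2 j).card) :=
          card_biUnion_le.trans (sum_le_sum fun j _ => card_union_le _ _)
        exact_mod_cast e1
    _ ≤ ∑ _j ∈ range (K ^ V'), (1 / (K : ℝ) ^ V * (Ch b A K r).card + 1 / (K : ℝ) ^ V * (Ch b A K r).card) :=
        sum_le_sum fun j _ => add_le_add (hp1 j) (hp2' j)
    _ = (2 / (K : ℝ) ^ (Tt + 4)) * (1 / (K : ℝ) ^ U * (Ch b A K r).card) := by
        rw [sum_const, card_range, nsmul_eq_mul, hV, show (K : ℝ) ^ (V' + U + Tt + 4) = K ^ V' * K ^ U * K ^ (Tt + 4) by ring]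
        push_cast
        field_simp
        ring
    _ ≤ 1 * (1 / (K : ℝ) ^ U * (Ch b A K r).card) := by
        apply mul_le_mul_of_nonneg_right _ (by positivity)
        rw [div_le_one (by positivity)]
        have : (K : ℝ) ≤ K ^ (Tt + 4) := le_self_pow₀ (by linarith) (by omega)
        linarith
    _ = _ := one_mul _

end Pool.Agent.TH894.LG
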