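import Pool.Agent.TH894.LG12
import Pool.Agent.TH646.TT.Grid

set_option autoImplicit false

/-! The `L²` norm of the exponential sum over the nearly extremal frequencies, for functions which may depend on the
length. -/

namespace Pool.Agent.TH894.LH
open Finset
open Pool.Agent.H807R2.Dav
open Pool.Agent.H373R2.T7 (sq_expand)
open Pool.Agent.W93.DG
open Pool.Agent.W93.RD
open Pool.Agent.W93.LM
open Pool.Agent.W93.TD (p1_num)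

/-- the `L²` norm over the nearly extremal frequencies -/
theorem bad_sqU (b : ℕ) (hb : 2 ≤ b) : ∃ R : ℕ, 1 ≤ R ∧ ∀ e₀ U : ℕ, ∃ A U₁ : ℕ, U ≤ A ∧ ∃ k₀ : ℕ, ∀ k : ℕ, k₀ ≤ k →
    ∀ f : ℕ → ℂ, (∀ α : ℝ, ‖∑ n ∈ Icc 1 (b ^ k), f n * ee ((n : ℝ) * α)‖ ≤ ((b ^ k : ℕ) : ℝ) / Real.log ((b ^ k : ℕ) : ℝ) ^ U₁) →
    PP f 4000000 8 (b ^ k) (b ^ (k / (16 * b))) →
    ∀ r₀ μ : ℕ, 1 ≤ μ → μ ≤ b ^ e₀ → ∀ S : Finset ℕ,
    (∀ r ∈ S, r < b ^ (k + 1) ∧ Bad b R k (hh b A k) (k / (16 * b)) ((μ * r + r₀) % b ^ (k + 1))) →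
    ∑ r ∈ S, ‖FC f (b ^ k) (b ^ (k + 1)) r‖ ^ 2 ≤ ((b ^ (k + 1) : ℕ) : ℝ) * ((b ^ k : ℕ) : ℝ) / (k : ℝ) ^ U := by
  classical
  obtain ⟨R, hR, hwt⟩ := wt_sum b hb
  refine ⟨R, hR, fun e₀ U => ?_⟩
  obtain ⟨C, hwt⟩ := hwt e₀
  obtain ⟨A, hA⟩ : ∃ A, A = U + b + 24 := ⟨_, rfl⟩
  obtain ⟨U', hU'⟩ : ∃ U', U' = U + 10 * A + 2 := ⟨_, rfl⟩
  refine ⟨A, U', by omega, ?_⟩
  obtain ⟨k4, h4⟩ := hh_small b A 4 hb
  obtain ⟨k5, h5⟩ := half_big b (U + 2 + 16) hb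
  have hbr : (2 : ℝ) ≤ b := by exact_mod_cast hb
  have hb0 : (0 : ℝ) < b := by linarith
  have hbn : 0 < b := by omega
  obtain ⟨C2, hC2⟩ : ∃ C2 : ℝ, C2 = 4000000 ^ 2 * (b : ℝ) ^ 16 * ((b : ℝ) ^ (e₀ + 2) + C) := ⟨_, rfl⟩
  obtain ⟨C3, hC3⟩ : ∃ C3 : ℝ, C3 = 6 * (b : ℝ) ^ 8 * (b : ℝ) ^ (10 * A) * 2 ^ U' := ⟨_, rfl⟩
  have hC20 : 0 ≤ C2 := by rw [hC2]; positivity
  have hC30 : 0 ≤ C3 := by rw [hC3]; positivity
  obtain ⟨k6, hk6⟩ := exists_nat_ge (C2 + C3)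
  refine ⟨k4 + k5 + k6 + 48 * b + 4 * e₀ + 15, fun k hk f h1 hPP r₀ μ hμ1 hμb S hS => ?_⟩
  obtain ⟨X, hX⟩ : ∃ X, X = b ^ k := ⟨_, rfl⟩
  obtain ⟨M, hM⟩ : ∃ M, M = b ^ (k + 1) := ⟨_, rfl⟩
  have hkX : k < X := by rw [hX]; exact Nat.lt_pow_self (by omega)
  have hX1 : 1 ≤ X := by omega
  have hXM : X ≤ M := by rw [hX, hM]; exact Nat.pow_le_pow_right hbn (by omega)
  have hk1 : 1 ≤ k := by omega
  have hkr : (1 : ℝ) ≤ k := by exact_mod_cast hk1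
  have hk0 : (0 : ℝ) < k := by linarith
  have hX0 : (0 : ℝ) < X := by exact_mod_cast hX1
  have hXMr : (X : ℝ) ≤ M := by exact_mod_cast hXM
  have hM0 : (0 : ℝ) < M := by linarith
  obtain ⟨hL1, hL2⟩ := logX b k hb
  rw [← hX] at hL1 hL2
  obtain ⟨L, hL⟩ : ∃ L, L = Real.log (X : ℝ) := ⟨_, rfl⟩
  rw [← hL] at hL1 hL2
  have hL0 : 0 < L := by linarith
  have hLge1 : 1 ≤ L := by
    have : (2 : ℝ) ≤ k := by exact_mod_cast (by omega : 2 ≤ k)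
    linarith
  obtain ⟨m, hm⟩ : ∃ m, m = k / (16 * b) := ⟨_, rfl⟩
  obtain ⟨h, hh'⟩ : ∃ h, h = hh b A k := ⟨_, rfl⟩
  have hm2 : 2 ≤ m := by rw [hm]; exact (Nat.le_div_iff_mul_le (by omega)).2 (by omega)
  have hmk : 16 * b * m ≤ k := by rw [hm]; exact Nat.mul_div_le k (16 * b)
  have hmk32 : 32 * m ≤ k := by
    have h7 : 16 * 2 * m ≤ 16 * b * m := Nat.mul_le_mul_right _ (Nat.mul_le_mul_left _ hb)
    omega
  have hhk : 4 * h ≤ k := by rw [hh']; exact h4 k (by omega)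
  have hhup := hh_up b A k hk1
  have hhhalf := hh_half b A k hb hk1
  rw [← hh'] at hhup hhhalf
  rw [← hX, ← hM]
  simp only [← hM, ← hm, ← hh'] at hS
  rw [← hm] at hPP
  obtain ⟨PL, hPL⟩ : ∃ PL : ℕ → Prop, PL = fun r => ∃ i₁ i₂ i₃ : ℕ, i₁ ≤ h ∧ i₂ ≤ h ∧ i₃ ≤ h ∧ InScale b k (b * m) i₁ i₂ i₃ r := ⟨_, rfl⟩
  have hpt : ∀ r, ¬ PL r → ‖FC f X M r‖ ^ 2 ≤ (4000000 * L ^ 8 * X) ^ 2 * wt b k m h r := by
    intro r hr
    rw [hPL] at hr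
    have := pointwise2 b hb k m h 4000000 8 (by norm_num) f hPP r hr
    rw [← hX, ← hM, ← hL] at this
    exact this
  rw [← sum_filter_add_sum_filter_not S PL]
  have hpart1 : ∑ r ∈ S.filter PL, ‖FC f X M r‖ ^ 2 ≤ C3 * (M * X / (k : ℝ) ^ (U + 2)) := by
    have e1 : ∀ r ∈ S.filter PL, ‖FC f X M r‖ ^ 2 ≤ (X / L ^ U') ^ 2 := by
      intro r _
      apply pow_le_pow_left₀ (norm_nonneg _)
      rw [hL, hX]
      exact h1 ((r : ℝ) / (M : ℝ))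
    have e2 : ((S.filter PL).card : ℝ) ≤ (b : ℝ) ^ (5 * h + 8) := by
      have := log_count b k (b * m) h hb (by omega) (S.filter PL) (fun r hr => by
        rw [mem_filter] at hr
        rw [← hM]
        refine ⟨(hS r hr.1).1, ?_⟩
        have := hr.2
        rw [hPL] at this
        exact this)
      exact_mod_cast this
    calc _ ≤ ∑ _r ∈ S.filter PL, ((X : ℝ) / L ^ U') ^ 2 := sum_le_sum e1
      _ = ((S.filter PL).card : ℝ) * (X / L ^ U') ^ 2 := by rw [sum_const, nsmul_eq_mul]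
      _ ≤ _ := by
          rw [hC3]
          exact p1_num b k X M L _ U U' A h hb0 hk0 hX0 hXMr hL1 hLge1 (by omega) e2 hhup
  have hpart2 : ∑ r ∈ S.filter (fun r => ¬ PL r), ‖FC f X M r‖ ^ 2 ≤ C2 * (M * X / (k : ℝ) ^ (U + 2)) := by
    have e1 : ∑ r ∈ S.filter (fun r => ¬ PL r), wt b k m h r ≤
        (b : ℝ) ^ (e₀ + 2) / 2 ^ (m / 2) + C * (k : ℝ) ^ (b + 4) / (b : ℝ) ^ (h / 2) :=
      hwt k m h r₀ μ hm (by omega) (by omega) hμ1 hμb _ (fun r hr => by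
        rw [← hM]
        exact hS r (mem_filter.1 hr).1)
    have e2 : (b : ℝ) ^ (e₀ + 2) / 2 ^ (m / 2) + C * (k : ℝ) ^ (b + 4) / (b : ℝ) ^ (h / 2) ≤
        ((b : ℝ) ^ (e₀ + 2) + C) / (k : ℝ) ^ ((U + 2) + 16) :=
      e2_num b ((b : ℝ) ^ (e₀ + 2)) C k b A (U + 2) (m / 2) (h / 2) hb0 (by positivity) (Nat.cast_nonneg _) hkr
        (by rw [hm]; exact h5 k (by omega)) hhhalf (by omega)
    calc _ ≤ ∑ r ∈ S.filter (fun r => ¬ PL r), (4000000 * L ^ 8 * X) ^ 2 * wt b k m h r :=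
          sum_le_sum fun r hr => hpt r (mem_filter.1 hr).2
      _ = (4000000 * L ^ 8 * X) ^ 2 * ∑ r ∈ S.filter (fun r => ¬ PL r), wt b k m h r := by rw [mul_sum]
      _ ≤ _ := by
          rw [hC2]
          exact p2_num 4000000 b k X M L ((b : ℝ) ^ (e₀ + 2) + C) _ U (by norm_num) hb0 hk0 hX0 hXMr hL0.le hL2 (by positivity)
            (e1.trans e2)
  have hfin : (C2 + C3) * (M * X / (k : ℝ) ^ (U + 2)) ≤ M * X / (k : ℝ) ^ U :=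
    fin_num k (C2 + C3) (M * X) U hkr (hk6.trans (by exact_mod_cast (by omega : k6 ≤ k))) (by positivity)
  linarith

end Pool.Agent.TH894.LH
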