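import Pool.Agent.TH894.LH1

set_option autoImplicit false

/-! Exponential sums with the averages of `log p` over short intervals. -/

namespace Pool.Agent.TH894.LH
open Finset
open Pool.Agent.H807R2.Dav
open Pool.Agent.W93.DG
open Pool.Agent.W93.LM
open Pool.Agent.W301.SS
open Pool.Agent.TH646.TT

/-- the average minus one -/
noncomputable def ua (y : ℕ) (n : ℕ) : ℂ := ((av y n - 1 : ℝ) : ℂ)

lemma dd_round (α : ℝ) : 4 * |α - round α| ≤ dd α := by
  have h1 : dd α = dd (α - round α) := by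
    have := dd_add_int (α - round α) (round α)
    rw [sub_add_cancel] at this
    exact this
  have h2 : |α - round α| ≤ 1 / 2 := abs_sub_round α
  obtain ⟨t, ht⟩ : ∃ t, t = |α - round α| := ⟨_, rfl⟩
  have h3 : dd (α - round α) = dd t := by
    rcases abs_cases (α - round α) with h | h
    · rw [ht, h.1]
    · rw [ht, h.1, dd_neg]
  rw [h1, h3, ← ht]
  rw [← ht] at h2
  have h4 := dd_ge (by rw [ht]; exact abs_nonneg _ : 0 ≤ t) (by linarith)
  rwa [min_eq_left (by linarith)] at h4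

lemma D_le (X : ℕ) (hX : 1 ≤ X) (α : ℝ) (s : ℝ) (hs : 0 < s) (h : s ≤ 1 + X * dd α) : ‖FK X α‖ ≤ 3 * X / s := by
  have hX0 : (0 : ℝ) < X := by exact_mod_cast hX
  have h1 := FK_far X hX α
  rw [norm_div, Complex.norm_natCast, div_le_iff₀ hX0] at h1
  refine h1.trans ?_
  have h2 := dd_nonneg α
  calc 3 / (1 + X * dd α) * X ≤ 3 / s * X := by
        apply mul_le_mul_of_nonneg_right _ hX0.le
        exact div_le_div_of_nonneg_left (by norm_num) hs h
    _ = _ := by ring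

/-- the kernel at the major arcs -/
lemma D_maj (X V : ℕ) (hV : 4 ≤ V) (hVX : (V * V) * (V * V) ≤ X) (α : ℝ) (q : ℕ) (c : ℤ) (h : MajAt X V α q c) :
    ‖FK X α‖ ≤ 3 * X / √(max (q : ℝ) (q * (X * |α - c / q|))) := by
  obtain ⟨hq, hcop, hqV, hτ⟩ := h
  have hVX' : V * V ≤ X := (Nat.le_mul_of_pos_left _ (Nat.mul_pos (by omega) (by omega))).trans hVX
  have hX1 : 1 ≤ X := by nlinarith
  have hX0 : (0 : ℝ) < X := by exact_mod_cast hX1
  have hq0 : (0 : ℝ) < q := by exact_mod_cast hq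
  have hq1 : (1 : ℝ) ≤ q := by exact_mod_cast hq
  have hV0 : (4 : ℝ) ≤ V := by exact_mod_cast hV
  have hqVr : (q : ℝ) ≤ V := by exact_mod_cast hqV
  have hVXr : (V : ℝ) * V ≤ X := by exact_mod_cast hVX'
  obtain ⟨T, hT⟩ : ∃ T : ℝ, T = max (q : ℝ) (q * (X * |α - c / q|)) := ⟨_, rfl⟩
  rw [← hT]
  have hTq : (q : ℝ) ≤ T := by rw [hT]; exact le_max_left _ _
  have hTV : T ≤ V := by rw [hT]; exact max_le hqVr hτ
  have hT1 : 1 ≤ T := hq1.trans hTq
  have hsT : √T ≤ T := by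
    rw [Real.sqrt_le_left (by linarith)]
    nlinarith
  have hsT0 : 0 < √T := Real.sqrt_pos.2 (by linarith)
  have hround := dd_round α
  obtain ⟨k, hk⟩ : ∃ k : ℤ, k = round α := ⟨_, rfl⟩
  rw [← hk] at hround
  apply D_le X hX1 α _ hsT0
  refine hsT.trans ?_
  by_cases hck : (c : ℝ) / q = k
  · -- the denominator is one
    have hqn : q = 1 := by
      have h1 : (c : ℝ) = k * q := by rw [div_eq_iff hq0.ne'] at hck; exact hck
      have h2 : c = k * q := by exact_mod_cast h1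
      have h3 : IsCoprime (k * (q : ℤ)) (q : ℤ) := by rw [← h2]; exact hcop
      have h4 : IsUnit (q : ℤ) := by
        obtain ⟨u, v, huv⟩ := h3
        exact IsUnit.of_mul_eq_one (u * k + v) (by rw [← huv]; ring)
      have h5 := Int.isUnit_iff.1 h4
      omega
    rw [hT, hqn]
    push_cast
    rw [one_mul]
    have h6 : (c : ℝ) / 1 = k := by rw [hqn] at hck; push_cast at hck; exact hck
    rw [h6]
    apply max_le
    · have := dd_nonneg α
      nlinarith
    · have h7 : (X : ℝ) * |α - k| ≤ X * dd α := by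
        apply mul_le_mul_of_nonneg_left _ hX0.le
        linarith [abs_nonneg (α - (k : ℝ))]
      linarith
  · have h1 : 1 / (q : ℝ) ≤ |(c : ℝ) / q - k| := by
      have h2 : (c : ℝ) / q - k = ((c - k * q : ℤ) : ℝ) / q := by
        push_cast
        field_simp
      rw [h2, abs_div, abs_of_pos hq0]
      apply div_le_div_of_nonneg_right _ hq0.le
      have h3 : c - k * q ≠ 0 := by
        intro h
        apply hck
        rw [div_eq_iff hq0.ne']
        have : c = k * q := by linarith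
        exact_mod_cast this
      have h4 : 1 ≤ |c - k * q| := Int.one_le_abs h3
      exact_mod_cast h4
    have h2 : |(c : ℝ) / q - k| ≤ |α - c / q| + |α - k| := by
      have : (c : ℝ) / q - k = -(α - c / q) + (α - k) := by ring
      rw [this]
      refine (abs_add_le _ _).trans ?_
      rw [abs_neg]
    have h3 : |α - c / q| ≤ 1 / (2 * q) := by
      rw [le_div_iff₀ (by positivity)]
      have h4 : (q : ℝ) * |α - c / q| * X ≤ V := by linarith
      have h5 : (q : ℝ) * |α - c / q| ≤ V / X := by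
        rw [le_div_iff₀ hX0]; exact h4
      have h6 : (V : ℝ) / X ≤ 1 / 2 := by
        rw [div_le_div_iff₀ hX0 (by norm_num)]
        nlinarith
      linarith
    have h4 : 1 / (2 * (q : ℝ)) ≤ |α - k| := by
      have : 1 / (q : ℝ) = 1 / (2 * q) + 1 / (2 * q) := by field_simp; norm_num
      linarith
    have h5 : 2 / (q : ℝ) ≤ dd α := by
      have : 2 / (q : ℝ) = 4 * (1 / (2 * q)) := by field_simp; norm_num
      rw [this]
      linarith
    have h6 : (V : ℝ) ≤ X * dd α := by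
      calc (V : ℝ) ≤ X * (2 / q) := by
            rw [mul_div_assoc', le_div_iff₀ hq0]
            nlinarith
        _ ≤ _ := mul_le_mul_of_nonneg_left h5 hX0.le
    linarith

lemma D_min (X V : ℕ) (hV : 4 ≤ V) (hVX : (V * V) * (V * V) ≤ X) (α : ℝ) (h : ¬ ∃ (q : ℕ) (c : ℤ), MajAt X V α q c) :
    ‖FK X α‖ ≤ 3 * X / √(V : ℝ) := by
  have hVX' : V * V ≤ X := (Nat.le_mul_of_pos_left _ (Nat.mul_pos (by omega) (by omega))).trans hVX
  have hX1 : 1 ≤ X := by nlinarith
  have hX0 : (0 : ℝ) < X := by exact_mod_cast hX1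
  have hV0 : (4 : ℝ) ≤ V := by exact_mod_cast hV
  have hround := dd_round α
  have hsT : √(V : ℝ) ≤ V := by
    rw [Real.sqrt_le_left (by linarith)]
    nlinarith
  apply D_le X hX1 α _ (Real.sqrt_pos.2 (by linarith))
  refine hsT.trans ?_
  have h1 : ¬ MajAt X V α 1 (round α) := fun h2 => h ⟨1, round α, h2⟩
  have h2 : (V : ℝ) < X * |α - round α| := by
    by_contra hcon
    push Not at hcon
    apply h1
    refine ⟨le_rfl, ?_, by omega, ?_⟩
    · push_cast; exact isCoprime_one_right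
    · push_cast
      rw [one_mul, div_one]
      exact hcon
  have h3 : (X : ℝ) * |α - round α| ≤ X * dd α := by
    apply mul_le_mul_of_nonneg_left _ hX0.le
    linarith [abs_nonneg (α - (round α : ℝ))]
  linarith

lemma FK_norm (y : ℕ) (hy : 1 ≤ y) (α : ℝ) : ‖FK y α / y‖ ≤ 1 := by
  have hy0 : (0 : ℝ) < y := by exact_mod_cast hy
  rw [norm_div, Complex.norm_natCast, div_le_one hy0]
  unfold FK
  refine (norm_sum_le _ _).trans (le_of_eq ?_)
  have : ∀ h ∈ Ioc 0 y, ‖ee ((h : ℝ) * α)‖ = 1 := fun h _ => norm_ee _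
  rw [sum_congr rfl this, sum_const, Nat.card_Ioc, nsmul_eq_mul, Nat.sub_zero, mul_one]

/-- the exponential sum of the average minus one -/
lemma ua_sum (X y : ℕ) (hX : 1 ≤ X) (hy : 1 ≤ y) (hyX : y ≤ X) (α : ℝ) (E : ℝ) (hE : ‖SP X α‖ ≤ E) :
    ‖∑ n ∈ Icc 1 X, ua y n * ee ((n : ℝ) * α)‖ ≤ E + y * (Real.log ((2 * X : ℕ) : ℝ) + 2) + ‖FK X α‖ := by
  have h1 := av_sum X y hX hy hyX α
  have h2 : ∑ n ∈ Icc 1 X, ua y n * ee ((n : ℝ) * α) =
      (∑ n ∈ Icc 1 X, ((av y n : ℝ) : ℂ) * ee ((n : ℝ) * α) - SP X α * (FK y (-α) / y)) + SP X α * (FK y (-α) / y) - FK X α := by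
    have h3 : FK X α = ∑ n ∈ Icc 1 X, ee ((n : ℝ) * α) := by
      unfold FK
      apply sum_congr _ (fun _ _ => rfl)
      ext i; simp only [mem_Ioc, mem_Icc]; omega
    rw [sub_add_cancel, h3, ← sum_sub_distrib]
    apply sum_congr rfl
    intro n _
    unfold ua
    push_cast
    ring
  rw [h2]
  refine (norm_sub_le _ _).trans (add_le_add ?_ le_rfl)
  refine (norm_add_le _ _).trans ?_
  have h4 : ‖SP X α * (FK y (-α) / y)‖ ≤ E := by
    rw [norm_mul]
    calc ‖SP X α‖ * ‖FK y (-α) / y‖ ≤ E * 1 := mul_le_mul hE (FK_norm y hy _) (norm_nonneg _) ((norm_nonneg _).trans hE)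
      _ = E := mul_one _
  linarith

/-- the pointwise bound -/
theorem PP_ua : ∃ N0 : ℕ, ∀ X : ℕ, N0 ≤ X → ∀ V : ℕ, 4 ≤ V → (V * V) * (V * V) ≤ X → 2 * Real.log X ≤ V → ∀ y : ℕ, 1 ≤ y → y ≤ V →
    PP (ua y) 4000000 8 X V := by
  obtain ⟨N1, h1⟩ := minor_quant
  obtain ⟨N2, h2⟩ := Pool.Agent.H373R2.T7.ev_L' 3
  refine ⟨N1 + N2 + 2, fun X hX V hV hVX hLV y hy hyV α => ?_⟩
  have hL := h2 X (by omega)
  obtain ⟨L, hLd⟩ : ∃ L, L = Real.log (X : ℝ) := ⟨_, rfl⟩
  rw [← hLd] at hL hLV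
  have hX1 : 1 ≤ X := by omega
  have hX0 : (0 : ℝ) < X := by exact_mod_cast hX1
  have hV0 : (4 : ℝ) ≤ V := by exact_mod_cast hV
  have hVXr : ((V : ℝ) * V) * (V * V) ≤ X := by exact_mod_cast hVX
  have hyX : y ≤ X := by nlinarith [Nat.mul_pos (show 0 < V by omega) (show 0 < V by omega)]
  have hyVr : (y : ℝ) ≤ V := by exact_mod_cast hyV
  have hSL : ∀ α, SL X α = ∑ n ∈ Icc 1 X, ((ArithmeticFunction.vonMangoldt n : ℝ) : ℂ) * ee ((n : ℝ) * α) := fun α => rfl
  have hsub := SP_sub X hX1 α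
  have hlog2 : Real.log ((2 * X : ℕ) : ℝ) + 2 ≤ 2 * L := by
    push_cast
    rw [Real.log_mul (by norm_num) hX0.ne', ← hLd]
    linarith [Real.log_two_lt_d9]
  -- small errors
  have e1 : (y : ℝ) * (Real.log ((2 * X : ℕ) : ℝ) + 2) ≤ X / V := by
    rw [le_div_iff₀ (by linarith)]
    have h3 : Real.log ((2 * X : ℕ) : ℝ) + 2 ≤ V := hlog2.trans hLV
    have h0 : 0 ≤ Real.log ((2 * X : ℕ) : ℝ) := Real.log_natCast_nonneg _
    calc (y : ℝ) * (Real.log ((2 * X : ℕ) : ℝ) + 2) * V ≤ V * V * V := by gcongr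
      _ ≤ (V * V) * (V * V) := by nlinarith [mul_nonneg (show (0 : ℝ) ≤ V * V * V by positivity) (show (0 : ℝ) ≤ V - 1 by linarith)]
      _ ≤ X := hVXr
  have e2 : 2 * √(X : ℝ) * L ≤ X / V := by
    rw [le_div_iff₀ (by linarith)]
    have h3 : (V : ℝ) * V ≤ √(X : ℝ) := Real.le_sqrt_of_sq_le (by nlinarith)
    have h4 : √(X : ℝ) * √(X : ℝ) = X := Real.mul_self_sqrt hX0.le
    have h5 := Real.sqrt_nonneg (X : ℝ)
    calc 2 * √(X : ℝ) * L * V = √(X : ℝ) * ((2 * L) * V) := by ring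
      _ ≤ √(X : ℝ) * (V * V) := by gcongr
      _ ≤ √(X : ℝ) * √(X : ℝ) := mul_le_mul_of_nonneg_left h3 h5
      _ = X := h4
  have hdiv : ∀ T : ℝ, 0 < T → T ≤ V → (X : ℝ) / V ≤ X / √T := by
    intro T hT hTV
    apply div_le_div_of_nonneg_left hX0.le (Real.sqrt_pos.2 hT)
    rw [Real.sqrt_le_left (by linarith)]
    nlinarith
  have hfin : ∀ T : ℝ, 0 < T → T ≤ V → ‖SL X α‖ ≤ 100000 * L ^ 7 * X * (4 / √T) → ‖FK X α‖ ≤ 3 * X / √T →
      ‖∑ n ∈ Icc 1 X, ua y n * ee ((n : ℝ) * α)‖ ≤ 4000000 * L ^ 8 * X / √T := by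
    intro T hT hTV hS hF
    have h3 := hdiv T hT hTV
    have h4 : ‖SP X α‖ ≤ 100000 * L ^ 7 * X * (4 / √T) + X / √T := by
      have h5 : ‖SP X α‖ ≤ ‖SL X α‖ + ‖SL X α - SP X α‖ := by
        have : SP X α = SL X α - (SL X α - SP X α) := by ring
        calc ‖SP X α‖ = ‖SL X α - (SL X α - SP X α)‖ := by rw [← this]
          _ ≤ _ := norm_sub_le _ _
      rw [← hLd] at hsub
      linarith
    have h6 := ua_sum X y hX1 hy hyX α _ h4
    refine h6.trans ?_
    have hP : 0 ≤ (X : ℝ) / √T := by positivity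
    have hL7 : 1 ≤ L ^ 7 := one_le_pow₀ (by linarith)
    have h7 : 100000 * L ^ 7 * X * (4 / √T) + X / √T + X / V + 3 * X / √T ≤ 4000000 * L ^ 8 * X / √T := by
      have e3 : 100000 * L ^ 7 * X * (4 / √T) = 400000 * L ^ 7 * (X / √T) := by ring
      have e4 : 3 * (X : ℝ) / √T = 3 * (X / √T) := by ring
      have e5 : 4000000 * L ^ 8 * X / √T = 4000000 * (L * L ^ 7) * (X / √T) := by ring
      rw [e3, e4, e5]
      have h8 : 400000 * L ^ 7 + 5 ≤ 4000000 * (L * L ^ 7) := by nlinarith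
      have h9 := mul_le_mul_of_nonneg_right h8 hP
      linarith
    linarith
  rw [← hLd]
  refine ⟨fun q c hqc => ?_, fun hno => ?_⟩
  · have hF := D_maj X V hV hVX α q c hqc
    obtain ⟨g1, g2, g3, g4⟩ := hqc
    have hq1 : (1 : ℝ) ≤ q := by exact_mod_cast g1
    have h5 := major_of X V hV hVX α _ (100000 * Real.log X ^ 7 * X) (by
      rw [← hLd]
      positivity) (fun q hq hqN c hc hα => by
        have := h1 X (by omega) V q (by omega) hVX hq hqN c hc α hα
        rw [mul_assoc (100000 * Real.log (X : ℝ) ^ 7)]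
        exact this) q g1 c g2 g3 g4
    rw [← hLd] at h5
    exact hfin _ (lt_of_lt_of_le (by linarith) (le_max_left _ _)) (max_le (by exact_mod_cast g3) g4) h5 hF
  · have hF := D_min X V hV hVX α hno
    have hVV : V * V ≤ X := (Nat.le_mul_of_pos_left _ (Nat.mul_pos (by omega) (by omega))).trans hVX
    obtain ⟨q, c, hq, hc, h | h⟩ := diri X V (by omega) hVV α
    · exact absurd ⟨q, c, hq, hc, h.1, h.2⟩ hno
    · obtain ⟨g1, g2, g3⟩ := h
      have h4 := h1 X (by omega) V q (by omega) hVX hq ((Nat.le_mul_of_pos_right _ (by omega)).trans g2) c hc α g3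
      rw [← mul_assoc (100000 * Real.log (X : ℝ) ^ 7)] at h4
      have h5 := minor_of X V hV _ (100000 * Real.log X ^ 7 * X) (by
        rw [← hLd]
        positivity) q g1 g2 h4
      rw [← hLd] at h5
      exact hfin _ (by linarith) le_rfl h5 hF

end Pool.Agent.TH894.LH
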