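import Pool.Agent.TH894.LH2

set_option autoImplicit false

/-! Exponential sums with the averages of `log p` over short intervals: the bound at all points. -/

namespace Pool.Agent.TH894.LH
open Finset Filter
open Pool.Agent.H807R2.Dav
open Pool.Agent.W301.SS
open Pool.Agent.TH646.TT

lemma ua_norm (X y n : ℕ) (hy : 1 ≤ y) (hn : n ≤ X) (hyX : y ≤ X) (hX : 1 ≤ X) : ‖ua y n‖ ≤ Real.log ((2 * X : ℕ) : ℝ) + 1 := by
  unfold ua
  rw [Complex.norm_real, Real.norm_eq_abs]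
  have h1 := av_le y n (2 * X) hy (by omega)
  have h2 := av_nonneg y n
  rw [abs_of_nonneg h2] at h1
  have h3 : 0 ≤ Real.log ((2 * X : ℕ) : ℝ) := Real.log_natCast_nonneg _
  rw [abs_le]
  constructor <;> linarith

theorem sup_ua (U : ℕ) : ∃ K0 N0 : ℕ, ∀ X : ℕ, N0 ≤ X → ∀ y : ℕ, Real.log X ^ K0 ≤ y → (y : ℝ) ≤ (X : ℝ) ^ (1 / 2 : ℝ) →
    ∀ α : ℝ, ‖∑ n ∈ Icc 1 X, ua y n * ee ((n : ℝ) * α)‖ ≤ X / Real.log X ^ U := by
  obtain ⟨W, K0, N1, h1⟩ := sup_par 0 (U + 2)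
  obtain ⟨N2, h2⟩ := eventually_atTop.1 (pnt_unif (W + (U + 3)))
  obtain ⟨N3, h3⟩ := eventually_atTop.1 (ev_L (2 ^ (U + 4) + 12))
  obtain ⟨N4, h4⟩ := eventually_atTop.1 (ev_log W 6 (1 / 2) (by norm_num))
  obtain ⟨N5, h5⟩ := eventually_atTop.1 (ev_log (U + 1) 4 1 (by norm_num))
  refine ⟨K0, 2 * (N1 + N2) + N3 + N4 + N5 + 16, fun X hX y hy1 hy2 α => ?_⟩
  obtain ⟨N, hN⟩ : ∃ N, N = X / 2 := ⟨_, rfl⟩
  have hN2 : 2 * N ≤ X := by rw [hN]; exact Nat.mul_div_le X 2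
  have hN3 : X ≤ 2 * N + 1 := by omega
  have hNN : N1 + N2 ≤ N := by omega
  have hX3 : X ≤ 3 * N := by omega
  have hN8 : 8 ≤ N := by omega
  have hX0 : (0 : ℝ) < X := by exact_mod_cast (by omega : 0 < X)
  have hN0 : (0 : ℝ) < N := by exact_mod_cast (by omega : 0 < N)
  obtain ⟨hK1, b1⟩ := h1 N (by omega)
  have b2 := h2 N (by omega)
  have b3 := h3 X (by omega)
  have b4 := h4 X (by omega)
  have b5 := h5 X (by omega)
  rw [Real.rpow_one] at b5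
  obtain ⟨L, hL⟩ : ∃ L, L = Real.log (X : ℝ) := ⟨_, rfl⟩
  obtain ⟨ℓ, hℓ⟩ : ∃ ℓ, ℓ = Real.log (N : ℝ) := ⟨_, rfl⟩
  rw [← hL] at b3 b4 b5 hy1 ⊢
  rw [← hℓ] at hK1 b1 b2
  have hp4 : (0 : ℝ) < 2 ^ (U + 4) := by positivity
  have hL0 : 0 < L := by linarith
  have hℓL : ℓ ≤ L := by
    rw [hℓ, hL]
    exact Real.log_le_log hN0 (by exact_mod_cast (by omega : N ≤ X))
  have hℓ2 : L / 2 ≤ ℓ := by
    have e1 : L ≤ Real.log 3 + ℓ := by
      rw [hL, hℓ, ← Real.log_mul (by norm_num) hN0.ne']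
      exact Real.log_le_log hX0 (by exact_mod_cast hX3)
    have e2 : Real.log 3 ≤ 2 := (Real.log_le_sub_one_of_pos (by norm_num)).trans (by norm_num)
    linarith
  have hℓ6 : 6 ≤ ℓ := by linarith
  have hℓ0 : 0 < ℓ := by linarith
  obtain ⟨K', hK'⟩ : ∃ K', K' = ⌊(N : ℝ) / ℓ ^ W⌋₊ := ⟨_, rfl⟩
  rw [← hK'] at hK1 b1
  have hsq : (X : ℝ) ^ (1 / 2 : ℝ) * (X : ℝ) ^ (1 / 2 : ℝ) = X := by
    rw [← Real.rpow_add hX0]; norm_num
  have hs0 : 0 < (X : ℝ) ^ (1 / 2 : ℝ) := by positivity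
  have hNlow : 2 * (X : ℝ) ^ (1 / 2 : ℝ) ≤ N / ℓ ^ W := by
    rw [le_div_iff₀ (by positivity)]
    have e1 : ℓ ^ W ≤ L ^ W := pow_le_pow_left₀ hℓ0.le hℓL W
    have e2 : (X : ℝ) ≤ 3 * N := by exact_mod_cast hX3
    have e3 : 6 * ℓ ^ W ≤ (X : ℝ) ^ (1 / 2 : ℝ) := by linarith
    nlinarith [mul_le_mul_of_nonneg_left e3 hs0.le]
  have hs1 : (1 : ℝ) ≤ (X : ℝ) ^ (1 / 2 : ℝ) := Real.one_le_rpow (by exact_mod_cast (by omega : 1 ≤ X)) (by norm_num)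
  have hyK : y ≤ K' := by
    rw [hK']
    apply Nat.le_floor
    linarith
  have hKle : (K' : ℝ) ≤ N / ℓ ^ W := by rw [hK']; exact Nat.floor_le (by positivity)
  have hKN : K' ≤ N := by
    have : (K' : ℝ) ≤ N := hKle.trans (div_le_self hN0.le (one_le_pow₀ (by linarith)))
    exact_mod_cast this
  have hK0 : (0 : ℝ) < K' := by exact_mod_cast hK1
  have hKge : (N : ℝ) / (2 * ℓ ^ W) ≤ K' := by
    have e1 := Nat.lt_floor_add_one ((N : ℝ) / ℓ ^ W)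
    rw [← hK'] at e1
    have e3 : (N : ℝ) / (2 * ℓ ^ W) = (N / ℓ ^ W) / 2 := by field_simp
    rw [e3]
    linarith
  have hy1' : ℓ ^ K0 ≤ y := (pow_le_pow_left₀ hℓ0.le hℓL K0).trans hy1
  have hy0 : (1 : ℝ) ≤ y := (one_le_pow₀ (by linarith : (1 : ℝ) ≤ ℓ)).trans hy1'
  have hyn : 1 ≤ y := by exact_mod_cast hy0
  -- the three parts
  have p1 := b1 y hy1' hyK α
  have p2 : ‖∑ n ∈ Icc 1 (2 * ((0 + 1) * N)), ((av K' n - 1 : ℝ) : ℂ) * ee ((n : ℝ) * α)‖ ≤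
      ((2 * ((0 + 1) * N) : ℕ) : ℝ) / ℓ ^ (U + 2) := by
    refine (norm_sum_le _ _).trans ?_
    have e1 : ∀ n ∈ Icc 1 (2 * ((0 + 1) * N)), ‖((av K' n - 1 : ℝ) : ℂ) * ee ((n : ℝ) * α)‖ ≤ 1 / ℓ ^ (U + 2) := by
      intro n hn
      rw [mem_Icc] at hn
      rw [norm_mul, norm_ee, mul_one, Complex.norm_real, Real.norm_eq_abs]
      refine (av_pnt N K' n hK1 (by omega) _ b2).trans ?_
      rw [div_le_div_iff₀ hK0 (by positivity), one_mul]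
      have e2 : 2 * ((N : ℝ) / ℓ ^ (W + (U + 3))) * ℓ ^ (U + 2) = (2 * N) / (ℓ ^ W * ℓ) := by
        rw [show W + (U + 3) = W + 1 + (U + 2) by ring, pow_add ℓ (W + 1), pow_succ ℓ W]
        field_simp
      rw [e2]
      have e3 : (N : ℝ) ≤ K' * (2 * ℓ ^ W) := by
        rwa [div_le_iff₀ (by positivity)] at hKge
      rw [div_le_iff₀ (by positivity)]
      nlinarith [mul_pos hK0 (pow_pos hℓ0 W)]
    refine (sum_le_sum e1).trans (le_of_eq ?_)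
    rw [sum_const, Nat.card_Icc, nsmul_eq_mul, Nat.add_sub_cancel]
    ring
  have e2N : 2 * ((0 + 1) * N) = 2 * N := by ring
  rw [e2N] at p1 p2
  have hlog2 : Real.log ((2 * X : ℕ) : ℝ) + 1 ≤ 2 * L := by
    push_cast
    rw [Real.log_mul (by norm_num) hX0.ne', ← hL]
    linarith [Real.log_two_lt_d9]
  have hyX : y ≤ X := by omega
  have p3 : ‖∑ n ∈ Icc 1 X, ua y n * ee ((n : ℝ) * α) - ∑ n ∈ Icc 1 (2 * N), ua y n * ee ((n : ℝ) * α)‖ ≤ 2 * L := by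
    rcases Nat.eq_or_lt_of_le hN2 with h | h
    · rw [h, sub_self, norm_zero]; linarith
    · have hXN : X = 2 * N + 1 := by omega
      have e1 : Icc 1 X = insert X (Icc 1 (2 * N)) := by
        ext i; simp only [mem_insert, mem_Icc]; omega
      rw [e1, sum_insert (by rw [mem_Icc]; omega), add_sub_cancel_right, norm_mul, norm_ee, mul_one]
      exact (ua_norm X y X hyn le_rfl hyX (by omega)).trans hlog2
  have p4 : ∑ n ∈ Icc 1 (2 * N), ua y n * ee ((n : ℝ) * α) =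
      ∑ n ∈ Icc 1 (2 * N), ((av y n - av K' n : ℝ) : ℂ) * ee ((n : ℝ) * α) +
      ∑ n ∈ Icc 1 (2 * N), ((av K' n - 1 : ℝ) : ℂ) * ee ((n : ℝ) * α) := by
    rw [← sum_add_distrib]
    apply sum_congr rfl
    intro n _
    unfold ua
    push_cast
    ring
  have p5 : ‖∑ n ∈ Icc 1 X, ua y n * ee ((n : ℝ) * α)‖ ≤ 2 * (X / ℓ ^ (U + 2)) + 2 * L := by
    have q1 : ‖∑ n ∈ Icc 1 X, ua y n * ee ((n : ℝ) * α)‖ ≤
        ‖∑ n ∈ Icc 1 X, ua y n * ee ((n : ℝ) * α) - ∑ n ∈ Icc 1 (2 * N), ua y n * ee ((n : ℝ) * α)‖ +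
        ‖∑ n ∈ Icc 1 (2 * N), ua y n * ee ((n : ℝ) * α)‖ := by
      have := norm_add_le (∑ n ∈ Icc 1 X, ua y n * ee ((n : ℝ) * α) - ∑ n ∈ Icc 1 (2 * N), ua y n * ee ((n : ℝ) * α))
        (∑ n ∈ Icc 1 (2 * N), ua y n * ee ((n : ℝ) * α))
      rwa [sub_add_cancel] at this
    have q2 : ‖∑ n ∈ Icc 1 (2 * N), ua y n * ee ((n : ℝ) * α)‖ ≤ ((2 * N : ℕ) : ℝ) / ℓ ^ (U + 2) + ((2 * N : ℕ) : ℝ) / ℓ ^ (U + 2) := by
      rw [p4]
      exact (norm_add_le _ _).trans (add_le_add p1 p2)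
    have q3 : ((2 * N : ℕ) : ℝ) / ℓ ^ (U + 2) ≤ X / ℓ ^ (U + 2) := by
      apply div_le_div_of_nonneg_right _ (by positivity)
      exact_mod_cast hN2
    linarith
  refine p5.trans ?_
  have q1 : (X : ℝ) / ℓ ^ (U + 2) ≤ X / (4 * L ^ U) := by
    apply div_le_div_of_nonneg_left hX0.le (by positivity)
    have q2 : (L / 2) ^ (U + 2) ≤ ℓ ^ (U + 2) := pow_le_pow_left₀ (by positivity) hℓ2 _
    refine le_trans ?_ q2
    rw [div_pow, le_div_iff₀ (by positivity)]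
    have q3 : (2 : ℝ) ^ (U + 4) ≤ L ^ 2 := by nlinarith
    calc 4 * L ^ U * 2 ^ (U + 2) = L ^ U * 2 ^ (U + 4) := by rw [pow_add 2 U 4, pow_add 2 U 2]; ring
      _ ≤ L ^ U * L ^ 2 := mul_le_mul_of_nonneg_left q3 (by positivity)
      _ = L ^ (U + 2) := by rw [← pow_add]
  have q2 : 2 * L ≤ X / (2 * L ^ U) := by
    rw [le_div_iff₀ (by positivity)]
    calc 2 * L * (2 * L ^ U) = 4 * L ^ (U + 1) := by rw [pow_succ]; ring
      _ ≤ X := b5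
  have q3 : 2 * ((X : ℝ) / (4 * L ^ U)) + X / (2 * L ^ U) = X / L ^ U := by
    field_simp
    norm_num
  linarith

end Pool.Agent.TH894.LH
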