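import Pool.Agent.TH894.LH3
import Pool.Agent.TH894.LG7

set_option autoImplicit false

/-! The averages of `log p` over short intervals in the estimate for few changes of digits. -/

namespace Pool.Agent.TH894.LH
open Finset
open Pool.Agent.H807R2.Dav
open Pool.Agent.W93.DG
open Pool.Agent.W93.LM
open Pool.Agent.W301.SS
open Pool.Agent.TH646.TT
open Pool.Agent.TH894.SM (mu mu_pos change Win un change_lt)
open Pool.Agent.TH894.LG (Uok count_K Ch pow_le_two_pow)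

lemma poly_small (b κ : ℕ) (hb : 2 ≤ b) : ∃ k₀ : ℕ, ∀ K : ℕ, k₀ ≤ K → K ^ κ ≤ b ^ (K / (16 * b)) := by
  obtain ⟨k1, h1⟩ := pow_le_two_pow (2 * κ + 1)
  refine ⟨16 * b * (k1 + 16 * b + 2), fun K hK => ?_⟩
  obtain ⟨m, hm⟩ : ∃ m, m = K / (16 * b) := ⟨_, rfl⟩
  rw [← hm]
  have hbp : 0 < 16 * b := by omega
  have hm1 : k1 + 16 * b + 2 ≤ m := by
    rw [hm, Nat.le_div_iff_mul_le hbp]
    linarith
  have hK2 : K ≤ (m + 1) ^ 2 := by
    have h3 : K < 16 * b * (m + 1) := by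
      rw [hm]
      exact Nat.lt_mul_div_succ K hbp
    calc K ≤ 16 * b * (m + 1) := h3.le
      _ ≤ (m + 1) * (m + 1) := Nat.mul_le_mul_right _ (by omega)
      _ = (m + 1) ^ 2 := by ring
  have h2 := h1 (m + 1) (by omega)
  have h4 : 2 * (m + 1) ^ (2 * κ) ≤ 2 * 2 ^ m := by
    calc 2 * (m + 1) ^ (2 * κ) ≤ (m + 1) * (m + 1) ^ (2 * κ) := Nat.mul_le_mul_right _ (by omega)
      _ = (m + 1) ^ (2 * κ + 1) := by rw [pow_succ]; ring
      _ ≤ 2 ^ (m + 1) := h2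
      _ = 2 * 2 ^ m := by rw [pow_succ]; ring
  calc K ^ κ ≤ ((m + 1) ^ 2) ^ κ := Nat.pow_le_pow_left hK2 κ
    _ = (m + 1) ^ (2 * κ) := by rw [← pow_mul]
    _ ≤ 2 ^ m := Nat.le_of_mul_le_mul_left h4 (by norm_num)
    _ ≤ b ^ m := Nat.pow_le_pow_left hb m

theorem Uok_ua (b : ℕ) (hb : 2 ≤ b) : ∃ R : ℕ, 1 ≤ R ∧ ∀ W A₀ : ℕ, ∃ A κ₀ : ℕ, A₀ ≤ A ∧ ∀ κ : ℕ, κ₀ ≤ κ → ∃ k₀ : ℕ, ∀ K : ℕ, k₀ ≤ K →
    Uok b R A K W (ua (K ^ κ)) := by
  obtain ⟨R, hR, hbad⟩ := bad_sqU b hb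
  refine ⟨R, hR, fun W A₀ => ?_⟩
  obtain ⟨A, U₁, hUA, k1, h1⟩ := hbad (mu b) (W + A₀)
  obtain ⟨K0, n2, h2⟩ := sup_ua U₁
  obtain ⟨n3, h3⟩ := PP_ua
  refine ⟨A, 2 * K0, by omega, fun κ hκ => ?_⟩
  obtain ⟨k4, h4⟩ := poly_small b (κ + 3) hb
  have hb1 : 1 < b := by omega
  refine ⟨k1 + n2 + n3 + k4 + 32 * b + 4, fun K hK => ?_⟩
  obtain ⟨y, hy⟩ : ∃ y, y = K ^ κ := ⟨_, rfl⟩
  rw [← hy]
  obtain ⟨X, hX⟩ : ∃ X, X = b ^ K := ⟨_, rfl⟩
  have hKX : K < X := by rw [hX]; exact Nat.lt_pow_self hb1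
  have hX1 : 1 ≤ X := by omega
  have hX0 : (0 : ℝ) < X := by exact_mod_cast hX1
  have hK0 : (0 : ℝ) < K := by exact_mod_cast (by omega : 0 < K)
  have hK1 : (1 : ℝ) ≤ K := by exact_mod_cast (by omega : 1 ≤ K)
  have hKb : (b : ℝ) + 3 ≤ K := by exact_mod_cast (by omega : b + 3 ≤ K)
  have hbr : (2 : ℝ) ≤ b := by exact_mod_cast hb
  have hlb : Real.log b ≤ b - 1 := Real.log_le_sub_one_of_pos (by linarith)
  have hLX : Real.log X = K * Real.log b := by rw [hX]; push_cast; rw [Real.log_pow]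
  have hlb0 : 0 ≤ Real.log b := Real.log_natCast_nonneg b
  have hLX2 : Real.log X + 2 ≤ (K : ℝ) ^ 2 := by
    rw [hLX]
    nlinarith
  have hLX0 : 0 ≤ Real.log X := Real.log_natCast_nonneg X
  -- the size of y
  obtain ⟨V, hV⟩ : ∃ V, V = b ^ (K / (16 * b)) := ⟨_, rfl⟩
  have hVK : K ^ (κ + 3) ≤ V := by rw [hV]; exact h4 K (by omega)
  have hyV : y ≤ V := by
    refine le_trans ?_ hVK
    rw [hy]
    exact Nat.pow_le_pow_right (by omega) (by omega)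
  have hy1 : 1 ≤ y := by rw [hy]; exact Nat.one_le_pow _ _ (by omega)
  have hK3V : K ^ 3 ≤ V := le_trans (Nat.pow_le_pow_right (by omega) (by omega)) hVK
  have hV4 : 4 ≤ V := by
    have : 4 ≤ K ^ 3 := by
      calc 4 ≤ 4 ^ 3 := by norm_num
        _ ≤ K ^ 3 := Nat.pow_le_pow_left (by omega) 3
    omega
  have hVX : (V * V) * (V * V) ≤ X := by
    rw [hV, hX, ← pow_add, ← pow_add]
    apply Nat.pow_le_pow_right (by omega)
    have h5 : 16 * b * (K / (16 * b)) ≤ K := Nat.mul_div_le K (16 * b)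
    have h6 : 4 * (K / (16 * b)) ≤ 16 * b * (K / (16 * b)) := Nat.mul_le_mul_right _ (by omega)
    omega
  have hLV : 2 * Real.log X ≤ V := by
    have h5 : ((K ^ 3 : ℕ) : ℝ) ≤ V := by exact_mod_cast hK3V
    push_cast at h5
    nlinarith [sq_nonneg (K : ℝ)]
  have hyL : Real.log X ^ K0 ≤ y := by
    rw [hy]
    push_cast
    calc Real.log X ^ K0 ≤ ((K : ℝ) ^ 2) ^ K0 := pow_le_pow_left₀ hLX0 (by linarith) K0
      _ = (K : ℝ) ^ (2 * K0) := by rw [← pow_mul]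
      _ ≤ (K : ℝ) ^ κ := pow_le_pow_right₀ hK1 hκ
  have hyX : (y : ℝ) ≤ (X : ℝ) ^ (1 / 2 : ℝ) := by
    have h5 : (V : ℝ) * V ≤ X := by
      exact_mod_cast (Nat.le_mul_of_pos_left _ (Nat.mul_pos (by omega) (by omega))).trans hVX
    rw [← Real.sqrt_eq_rpow]
    apply Real.le_sqrt_of_sq_le
    have h6 : (y : ℝ) ≤ V := by exact_mod_cast hyV
    nlinarith [(Nat.cast_nonneg y : (0 : ℝ) ≤ y)]
  refine ⟨?_, ?_⟩
  · have hXM : b ^ K ≤ b ^ (K + 1) := Nat.pow_le_pow_right (by omega) (by omega)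
    rw [FC_pars (ua y) _ _ (Nat.one_le_pow _ _ (by omega)) hXM, mul_assoc]
    apply mul_le_mul_of_nonneg_left _ (Nat.cast_nonneg _)
    have h5 : ∀ n ∈ Icc 1 (b ^ K), ‖ua y n‖ ^ 2 ≤ (K : ℝ) ^ 4 := by
      intro n hn
      rw [mem_Icc, ← hX] at hn
      have h6 := ua_norm X y n hy1 hn.2 (by nlinarith [Nat.mul_pos (show 0 < V by omega) (show 0 < V by omega)]) hX1
      have h7 : Real.log ((2 * X : ℕ) : ℝ) + 1 ≤ (K : ℝ) ^ 2 := by
        push_cast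
        rw [Real.log_mul (by norm_num) hX0.ne']
        linarith [Real.log_two_lt_d9]
      calc ‖ua y n‖ ^ 2 ≤ ((K : ℝ) ^ 2) ^ 2 := pow_le_pow_left₀ (norm_nonneg _) (h6.trans h7) 2
        _ = (K : ℝ) ^ 4 := by rw [← pow_mul]
    refine (sum_le_sum h5).trans (le_of_eq ?_)
    rw [sum_const, Nat.card_Icc, nsmul_eq_mul, Nat.add_sub_cancel]
  · intro r _ S hS
    have hsup := h2 X (by omega) y hyL hyX
    have hPP := h3 X (by omega) V hV4 hVX hLV y hy1 hyV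
    rw [hX] at hsup hPP
    rw [hV] at hPP
    have e1 := h1 K (by omega) (ua y) hsup hPP (mu b * (b ^ (K + 1) - r)) (mu b) (mu_pos b) ((Nat.lt_pow_self hb1).le) S hS
    refine e1.trans ?_
    apply div_le_div_of_nonneg_left (by positivity) (by positivity)
    exact pow_le_pow_right₀ hK1 (by omega)

end Pool.Agent.TH894.LH
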