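import Pool.Agent.TH894.LH4

set_option autoImplicit false

/-! The averages of `log p` over the intervals to the right of the points of a translate. -/

namespace Pool.Agent.TH894.LH
open Finset
open Pool.Agent.H373R2.T7 (exI)
open Pool.Agent.W93.DG
open Pool.Agent.W301.SS
open Pool.Agent.TH646.TT
open Pool.Agent.TH894.SM (mu mu_pos change Win un change_lt)
open Pool.Agent.TH894.LG (Uok count_K Ch pow_le_two_pow)

lemma av_blocks (y n J : ℕ) (hy : 1 ≤ y) (hJ : 1 ≤ J) : ∑ j ∈ range J, av y (n + j * y) = J * av (J * y) n := by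
  have hy0 : (0 : ℝ) < y := by exact_mod_cast hy
  have hJ0 : (0 : ℝ) < J := by exact_mod_cast hJ
  have h1 : ∀ I : ℕ, ∑ j ∈ range I, ∑ h ∈ Ioc 0 y, om (n + j * y + h) = ∑ h ∈ Ioc 0 (I * y), om (n + h) := by
    intro I
    induction I with
    | zero => simp
    | succ I ih =>
      rw [sum_range_succ, ih]
      have e1 : Ioc 0 ((I + 1) * y) = Ioc 0 (I * y) ∪ Ioc (I * y) ((I + 1) * y) := by
        ext i; simp only [mem_union, mem_Ioc]
        have : I * y ≤ (I + 1) * y := Nat.mul_le_mul_right _ (by omega)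
        omega
      rw [e1, sum_union]
      · congr 1
        have e2 : Ioc (I * y) ((I + 1) * y) = (Ioc 0 y).map (addRightEmbedding (I * y)) := by
          ext i
          have e3 : (I + 1) * y = I * y + y := by ring
          rw [e3]
          simp only [mem_Ioc, Finset.mem_map, addRightEmbedding_apply]
          constructor
          · intro hi
            exact ⟨i - I * y, by omega, by omega⟩
          · rintro ⟨j, hj, rfl⟩
            omega
        rw [e2, sum_map]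
        apply sum_congr rfl
        intro h _
        simp only [addRightEmbedding_apply]
        congr 1
        ring
      · rw [disjoint_left]
        intro i hi hi'
        rw [mem_Ioc] at hi hi'
        omega
  unfold av
  rw [← sum_div, h1 J]
  push_cast
  field_simp

/-- few choices are exceptional -/
theorem theta_ch (b : ℕ) (hb : 2 ≤ b) : ∃ R : ℕ, 1 ≤ R ∧ ∀ V : ℕ, ∃ C₁ : ℕ, 1 ≤ C₁ ∧ ∀ A₀ : ℕ, ∃ A κ₀ : ℕ, A₀ ≤ A ∧ ∀ κ : ℕ, κ₀ ≤ κ → ∃ k₀ : ℕ, ∀ K : ℕ, k₀ ≤ K →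
    ∀ N : ℕ, N < b ^ K → ∀ f : ℕ → ℕ, (∀ j, f j < b ∧ f j ≠ N / b ^ j % b) →
    ∀ r : Fin 3 → ℕ, (∀ q, C₁ * (Nat.log b (K + 1) + 1) ≤ r q) → (∀ q, 8 * R * r q ≤ (Win (hh b A (K + 1)) (K + 1) q).card) →
    ∀ B : Finset ℕ, B ⊆ Icc 1 (b ^ K / 2) → ∀ J : ℕ, 1 ≤ J → J * (K + 1) ^ κ ≤ b ^ K / 2 →
    ∀ S ⊆ Ch b A K r, (∀ T ∈ S, (b : ℝ) ^ K / (K : ℝ) ^ V < |∑ a ∈ B, av (J * (K + 1) ^ κ) (a + change b K N f (un T)) - B.card|) →
    (S.card : ℝ) ≤ 1 / (K : ℝ) ^ V * (Ch b A K r).card := by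
  classical
  obtain ⟨R, hR, hU⟩ := Uok_ua b hb
  refine ⟨R, hR, fun V => ?_⟩
  obtain ⟨C₁, hC₁, hcount⟩ := count_K b hb R hR V
  refine ⟨C₁, by omega, fun A₀ => ?_⟩
  obtain ⟨A, κ₀, hA, hU2⟩ := hU (2 * (3 * V + 6) + 6) (A₀ + 5 * C₁ ^ 2)
  obtain ⟨k1, h1⟩ := hcount A (by omega)
  refine ⟨A, κ₀, by omega, fun κ hκ => ?_⟩
  obtain ⟨k2, h2⟩ := hU2 κ hκ
  refine ⟨k1 + k2 + 1, fun K hK N hN f hf r hr hr' B hB J hJ hJX S hS hSb => ?_⟩
  obtain ⟨y, hy⟩ : ∃ y, y = (K + 1) ^ κ := ⟨_, rfl⟩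
  have hy1 : 1 ≤ y := by rw [hy]; exact Nat.one_le_pow _ _ (by omega)
  rw [← hy] at hJX hSb
  have hJ0 : (0 : ℝ) < J := by exact_mod_cast hJ
  have hJc : (J : ℂ) ≠ 0 := by exact_mod_cast hJ0.ne'
  obtain ⟨g, hg⟩ : ∃ g : ℕ → ℂ, g = fun m => (∑ j ∈ range J, ∑ a ∈ B, if a + j * y = m then (1 : ℂ) else 0) / J := ⟨_, rfl⟩
  have hg1 : ∀ m, ‖g m‖ ≤ 1 := by
    intro m
    rw [hg]
    show ‖(∑ j ∈ range J, ∑ a ∈ B, if a + j * y = m then (1 : ℂ) else 0) / J‖ ≤ 1
    rw [norm_div, Complex.norm_natCast, div_le_one hJ0]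
    refine (norm_sum_le _ _).trans ?_
    have h3 : ∀ j ∈ range J, ‖∑ a ∈ B, if a + j * y = m then (1 : ℂ) else 0‖ ≤ 1 := by
      intro j _
      have h4 : ∑ a ∈ B, (if a + j * y = m then (1 : ℂ) else 0) = ((B.filter (fun a => a + j * y = m)).card : ℂ) := by
        rw [← sum_filter, sum_const, nsmul_eq_mul, mul_one]
      rw [h4, Complex.norm_natCast]
      have h5 : (B.filter (fun a => a + j * y = m)).card ≤ 1 := by
        rw [card_le_one]
        intro a ha a' ha'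
        rw [mem_filter] at ha ha'
        omega
      exact_mod_cast h5
    refine (sum_le_sum h3).trans (le_of_eq ?_)
    rw [sum_const, nsmul_eq_mul, card_range, mul_one]
  have hsum : ∀ c : ℕ, ∑ m ∈ Icc 1 (b ^ K), g m * exI (ua y) ((m : ℤ) + (c : ℕ)) =
      ((∑ a ∈ B, av (J * y) (a + c) - B.card : ℝ) : ℂ) := by
    intro c
    have h3 : ∑ m ∈ Icc 1 (b ^ K), g m * exI (ua y) ((m : ℤ) + (c : ℕ)) =
        (∑ j ∈ range J, ∑ a ∈ B, ua y (a + j * y + c)) / J := by
      rw [hg]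
      show ∑ m ∈ Icc 1 (b ^ K), ((∑ j ∈ range J, ∑ a ∈ B, if a + j * y = m then (1 : ℂ) else 0) / J) * exI (ua y) ((m : ℤ) + (c : ℕ)) = _
      have h4 : ∀ m ∈ Icc 1 (b ^ K), ((∑ j ∈ range J, ∑ a ∈ B, if a + j * y = m then (1 : ℂ) else 0) / J) * exI (ua y) ((m : ℤ) + (c : ℕ)) =
          (∑ j ∈ range J, ∑ a ∈ B, if a + j * y = m then exI (ua y) ((m : ℤ) + (c : ℕ)) else 0) / J := by
        intro m _
        rw [div_mul_eq_mul_div, sum_mul]
        congr 1
        apply sum_congr rfl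
        intro j _
        rw [sum_mul]
        apply sum_congr rfl
        intro a _
        rw [ite_mul, one_mul, zero_mul]
      rw [sum_congr rfl h4, ← sum_div, sum_comm]
      congr 1
      apply sum_congr rfl
      intro j hj
      rw [sum_comm]
      apply sum_congr rfl
      intro a ha
      rw [mem_range] at hj
      have ha' := mem_Icc.1 (hB ha)
      have h5 : j * y ≤ b ^ K / 2 := (Nat.mul_le_mul_right _ hj.le).trans hJX
      have h6 : a + j * y ∈ Icc 1 (b ^ K) := by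
        rw [mem_Icc]
        omega
      rw [sum_ite_eq, if_pos h6]
      unfold exI
      rw [if_pos (by push_cast; omega)]
      congr 1
    rw [h3]
    have h4 : ∑ j ∈ range J, ∑ a ∈ B, ua y (a + j * y + c) = ((∑ a ∈ B, ∑ j ∈ range J, (av y (a + c + j * y) - 1) : ℝ) : ℂ) := by
      rw [sum_comm]
      push_cast
      apply sum_congr rfl
      intro a _
      apply sum_congr rfl
      intro j _
      unfold ua
      push_cast
      rw [show a + j * y + c = a + c + j * y by ring]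
    have h5 : ∀ a ∈ B, ∑ j ∈ range J, (av y (a + c + j * y) - 1) = J * (av (J * y) (a + c) - 1) := by
      intro a _
      rw [sum_sub_distrib, av_blocks y (a + c) J hy1 hJ, sum_const, nsmul_eq_mul, card_range]
      ring
    rw [h4, sum_congr rfl h5, ← mul_sum]
    push_cast
    rw [mul_div_cancel_left₀ _ hJc, sum_sub_distrib, sum_const, nsmul_eq_mul, mul_one]
  refine h1 K (by omega) (ua y) (by rw [hy]; exact h2 (K + 1) (by omega)) g hg1 (b ^ K) le_rfl N hN f hf r hr hr' S hS ?_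
  intro T hT
  rw [hsum, Complex.norm_real, Real.norm_eq_abs]
  exact hSb T hT

end Pool.Agent.TH894.LH
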