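import Pool.Agent.TH894.LH5

set_option autoImplicit false

/-! Primes to the right of the points of a translate: all lengths, and many points. -/

namespace Pool.Agent.TH894.LH
open Finset Filter
open Pool.Agent.W93.DG
open Pool.Agent.W301.SS
open Pool.Agent.TH646.TT
open Pool.Agent.TH894.SM (mu mu_pos change Win un change_lt)
open Pool.Agent.TH894.LG (Uok count_K Ch pow_le_two_pow)

/-- from the weights to the numbers of primes -/
lemma det_one (C : ℕ) (ε : ℝ) (hε : 0 < ε) (hε1 : ε ≤ 1) : ∀ᶠ N : ℕ in atTop, ∀ A : Finset ℕ, A ⊆ Icc 1 N →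
    (N : ℝ) ≤ A.card * Real.log N ^ C → ∀ b : ℕ, b ≤ N → ∀ y : ℕ, 1 ≤ y → y ≤ 2 * N →
    |∑ a ∈ A, av y (a + b) - A.card| ≤ (ε / 8) * A.card →
    |cs A b y * Real.log N - A.card * y| ≤ ε * (A.card * y) := by
  filter_upwards [ev_conv (ε / 4) (by linarith) (by linarith), ev_L (8 / ε + 1),
    ev_log (C + 1) (16 / ε) (ε / 8) (by positivity), eventually_ge_atTop 16] with
    N h1 h2 h3 hN16 A hA hAN b hbN y hy hy2 hcon
  obtain ⟨h5, -⟩ := h1
  have hNr : (16 : ℝ) ≤ N := by exact_mod_cast (by omega : 16 ≤ N)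
  have hN0 : (0 : ℝ) < N := by linarith
  have hN1 : (1 : ℝ) ≤ N := by linarith
  obtain ⟨ℓ, hℓ⟩ : ∃ ℓ, ℓ = Real.log (N : ℝ) := ⟨_, rfl⟩
  rw [← hℓ] at h2 h3 h5 hAN ⊢
  have hd8 : 0 < 8 / ε := by positivity
  have hℓ1 : 1 ≤ ℓ := by linarith
  have hℓ0 : 0 < ℓ := by linarith
  have hy0 : (0 : ℝ) < y := by exact_mod_cast hy
  obtain ⟨c, hc⟩ : ∃ c : ℝ, c = A.card := ⟨_, rfl⟩
  rw [← hc] at hAN hcon ⊢
  have hc0 : 0 < c := by
    by_contra hcon
    have h7 : c = 0 := le_antisymm (not_lt.1 hcon) (by rw [hc]; exact Nat.cast_nonneg _)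
    rw [h7, zero_mul] at hAN
    linarith
  have hpC : 0 < ℓ ^ C := by positivity
  have k2 : |(∑ a ∈ A, av y (a + b)) * y - c * y| ≤ (ε / 8) * (c * y) := by
    rw [← sub_mul, abs_mul, abs_of_pos hy0]
    calc |∑ a ∈ A, av y (a + b) - c| * y ≤ ((ε / 8) * c) * y :=
          mul_le_mul_of_nonneg_right hcon hy0.le
      _ = _ := by ring
  have hcy : 0 < c * y := by positivity
  have k3 := cs_low A N b y (fun a ha => (mem_Icc.1 (hA ha)).2) hbN hy hy2 ((1 + ε / 4) * ℓ) h5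
  obtain ⟨X, hX⟩ : ∃ X : ℕ, X = ⌈(N : ℝ) ^ (1 - ε / 8)⌉₊ := ⟨_, rfl⟩
  have hX1 : 1 ≤ (N : ℝ) ^ (1 - ε / 8) := Real.one_le_rpow hN1 (by linarith)
  have hX2 : (N : ℝ) ^ (1 - ε / 8) ≤ X := by rw [hX]; exact Nat.le_ceil _
  have hX3 : (X : ℝ) ≤ 2 * (N : ℝ) ^ (1 - ε / 8) := by
    have := Nat.ceil_lt_add_one (show 0 ≤ (N : ℝ) ^ (1 - ε / 8) by linarith)
    rw [← hX] at this
    linarith
  have hX4 : 1 ≤ X := by
    have : (1 : ℝ) ≤ X := hX1.trans hX2
    exact_mod_cast this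
  have hX5 : (1 - ε / 8) * ℓ ≤ Real.log (X : ℝ) := by
    rw [hℓ, ← Real.log_rpow hN0]
    exact Real.log_le_log (by positivity) hX2
  have k4 := cs_up A b y X hy ((1 - ε / 8) * ℓ) (by nlinarith) hX5 hX4
  have k5 : (1 - ε / 8) * ℓ * (X * y) ≤ (ε / 8) * (c * y) := by
    have e1 : ℓ * X ≤ (ε / 8) * c := by
      have f1 : ℓ * X * ℓ ^ C ≤ (ε / 8) * N := by
        calc ℓ * X * ℓ ^ C ≤ ℓ * (2 * (N : ℝ) ^ (1 - ε / 8)) * ℓ ^ C := by gcongr
          _ = (ε / 8) * ((16 / ε * ℓ ^ (C + 1)) * (N : ℝ) ^ (1 - ε / 8)) := by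
              rw [pow_succ]
              field_simp
              ring
          _ ≤ (ε / 8) * ((N : ℝ) ^ (ε / 8) * (N : ℝ) ^ (1 - ε / 8)) := by gcongr
          _ = (ε / 8) * N := by
              rw [← Real.rpow_add hN0]
              norm_num
      have f2 : (ε / 8) * N ≤ ((ε / 8) * c) * ℓ ^ C := by
        calc (ε / 8) * N ≤ (ε / 8) * (c * ℓ ^ C) := mul_le_mul_of_nonneg_left hAN (by positivity)
          _ = _ := by ring
      exact le_of_mul_le_mul_right (f1.trans f2) hpC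
    calc (1 - ε / 8) * ℓ * (X * y) = (1 - ε / 8) * (ℓ * X * y) := by ring
      _ ≤ 1 * (ℓ * X * y) := mul_le_mul_of_nonneg_right (by linarith) (by positivity)
      _ = (ℓ * X) * y := by ring
      _ ≤ ((ε / 8) * c) * y := mul_le_mul_of_nonneg_right e1 hy0.le
      _ = _ := by ring
  exact conv_fin ε ℓ c y (cs A b y) _ _ hε hε1 hcy k2 k3 k4 k5

/-- few choices are exceptional -/
theorem all_ch (b : ℕ) (hb : 2 ≤ b) : ∃ R : ℕ, 1 ≤ R ∧ ∀ C U : ℕ, ∀ ε : ℝ, 0 < ε → ε ≤ 1 / 4 → ∃ C₁ : ℕ, 1 ≤ C₁ ∧ ∀ A₀ : ℕ, ∃ A κ' : ℕ, A₀ ≤ A ∧ ∃ k₀ : ℕ,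
    ∀ K : ℕ, k₀ ≤ K → ∀ N : ℕ, N < b ^ K → ∀ f : ℕ → ℕ, (∀ j, f j < b ∧ f j ≠ N / b ^ j % b) →
    ∀ r : Fin 3 → ℕ, (∀ q, C₁ * (Nat.log b (K + 1) + 1) ≤ r q) → (∀ q, 8 * R * r q ≤ (Win (hh b A (K + 1)) (K + 1) q).card) →
    ∀ B : Finset ℕ, B ⊆ Icc 1 (b ^ K / 2) → ((b ^ K : ℕ) : ℝ) ≤ B.card * (K : ℝ) ^ C →
    ∀ S ⊆ Ch b A K r, (∀ T ∈ S, 0 < change b K N f (un T) ∧ ∃ y : ℕ, (K : ℝ) ^ κ' ≤ y ∧ 4 * y ≤ b ^ K ∧
      ¬ (|cs B (change b K N f (un T)) y * Real.log ((b ^ K : ℕ) : ℝ) - B.card * y| ≤ ε * (B.card * y) ∧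
        (1 / 4 - ε) * B.card ≤ (GG B (b ^ K) (change b K N f (un T)) y ε).card)) →
    (S.card : ℝ) ≤ 1 / (K : ℝ) ^ U * (Ch b A K r).card := by
  classical
  obtain ⟨R, hR, hth⟩ := theta_ch b hb
  refine ⟨R, hR, fun C U ε hε hε1 => ?_⟩
  obtain ⟨η, hη⟩ : ∃ η, η = ε / 64 := ⟨_, rfl⟩
  have hη0 : 0 < η := by rw [hη]; positivity
  have hη1 : η ≤ 1 / 64 := by rw [hη]; linarith
  obtain ⟨V, hV⟩ : ∃ V, V = U + C + 5 := ⟨_, rfl⟩
  obtain ⟨C₁, hC₁, hA⟩ := hth V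
  refine ⟨C₁, hC₁, fun A₀ => ?_⟩
  obtain ⟨A, κ, hAA, hκ⟩ := hA A₀
  obtain ⟨k0, h0⟩ := hκ κ le_rfl
  obtain ⟨n1, h1⟩ := eventually_atTop.1 (det_one (C + 1) (2 * η) (by linarith) (by linarith))
  obtain ⟨n2, h2⟩ := eventually_atTop.1 (good_many (C + 1) ε hε hε1)
  have hlr : 0 < Real.log (1 + η) := Real.log_pos (by linarith)
  obtain ⟨k3, h3⟩ := exists_nat_ge (2 / η + 4 / η + 1 / Real.log (1 + η) + 2 ^ (C + 1) + 16)
  refine ⟨A, 2 * (C + 1 + 20) + 2 * κ + 3, hAA, k0 + n1 + n2 + k3 + b + 4, fun K hK N hN f hf r hr hr' B hB hBX S hS hSb => ?_⟩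
  have hb1 : 1 < b := by omega
  obtain ⟨X, hX⟩ : ∃ X, X = b ^ K := ⟨_, rfl⟩
  have hKX : K < X := by rw [hX]; exact Nat.lt_pow_self hb1
  have hX0 : (0 : ℝ) < X := by exact_mod_cast (by omega : 0 < X)
  have hbr : (2 : ℝ) ≤ b := by exact_mod_cast hb
  have hKr : (k3 : ℝ) ≤ K := by exact_mod_cast (by omega : k3 ≤ K)
  have hd1 : 0 < 2 / η := by positivity
  have hd2 : 0 < 1 / Real.log (1 + η) := by positivity
  have hd3 : (0 : ℝ) < 2 ^ (C + 1) := by positivity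
  have hd4 : 0 < 4 / η := by positivity
  have hK16 : (16 : ℝ) ≤ K := by linarith
  have hK0 : (0 : ℝ) < K := by linarith
  have hK1 : (1 : ℝ) ≤ K := by linarith
  obtain ⟨hL1, hL2⟩ := logX b K hb
  have hKb : (b : ℝ) ≤ K := by exact_mod_cast (by omega : b ≤ K)
  obtain ⟨L, hL⟩ : ∃ L, L = Real.log ((b ^ K : ℕ) : ℝ) := ⟨_, rfl⟩
  rw [← hL] at hL1 hL2
  have hL0 : 0 < L := by linarith
  have hL1' : 1 ≤ L := by linarith
  have hLK : L ≤ (K : ℝ) ^ 2 := by nlinarith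
  have hKC : (K : ℝ) ^ C ≤ L ^ (C + 1) := by
    calc (K : ℝ) ^ C ≤ (2 * L) ^ C := pow_le_pow_left₀ hK0.le (by linarith) C
      _ = 2 ^ C * L ^ C := mul_pow _ _ _
      _ ≤ L * L ^ C := by
          apply mul_le_mul_of_nonneg_right _ (by positivity)
          have : (2 : ℝ) ^ (C + 1) ≤ K := by linarith
          rw [pow_succ] at this
          linarith
      _ = L ^ (C + 1) := by rw [pow_succ]; ring
  have hBX2 : ((X : ℕ) : ℝ) ≤ B.card * Real.log (X : ℝ) ^ (C + 1) := by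
    rw [hX, ← hL]
    exact hBX.trans (mul_le_mul_of_nonneg_left hKC (Nat.cast_nonneg _))
  have hBsub : B ⊆ Icc 1 X := by
    refine hB.trans ?_
    rw [hX]
    exact Icc_subset_Icc_right (Nat.div_le_self _ _)
  have hB0 : (0 : ℝ) < B.card := by
    by_contra hcon
    have h7 : (B.card : ℝ) = 0 := le_antisymm (not_lt.1 hcon) (Nat.cast_nonneg _)
    rw [h7, zero_mul, ← hX] at hBX
    linarith
  obtain ⟨y0, hy0⟩ : ∃ y0, y0 = (K + 1) ^ κ := ⟨_, rfl⟩
  have hy01 : 1 ≤ y0 := by rw [hy0]; exact Nat.one_le_pow _ _ (by omega)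
  have hy0r : (1 : ℝ) ≤ y0 := by exact_mod_cast hy01
  have hy0K : (y0 : ℝ) ≤ (K : ℝ) ^ (2 * κ) := by
    rw [hy0, pow_mul]
    push_cast
    exact pow_le_pow_left₀ (by linarith) (by nlinarith) κ
  -- the grid
  obtain ⟨Jm, hJm⟩ : ∃ Jm : ℕ, Jm = K ^ 3 + 2 := ⟨_, rfl⟩
  obtain ⟨JJ, hJJ⟩ : ∃ JJ : Finset ℕ, JJ = (range Jm).image (fun j => gr η j) ∪ (range Jm).image (fun j => gr η j + 1) := ⟨_, rfl⟩
  have hJJc : (JJ.card : ℝ) ≤ (K : ℝ) ^ 4 := by
    have e1 : JJ.card ≤ Jm + Jm := by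
      rw [hJJ]
      refine (card_union_le _ _).trans (add_le_add ?_ ?_)
      · exact card_image_le.trans (le_of_eq (card_range _))
      · exact card_image_le.trans (le_of_eq (card_range _))
    have e2 : (JJ.card : ℝ) ≤ 2 * ((K : ℝ) ^ 3 + 2) := by
      have : (JJ.card : ℝ) ≤ ((Jm + Jm : ℕ) : ℝ) := by exact_mod_cast e1
      refine this.trans (le_of_eq ?_)
      rw [hJm]
      push_cast
      ring
    have e3 : (1 : ℝ) ≤ (K : ℝ) ^ 3 := one_le_pow₀ hK1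
    have e4 : (K : ℝ) ^ 4 = K * (K : ℝ) ^ 3 := by ring
    nlinarith
  obtain ⟨BB, hBB⟩ : ∃ BB : ℕ → Finset (Fin 3 → Finset ℕ), BB = fun J => S.filter (fun T => 1 ≤ J ∧ J * y0 ≤ X / 2 ∧
    (b : ℝ) ^ K / (K : ℝ) ^ V < |∑ a ∈ B, av (J * y0) (a + change b K N f (un T)) - B.card|) := ⟨_, rfl⟩
  have hBBc : ∀ J ∈ JJ, ((BB J).card : ℝ) ≤ 1 / (K : ℝ) ^ V * (Ch b A K r).card := by
    intro J _
    by_cases h : 1 ≤ J ∧ J * y0 ≤ X / 2
    · apply h0 K (by omega) N hN f hf r hr hr' B hB J h.1 (by rw [← hX, ← hy0]; exact h.2) (BB J)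
      · rw [hBB]
        exact (filter_subset _ _).trans hS
      · intro T hT
        rw [hBB] at hT
        have := (mem_filter.1 hT).2
        rw [← hy0]
        exact this.2.2
    · have : BB J = ∅ := by
        rw [hBB]
        simp only
        rw [filter_eq_empty_iff]
        intro T _ hT
        exact h ⟨hT.1, hT.2.1⟩
      rw [this, card_empty, Nat.cast_zero]
      positivity
  have hsub : S ⊆ JJ.biUnion BB := by
    intro T hT
    obtain ⟨hc0, y, hy1, hy2, hnot⟩ := hSb T hT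
    obtain ⟨c, hc⟩ : ∃ c, c = change b K N f (un T) := ⟨_, rfl⟩
    rw [← hc] at hc0 hnot
    have hcX : c ≤ X := by
      rw [hc, hX]
      exact (change_lt b K N (by omega) f (fun j => (hf j).1) _).le
    rw [mem_biUnion]
    by_contra hcon
    push Not at hcon
    apply hnot
    -- the error in terms of the size of `B`
    have hgood : ∀ J ∈ JJ, 1 ≤ J → J * y0 ≤ X / 2 →
        |cs B c (J * y0) * Real.log (X : ℝ) - B.card * ((J * y0 : ℕ) : ℝ)| ≤ (2 * η) * (B.card * ((J * y0 : ℕ) : ℝ)) := by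
      intro J hJ hJ1 hJ2
      have e1 := hcon J hJ
      rw [hBB] at e1
      simp only [mem_filter, not_and, not_lt] at e1
      have e2 := e1 hT hJ1 hJ2
      rw [← hc] at e2
      have e3 : (b : ℝ) ^ K / (K : ℝ) ^ V ≤ (2 * η / 8) * B.card := by
        have e4 : (b : ℝ) ^ K = ((b ^ K : ℕ) : ℝ) := by push_cast; rfl
        rw [e4, div_le_iff₀ (by positivity)]
        refine hBX.trans ?_
        have e5 : (K : ℝ) ^ C ≤ 2 * η / 8 * (K : ℝ) ^ V := by
          have e6 : (K : ℝ) ^ V = (K : ℝ) ^ C * (K : ℝ) ^ (U + 5) := by rw [← pow_add, hV]; congr 1; ring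
          rw [e6]
          have e7 : 1 ≤ η / 4 * (K : ℝ) ^ (U + 5) := by
            have e8 : (K : ℝ) ^ 1 ≤ (K : ℝ) ^ (U + 5) := pow_le_pow_right₀ hK1 (by omega)
            rw [pow_one] at e8
            have e9 : 4 / η ≤ K := by linarith
            rw [div_le_iff₀ hη0] at e9
            nlinarith
          calc (K : ℝ) ^ C = (K : ℝ) ^ C * 1 := (mul_one _).symm
            _ ≤ (K : ℝ) ^ C * (η / 4 * (K : ℝ) ^ (U + 5)) := mul_le_mul_of_nonneg_left e7 (by positivity)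
            _ = _ := by ring
        calc (B.card : ℝ) * (K : ℝ) ^ C ≤ B.card * (2 * η / 8 * (K : ℝ) ^ V) := mul_le_mul_of_nonneg_left e5 (Nat.cast_nonneg _)
          _ = _ := by ring
      have e5 : 1 ≤ J * y0 := Nat.mul_pos (by omega) (by omega)
      have e6 := h1 X (by omega) B hBsub hBX2 c hcX (J * y0) e5 (by omega) (e2.trans e3)
      exact e6
    -- the position in the grid
    obtain ⟨z, hz⟩ : ∃ z, z = y / y0 := ⟨_, rfl⟩
    have hzy : z * y0 ≤ y := by rw [hz]; exact Nat.div_mul_le_self y y0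
    have hyz : y < (z + 1) * y0 := by
      rw [hz]
      have := Nat.lt_div_mul_add (a := y) (b := y0) (by omega)
      linarith
    have hκK : (K : ℝ) * y0 ≤ y := by
      refine le_trans ?_ hy1
      calc (K : ℝ) * y0 ≤ K * (K : ℝ) ^ (2 * κ) := mul_le_mul_of_nonneg_left hy0K hK0.le
        _ = (K : ℝ) ^ (2 * κ + 1) := by rw [pow_succ]; ring
        _ ≤ _ := pow_le_pow_right₀ hK1 (by omega)
    have hy0η : (y0 : ℝ) ≤ η / 2 * y := by
      have e9 : 2 / η ≤ K := by linarith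
      rw [div_le_iff₀ hη0] at e9
      nlinarith
    have hzyr : (z : ℝ) * y0 ≤ y := by exact_mod_cast hzy
    have hyzr : (y : ℝ) < ((z : ℝ) + 1) * y0 := by exact_mod_cast hyz
    have hzη : 1 / η ≤ z := by
      have e1 : (K : ℝ) < z + 1 := by
        have : (K : ℝ) * y0 < ((z : ℝ) + 1) * y0 := lt_of_le_of_lt hκK hyzr
        exact lt_of_mul_lt_mul_right this (by linarith)
      have e2 : 2 / η = 1 / η + 1 / η := by ring
      have e3 : 64 ≤ 1 / η := by rw [le_div_iff₀ hη0]; linarith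
      linarith
    have hz1 : 1 ≤ z := by
      have e3 : 64 ≤ 1 / η := by rw [le_div_iff₀ hη0]; linarith
      have : (1 : ℝ) ≤ z := by linarith
      exact_mod_cast this
    obtain ⟨j, g1, g2, g3, g4, g5⟩ := gr_mem hη0 (by linarith) z hz1 hzη
    have hyX : 4 * y ≤ X := by rw [hX]; exact hy2
    have hjJ : j + 1 < Jm := by
      have e1 : (j : ℝ) ≤ L / Real.log (1 + η) := by
        rw [le_div_iff₀ hlr, ← Real.log_pow, hL]
        apply Real.log_le_log (by positivity)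
        refine g1.trans ?_
        have : z ≤ b ^ K := by
          rw [← hX]
          have : z * 1 ≤ z * y0 := Nat.mul_le_mul_left _ hy01
          omega
        exact_mod_cast this
      have e2 : L / Real.log (1 + η) ≤ (K : ℝ) ^ 3 := by
        calc L / Real.log (1 + η) = L * (1 / Real.log (1 + η)) := by ring
          _ ≤ (K : ℝ) ^ 2 * K := mul_le_mul hLK (by linarith) hd2.le (by positivity)
          _ = (K : ℝ) ^ 3 := by ring
      have e3 : (j : ℝ) ≤ ((K ^ 3 : ℕ) : ℝ) := by push_cast; exact e1.trans e2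
      have e4 : j ≤ K ^ 3 := by exact_mod_cast e3
      omega
    have hJ1 : gr η j ∈ JJ := by
      rw [hJJ, mem_union]
      left
      exact mem_image_of_mem _ (mem_range.2 (by omega))
    have hJ2 : gr η (j + 1) + 1 ∈ JJ := by
      rw [hJJ, mem_union]
      right
      exact mem_image.2 ⟨j + 1, mem_range.2 hjJ, rfl⟩
    have hzr : (0 : ℝ) ≤ z := Nat.cast_nonneg _
    -- the two lengths
    have l1 : gr η j * y0 ≤ y := (Nat.mul_le_mul_right _ g2).trans hzy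
    have l2 : y ≤ (gr η (j + 1) + 1) * y0 := hyz.le.trans (Nat.mul_le_mul_right _ (by omega))
    have l3 : (((gr η (j + 1) + 1) * y0 : ℕ) : ℝ) ≤ (1 + 2 * η) * y := by
      push_cast
      have e1 : ((gr η (j + 1) : ℝ) + 1) * y0 ≤ ((1 + η) * z + 1) * y0 := by gcongr
      have e2 : ((1 + η) * (z : ℝ) + 1) * y0 = (1 + η) * (z * y0) + y0 := by ring
      have e3 : (1 + η) * ((z : ℝ) * y0) ≤ (1 + η) * y := mul_le_mul_of_nonneg_left hzyr (by linarith)
      have e4 : η / 2 * (y : ℝ) ≤ η * y := by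
        have : (0 : ℝ) ≤ y := Nat.cast_nonneg _
        nlinarith
      linarith
    have l4 : (1 - 2 * (2 * η)) * (y : ℝ) ≤ ((gr η j * y0 : ℕ) : ℝ) := by
      push_cast
      have e1 : ((1 - 2 * η) * (z : ℝ)) * y0 ≤ (gr η j : ℝ) * y0 := by gcongr
      have e2 : (y : ℝ) - y0 ≤ z * y0 := by linarith
      have e3 : (1 - 2 * η) * ((y : ℝ) - y0) ≤ (1 - 2 * η) * (z * y0) := mul_le_mul_of_nonneg_left e2 (by linarith)
      have e4 : (1 - 2 * η) * (z * (y0 : ℝ)) = ((1 - 2 * η) * (z : ℝ)) * y0 := by ring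
      have e5 : (0 : ℝ) ≤ y := Nat.cast_nonneg _
      nlinarith
    have hgj1 : 1 ≤ gr η j := by
      unfold gr
      apply Nat.le_floor
      push_cast
      exact one_le_pow₀ (by linarith)
    have m1 := hgood _ hJ1 hgj1 (by omega)
    have m2 := hgood _ hJ2 (by omega) (by
      have e1 : (((gr η (j + 1) + 1) * y0 : ℕ) : ℝ) ≤ 2 * y := by
        refine l3.trans ?_
        have : (0 : ℝ) ≤ y := Nat.cast_nonneg _
        nlinarith
      have e2 : (gr η (j + 1) + 1) * y0 ≤ 2 * y := by exact_mod_cast e1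
      omega)
    have hlogX0 : 0 < Real.log (X : ℝ) := by rw [hX, ← hL]; exact hL0
    have m3 := interp B c y (gr η j * y0) ((gr η (j + 1) + 1) * y0) (Real.log (X : ℝ)) (2 * η) hlogX0 (by linarith) (by linarith)
      l1 l2 l3 l4 m1 m2
    have e16 : 8 * (2 * η) = ε / 4 := by rw [hη]; ring
    rw [e16] at m3
    have hyC : Real.log (X : ℝ) ^ (C + 1 + 20) ≤ y := by
      refine le_trans ?_ hy1
      rw [hX, ← hL]
      calc L ^ (C + 1 + 20) ≤ ((K : ℝ) ^ 2) ^ (C + 1 + 20) := pow_le_pow_left₀ hL0.le hLK _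
        _ = (K : ℝ) ^ (2 * (C + 1 + 20)) := by rw [← pow_mul]
        _ ≤ _ := pow_le_pow_right₀ hK1 (by omega)
    have m4 := h2 X (by omega) B hBsub hBX2 c (mem_Icc.2 ⟨hc0, hcX⟩) y hyC m3
    rw [← hX]
    refine ⟨m3.trans ?_, m4⟩
    apply mul_le_mul_of_nonneg_right _ (by positivity)
    linarith
  calc (S.card : ℝ) ≤ ((∑ J ∈ JJ, (BB J).card : ℕ) : ℝ) := by exact_mod_cast (card_le_card hsub).trans card_biUnion_le
    _ = ∑ J ∈ JJ, ((BB J).card : ℝ) := by push_cast; rfl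
    _ ≤ ∑ J ∈ JJ, (1 / (K : ℝ) ^ V * (Ch b A K r).card) := sum_le_sum hBBc
    _ = JJ.card * (1 / (K : ℝ) ^ V * (Ch b A K r).card) := by rw [sum_const, nsmul_eq_mul]
    _ ≤ (K : ℝ) ^ 4 * (1 / (K : ℝ) ^ V * (Ch b A K r).card) := mul_le_mul_of_nonneg_right hJJc (by positivity)
    _ = ((K : ℝ) ^ 4 / (K : ℝ) ^ V) * (Ch b A K r).card := by ring
    _ ≤ 1 / (K : ℝ) ^ U * (Ch b A K r).card := by
        apply mul_le_mul_of_nonneg_right _ (Nat.cast_nonneg _)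
        rw [div_le_div_iff₀ (by positivity) (by positivity), one_mul, ← pow_add]
        exact pow_le_pow_right₀ hK1 (by omega)

end Pool.Agent.TH894.LH
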