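import Mathlib

set_option autoImplicit false

/-! Elementary symmetric functions of unimodular numbers: a bound by pairs. -/

namespace Pool.Agent.TH894.ND
open Finset

/-- the terms of the binomial expansion with the integer mean `r` increase up to `r` and decrease afterwards -/
lemma term_step (K r j : ℕ) (hr : 1 ≤ r) (hK : 2 * r ≤ K) (t : ℝ) (ht : t = r / ((K : ℝ) - r)) :
    (j + 1 ≤ r → (K.choose j : ℝ) * t ^ j ≤ (K.choose (j + 1) : ℝ) * t ^ (j + 1)) ∧
    (r ≤ j → (K.choose (j + 1) : ℝ) * t ^ (j + 1) ≤ (K.choose j : ℝ) * t ^ j) := by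
  have hrK : (2 : ℝ) * r ≤ K := by exact_mod_cast hK
  have hr1 : (1 : ℝ) ≤ r := by exact_mod_cast hr
  have hKr : 0 < (K : ℝ) - r := by linarith
  have ht0 : 0 < t := by rw [ht]; positivity
  have hrel : (K.choose (j + 1) : ℝ) * (j + 1) = (K.choose j : ℝ) * ((K : ℝ) - j) ∨ K ≤ j := by
    rcases Nat.lt_or_ge j K with h | h
    · left
      have h1 := Nat.choose_succ_right_eq K j
      have h2 : ((K.choose (j + 1) * (j + 1) : ℕ) : ℝ) = ((K.choose j * (K - j) : ℕ) : ℝ) := by rw [h1]
      push_cast [Nat.cast_sub h.le] at h2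
      exact h2
    · exact Or.inr h
  have hj1 : (0 : ℝ) < (j : ℝ) + 1 := by positivity
  have hc0 : (0 : ℝ) ≤ (K.choose j : ℝ) := Nat.cast_nonneg _
  have htj : 0 < t ^ j := by positivity
  have htr : t * ((K : ℝ) - r) = r := by rw [ht]; field_simp
  constructor
  · intro hj
    have hjr : (j : ℝ) + 1 ≤ r := by exact_mod_cast hj
    rcases hrel with h | h
    · have h3 : (K.choose j : ℝ) ≤ (K.choose (j + 1) : ℝ) * t := by
        have h4 : (K.choose j : ℝ) * ((j : ℝ) + 1) ≤ (K.choose (j + 1) : ℝ) * t * ((j : ℝ) + 1) := by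
          have h5 : (K.choose (j + 1) : ℝ) * t * ((j : ℝ) + 1) = (K.choose j : ℝ) * (((K : ℝ) - j) * t) := by
            linear_combination t * h
          rw [h5]
          apply mul_le_mul_of_nonneg_left _ hc0
          have h6 : ((j : ℝ) + 1) * ((K : ℝ) - r) ≤ (((K : ℝ) - j) * t) * ((K : ℝ) - r) := by
            have h7 : (((K : ℝ) - j) * t) * ((K : ℝ) - r) = ((K : ℝ) - j) * r := by linear_combination ((K : ℝ) - j) * htr
            rw [h7]
            nlinarith
          exact le_of_mul_le_mul_right h6 hKr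
        exact le_of_mul_le_mul_right h4 hj1
      calc (K.choose j : ℝ) * t ^ j ≤ ((K.choose (j + 1) : ℝ) * t) * t ^ j := mul_le_mul_of_nonneg_right h3 htj.le
        _ = _ := by rw [pow_succ]; ring
    · exfalso; omega
  · intro hj
    have hjr : (r : ℝ) ≤ j := by exact_mod_cast hj
    rcases hrel with h | h
    · rcases Nat.lt_or_ge j K with hlt | hge
      · have hjK : (j : ℝ) + 1 ≤ K := by exact_mod_cast hlt
        have h3 : (K.choose (j + 1) : ℝ) * t ≤ (K.choose j : ℝ) := by
          have h4 : (K.choose (j + 1) : ℝ) * t * ((j : ℝ) + 1) ≤ (K.choose j : ℝ) * ((j : ℝ) + 1) := by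
            have h5 : (K.choose (j + 1) : ℝ) * t * ((j : ℝ) + 1) = (K.choose j : ℝ) * (((K : ℝ) - j) * t) := by
              linear_combination t * h
            rw [h5]
            apply mul_le_mul_of_nonneg_left _ hc0
            have h6 : (((K : ℝ) - j) * t) * ((K : ℝ) - r) ≤ ((j : ℝ) + 1) * ((K : ℝ) - r) := by
              have h7 : (((K : ℝ) - j) * t) * ((K : ℝ) - r) = ((K : ℝ) - j) * r := by linear_combination ((K : ℝ) - j) * htr
              rw [h7]
              nlinarith
            exact le_of_mul_le_mul_right h6 hKr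
          exact le_of_mul_le_mul_right h4 hj1
        calc (K.choose (j + 1) : ℝ) * t ^ (j + 1) = ((K.choose (j + 1) : ℝ) * t) * t ^ j := by rw [pow_succ]; ring
          _ ≤ (K.choose j : ℝ) * t ^ j := mul_le_mul_of_nonneg_right h3 htj.le
      · rw [Nat.choose_eq_zero_of_lt (by omega : K < j + 1)]
        simp only [Nat.cast_zero, zero_mul]
        positivity
    · rw [Nat.choose_eq_zero_of_lt (by omega : K < j + 1)]
      simp only [Nat.cast_zero, zero_mul]
      positivity

/-- the term of the binomial expansion with the index `r` is the largest -/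
lemma term_max (K r : ℕ) (hr : 1 ≤ r) (hK : 2 * r ≤ K) (t : ℝ) (ht : t = r / ((K : ℝ) - r)) (j : ℕ) :
    (K.choose j : ℝ) * t ^ j ≤ (K.choose r : ℝ) * t ^ r := by
  rcases Nat.le_or_ge j r with h | h
  · obtain ⟨d, hd⟩ := Nat.exists_eq_add_of_le h
    clear h
    induction d generalizing j with
    | zero => rw [hd]; simp
    | succ d ih =>
        refine ((term_step K r j hr hK t ht).1 (by omega)).trans ?_
        exact ih (j + 1) (by omega)
  · obtain ⟨d, hd⟩ := Nat.exists_eq_add_of_le h
    clear h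
    induction d generalizing j with
    | zero => rw [hd]; simp
    | succ d ih =>
        obtain ⟨i, hi⟩ : ∃ i, j = i + 1 := ⟨r + d, by omega⟩
        rw [hi]
        refine ((term_step K r i hr hK t ht).2 (by omega)).trans ?_
        exact ih i (by omega)

/-- the largest term of the binomial expansion is not much smaller than the sum -/
lemma binom_low (K r : ℕ) (hr : 1 ≤ r) (hK : 2 * r ≤ K) (t : ℝ) (ht : t = r / ((K : ℝ) - r)) :
    (1 + t) ^ K ≤ (4 * r + 2) * ((K.choose r : ℝ) * t ^ r) := by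
  have hrK : (2 : ℝ) * r ≤ K := by exact_mod_cast hK
  have hr1 : (1 : ℝ) ≤ r := by exact_mod_cast hr
  have hKr : 0 < (K : ℝ) - r := by linarith
  have ht0 : 0 < t := by rw [ht]; positivity
  have hK0 : 0 < (K : ℝ) := by linarith
  obtain ⟨M, hM⟩ : ∃ M, K = M + 1 := ⟨K - 1, by omega⟩
  have hsum : (1 + t) ^ K = ∑ j ∈ range (K + 1), (K.choose j : ℝ) * t ^ j := by
    rw [add_comm 1 t, add_pow]
    exact sum_congr rfl fun j _ => by rw [one_pow]; ring
  have hmean : ∑ j ∈ range (K + 1), (j : ℝ) * ((K.choose j : ℝ) * t ^ j) = r * (1 + t) ^ K := by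
    have h1 : ∑ j ∈ range (K + 1), (j : ℝ) * ((K.choose j : ℝ) * t ^ j) = K * t * (1 + t) ^ M := by
      rw [sum_range_succ']
      simp only [Nat.cast_zero, zero_mul, add_zero]
      rw [hM]
      have h2 : (1 + t) ^ M = ∑ j ∈ range (M + 1), (M.choose j : ℝ) * t ^ j := by
        rw [add_comm 1 t, add_pow]
        exact sum_congr rfl fun j _ => by rw [one_pow]; ring
      rw [h2, mul_sum]
      refine sum_congr rfl fun j _ => ?_
      have h3 := Nat.add_one_mul_choose_eq M j
      have h4 : (((M + 1) * M.choose j : ℕ) : ℝ) = (((M + 1).choose (j + 1) * (j + 1) : ℕ) : ℝ) := by rw [h3]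
      push_cast at h4 ⊢
      rw [pow_succ]
      linear_combination (-(t ^ j) * t) * h4
    rw [h1]
    have h5 : (K : ℝ) * t = r * (1 + t) := by
      rw [ht]
      field_simp
      ring
    rw [h5, hM, pow_succ]
    ring
  obtain ⟨a, ha⟩ : ∃ a : ℝ, a = (K.choose r : ℝ) * t ^ r := ⟨_, rfl⟩
  have hmax := term_max K r hr hK t ht
  rw [← ha] at hmax ⊢
  have hsplit : (1 + t) ^ K ≤ (2 * r + 1) * a + (1 + t) ^ K / 2 := by
    have h1 : ∀ j ∈ range (K + 1), (K.choose j : ℝ) * t ^ j ≤ (if j ≤ 2 * r then a else 0) +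
        ((j : ℝ) * ((K.choose j : ℝ) * t ^ j)) / (2 * r) := by
      intro j _
      have hp : 0 ≤ (K.choose j : ℝ) * t ^ j := by positivity
      split_ifs with h
      · have := hmax j
        have h2 : 0 ≤ ((j : ℝ) * ((K.choose j : ℝ) * t ^ j)) / (2 * r) := by positivity
        linarith
      · push Not at h
        have h3 : (2 * r : ℝ) ≤ j := by exact_mod_cast h.le
        rw [zero_add, le_div_iff₀ (by positivity)]
        nlinarith
    have h2 := sum_le_sum h1
    rw [← hsum, sum_add_distrib, ← sum_div, hmean] at h2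
    have h3 : (∑ j ∈ range (K + 1), if j ≤ 2 * r then a else 0) = (2 * r + 1) * a := by
      rw [← sum_filter]
      have h4 : (range (K + 1)).filter (fun j => j ≤ 2 * r) = range (2 * r + 1) := by
        ext j
        simp only [mem_filter, mem_range]
        omega
      rw [h4, sum_const, card_range, nsmul_eq_mul]
      push_cast
      ring
    rw [h3] at h2
    have h5 : (r : ℝ) * (1 + t) ^ K / (2 * r) = (1 + t) ^ K / 2 := by
      field_simp
    rw [h5] at h2
    exact h2
  linarith

/-- the coefficients of a product of linear factors by its values at the circle of radius `t` -/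
lemma coeff_le (K r : ℕ) (hrK : r ≤ K) (w : ℕ → ℂ) (t : ℝ) (ht : 0 ≤ t) (B : ℝ)
    (hB : ∀ z : ℂ, ‖z‖ = t → ‖∏ j ∈ range K, (1 + w j * z)‖ ≤ B) :
    ‖∑ S ∈ powersetCard r (range K), ∏ j ∈ S, w j‖ * t ^ r ≤ B := by
  obtain ⟨M, hM⟩ : ∃ M, M = K + 1 := ⟨_, rfl⟩
  have hM0 : M ≠ 0 := by omega
  have hMC : (M : ℂ) ≠ 0 := by exact_mod_cast hM0
  obtain ⟨ζ, hζ⟩ : ∃ ζ : ℂ, ζ = Complex.exp (2 * Real.pi * Complex.I / M) := ⟨_, rfl⟩
  have hprim : IsPrimitiveRoot ζ M := by rw [hζ]; exact Complex.isPrimitiveRoot_exp M hM0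
  have hζn : ‖ζ‖ = 1 := Complex.norm_eq_one_of_pow_eq_one hprim.pow_eq_one hM0
  have hgeo : ∀ n : ℕ, ∑ k ∈ range M, (ζ ^ n) ^ k = if M ∣ n then (M : ℂ) else 0 := by
    intro n
    split_ifs with h
    · have h1 : ζ ^ n = 1 := (hprim.pow_eq_one_iff_dvd n).2 h
      rw [h1]
      simp
    · have h1 : ζ ^ n ≠ 1 := fun h2 => h ((hprim.pow_eq_one_iff_dvd n).1 h2)
      rw [geom_sum_eq h1, ← pow_mul, mul_comm n M, pow_mul, hprim.pow_eq_one, one_pow, sub_self, zero_div]
  have hkey : ∑ k ∈ range M, ζ ^ (k * (M - r)) * ∏ j ∈ range K, (1 + w j * (t * ζ ^ k)) =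
      M * (t ^ r * ∑ S ∈ powersetCard r (range K), ∏ j ∈ S, w j) := by
    have h1 : ∀ k ∈ range M, ζ ^ (k * (M - r)) * ∏ j ∈ range K, (1 + w j * (t * ζ ^ k)) =
        ∑ S ∈ (range K).powerset, (t ^ S.card * ∏ j ∈ S, w j) * (ζ ^ (S.card + (M - r))) ^ k := by
      intro k _
      rw [prod_one_add, mul_sum]
      refine sum_congr rfl fun S _ => ?_
      rw [prod_mul_distrib, prod_const, mul_pow, ← pow_mul, ← pow_mul,
        show (S.card + (M - r)) * k = k * (M - r) + k * S.card by ring, pow_add]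
      ring
    rw [sum_congr rfl h1, sum_comm]
    have h2 : ∀ S ∈ (range K).powerset, ∑ k ∈ range M, ((t : ℂ) ^ S.card * ∏ j ∈ S, w j) * (ζ ^ (S.card + (M - r))) ^ k =
        if S.card = r then M * (t ^ r * ∏ j ∈ S, w j) else 0 := by
      intro S hS
      rw [← mul_sum, hgeo]
      have hc : S.card ≤ K := by
        have := card_le_card (mem_powerset.1 hS)
        rwa [card_range] at this
      have hiff : M ∣ S.card + (M - r) ↔ S.card = r := by
        constructor
        · rintro ⟨q, hq⟩
          have hq1 : q = 1 := by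
            rcases Nat.lt_or_ge q 1 with h | h
            · have : q = 0 := by omega
              rw [this] at hq
              omega
            · rcases Nat.lt_or_ge q 2 with h' | h'
              · omega
              · have : M * 2 ≤ M * q := Nat.mul_le_mul_left M h'
                omega
          rw [hq1] at hq
          omega
        · intro h
          rw [h]
          exact ⟨1, by omega⟩
      by_cases h : S.card = r
      · rw [if_pos (hiff.2 h), if_pos h, h]
        ring
      · rw [if_neg (fun h' => h (hiff.1 h')), if_neg h, mul_zero]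
    rw [sum_congr rfl h2, ← sum_filter, ← mul_sum, ← mul_sum]
    congr 3
    ext S
    rw [mem_filter, mem_powersetCard, mem_powerset]
  have h3 : ‖∑ k ∈ range M, ζ ^ (k * (M - r)) * ∏ j ∈ range K, (1 + w j * (t * ζ ^ k))‖ ≤ M * B := by
    refine (norm_sum_le _ _).trans ?_
    calc ∑ k ∈ range M, ‖ζ ^ (k * (M - r)) * ∏ j ∈ range K, (1 + w j * (t * ζ ^ k))‖ ≤ ∑ _k ∈ range M, B := by
          refine sum_le_sum fun k _ => ?_
          rw [norm_mul, norm_pow, hζn, one_pow, one_mul]
          apply hB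
          rw [norm_mul, norm_pow, hζn, one_pow, mul_one, Complex.norm_real, Real.norm_eq_abs, abs_of_nonneg ht]
      _ = M * B := by rw [sum_const, card_range, nsmul_eq_mul]
  rw [hkey, norm_mul, Complex.norm_natCast, norm_mul, norm_pow, Complex.norm_real, Real.norm_eq_abs, abs_of_nonneg ht] at h3
  have hM1 : (0 : ℝ) < M := by exact_mod_cast (by omega : 0 < M)
  have h4 := le_of_mul_le_mul_left h3 hM1
  linarith

/-- the bound by pairs -/
theorem esymm_bound (K r s : ℕ) (hr : 1 ≤ r) (hK : 2 * r ≤ K) (hs : 1 ≤ s) (w : ℕ → ℂ) (hw : ∀ j, ‖w j‖ ≤ 1)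
    (J : Finset ℕ) (hJ : ∀ i ∈ J, 2 * s * i + 1 < K) (η : ℝ) (hη : 0 ≤ η) (hη1 : η ≤ 1)
    (hJw : ∀ i ∈ J, ‖w (2 * s * i) + w (2 * s * i + 1)‖ ≤ 2 * (1 - η)) :
    ‖∑ S ∈ powersetCard r (range K), ∏ j ∈ S, w j‖ ≤
      (4 * r + 2) * (K.choose r : ℝ) * Real.exp (-(η * r * J.card / (2 * K))) := by
  classical
  have hrK : (2 : ℝ) * r ≤ K := by exact_mod_cast hK
  have hr1 : (1 : ℝ) ≤ r := by exact_mod_cast hr
  have hKr : 0 < (K : ℝ) - r := by linarith
  have hK0 : 0 < (K : ℝ) := by linarith
  obtain ⟨t, ht⟩ : ∃ t : ℝ, t = r / ((K : ℝ) - r) := ⟨_, rfl⟩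
  have ht0 : 0 < t := by rw [ht]; positivity
  have ht1 : t ≤ 1 := by rw [ht, div_le_one hKr]; linarith
  have htK : (r : ℝ) / K ≤ t := by
    rw [ht]
    apply div_le_div_of_nonneg_left (by positivity) hKr (by linarith)
  obtain ⟨U, hU⟩ : ∃ U : Finset ℕ, U = J.biUnion (fun i => {2 * s * i, 2 * s * i + 1}) := ⟨_, rfl⟩
  have hdisj : (J : Set ℕ).PairwiseDisjoint (fun i => ({2 * s * i, 2 * s * i + 1} : Finset ℕ)) := by
    intro i _ i' _ hii
    rw [Function.onFun, disjoint_left]
    intro x hx hx'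
    simp only [mem_insert, mem_singleton] at hx hx'
    apply hii
    have h1 : x / 2 = s * i := by
      rcases hx with h | h
      · rw [h, mul_assoc]; omega
      · rw [h, mul_assoc]; omega
    have h2 : x / 2 = s * i' := by
      rcases hx' with h | h
      · rw [h, mul_assoc]; omega
      · rw [h, mul_assoc]; omega
    exact Nat.eq_of_mul_eq_mul_left (by omega : 0 < s) (h1.symm.trans h2)
  have hUK : U ⊆ range K := by
    intro x hx
    rw [hU, mem_biUnion] at hx
    obtain ⟨i, hi, hxi⟩ := hx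
    have := hJ i hi
    simp only [mem_insert, mem_singleton] at hxi
    rw [mem_range]
    omega
  have hUc : U.card = 2 * J.card := by
    rw [hU, card_biUnion hdisj]
    have : ∀ i ∈ J, ({2 * s * i, 2 * s * i + 1} : Finset ℕ).card = 2 := by
      intro i _
      rw [card_pair (by omega)]
    rw [sum_congr rfl this, sum_const, smul_eq_mul, mul_comm]
  have hB : ∀ z : ℂ, ‖z‖ = t → ‖∏ j ∈ range K, (1 + w j * z)‖ ≤ (1 + t) ^ K * Real.exp (-(η * r * J.card / (2 * K))) := by
    intro z hz
    have h1 : ∀ j, ‖1 + w j * z‖ ≤ 1 + t := by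
      intro j
      refine (norm_add_le _ _).trans ?_
      rw [norm_one, norm_mul, hz]
      have := mul_le_mul_of_nonneg_right (hw j) ht0.le
      linarith
    rw [← prod_sdiff hUK, norm_mul]
    have h2 : ‖∏ j ∈ range K \ U, (1 + w j * z)‖ ≤ (1 + t) ^ (K - 2 * J.card) := by
      rw [norm_prod]
      refine (prod_le_prod (fun j _ => norm_nonneg _) (fun j _ => h1 j)).trans ?_
      rw [prod_const, card_sdiff_of_subset hUK, card_range, hUc]
    have h3 : ‖∏ j ∈ U, (1 + w j * z)‖ ≤ ((1 + t) ^ 2 * Real.exp (-(η * t / 2))) ^ J.card := by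
      rw [hU, prod_biUnion hdisj, norm_prod]
      refine (prod_le_prod (fun j _ => norm_nonneg _) (fun i hi => ?_)).trans (le_of_eq (prod_const _))
      rw [prod_pair (by omega)]
      have e1 : (1 + w (2 * s * i) * z) * (1 + w (2 * s * i + 1) * z) =
          1 + (w (2 * s * i) + w (2 * s * i + 1)) * z + (w (2 * s * i) * w (2 * s * i + 1)) * (z * z) := by ring
      rw [e1]
      have e2 : ‖1 + (w (2 * s * i) + w (2 * s * i + 1)) * z + (w (2 * s * i) * w (2 * s * i + 1)) * (z * z)‖ ≤
          1 + 2 * (1 - η) * t + t * t := by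
        refine (norm_add_le _ _).trans ?_
        refine add_le_add ((norm_add_le _ _).trans ?_) ?_
        · rw [norm_one, norm_mul, hz]
          have := mul_le_mul_of_nonneg_right (hJw i hi) ht0.le
          linarith
        · rw [norm_mul, norm_mul, norm_mul, hz]
          have h5 : ‖w (2 * s * i)‖ * ‖w (2 * s * i + 1)‖ ≤ 1 := by
            calc ‖w (2 * s * i)‖ * ‖w (2 * s * i + 1)‖ ≤ 1 * 1 :=
                  mul_le_mul (hw _) (hw _) (norm_nonneg _) zero_le_one
              _ = 1 := one_mul 1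
          calc ‖w (2 * s * i)‖ * ‖w (2 * s * i + 1)‖ * (t * t) ≤ 1 * (t * t) :=
                mul_le_mul_of_nonneg_right h5 (by positivity)
            _ = t * t := one_mul _
      refine e2.trans ?_
      have e3 : 1 - η * t / 2 ≤ Real.exp (-(η * t / 2)) := by
        have := Real.add_one_le_exp (-(η * t / 2))
        linarith
      have e4 : (1 + t) ^ 2 * (1 - η * t / 2) ≤ (1 + t) ^ 2 * Real.exp (-(η * t / 2)) :=
        mul_le_mul_of_nonneg_left e3 (by positivity)
      refine le_trans ?_ e4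
      have e5 : (1 + t) ^ 2 ≤ 4 := by nlinarith
      have e6 : 0 ≤ η * t := by positivity
      nlinarith
    have h4 : 0 ≤ (1 + t) ^ (K - 2 * J.card) := by positivity
    refine (mul_le_mul h2 h3 (norm_nonneg _) h4).trans ?_
    have hcard : 2 * J.card ≤ K := by
      have := card_le_card hUK
      rw [hUc, card_range] at this
      exact this
    rw [mul_pow, ← pow_mul, ← mul_assoc, ← pow_add, show K - 2 * J.card + 2 * J.card = K by omega, ← Real.exp_nat_mul]
    apply mul_le_mul_of_nonneg_left _ (by positivity)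
    apply Real.exp_le_exp.2
    have h6 : η * r * J.card / (2 * K) = (r / K) * (η * J.card / 2) := by ring
    have h7 : (J.card : ℝ) * -(η * t / 2) = -(t * (η * J.card / 2)) := by ring
    rw [h6, h7]
    have h8 : (r : ℝ) / K * (η * J.card / 2) ≤ t * (η * J.card / 2) :=
      mul_le_mul_of_nonneg_right htK (by positivity)
    linarith
  have h5 := coeff_le K r (by omega) w t ht0.le _ hB
  have h6 := binom_low K r hr hK t ht
  have htr : 0 < t ^ r := by positivity
  have h7 : ‖∑ S ∈ powersetCard r (range K), ∏ j ∈ S, w j‖ * t ^ r ≤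
      ((4 * r + 2) * (K.choose r : ℝ) * Real.exp (-(η * r * J.card / (2 * K)))) * t ^ r := by
    refine h5.trans ?_
    calc (1 + t) ^ K * Real.exp (-(η * r * J.card / (2 * K))) ≤
          ((4 * r + 2) * ((K.choose r : ℝ) * t ^ r)) * Real.exp (-(η * r * J.card / (2 * K))) :=
          mul_le_mul_of_nonneg_right h6 (Real.exp_pos _).le
      _ = _ := by ring
  exact le_of_mul_le_mul_right h7 htr

end Pool.Agent.TH894.ND
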