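import Mathlib

set_option autoImplicit false

/-! Exponentials, and the number of the fractions with few good digits. -/

namespace Pool.Agent.TH894.ND
open Finset

/-- the exponential -/
noncomputable def ee (x : ℝ) : ℂ := Complex.exp ((2 * Real.pi * x : ℝ) * Complex.I)

lemma ee_add (x y : ℝ) : ee (x + y) = ee x * ee y := by
  unfold ee
  rw [← Complex.exp_add]
  congr 1
  push_cast
  ring

lemma ee_norm (x : ℝ) : ‖ee x‖ = 1 := by
  unfold ee
  exact Complex.norm_exp_ofReal_mul_I _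

lemma ee_int (n : ℤ) : ee n = 1 := by
  unfold ee
  rw [show ((2 * Real.pi * (n : ℝ) : ℝ) : ℂ) * Complex.I = n * (2 * Real.pi * Complex.I) by push_cast; ring]
  exact Complex.exp_int_mul_two_pi_mul_I n

lemma ee_zero : ee 0 = 1 := by
  have := ee_int 0
  simpa using this

lemma ee_sum {ι : Type*} (s : Finset ι) (f : ι → ℝ) : ee (∑ i ∈ s, f i) = ∏ i ∈ s, ee (f i) := by
  classical
  induction s using Finset.induction_on with
  | empty => simp [ee_zero]
  | insert a s ha ih => rw [sum_insert ha, prod_insert ha, ee_add, ih]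

/-- the sum of `1` and a point of the unit circle away from `1` -/
lemma one_add_ee (α d : ℝ) (hd : 0 ≤ d) (h : ∀ n : ℤ, d ≤ |α - n|) : ‖1 + ee α‖ ≤ 2 * (1 - 2 * d ^ 2) := by
  obtain ⟨β, hβ⟩ : ∃ β : ℝ, β = α - round α := ⟨_, rfl⟩
  have h1 : d ≤ |β| := by rw [hβ]; exact h _
  have h2 : |β| ≤ 1 / 2 := by rw [hβ]; exact abs_sub_round α
  have he : ee α = ee |β| ∨ ee α = ee (-|β|) := by
    have h3 : ee α = ee β := by
      have h4 : α = β + (round α : ℤ) := by rw [hβ]; ring
      conv_lhs => rw [h4]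
      rw [ee_add, ee_int, mul_one]
    rcases abs_choice β with h5 | h5
    · left; rw [h5, h3]
    · right; rw [h5, h3, neg_neg]
  obtain ⟨γ, hγ⟩ : ∃ γ, γ = |β| := ⟨_, rfl⟩
  rw [← hγ] at h1 h2 he
  have hγ0 : 0 ≤ γ := by rw [hγ]; exact abs_nonneg _
  have hsq : ∀ x : ℝ, ‖1 + ee x‖ ^ 2 = 2 + 2 * Real.cos (2 * Real.pi * x) := by
    intro x
    unfold ee
    rw [Complex.exp_mul_I, ← Complex.normSq_eq_norm_sq, Complex.normSq_apply, ← Complex.ofReal_cos, ← Complex.ofReal_sin]
    simp only [Complex.add_re, Complex.one_re, Complex.ofReal_re, Complex.mul_re, Complex.I_re, mul_zero, Complex.ofReal_im,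
      Complex.I_im, mul_one, sub_self, add_zero, Complex.add_im, Complex.one_im, Complex.mul_im, zero_add]
    have := Real.sin_sq_add_cos_sq (2 * Real.pi * x)
    nlinarith
  have hsq2 : ‖1 + ee α‖ ^ 2 = 2 + 2 * Real.cos (2 * Real.pi * γ) := by
    rcases he with h3 | h3
    · rw [h3, hsq]
    · rw [h3, hsq, mul_neg, Real.cos_neg]
  have hsin : 2 * γ ≤ Real.sin (Real.pi * γ) := by
    have h5 := Real.mul_le_sin (x := Real.pi * γ) (by positivity) (by nlinarith [Real.pi_pos])
    have h6 : 2 / Real.pi * (Real.pi * γ) = 2 * γ := by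
      field_simp
    rwa [h6] at h5
  have hcos : Real.cos (2 * Real.pi * γ) = 1 - 2 * Real.sin (Real.pi * γ) ^ 2 := by
    rw [show 2 * Real.pi * γ = 2 * (Real.pi * γ) by ring, Real.cos_two_mul]
    have := Real.sin_sq_add_cos_sq (Real.pi * γ)
    linarith
  have h7 : ‖1 + ee α‖ ^ 2 ≤ (2 * (1 - 2 * d ^ 2)) ^ 2 := by
    rw [hsq2, hcos]
    have h8 : 4 * d ^ 2 ≤ Real.sin (Real.pi * γ) ^ 2 := by
      have : (2 * d) ^ 2 ≤ Real.sin (Real.pi * γ) ^ 2 := pow_le_pow_left₀ (by positivity) (by linarith) 2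
      nlinarith
    nlinarith [sq_nonneg (d ^ 2)]
  have h9 : 0 ≤ 2 * (1 - 2 * d ^ 2) := by nlinarith
  exact le_of_sq_le_sq h7 h9

/-- sums over the integers below `Z ^ n` of products over the digits -/
lemma sum_digits (Z : ℕ) (hZ : 1 ≤ Z) (ρ : ℕ → ℝ) (n : ℕ) :
    ∑ v ∈ range (Z ^ n), ∏ t ∈ range n, ρ (v / Z ^ t % Z) = (∑ z ∈ range Z, ρ z) ^ n := by
  induction n with
  | zero => simp
  | succ n ih =>
      have h1 : ∑ v ∈ range (Z ^ (n + 1)), ∏ t ∈ range (n + 1), ρ (v / Z ^ t % Z) =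
          ∑ y ∈ range (Z ^ n), ∑ z ∈ range Z, ∏ t ∈ range (n + 1), ρ ((y * Z + z) / Z ^ t % Z) := by
        rw [← sum_product']
        refine sum_nbij' (fun v => (v / Z, v % Z)) (fun yz => yz.1 * Z + yz.2) ?_ ?_ ?_ ?_ ?_
        · intro v hv
          rw [mem_range] at hv
          rw [mem_product, mem_range, mem_range]
          exact ⟨Nat.div_lt_of_lt_mul (by rwa [pow_succ, mul_comm] at hv), Nat.mod_lt _ (by omega)⟩
        · intro yz hyz
          rw [mem_product, mem_range, mem_range] at hyz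
          rw [mem_range, pow_succ]
          calc yz.1 * Z + yz.2 < yz.1 * Z + Z := by omega
            _ = (yz.1 + 1) * Z := by ring
            _ ≤ Z ^ n * Z := Nat.mul_le_mul_right Z (by omega)
        · intro v _
          exact Nat.div_add_mod' v Z
        · intro yz hyz
          rw [mem_product, mem_range, mem_range] at hyz
          ext
          · show (yz.1 * Z + yz.2) / Z = yz.1
            rw [mul_comm, Nat.mul_add_div (by omega), Nat.div_eq_of_lt hyz.2, add_zero]
          · show (yz.1 * Z + yz.2) % Z = yz.2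
            rw [mul_comm, Nat.mul_add_mod, Nat.mod_eq_of_lt hyz.2]
        · intro v _
          show _ = ∏ t ∈ range (n + 1), ρ ((v / Z * Z + v % Z) / Z ^ t % Z)
          rw [Nat.div_add_mod']
      have h2 : ∀ y ∈ range (Z ^ n), ∑ z ∈ range Z, ∏ t ∈ range (n + 1), ρ ((y * Z + z) / Z ^ t % Z) =
          (∏ t ∈ range n, ρ (y / Z ^ t % Z)) * ∑ z ∈ range Z, ρ z := by
        intro y _
        rw [mul_sum]
        refine sum_congr rfl fun z hz => ?_
        rw [mem_range] at hz
        rw [prod_range_succ']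
        congr 1
        · refine prod_congr rfl fun t _ => ?_
          rw [pow_succ', ← Nat.div_div_eq_div_mul, mul_comm y Z, Nat.mul_add_div (by omega), Nat.div_eq_of_lt hz, add_zero]
        · rw [pow_zero, Nat.div_one, mul_comm, Nat.mul_add_mod, Nat.mod_eq_of_lt hz]
      rw [h1, sum_congr rfl h2, ← sum_mul, ih, pow_succ]

/-- few integers have few digits different from `0` and `Z - 1` -/
lemma few_digits (Z E n : ℕ) (hZ : 2 ≤ Z) (hE : 1 ≤ E) :
    (((range (Z ^ n)).filter (fun v => E * ((range n).filter (fun t => v / Z ^ t % Z ≠ 0 ∧ v / Z ^ t % Z ≠ Z - 1)).card < n)).card : ℝ) ≤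
      3 ^ n * (Z : ℝ) ^ ((n : ℝ) / E) := by
  classical
  have hZr : (2 : ℝ) ≤ Z := by exact_mod_cast hZ
  have hZ0 : (0 : ℝ) < Z := by linarith
  have hE0 : (0 : ℝ) < E := by exact_mod_cast hE
  obtain ⟨ρ, hρ⟩ : ∃ ρ : ℕ → ℝ, ρ = fun z => if z ≠ 0 ∧ z ≠ Z - 1 then 1 / (Z : ℝ) else 1 := ⟨_, rfl⟩
  have hsum : ∑ z ∈ range Z, ρ z ≤ 3 := by
    have h1 : ∀ z ∈ range Z, ρ z ≤ 1 / (Z : ℝ) + ((if z = 0 then 1 else 0) + (if z = Z - 1 then 1 else 0)) := by
      intro z _
      rw [hρ]
      have h0 : 0 < 1 / (Z : ℝ) := by positivity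
      by_cases h2 : z = 0
      · subst h2
        simp only [ne_eq, not_true_eq_false, false_and, if_false, if_true]
        split_ifs <;> linarith
      · by_cases h3 : z = Z - 1
        · subst h3
          simp only [ne_eq, not_true_eq_false, and_false, if_false, if_true]
          split_ifs <;> linarith
        · simp only [ne_eq, h2, h3, not_false_eq_true, and_self, if_true, if_false]
          linarith
    refine (sum_le_sum h1).trans ?_
    rw [sum_add_distrib, sum_add_distrib, sum_const, card_range, nsmul_eq_mul, sum_ite_eq', sum_ite_eq']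
    have h4 : (Z : ℝ) * (1 / Z) = 1 := by field_simp
    rw [h4]
    split_ifs <;> norm_num
  have hρ0 : ∀ z, 0 < ρ z := by
    intro z
    rw [hρ]
    show 0 < if z ≠ 0 ∧ z ≠ Z - 1 then 1 / (Z : ℝ) else 1
    split_ifs <;> positivity
  have hprod : ∀ v, ∏ t ∈ range n, ρ (v / Z ^ t % Z) =
      (1 / (Z : ℝ)) ^ ((range n).filter (fun t => v / Z ^ t % Z ≠ 0 ∧ v / Z ^ t % Z ≠ Z - 1)).card := by
    intro v
    rw [hρ]
    show ∏ t ∈ range n, (if v / Z ^ t % Z ≠ 0 ∧ v / Z ^ t % Z ≠ Z - 1 then 1 / (Z : ℝ) else 1) = _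
    rw [← prod_filter, prod_const]
  have h2 : (((range (Z ^ n)).filter (fun v => E * ((range n).filter (fun t => v / Z ^ t % Z ≠ 0 ∧ v / Z ^ t % Z ≠ Z - 1)).card < n)).card : ℝ) *
      (Z : ℝ) ^ (-((n : ℝ) / E)) ≤ 3 ^ n := by
    calc (((range (Z ^ n)).filter (fun v => E * ((range n).filter (fun t => v / Z ^ t % Z ≠ 0 ∧ v / Z ^ t % Z ≠ Z - 1)).card < n)).card : ℝ) *
          (Z : ℝ) ^ (-((n : ℝ) / E)) =
          ∑ v ∈ (range (Z ^ n)).filter (fun v => E * ((range n).filter (fun t => v / Z ^ t % Z ≠ 0 ∧ v / Z ^ t % Z ≠ Z - 1)).card < n),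
            (Z : ℝ) ^ (-((n : ℝ) / E)) := by rw [sum_const, nsmul_eq_mul]
      _ ≤ ∑ v ∈ (range (Z ^ n)).filter (fun v => E * ((range n).filter (fun t => v / Z ^ t % Z ≠ 0 ∧ v / Z ^ t % Z ≠ Z - 1)).card < n),
            ∏ t ∈ range n, ρ (v / Z ^ t % Z) := by
          refine sum_le_sum fun v hv => ?_
          rw [mem_filter] at hv
          rw [hprod]
          obtain ⟨m, hm⟩ : ∃ m, m = ((range n).filter (fun t => v / Z ^ t % Z ≠ 0 ∧ v / Z ^ t % Z ≠ Z - 1)).card := ⟨_, rfl⟩
          rw [← hm] at hv ⊢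
          have h3 : (E : ℝ) * m ≤ n := by exact_mod_cast hv.2.le
          have h4 : (m : ℝ) ≤ (n : ℝ) / E := by
            rw [le_div_iff₀ hE0]
            linarith
          rw [one_div, inv_pow, ← Real.rpow_natCast, ← Real.rpow_neg hZ0.le]
          exact Real.rpow_le_rpow_of_exponent_le (by linarith) (by linarith)
      _ ≤ ∑ v ∈ range (Z ^ n), ∏ t ∈ range n, ρ (v / Z ^ t % Z) :=
          sum_le_sum_of_subset_of_nonneg (filter_subset _ _) (fun v _ _ => prod_nonneg fun t _ => (hρ0 _).le)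
      _ = (∑ z ∈ range Z, ρ z) ^ n := sum_digits Z (by omega) ρ n
      _ ≤ 3 ^ n := pow_le_pow_left₀ (sum_nonneg fun z _ => (hρ0 z).le) hsum n
  have h5 : (0 : ℝ) < (Z : ℝ) ^ ((n : ℝ) / E) := by positivity
  rw [Real.rpow_neg hZ0.le] at h2
  rw [← div_eq_mul_inv, div_le_iff₀ h5] at h2
  exact h2

open Classical in
/-- the fractions with the denominator `Q` whose reduced denominator is at most `D` -/
noncomputable def Fr (Q D : ℕ) : Finset ℕ := (range Q).filter (fun k => ∃ M, 1 ≤ M ∧ M ≤ D ∧ Q ∣ k * M)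

/-- the place is good: the fractional part is at least `1 / Z` away from the integers -/
def Gp (Z Q k : ℕ) : Prop := Q ≤ Z * (k % Q) ∧ Q ≤ Z * (Q - k % Q)

instance (Z Q k : ℕ) : Decidable (Gp Z Q k) := by unfold Gp; infer_instance

lemma Gp_mod (Z Q k : ℕ) : Gp Z Q (k % Q) ↔ Gp Z Q k := by
  unfold Gp
  rw [Nat.mod_mod]

lemma Fr_card (Q D : ℕ) (hQ : 1 ≤ Q) : (Fr Q D).card ≤ D * D := by
  classical
  have h1 : Fr Q D ⊆ ((Icc 1 D) ×ˢ (range D)).image (fun Ma => Ma.2 * Q / Ma.1) := by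
    intro k hk
    unfold Fr at hk
    rw [mem_filter, mem_range] at hk
    obtain ⟨hkQ, M, hM1, hMD, a, ha⟩ := hk
    rw [mem_image]
    refine ⟨(M, a), ?_, ?_⟩
    · rw [mem_product, mem_Icc, mem_range]
      refine ⟨⟨hM1, hMD⟩, ?_⟩
      show a < D
      by_contra hcon
      push Not at hcon
      have h2 : Q * D ≤ Q * a := Nat.mul_le_mul_left Q hcon
      have h3 : k * M < Q * M := Nat.mul_lt_mul_of_pos_right hkQ (by omega)
      have h4 : Q * M ≤ Q * D := Nat.mul_le_mul_left Q hMD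
      omega
    · show a * Q / M = k
      rw [mul_comm a Q, ← ha]
      exact Nat.mul_div_cancel k (by omega)
  refine (card_le_card h1).trans (card_image_le.trans ?_)
  rw [card_product, Nat.card_Icc, card_range]
  exact Nat.mul_le_mul_right D (by omega)

lemma Fr_mul (Q D k u : ℕ) (hk : k ∈ Fr Q D) : u * k % Q ∈ Fr Q D := by
  classical
  unfold Fr at hk ⊢
  rw [mem_filter, mem_range] at hk ⊢
  obtain ⟨hkQ, M, hM1, hMD, hM⟩ := hk
  refine ⟨Nat.mod_lt _ (by omega), M, hM1, hMD, ?_⟩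
  have h1 : (u * k % Q) * M ≡ (u * k) * M [MOD Q] := (Nat.mod_modEq _ _).mul_right M
  have h2 : Q ∣ (u * k) * M := by
    rw [mul_assoc]
    exact hM.mul_left u
  exact (h1.dvd_iff dvd_rfl).2 h2

/-- few fractions with small denominators have few good places among the first ones -/
lemma few_good (Z E n Q D : ℕ) (hZ : 2 ≤ Z) (hE : 1 ≤ E) (hQ : 1 ≤ Q) (hD : D * D ≤ Z ^ n) :
    (((Fr Q D).filter (fun k => E * ((range n).filter (fun t => Gp Z Q (Z ^ t * k))).card < n)).card : ℝ) ≤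
      3 ^ n * (Z : ℝ) ^ ((n : ℝ) / E) := by
  classical
  refine le_trans ?_ (few_digits Z E n hZ hE)
  have hZ0 : 0 < Z := by omega
  norm_cast
  have hdig : ∀ k t, t < n → (Z ^ n * k / Q) / Z ^ (n - 1 - t) % Z = Z * (Z ^ t * k % Q) / Q := by
    intro k t ht
    have h1 : Z ^ n = Z ^ (n - 1 - t) * (Z * Z ^ t) := by
      rw [← pow_succ', ← pow_add]
      congr 1
      omega
    rw [Nat.div_div_eq_div_mul, mul_comm Q, ← Nat.div_div_eq_div_mul, h1, mul_assoc, mul_assoc,
      Nat.mul_div_cancel_left _ (Nat.pow_pos hZ0)]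
    obtain ⟨R, hR⟩ : ∃ R, R = Z ^ t * k % Q := ⟨_, rfl⟩
    obtain ⟨a, ha⟩ : ∃ a, a = Z ^ t * k / Q := ⟨_, rfl⟩
    have h2 : Z ^ t * k = Q * a + R := by rw [ha, hR]; exact (Nat.div_add_mod _ _).symm
    rw [← hR, h2]
    have h3 : Z * (Q * a + R) = Q * (Z * a) + Z * R := by ring
    rw [h3, Nat.mul_add_div (by omega), Nat.mul_add_mod]
    apply Nat.mod_eq_of_lt
    have hRQ : R < Q := by rw [hR]; exact Nat.mod_lt _ (by omega)
    rw [Nat.div_lt_iff_lt_mul (by omega)]
    exact Nat.mul_lt_mul_of_pos_left hRQ hZ0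
  refine card_le_card_of_injOn (fun k => Z ^ n * k / Q) ?_ ?_
  · intro k hk
    rw [mem_coe, mem_filter] at hk
    obtain ⟨hkF, hk2⟩ := hk
    unfold Fr at hkF
    rw [mem_filter, mem_range] at hkF
    rw [mem_coe, mem_filter, mem_range]
    refine ⟨?_, lt_of_le_of_lt (Nat.mul_le_mul_left E ?_) hk2⟩
    · rw [Nat.div_lt_iff_lt_mul (by omega)]
      exact Nat.mul_lt_mul_of_pos_left hkF.1 (Nat.pow_pos hZ0)
    · refine card_le_card_of_injOn (fun t => n - 1 - t) ?_ ?_
      · intro t ht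
        rw [mem_coe, mem_filter, mem_range] at ht
        obtain ⟨htn, ht1, ht2⟩ := ht
        rw [mem_coe, mem_filter, mem_range]
        show n - 1 - t < n ∧ Gp Z Q (Z ^ (n - 1 - t) * k)
        refine ⟨by omega, ?_⟩
        have h4 := hdig k (n - 1 - t) (by omega)
        rw [show n - 1 - (n - 1 - t) = t by omega] at h4
        have ht1' : Z ^ n * k / Q / Z ^ t % Z ≠ 0 := ht1
        have ht2' : Z ^ n * k / Q / Z ^ t % Z ≠ Z - 1 := ht2
        rw [h4] at ht1' ht2'
        unfold Gp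
        obtain ⟨R, hR⟩ : ∃ R, R = Z ^ (n - 1 - t) * k % Q := ⟨_, rfl⟩
        rw [← hR] at ht1' ht2' ⊢
        have hRQ : R < Q := by rw [hR]; exact Nat.mod_lt _ (by omega)
        constructor
        · by_contra hcon
          push Not at hcon
          exact ht1' (Nat.div_eq_of_lt hcon)
        · by_contra hcon
          push Not at hcon
          apply ht2'
          have h5 : Z * R / Q < Z := by
            rw [Nat.div_lt_iff_lt_mul (by omega)]
            exact Nat.mul_lt_mul_of_pos_left hRQ hZ0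
          have h6 : Z - 1 ≤ Z * R / Q := by
            rw [Nat.le_div_iff_mul_le (by omega)]
            have h7 : Z * (Q - R) = Z * Q - Z * R := Nat.mul_sub Z Q R
            have h8 : Z * R ≤ Z * Q := Nat.mul_le_mul_left Z hRQ.le
            have h9 : (Z - 1) * Q = Z * Q - Q := by rw [Nat.sub_mul, one_mul]
            omega
          omega
      · intro t ht t' ht' htt
        rw [mem_coe, mem_filter, mem_range] at ht ht'
        have : n - 1 - t = n - 1 - t' := htt
        omega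
  · intro k hk k' hk' hkk
    have hkk' : Z ^ n * k / Q = Z ^ n * k' / Q := hkk
    by_contra hne
    have key : ∀ x y : ℕ, x ∈ Fr Q D → y ∈ Fr Q D → x < y → Z ^ n * x / Q = Z ^ n * y / Q → False := by
      intro x y hx hy hxy h
      unfold Fr at hx hy
      rw [mem_filter, mem_range] at hx hy
      obtain ⟨hxQ, M, hM1, hMD, hM⟩ := hx
      obtain ⟨hyQ, M', hM1', hMD', hM'⟩ := hy
      have h1 : Q ∣ (y - x) * (M * M') := by
        have e1 : (y - x) * (M * M') = y * M' * M - x * M * M' := by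
          rw [Nat.sub_mul]
          congr 1 <;> ring
        rw [e1]
        exact Nat.dvd_sub (hM'.mul_right M) (hM.mul_right M')
      have h2 : 0 < (y - x) * (M * M') := Nat.mul_pos (by omega) (Nat.mul_pos (by omega) (by omega))
      have h3 : Q ≤ (y - x) * (M * M') := Nat.le_of_dvd h2 h1
      have h4 : (y - x) * (M * M') ≤ (y - x) * Z ^ n :=
        Nat.mul_le_mul_left _ ((Nat.mul_le_mul hMD hMD').trans hD)
      have h5 : Z ^ n * y = Z ^ n * x + (y - x) * Z ^ n := by
        rw [Nat.sub_mul, mul_comm y, mul_comm x]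
        have : Z ^ n * x ≤ Z ^ n * y := Nat.mul_le_mul_left _ hxy.le
        omega
      have h6 : Z ^ n * x + Q ≤ Z ^ n * y := by omega
      have h7 : Z ^ n * x / Q + 1 ≤ Z ^ n * y / Q := by
        calc Z ^ n * x / Q + 1 = (Z ^ n * x + Q) / Q := (Nat.add_div_right _ (by omega)).symm
          _ ≤ _ := Nat.div_le_div_right h6
      omega
    rw [mem_coe, mem_filter] at hk hk'
    rcases Nat.lt_or_gt_of_ne hne with h | h
    · exact key k k' hk.1 hk'.1 h hkk'
    · exact key k' k hk'.1 hk.1 h hkk'.symm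

end Pool.Agent.TH894.ND
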