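import Pool.Agent.TH894.ND1
import Pool.Agent.TH894.ND2

set_option autoImplicit false

/-! The frequencies with few good places, and the exponential sums at the other ones. -/

namespace Pool.Agent.TH894.ND
open Finset

/-- the good places of a frequency -/
def Ig (L Z Q T k : ℕ) : Finset ℕ := (range T).filter (fun i => Gp Z Q (L * Z ^ i * k))

/-- few frequencies have few good places -/
theorem bad_count (L Z E n Q D T : ℕ) (hZ : 2 ≤ Z) (hE : 1 ≤ E) (hQ : 1 ≤ Q) (hn : 1 ≤ n) (hnT : n ≤ T)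
    (hD : D * D ≤ Z ^ n) (hL : Nat.Coprime L Q) (hZQ : Nat.Coprime Z Q) :
    (((Fr Q D).filter (fun k => 4 * (E * (Ig L Z Q T k).card) < T)).card : ℝ) ≤ 2 * (3 ^ n * (Z : ℝ) ^ ((n : ℝ) / E)) := by
  classical
  obtain ⟨q₀, hq₀⟩ : ∃ q₀, q₀ = T / n := ⟨_, rfl⟩
  have hq1 : 1 ≤ q₀ := by
    rw [hq₀, Nat.le_div_iff_mul_le (by omega), one_mul]
    exact hnT
  have hqT : q₀ * n ≤ T := by rw [hq₀]; exact Nat.div_mul_le_self T n
  have hT2 : T ≤ 2 * (q₀ * n) := by
    have h1 : T < n * (T / n + 1) := Nat.lt_mul_div_succ T (by omega)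
    rw [← hq₀] at h1
    have h2 : n * (q₀ + 1) ≤ 2 * (q₀ * n) := by nlinarith
    omega
  obtain ⟨G, hG⟩ : ∃ G : ℕ → ℕ → Finset ℕ, G = fun q k => (range n).filter (fun t => Gp Z Q (L * Z ^ (q * n + t) * k)) := ⟨_, rfl⟩
  -- each block
  have hblock : ∀ q, (((Fr Q D).filter (fun k => E * (G q k).card < n)).card : ℝ) ≤ 3 ^ n * (Z : ℝ) ^ ((n : ℝ) / E) := by
    intro q
    refine le_trans ?_ (few_good Z E n Q D hZ hE hQ hD)
    norm_cast
    have hcop : Nat.Coprime (L * Z ^ (q * n)) Q := Nat.Coprime.mul_left hL (hZQ.pow_left _)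
    refine card_le_card_of_injOn (fun k => L * Z ^ (q * n) * k % Q) ?_ ?_
    · intro k hk
      rw [mem_coe, mem_filter] at hk
      rw [mem_coe, mem_filter]
      refine ⟨Fr_mul Q D k _ hk.1, ?_⟩
      have h1 : (range n).filter (fun t => Gp Z Q (Z ^ t * (L * Z ^ (q * n) * k % Q))) = G q k := by
        rw [hG]
        apply filter_congr
        intro t _
        rw [← Gp_mod Z Q (Z ^ t * (L * Z ^ (q * n) * k % Q)), ← Gp_mod Z Q (L * Z ^ (q * n + t) * k)]
        have h2 : Z ^ t * (L * Z ^ (q * n) * k % Q) % Q = L * Z ^ (q * n + t) * k % Q := by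
          have h3 : Z ^ t * (L * Z ^ (q * n) * k % Q) ≡ Z ^ t * (L * Z ^ (q * n) * k) [MOD Q] :=
            (Nat.mod_modEq _ _).mul_left _
          have h4 : Z ^ t * (L * Z ^ (q * n) * k) = L * Z ^ (q * n + t) * k := by rw [pow_add]; ring
          rw [← h4]
          exact h3
        rw [h2]
      show E * ((range n).filter (fun t => Gp Z Q (Z ^ t * (L * Z ^ (q * n) * k % Q)))).card < n
      rw [h1]
      exact hk.2
    · intro k hk k' hk' hkk
      rw [mem_coe, mem_filter] at hk hk'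
      have hkQ := (mem_range.1 (mem_filter.1 (by have := hk.1; unfold Fr at this; exact this)).1)
      have hkQ' := (mem_range.1 (mem_filter.1 (by have := hk'.1; unfold Fr at this; exact this)).1)
      have h5 : L * Z ^ (q * n) * k ≡ L * Z ^ (q * n) * k' [MOD Q] := hkk
      have h6 : k ≡ k' [MOD Q] := Nat.ModEq.cancel_left_of_coprime (by rw [Nat.gcd_comm]; exact hcop) h5
      exact Nat.ModEq.eq_of_lt_of_lt h6 hkQ hkQ'
  -- the number of blocks
  have hmany : ∀ k, 4 * (E * (Ig L Z Q T k).card) < T → q₀ ≤ 2 * ((range q₀).filter (fun q => E * (G q k).card < n)).card := by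
    intro k hk
    by_contra hcon
    push Not at hcon
    obtain ⟨u, hu⟩ : ∃ u, u = ((range q₀).filter (fun q => E * (G q k).card < n)).card := ⟨_, rfl⟩
    obtain ⟨u', hu'⟩ : ∃ u', u' = ((range q₀).filter (fun q => ¬ E * (G q k).card < n)).card := ⟨_, rfl⟩
    have h1 : u + u' = q₀ := by
      rw [hu, hu']
      rw [card_filter_add_card_filter_not, card_range]
    rw [← hu] at hcon
    have h2 : u' * n ≤ E * (Ig L Z Q T k).card := by
      have h3 : ∑ q ∈ range q₀, (G q k).card ≤ (Ig L Z Q T k).card := by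
        have h4 : ∑ q ∈ range q₀, (G q k).card = ((range q₀).sigma (fun q => G q k)).card := by
          rw [card_sigma]
        rw [h4]
        refine card_le_card_of_injOn (fun qt => qt.1 * n + qt.2) ?_ ?_
        · rintro ⟨q, t⟩ hqt
          rw [mem_coe, mem_sigma, hG] at hqt
          simp only [mem_filter, mem_range] at hqt
          unfold Ig
          rw [mem_coe, mem_filter, mem_range]
          refine ⟨?_, hqt.2.2⟩
          show q * n + t < T
          calc q * n + t < q * n + n := by omega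
            _ = (q + 1) * n := by ring
            _ ≤ q₀ * n := Nat.mul_le_mul_right n (by omega)
            _ ≤ T := hqT
        · rintro ⟨q, t⟩ hqt ⟨q', t'⟩ hqt' h
          rw [mem_coe, mem_sigma, hG] at hqt hqt'
          simp only [mem_filter, mem_range] at hqt hqt'
          have h' : q * n + t = q' * n + t' := h
          have e1 : t = t' := by
            have := congrArg (· % n) h'
            simp only [Nat.mul_add_mod_self_right, Nat.mod_eq_of_lt hqt.2.1, Nat.mod_eq_of_lt hqt'.2.1] at this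
            exact this
          have e2 : q = q' := by
            rw [e1] at h'
            exact Nat.eq_of_mul_eq_mul_right (by omega) (Nat.add_right_cancel h')
          subst e1
          subst e2
          rfl
      calc u' * n = ∑ _q ∈ (range q₀).filter (fun q => ¬ E * (G q k).card < n), n := by
            rw [sum_const, smul_eq_mul, hu']
        _ ≤ ∑ q ∈ (range q₀).filter (fun q => ¬ E * (G q k).card < n), E * (G q k).card := by
            refine sum_le_sum fun q hq => ?_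
            rw [mem_filter] at hq
            exact not_lt.1 hq.2
        _ ≤ ∑ q ∈ range q₀, E * (G q k).card := sum_le_sum_of_subset (filter_subset _ _)
        _ = E * ∑ q ∈ range q₀, (G q k).card := (mul_sum _ _ _).symm
        _ ≤ E * (Ig L Z Q T k).card := Nat.mul_le_mul_left E h3
    have h5 : q₀ + 1 ≤ 2 * u' := by omega
    have h6 : (q₀ + 1) * n ≤ 2 * u' * n := Nat.mul_le_mul_right n h5
    nlinarith
  -- double counting
  have hdc : q₀ * ((Fr Q D).filter (fun k => 4 * (E * (Ig L Z Q T k).card) < T)).card ≤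
      2 * ∑ q ∈ range q₀, ((Fr Q D).filter (fun k => E * (G q k).card < n)).card := by
    calc q₀ * ((Fr Q D).filter (fun k => 4 * (E * (Ig L Z Q T k).card) < T)).card =
          ∑ _k ∈ (Fr Q D).filter (fun k => 4 * (E * (Ig L Z Q T k).card) < T), q₀ := by
            rw [sum_const, smul_eq_mul, mul_comm]
      _ ≤ ∑ k ∈ (Fr Q D).filter (fun k => 4 * (E * (Ig L Z Q T k).card) < T),
            2 * ((range q₀).filter (fun q => E * (G q k).card < n)).card := by
            refine sum_le_sum fun k hk => ?_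
            rw [mem_filter] at hk
            exact hmany k hk.2
      _ ≤ ∑ k ∈ Fr Q D, 2 * ((range q₀).filter (fun q => E * (G q k).card < n)).card :=
            sum_le_sum_of_subset (filter_subset _ _)
      _ = 2 * ∑ k ∈ Fr Q D, ((range q₀).filter (fun q => E * (G q k).card < n)).card := (mul_sum _ _ _).symm
      _ = 2 * ∑ q ∈ range q₀, ((Fr Q D).filter (fun k => E * (G q k).card < n)).card := by
            congr 1
            simp only [card_filter]
            exact sum_comm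
  have hdr : (q₀ : ℝ) * (((Fr Q D).filter (fun k => 4 * (E * (Ig L Z Q T k).card) < T)).card : ℝ) ≤
      2 * ∑ q ∈ range q₀, (((Fr Q D).filter (fun k => E * (G q k).card < n)).card : ℝ) := by exact_mod_cast hdc
  have hq0 : (0 : ℝ) < q₀ := by exact_mod_cast (by omega : 0 < q₀)
  have h7 : (q₀ : ℝ) * (((Fr Q D).filter (fun k => 4 * (E * (Ig L Z Q T k).card) < T)).card : ℝ) ≤
      (q₀ : ℝ) * (2 * (3 ^ n * (Z : ℝ) ^ ((n : ℝ) / E))) := by
    refine hdr.trans ?_
    calc 2 * ∑ q ∈ range q₀, (((Fr Q D).filter (fun k => E * (G q k).card < n)).card : ℝ) ≤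
          2 * ∑ _q ∈ range q₀, (3 ^ n * (Z : ℝ) ^ ((n : ℝ) / E)) :=
          mul_le_mul_of_nonneg_left (sum_le_sum fun q _ => hblock q) (by norm_num)
      _ = _ := by rw [sum_const, card_range, nsmul_eq_mul]; ring
  exact le_of_mul_le_mul_left h7 hq0

/-- away from the integers -/
lemma away (b i s Q k : ℕ) (hb : 2 ≤ b) (hQ : 1 ≤ Q) (τ : ℤ) (hτ0 : τ ≠ 0) (hτ : τ.natAbs ≤ b * b)
    (hg : Gp (b ^ (2 * s)) Q ((b * b).factorial * (b ^ (2 * s)) ^ i * k)) (n : ℤ) :
    1 / (((b * b).factorial : ℝ) * ((b ^ (2 * s) : ℕ) : ℝ)) ≤ |(k : ℝ) * (τ : ℝ) * ((b : ℝ) ^ (2 * s)) ^ i / Q - n| := by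
  obtain ⟨Z, hZ⟩ : ∃ Z, Z = b ^ (2 * s) := ⟨_, rfl⟩
  obtain ⟨L, hL⟩ : ∃ L, L = (b * b).factorial := ⟨_, rfl⟩
  have hZb : ((b : ℝ) ^ (2 * s)) = (Z : ℝ) := by rw [hZ]; push_cast; ring
  rw [← hZ, ← hL] at hg ⊢
  rw [hZb]
  have hL0 : 0 < L := by rw [hL]; exact Nat.factorial_pos _
  have hZ0 : 0 < Z := by rw [hZ]; exact Nat.pow_pos (by omega)
  have hLr : (0 : ℝ) < L := by exact_mod_cast hL0
  have hZr : (0 : ℝ) < Z := by exact_mod_cast hZ0
  have hQr : (0 : ℝ) < Q := by exact_mod_cast (by omega : 0 < Q)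
  have hdvd : τ.natAbs ∣ L := by
    rw [hL]
    exact Nat.dvd_factorial (Int.natAbs_pos.2 hτ0) hτ
  obtain ⟨τ', hτ'⟩ : ∃ τ' : ℤ, (L : ℤ) = τ * τ' := by
    have h1 : τ ∣ (L : ℤ) := by
      rw [← Int.natAbs_dvd]
      exact_mod_cast hdvd
    exact h1
  have hτr : (L : ℝ) = τ * τ' := by exact_mod_cast hτ'
  have hτ'0 : (0 : ℝ) < |(τ' : ℝ)| := by
    rw [abs_pos]
    intro h
    rw [h, mul_zero] at hτr
    linarith
  have hτ1 : (1 : ℝ) ≤ |(τ : ℝ)| := by
    have : (1 : ℤ) ≤ |τ| := Int.one_le_abs hτ0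
    exact_mod_cast this
  have hτ'L : |(τ' : ℝ)| ≤ L := by
    have h2 : |(τ : ℝ)| * |(τ' : ℝ)| = L := by rw [← abs_mul, ← hτr, abs_of_pos hLr]
    nlinarith
  obtain ⟨R, hR⟩ : ∃ R, R = L * Z ^ i * k % Q := ⟨_, rfl⟩
  obtain ⟨a, ha⟩ : ∃ a, a = L * Z ^ i * k / Q := ⟨_, rfl⟩
  have h3 : L * Z ^ i * k = Q * a + R := by rw [ha, hR]; exact (Nat.div_add_mod _ _).symm
  have hRQ : R < Q := by rw [hR]; exact Nat.mod_lt _ (by omega)
  unfold Gp at hg
  rw [← hR] at hg
  obtain ⟨hg1, hg2⟩ := hg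
  have g1 : (Q : ℝ) ≤ Z * R := by exact_mod_cast hg1
  have g2 : (Q : ℝ) ≤ Z * ((Q : ℝ) - R) := by
    have : ((Q : ℕ) : ℝ) ≤ ((Z * (Q - R) : ℕ) : ℝ) := by exact_mod_cast hg2
    push_cast [Nat.cast_sub hRQ.le] at this
    exact this
  have k1 : 1 / (Z : ℝ) ≤ R / Q := by
    rw [div_le_div_iff₀ hZr hQr]
    linarith
  have k2 : 1 / (Z : ℝ) ≤ 1 - R / Q := by
    have : 1 - (R : ℝ) / Q = ((Q : ℝ) - R) / Q := by field_simp
    rw [this, div_le_div_iff₀ hZr hQr]
    linarith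
  have h3r : (L : ℝ) * (Z : ℝ) ^ i * k = Q * a + R := by exact_mod_cast h3
  obtain ⟨m, hm⟩ : ∃ m : ℤ, m = (a : ℤ) - τ' * n := ⟨_, rfl⟩
  have k3 : (τ' : ℝ) * ((k : ℝ) * (τ : ℝ) * (Z : ℝ) ^ i / Q - n) = (m : ℝ) + R / Q := by
    rw [hm]
    push_cast
    have e1 : (τ' : ℝ) * ((k : ℝ) * (τ : ℝ) * (Z : ℝ) ^ i / Q - n) = ((L : ℝ) * (Z : ℝ) ^ i * k) / Q - τ' * n := by
      rw [hτr]
      ring
    rw [e1, h3r]
    field_simp
    ring
  have k4 : 1 / (Z : ℝ) ≤ |(m : ℝ) + R / Q| := by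
    rcases le_or_gt 0 m with h | h
    · have h5 : (0 : ℝ) ≤ m := by exact_mod_cast h
      rw [abs_of_nonneg (by positivity)]
      linarith
    · have h5 : (m : ℝ) ≤ -1 := by
        have : m ≤ -1 := by omega
        exact_mod_cast this
      have h1Z : 0 < 1 / (Z : ℝ) := by positivity
      rw [abs_of_nonpos (by linarith)]
      linarith
  rw [← k3, abs_mul] at k4
  rw [div_le_iff₀ (by positivity)] at k4 ⊢
  calc (1 : ℝ) ≤ |(τ' : ℝ)| * |(k : ℝ) * (τ : ℝ) * (Z : ℝ) ^ i / Q - n| * Z := k4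
    _ ≤ L * |(k : ℝ) * (τ : ℝ) * (Z : ℝ) ^ i / Q - n| * Z := by gcongr
    _ = _ := by ring

/-- the exponential sums at the frequencies with many good places -/
theorem exp_bound (b s K r Q T E k : ℕ) (hb : 2 ≤ b) (hs : 1 ≤ s) (hr : 1 ≤ r) (hK : 2 * r ≤ K) (hQ : 1 ≤ Q)
    (hE : 1 ≤ E) (hT : 2 * s * T ≤ K) (c : ℕ → ℤ) (hc : ∀ j, c j ≠ 0 ∧ (c j).natAbs < b)
    (hk : T ≤ 4 * (E * (Ig (b * b).factorial (b ^ (2 * s)) Q T k).card)) :
    ‖∑ S ∈ powersetCard r (range K), ∏ j ∈ S, ee ((k : ℝ) * (c j : ℝ) * (b : ℝ) ^ j / Q)‖ ≤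
      (4 * r + 2) * (K.choose r : ℝ) *
        Real.exp (-((1 / (((b * b).factorial : ℝ) * ((b ^ (2 * s) : ℕ) : ℝ)) ^ 2) * (r * T / (4 * (E * K))))) := by
  classical
  obtain ⟨d, hd⟩ : ∃ d : ℝ, d = 1 / (((b * b).factorial : ℝ) * ((b ^ (2 * s) : ℕ) : ℝ)) := ⟨_, rfl⟩
  have hL1 : (1 : ℝ) ≤ ((b * b).factorial : ℝ) := by exact_mod_cast Nat.factorial_pos _
  have hZ1 : (1 : ℝ) ≤ ((b ^ (2 * s) : ℕ) : ℝ) := by exact_mod_cast Nat.pow_pos (by omega)
  have hprod1 : (1 : ℝ) ≤ ((b * b).factorial : ℝ) * ((b ^ (2 * s) : ℕ) : ℝ) := by nlinarith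
  have hd0 : 0 < d := by rw [hd]; positivity
  have hd1 : d ≤ 1 / 2 := by
    have h2 : (2 : ℝ) ≤ ((b * b).factorial : ℝ) := by
      have : 2 ≤ (b * b).factorial := by
        calc 2 = (2 : ℕ).factorial := rfl
          _ ≤ (b * b).factorial := Nat.factorial_le (by nlinarith)
      exact_mod_cast this
    rw [hd]
    apply div_le_div_of_nonneg_left (by norm_num) (by norm_num)
    nlinarith
  have hη0 : 0 ≤ 2 * d ^ 2 := by positivity
  have hη1 : 2 * d ^ 2 ≤ 1 := by nlinarith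
  obtain ⟨J, hJ⟩ : ∃ J, J = Ig (b * b).factorial (b ^ (2 * s)) Q T k := ⟨_, rfl⟩
  have hKr : (0 : ℝ) < K := by exact_mod_cast (by omega : 0 < K)
  have hEr : (0 : ℝ) < E := by exact_mod_cast (by omega : 0 < E)
  have hmain := esymm_bound K r s hr hK hs (fun j => ee ((k : ℝ) * (c j : ℝ) * (b : ℝ) ^ j / Q))
    (fun j => (ee_norm _).le) J ?_ (2 * d ^ 2) hη0 hη1 ?_
  · refine hmain.trans ?_
    apply mul_le_mul_of_nonneg_left _ (by positivity)
    apply Real.exp_le_exp.2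
    have h1 : (T : ℝ) ≤ 4 * (E * J.card) := by
      rw [hJ]
      exact_mod_cast hk
    have h2 : (T : ℝ) / (4 * E) ≤ J.card := by
      rw [div_le_iff₀ (by positivity)]
      linarith
    have h3 : 1 / (((b * b).factorial : ℝ) * ((b ^ (2 * s) : ℕ) : ℝ)) ^ 2 = d ^ 2 := by
      rw [hd]
      ring
    rw [h3]
    have h4 : d ^ 2 * (r * T / (4 * (E * K))) = (d ^ 2 * r / K) * ((T : ℝ) / (4 * E)) := by
      field_simp
    have h5 : 2 * d ^ 2 * r * J.card / (2 * K) = (d ^ 2 * r / K) * J.card := by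
      field_simp
    rw [h4, h5]
    have h6 : 0 ≤ d ^ 2 * r / K := by positivity
    have := mul_le_mul_of_nonneg_left h2 h6
    linarith
  · intro i hi
    rw [hJ] at hi
    unfold Ig at hi
    rw [mem_filter, mem_range] at hi
    have h1 : 2 * s * i + 2 * s ≤ 2 * s * T := by
      calc 2 * s * i + 2 * s = 2 * s * (i + 1) := by ring
        _ ≤ 2 * s * T := Nat.mul_le_mul_left _ (by omega)
    omega
  · intro i hi
    rw [hJ] at hi
    unfold Ig at hi
    rw [mem_filter, mem_range] at hi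
    obtain ⟨j, hj⟩ : ∃ j, j = 2 * s * i := ⟨_, rfl⟩
    obtain ⟨τ, hτ⟩ : ∃ τ : ℤ, τ = b * c (j + 1) - c j := ⟨_, rfl⟩
    have hτ0 : τ ≠ 0 := by
      intro h
      rw [hτ] at h
      have h1 : c j = b * c (j + 1) := by linarith
      have h2 : (c j).natAbs = b * (c (j + 1)).natAbs := by
        rw [h1, Int.natAbs_mul, Int.natAbs_natCast]
      have h3 := (hc j).2
      have h4 : 0 < (c (j + 1)).natAbs := Int.natAbs_pos.2 (hc (j + 1)).1
      have h5 : b * 1 ≤ b * (c (j + 1)).natAbs := Nat.mul_le_mul_left b h4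
      omega
    have hτb : τ.natAbs ≤ b * b := by
      have h1 : τ.natAbs ≤ b * (c (j + 1)).natAbs + (c j).natAbs := by
        rw [hτ]
        refine (Int.natAbs_sub_le _ _).trans ?_
        rw [Int.natAbs_mul, Int.natAbs_natCast]
      have h3 := (hc j).2
      have h4 := (hc (j + 1)).2
      have h5 : b * (c (j + 1)).natAbs ≤ b * (b - 1) := Nat.mul_le_mul_left b (by omega)
      have h6 : b * (b - 1) + b = b * b := by
        rw [Nat.mul_sub, mul_one]
        have : b * 1 ≤ b * b := Nat.mul_le_mul_left b (by omega)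
        omega
      omega
    have haway := away b i s Q k hb hQ τ hτ0 hτb hi.2
    rw [← hd] at haway
    have h7 := one_add_ee _ d hd0.le haway
    show ‖ee ((k : ℝ) * (c (2 * s * i) : ℝ) * (b : ℝ) ^ (2 * s * i) / Q) +
      ee ((k : ℝ) * (c (2 * s * i + 1) : ℝ) * (b : ℝ) ^ (2 * s * i + 1) / Q)‖ ≤ _
    rw [← hj]
    have h8 : (k : ℝ) * (c (j + 1) : ℝ) * (b : ℝ) ^ (j + 1) / Q =
        (k : ℝ) * (c j : ℝ) * (b : ℝ) ^ j / Q + (k : ℝ) * (τ : ℝ) * ((b : ℝ) ^ (2 * s)) ^ i / Q := by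
      rw [← pow_mul, ← hj, hτ]
      push_cast
      rw [pow_succ]
      field_simp
      ring
    rw [h8, ee_add]
    have h9 : ee ((k : ℝ) * (c j : ℝ) * (b : ℝ) ^ j / Q) + ee ((k : ℝ) * (c j : ℝ) * (b : ℝ) ^ j / Q) *
        ee ((k : ℝ) * (τ : ℝ) * ((b : ℝ) ^ (2 * s)) ^ i / Q) =
        ee ((k : ℝ) * (c j : ℝ) * (b : ℝ) ^ j / Q) * (1 + ee ((k : ℝ) * (τ : ℝ) * ((b : ℝ) ^ (2 * s)) ^ i / Q)) := by ring
    rw [h9, norm_mul, ee_norm, one_mul]
    exact h7

end Pool.Agent.TH894.ND
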