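import Pool.Agent.TH894.ND3

set_option autoImplicit false

/-! Moments of sums of local functions over the points of a finite set with few large exponential sums. -/

namespace Pool.Agent.TH894.ND
open Finset

lemma orth (Q : ℕ) (hQ : 1 ≤ Q) (u : ℤ) :
    ∑ k ∈ range Q, ee ((k : ℝ) * (u : ℝ) / Q) = if (Q : ℤ) ∣ u then (Q : ℂ) else 0 := by
  have hQr : (Q : ℝ) ≠ 0 := by exact_mod_cast (by omega : Q ≠ 0)
  have h1 : ∀ k ∈ range Q, ee ((k : ℝ) * (u : ℝ) / Q) = (ee ((u : ℝ) / Q)) ^ k := by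
    intro k _
    have : ∀ m : ℕ, ee ((m : ℝ) * ((u : ℝ) / Q)) = (ee ((u : ℝ) / Q)) ^ m := by
      intro m
      induction m with
      | zero => simp [ee_zero]
      | succ m ih => rw [pow_succ, ← ih, ← ee_add]; congr 1; push_cast; ring
    rw [← this k]
    congr 1
    ring
  rw [sum_congr rfl h1]
  split_ifs with h
  · obtain ⟨v, hv⟩ := h
    have h2 : ee ((u : ℝ) / Q) = 1 := by
      have : (u : ℝ) / Q = (v : ℝ) := by rw [hv]; push_cast; field_simp
      rw [this, ee_int]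
    rw [h2]
    simp
  · have h2 : ee ((u : ℝ) / Q) ≠ 1 := by
      intro h3
      apply h
      unfold ee at h3
      rw [Complex.exp_eq_one_iff] at h3
      obtain ⟨n, hn⟩ := h3
      have h4 : (2 * Real.pi * ((u : ℝ) / Q) : ℝ) = n * (2 * Real.pi) := by
        have h5 : ((2 * Real.pi * ((u : ℝ) / Q) : ℝ) : ℂ) = ((n * (2 * Real.pi) : ℝ) : ℂ) := by
          have h6 : ((2 * Real.pi * ((u : ℝ) / Q) : ℝ) : ℂ) * Complex.I = ((n * (2 * Real.pi) : ℝ) : ℂ) * Complex.I := by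
            rw [hn]
            push_cast
            ring
          exact mul_right_cancel₀ Complex.I_ne_zero h6
        exact_mod_cast h5
      have h7 : (u : ℝ) / Q = n := by
        have hp : (2 * Real.pi) ≠ 0 := by positivity
        have : (2 * Real.pi) * ((u : ℝ) / Q) = (2 * Real.pi) * n := by linarith
        exact mul_left_cancel₀ hp this
      refine ⟨n, ?_⟩
      have h8 : (u : ℝ) = Q * n := by rw [← h7]; field_simp
      exact_mod_cast h8
    rw [geom_sum_eq h2]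
    have h3 : (ee ((u : ℝ) / Q)) ^ Q = 1 := by
      have : ∀ m : ℕ, ee ((m : ℝ) * ((u : ℝ) / Q)) = (ee ((u : ℝ) / Q)) ^ m := by
        intro m
        induction m with
        | zero => simp [ee_zero]
        | succ m ih => rw [pow_succ, ← ih, ← ee_add]; congr 1; push_cast; ring
      rw [← this Q]
      have h4 : (Q : ℝ) * ((u : ℝ) / Q) = (u : ℝ) := by field_simp
      rw [h4, ee_int]
    rw [h3, sub_self, zero_div]

/-- the Fourier coefficients -/
noncomputable def cf (Q : ℕ) (H : ℕ → ℝ) (k : ℕ) : ℂ := (1 / (Q : ℂ)) * ∑ n ∈ range Q, (H n : ℂ) * ee (-((k : ℝ) * n / Q))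

lemma expand (Q : ℕ) (hQ : 1 ≤ Q) (H : ℕ → ℝ) (hH : ∀ n, H (n + Q) = H n) (m : ℕ) :
    (H m : ℂ) = ∑ k ∈ range Q, cf Q H k * ee ((k : ℝ) * m / Q) := by
  have hQc : (Q : ℂ) ≠ 0 := by exact_mod_cast (by omega : Q ≠ 0)
  have hmod : ∀ n, H n = H (n % Q) := by
    intro n
    have h1 : ∀ a b, H (b + a * Q) = H b := by
      intro a b
      induction a with
      | zero => simp
      | succ a ih => rw [Nat.succ_mul, ← add_assoc, hH, ih]
    conv_lhs => rw [← Nat.mod_add_div n Q, mul_comm, h1]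
  unfold cf
  have h1 : ∀ k ∈ range Q, (1 / (Q : ℂ)) * (∑ n ∈ range Q, (H n : ℂ) * ee (-((k : ℝ) * n / Q))) * ee ((k : ℝ) * m / Q) =
      ∑ n ∈ range Q, (1 / (Q : ℂ)) * (H n : ℂ) * ee ((k : ℝ) * (((m : ℤ) - (n : ℤ) : ℤ) : ℝ) / Q) := by
    intro k _
    rw [mul_sum, sum_mul]
    refine sum_congr rfl fun n _ => ?_
    have : (k : ℝ) * (((m : ℤ) - (n : ℤ) : ℤ) : ℝ) / Q = -((k : ℝ) * n / Q) + (k : ℝ) * m / Q := by
      push_cast
      ring
    rw [this, ee_add]
    ring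
  rw [sum_congr rfl h1, sum_comm]
  have h2 : ∀ n ∈ range Q, ∑ k ∈ range Q, (1 / (Q : ℂ)) * (H n : ℂ) * ee ((k : ℝ) * (((m : ℤ) - (n : ℤ) : ℤ) : ℝ) / Q) =
      if n = m % Q then (H m : ℂ) else 0 := by
    intro n hn
    rw [mem_range] at hn
    rw [← mul_sum, orth Q hQ]
    have hiff : ((Q : ℤ) ∣ (m : ℤ) - (n : ℤ)) ↔ n = m % Q := by
      rw [← Int.modEq_iff_dvd, Int.natCast_modEq_iff]
      constructor
      · intro h
        have h3 : n % Q = m % Q := h
        rwa [Nat.mod_eq_of_lt hn] at h3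
      · intro h
        show n % Q = m % Q
        rw [Nat.mod_eq_of_lt hn, h]
    by_cases h : n = m % Q
    · rw [if_pos (hiff.2 h), if_pos h, h, ← hmod m]
      field_simp
    · rw [if_neg (fun h' => h (hiff.1 h')), if_neg h, mul_zero]
  rw [sum_congr rfl h2, sum_ite_eq' , if_pos (mem_range.2 (Nat.mod_lt _ (by omega)))]

/-- averages over a finite set by the mean and the exponential sums -/
lemma avg_le {ι : Type*} (s : Finset ι) (m : ι → ℕ) (Q : ℕ) (hQ : 1 ≤ Q) (H : ℕ → ℝ) (hH : ∀ n, H (n + Q) = H n)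
    (hH0 : ∀ n, 0 ≤ H n) (Fs Bs : Finset ℕ) (hFs : ∀ k ∈ range Q, k ∉ Fs → cf Q H k = 0)
    (β : ℝ) (hβ : 0 ≤ β) (hgood : ∀ k ∈ Fs, k ∉ Bs → ‖∑ i ∈ s, ee ((k : ℝ) * m i / Q)‖ ≤ β) :
    ∑ i ∈ s, H (m i) ≤ (1 / (Q : ℝ) * ∑ n ∈ range Q, H n) * (Bs.card * s.card + Fs.card * β) := by
  classical
  obtain ⟨c0, hc0⟩ : ∃ c0 : ℝ, c0 = 1 / (Q : ℝ) * ∑ n ∈ range Q, H n := ⟨_, rfl⟩
  have hQr : (0 : ℝ) < Q := by exact_mod_cast (by omega : 0 < Q)
  have hcf : ∀ k, ‖cf Q H k‖ ≤ c0 := by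
    intro k
    unfold cf
    rw [norm_mul, norm_div, norm_one, Complex.norm_natCast, hc0]
    apply mul_le_mul_of_nonneg_left _ (by positivity)
    refine (norm_sum_le _ _).trans (sum_le_sum fun n _ => ?_)
    rw [norm_mul, ee_norm, mul_one, Complex.norm_real, Real.norm_eq_abs, abs_of_nonneg (hH0 n)]
  have hc00 : 0 ≤ c0 := (norm_nonneg _).trans (hcf 0)
  rw [← hc0]
  have h1 : ((∑ i ∈ s, H (m i) : ℝ) : ℂ) = ∑ k ∈ range Q, cf Q H k * ∑ i ∈ s, ee ((k : ℝ) * m i / Q) := by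
    rw [Complex.ofReal_sum, sum_congr rfl fun i _ => expand Q hQ H hH (m i), sum_comm]
    exact sum_congr rfl fun k _ => (mul_sum _ _ _).symm
  have h2 : ∑ i ∈ s, H (m i) ≤ ‖((∑ i ∈ s, H (m i) : ℝ) : ℂ)‖ := by
    rw [Complex.norm_real]
    exact le_abs_self _
  refine h2.trans ?_
  rw [h1]
  refine (norm_sum_le _ _).trans ?_
  have htriv : ∀ k : ℕ, ‖∑ i ∈ s, ee ((k : ℝ) * m i / Q)‖ ≤ s.card := by
    intro k
    refine (norm_sum_le _ _).trans ?_
    rw [sum_congr rfl fun i _ => ee_norm _, sum_const, nsmul_eq_mul, mul_one]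
  have h3 : ∀ k ∈ range Q, ‖cf Q H k * ∑ i ∈ s, ee ((k : ℝ) * m i / Q)‖ ≤
      c0 * ((if k ∈ Bs then (s.card : ℝ) else 0) + (if k ∈ Fs then β else 0)) := by
    intro k hk
    rw [norm_mul]
    by_cases hF : k ∈ Fs
    · by_cases hB : k ∈ Bs
      · rw [if_pos hB, if_pos hF]
        exact mul_le_mul (hcf k) ((htriv k).trans (by linarith)) (norm_nonneg _) hc00
      · rw [if_neg hB, if_pos hF, zero_add]
        exact mul_le_mul (hcf k) (hgood k hF hB) (norm_nonneg _) hc00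
    · rw [hFs k hk hF, norm_zero, zero_mul]
      apply mul_nonneg hc00
      apply add_nonneg <;> split_ifs <;> first | positivity | exact le_refl _ | exact hβ
  refine (sum_le_sum h3).trans ?_
  rw [← mul_sum, sum_add_distrib]
  apply mul_le_mul_of_nonneg_left _ hc00
  apply add_le_add
  · rw [← sum_filter, sum_const, nsmul_eq_mul]
    apply mul_le_mul_of_nonneg_right _ (Nat.cast_nonneg _)
    exact_mod_cast card_le_card (fun k hk => (mem_filter.1 hk).2)
  · rw [← sum_filter, sum_const, nsmul_eq_mul]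
    apply mul_le_mul_of_nonneg_right _ hβ
    exact_mod_cast card_le_card (fun k hk => (mem_filter.1 hk).2)

/-- shifting a sum over a period -/
lemma shift_sum {M : Type*} [AddCommMonoid M] (Q a : ℕ) (G : ℕ → M) (hG : ∀ n, G (n + Q) = G n) :
    ∑ n ∈ range Q, G (n + a) = ∑ n ∈ range Q, G n := by
  induction a with
  | zero => simp
  | succ a ih =>
      rw [← ih]
      have h1 := sum_range_succ' (fun n => G (n + a)) Q
      have h2 := sum_range_succ (fun n => G (n + a)) Q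
      rw [h2] at h1
      simp only [zero_add] at h1
      have h3 : G (Q + a) = G a := by rw [add_comm]; exact hG a
      rw [h3] at h1
      have h4 : ∑ n ∈ range Q, G (n + (a + 1)) = ∑ n ∈ range Q, G (n + 1 + a) :=
        sum_congr rfl fun n _ => by rw [show n + (a + 1) = n + 1 + a by ring]
      rw [h4]
      rcases Nat.eq_zero_or_pos Q with hQ | hQ
      · subst hQ; simp
      · -- remove the last and the first terms
        obtain ⟨q, hq⟩ : ∃ q, Q = q + 1 := ⟨Q - 1, by omega⟩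
        subst hq
        rw [sum_range_succ (fun n => G (n + 1 + a)) q, sum_range_succ' (fun n => G (n + a)) q]
        have h5 : q + 1 + a = a + (q + 1) := by ring
        rw [h5, hG a, zero_add]

/-- the periodicity by multiples -/
lemma per_mul {α : Type*} (q : ℕ) (G : ℕ → α) (hG : ∀ n, G (n + q) = G n) (a n : ℕ) : G (n + a * q) = G n := by
  induction a with
  | zero => simp
  | succ a ih => rw [Nat.succ_mul, ← add_assoc, hG, ih]

lemma per_dvd {α : Type*} (q Q : ℕ) (h : q ∣ Q) (G : ℕ → α) (hG : ∀ n, G (n + q) = G n) (n : ℕ) : G (n + Q) = G n := by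
  obtain ⟨a, rfl⟩ := h
  rw [mul_comm]
  exact per_mul q G hG a n

/-- the Fourier coefficients of a power of a sum of local functions vanish at large denominators -/
lemma cf_zero (P : Finset ℕ) (F : ℕ → ℕ → ℝ) (Q J x : ℕ) (hQ : 1 ≤ Q) (hP : ∀ p ∈ P, 1 ≤ p ∧ p ≤ x ∧ p ∣ Q)
    (hF : ∀ p ∈ P, ∀ n, F p (n + p) = F p n) (k : ℕ) (hk : k ∈ range Q) (hkF : k ∉ Fr Q (x ^ J)) :
    cf Q (fun n => (∑ p ∈ P, F p n) ^ J) k = 0 := by
  classical
  unfold cf
  have h1 : ∀ n, (((∑ p ∈ P, F p n) ^ J : ℝ) : ℂ) =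
      ∑ g ∈ Fintype.piFinset (fun _ : Fin J => P), ((∏ i, F (g i) n : ℝ) : ℂ) := by
    intro n
    rw [← Complex.ofReal_sum]
    congr 1
    have h2 := Finset.prod_univ_sum (fun _ : Fin J => P) (fun _ p => F p n)
    rw [← h2, prod_const, card_univ, Fintype.card_fin]
  have h3 : ∑ n ∈ range Q, (((∑ p ∈ P, F p n) ^ J : ℝ) : ℂ) * ee (-((k : ℝ) * n / Q)) =
      ∑ g ∈ Fintype.piFinset (fun _ : Fin J => P), ∑ n ∈ range Q, ((∏ i, F (g i) n : ℝ) : ℂ) * ee (-((k : ℝ) * n / Q)) := by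
    rw [sum_comm]
    refine sum_congr rfl fun n _ => ?_
    rw [h1, sum_mul]
  show (1 / (Q : ℂ)) * ∑ n ∈ range Q, (((∑ p ∈ P, F p n) ^ J : ℝ) : ℂ) * ee (-((k : ℝ) * n / Q)) = 0
  rw [h3]
  have h4 : ∀ g ∈ Fintype.piFinset (fun _ : Fin J => P),
      ∑ n ∈ range Q, ((∏ i, F (g i) n : ℝ) : ℂ) * ee (-((k : ℝ) * n / Q)) = 0 := by
    intro g hg
    rw [Fintype.mem_piFinset] at hg
    obtain ⟨M, hM⟩ : ∃ M, M = ∏ i, g i := ⟨_, rfl⟩
    have hM1 : 1 ≤ M := by
      rw [hM]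
      exact Nat.one_le_iff_ne_zero.2 (prod_ne_zero_iff.2 fun i _ => by have := (hP _ (hg i)).1; omega)
    have hMx : M ≤ x ^ J := by
      rw [hM]
      calc ∏ i, g i ≤ ∏ _i : Fin J, x := prod_le_prod' fun i _ => (hP _ (hg i)).2.1
        _ = x ^ J := by rw [prod_const, card_univ, Fintype.card_fin]
    have hnd : ¬ Q ∣ k * M := by
      intro h
      apply hkF
      unfold Fr
      rw [mem_filter]
      exact ⟨hk, M, hM1, hMx, h⟩
    obtain ⟨G, hG⟩ : ∃ G : ℕ → ℂ, G = fun n => ((∏ i, F (g i) n : ℝ) : ℂ) * ee (-((k : ℝ) * n / Q)) := ⟨_, rfl⟩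
    have hTM : ∀ n, (∏ i, F (g i) (n + M) : ℝ) = ∏ i, F (g i) n := by
      intro n
      refine prod_congr rfl fun i _ => ?_
      exact per_dvd (g i) M (by rw [hM]; exact dvd_prod_of_mem g (mem_univ i)) (F (g i)) (hF _ (hg i)) n
    have hTQ : ∀ n, (∏ i, F (g i) (n + Q) : ℝ) = ∏ i, F (g i) n := by
      intro n
      refine prod_congr rfl fun i _ => ?_
      exact per_dvd (g i) Q (hP _ (hg i)).2.2 (F (g i)) (hF _ (hg i)) n
    have hQr : (Q : ℝ) ≠ 0 := by exact_mod_cast (by omega : Q ≠ 0)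
    have hGQ : ∀ n, G (n + Q) = G n := by
      intro n
      rw [hG]
      show ((∏ i, F (g i) (n + Q) : ℝ) : ℂ) * ee (-((k : ℝ) * ((n + Q : ℕ) : ℝ) / Q)) = _
      rw [hTQ]
      congr 1
      have : -((k : ℝ) * ((n + Q : ℕ) : ℝ) / Q) = -((k : ℝ) * n / Q) + ((-(k : ℤ) : ℤ) : ℝ) := by
        push_cast
        field_simp
        ring
      rw [this, ee_add, ee_int, mul_one]
    have hGM : ∀ n, G (n + M) = ee (-((k : ℝ) * M / Q)) * G n := by
      intro n
      rw [hG]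
      show ((∏ i, F (g i) (n + M) : ℝ) : ℂ) * ee (-((k : ℝ) * ((n + M : ℕ) : ℝ) / Q)) = _
      rw [hTM]
      have : -((k : ℝ) * ((n + M : ℕ) : ℝ) / Q) = -((k : ℝ) * M / Q) + -((k : ℝ) * n / Q) := by
        push_cast
        ring
      rw [this, ee_add]
      ring
    have h5 := shift_sum Q M G hGQ
    rw [sum_congr rfl fun n _ => hGM n, ← mul_sum] at h5
    have h6 : ee (-((k : ℝ) * M / Q)) ≠ 1 := by
      intro h
      apply hnd
      have h7 := orth Q hQ (-((k * M : ℕ) : ℤ))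
      have h8 : ∀ l ∈ range Q, ee ((l : ℝ) * ((-((k * M : ℕ) : ℤ) : ℤ) : ℝ) / Q) = 1 := by
        intro l _
        have e1 : (l : ℝ) * ((-((k * M : ℕ) : ℤ) : ℤ) : ℝ) / Q = (l : ℝ) * (-((k : ℝ) * M / Q)) := by
          push_cast
          ring
        rw [e1]
        have : ∀ m : ℕ, ee ((m : ℝ) * (-((k : ℝ) * M / Q))) = 1 := by
          intro m
          induction m with
          | zero => simp [ee_zero]
          | succ m ih =>
              have e2 : (((m + 1 : ℕ) : ℝ)) * (-((k : ℝ) * M / Q)) = (m : ℝ) * (-((k : ℝ) * M / Q)) + -((k : ℝ) * M / Q) := by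
                push_cast
                ring
              rw [e2, ee_add, ih, h, mul_one]
        exact this l
      rw [sum_congr rfl h8, sum_const, card_range, nsmul_eq_mul, mul_one] at h7
      by_contra hcon
      have h9 : ¬ ((Q : ℤ) ∣ -((k * M : ℕ) : ℤ)) := by
        rw [Int.dvd_neg, Int.natCast_dvd_natCast]
        exact hcon
      rw [if_neg h9] at h7
      have : (Q : ℂ) ≠ 0 := by exact_mod_cast (by omega : Q ≠ 0)
      exact this h7
    have h10 : (ee (-((k : ℝ) * M / Q)) - 1) * ∑ n ∈ range Q, G n = 0 := by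
      rw [sub_mul, one_mul, h5, sub_self]
    rcases mul_eq_zero.1 h10 with h11 | h11
    · exact absurd (sub_eq_zero.1 h11) h6
    · rw [hG] at h11
      exact h11
  rw [sum_congr rfl h4, sum_const_zero, mul_zero]

end Pool.Agent.TH894.ND
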