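import Pool.Agent.TH894.ND4

set_option autoImplicit false

/-! The moments of a sum of local functions over a full period. -/

namespace Pool.Agent.TH894.ND
open Finset

lemma sum_split (a c : ℕ) (hc : 0 < c) (F : ℕ → ℝ) :
    ∑ x ∈ range (a * c), F x = ∑ z ∈ range c, ∑ y ∈ range a, F (y * c + z) := by
  rw [sum_comm, ← sum_product']
  refine sum_nbij' (fun v => (v / c, v % c)) (fun yz => yz.1 * c + yz.2) ?_ ?_ ?_ ?_ ?_
  · intro v hv
    rw [mem_range] at hv
    rw [mem_product, mem_range, mem_range]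
    exact ⟨Nat.div_lt_of_lt_mul (by rwa [mul_comm] at hv), Nat.mod_lt _ hc⟩
  · intro yz hyz
    rw [mem_product, mem_range, mem_range] at hyz
    rw [mem_range]
    calc yz.1 * c + yz.2 < yz.1 * c + c := by omega
      _ = (yz.1 + 1) * c := by ring
      _ ≤ a * c := Nat.mul_le_mul_right c (by omega)
  · intro v _
    exact Nat.div_add_mod' v c
  · intro yz hyz
    rw [mem_product, mem_range, mem_range] at hyz
    ext
    · show (yz.1 * c + yz.2) / c = yz.1
      rw [mul_comm, Nat.mul_add_div hc, Nat.div_eq_of_lt hyz.2, add_zero]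
    · show (yz.1 * c + yz.2) % c = yz.2
      rw [mul_comm, Nat.mul_add_mod, Nat.mod_eq_of_lt hyz.2]
  · intro v _
    show _ = F (v / c * c + v % c)
    rw [Nat.div_add_mod']

/-- the sum over an arithmetic progression of `p` terms -/
lemma prog_sum (p c : ℕ) (hp : 1 ≤ p) (hcop : Nat.Coprime c p) (f : ℕ → ℝ) (hf : ∀ n, f (n + p) = f n) (z : ℕ) :
    ∑ y ∈ range p, f (y * c + z) = ∑ n ∈ range p, f n := by
  have hmod : ∀ n, f n = f (n % p) := by
    intro n
    conv_lhs => rw [← Nat.mod_add_div n p, mul_comm, per_mul p f hf]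
  rw [sum_congr rfl fun y _ => hmod (y * c + z)]
  have hinj : Set.InjOn (fun y => (y * c + z) % p) (range p : Set ℕ) := by
    intro y hy y' hy' h
    rw [mem_coe, mem_range] at hy hy'
    have h1 : y * c + z ≡ y' * c + z [MOD p] := h
    have h2 : y * c ≡ y' * c [MOD p] := Nat.ModEq.add_right_cancel' z h1
    have h3 : y ≡ y' [MOD p] := Nat.ModEq.cancel_right_of_coprime (by rw [Nat.gcd_comm]; exact hcop) h2
    exact Nat.ModEq.eq_of_lt_of_lt h3 hy hy'
  have himg : (range p).image (fun y => (y * c + z) % p) = range p := by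
    apply eq_of_subset_of_card_le
    · intro n hn
      rw [mem_image] at hn
      obtain ⟨y, _, hy⟩ := hn
      rw [mem_range, ← hy]
      exact Nat.mod_lt _ (by omega)
    · rw [card_image_of_injOn hinj]
  conv_rhs => rw [← himg]
  rw [sum_image hinj]

/-- a factor with the mean zero, independent of the other ones -/
lemma mean_zero (P : Finset ℕ) (hP : ∀ p ∈ P, p.Prime) (F : ℕ → ℕ → ℝ) (hF : ∀ p ∈ P, ∀ n, F p (n + p) = F p n)
    (hF0 : ∀ p ∈ P, ∑ n ∈ range p, F p n = 0) (J : ℕ) (g : Fin J → ℕ) (hg : ∀ i, g i ∈ P) (i₀ : Fin J)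
    (hi : ∀ i, i ≠ i₀ → g i ≠ g i₀) : ∑ n ∈ range (∏ p ∈ P, p), ∏ i, F (g i) n = 0 := by
  classical
  obtain ⟨p, hp⟩ : ∃ p, p = g i₀ := ⟨_, rfl⟩
  have hpP : p ∈ P := by rw [hp]; exact hg i₀
  obtain ⟨Q', hQ'⟩ : ∃ Q', Q' = ∏ q ∈ P.erase p, q := ⟨_, rfl⟩
  have hQ : ∏ p ∈ P, p = p * Q' := by rw [hQ', mul_prod_erase P (fun q => q) hpP]
  have hQ'0 : 0 < Q' := by
    rw [hQ']
    exact prod_pos fun q hq => (hP q (mem_of_mem_erase hq)).pos
  have hcop : Nat.Coprime Q' p := by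
    rw [hQ']
    apply Nat.Coprime.prod_left
    intro q hq
    rw [mem_erase] at hq
    exact (Nat.coprime_primes (hP q hq.2) (hP p hpP)).2 hq.1
  rw [hQ, sum_split p Q' hQ'0]
  apply sum_eq_zero
  intro z _
  have h1 : ∀ y ∈ range p, ∏ i, F (g i) (y * Q' + z) = F p (y * Q' + z) * ∏ i ∈ univ.erase i₀, F (g i) z := by
    intro y _
    rw [← mul_prod_erase univ (fun i => F (g i) (y * Q' + z)) (mem_univ i₀), ← hp]
    congr 1
    refine prod_congr rfl fun i hi' => ?_
    rw [mem_erase] at hi'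
    have h2 : g i ∣ Q' := by
      rw [hQ']
      apply dvd_prod_of_mem (fun q => q)
      rw [mem_erase, hp]
      exact ⟨hi i hi'.1, hg i⟩
    rw [add_comm]
    obtain ⟨a, ha⟩ := h2
    rw [ha, show y * (g i * a) = (y * a) * g i by ring]
    exact per_mul (g i) (F (g i)) (hF _ (hg i)) (y * a) z
  rw [sum_congr rfl h1, ← sum_mul, prog_sum p Q' (hP p hpP).pos hcop (F p) (hF p hpP) z, hF0 p hpP, zero_mul]

/-- the number of the tuples in which no value occurs exactly once -/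
lemma few_tuples (P : Finset ℕ) (j : ℕ) (hj : 1 ≤ j) :
    ((Fintype.piFinset (fun _ : Fin (2 * j) => P)).filter (fun g => ∀ i, ∃ i', i' ≠ i ∧ g i' = g i)).card ≤
      j ^ (2 * j) * P.card ^ j := by
  classical
  have h1 : (Fintype.piFinset (fun _ : Fin (2 * j) => P)).filter (fun g => ∀ i, ∃ i', i' ≠ i ∧ g i' = g i) ⊆
      ((univ : Finset (Fin (2 * j) → Fin j)) ×ˢ (Fintype.piFinset (fun _ : Fin j => P))).image (fun eh => eh.2 ∘ eh.1) := by
    intro g hg
    rw [mem_filter, Fintype.mem_piFinset] at hg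
    obtain ⟨hgP, hg2⟩ := hg
    obtain ⟨I, hI⟩ : ∃ I : Finset ℕ, I = univ.image g := ⟨_, rfl⟩
    have hIc : I.card ≤ j := by
      have h2 : (univ : Finset (Fin (2 * j))).card = ∑ v ∈ I, (univ.filter (fun i => g i = v)).card := by
        rw [hI]
        exact card_eq_sum_card_image g univ
      rw [card_univ, Fintype.card_fin] at h2
      have h3 : ∑ _v ∈ I, 2 ≤ ∑ v ∈ I, (univ.filter (fun i => g i = v)).card := by
        refine sum_le_sum fun v hv => ?_
        rw [hI, mem_image] at hv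
        obtain ⟨i, _, hiv⟩ := hv
        obtain ⟨i', hi', hgi⟩ := hg2 i
        refine (card_pair hi').symm.le.trans (card_le_card ?_)
        intro x hx
        rw [mem_insert, mem_singleton] at hx
        rw [mem_filter]
        refine ⟨mem_univ _, ?_⟩
        rcases hx with rfl | rfl
        · rw [hgi, hiv]
        · exact hiv
      rw [sum_const, smul_eq_mul] at h3
      omega
    have hgI : ∀ i, g i ∈ I := fun i => by rw [hI]; exact mem_image_of_mem g (mem_univ i)
    have hIP : ∀ v ∈ I, v ∈ P := by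
      intro v hv
      rw [hI, mem_image] at hv
      obtain ⟨i, _, rfl⟩ := hv
      exact hgP i
    rw [mem_image]
    refine ⟨(fun i => Fin.castLE hIc (I.equivFin ⟨g i, hgI i⟩),
      fun a => if ha : a.val < I.card then (I.equivFin.symm ⟨a.val, ha⟩).val else g ⟨0, by omega⟩), ?_, ?_⟩
    · rw [mem_product]
      refine ⟨mem_univ _, ?_⟩
      rw [Fintype.mem_piFinset]
      intro a
      show (if ha : a.val < I.card then (I.equivFin.symm ⟨a.val, ha⟩).val else g ⟨0, by omega⟩) ∈ P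
      split_ifs with ha
      · exact hIP _ (I.equivFin.symm ⟨a.val, ha⟩).property
      · exact hgP _
    · funext i
      show (if ha : (Fin.castLE hIc (I.equivFin ⟨g i, hgI i⟩)).val < I.card then
        (I.equivFin.symm ⟨(Fin.castLE hIc (I.equivFin ⟨g i, hgI i⟩)).val, ha⟩).val else g ⟨0, by omega⟩) = g i
      have h8 : (Fin.castLE hIc (I.equivFin ⟨g i, hgI i⟩)).val < I.card := (I.equivFin ⟨g i, hgI i⟩).isLt
      rw [dif_pos h8]
      have h9 : (⟨(Fin.castLE hIc (I.equivFin ⟨g i, hgI i⟩)).val, h8⟩ : Fin I.card) = I.equivFin ⟨g i, hgI i⟩ := by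
        ext
        rfl
      rw [h9, Equiv.symm_apply_apply]
  refine (card_le_card h1).trans (card_image_le.trans ?_)
  rw [card_product, card_univ, Fintype.card_fun, Fintype.card_fin, Fintype.card_fin, Fintype.card_piFinset_const]

/-- the moments over a full period -/
lemma moment (P : Finset ℕ) (hP : ∀ p ∈ P, p.Prime) (F : ℕ → ℕ → ℝ) (hF : ∀ p ∈ P, ∀ n, F p (n + p) = F p n)
    (hF1 : ∀ p ∈ P, ∀ n, |F p n| ≤ 1) (hF0 : ∀ p ∈ P, ∑ n ∈ range p, F p n = 0) (j : ℕ) (hj : 1 ≤ j) :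
    1 / ((∏ p ∈ P, p : ℕ) : ℝ) * ∑ n ∈ range (∏ p ∈ P, p), (∑ p ∈ P, F p n) ^ (2 * j) ≤ (j : ℝ) ^ (2 * j) * (P.card : ℝ) ^ j := by
  classical
  obtain ⟨Q, hQ⟩ : ∃ Q, Q = ∏ p ∈ P, p := ⟨_, rfl⟩
  have hQ0 : 0 < Q := by rw [hQ]; exact prod_pos fun q hq => (hP q hq).pos
  have hQr : (0 : ℝ) < Q := by exact_mod_cast hQ0
  rw [← hQ]
  have h1 : ∀ n, (∑ p ∈ P, F p n) ^ (2 * j) = ∑ g ∈ Fintype.piFinset (fun _ : Fin (2 * j) => P), ∏ i, F (g i) n := by
    intro n
    have h2 := Finset.prod_univ_sum (fun _ : Fin (2 * j) => P) (fun _ p => F p n)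
    rw [← h2, prod_const, card_univ, Fintype.card_fin]
  rw [sum_congr rfl fun n _ => h1 n, sum_comm]
  have h3 : ∀ g ∈ Fintype.piFinset (fun _ : Fin (2 * j) => P), ∑ n ∈ range Q, ∏ i, F (g i) n ≤
      if ∀ i, ∃ i', i' ≠ i ∧ g i' = g i then (Q : ℝ) else 0 := by
    intro g hg
    rw [Fintype.mem_piFinset] at hg
    split_ifs with h
    · calc ∑ n ∈ range Q, ∏ i, F (g i) n ≤ ∑ _n ∈ range Q, (1 : ℝ) := by
            refine sum_le_sum fun n _ => ?_
            refine (le_abs_self _).trans ?_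
            rw [abs_prod]
            exact prod_le_one (fun i _ => abs_nonneg _) (fun i _ => hF1 _ (hg i) n)
        _ = Q := by rw [sum_const, card_range, nsmul_eq_mul, mul_one]
    · push Not at h
      obtain ⟨i₀, hi₀⟩ := h
      rw [hQ]
      exact (mean_zero P hP F hF hF0 (2 * j) g hg i₀ hi₀).le
  have h4 := sum_le_sum h3
  rw [← sum_filter, sum_const, nsmul_eq_mul] at h4
  have h5 : (((Fintype.piFinset (fun _ : Fin (2 * j) => P)).filter (fun g => ∀ i, ∃ i', i' ≠ i ∧ g i' = g i)).card : ℝ) ≤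
      (j : ℝ) ^ (2 * j) * (P.card : ℝ) ^ j := by exact_mod_cast few_tuples P j hj
  calc 1 / (Q : ℝ) * ∑ g ∈ Fintype.piFinset (fun _ : Fin (2 * j) => P), ∑ n ∈ range Q, ∏ i, F (g i) n ≤
        1 / (Q : ℝ) * ((((Fintype.piFinset (fun _ : Fin (2 * j) => P)).filter (fun g => ∀ i, ∃ i', i' ≠ i ∧ g i' = g i)).card : ℝ) * Q) :=
        mul_le_mul_of_nonneg_left h4 (by positivity)
    _ = (((Fintype.piFinset (fun _ : Fin (2 * j) => P)).filter (fun g => ∀ i, ∃ i', i' ≠ i ∧ g i' = g i)).card : ℝ) := by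
        field_simp
    _ ≤ _ := h5

end Pool.Agent.TH894.ND
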