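import Pool.Agent.TH894.ND5
import Pool.Agent.TH894.SM8

set_option autoImplicit false

/-! Local conditions modulo primes at the numbers obtained by few changes of digits. -/

namespace Pool.Agent.TH894.ND
open Finset Filter
open Pool.Agent.TH894.SM (change change_eq)

/-- the number of the bad frequencies -/
lemma par_bad (b j : ℕ) (hb : 2 ≤ b) (hj : 1 ≤ j) (δ : ℝ) (hδ : 0 < δ) : ∃ s E : ℕ, 1 ≤ s ∧ 1 ≤ E ∧ ∃ x₁ : ℕ,
    ∀ x : ℕ, x₁ ≤ x → ∃ n : ℕ, 1 ≤ n ∧ (n : ℝ) ≤ 4 * j * Real.log x + 2 ∧ x ^ (2 * j) * x ^ (2 * j) ≤ (b ^ (2 * s)) ^ n ∧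
      2 * ((3 : ℝ) ^ n * ((b ^ (2 * s) : ℕ) : ℝ) ^ ((n : ℝ) / E)) ≤ (x : ℝ) ^ δ := by
  obtain ⟨s, hs⟩ : ∃ s, s = ⌈32 * (j : ℝ) / δ⌉₊ + 1 := ⟨_, rfl⟩
  obtain ⟨E, hE⟩ : ∃ E, E = ⌈16 * (j : ℝ) / δ⌉₊ + 1 := ⟨_, rfl⟩
  obtain ⟨Z, hZ⟩ : ∃ Z, Z = b ^ (2 * s) := ⟨_, rfl⟩
  have hjr : (1 : ℝ) ≤ j := by exact_mod_cast hj
  have hs1 : 32 * (j : ℝ) / δ ≤ s := by
    rw [hs]
    push_cast
    have := Nat.le_ceil (32 * (j : ℝ) / δ)
    linarith
  have hE1 : 16 * (j : ℝ) / δ ≤ E := by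
    rw [hE]
    push_cast
    have := Nat.le_ceil (16 * (j : ℝ) / δ)
    linarith
  have hs0 : 1 ≤ s := by omega
  have hE0 : 1 ≤ E := by omega
  have hsr : (1 : ℝ) ≤ s := by exact_mod_cast hs0
  have hEr : (0 : ℝ) < E := by exact_mod_cast (by omega : 0 < E)
  have hZ2 : 2 ≤ Z := by
    rw [hZ]
    calc 2 ≤ b := hb
      _ = b ^ 1 := (pow_one b).symm
      _ ≤ b ^ (2 * s) := Nat.pow_le_pow_right (by omega) (by omega)
  have hZr : (2 : ℝ) ≤ Z := by exact_mod_cast hZ2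
  have hZ0 : (0 : ℝ) < Z := by linarith
  have hlZ : (s : ℝ) ≤ Real.log Z := by
    have h1 : Real.log Z = 2 * s * Real.log b := by
      rw [hZ]
      push_cast
      rw [Real.log_pow]
      push_cast
      ring
    have h2 : Real.log 2 ≤ Real.log b := Real.log_le_log (by norm_num) (by exact_mod_cast hb)
    have h3 := Real.log_two_gt_d9
    rw [h1]
    nlinarith
  have hlZ0 : 0 < Real.log Z := by linarith
  -- the size of x
  have hev : ∀ᶠ x : ℕ in atTop, 18 * (Z : ℝ) ^ 2 ≤ (x : ℝ) ^ (δ / 2) := by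
    have h1 : Tendsto (fun x : ℝ => x ^ (δ / 2)) atTop atTop := tendsto_rpow_atTop (by positivity)
    exact (h1.comp tendsto_natCast_atTop_atTop).eventually (eventually_ge_atTop _)
  obtain ⟨x₁, hx₁⟩ := eventually_atTop.1 hev
  refine ⟨s, E, hs0, hE0, x₁ + 2, fun x hx => ?_⟩
  rw [← hZ]
  have hx1 := hx₁ x (by omega)
  have hxr : (2 : ℝ) ≤ x := by exact_mod_cast (by omega : 2 ≤ x)
  have hx0 : (0 : ℝ) < x := by linarith
  have hlx : 0 < Real.log x := Real.log_pos (by linarith)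
  obtain ⟨n, hn⟩ : ∃ n, n = ⌈4 * (j : ℝ) * Real.log x / Real.log Z⌉₊ + 1 := ⟨_, rfl⟩
  have hn1 : 4 * (j : ℝ) * Real.log x / Real.log Z ≤ n := by
    rw [hn]
    push_cast
    have := Nat.le_ceil (4 * (j : ℝ) * Real.log x / Real.log Z)
    linarith
  have hn2 : (n : ℝ) ≤ 4 * (j : ℝ) * Real.log x / Real.log Z + 2 := by
    rw [hn]
    push_cast
    have := Nat.ceil_lt_add_one (show 0 ≤ 4 * (j : ℝ) * Real.log x / Real.log Z by positivity)
    linarith
  have hn3 : 4 * (j : ℝ) * Real.log x ≤ n * Real.log Z := by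
    rwa [div_le_iff₀ hlZ0] at hn1
  have hn4 : (n : ℝ) * Real.log Z ≤ 4 * (j : ℝ) * Real.log x + 2 * Real.log Z := by
    have := mul_le_mul_of_nonneg_right hn2 hlZ0.le
    rw [add_mul, div_mul_cancel₀ _ hlZ0.ne'] at this
    exact this
  refine ⟨n, by omega, ?_, ?_, ?_⟩
  · refine hn2.trans ?_
    have h5 : 4 * (j : ℝ) * Real.log x / Real.log Z ≤ 4 * (j : ℝ) * Real.log x := by
      apply div_le_self (by positivity)
      linarith
    linarith
  · have h6 : ((x ^ (2 * j) * x ^ (2 * j) : ℕ) : ℝ) ≤ ((Z ^ n : ℕ) : ℝ) := by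
      push_cast
      rw [← pow_add]
      rw [← Real.log_le_log_iff (by positivity) (by positivity), Real.log_pow, Real.log_pow]
      push_cast
      linarith
    exact_mod_cast h6
  · have h7 : (3 : ℝ) ^ n ≤ 9 * (x : ℝ) ^ (δ / 4) := by
      have e1 : Real.log 3 < 1.1 := by
        have : Real.log 3 < 1.0986122888 := Real.log_three_lt_d9
        linarith
      have e3 : (0 : ℝ) < Real.log 3 := Real.log_pos (by norm_num)
      have e2 : (n : ℝ) * Real.log 3 ≤ Real.log 9 + (δ / 4) * Real.log x := by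
        have e4 : Real.log 9 = 2 * Real.log 3 := by
          rw [show (9 : ℝ) = 3 ^ 2 by norm_num, Real.log_pow]
          push_cast
          ring
        have e5 : 4 * (j : ℝ) * Real.log x / Real.log Z ≤ (δ / 8) * Real.log x := by
          rw [div_le_iff₀ hlZ0]
          have e6 : 32 * (j : ℝ) ≤ δ * s := by
            rw [div_le_iff₀ hδ] at hs1
            linarith
          have e7 : 32 * (j : ℝ) ≤ δ * Real.log Z := e6.trans (mul_le_mul_of_nonneg_left hlZ hδ.le)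
          nlinarith
        rw [e4]
        have e8 : (n : ℝ) * Real.log 3 ≤ ((δ / 8) * Real.log x + 2) * Real.log 3 :=
          mul_le_mul_of_nonneg_right (by linarith) e3.le
        have e9 : (δ / 8) * Real.log x * Real.log 3 ≤ (δ / 8) * Real.log x * 2 :=
          mul_le_mul_of_nonneg_left (by linarith) (by positivity)
        nlinarith
      rw [← Real.log_le_log_iff (by positivity) (by positivity), Real.log_pow, Real.log_mul (by norm_num) (by positivity),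
        Real.log_rpow hx0]
      exact e2
    have h8 : (Z : ℝ) ^ ((n : ℝ) / E) ≤ (Z : ℝ) ^ 2 * (x : ℝ) ^ (δ / 4) := by
      rw [← Real.log_le_log_iff (by positivity) (by positivity), Real.log_rpow hZ0, Real.log_mul (by positivity) (by positivity),
        Real.log_pow, Real.log_rpow hx0]
      push_cast
      have e1 : (n : ℝ) / E * Real.log Z = (n * Real.log Z) / E := by ring
      rw [e1, div_le_iff₀ hEr]
      have e2 : 16 * (j : ℝ) ≤ δ * E := by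
        rw [div_le_iff₀ hδ] at hE1
        linarith
      have e3 : (1 : ℝ) ≤ E := by exact_mod_cast hE0
      have e4 : 2 * Real.log Z * 1 ≤ 2 * Real.log Z * E := mul_le_mul_of_nonneg_left e3 (by positivity)
      have e5 : 16 * (j : ℝ) * Real.log x ≤ δ * E * Real.log x := mul_le_mul_of_nonneg_right e2 hlx.le
      nlinarith
    calc 2 * ((3 : ℝ) ^ n * (Z : ℝ) ^ ((n : ℝ) / E)) ≤ 2 * ((9 * (x : ℝ) ^ (δ / 4)) * ((Z : ℝ) ^ 2 * (x : ℝ) ^ (δ / 4))) := by
          gcongr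
      _ = (18 * (Z : ℝ) ^ 2) * ((x : ℝ) ^ (δ / 4) * (x : ℝ) ^ (δ / 4)) := by ring
      _ ≤ (x : ℝ) ^ (δ / 2) * ((x : ℝ) ^ (δ / 4) * (x : ℝ) ^ (δ / 4)) := by gcongr
      _ = (x : ℝ) ^ δ := by
          rw [← Real.rpow_add hx0, ← Real.rpow_add hx0]
          congr 1
          ring

/-- **Local conditions modulo primes at the numbers obtained by few changes of digits.** -/
theorem engine (b : ℕ) (hb : 2 ≤ b) (δ A : ℝ) (hδ : 0 < δ) : ∃ c : ℝ, 0 < c ∧ ∃ x₀ : ℕ, ∀ r K x : ℕ, 2 * r ≤ K → x₀ ≤ x →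
    Real.log x ≤ c * r → ∀ N : ℕ, N < b ^ K → ∀ f : ℕ → ℕ, (∀ j, f j < b ∧ f j ≠ N / b ^ j % b) →
    ∀ P : Finset ℕ, (∀ p ∈ P, p.Prime ∧ b * b < p ∧ p ≤ x) → ∀ F : ℕ → ℕ → ℝ,
    (∀ p ∈ P, (∀ n, F p (n + p) = F p n) ∧ (∀ n, |F p n| ≤ 1) ∧ ∑ n ∈ range p, F p n = 0) →
    (((powersetCard r (range K)).filter (fun S => Real.sqrt P.card * (x : ℝ) ^ δ <
      |∑ p ∈ P, F p (change b K N f S)|)).card : ℝ) ≤ (x : ℝ) ^ (-A) * (K.choose r : ℝ) := by
  classical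
  obtain ⟨j, hj⟩ : ∃ j, j = ⌈(|A| + 1) / δ⌉₊ + 1 := ⟨_, rfl⟩
  have hj1 : 1 ≤ j := by omega
  have hjr : (1 : ℝ) ≤ j := by exact_mod_cast hj1
  have hjA : |A| + 1 ≤ δ * j := by
    have h1 : (|A| + 1) / δ ≤ j := by
      rw [hj]
      push_cast
      have := Nat.le_ceil ((|A| + 1) / δ)
      linarith
    rw [div_le_iff₀ hδ] at h1
    linarith
  obtain ⟨s, E, hs, hE, x₁, hx₁⟩ := par_bad b j hb hj1 δ hδ
  obtain ⟨Z, hZ⟩ : ∃ Z, Z = b ^ (2 * s) := ⟨_, rfl⟩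
  obtain ⟨L, hL⟩ : ∃ L, L = (b * b).factorial := ⟨_, rfl⟩
  have hsr : (1 : ℝ) ≤ s := by exact_mod_cast hs
  have hEr : (1 : ℝ) ≤ E := by exact_mod_cast hE
  obtain ⟨d, hd⟩ : ∃ d : ℝ, d = 1 / ((L : ℝ) * (Z : ℝ)) ^ 2 := ⟨_, rfl⟩
  have hL0 : 0 < L := by rw [hL]; exact Nat.factorial_pos _
  have hZ0 : 0 < Z := by rw [hZ]; exact Nat.pow_pos (by omega)
  have hLr : (0 : ℝ) < L := by exact_mod_cast hL0
  have hZr : (0 : ℝ) < Z := by exact_mod_cast hZ0
  have hd0 : 0 < d := by rw [hd]; positivity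
  obtain ⟨c₁, hc₁⟩ : ∃ c₁ : ℝ, c₁ = d / (16 * s * E) := ⟨_, rfl⟩
  have hc₁0 : 0 < c₁ := by rw [hc₁]; positivity
  obtain ⟨c, hc⟩ : ∃ c : ℝ, c = min (c₁ / (16 * j)) (1 / (16 * s * j)) := ⟨_, rfl⟩
  have hc0 : 0 < c := by rw [hc]; exact lt_min (by positivity) (by positivity)
  have hcc1 : c ≤ c₁ / (16 * j) := by rw [hc]; exact min_le_left _ _
  have hcc2 : c ≤ 1 / (16 * s * j) := by rw [hc]; exact min_le_right _ _
  -- r is large
  have hev : ∀ᶠ r : ℕ in atTop, (4 * (r : ℝ) + 2) ≤ Real.exp (c₁ / 2 * r) := by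
    have h1 : Tendsto (fun y : ℝ => Real.exp (c₁ / 2 * y) / y ^ 1) atTop atTop :=
      tendsto_exp_mul_div_rpow_atTop 1 (c₁ / 2) (by positivity) |>.congr' (by
        filter_upwards [eventually_gt_atTop 0] with y hy
        rw [Real.rpow_one, pow_one])
    have h2 := (h1.comp tendsto_natCast_atTop_atTop).eventually (eventually_ge_atTop (6 : ℝ))
    filter_upwards [h2, eventually_ge_atTop 1] with r hr hr1
    have h3 : (1 : ℝ) ≤ r := by exact_mod_cast hr1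
    simp only [Function.comp_apply, pow_one] at hr
    rw [le_div_iff₀ (by linarith)] at hr
    linarith
  obtain ⟨r₀, hr₀⟩ := eventually_atTop.1 hev
  obtain ⟨r₁, hr₁⟩ : ∃ r₁, r₁ = r₀ + 8 * s + 8 := ⟨_, rfl⟩
  obtain ⟨x₂, hx₂⟩ := exists_nat_ge (Real.exp (c * r₁))
  obtain ⟨x₃, hx₃⟩ := exists_nat_ge (2 * (j : ℝ) ^ (2 * j))
  refine ⟨c, hc0, x₁ + x₂ + x₃ + 2, fun r K x hrK hx hxr N hN f hf P hP F hF => ?_⟩
  have hx2r : (2 : ℝ) ≤ x := by exact_mod_cast (by omega : 2 ≤ x)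
  have hx0 : (0 : ℝ) < x := by linarith
  have hx1' : (1 : ℝ) ≤ x := by linarith
  obtain ⟨n, hn1, hn2, hn3, hn4⟩ := hx₁ x (by omega)
  rw [← hZ] at hn3 hn4
  -- r
  have hrr : (r₁ : ℝ) ≤ r := by
    have h1 : Real.exp (c * r₁) ≤ x := by
      refine hx₂.trans ?_
      exact_mod_cast (by omega : x₂ ≤ x)
    have h2 : c * r₁ ≤ Real.log x := by
      rw [Real.le_log_iff_exp_le hx0]
      exact h1
    have h3 : c * r₁ ≤ c * r := h2.trans hxr
    exact le_of_mul_le_mul_left h3 hc0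
  have hrn : r₁ ≤ r := by exact_mod_cast hrr
  have hr1 : 1 ≤ r := by omega
  have hrpos : (1 : ℝ) ≤ r := by exact_mod_cast hr1
  have hexp := hr₀ r (by omega)
  obtain ⟨T, hT⟩ : ∃ T, T = K / (2 * s) := ⟨_, rfl⟩
  have hTK : 2 * s * T ≤ K := by rw [hT]; exact Nat.mul_div_le K (2 * s)
  have hKr : (2 : ℝ) * r ≤ K := by exact_mod_cast hrK
  have hK0 : (0 : ℝ) < K := by linarith
  have hTr : (K : ℝ) ≤ 4 * s * T := by
    have h1 : K < 2 * s * (K / (2 * s) + 1) := Nat.lt_mul_div_succ K (by omega)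
    rw [← hT] at h1
    have h2 : (K : ℝ) < 2 * s * (T + 1) := by exact_mod_cast h1
    have h3 : (r₁ : ℝ) = r₀ + 8 * s + 8 := by rw [hr₁]; push_cast; ring
    have h4 : (0 : ℝ) ≤ r₀ := Nat.cast_nonneg _
    nlinarith
  have hnT : n ≤ T := by
    have h1 : 4 * (j : ℝ) * Real.log x ≤ r / (4 * s) := by
      calc 4 * (j : ℝ) * Real.log x ≤ 4 * j * (c * r) := mul_le_mul_of_nonneg_left hxr (by positivity)
        _ ≤ 4 * j * ((1 / (16 * s * j)) * r) := by gcongr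
        _ = r / (4 * s) := by field_simp; ring
    have h2 : (r : ℝ) / (2 * s) ≤ T := by
      rw [div_le_iff₀ (by positivity)]
      nlinarith
    have h3 : (r₁ : ℝ) = r₀ + 8 * s + 8 := by rw [hr₁]; push_cast; ring
    have h4 : (0 : ℝ) ≤ r₀ := Nat.cast_nonneg _
    have h5 : (2 : ℝ) ≤ r / (4 * s) := by
      rw [le_div_iff₀ (by positivity)]
      linarith
    have h6 : (r : ℝ) / (2 * s) = r / (4 * s) + r / (4 * s) := by
      field_simp
      ring
    have h7 : (n : ℝ) ≤ T := by linarith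
    exact_mod_cast h7
  -- the empty set
  rcases Finset.eq_empty_or_nonempty P with hPe | hPne
  · subst hPe
    have : (powersetCard r (range K)).filter (fun S => Real.sqrt ((∅ : Finset ℕ).card) * (x : ℝ) ^ δ <
        |∑ p ∈ (∅ : Finset ℕ), F p (change b K N f S)|) = ∅ := by
      apply filter_eq_empty_iff.2
      intro S _
      simp
    rw [this, card_empty, Nat.cast_zero]
    positivity
  have hPc : (1 : ℝ) ≤ P.card := by exact_mod_cast hPne.card_pos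
  obtain ⟨Q, hQ⟩ : ∃ Q, Q = ∏ p ∈ P, p := ⟨_, rfl⟩
  have hQ1 : 1 ≤ Q := by rw [hQ]; exact prod_pos fun q hq => (hP q hq).1.pos
  have hbQ : Nat.Coprime b Q := by
    rw [hQ]
    apply Nat.Coprime.prod_right
    intro p hp
    obtain ⟨h1, h2, -⟩ := hP p hp
    rw [Nat.coprime_comm, Nat.Prime.coprime_iff_not_dvd h1]
    intro h
    have := Nat.le_of_dvd (by omega) h
    nlinarith
  have hLQ : Nat.Coprime L Q := by
    rw [hQ]
    apply Nat.Coprime.prod_right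
    intro p hp
    obtain ⟨h1, h2, -⟩ := hP p hp
    rw [Nat.coprime_comm, Nat.Prime.coprime_iff_not_dvd h1, hL, Nat.Prime.dvd_factorial h1]
    omega
  have hZQ : Nat.Coprime Z Q := by rw [hZ]; exact hbQ.pow_left _
  obtain ⟨D, hD⟩ : ∃ D, D = x ^ (2 * j) := ⟨_, rfl⟩
  rw [← hD] at hn3
  -- the bad frequencies
  obtain ⟨Bs, hBs⟩ : ∃ Bs, Bs = (Fr Q D).filter (fun k => 4 * (E * (Ig L Z Q T k).card) < T) := ⟨_, rfl⟩
  have hZ2 : 2 ≤ Z := by
    rw [hZ]
    calc 2 ≤ b := hb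
      _ = b ^ 1 := (pow_one b).symm
      _ ≤ b ^ (2 * s) := Nat.pow_le_pow_right (by omega) (by omega)
  have hBc : (Bs.card : ℝ) ≤ (x : ℝ) ^ δ := by
    rw [hBs]
    exact (bad_count L Z E n Q D T hZ2 hE hQ1 hn1 hnT hn3 hLQ hZQ).trans hn4
  -- the good frequencies
  obtain ⟨cd, hcd⟩ : ∃ cd : ℕ → ℤ, cd = fun j => (f j : ℤ) - ((N / b ^ j % b : ℕ) : ℤ) := ⟨_, rfl⟩
  have hcdb : ∀ j, cd j ≠ 0 ∧ (cd j).natAbs < b := by
    intro i
    obtain ⟨h1, h2⟩ := hf i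
    have h3 : N / b ^ i % b < b := Nat.mod_lt _ (by omega)
    rw [hcd]
    show (f i : ℤ) - ((N / b ^ i % b : ℕ) : ℤ) ≠ 0 ∧ ((f i : ℤ) - ((N / b ^ i % b : ℕ) : ℤ)).natAbs < b
    constructor
    · omega
    · omega
  have hbr0 : (0 : ℝ) < b := by exact_mod_cast (by omega : 0 < b)
  have hexpS : ∀ k : ℕ, ‖∑ S ∈ powersetCard r (range K), ee ((k : ℝ) * (change b K N f S : ℕ) / Q)‖ =
      ‖∑ S ∈ powersetCard r (range K), ∏ i ∈ S, ee ((k : ℝ) * (cd i : ℝ) * (b : ℝ) ^ i / Q)‖ := by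
    intro k
    have h1 : ∀ S ∈ powersetCard r (range K), ee ((k : ℝ) * (change b K N f S : ℕ) / Q) =
        ee ((k : ℝ) * N / Q) * ∏ i ∈ S, ee ((k : ℝ) * (cd i : ℝ) * (b : ℝ) ^ i / Q) := by
      intro S hS
      rw [mem_powersetCard] at hS
      have h2 := change_eq b K N hN f S hS.1
      have h3 : ((change b K N f S : ℕ) : ℝ) = N + ∑ i ∈ S, (cd i : ℝ) * (b : ℝ) ^ i := by
        have h4 : (((change b K N f S : ℕ) : ℤ) : ℝ) = ((N + ∑ i ∈ S, Pool.Agent.TH894.SM.dl b (Pool.Agent.TH894.SM.ed b N f) i : ℤ) : ℝ) := by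
          rw [h2]
        push_cast at h4
        rw [h4]
        congr 1
        refine sum_congr rfl fun i _ => ?_
        unfold Pool.Agent.TH894.SM.dl Pool.Agent.TH894.SM.ed
        rw [hcd]
        push_cast
        ring
      rw [h3, ← ee_sum, ← ee_add]
      congr 1
      rw [mul_add, add_div, mul_sum, sum_div]
      congr 1
      exact sum_congr rfl fun i _ => by ring
    rw [sum_congr rfl h1, ← mul_sum, norm_mul, ee_norm, one_mul]
  obtain ⟨C, hC⟩ : ∃ C : ℝ, C = (K.choose r : ℝ) := ⟨_, rfl⟩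
  have hC0 : 0 ≤ C := by rw [hC]; exact Nat.cast_nonneg _
  obtain ⟨β, hβ⟩ : ∃ β : ℝ, β = C * Real.exp (-(c₁ / 2 * r)) := ⟨_, rfl⟩
  have hβ0 : 0 ≤ β := by rw [hβ]; positivity
  have hgood : ∀ k ∈ Fr Q D, k ∉ Bs → ‖∑ S ∈ powersetCard r (range K), ee ((k : ℝ) * (change b K N f S : ℕ) / Q)‖ ≤ β := by
    intro k hk hkB
    rw [hexpS]
    have hk2 : T ≤ 4 * (E * (Ig (b * b).factorial (b ^ (2 * s)) Q T k).card) := by
      rw [← hL, ← hZ]
      by_contra hcon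
      push Not at hcon
      apply hkB
      rw [hBs, mem_filter]
      exact ⟨hk, hcon⟩
    refine (exp_bound b s K r Q T E k hb hs hr1 hrK hQ1 hE hTK cd hcdb hk2).trans ?_
    rw [← hL, ← hZ, ← hd, ← hC, hβ]
    have h1 : c₁ * r ≤ d * (r * T / (4 * (E * K))) := by
      rw [hc₁]
      have h2 : d / (16 * s * E) * r = d * (r / (16 * s * E)) := by ring
      rw [h2]
      apply mul_le_mul_of_nonneg_left _ hd0.le
      rw [div_le_div_iff₀ (by positivity) (by positivity)]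
      have h3 : (r : ℝ) * (4 * E) * K ≤ r * (4 * E) * (4 * s * T) := mul_le_mul_of_nonneg_left hTr (by positivity)
      nlinarith
    calc (4 * (r : ℝ) + 2) * C * Real.exp (-(d * (r * T / (4 * (E * K))))) ≤
          Real.exp (c₁ / 2 * r) * C * Real.exp (-(c₁ * r)) := by
          apply mul_le_mul _ (Real.exp_le_exp.2 (by linarith)) (Real.exp_pos _).le (by positivity)
          exact mul_le_mul_of_nonneg_right hexp hC0
      _ = C * (Real.exp (c₁ / 2 * r) * Real.exp (-(c₁ * r))) := by ring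
      _ = C * Real.exp (-(c₁ / 2 * r)) := by
          rw [← Real.exp_add]
          congr 2
          ring
  -- the number of all frequencies
  have hFrc : ((Fr Q D).card : ℝ) * β ≤ C := by
    have h1 : ((Fr Q D).card : ℝ) ≤ Real.exp (c₁ / 2 * r) := by
      have h2 : ((Fr Q D).card : ℝ) ≤ ((D * D : ℕ) : ℝ) := by exact_mod_cast Fr_card Q D hQ1
      refine h2.trans ?_
      rw [hD]
      push_cast
      rw [← pow_add]
      have h3 : (x : ℝ) ^ (2 * j + 2 * j) = Real.exp ((2 * j + 2 * j : ℕ) * Real.log x) := by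
        rw [Real.exp_nat_mul, Real.exp_log hx0]
      rw [h3]
      apply Real.exp_le_exp.2
      push_cast
      calc (2 * (j : ℝ) + 2 * j) * Real.log x ≤ (2 * (j : ℝ) + 2 * j) * (c * r) := mul_le_mul_of_nonneg_left hxr (by positivity)
        _ ≤ (2 * (j : ℝ) + 2 * j) * ((c₁ / (16 * j)) * r) := by gcongr
        _ = c₁ / 4 * r := by field_simp; ring
        _ ≤ c₁ / 2 * r := by
            apply mul_le_mul_of_nonneg_right _ (by linarith)
            linarith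
    calc ((Fr Q D).card : ℝ) * β ≤ Real.exp (c₁ / 2 * r) * β := mul_le_mul_of_nonneg_right h1 hβ0
      _ = C * (Real.exp (c₁ / 2 * r) * Real.exp (-(c₁ / 2 * r))) := by rw [hβ]; ring
      _ = C := by rw [← Real.exp_add, add_neg_cancel, Real.exp_zero, mul_one]
  -- the moment
  obtain ⟨H, hH⟩ : ∃ H : ℕ → ℝ, H = fun n => (∑ p ∈ P, F p n) ^ (2 * j) := ⟨_, rfl⟩
  have hHQ : ∀ n, H (n + Q) = H n := by
    intro m
    rw [hH]
    show (∑ p ∈ P, F p (m + Q)) ^ (2 * j) = (∑ p ∈ P, F p m) ^ (2 * j)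
    congr 1
    refine sum_congr rfl fun p hp => ?_
    exact per_dvd p Q (by rw [hQ]; exact dvd_prod_of_mem (fun q => q) hp) (F p) (hF p hp).1 m
  have hH0 : ∀ n, 0 ≤ H n := by
    intro m
    rw [hH]
    exact (even_two_mul j).pow_nonneg _
  have havg := avg_le (powersetCard r (range K)) (fun S => change b K N f S) Q hQ1 H hHQ hH0 (Fr Q D) Bs
    (by
      intro k hk hkF
      rw [hH]
      rw [hD] at hkF
      exact cf_zero P F Q (2 * j) x hQ1 (fun p hp => ⟨(hP p hp).1.pos, (hP p hp).2.2,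
        by rw [hQ]; exact dvd_prod_of_mem (fun q => q) hp⟩) (fun p hp => (hF p hp).1) k hk hkF)
    β hβ0 hgood
  have hmom := moment P (fun p hp => (hP p hp).1) F (fun p hp => (hF p hp).1) (fun p hp => (hF p hp).2.1)
    (fun p hp => (hF p hp).2.2) j hj1
  rw [← hQ] at hmom
  have hHsum : 1 / (Q : ℝ) * ∑ n ∈ range Q, H n ≤ (j : ℝ) ^ (2 * j) * (P.card : ℝ) ^ j := by
    rw [hH]
    exact hmom
  rw [card_powersetCard, card_range, ← hC] at havg
  have hxδ1 : (1 : ℝ) ≤ (x : ℝ) ^ δ := Real.one_le_rpow hx1' hδ.le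
  have htot : ∑ S ∈ powersetCard r (range K), H (change b K N f S) ≤
      ((j : ℝ) ^ (2 * j) * (P.card : ℝ) ^ j) * (2 * (x : ℝ) ^ δ * C) := by
    refine havg.trans ?_
    apply mul_le_mul hHsum _ (by positivity) (by positivity)
    have h1 : (Bs.card : ℝ) * C ≤ (x : ℝ) ^ δ * C := mul_le_mul_of_nonneg_right hBc hC0
    have h2 : C ≤ (x : ℝ) ^ δ * C := le_mul_of_one_le_left hC0 hxδ1
    linarith
  -- Chebyshev
  obtain ⟨Ex, hEx⟩ : ∃ Ex, Ex = (powersetCard r (range K)).filter (fun S => Real.sqrt P.card * (x : ℝ) ^ δ <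
    |∑ p ∈ P, F p (change b K N f S)|) := ⟨_, rfl⟩
  rw [← hEx, ← hC]
  have hcheb : (Ex.card : ℝ) * ((P.card : ℝ) ^ j * ((x : ℝ) ^ δ) ^ (2 * j)) ≤
      ∑ S ∈ powersetCard r (range K), H (change b K N f S) := by
    calc (Ex.card : ℝ) * ((P.card : ℝ) ^ j * ((x : ℝ) ^ δ) ^ (2 * j)) =
          ∑ _S ∈ Ex, ((P.card : ℝ) ^ j * ((x : ℝ) ^ δ) ^ (2 * j)) := by rw [sum_const, nsmul_eq_mul]
      _ ≤ ∑ S ∈ Ex, H (change b K N f S) := by
          refine sum_le_sum fun S hS => ?_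
          rw [hEx, mem_filter] at hS
          rw [hH]
          show _ ≤ (∑ p ∈ P, F p (change b K N f S)) ^ (2 * j)
          have h1 : (P.card : ℝ) ^ j = (Real.sqrt P.card) ^ (2 * j) := by
            rw [pow_mul, Real.sq_sqrt (Nat.cast_nonneg _)]
          rw [h1, ← mul_pow, ← (even_two_mul j).pow_abs (∑ p ∈ P, F p (change b K N f S))]
          exact pow_le_pow_left₀ (by positivity) hS.2.le _
      _ ≤ ∑ S ∈ powersetCard r (range K), H (change b K N f S) := by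
          apply sum_le_sum_of_subset_of_nonneg
          · rw [hEx]; exact filter_subset _ _
          · intro S _ _
            exact hH0 _
  have h5 : (Ex.card : ℝ) * ((P.card : ℝ) ^ j * ((x : ℝ) ^ δ) ^ (2 * j)) ≤
      ((j : ℝ) ^ (2 * j) * (P.card : ℝ) ^ j) * (2 * (x : ℝ) ^ δ * C) := hcheb.trans htot
  have hPj : 0 < (P.card : ℝ) ^ j := by positivity
  have h6 : (Ex.card : ℝ) * ((x : ℝ) ^ δ) ^ (2 * j) ≤ (j : ℝ) ^ (2 * j) * (2 * (x : ℝ) ^ δ * C) := by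
    have : ((Ex.card : ℝ) * ((x : ℝ) ^ δ) ^ (2 * j)) * (P.card : ℝ) ^ j ≤
        ((j : ℝ) ^ (2 * j) * (2 * (x : ℝ) ^ δ * C)) * (P.card : ℝ) ^ j := by linarith
    exact le_of_mul_le_mul_right this hPj
  have h7 : 2 * (j : ℝ) ^ (2 * j) * (x : ℝ) ^ δ * (x : ℝ) ^ A ≤ ((x : ℝ) ^ δ) ^ (2 * j) := by
    have e1 : 2 * (j : ℝ) ^ (2 * j) ≤ x := by
      refine hx₃.trans ?_
      exact_mod_cast (by omega : x₃ ≤ x)
    calc 2 * (j : ℝ) ^ (2 * j) * (x : ℝ) ^ δ * (x : ℝ) ^ A ≤ x * (x : ℝ) ^ δ * (x : ℝ) ^ A := by gcongr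
      _ = (x : ℝ) ^ (1 + δ + A) := by
          rw [Real.rpow_add hx0, Real.rpow_add hx0, Real.rpow_one]
      _ ≤ (x : ℝ) ^ (δ * (2 * j : ℕ)) := by
          apply Real.rpow_le_rpow_of_exponent_le hx1'
          have e2 := le_abs_self A
          push_cast
          nlinarith
      _ = ((x : ℝ) ^ δ) ^ (2 * j) := by rw [Real.rpow_mul hx0.le, Real.rpow_natCast]
  have hxA : 0 < (x : ℝ) ^ A := by positivity
  have hxd : 0 < (x : ℝ) ^ δ := by positivity
  have hjp : 0 < (j : ℝ) ^ (2 * j) := by positivity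
  rw [Real.rpow_neg hx0.le]
  have h8 : (Ex.card : ℝ) * (2 * (j : ℝ) ^ (2 * j) * (x : ℝ) ^ δ * (x : ℝ) ^ A) ≤ (2 * (j : ℝ) ^ (2 * j) * (x : ℝ) ^ δ) * C := by
    refine (mul_le_mul_of_nonneg_left h7 (Nat.cast_nonneg _)).trans (h6.trans (le_of_eq (by ring)))
  have h9 : (Ex.card : ℝ) * (x : ℝ) ^ A ≤ C := by
    have e1 : 0 < 2 * (j : ℝ) ^ (2 * j) * (x : ℝ) ^ δ := by positivity
    have e2 : (2 * (j : ℝ) ^ (2 * j) * (x : ℝ) ^ δ) * ((Ex.card : ℝ) * (x : ℝ) ^ A) ≤ (2 * (j : ℝ) ^ (2 * j) * (x : ℝ) ^ δ) * C := by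
      linarith
    exact le_of_mul_le_mul_left e2 e1
  rw [inv_mul_eq_div, le_div_iff₀ hxA]
  exact h9

end Pool.Agent.TH894.ND
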