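import Pool.Agent.TH894.ND6

set_option autoImplicit false

/-! Arbitrary sets of residue classes modulo primes at the numbers obtained by few changes of digits. -/

namespace Pool.Agent.TH894.ND
open Finset Filter
open Pool.Agent.TH894.SM (change change_eq)

open Classical in
/-- the proportion of the residues with a property -/
noncomputable def mu (p : ℕ) (T : ZMod p → Prop) : ℝ := (((range p).filter (fun a : ℕ => T (a : ZMod p))).card : ℝ) / p

lemma mu_nonneg (p : ℕ) (T : ZMod p → Prop) : 0 ≤ mu p T := by unfold mu; positivity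

lemma mu_le_one (p : ℕ) (T : ZMod p → Prop) : mu p T ≤ 1 := by
  classical
  unfold mu
  apply div_le_one_of_le₀ _ (Nat.cast_nonneg _)
  have := card_filter_le (range p) (fun a : ℕ => T (a : ZMod p))
  rw [card_range] at this
  exact_mod_cast this

open Classical in
theorem local_law (b : ℕ) (hb : 2 ≤ b) (δ A : ℝ) (hδ : 0 < δ) : ∃ c : ℝ, 0 < c ∧ ∃ x₀ : ℕ, ∀ r K x : ℕ, 2 * r ≤ K → x₀ ≤ x →
    Real.log x ≤ c * r → ∀ N : ℕ, N < b ^ K → ∀ f : ℕ → ℕ, (∀ j, f j < b ∧ f j ≠ N / b ^ j % b) →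
    ∀ P : Finset ℕ, (∀ p ∈ P, p.Prime ∧ p ≤ x) → ∀ T : (p : ℕ) → ZMod p → Prop,
    (((powersetCard r (range K)).filter (fun S => Real.sqrt P.card * (x : ℝ) ^ δ <
      |((P.filter (fun p => T p ((change b K N f S : ℕ) : ZMod p))).card : ℝ) - ∑ p ∈ P, mu p (T p)|)).card : ℝ) ≤
      (x : ℝ) ^ (-A) * (K.choose r : ℝ) := by
  obtain ⟨c, hc, x₀, h⟩ := engine b hb (δ / 2) A (by positivity)
  have hev : ∀ᶠ x : ℕ in atTop, ((b : ℝ) * b + 1) + 1 ≤ (x : ℝ) ^ (δ / 2) := by
    have h1 : Tendsto (fun x : ℝ => x ^ (δ / 2)) atTop atTop := tendsto_rpow_atTop (by positivity)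
    exact (h1.comp tendsto_natCast_atTop_atTop).eventually (eventually_ge_atTop _)
  obtain ⟨x₁, hx₁⟩ := eventually_atTop.1 hev
  refine ⟨c, hc, x₀ + x₁ + 1, fun r K x hrK hx hxr N hN f hf P hP T => ?_⟩
  have hx1 := hx₁ x (by omega)
  have hxr1 : (1 : ℝ) ≤ x := by exact_mod_cast (by omega : 1 ≤ x)
  have hx0 : (0 : ℝ) < x := by linarith
  obtain ⟨F, hF⟩ : ∃ F : ℕ → ℕ → ℝ, F = fun (p : ℕ) (n : ℕ) => (if T p (n : ZMod p) then (1 : ℝ) else 0) - mu p (T p) := ⟨_, rfl⟩
  obtain ⟨P', hP'⟩ : ∃ P', P' = P.filter (fun p => b * b < p) := ⟨_, rfl⟩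
  have hmain := h r K x hrK (by omega) hxr N hN f hf P' (by
    intro p hp
    rw [hP', mem_filter] at hp
    exact ⟨(hP p hp.1).1, hp.2, (hP p hp.1).2⟩) F (by
    intro p hp
    rw [hP', mem_filter] at hp
    have hp0 := (hP p hp.1).1.pos
    have hpr : (0 : ℝ) < p := by exact_mod_cast hp0
    refine ⟨fun n => ?_, fun n => ?_, ?_⟩
    · rw [hF]
      show (if T p ((n + p : ℕ) : ZMod p) then (1 : ℝ) else 0) - mu p (T p) = _
      rw [Nat.cast_add, ZMod.natCast_self, add_zero]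
    · rw [hF]
      have h1 := mu_nonneg p (T p)
      have h2 := mu_le_one p (T p)
      show |(if T p (n : ZMod p) then (1 : ℝ) else 0) - mu p (T p)| ≤ 1
      rw [abs_le]
      split_ifs <;> constructor <;> linarith
    · rw [hF]
      show ∑ n ∈ range p, ((if T p (n : ZMod p) then (1 : ℝ) else 0) - mu p (T p)) = 0
      rw [sum_sub_distrib, sum_const, card_range, nsmul_eq_mul, ← sum_filter, sum_const, nsmul_eq_mul, mul_one]
      unfold mu
      rw [mul_div_cancel₀ _ hpr.ne', sub_self])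
  refine le_trans ?_ hmain
  norm_cast
  apply card_le_card
  intro S hS
  rw [mem_filter] at hS ⊢
  refine ⟨hS.1, ?_⟩
  have hlt := hS.2
  obtain ⟨m, hm⟩ : ∃ m, m = change b K N f S := ⟨_, rfl⟩
  rw [← hm] at hlt ⊢
  have hsum : ((P.filter (fun p => T p ((m : ℕ) : ZMod p))).card : ℝ) - ∑ p ∈ P, mu p (T p) = ∑ p ∈ P, F p m := by
    rw [hF]
    show _ = ∑ p ∈ P, ((if T p (m : ZMod p) then (1 : ℝ) else 0) - mu p (T p))
    rw [sum_sub_distrib, card_filter]
    push_cast
    rfl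
  rw [hsum] at hlt
  have hFb : ∀ p, |F p m| ≤ 1 := by
    intro p
    rw [hF]
    have h1 := mu_nonneg p (T p)
    have h2 := mu_le_one p (T p)
    show |(if T p (m : ZMod p) then (1 : ℝ) else 0) - mu p (T p)| ≤ 1
    rw [abs_le]
    split_ifs <;> constructor <;> linarith
  have hsplit : ∑ p ∈ P, F p m = ∑ p ∈ P', F p m + ∑ p ∈ P.filter (fun p => ¬ b * b < p), F p m := by
    rw [hP', sum_filter_add_sum_filter_not]
  have hsmall : |∑ p ∈ P.filter (fun p => ¬ b * b < p), F p m| ≤ (b : ℝ) * b + 1 := by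
    refine (abs_sum_le_sum_abs _ _).trans ((sum_le_sum fun p _ => hFb p).trans ?_)
    rw [sum_const, nsmul_eq_mul, mul_one]
    have h1 : P.filter (fun p => ¬ b * b < p) ⊆ range (b * b + 1) := by
      intro p hp
      rw [mem_filter] at hp
      rw [mem_range]
      omega
    have h2 := card_le_card h1
    rw [card_range] at h2
    exact_mod_cast h2
  have hPne : 0 < P.card := by
    by_contra hcon
    have h1 : P = ∅ := card_eq_zero.1 (by omega)
    rw [h1] at hlt
    simp at hlt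
  have hsq1 : (1 : ℝ) ≤ Real.sqrt P.card := by
    rw [Real.one_le_sqrt]
    exact_mod_cast hPne
  have hsq2 : Real.sqrt P'.card ≤ Real.sqrt P.card := by
    apply Real.sqrt_le_sqrt
    rw [hP']
    exact_mod_cast card_le_card (filter_subset _ P)
  have hsq0 : 0 ≤ Real.sqrt P'.card := Real.sqrt_nonneg _
  have hxδ : (x : ℝ) ^ δ = (x : ℝ) ^ (δ / 2) * (x : ℝ) ^ (δ / 2) := by
    rw [← Real.rpow_add hx0]
    congr 1
    ring
  obtain ⟨u, hu⟩ : ∃ u, u = (x : ℝ) ^ (δ / 2) := ⟨_, rfl⟩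
  rw [← hu] at hx1 hxδ ⊢
  rw [hxδ, hsplit] at hlt
  have h3 := abs_add_le (∑ p ∈ P', F p m) (∑ p ∈ P.filter (fun p => ¬ b * b < p), F p m)
  have hu2 : (2 : ℝ) ≤ u := by nlinarith [sq_nonneg (b : ℝ)]
  have hu0 : 0 ≤ u := by linarith
  -- sqrt P u u >= sqrt P' u + (u - 1) u
  have h4 : Real.sqrt P'.card * u + (u - 1) ≤ Real.sqrt P.card * (u * u) := by
    have h5 : Real.sqrt P'.card * u ≤ Real.sqrt P.card * u := mul_le_mul_of_nonneg_right hsq2 hu0
    have h6 : Real.sqrt P.card * u + Real.sqrt P.card * (u * (u - 1)) = Real.sqrt P.card * (u * u) := by ring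
    have h7 : u - 1 ≤ Real.sqrt P.card * (u * (u - 1)) := by
      have h8 : 1 * (1 * (u - 1)) ≤ Real.sqrt P.card * (u * (u - 1)) := by
        apply mul_le_mul hsq1 _ (by nlinarith) (Real.sqrt_nonneg _)
        exact mul_le_mul_of_nonneg_right (by linarith) (by linarith)
      linarith
    linarith
  linarith

end Pool.Agent.TH894.ND
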