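import Pool.Agent.TH894.ND7

set_option autoImplicit false

/-! Uniformity in the length and in many sets of residue classes. -/

namespace Pool.Agent.TH894.ND
open Finset Filter
open Pool.Agent.TH894.SM (change change_eq)

open Classical in
theorem uniform_law (b : ℕ) (hb : 2 ≤ b) (δ A A₂ : ℝ) (hδ : 0 < δ) : ∃ c : ℝ, 0 < c ∧ ∃ x₀ : ℕ, ∀ r K y : ℕ, 2 * r ≤ K → x₀ ≤ y →
    ∀ N : ℕ, N < b ^ K → ∀ f : ℕ → ℕ, (∀ j, f j < b ∧ f j ≠ N / b ^ j % b) →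
    ∀ (ι : Type) (Λ : ℕ → Finset ι), (∀ x, x₀ ≤ x → ((Λ x).card : ℝ) ≤ (x : ℝ) ^ A₂) →
    ∀ P : ℕ → ι → Finset ℕ, (∀ x i, ∀ p ∈ P x i, p.Prime ∧ p ≤ x) → ∀ T : ι → (p : ℕ) → ZMod p → Prop,
    ∀ Ex ⊆ powersetCard r (range K), (∀ S ∈ Ex, ∃ x : ℕ, y ≤ x ∧ Real.log x ≤ c * r ∧ ∃ i ∈ Λ x,
      Real.sqrt (P x i).card * (x : ℝ) ^ δ <
        |(((P x i).filter (fun p => T i p ((change b K N f S : ℕ) : ZMod p))).card : ℝ) - ∑ p ∈ P x i, mu p (T i p)|) →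
    (Ex.card : ℝ) ≤ (y : ℝ) ^ (-A) * (K.choose r : ℝ) := by
  obtain ⟨c, hc, x₀, h⟩ := local_law b hb δ (|A| + A₂ + 2) hδ
  refine ⟨c, hc, x₀ + 2, fun r K y hrK hy N hN f hf ι Λ hΛ P hP T Ex hEx hExb => ?_⟩
  have hyr : (2 : ℝ) ≤ y := by exact_mod_cast (by omega : 2 ≤ y)
  have hy0 : (0 : ℝ) < y := by linarith
  obtain ⟨X, hX⟩ : ∃ X, X = ⌊Real.exp (c * r)⌋₊ := ⟨_, rfl⟩
  obtain ⟨C, hC⟩ : ∃ C : ℝ, C = (K.choose r : ℝ) := ⟨_, rfl⟩
  have hC0 : 0 ≤ C := by rw [hC]; exact Nat.cast_nonneg _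
  have hcov : Ex ⊆ (Ioo (y - 1) (X + 1)).biUnion (fun x => (Λ x).biUnion (fun i => if Real.log x ≤ c * r then
      (powersetCard r (range K)).filter (fun S => Real.sqrt (P x i).card * (x : ℝ) ^ δ <
        |(((P x i).filter (fun p => T i p ((change b K N f S : ℕ) : ZMod p))).card : ℝ) - ∑ p ∈ P x i, mu p (T i p)|) else ∅)) := by
    intro S hS
    obtain ⟨x, hyx, hxr, i, hi, hlt⟩ := hExb S hS
    rw [mem_biUnion]
    refine ⟨x, ?_, ?_⟩
    · rw [mem_Ioo]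
      refine ⟨by omega, ?_⟩
      have hx0 : (0 : ℝ) < x := by exact_mod_cast (by omega : 0 < x)
      have h1 : (x : ℝ) ≤ Real.exp (c * r) := by
        rw [← Real.log_le_iff_le_exp hx0]
        exact hxr
      have h2 : x ≤ X := by
        rw [hX]
        exact Nat.le_floor h1
      omega
    · rw [mem_biUnion]
      refine ⟨i, hi, ?_⟩
      rw [if_pos hxr, mem_filter]
      exact ⟨hEx hS, hlt⟩
  have h1 : (Ex.card : ℝ) ≤ ∑ x ∈ Ioo (y - 1) (X + 1), ((x : ℝ) ^ 2)⁻¹ * ((x : ℝ) ^ (-|A|) * C) := by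
    have h2 := (card_le_card hcov).trans (card_biUnion_le.trans (sum_le_sum fun x _ => card_biUnion_le))
    have h3 : (Ex.card : ℝ) ≤ ∑ x ∈ Ioo (y - 1) (X + 1), ∑ i ∈ Λ x, ((if Real.log x ≤ c * r then
      (powersetCard r (range K)).filter (fun S => Real.sqrt (P x i).card * (x : ℝ) ^ δ <
        |(((P x i).filter (fun p => T i p ((change b K N f S : ℕ) : ZMod p))).card : ℝ) - ∑ p ∈ P x i, mu p (T i p)|) else ∅).card : ℝ) := by
      exact_mod_cast h2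
    refine h3.trans (sum_le_sum fun x hx => ?_)
    rw [mem_Ioo] at hx
    have hxx : x₀ ≤ x := by omega
    have hxp : (0 : ℝ) < x := by exact_mod_cast (by omega : 0 < x)
    have h4 : ∀ i ∈ Λ x, (((if Real.log x ≤ c * r then
      (powersetCard r (range K)).filter (fun S => Real.sqrt (P x i).card * (x : ℝ) ^ δ <
        |(((P x i).filter (fun p => T i p ((change b K N f S : ℕ) : ZMod p))).card : ℝ) - ∑ p ∈ P x i, mu p (T i p)|) else ∅) : Finset (Finset ℕ)).card : ℝ) ≤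
        (x : ℝ) ^ (-(|A| + A₂ + 2)) * C := by
      intro i _
      split_ifs with hl
      · rw [hC]
        exact h r K x hrK hxx hl N hN f hf (P x i) (hP x i) (T i)
      · rw [card_empty, Nat.cast_zero]
        positivity
    refine (sum_le_sum h4).trans ?_
    rw [sum_const, nsmul_eq_mul]
    calc ((Λ x).card : ℝ) * ((x : ℝ) ^ (-(|A| + A₂ + 2)) * C) ≤ (x : ℝ) ^ A₂ * ((x : ℝ) ^ (-(|A| + A₂ + 2)) * C) :=
          mul_le_mul_of_nonneg_right (hΛ x (by omega)) (by positivity)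
      _ = ((x : ℝ) ^ A₂ * (x : ℝ) ^ (-(|A| + A₂ + 2))) * C := by ring
      _ = ((x : ℝ) ^ 2)⁻¹ * ((x : ℝ) ^ (-|A|) * C) := by
          rw [← Real.rpow_natCast, ← Real.rpow_neg hxp.le, ← mul_assoc, ← Real.rpow_add hxp, ← Real.rpow_add hxp]
          congr 2
          push_cast
          ring
  have h5 : ∑ x ∈ Ioo (y - 1) (X + 1), ((x : ℝ) ^ 2)⁻¹ * ((x : ℝ) ^ (-|A|) * C) ≤ (∑ x ∈ Ioo (y - 1) (X + 1), ((x : ℝ) ^ 2)⁻¹) * ((y : ℝ) ^ (-|A|) * C) := by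
    rw [sum_mul]
    refine sum_le_sum fun x hx => ?_
    rw [mem_Ioo] at hx
    apply mul_le_mul_of_nonneg_left _ (by positivity)
    apply mul_le_mul_of_nonneg_right _ hC0
    apply Real.rpow_le_rpow_of_nonpos hy0 _ (by have := abs_nonneg A; linarith)
    exact_mod_cast (by omega : y ≤ x)
  have h6 : ∑ x ∈ Ioo (y - 1) (X + 1), ((x : ℝ) ^ 2)⁻¹ ≤ 1 := by
    have h7 := sum_Ioo_inv_sq_le (α := ℝ) (y - 1) (X + 1)
    refine h7.trans ?_
    rw [div_le_one (by positivity)]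
    have : (1 : ℝ) ≤ ((y - 1 : ℕ) : ℝ) := by exact_mod_cast (by omega : 1 ≤ y - 1)
    linarith
  refine h1.trans (h5.trans ?_)
  calc (∑ x ∈ Ioo (y - 1) (X + 1), ((x : ℝ) ^ 2)⁻¹) * ((y : ℝ) ^ (-|A|) * C) ≤ 1 * ((y : ℝ) ^ (-|A|) * C) :=
        mul_le_mul_of_nonneg_right h6 (by positivity)
    _ = (y : ℝ) ^ (-|A|) * C := one_mul _
    _ ≤ (y : ℝ) ^ (-A) * (K.choose r : ℝ) := by
        rw [← hC]
        apply mul_le_mul_of_nonneg_right _ hC0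
        apply Real.rpow_le_rpow_of_exponent_le (by linarith)
        have := le_abs_self A
        linarith

end Pool.Agent.TH894.ND
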