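import Pool.Agent.TH894.ND8
import Pool.Agent.TH890.AS.R4

set_option autoImplicit false

/-! Primitive roots: the numbers obtained by few changes of digits. -/

namespace Pool.Agent.TH894.ND
open Finset Filter
open Pool.Agent.TH894.SM (change change_eq)
open Pool.Agent.TH890.AS (dens dens_eq locDens dens_art dens_nonneg dens_le_one order_zero)

lemma card_zmod (p : ℕ) [hp : Fact p.Prime] (T : ZMod p → Prop) [DecidablePred T] :
    ((range p).filter (fun a : ℕ => T (a : ZMod p))).card = ((univ : Finset (ZMod p)).filter T).card := by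
  classical
  refine card_bij (fun (a : ℕ) _ => (a : ZMod p)) ?_ ?_ ?_
  · intro a ha
    rw [mem_filter] at ha ⊢
    exact ⟨mem_univ _, ha.2⟩
  · intro a ha a' ha' h
    rw [mem_filter, mem_range] at ha ha'
    have h1 : a ≡ a' [MOD p] := (ZMod.natCast_eq_natCast_iff a a' p).1 h
    exact Nat.ModEq.eq_of_lt_of_lt h1 ha.1 ha'.1
  · intro x hx
    rw [mem_filter] at hx
    refine ⟨x.val, ?_, ?_⟩
    · rw [mem_filter, mem_range]
      refine ⟨ZMod.val_lt x, ?_⟩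
      rw [ZMod.natCast_zmod_val]
      exact hx.2
    · exact ZMod.natCast_zmod_val x

lemma mu_art (p : ℕ) [hp : Fact p.Prime] (B : ℤ) {k : ℕ} (hk : k ≠ 0) :
    |mu p (fun x => orderOf ((B : ZMod p) * x ^ k) = p - 1) - locDens B k p| ≤ 1 / p := by
  classical
  have hp0 : (0 : ℝ) < p := by exact_mod_cast hp.out.pos
  have hp1 : (0 : ℝ) < ((p - 1 : ℕ) : ℝ) := by
    have := hp.out.one_lt
    exact_mod_cast (by omega : 0 < p - 1)
  have hpc : ((p - 1 : ℕ) : ℝ) = (p : ℝ) - 1 := by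
    rw [Nat.cast_sub hp.out.one_lt.le]
    simp
  rw [← dens_art B hk]
  obtain ⟨T, hT⟩ : ∃ T : ZMod p → Prop, T = fun x => orderOf ((B : ZMod p) * x ^ k) = p - 1 := ⟨_, rfl⟩
  have h0 : ¬ T 0 := by
    rw [hT]
    show ¬ orderOf ((B : ZMod p) * 0 ^ k) = p - 1
    rw [zero_pow hk, mul_zero]
    exact order_zero
  rw [← hT]
  have h1 := dens_nonneg p T
  have h2 := dens_le_one T h0
  have h3 : mu p T = dens p T * (((p : ℝ) - 1) / p) := by
    unfold mu
    rw [dens_eq]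
    have h4 := card_zmod p T
    have h5 : (((range p).filter (fun a : ℕ => T (a : ZMod p))).card : ℝ) = (((univ : Finset (ZMod p)).filter T).card : ℝ) := by
      rw [← h4]
    rw [h5, ← hpc]
    field_simp
  rw [h3]
  have h6 : dens p T * (((p : ℝ) - 1) / p) - dens p T = -(dens p T * (1 / p)) := by
    field_simp
    ring
  rw [h6, abs_neg, abs_of_nonneg (by positivity)]
  exact mul_le_of_le_one_left (by positivity) h2

lemma sum_inv (x : ℕ) (hx : 1 ≤ x) (P : Finset ℕ) (hP : ∀ p ∈ P, p.Prime ∧ p ≤ x) : ∑ p ∈ P, 1 / (p : ℝ) ≤ 1 + Real.log x := by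
  have h1 : ∑ p ∈ P, 1 / (p : ℝ) ≤ ∑ n ∈ Icc 1 x, 1 / (n : ℝ) := by
    apply sum_le_sum_of_subset_of_nonneg
    · intro p hp
      rw [mem_Icc]
      exact ⟨(hP p hp).1.pos, (hP p hp).2⟩
    · intro n _ _
      positivity
  refine h1.trans ?_
  have h2 := harmonic_le_one_add_log x
  rw [harmonic_eq_sum_Icc] at h2
  push_cast at h2
  refine le_trans (le_of_eq ?_) h2
  exact sum_congr rfl fun n _ => by rw [one_div]

open Classical in
theorem artin_few (b : ℕ) (hb : 2 ≤ b) (δ : ℝ) (hδ : 0 < δ) (A : ℕ) : ∃ c : ℝ, 0 < c ∧ ∃ x₀ : ℕ, ∀ r K y : ℕ, 2 * r ≤ K → x₀ ≤ y →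
    ∀ N : ℕ, N < b ^ K → ∀ f : ℕ → ℕ, (∀ j, f j < b ∧ f j ≠ N / b ^ j % b) →
    ∀ P : ℕ → Finset ℕ, (∀ x, ∀ p ∈ P x, p.Prime ∧ p ≤ x) →
    ∀ Ex ⊆ powersetCard r (range K), (∀ S ∈ Ex, ∃ x : ℕ, y ≤ x ∧ Real.log x ≤ c * r ∧ ∃ B : ℤ, ∃ k : ℕ, |B| ≤ (x : ℤ) ^ A ∧ 1 ≤ k ∧
      k ≤ x ^ A ∧ Real.sqrt (P x).card * (x : ℝ) ^ δ <
        |(((P x).filter (fun p => orderOf ((B * ((change b K N f S : ℕ) : ℤ) ^ k : ℤ) : ZMod p) = p - 1)).card : ℝ) -
          ∑ p ∈ P x, locDens B k p|) →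
    (Ex.card : ℝ) ≤ (y : ℝ) ^ (-(A : ℝ)) * (K.choose r : ℝ) := by
  obtain ⟨c, hc, x₀, h⟩ := uniform_law b hb (δ / 2) A (2 * A + 2) (by positivity)
  have hev : ∀ᶠ x : ℕ in atTop, 1 + Real.log x ≤ (x : ℝ) ^ (δ / 2) := by
    have h1 := (isLittleO_log_rpow_atTop (show 0 < δ / 2 by positivity)).bound (show (0 : ℝ) < 1 / 2 by norm_num)
    have h2 : ∀ᶠ x : ℝ in atTop, 2 ≤ x ^ (δ / 2) := (tendsto_rpow_atTop (show 0 < δ / 2 by positivity)).eventually (eventually_ge_atTop 2)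
    have h3 := tendsto_natCast_atTop_atTop (R := ℝ) |>.eventually (h1.and (h2.and (eventually_ge_atTop 1)))
    filter_upwards [h3] with x hx
    obtain ⟨e1, e2, e3⟩ := hx
    have e4 : 0 ≤ Real.log x := Real.log_nonneg e3
    rw [Real.norm_eq_abs, Real.norm_eq_abs, abs_of_nonneg e4, abs_of_nonneg (by positivity)] at e1
    linarith
  obtain ⟨x₁, hx₁⟩ := eventually_atTop.1 hev
  obtain ⟨x₂, hx₂⟩ : ∃ x₂ : ℕ, ∀ x : ℕ, x₂ ≤ x → 2 ≤ (x : ℝ) ^ (δ / 2) := by
    have h2 : ∀ᶠ x : ℝ in atTop, 2 ≤ x ^ (δ / 2) := (tendsto_rpow_atTop (show 0 < δ / 2 by positivity)).eventually (eventually_ge_atTop 2)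
    exact eventually_atTop.1 (tendsto_natCast_atTop_atTop (R := ℝ) |>.eventually h2)
  refine ⟨c, hc, x₀ + x₁ + x₂ + 3, fun r K y hrK hy N hN f hf P hP Ex hEx hExb => ?_⟩
  refine h r K y hrK (by omega) N hN f hf (ℤ × ℕ) (fun x => if x < 3 then ∅ else (Icc (-((x : ℤ) ^ A)) ((x : ℤ) ^ A)) ×ˢ (Icc 1 (x ^ A))) ?_ (fun x _ => P x)
    (fun x _ => hP x) (fun i p u => orderOf ((i.1 : ZMod p) * u ^ i.2) = p - 1) Ex hEx ?_
  · intro x _
    show (((if x < 3 then ∅ else (Icc (-((x : ℤ) ^ A)) ((x : ℤ) ^ A)) ×ˢ (Icc 1 (x ^ A))) : Finset (ℤ × ℕ)).card : ℝ) ≤ _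
    split_ifs with hx3
    · rw [card_empty, Nat.cast_zero]
      positivity
    · push Not at hx3
      have hxr : (3 : ℝ) ≤ x := by exact_mod_cast hx3
      have hxA : (1 : ℝ) ≤ (x : ℝ) ^ A := one_le_pow₀ (by linarith)
      rw [card_product, Int.card_Icc, Nat.card_Icc]
      have e1 : ((((x : ℤ) ^ A + 1 - -((x : ℤ) ^ A)).toNat : ℕ) : ℝ) = 2 * (x : ℝ) ^ A + 1 := by
        have e2 : (((((x : ℤ) ^ A + 1 - -((x : ℤ) ^ A)).toNat : ℕ) : ℤ) : ℝ) = (((x : ℤ) ^ A + 1 - -((x : ℤ) ^ A) : ℤ) : ℝ) := by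
          rw [Int.toNat_of_nonneg (by have : (0 : ℤ) ≤ (x : ℤ) ^ A := by positivity
                                      linarith)]
        push_cast at e2
        push_cast
        rw [e2]
        ring
      push_cast [Nat.add_sub_cancel]
      rw [e1]
      have e3 : (x : ℝ) ^ (2 * (A : ℝ) + 2) = (x : ℝ) ^ A * (x : ℝ) ^ A * ((x : ℝ) * x) := by
        have : (2 * (A : ℝ) + 2) = ((2 * A + 2 : ℕ) : ℝ) := by push_cast; ring
        rw [this, Real.rpow_natCast]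
        ring
      rw [e3]
      have hx9 : (9 : ℝ) ≤ x * x := by nlinarith
      have e4 : (2 * (x : ℝ) ^ A + 1) ≤ (x : ℝ) ^ A * (x * x) := by
        have e5 : (x : ℝ) ^ A * 9 ≤ (x : ℝ) ^ A * (x * x) := mul_le_mul_of_nonneg_left hx9 (by positivity)
        linarith
      calc (2 * (x : ℝ) ^ A + 1) * (x : ℝ) ^ A ≤ ((x : ℝ) ^ A * (x * x)) * (x : ℝ) ^ A := mul_le_mul_of_nonneg_right e4 (by positivity)
        _ = _ := by ring
  · intro S hS
    obtain ⟨x, hyx, hxr, B, k, hB, hk1, hk2, hlt⟩ := hExb S hS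
    refine ⟨x, hyx, hxr, (B, k), ?_, ?_⟩
    · show (B, k) ∈ (if x < 3 then ∅ else (Icc (-((x : ℤ) ^ A)) ((x : ℤ) ^ A)) ×ˢ (Icc 1 (x ^ A)))
      rw [if_neg (by omega), mem_product, mem_Icc, mem_Icc]
      exact ⟨abs_le.1 hB, hk1, hk2⟩
    · have hx1 := hx₁ x (by omega)
      have hx2 := hx₂ x (by omega)
      have hx0 : (0 : ℝ) < x := by exact_mod_cast (by omega : 0 < x)
      obtain ⟨m, hm⟩ : ∃ m, m = change b K N f S := ⟨_, rfl⟩
      rw [← hm] at hlt ⊢
      have hfil : ((P x).filter (fun p => orderOf ((B * ((m : ℕ) : ℤ) ^ k : ℤ) : ZMod p) = p - 1)) =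
          (P x).filter (fun p => orderOf ((B : ZMod p) * ((m : ℕ) : ZMod p) ^ k) = p - 1) := by
        apply filter_congr
        intro p _
        push_cast
        rfl
      rw [hfil] at hlt
      have hPne : 0 < (P x).card := by
        by_contra hcon
        have h1 : P x = ∅ := card_eq_zero.1 (by omega)
        rw [h1] at hlt
        simp at hlt
      have hsq1 : (1 : ℝ) ≤ Real.sqrt (P x).card := by
        rw [Real.one_le_sqrt]
        exact_mod_cast hPne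
      have hdiff : |∑ p ∈ P x, mu p (fun u => orderOf ((B : ZMod p) * u ^ k) = p - 1) - ∑ p ∈ P x, locDens B k p| ≤ (x : ℝ) ^ (δ / 2) := by
        rw [← sum_sub_distrib]
        refine (abs_sum_le_sum_abs _ _).trans ?_
        refine (sum_le_sum fun p hp => ?_).trans ((sum_inv x (by omega) (P x) (hP x)).trans hx1)
        have : Fact p.Prime := ⟨(hP x p hp).1⟩
        exact mu_art p B (by omega)
      have hxδ : (x : ℝ) ^ δ = (x : ℝ) ^ (δ / 2) * (x : ℝ) ^ (δ / 2) := by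
        rw [← Real.rpow_add hx0]
        congr 1
        ring
      obtain ⟨u, hu⟩ : ∃ u, u = (x : ℝ) ^ (δ / 2) := ⟨_, rfl⟩
      rw [← hu] at hx1 hx2 hxδ hdiff ⊢
      rw [hxδ] at hlt
      have h5 : |(((P x).filter (fun p => orderOf ((B : ZMod p) * ((m : ℕ) : ZMod p) ^ k) = p - 1)).card : ℝ) - ∑ p ∈ P x, locDens B k p| ≤
          |(((P x).filter (fun p => orderOf ((B : ZMod p) * ((m : ℕ) : ZMod p) ^ k) = p - 1)).card : ℝ) -
            ∑ p ∈ P x, mu p (fun u => orderOf ((B : ZMod p) * u ^ k) = p - 1)| + u := by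
        refine (abs_sub_le _ (∑ p ∈ P x, mu p (fun u => orderOf ((B : ZMod p) * u ^ k) = p - 1)) _).trans ?_
        linarith
      have h6 : Real.sqrt (P x).card * u + u ≤ Real.sqrt (P x).card * (u * u) := by
        have h7 : Real.sqrt (P x).card * (u * u) = Real.sqrt (P x).card * u * u := by ring
        have h8 : u ≤ Real.sqrt (P x).card * u := le_mul_of_one_le_left (by linarith) hsq1
        rw [h7]
        nlinarith
      have h9 : Real.sqrt (P x).card * u < |(((P x).filter (fun p => orderOf ((B : ZMod p) * ((m : ℕ) : ZMod p) ^ k) = p - 1)).card : ℝ) -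
        ∑ p ∈ P x, mu p (fun u => orderOf ((B : ZMod p) * u ^ k) = p - 1)| := by linarith
      convert h9

end Pool.Agent.TH894.ND
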