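import Pool.Agent.TH894.ND4

set_option autoImplicit false

/-! Fourier expansion in several variables. -/

namespace Pool.Agent.TH894.NE
open Finset
open Pool.Agent.TH894.ND

/-- the vectors of residues -/
def box (d Q : ℕ) : Finset (Fin d → ℕ) := Fintype.piFinset (fun _ => range Q)

lemma mem_box {d Q : ℕ} {n : Fin d → ℕ} : n ∈ box d Q ↔ ∀ i, n i < Q := by
  unfold box
  simp only [Fintype.mem_piFinset, mem_range]

lemma card_box (d Q : ℕ) : (box d Q).card = Q ^ d := by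
  unfold box
  rw [Fintype.card_piFinset_const, card_range]

/-- the function depends on the residues modulo `q` only -/
def Per {d : ℕ} (q : ℕ) (H : (Fin d → ℕ) → ℝ) : Prop := ∀ n, H n = H (fun i => n i % q)

lemma Per.congr {d q : ℕ} {H : (Fin d → ℕ) → ℝ} (h : Per q H) {n m : Fin d → ℕ} (hnm : ∀ i, n i % q = m i % q) : H n = H m := by
  rw [h n, h m]
  congr 1
  funext i
  exact hnm i

lemma Per.of_dvd {d q Q : ℕ} (hq : q ∣ Q) {H : (Fin d → ℕ) → ℝ} (h : Per q H) : Per Q H := by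
  intro n
  apply h.congr
  intro i
  exact (Nat.mod_mod_of_dvd (n i) hq).symm

/-- the character -/
noncomputable def ch {d : ℕ} (Q : ℕ) (k n : Fin d → ℕ) : ℂ := ∏ i, ee ((k i : ℝ) * n i / Q)

/-- the conjugate character -/
noncomputable def ch' {d : ℕ} (Q : ℕ) (k n : Fin d → ℕ) : ℂ := ∏ i, ee (-((k i : ℝ) * n i / Q))

lemma ch_norm {d : ℕ} (Q : ℕ) (k n : Fin d → ℕ) : ‖ch Q k n‖ = 1 := by
  unfold ch
  rw [norm_prod]
  exact prod_eq_one fun i _ => ee_norm _

lemma ch'_norm {d : ℕ} (Q : ℕ) (k n : Fin d → ℕ) : ‖ch' Q k n‖ = 1 := by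
  unfold ch'
  rw [norm_prod]
  exact prod_eq_one fun i _ => ee_norm _

/-- the Fourier coefficients -/
noncomputable def cfd {d : ℕ} (Q : ℕ) (H : (Fin d → ℕ) → ℝ) (k : Fin d → ℕ) : ℂ :=
  (1 / (Q : ℂ) ^ d) * ∑ n ∈ box d Q, (H n : ℂ) * ch' Q k n

lemma expandd {d : ℕ} (Q : ℕ) (hQ : 1 ≤ Q) (H : (Fin d → ℕ) → ℝ) (hH : Per Q H) (m : Fin d → ℕ) :
    (H m : ℂ) = ∑ k ∈ box d Q, cfd Q H k * ch Q k m := by
  classical
  have hQc : (Q : ℂ) ≠ 0 := by exact_mod_cast (by omega : Q ≠ 0)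
  unfold cfd
  have h1 : ∀ k ∈ box d Q, (1 / (Q : ℂ) ^ d) * (∑ n ∈ box d Q, (H n : ℂ) * ch' Q k n) * ch Q k m =
      ∑ n ∈ box d Q, (1 / (Q : ℂ) ^ d) * (H n : ℂ) * ∏ i, ee ((k i : ℝ) * (((m i : ℤ) - (n i : ℤ) : ℤ) : ℝ) / Q) := by
    intro k _
    rw [mul_sum, sum_mul]
    refine sum_congr rfl fun n _ => ?_
    have h2 : ∏ i, ee ((k i : ℝ) * (((m i : ℤ) - (n i : ℤ) : ℤ) : ℝ) / Q) = ch' Q k n * ch Q k m := by
      unfold ch ch'
      rw [← prod_mul_distrib]
      refine prod_congr rfl fun i _ => ?_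
      rw [← ee_add]
      congr 1
      push_cast
      ring
    rw [h2]
    ring
  rw [sum_congr rfl h1, sum_comm]
  have h3 : ∀ n ∈ box d Q, ∑ k ∈ box d Q, (1 / (Q : ℂ) ^ d) * (H n : ℂ) * ∏ i, ee ((k i : ℝ) * (((m i : ℤ) - (n i : ℤ) : ℤ) : ℝ) / Q) =
      if n = (fun i => m i % Q) then (H m : ℂ) else 0 := by
    intro n hn
    rw [mem_box] at hn
    rw [← mul_sum]
    have h4 : ∑ k ∈ box d Q, ∏ i, ee ((k i : ℝ) * (((m i : ℤ) - (n i : ℤ) : ℤ) : ℝ) / Q) =
        ∏ i, ∑ l ∈ range Q, ee ((l : ℝ) * (((m i : ℤ) - (n i : ℤ) : ℤ) : ℝ) / Q) := by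
      unfold box
      rw [Finset.prod_univ_sum]
    rw [h4]
    have hiff : ∀ i, ((Q : ℤ) ∣ (m i : ℤ) - (n i : ℤ)) ↔ n i = m i % Q := by
      intro i
      rw [← Int.modEq_iff_dvd, Int.natCast_modEq_iff]
      constructor
      · intro h
        have h3 : n i % Q = m i % Q := h
        rwa [Nat.mod_eq_of_lt (hn i)] at h3
      · intro h
        show n i % Q = m i % Q
        rw [Nat.mod_eq_of_lt (hn i), h]
    by_cases h : n = (fun i => m i % Q)
    · rw [if_pos h]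
      have h5 : ∏ i, ∑ l ∈ range Q, ee ((l : ℝ) * (((m i : ℤ) - (n i : ℤ) : ℤ) : ℝ) / Q) = (Q : ℂ) ^ d := by
        have h6 : ∀ i ∈ (univ : Finset (Fin d)), ∑ l ∈ range Q, ee ((l : ℝ) * (((m i : ℤ) - (n i : ℤ) : ℤ) : ℝ) / Q) = (Q : ℂ) := by
          intro i _
          rw [orth Q hQ, if_pos ((hiff i).2 (congrFun h i))]
        rw [prod_congr rfl h6, prod_const, card_univ, Fintype.card_fin]
      have h7 : H n = H m := by
        rw [h]
        exact (hH m).symm
      rw [h5, h7]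
      field_simp
    · rw [if_neg h]
      obtain ⟨i, hi⟩ : ∃ i, n i ≠ m i % Q := by
        by_contra hcon
        push Not at hcon
        exact h (funext hcon)
      have h5 : ∏ i, ∑ l ∈ range Q, ee ((l : ℝ) * (((m i : ℤ) - (n i : ℤ) : ℤ) : ℝ) / Q) = 0 := by
        apply prod_eq_zero (mem_univ i)
        rw [orth Q hQ, if_neg (fun h' => hi ((hiff i).1 h'))]
      rw [h5, mul_zero]
  rw [sum_congr rfl h3, sum_ite_eq', if_pos]
  rw [mem_box]
  intro i
  exact Nat.mod_lt _ (by omega)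

/-- averages over a product of finite sets by the mean and the exponential sums -/
lemma avgd_le {d : ℕ} {ι : Type*} (s : Fin d → Finset ι) (m : Fin d → ι → ℕ) (Q : ℕ) (hQ : 1 ≤ Q) (H : (Fin d → ℕ) → ℝ)
    (hH : Per Q H) (hH0 : ∀ n, 0 ≤ H n) (Fs : Finset ℕ) (Bs : Fin d → Finset ℕ)
    (hFs : ∀ k ∈ box d Q, (∃ i, k i ∉ Fs) → cfd Q H k = 0)
    (ε : ℝ) (hε : 0 ≤ ε) (hε1 : ε ≤ 1) (hgood : ∀ i, ∀ k ∈ Fs, k ∉ Bs i → ‖∑ t ∈ s i, ee ((k : ℝ) * m i t / Q)‖ ≤ ε * (s i).card)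
    (B : ℝ) (hB : ∀ i, ((Bs i).card : ℝ) ≤ B) :
    ∑ S ∈ Fintype.piFinset s, H (fun i => m i (S i)) ≤
      (1 / (Q : ℝ) ^ d * ∑ n ∈ box d Q, H n) * ((B ^ d + (Fs.card : ℝ) ^ d * ε) * ∏ i, ((s i).card : ℝ)) := by
  classical
  obtain ⟨c0, hc0⟩ : ∃ c0 : ℝ, c0 = 1 / (Q : ℝ) ^ d * ∑ n ∈ box d Q, H n := ⟨_, rfl⟩
  have hQr : (0 : ℝ) < Q := by exact_mod_cast (by omega : 0 < Q)
  have hcf : ∀ k, ‖cfd Q H k‖ ≤ c0 := by
    intro k
    unfold cfd
    rw [norm_mul, norm_div, norm_one, norm_pow, Complex.norm_natCast, hc0]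
    apply mul_le_mul_of_nonneg_left _ (by positivity)
    refine (norm_sum_le _ _).trans (sum_le_sum fun n _ => ?_)
    rw [norm_mul, ch'_norm, mul_one, Complex.norm_real, Real.norm_eq_abs, abs_of_nonneg (hH0 n)]
  have hc00 : 0 ≤ c0 := (norm_nonneg _).trans (hcf (fun _ => 0))
  rw [← hc0]
  obtain ⟨M, hM⟩ : ∃ M : ℝ, M = ∏ i, ((s i).card : ℝ) := ⟨_, rfl⟩
  have hM0 : 0 ≤ M := by rw [hM]; exact prod_nonneg fun i _ => Nat.cast_nonneg _
  rw [← hM]
  have h1 : ((∑ S ∈ Fintype.piFinset s, H (fun i => m i (S i)) : ℝ) : ℂ) =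
      ∑ k ∈ box d Q, cfd Q H k * ∏ i, ∑ t ∈ s i, ee ((k i : ℝ) * m i t / Q) := by
    rw [Complex.ofReal_sum, sum_congr rfl fun S _ => expandd Q hQ H hH (fun i => m i (S i)), sum_comm]
    refine sum_congr rfl fun k _ => ?_
    rw [← mul_sum]
    congr 1
    rw [Finset.prod_univ_sum]
    rfl
  have h2 : ∑ S ∈ Fintype.piFinset s, H (fun i => m i (S i)) ≤ ‖((∑ S ∈ Fintype.piFinset s, H (fun i => m i (S i)) : ℝ) : ℂ)‖ := by
    rw [Complex.norm_real]
    exact le_abs_self _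
  refine h2.trans ?_
  rw [h1]
  refine (norm_sum_le _ _).trans ?_
  have htriv : ∀ (i : Fin d) (k : ℕ), ‖∑ t ∈ s i, ee ((k : ℝ) * m i t / Q)‖ ≤ (s i).card := by
    intro i k
    refine (norm_sum_le _ _).trans ?_
    rw [sum_congr rfl fun t _ => ee_norm _, sum_const, nsmul_eq_mul, mul_one]
  have h3 : ∀ k ∈ box d Q, ‖cfd Q H k * ∏ i, ∑ t ∈ s i, ee ((k i : ℝ) * m i t / Q)‖ ≤
      c0 * M * ((if k ∈ Fintype.piFinset Bs then (1 : ℝ) else 0) + (if k ∈ Fintype.piFinset (fun _ : Fin d => Fs) then ε else 0)) := by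
    intro k hk
    rw [norm_mul, mul_assoc]
    by_cases hF : k ∈ Fintype.piFinset (fun _ : Fin d => Fs)
    · rw [Fintype.mem_piFinset] at hF
      have hF' : k ∈ Fintype.piFinset (fun _ : Fin d => Fs) := by rw [Fintype.mem_piFinset]; exact hF
      by_cases hB' : k ∈ Fintype.piFinset Bs
      · rw [if_pos hB', if_pos hF']
        apply mul_le_mul (hcf k) _ (norm_nonneg _) hc00
        rw [norm_prod]
        calc ∏ i, ‖∑ t ∈ s i, ee ((k i : ℝ) * m i t / Q)‖ ≤ ∏ i, ((s i).card : ℝ) :=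
              prod_le_prod (fun _ _ => norm_nonneg _) (fun i _ => htriv i (k i))
          _ = M := hM.symm
          _ ≤ M * (1 + ε) := by nlinarith
      · rw [if_neg hB', if_pos hF', zero_add]
        apply mul_le_mul (hcf k) _ (norm_nonneg _) hc00
        rw [Fintype.mem_piFinset] at hB'
        push Not at hB'
        obtain ⟨i₀, hi₀⟩ := hB'
        rw [norm_prod, hM]
        have e1 : ∏ i, ‖∑ t ∈ s i, ee ((k i : ℝ) * m i t / Q)‖ ≤ ∏ i, ((if i = i₀ then ε else 1) * ((s i).card : ℝ)) := by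
          apply prod_le_prod (fun _ _ => norm_nonneg _)
          intro i _
          split_ifs with h
          · subst h
            exact hgood i (k i) (hF i) hi₀
          · rw [one_mul]
            exact htriv i (k i)
        refine e1.trans (le_of_eq ?_)
        rw [prod_mul_distrib, prod_ite_eq' univ i₀ (fun _ => ε), if_pos (mem_univ _)]
        ring
    · have h4 : ∃ i, k i ∉ Fs := by
        rw [Fintype.mem_piFinset] at hF
        push Not at hF
        exact hF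
      rw [hFs k hk h4, norm_zero, zero_mul]
      apply mul_nonneg hc00
      apply mul_nonneg hM0
      apply add_nonneg <;> split_ifs <;> first | positivity | exact le_refl _ | exact hε
  refine (sum_le_sum h3).trans ?_
  rw [← mul_sum, sum_add_distrib]
  have e1 : ∑ k ∈ box d Q, (if k ∈ Fintype.piFinset Bs then (1 : ℝ) else 0) ≤ B ^ d := by
    rw [← sum_filter, sum_const, nsmul_eq_mul, mul_one]
    have : (((box d Q).filter (fun k => k ∈ Fintype.piFinset Bs)).card : ℝ) ≤ ((Fintype.piFinset Bs).card : ℝ) := by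
      exact_mod_cast card_le_card (fun k hk => (mem_filter.1 hk).2)
    refine this.trans ?_
    rw [Fintype.card_piFinset]
    push_cast
    calc ∏ i, ((Bs i).card : ℝ) ≤ ∏ _i : Fin d, B := prod_le_prod (fun _ _ => Nat.cast_nonneg _) (fun i _ => hB i)
      _ = B ^ d := by rw [prod_const, card_univ, Fintype.card_fin]
  have e2 : ∑ k ∈ box d Q, (if k ∈ Fintype.piFinset (fun _ : Fin d => Fs) then ε else 0) ≤ (Fs.card : ℝ) ^ d * ε := by
    rw [← sum_filter, sum_const, nsmul_eq_mul]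
    apply mul_le_mul_of_nonneg_right _ hε
    have : (((box d Q).filter (fun k => k ∈ Fintype.piFinset (fun _ : Fin d => Fs))).card : ℝ) ≤ ((Fintype.piFinset (fun _ : Fin d => Fs)).card : ℝ) := by
      exact_mod_cast card_le_card (fun k hk => (mem_filter.1 hk).2)
    refine this.trans ?_
    rw [Fintype.card_piFinset_const]
    push_cast
    exact le_refl _
  calc c0 * M * (∑ k ∈ box d Q, (if k ∈ Fintype.piFinset Bs then (1 : ℝ) else 0) +
        ∑ k ∈ box d Q, (if k ∈ Fintype.piFinset (fun _ : Fin d => Fs) then ε else 0)) ≤ c0 * M * (B ^ d + (Fs.card : ℝ) ^ d * ε) :=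
        mul_le_mul_of_nonneg_left (add_le_add e1 e2) (by positivity)
    _ = _ := by ring

/-- a shift in one coordinate permutes the residues -/
lemma shift_box {d : ℕ} {β : Type*} [AddCommMonoid β] (Q M : ℕ) (hQ : 1 ≤ Q) (i₀ : Fin d) (G : (Fin d → ℕ) → β) :
    ∑ n ∈ box d Q, G (Function.update n i₀ ((n i₀ + M) % Q)) = ∑ n ∈ box d Q, G n := by
  classical
  have hmaps : ∀ n ∈ box d Q, Function.update n i₀ ((n i₀ + M) % Q) ∈ box d Q := by
    intro n hn
    rw [mem_box] at hn ⊢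
    intro i
    by_cases h : i = i₀
    · subst h
      rw [Function.update_self]
      exact Nat.mod_lt _ (by omega)
    · rw [Function.update_of_ne h]
      exact hn i
  have hinj : Set.InjOn (fun n : Fin d → ℕ => Function.update n i₀ ((n i₀ + M) % Q)) (box d Q : Set (Fin d → ℕ)) := by
    intro n hn n' hn' h
    rw [mem_coe, mem_box] at hn hn'
    have h' : Function.update n i₀ ((n i₀ + M) % Q) = Function.update n' i₀ ((n' i₀ + M) % Q) := h
    funext i
    by_cases hi : i = i₀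
    · subst hi
      have h1 := congrFun h' i
      rw [Function.update_self, Function.update_self] at h1
      have h2 : n i + M ≡ n' i + M [MOD Q] := h1
      have h3 : n i ≡ n' i [MOD Q] := Nat.ModEq.add_right_cancel' M h2
      exact Nat.ModEq.eq_of_lt_of_lt h3 (hn i) (hn' i)
    · have h1 := congrFun h' i
      rwa [Function.update_of_ne hi, Function.update_of_ne hi] at h1
  have hsurj : Set.SurjOn (fun n : Fin d → ℕ => Function.update n i₀ ((n i₀ + M) % Q)) (box d Q : Set (Fin d → ℕ)) (box d Q : Set (Fin d → ℕ)) :=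
    surjOn_of_injOn_of_card_le _ (fun n hn => hmaps n hn) hinj le_rfl
  exact sum_nbij (fun n => Function.update n i₀ ((n i₀ + M) % Q)) hmaps hinj hsurj (fun n _ => rfl)

/-- the Fourier coefficients of a power of a sum of local functions vanish at large denominators -/
lemma cfd_zero {d : ℕ} {ι : Type*} [DecidableEq ι] (I : Finset ι) (q : ι → ℕ) (F : ι → (Fin d → ℕ) → ℝ) (Q J x : ℕ) (hQ : 1 ≤ Q)
    (hq : ∀ a ∈ I, 1 ≤ q a ∧ q a ≤ x ∧ q a ∣ Q) (hF : ∀ a ∈ I, Per (q a) (F a)) (k : Fin d → ℕ) (hk : k ∈ box d Q)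
    (i₀ : Fin d) (hkF : k i₀ ∉ Fr Q (x ^ J)) :
    cfd Q (fun n => (∑ a ∈ I, F a n) ^ J) k = 0 := by
  classical
  unfold cfd
  have h1 : ∀ n, (((∑ a ∈ I, F a n) ^ J : ℝ) : ℂ) =
      ∑ g ∈ Fintype.piFinset (fun _ : Fin J => I), ((∏ i, F (g i) n : ℝ) : ℂ) := by
    intro n
    rw [← Complex.ofReal_sum]
    congr 1
    have h2 := Finset.prod_univ_sum (fun _ : Fin J => I) (fun _ a => F a n)
    rw [← h2, prod_const, card_univ, Fintype.card_fin]
  have h3 : ∑ n ∈ box d Q, (((∑ a ∈ I, F a n) ^ J : ℝ) : ℂ) * ch' Q k n =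
      ∑ g ∈ Fintype.piFinset (fun _ : Fin J => I), ∑ n ∈ box d Q, ((∏ i, F (g i) n : ℝ) : ℂ) * ch' Q k n := by
    rw [sum_comm]
    refine sum_congr rfl fun n _ => ?_
    rw [h1, sum_mul]
  show (1 / (Q : ℂ) ^ d) * ∑ n ∈ box d Q, (((∑ a ∈ I, F a n) ^ J : ℝ) : ℂ) * ch' Q k n = 0
  rw [h3]
  have hQr : (Q : ℝ) ≠ 0 := by exact_mod_cast (by omega : Q ≠ 0)
  have h4 : ∀ g ∈ Fintype.piFinset (fun _ : Fin J => I),
      ∑ n ∈ box d Q, ((∏ i, F (g i) n : ℝ) : ℂ) * ch' Q k n = 0 := by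
    intro g hg
    rw [Fintype.mem_piFinset] at hg
    obtain ⟨M, hM⟩ : ∃ M, M = ∏ i, q (g i) := ⟨_, rfl⟩
    have hM1 : 1 ≤ M := by
      rw [hM]
      exact Nat.one_le_iff_ne_zero.2 (prod_ne_zero_iff.2 fun i _ => by have := (hq _ (hg i)).1; omega)
    have hMx : M ≤ x ^ J := by
      rw [hM]
      calc ∏ i, q (g i) ≤ ∏ _i : Fin J, x := prod_le_prod' fun i _ => (hq _ (hg i)).2.1
        _ = x ^ J := by rw [prod_const, card_univ, Fintype.card_fin]
    have hnd : ¬ Q ∣ k i₀ * M := by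
      intro h
      apply hkF
      unfold Fr
      rw [mem_filter, mem_range]
      exact ⟨mem_box.1 hk i₀, M, hM1, hMx, h⟩
    have h5 := shift_box Q M hQ i₀ (fun n => ((∏ i, F (g i) n : ℝ) : ℂ) * ch' Q k n)
    have h6 : ∀ n ∈ box d Q, ((∏ i, F (g i) (Function.update n i₀ ((n i₀ + M) % Q)) : ℝ) : ℂ) * ch' Q k (Function.update n i₀ ((n i₀ + M) % Q)) =
        ee (-((k i₀ : ℝ) * M / Q)) * (((∏ i, F (g i) n : ℝ) : ℂ) * ch' Q k n) := by
      intro n _
      have e1 : ∏ i, F (g i) (Function.update n i₀ ((n i₀ + M) % Q)) = ∏ i, F (g i) n := by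
        refine prod_congr rfl fun i _ => ?_
        apply (hF _ (hg i)).congr
        intro l
        by_cases hl : l = i₀
        · subst hl
          rw [Function.update_self, Nat.mod_mod_of_dvd _ (hq _ (hg i)).2.2]
          have h7 : q (g i) ∣ M := by rw [hM]; exact dvd_prod_of_mem (fun i => q (g i)) (mem_univ i)
          obtain ⟨v, hv⟩ := h7
          rw [hv, Nat.add_mul_mod_self_left]
        · rw [Function.update_of_ne hl]
      have e2 : ch' Q k (Function.update n i₀ ((n i₀ + M) % Q)) = ee (-((k i₀ : ℝ) * M / Q)) * ch' Q k n := by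
        unfold ch'
        rw [← mul_prod_erase univ _ (mem_univ i₀), ← mul_prod_erase univ (fun i => ee (-((k i : ℝ) * n i / Q))) (mem_univ i₀), ← mul_assoc]
        congr 1
        · rw [Function.update_self, ← ee_add]
          obtain ⟨v, hv⟩ : ∃ v, n i₀ + M = (n i₀ + M) % Q + Q * v := ⟨_, (Nat.mod_add_div (n i₀ + M) Q).symm⟩
          have hvr : (n i₀ : ℝ) + M = (((n i₀ + M) % Q : ℕ) : ℝ) + Q * v := by exact_mod_cast hv
          have e3 : -((k i₀ : ℝ) * (((n i₀ + M) % Q : ℕ) : ℝ) / Q) =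
              (-((k i₀ : ℝ) * M / Q) + -((k i₀ : ℝ) * n i₀ / Q)) + (((k i₀ : ℤ) * (v : ℤ) : ℤ) : ℝ) := by
            have e4 : (((n i₀ + M) % Q : ℕ) : ℝ) = (n i₀ : ℝ) + M - Q * v := by linarith
            rw [e4]
            push_cast
            field_simp
            ring
          rw [e3, ee_add, ee_int, mul_one]
        · refine prod_congr rfl fun i hi => ?_
          rw [mem_erase] at hi
          rw [Function.update_of_ne hi.1]
      rw [e1, e2]
      ring
    rw [sum_congr rfl h6, ← mul_sum] at h5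
    have h7 : ee (-((k i₀ : ℝ) * M / Q)) ≠ 1 := by
      intro h
      apply hnd
      have h8 := orth Q hQ (-((k i₀ * M : ℕ) : ℤ))
      have h9 : ∀ l ∈ range Q, ee ((l : ℝ) * ((-((k i₀ * M : ℕ) : ℤ) : ℤ) : ℝ) / Q) = 1 := by
        intro l _
        have e1 : (l : ℝ) * ((-((k i₀ * M : ℕ) : ℤ) : ℤ) : ℝ) / Q = (l : ℝ) * (-((k i₀ : ℝ) * M / Q)) := by
          push_cast
          ring
        rw [e1]
        have : ∀ m : ℕ, ee ((m : ℝ) * (-((k i₀ : ℝ) * M / Q))) = 1 := by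
          intro m
          induction m with
          | zero => simp [ee_zero]
          | succ m ih =>
              have e2 : (((m + 1 : ℕ) : ℝ)) * (-((k i₀ : ℝ) * M / Q)) = (m : ℝ) * (-((k i₀ : ℝ) * M / Q)) + -((k i₀ : ℝ) * M / Q) := by
                push_cast
                ring
              rw [e2, ee_add, ih, h, mul_one]
        exact this l
      rw [sum_congr rfl h9, sum_const, card_range, nsmul_eq_mul, mul_one] at h8
      by_contra hcon
      have h10 : ¬ ((Q : ℤ) ∣ -((k i₀ * M : ℕ) : ℤ)) := by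
        rw [Int.dvd_neg, Int.natCast_dvd_natCast]
        exact hcon
      rw [if_neg h10] at h8
      have : (Q : ℂ) ≠ 0 := by exact_mod_cast (by omega : Q ≠ 0)
      exact this h8
    have h11 : (ee (-((k i₀ : ℝ) * M / Q)) - 1) * ∑ n ∈ box d Q, ((∏ i, F (g i) n : ℝ) : ℂ) * ch' Q k n = 0 := by
      rw [sub_mul, one_mul, h5, sub_self]
    rcases mul_eq_zero.1 h11 with h12 | h12
    · exact absurd (sub_eq_zero.1 h12) h7
    · exact h12
  rw [sum_congr rfl h4, sum_const_zero, mul_zero]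

end Pool.Agent.TH894.NE
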