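import Pool.Agent.TH894.NE1

set_option autoImplicit false

/-! Independence of local functions for coprime moduli, and the moments. -/

namespace Pool.Agent.TH894.NE
open Finset
open Pool.Agent.TH894.ND

/-- two coprime moduli -/
lemma two_mod {d : ℕ} (u v : ℕ) (hu : 1 ≤ u) (hv : 1 ≤ v) (huv : Nat.Coprime u v) (A B : (Fin d → ℕ) → ℝ) (hA : Per u A) (hB : Per v B) :
    ∑ n ∈ box d (u * v), A n * B n = (∑ n ∈ box d u, A n) * ∑ n ∈ box d v, B n := by
  classical
  rw [sum_mul_sum, ← sum_product']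
  obtain ⟨φ, hφ⟩ : ∃ φ : (Fin d → ℕ) → (Fin d → ℕ) × (Fin d → ℕ), φ = fun n => (fun i => n i % u, fun i => n i % v) := ⟨_, rfl⟩
  have hmaps : ∀ n ∈ box d (u * v), φ n ∈ box d u ×ˢ box d v := by
    intro n _
    rw [hφ, mem_product, mem_box, mem_box]
    exact ⟨fun i => Nat.mod_lt _ (by omega), fun i => Nat.mod_lt _ (by omega)⟩
  have hinj : Set.InjOn φ (box d (u * v) : Set (Fin d → ℕ)) := by
    intro n hn n' hn' h
    rw [mem_coe, mem_box] at hn hn'
    rw [hφ] at h
    have h1 := (Prod.mk.injEq _ _ _ _ ▸ h : (fun i => n i % u) = (fun i => n' i % u) ∧ (fun i => n i % v) = (fun i => n' i % v))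
    funext i
    have h2 : n i ≡ n' i [MOD u] := congrFun h1.1 i
    have h3 : n i ≡ n' i [MOD v] := congrFun h1.2 i
    have h4 : n i ≡ n' i [MOD (u * v)] := (Nat.modEq_and_modEq_iff_modEq_mul huv).1 ⟨h2, h3⟩
    exact Nat.ModEq.eq_of_lt_of_lt h4 (hn i) (hn' i)
  have hsurj : Set.SurjOn φ (box d (u * v) : Set (Fin d → ℕ)) ((box d u ×ˢ box d v : Finset _) : Set ((Fin d → ℕ) × (Fin d → ℕ))) := by
    apply surjOn_of_injOn_of_card_le φ (fun n hn => hmaps n hn) hinj
    rw [card_product, card_box, card_box, card_box, mul_pow]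
  refine sum_nbij φ hmaps hinj hsurj ?_
  intro n _
  rw [hφ]
  show A n * B n = A (fun i => n i % u) * B (fun i => n i % v)
  rw [← hA n, ← hB n]

/-- the mean over the residues -/
noncomputable def mean (d q : ℕ) (F : (Fin d → ℕ) → ℝ) : ℝ := 1 / (q : ℝ) ^ d * ∑ n ∈ box d q, F n

lemma mean_prod {d : ℕ} {ι : Type*} [DecidableEq ι] (I : Finset ι) (q : ι → ℕ) (hq : ∀ a ∈ I, 1 ≤ q a)
    (hcop : ∀ a ∈ I, ∀ a' ∈ I, a ≠ a' → Nat.Coprime (q a) (q a')) (G : ι → (Fin d → ℕ) → ℝ) (hG : ∀ a ∈ I, Per (q a) (G a)) :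
    mean d (∏ a ∈ I, q a) (fun n => ∏ a ∈ I, G a n) = ∏ a ∈ I, mean d (q a) (G a) := by
  classical
  induction I using Finset.induction_on with
  | empty =>
      unfold mean
      simp only [prod_empty, Nat.cast_one, one_pow, div_one, one_mul, sum_const, nsmul_eq_mul, mul_one]
      rw [card_box]
      simp
  | insert a I ha ih =>
      have ih' := ih (fun a' h => hq a' (mem_insert_of_mem h))
        (fun a' h a'' h' => hcop a' (mem_insert_of_mem h) a'' (mem_insert_of_mem h')) (fun a' h => hG a' (mem_insert_of_mem h))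
      rw [prod_insert ha, prod_insert ha, ← ih']
      obtain ⟨Q, hQ⟩ : ∃ Q, Q = ∏ a ∈ I, q a := ⟨_, rfl⟩
      rw [← hQ]
      have hQ1 : 1 ≤ Q := by
        rw [hQ]
        exact Nat.one_le_iff_ne_zero.2 (prod_ne_zero_iff.2 fun a' h => by have := hq a' (mem_insert_of_mem h); omega)
      have hc : Nat.Coprime (q a) Q := by
        rw [hQ]
        apply Nat.Coprime.prod_right
        intro a' h
        exact hcop a (mem_insert_self a I) a' (mem_insert_of_mem h) (fun h' => ha (h' ▸ h))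
      have hP : Per Q (fun n => ∏ a ∈ I, G a n) := by
        intro n
        refine prod_congr rfl fun a' h => ?_
        exact (hG a' (mem_insert_of_mem h)).of_dvd (by rw [hQ]; exact dvd_prod_of_mem q h) n
      unfold mean
      have h1 := two_mod (q a) Q (hq a (mem_insert_self a I)) hQ1 hc (G a) (fun n => ∏ a ∈ I, G a n) (hG a (mem_insert_self a I)) hP
      have h2 : ∑ n ∈ box d (q a * Q), ∏ a' ∈ insert a I, G a' n = ∑ n ∈ box d (q a * Q), G a n * ∏ a ∈ I, G a n :=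
        sum_congr rfl fun n _ => prod_insert ha
      rw [h2, h1]
      push_cast
      rw [mul_pow]
      have h3 : (q a : ℝ) ≠ 0 := by
        have := hq a (mem_insert_self a I)
        exact_mod_cast (by omega : q a ≠ 0)
      have h4 : (Q : ℝ) ≠ 0 := by exact_mod_cast (by omega : Q ≠ 0)
      field_simp

lemma mean_mono {d q : ℕ} {F G : (Fin d → ℕ) → ℝ} (h : ∀ n, F n ≤ G n) : mean d q F ≤ mean d q G := by
  unfold mean
  exact mul_le_mul_of_nonneg_left (sum_le_sum fun n _ => h n) (by positivity)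

lemma mean_const (d q : ℕ) (hq : 1 ≤ q) (c : ℝ) : mean d q (fun _ => c) = c := by
  unfold mean
  rw [sum_const, card_box, nsmul_eq_mul]
  have : (q : ℝ) ≠ 0 := by exact_mod_cast (by omega : q ≠ 0)
  push_cast
  field_simp

lemma mean_add {d q : ℕ} (F G : (Fin d → ℕ) → ℝ) : mean d q (fun n => F n + G n) = mean d q F + mean d q G := by
  unfold mean
  rw [sum_add_distrib]
  ring

lemma mean_mul {d q : ℕ} (c : ℝ) (F : (Fin d → ℕ) → ℝ) : mean d q (fun n => c * F n) = c * mean d q F := by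
  unfold mean
  rw [← mul_sum]
  ring

/-- the exponential moment -/
lemma exp_moment {d : ℕ} {ι : Type*} [DecidableEq ι] (I : Finset ι) (q : ι → ℕ) (hq : ∀ a ∈ I, 1 ≤ q a)
    (hcop : ∀ a ∈ I, ∀ a' ∈ I, a ≠ a' → Nat.Coprime (q a) (q a')) (F : ι → (Fin d → ℕ) → ℝ) (hF : ∀ a ∈ I, Per (q a) (F a))
    (hF1 : ∀ a ∈ I, ∀ n, |F a n| ≤ 1) (hF0 : ∀ a ∈ I, mean d (q a) (F a) = 0) (V : ℝ)
    (hV : ∑ a ∈ I, mean d (q a) (fun n => F a n ^ 2) ≤ V) (l : ℝ) (hl : |l| ≤ 1) :
    mean d (∏ a ∈ I, q a) (fun n => Real.exp (l * ∑ a ∈ I, F a n)) ≤ Real.exp (l ^ 2 * V) := by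
  classical
  have h1 : (fun n : Fin d → ℕ => Real.exp (l * ∑ a ∈ I, F a n)) = fun n => ∏ a ∈ I, Real.exp (l * F a n) := by
    funext n
    rw [mul_sum, Real.exp_sum]
  rw [h1, mean_prod I q hq hcop (fun a n => Real.exp (l * F a n)) (fun a ha n => by
    show Real.exp (l * F a n) = Real.exp (l * F a (fun i => n i % q a))
    rw [← hF a ha n])]
  have h2 : ∀ a ∈ I, mean d (q a) (fun n => Real.exp (l * F a n)) ≤ Real.exp (l ^ 2 * mean d (q a) (fun n => F a n ^ 2)) := by
    intro a ha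
    have h3 : ∀ n, Real.exp (l * F a n) ≤ (1 + l * F a n) + l ^ 2 * F a n ^ 2 := by
      intro n
      have h4 : |l * F a n| ≤ 1 := by
        rw [abs_mul]
        calc |l| * |F a n| ≤ 1 * 1 := mul_le_mul hl (hF1 a ha n) (abs_nonneg _) zero_le_one
          _ = 1 := one_mul 1
      have h5 := Real.abs_exp_sub_one_sub_id_le h4
      have h6 := (abs_le.1 h5).2
      nlinarith
    calc mean d (q a) (fun n => Real.exp (l * F a n)) ≤ mean d (q a) (fun n => (1 + l * F a n) + l ^ 2 * F a n ^ 2) := mean_mono h3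
      _ = 1 + l * mean d (q a) (F a) + l ^ 2 * mean d (q a) (fun n => F a n ^ 2) := by
          rw [mean_add (fun n => 1 + l * F a n) (fun n => l ^ 2 * F a n ^ 2), mean_add (fun _ => (1 : ℝ)) (fun n => l * F a n),
            mean_mul l (F a), mean_mul (l ^ 2) (fun n => F a n ^ 2), mean_const d (q a) (hq a ha)]
      _ = l ^ 2 * mean d (q a) (fun n => F a n ^ 2) + 1 := by rw [hF0 a ha]; ring
      _ ≤ _ := Real.add_one_le_exp _
  have h3 : ∀ a ∈ I, 0 ≤ mean d (q a) (fun n => Real.exp (l * F a n)) := by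
    intro a _
    unfold mean
    exact mul_nonneg (by positivity) (sum_nonneg fun n _ => (Real.exp_pos _).le)
  refine (prod_le_prod h3 h2).trans ?_
  rw [← Real.exp_sum, ← mul_sum]
  apply Real.exp_le_exp.2
  exact mul_le_mul_of_nonneg_left hV (by positivity)

/-- the moments -/
lemma momentd {d : ℕ} {ι : Type*} [DecidableEq ι] (I : Finset ι) (q : ι → ℕ) (hq : ∀ a ∈ I, 1 ≤ q a)
    (hcop : ∀ a ∈ I, ∀ a' ∈ I, a ≠ a' → Nat.Coprime (q a) (q a')) (F : ι → (Fin d → ℕ) → ℝ) (hF : ∀ a ∈ I, Per (q a) (F a))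
    (hF1 : ∀ a ∈ I, ∀ n, |F a n| ≤ 1) (hF0 : ∀ a ∈ I, mean d (q a) (F a) = 0) (V : ℝ) (hV1 : 1 ≤ V)
    (hV : ∑ a ∈ I, mean d (q a) (fun n => F a n ^ 2) ≤ V) (j : ℕ) :
    mean d (∏ a ∈ I, q a) (fun n => (∑ a ∈ I, F a n) ^ (2 * j)) ≤ 6 * (2 * j).factorial * V ^ j := by
  obtain ⟨l, hl⟩ : ∃ l : ℝ, l = 1 / Real.sqrt V := ⟨_, rfl⟩
  have hs1 : 1 ≤ Real.sqrt V := by rw [Real.one_le_sqrt]; exact hV1
  have hs0 : 0 < Real.sqrt V := by linarith
  have hl0 : 0 < l := by rw [hl]; positivity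
  have hl1 : l ≤ 1 := by rw [hl, div_le_one hs0]; exact hs1
  have hlV : l ^ 2 * V = 1 := by
    rw [hl, div_pow, one_pow, Real.sq_sqrt (by linarith)]
    field_simp
  have h1 := exp_moment I q hq hcop F hF hF1 hF0 V hV l (by rw [abs_of_pos hl0]; exact hl1)
  have h2 := exp_moment I q hq hcop F hF hF1 hF0 V hV (-l) (by rw [abs_neg, abs_of_pos hl0]; exact hl1)
  rw [hlV] at h1
  rw [neg_sq, hlV] at h2
  have hf0 : (0 : ℝ) < (2 * j).factorial := by exact_mod_cast Nat.factorial_pos _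
  have h3 : ∀ n, (∑ a ∈ I, F a n) ^ (2 * j) ≤ ((2 * j).factorial * V ^ j) *
      (Real.exp (l * ∑ a ∈ I, F a n) + Real.exp (-l * ∑ a ∈ I, F a n)) := by
    intro n
    obtain ⟨u, hu⟩ : ∃ u, u = ∑ a ∈ I, F a n := ⟨_, rfl⟩
    rw [← hu]
    have h4 := Real.pow_div_factorial_le_exp (x := |l * u|) (abs_nonneg _) (2 * j)
    have h5 : Real.exp |l * u| ≤ Real.exp (l * u) + Real.exp (-l * u) := by
      rcases abs_choice (l * u) with h | h
      · rw [h]
        have := Real.exp_pos (-l * u)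
        linarith
      · rw [h, neg_mul]
        have := Real.exp_pos (l * u)
        linarith
    have h6 : |l * u| ^ (2 * j) = u ^ (2 * j) / V ^ j := by
      rw [(even_two_mul j).pow_abs, mul_pow, hl, div_pow, one_pow, pow_mul (Real.sqrt V), Real.sq_sqrt (by linarith)]
      ring
    rw [h6] at h4
    have h7 : u ^ (2 * j) / V ^ j / (2 * j).factorial ≤ Real.exp (l * u) + Real.exp (-l * u) := h4.trans h5
    rw [div_div, div_le_iff₀ (by positivity)] at h7
    linarith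
  refine (mean_mono h3).trans ?_
  rw [mean_mul, mean_add]
  have he : Real.exp 1 ≤ 3 := by have := Real.exp_one_lt_d9; linarith
  have hV0 : 0 < V ^ j := by positivity
  calc ((2 * j).factorial * V ^ j) * (mean d (∏ a ∈ I, q a) (fun n => Real.exp (l * ∑ a ∈ I, F a n)) +
        mean d (∏ a ∈ I, q a) (fun n => Real.exp (-l * ∑ a ∈ I, F a n))) ≤ ((2 * j).factorial * V ^ j) * (3 + 3) := by
        apply mul_le_mul_of_nonneg_left _ (by positivity)
        linarith
    _ = _ := by ring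

end Pool.Agent.TH894.NE
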