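import Pool.Agent.TH894.NE2
import Pool.Agent.TH894.ND6

set_option autoImplicit false

/-! Local conditions modulo coprime moduli at vectors of numbers obtained by few changes of digits. -/

namespace Pool.Agent.TH894.NE
open Finset Filter
open Pool.Agent.TH894.ND
open Pool.Agent.TH894.SM (change change_eq)

/-- the exponential sums over the few-digit changes at the good frequencies -/
lemma good_sum (b s E : ℕ) (hb : 2 ≤ b) (hs : 1 ≤ s) (hE : 1 ≤ E) (d₀ c₁ : ℝ)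
    (hd₀ : d₀ = 1 / (((b * b).factorial : ℝ) * ((b ^ (2 * s) : ℕ) : ℝ)) ^ 2) (hc₁ : c₁ = d₀ / (16 * s * E))
    (r K : ℕ) (hr : 1 ≤ r) (hrK : 2 * r ≤ K) (hrs : 8 * s ≤ r) (hexp : 4 * (r : ℝ) + 2 ≤ Real.exp (c₁ / 2 * r))
    (N : ℕ) (hN : N < b ^ K) (f : ℕ → ℕ) (hf : ∀ j, f j < b ∧ f j ≠ N / b ^ j % b) (Q : ℕ) (hQ : 1 ≤ Q) (k : ℕ)
    (hk : K / (2 * s) ≤ 4 * (E * (Ig (b * b).factorial (b ^ (2 * s)) Q (K / (2 * s)) k).card)) :
    ‖∑ S ∈ powersetCard r (range K), ee ((k : ℝ) * (change b K N f S : ℕ) / Q)‖ ≤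
      Real.exp (-(c₁ / 2 * r)) * ((powersetCard r (range K)).card : ℝ) := by
  classical
  have hsr : (1 : ℝ) ≤ s := by exact_mod_cast hs
  have hEr : (1 : ℝ) ≤ E := by exact_mod_cast hE
  have hd0 : 0 < d₀ := by
    rw [hd₀]
    have h1 : (0 : ℝ) < ((b * b).factorial : ℝ) := by exact_mod_cast Nat.factorial_pos _
    have h2 : (0 : ℝ) < ((b ^ (2 * s) : ℕ) : ℝ) := by exact_mod_cast Nat.pow_pos (by omega)
    positivity
  obtain ⟨T, hT⟩ : ∃ T, T = K / (2 * s) := ⟨_, rfl⟩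
  rw [← hT] at hk
  have hTK : 2 * s * T ≤ K := by rw [hT]; exact Nat.mul_div_le K (2 * s)
  have hKr : (2 : ℝ) * r ≤ K := by exact_mod_cast hrK
  have hrpos : (1 : ℝ) ≤ r := by exact_mod_cast hr
  have hK0 : (0 : ℝ) < K := by linarith
  have hrs' : (8 : ℝ) * s ≤ r := by exact_mod_cast hrs
  have hTr : (K : ℝ) ≤ 4 * s * T := by
    have h1 : K < 2 * s * (K / (2 * s) + 1) := Nat.lt_mul_div_succ K (by omega)
    rw [← hT] at h1
    have h2 : (K : ℝ) < 2 * s * (T + 1) := by exact_mod_cast h1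
    nlinarith
  obtain ⟨cd, hcd⟩ : ∃ cd : ℕ → ℤ, cd = fun j => (f j : ℤ) - ((N / b ^ j % b : ℕ) : ℤ) := ⟨_, rfl⟩
  have hcdb : ∀ j, cd j ≠ 0 ∧ (cd j).natAbs < b := by
    intro i
    obtain ⟨h1, h2⟩ := hf i
    have h3 : N / b ^ i % b < b := Nat.mod_lt _ (by omega)
    rw [hcd]
    show (f i : ℤ) - ((N / b ^ i % b : ℕ) : ℤ) ≠ 0 ∧ ((f i : ℤ) - ((N / b ^ i % b : ℕ) : ℤ)).natAbs < b
    constructor
    · omega
    · omega
  have hexpS : ‖∑ S ∈ powersetCard r (range K), ee ((k : ℝ) * (change b K N f S : ℕ) / Q)‖ =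
      ‖∑ S ∈ powersetCard r (range K), ∏ i ∈ S, ee ((k : ℝ) * (cd i : ℝ) * (b : ℝ) ^ i / Q)‖ := by
    have h1 : ∀ S ∈ powersetCard r (range K), ee ((k : ℝ) * (change b K N f S : ℕ) / Q) =
        ee ((k : ℝ) * N / Q) * ∏ i ∈ S, ee ((k : ℝ) * (cd i : ℝ) * (b : ℝ) ^ i / Q) := by
      intro S hS
      rw [mem_powersetCard] at hS
      have h2 := change_eq b K N hN f S hS.1
      have h3 : ((change b K N f S : ℕ) : ℝ) = N + ∑ i ∈ S, (cd i : ℝ) * (b : ℝ) ^ i := by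
        have h4 : (((change b K N f S : ℕ) : ℤ) : ℝ) = ((N + ∑ i ∈ S, Pool.Agent.TH894.SM.dl b (Pool.Agent.TH894.SM.ed b N f) i : ℤ) : ℝ) := by
          rw [h2]
        push_cast at h4
        rw [h4]
        congr 1
        refine sum_congr rfl fun i _ => ?_
        unfold Pool.Agent.TH894.SM.dl Pool.Agent.TH894.SM.ed
        rw [hcd]
        push_cast
        ring
      rw [h3, ← ee_sum, ← ee_add]
      congr 1
      rw [mul_add, add_div, mul_sum, sum_div]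
      congr 1
      exact sum_congr rfl fun i _ => by ring
    rw [sum_congr rfl h1, ← mul_sum, norm_mul, ee_norm, one_mul]
  obtain ⟨C, hC⟩ : ∃ C : ℝ, C = (K.choose r : ℝ) := ⟨_, rfl⟩
  have hC0 : 0 ≤ C := by rw [hC]; exact Nat.cast_nonneg _
  rw [hexpS, card_powersetCard, card_range, ← hC]
  refine (exp_bound b s K r Q T E k hb hs hr hrK hQ hE hTK cd hcdb hk).trans ?_
  rw [← hd₀, ← hC]
  have h1 : c₁ * r ≤ d₀ * (r * T / (4 * (E * K))) := by
    rw [hc₁]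
    have h2 : d₀ / (16 * s * E) * r = d₀ * (r / (16 * s * E)) := by ring
    rw [h2]
    apply mul_le_mul_of_nonneg_left _ hd0.le
    rw [div_le_div_iff₀ (by positivity) (by positivity)]
    have h3 : (r : ℝ) * (4 * E) * K ≤ r * (4 * E) * (4 * s * T) := mul_le_mul_of_nonneg_left hTr (by positivity)
    nlinarith
  calc (4 * (r : ℝ) + 2) * C * Real.exp (-(d₀ * (r * T / (4 * (E * K))))) ≤
        Real.exp (c₁ / 2 * r) * C * Real.exp (-(c₁ * r)) := by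
        apply mul_le_mul _ (Real.exp_le_exp.2 (by linarith)) (Real.exp_pos _).le (by positivity)
        exact mul_le_mul_of_nonneg_right hexp hC0
    _ = (Real.exp (c₁ / 2 * r) * Real.exp (-(c₁ * r))) * C := by ring
    _ = Real.exp (-(c₁ / 2 * r)) * C := by
        rw [← Real.exp_add]
        congr 2
        ring

/-- **Local conditions modulo coprime moduli at vectors of numbers obtained by few changes of digits.** -/
theorem engine2 (b d : ℕ) (hb : 2 ≤ b) (hd : 1 ≤ d) (δ A : ℝ) (hδ : 0 < δ) : ∃ c : ℝ, 0 < c ∧ ∃ x₀ : ℕ,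
    ∀ (r K : Fin d → ℕ) (x : ℕ), (∀ i, 2 * r i ≤ K i) → x₀ ≤ x → (∀ i, Real.log x ≤ c * r i) →
    ∀ N : Fin d → ℕ, (∀ i, N i < b ^ K i) → ∀ f : Fin d → ℕ → ℕ, (∀ i j, f i j < b ∧ f i j ≠ N i / b ^ j % b) →
    ∀ {ι : Type} (I : Finset ι) (q : ι → ℕ), (∀ a ∈ I, 1 ≤ q a ∧ q a ≤ x ∧ Nat.Coprime (q a) (b * b).factorial) →
    (∀ a ∈ I, ∀ a' ∈ I, a ≠ a' → Nat.Coprime (q a) (q a')) → ∀ F : ι → (Fin d → ℕ) → ℝ,
    (∀ a ∈ I, Per (q a) (F a) ∧ (∀ n, |F a n| ≤ 1) ∧ mean d (q a) (F a) = 0) →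
    ∀ V : ℝ, 1 ≤ V → ∑ a ∈ I, mean d (q a) (fun n => F a n ^ 2) ≤ V →
    ∀ Ex ⊆ Fintype.piFinset (fun i => powersetCard (r i) (range (K i))),
    (∀ S ∈ Ex, Real.sqrt V * (x : ℝ) ^ δ < |∑ a ∈ I, F a (fun i => change b (K i) (N i) (f i) (S i))|) →
    (Ex.card : ℝ) ≤ (x : ℝ) ^ (-A) * ∏ i, ((K i).choose (r i) : ℝ) := by
  classical
  obtain ⟨j, hj⟩ : ∃ j, j = ⌈(|A| + 1) / δ⌉₊ + 1 := ⟨_, rfl⟩
  have hj1 : 1 ≤ j := by omega
  have hjr : (1 : ℝ) ≤ j := by exact_mod_cast hj1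
  have hjA : |A| + 1 ≤ δ * j := by
    have h1 : (|A| + 1) / δ ≤ j := by
      rw [hj]
      push_cast
      have := Nat.le_ceil ((|A| + 1) / δ)
      linarith
    rw [div_le_iff₀ hδ] at h1
    linarith
  have hdr : (1 : ℝ) ≤ d := by exact_mod_cast hd
  obtain ⟨s, E, hs, hE, x₁, hx₁⟩ := par_bad b j hb hj1 (δ / d) (by positivity)
  obtain ⟨Z, hZ⟩ : ∃ Z, Z = b ^ (2 * s) := ⟨_, rfl⟩
  obtain ⟨L, hL⟩ : ∃ L, L = (b * b).factorial := ⟨_, rfl⟩
  have hsr : (1 : ℝ) ≤ s := by exact_mod_cast hs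
  have hEr : (1 : ℝ) ≤ E := by exact_mod_cast hE
  obtain ⟨d₀, hd₀⟩ : ∃ d₀ : ℝ, d₀ = 1 / (((b * b).factorial : ℝ) * ((b ^ (2 * s) : ℕ) : ℝ)) ^ 2 := ⟨_, rfl⟩
  have hd₀0 : 0 < d₀ := by
    rw [hd₀]
    have h1 : (0 : ℝ) < ((b * b).factorial : ℝ) := by exact_mod_cast Nat.factorial_pos _
    have h2 : (0 : ℝ) < ((b ^ (2 * s) : ℕ) : ℝ) := by exact_mod_cast Nat.pow_pos (by omega)
    positivity
  obtain ⟨c₁, hc₁⟩ : ∃ c₁ : ℝ, c₁ = d₀ / (16 * s * E) := ⟨_, rfl⟩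
  have hc₁0 : 0 < c₁ := by rw [hc₁]; positivity
  obtain ⟨c, hc⟩ : ∃ c : ℝ, c = min (c₁ / (16 * j * d)) (1 / (16 * s * j)) := ⟨_, rfl⟩
  have hc0 : 0 < c := by rw [hc]; exact lt_min (by positivity) (by positivity)
  have hcc1 : c ≤ c₁ / (16 * j * d) := by rw [hc]; exact min_le_left _ _
  have hcc2 : c ≤ 1 / (16 * s * j) := by rw [hc]; exact min_le_right _ _
  have hev : ∀ᶠ r : ℕ in atTop, (4 * (r : ℝ) + 2) ≤ Real.exp (c₁ / 2 * r) := by
    have h1 : Tendsto (fun y : ℝ => Real.exp (c₁ / 2 * y) / y ^ 1) atTop atTop :=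
      tendsto_exp_mul_div_rpow_atTop 1 (c₁ / 2) (by positivity) |>.congr' (by
        filter_upwards [eventually_gt_atTop 0] with y hy
        rw [Real.rpow_one, pow_one])
    have h2 := (h1.comp tendsto_natCast_atTop_atTop).eventually (eventually_ge_atTop (6 : ℝ))
    filter_upwards [h2, eventually_ge_atTop 1] with r hr hr1
    have h3 : (1 : ℝ) ≤ r := by exact_mod_cast hr1
    simp only [Function.comp_apply, pow_one] at hr
    rw [le_div_iff₀ (by linarith)] at hr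
    linarith
  obtain ⟨r₀, hr₀⟩ := eventually_atTop.1 hev
  obtain ⟨r₁, hr₁⟩ : ∃ r₁, r₁ = r₀ + 8 * s + 8 := ⟨_, rfl⟩
  obtain ⟨x₂, hx₂⟩ := exists_nat_ge (Real.exp (c * r₁))
  obtain ⟨x₃, hx₃⟩ := exists_nat_ge (12 * ((2 * j).factorial : ℝ))
  refine ⟨c, hc0, x₁ + x₂ + x₃ + 2, fun r K x hrK hx hxr N hN f hf ι I q hq hcop F hF V hV1 hV Ex hEx hExb => ?_⟩
  have hx2r : (2 : ℝ) ≤ x := by exact_mod_cast (by omega : 2 ≤ x)
  have hx0 : (0 : ℝ) < x := by linarith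
  have hx1' : (1 : ℝ) ≤ x := by linarith
  obtain ⟨n, hn1, hn2, hn3, hn4⟩ := hx₁ x (by omega)
  rw [← hZ] at hn3 hn4
  -- the numbers r i
  have hrn : ∀ i, r₁ ≤ r i := by
    intro i
    have h1 : Real.exp (c * r₁) ≤ x := by
      refine hx₂.trans ?_
      exact_mod_cast (by omega : x₂ ≤ x)
    have h2 : c * r₁ ≤ Real.log x := by
      rw [Real.le_log_iff_exp_le hx0]
      exact h1
    have h3 : c * r₁ ≤ c * r i := h2.trans (hxr i)
    exact_mod_cast le_of_mul_le_mul_left h3 hc0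
  have hT : ∀ i, n ≤ K i / (2 * s) := by
    intro i
    have hrr : (r₁ : ℝ) ≤ r i := by exact_mod_cast hrn i
    have hKr : (2 : ℝ) * r i ≤ K i := by exact_mod_cast hrK i
    have hTr : (K i : ℝ) ≤ 4 * s * (K i / (2 * s) : ℕ) := by
      have h1 : K i < 2 * s * (K i / (2 * s) + 1) := Nat.lt_mul_div_succ (K i) (by omega)
      have h2 : (K i : ℝ) < 2 * s * ((K i / (2 * s) : ℕ) + 1) := by exact_mod_cast h1
      have h3 : (r₁ : ℝ) = r₀ + 8 * s + 8 := by rw [hr₁]; push_cast; ring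
      have h4 : (0 : ℝ) ≤ r₀ := Nat.cast_nonneg _
      nlinarith
    have h1 : 4 * (j : ℝ) * Real.log x ≤ r i / (4 * s) := by
      calc 4 * (j : ℝ) * Real.log x ≤ 4 * j * (c * r i) := mul_le_mul_of_nonneg_left (hxr i) (by positivity)
        _ ≤ 4 * j * ((1 / (16 * s * j)) * r i) := by gcongr
        _ = r i / (4 * s) := by field_simp; ring
    have h2 : (r i : ℝ) / (2 * s) ≤ (K i / (2 * s) : ℕ) := by
      rw [div_le_iff₀ (by positivity)]
      nlinarith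
    have h3 : (r₁ : ℝ) = r₀ + 8 * s + 8 := by rw [hr₁]; push_cast; ring
    have h4 : (0 : ℝ) ≤ r₀ := Nat.cast_nonneg _
    have h5 : (2 : ℝ) ≤ r i / (4 * s) := by
      rw [le_div_iff₀ (by positivity)]
      linarith
    have h6 : (r i : ℝ) / (2 * s) = r i / (4 * s) + r i / (4 * s) := by
      field_simp
      ring
    have h7 : (n : ℝ) ≤ (K i / (2 * s) : ℕ) := by linarith
    exact_mod_cast h7
  obtain ⟨Q, hQ⟩ : ∃ Q, Q = ∏ a ∈ I, q a := ⟨_, rfl⟩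
  have hQ1 : 1 ≤ Q := by
    rw [hQ]
    exact Nat.one_le_iff_ne_zero.2 (prod_ne_zero_iff.2 fun a ha => by have := (hq a ha).1; omega)
  have hLQ : Nat.Coprime L Q := by
    rw [hQ, hL]
    apply Nat.Coprime.prod_right
    intro a ha
    exact (hq a ha).2.2.symm
  have hbQ : Nat.Coprime b Q := by
    apply Nat.Coprime.coprime_dvd_left _ hLQ
    rw [hL]
    exact Nat.dvd_factorial (by omega) (by nlinarith)
  have hZQ : Nat.Coprime Z Q := by rw [hZ]; exact hbQ.pow_left _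
  obtain ⟨D, hD⟩ : ∃ D, D = x ^ (2 * j) := ⟨_, rfl⟩
  rw [← hD] at hn3
  obtain ⟨Bs, hBs⟩ : ∃ Bs : Fin d → Finset ℕ, Bs = fun i => (Fr Q D).filter (fun k => 4 * (E * (Ig L Z Q (K i / (2 * s)) k).card) < K i / (2 * s)) := ⟨_, rfl⟩
  have hZ2 : 2 ≤ Z := by
    rw [hZ]
    calc 2 ≤ b := hb
      _ = b ^ 1 := (pow_one b).symm
      _ ≤ b ^ (2 * s) := Nat.pow_le_pow_right (by omega) (by omega)
  have hBc : ∀ i, ((Bs i).card : ℝ) ≤ (x : ℝ) ^ (δ / d) := by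
    intro i
    rw [hBs]
    exact (bad_count L Z E n Q D (K i / (2 * s)) hZ2 hE hQ1 hn1 (hT i) hn3 hLQ hZQ).trans hn4
  obtain ⟨ε, hε⟩ : ∃ ε : ℝ, ε = (x : ℝ) ^ (-(4 * (j : ℝ) * d)) := ⟨_, rfl⟩
  have hε0 : 0 ≤ ε := by rw [hε]; positivity
  have hε1 : ε ≤ 1 := by
    rw [hε]
    apply Real.rpow_le_one_of_one_le_of_nonpos hx1'
    have : 0 ≤ 4 * (j : ℝ) * d := by positivity
    linarith
  have hgood : ∀ i, ∀ k ∈ Fr Q D, k ∉ Bs i → ‖∑ S ∈ powersetCard (r i) (range (K i)), ee ((k : ℝ) * (change b (K i) (N i) (f i) S : ℕ) / Q)‖ ≤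
      ε * ((powersetCard (r i) (range (K i))).card : ℝ) := by
    intro i k hk hkB
    have hrr : r₁ ≤ r i := hrn i
    have hk2 : K i / (2 * s) ≤ 4 * (E * (Ig (b * b).factorial (b ^ (2 * s)) Q (K i / (2 * s)) k).card) := by
      rw [← hL, ← hZ]
      by_contra hcon
      push Not at hcon
      apply hkB
      rw [hBs, mem_filter]
      exact ⟨hk, hcon⟩
    refine (good_sum b s E hb hs hE d₀ c₁ hd₀ hc₁ (r i) (K i) (by omega) (hrK i) (by omega) (hr₀ (r i) (by omega)) (N i) (hN i) (f i) (hf i)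
      Q hQ1 k hk2).trans ?_
    apply mul_le_mul_of_nonneg_right _ (Nat.cast_nonneg _)
    rw [hε, Real.rpow_def_of_pos hx0]
    apply Real.exp_le_exp.2
    have h1 : 4 * (j : ℝ) * d * Real.log x ≤ c₁ / 2 * r i := by
      calc 4 * (j : ℝ) * d * Real.log x ≤ 4 * j * d * (c * r i) := mul_le_mul_of_nonneg_left (hxr i) (by positivity)
        _ ≤ 4 * j * d * ((c₁ / (16 * j * d)) * r i) := by gcongr
        _ = c₁ / 4 * r i := by field_simp; ring
        _ ≤ c₁ / 2 * r i := by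
            apply mul_le_mul_of_nonneg_right _ (Nat.cast_nonneg _)
            linarith
    linarith
  -- the moment
  obtain ⟨H, hH⟩ : ∃ H : (Fin d → ℕ) → ℝ, H = fun n => (∑ a ∈ I, F a n) ^ (2 * j) := ⟨_, rfl⟩
  have hHQ : Per Q H := by
    intro m
    rw [hH]
    show (∑ a ∈ I, F a m) ^ (2 * j) = (∑ a ∈ I, F a (fun i => m i % Q)) ^ (2 * j)
    congr 1
    refine sum_congr rfl fun a ha => ?_
    exact ((hF a ha).1.of_dvd (by rw [hQ]; exact dvd_prod_of_mem q ha)) m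
  have hH0 : ∀ n, 0 ≤ H n := by
    intro m
    rw [hH]
    exact (even_two_mul j).pow_nonneg _
  have havg := avgd_le (fun i => powersetCard (r i) (range (K i))) (fun i S => change b (K i) (N i) (f i) S) Q hQ1 H hHQ hH0 (Fr Q D) Bs
    (by
      intro k hk hkF
      obtain ⟨i₀, hi₀⟩ := hkF
      rw [hH]
      rw [hD] at hi₀
      exact cfd_zero I q F Q (2 * j) x hQ1 (fun a ha => ⟨(hq a ha).1, (hq a ha).2.1,
        by rw [hQ]; exact dvd_prod_of_mem q ha⟩) (fun a ha => (hF a ha).1) k hk i₀ hi₀)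
    ε hε0 hε1 hgood ((x : ℝ) ^ (δ / d)) hBc
  have hmom := momentd I q (fun a ha => (hq a ha).1) hcop F (fun a ha => (hF a ha).1) (fun a ha => (hF a ha).2.1)
    (fun a ha => (hF a ha).2.2) V hV1 hV j
  rw [← hQ] at hmom
  obtain ⟨C, hC⟩ : ∃ C : ℝ, C = ∏ i, ((K i).choose (r i) : ℝ) := ⟨_, rfl⟩
  have hC0 : 0 ≤ C := by rw [hC]; exact prod_nonneg fun i _ => Nat.cast_nonneg _
  have hcard : ∏ i, (((powersetCard (r i) (range (K i))).card : ℕ) : ℝ) = C := by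
    rw [hC]
    exact prod_congr rfl fun i _ => by rw [card_powersetCard, card_range]
  rw [hcard] at havg
  rw [← hC]
  have hBd : ((x : ℝ) ^ (δ / d)) ^ d = (x : ℝ) ^ δ := by
    rw [← Real.rpow_natCast, ← Real.rpow_mul hx0.le]
    congr 1
    field_simp
  have hFrd : ((Fr Q D).card : ℝ) ^ d * ε ≤ 1 := by
    have h2 : ((Fr Q D).card : ℝ) ≤ ((D * D : ℕ) : ℝ) := by exact_mod_cast Fr_card Q D hQ1
    have h3 : ((D * D : ℕ) : ℝ) = (x : ℝ) ^ (4 * (j : ℝ)) := by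
      rw [hD]
      push_cast
      rw [← pow_add, ← Real.rpow_natCast]
      congr 1
      push_cast
      ring
    rw [h3] at h2
    calc ((Fr Q D).card : ℝ) ^ d * ε ≤ ((x : ℝ) ^ (4 * (j : ℝ))) ^ d * ε := by gcongr
      _ = 1 := by
          rw [hε, ← Real.rpow_natCast ((x : ℝ) ^ (4 * (j : ℝ))), ← Real.rpow_mul hx0.le, ← Real.rpow_add hx0]
          have : 4 * (j : ℝ) * d + -(4 * (j : ℝ) * d) = 0 := by ring
          rw [this, Real.rpow_zero]
  have hxδ1 : (1 : ℝ) ≤ (x : ℝ) ^ δ := Real.one_le_rpow hx1' hδ.le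
  have hHsum : 1 / (Q : ℝ) ^ d * ∑ n ∈ box d Q, H n ≤ 6 * (2 * j).factorial * V ^ j := by
    have : 1 / (Q : ℝ) ^ d * ∑ n ∈ box d Q, H n = mean d Q (fun n => (∑ a ∈ I, F a n) ^ (2 * j)) := by
      rw [hH]
      rfl
    rw [this]
    exact hmom
  have hVj : 0 < V ^ j := by positivity
  have hfac : (0 : ℝ) < (2 * j).factorial := by exact_mod_cast Nat.factorial_pos _
  have htot : ∑ S ∈ Fintype.piFinset (fun i => powersetCard (r i) (range (K i))), H (fun i => change b (K i) (N i) (f i) (S i)) ≤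
      (6 * (2 * j).factorial * V ^ j) * (2 * (x : ℝ) ^ δ * C) := by
    refine havg.trans ?_
    apply mul_le_mul hHsum _ (by positivity) (by positivity)
    apply mul_le_mul_of_nonneg_right _ hC0
    rw [hBd]
    linarith
  have hcheb : (Ex.card : ℝ) * (V ^ j * ((x : ℝ) ^ δ) ^ (2 * j)) ≤
      ∑ S ∈ Fintype.piFinset (fun i => powersetCard (r i) (range (K i))), H (fun i => change b (K i) (N i) (f i) (S i)) := by
    calc (Ex.card : ℝ) * (V ^ j * ((x : ℝ) ^ δ) ^ (2 * j)) =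
          ∑ _S ∈ Ex, (V ^ j * ((x : ℝ) ^ δ) ^ (2 * j)) := by rw [sum_const, nsmul_eq_mul]
      _ ≤ ∑ S ∈ Ex, H (fun i => change b (K i) (N i) (f i) (S i)) := by
          refine sum_le_sum fun S hS => ?_
          rw [hH]
          show _ ≤ (∑ a ∈ I, F a (fun i => change b (K i) (N i) (f i) (S i))) ^ (2 * j)
          have h1 : V ^ j = (Real.sqrt V) ^ (2 * j) := by
            rw [pow_mul, Real.sq_sqrt (by linarith)]
          rw [h1, ← mul_pow, ← (even_two_mul j).pow_abs (∑ a ∈ I, F a (fun i => change b (K i) (N i) (f i) (S i)))]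
          exact pow_le_pow_left₀ (by positivity) (hExb S hS).le _
      _ ≤ _ := by
          apply sum_le_sum_of_subset_of_nonneg hEx
          intro S _ _
          exact hH0 _
  have h5 := hcheb.trans htot
  have h6 : (Ex.card : ℝ) * ((x : ℝ) ^ δ) ^ (2 * j) ≤ (6 * (2 * j).factorial) * (2 * (x : ℝ) ^ δ * C) := by
    have : ((Ex.card : ℝ) * ((x : ℝ) ^ δ) ^ (2 * j)) * V ^ j ≤ ((6 * (2 * j).factorial) * (2 * (x : ℝ) ^ δ * C)) * V ^ j := by linarith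
    exact le_of_mul_le_mul_right this hVj
  have h7 : 12 * ((2 * j).factorial : ℝ) * (x : ℝ) ^ δ * (x : ℝ) ^ A ≤ ((x : ℝ) ^ δ) ^ (2 * j) := by
    have e1 : 12 * ((2 * j).factorial : ℝ) ≤ x := by
      refine hx₃.trans ?_
      exact_mod_cast (by omega : x₃ ≤ x)
    calc 12 * ((2 * j).factorial : ℝ) * (x : ℝ) ^ δ * (x : ℝ) ^ A ≤ x * (x : ℝ) ^ δ * (x : ℝ) ^ A := by gcongr
      _ = (x : ℝ) ^ (1 + δ + A) := by
          rw [Real.rpow_add hx0, Real.rpow_add hx0, Real.rpow_one]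
      _ ≤ (x : ℝ) ^ (δ * (2 * j : ℕ)) := by
          apply Real.rpow_le_rpow_of_exponent_le hx1'
          have e2 := le_abs_self A
          push_cast
          nlinarith
      _ = ((x : ℝ) ^ δ) ^ (2 * j) := by rw [Real.rpow_mul hx0.le, Real.rpow_natCast]
  have hxA : 0 < (x : ℝ) ^ A := by positivity
  have hxd : 0 < (x : ℝ) ^ δ := by positivity
  rw [Real.rpow_neg hx0.le]
  have h8 : (Ex.card : ℝ) * (12 * ((2 * j).factorial : ℝ) * (x : ℝ) ^ δ * (x : ℝ) ^ A) ≤ (12 * ((2 * j).factorial : ℝ) * (x : ℝ) ^ δ) * C := by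
    refine (mul_le_mul_of_nonneg_left h7 (Nat.cast_nonneg _)).trans (h6.trans (le_of_eq (by ring)))
  have h9 : (Ex.card : ℝ) * (x : ℝ) ^ A ≤ C := by
    have e1 : 0 < 12 * ((2 * j).factorial : ℝ) * (x : ℝ) ^ δ := by positivity
    have e2 : (12 * ((2 * j).factorial : ℝ) * (x : ℝ) ^ δ) * ((Ex.card : ℝ) * (x : ℝ) ^ A) ≤ (12 * ((2 * j).factorial : ℝ) * (x : ℝ) ^ δ) * C := by
      linarith
    exact le_of_mul_le_mul_left e2 e1
  rw [inv_mul_eq_div, le_div_iff₀ hxA]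
  exact h9

end Pool.Agent.TH894.NE
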