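import Pool.Agent.TH894.NE3

set_option autoImplicit false

/-! Arbitrary local conditions, uniformly in the length and in many parameters. -/

namespace Pool.Agent.TH894.NE
open Finset Filter
open Pool.Agent.TH894.ND
open Pool.Agent.TH894.SM (change change_eq)

open Classical in
/-- the proportion of the vectors of residues with a property -/
noncomputable def Pr (d q : ℕ) (T : (Fin d → ℕ) → Prop) : ℝ := (((box d q).filter T).card : ℝ) / (q : ℝ) ^ d

lemma Pr_nonneg (d q : ℕ) (T : (Fin d → ℕ) → Prop) : 0 ≤ Pr d q T := by unfold Pr; positivity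

lemma Pr_le_one (d q : ℕ) (T : (Fin d → ℕ) → Prop) : Pr d q T ≤ 1 := by
  classical
  unfold Pr
  apply div_le_one_of_le₀ _ (by positivity)
  have := card_filter_le (box d q) T
  rw [card_box] at this
  exact_mod_cast this

open Classical in
theorem local_law2 (b d : ℕ) (hb : 2 ≤ b) (hd : 1 ≤ d) (δ A : ℝ) (hδ : 0 < δ) : ∃ c : ℝ, 0 < c ∧ ∃ x₀ : ℕ,
    ∀ (r K : Fin d → ℕ) (x : ℕ), (∀ i, 2 * r i ≤ K i) → x₀ ≤ x → (∀ i, Real.log x ≤ c * r i) →
    ∀ N : Fin d → ℕ, (∀ i, N i < b ^ K i) → ∀ f : Fin d → ℕ → ℕ, (∀ i j, f i j < b ∧ f i j ≠ N i / b ^ j % b) →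
    ∀ {ι : Type} (I : Finset ι) (q : ι → ℕ), (∀ a ∈ I, 1 ≤ q a ∧ q a ≤ x) →
    (∀ a ∈ I, ∀ a' ∈ I, a ≠ a' → Nat.Coprime (q a) (q a')) → ∀ T : ι → (Fin d → ℕ) → Prop,
    (∀ a ∈ I, ∀ n, T a n ↔ T a (fun i => n i % q a)) →
    ∀ Ex ⊆ Fintype.piFinset (fun i => powersetCard (r i) (range (K i))),
    (∀ S ∈ Ex, Real.sqrt (max 1 (∑ a ∈ I, Pr d (q a) (T a))) * (x : ℝ) ^ δ <
      |((I.filter (fun a => T a (fun i => change b (K i) (N i) (f i) (S i)))).card : ℝ) - ∑ a ∈ I, Pr d (q a) (T a)|) →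
    (Ex.card : ℝ) ≤ (x : ℝ) ^ (-A) * ∏ i, ((K i).choose (r i) : ℝ) := by
  obtain ⟨c, hc, x₀, h⟩ := engine2 b d hb hd (δ / 2) A (by positivity)
  have hev : ∀ᶠ x : ℕ in atTop, ((b : ℝ) * b + 1) + 1 ≤ (x : ℝ) ^ (δ / 2) := by
    have h1 : Tendsto (fun x : ℝ => x ^ (δ / 2)) atTop atTop := tendsto_rpow_atTop (by positivity)
    exact (h1.comp tendsto_natCast_atTop_atTop).eventually (eventually_ge_atTop _)
  obtain ⟨x₁, hx₁⟩ := eventually_atTop.1 hev
  refine ⟨c, hc, x₀ + x₁ + 1, fun r K x hrK hx hxr N hN f hf ι I q hq hcop T hT Ex hEx hExb => ?_⟩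
  have hx1 := hx₁ x (by omega)
  have hxr1 : (1 : ℝ) ≤ x := by exact_mod_cast (by omega : 1 ≤ x)
  have hx0 : (0 : ℝ) < x := by linarith
  obtain ⟨F, hF⟩ : ∃ F : ι → (Fin d → ℕ) → ℝ, F = fun a n => (if T a n then (1 : ℝ) else 0) - Pr d (q a) (T a) := ⟨_, rfl⟩
  obtain ⟨I', hI'⟩ : ∃ I', I' = I.filter (fun a => Nat.Coprime (q a) (b * b).factorial) := ⟨_, rfl⟩
  obtain ⟨V, hV⟩ : ∃ V, V = max 1 (∑ a ∈ I, Pr d (q a) (T a)) := ⟨_, rfl⟩
  have hFb : ∀ a n, |F a n| ≤ 1 := by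
    intro a n
    rw [hF]
    have h1 := Pr_nonneg d (q a) (T a)
    have h2 := Pr_le_one d (q a) (T a)
    show |(if T a n then (1 : ℝ) else 0) - Pr d (q a) (T a)| ≤ 1
    rw [abs_le]
    split_ifs <;> constructor <;> linarith
  have hV1 : 1 ≤ V := by rw [hV]; exact le_max_left _ _
  have hmean1 : ∀ a ∈ I, mean d (q a) (fun n => if T a n then (1 : ℝ) else 0) = Pr d (q a) (T a) := by
    intro a _
    unfold mean Pr
    rw [← sum_filter, sum_const, nsmul_eq_mul, mul_one]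
    ring
  have hmain := h r K x hrK (by omega) hxr N hN f hf I' q (by
    intro a ha
    rw [hI', mem_filter] at ha
    exact ⟨(hq a ha.1).1, (hq a ha.1).2, ha.2⟩) (by
    intro a ha a' ha' hne
    rw [hI', mem_filter] at ha ha'
    exact hcop a ha.1 a' ha'.1 hne) F (by
    intro a ha
    rw [hI', mem_filter] at ha
    refine ⟨fun n => ?_, hFb a, ?_⟩
    · rw [hF]
      show (if T a n then (1 : ℝ) else 0) - Pr d (q a) (T a) = (if T a (fun i => n i % q a) then (1 : ℝ) else 0) - Pr d (q a) (T a)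
      have h1 := hT a ha.1 n
      by_cases h2 : T a n
      · rw [if_pos h2, if_pos (h1.1 h2)]
      · rw [if_neg h2, if_neg (fun h3 => h2 (h1.2 h3))]
    · rw [hF]
      show mean d (q a) (fun n => (if T a n then (1 : ℝ) else 0) - Pr d (q a) (T a)) = 0
      have h1 : (fun n : Fin d → ℕ => (if T a n then (1 : ℝ) else 0) - Pr d (q a) (T a)) =
          fun n => (if T a n then (1 : ℝ) else 0) + (fun _ => -Pr d (q a) (T a)) n := by
        funext n
        ring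
      rw [h1, mean_add, mean_const d (q a) (hq a ha.1).1, hmean1 a ha.1]
      ring)
    V hV1 (by
    have h1 : ∀ a ∈ I', mean d (q a) (fun n => F a n ^ 2) ≤ Pr d (q a) (T a) := by
      intro a ha
      rw [hI', mem_filter] at ha
      have hp0 := Pr_nonneg d (q a) (T a)
      have hp1 := Pr_le_one d (q a) (T a)
      have h2 : ∀ n, F a n ^ 2 ≤ (1 - 2 * Pr d (q a) (T a)) * (if T a n then (1 : ℝ) else 0) + Pr d (q a) (T a) ^ 2 := by
        intro n
        rw [hF]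
        show ((if T a n then (1 : ℝ) else 0) - Pr d (q a) (T a)) ^ 2 ≤ _
        split_ifs <;> nlinarith
      refine (mean_mono h2).trans ?_
      rw [mean_add (fun n => (1 - 2 * Pr d (q a) (T a)) * (if T a n then (1 : ℝ) else 0)) (fun _ => Pr d (q a) (T a) ^ 2),
        mean_mul, hmean1 a ha.1, mean_const d (q a) (hq a ha.1).1]
      nlinarith
    refine (sum_le_sum h1).trans ?_
    have hsub : I' ⊆ I := by rw [hI']; exact filter_subset _ _
    have h2 : ∑ a ∈ I', Pr d (q a) (T a) ≤ ∑ a ∈ I, Pr d (q a) (T a) :=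
      sum_le_sum_of_subset_of_nonneg hsub (fun a _ _ => Pr_nonneg d (q a) (T a))
    rw [hV]
    exact h2.trans (le_max_right _ _))
    Ex hEx ?_
  · exact hmain
  · intro S hS
    have hlt := hExb S hS
    obtain ⟨m, hm⟩ : ∃ m : Fin d → ℕ, m = fun i => change b (K i) (N i) (f i) (S i) := ⟨_, rfl⟩
    rw [← hm] at hlt ⊢
    rw [← hV] at hlt
    have hsum : ((I.filter (fun a => T a m)).card : ℝ) - ∑ a ∈ I, Pr d (q a) (T a) = ∑ a ∈ I, F a m := by
      rw [hF]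
      show _ = ∑ a ∈ I, ((if T a m then (1 : ℝ) else 0) - Pr d (q a) (T a))
      rw [sum_sub_distrib, card_filter]
      push_cast
      rfl
    rw [hsum] at hlt
    have hsplit : ∑ a ∈ I, F a m = ∑ a ∈ I', F a m + ∑ a ∈ I.filter (fun a => ¬ Nat.Coprime (q a) (b * b).factorial), F a m := by
      rw [hI', sum_filter_add_sum_filter_not]
    have hsmall : |∑ a ∈ I.filter (fun a => ¬ Nat.Coprime (q a) (b * b).factorial), F a m| ≤ (b : ℝ) * b + 1 := by
      refine (abs_sum_le_sum_abs _ _).trans ((sum_le_sum fun a _ => hFb a m).trans ?_)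
      rw [sum_const, nsmul_eq_mul, mul_one]
      -- every such modulus has its own small prime factor
      have h1 : (I.filter (fun a => ¬ Nat.Coprime (q a) (b * b).factorial)).card ≤ (range (b * b + 1)).card := by
        have hch : ∀ a ∈ I.filter (fun a => ¬ Nat.Coprime (q a) (b * b).factorial), ∃ p : ℕ, p.Prime ∧ p ∣ q a ∧ p ∣ (b * b).factorial := by
          intro a ha
          rw [mem_filter] at ha
          obtain ⟨p, hp, hp1, hp2⟩ := Nat.Prime.not_coprime_iff_dvd.1 ha.2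
          exact ⟨p, hp, hp1, hp2⟩
        choose! g hg using hch
        refine card_le_card_of_injOn g ?_ ?_
        · intro a ha
          rw [mem_coe] at ha
          obtain ⟨hp, _, hp2⟩ := hg a ha
          rw [mem_coe, mem_range]
          have := (Nat.Prime.dvd_factorial hp).1 hp2
          omega
        · intro a ha a' ha' haa
          by_contra hne
          rw [mem_coe] at ha ha'
          obtain ⟨hp, hp1, _⟩ := hg a ha
          obtain ⟨_, hp1', _⟩ := hg a' ha'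
          have hc := hcop a (mem_filter.1 ha).1 a' (mem_filter.1 ha').1 hne
          rw [← haa] at hp1'
          exact Nat.Prime.not_coprime_iff_dvd.2 ⟨g a, hp, hp1, hp1'⟩ hc
      rw [card_range] at h1
      exact_mod_cast h1
    have hsq1 : (1 : ℝ) ≤ Real.sqrt V := by
      rw [Real.one_le_sqrt]
      exact hV1
    have hxδ : (x : ℝ) ^ δ = (x : ℝ) ^ (δ / 2) * (x : ℝ) ^ (δ / 2) := by
      rw [← Real.rpow_add hx0]
      congr 1
      ring
    obtain ⟨u, hu⟩ : ∃ u, u = (x : ℝ) ^ (δ / 2) := ⟨_, rfl⟩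
    rw [← hu] at hx1 hxδ ⊢
    rw [hxδ, hsplit] at hlt
    have h3 := abs_add_le (∑ a ∈ I', F a m) (∑ a ∈ I.filter (fun a => ¬ Nat.Coprime (q a) (b * b).factorial), F a m)
    have hu2 : (2 : ℝ) ≤ u := by nlinarith [sq_nonneg (b : ℝ)]
    have hu0 : 0 ≤ u := by linarith
    have h4 : Real.sqrt V * u + (u - 1) ≤ Real.sqrt V * (u * u) := by
      have h6 : Real.sqrt V * u + Real.sqrt V * (u * (u - 1)) = Real.sqrt V * (u * u) := by ring
      have h7 : u - 1 ≤ Real.sqrt V * (u * (u - 1)) := by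
        have h8 : 1 * (1 * (u - 1)) ≤ Real.sqrt V * (u * (u - 1)) := by
          apply mul_le_mul hsq1 _ (by nlinarith) (Real.sqrt_nonneg _)
          exact mul_le_mul_of_nonneg_right (by linarith) (by linarith)
        linarith
      linarith
    linarith

open Classical in
theorem law2 (b d : ℕ) (hb : 2 ≤ b) (hd : 1 ≤ d) (δ A A₂ : ℝ) (hδ : 0 < δ) : ∃ c : ℝ, 0 < c ∧ ∃ x₀ : ℕ,
    ∀ (r K : Fin d → ℕ) (y : ℕ), (∀ i, 2 * r i ≤ K i) → x₀ ≤ y →
    ∀ N : Fin d → ℕ, (∀ i, N i < b ^ K i) → ∀ f : Fin d → ℕ → ℕ, (∀ i j, f i j < b ∧ f i j ≠ N i / b ^ j % b) →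
    ∀ (κ : Type) (Λ : ℕ → Finset κ), (∀ x, x₀ ≤ x → ((Λ x).card : ℝ) ≤ (x : ℝ) ^ A₂) →
    ∀ (ι : Type) (I : ℕ → κ → Finset ι) (q : κ → ι → ℕ), (∀ x, ∀ l ∈ Λ x, ∀ a ∈ I x l, 1 ≤ q l a ∧ q l a ≤ x) →
    (∀ x, ∀ l ∈ Λ x, ∀ a ∈ I x l, ∀ a' ∈ I x l, a ≠ a' → Nat.Coprime (q l a) (q l a')) → ∀ T : κ → ι → (Fin d → ℕ) → Prop,
    (∀ x, ∀ l ∈ Λ x, ∀ a ∈ I x l, ∀ n, T l a n ↔ T l a (fun i => n i % q l a)) →
    ∀ Ex ⊆ Fintype.piFinset (fun i => powersetCard (r i) (range (K i))),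
    (∀ S ∈ Ex, ∃ x : ℕ, y ≤ x ∧ (∀ i, Real.log x ≤ c * r i) ∧ ∃ l ∈ Λ x,
      Real.sqrt (max 1 (∑ a ∈ I x l, Pr d (q l a) (T l a))) * (x : ℝ) ^ δ <
      |(((I x l).filter (fun a => T l a (fun i => change b (K i) (N i) (f i) (S i)))).card : ℝ) - ∑ a ∈ I x l, Pr d (q l a) (T l a)|) →
    (Ex.card : ℝ) ≤ (y : ℝ) ^ (-A) * ∏ i, ((K i).choose (r i) : ℝ) := by
  obtain ⟨c, hc, x₀, h⟩ := local_law2 b d hb hd δ (|A| + A₂ + 2) hδ
  refine ⟨c, hc, x₀ + 2, fun r K y hrK hy N hN f hf κ Λ hΛ ι I q hq hcop T hT Ex hEx hExb => ?_⟩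
  have hyr : (2 : ℝ) ≤ y := by exact_mod_cast (by omega : 2 ≤ y)
  have hy0 : (0 : ℝ) < y := by linarith
  obtain ⟨X, hX⟩ : ∃ X, X = ⌊Real.exp (c * r ⟨0, hd⟩)⌋₊ := ⟨_, rfl⟩
  obtain ⟨C, hC⟩ : ∃ C : ℝ, C = ∏ i, ((K i).choose (r i) : ℝ) := ⟨_, rfl⟩
  have hC0 : 0 ≤ C := by rw [hC]; exact prod_nonneg fun i _ => Nat.cast_nonneg _
  obtain ⟨Bd, hBd⟩ : ∃ Bd : ℕ → κ → Finset (Fin d → Finset ℕ), Bd = fun x l => Ex.filter (fun S =>
      Real.sqrt (max 1 (∑ a ∈ I x l, Pr d (q l a) (T l a))) * (x : ℝ) ^ δ <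
      |(((I x l).filter (fun a => T l a (fun i => change b (K i) (N i) (f i) (S i)))).card : ℝ) - ∑ a ∈ I x l, Pr d (q l a) (T l a)|) := ⟨_, rfl⟩
  have hcov : Ex ⊆ (Ioo (y - 1) (X + 1)).biUnion (fun x => (Λ x).biUnion (fun l => if ∀ i, Real.log x ≤ c * r i then Bd x l else ∅)) := by
    intro S hS
    obtain ⟨x, hyx, hxr, l, hl, hlt⟩ := hExb S hS
    rw [mem_biUnion]
    refine ⟨x, ?_, ?_⟩
    · rw [mem_Ioo]
      refine ⟨by omega, ?_⟩
      have hx0 : (0 : ℝ) < x := by exact_mod_cast (by omega : 0 < x)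
      have h1 : (x : ℝ) ≤ Real.exp (c * r ⟨0, hd⟩) := by
        rw [← Real.log_le_iff_le_exp hx0]
        exact hxr _
      have h2 : x ≤ X := by
        rw [hX]
        exact Nat.le_floor h1
      omega
    · rw [mem_biUnion]
      refine ⟨l, hl, ?_⟩
      rw [if_pos hxr, hBd, mem_filter]
      exact ⟨hS, hlt⟩
  have h1 : (Ex.card : ℝ) ≤ ∑ x ∈ Ioo (y - 1) (X + 1), ((x : ℝ) ^ 2)⁻¹ * ((x : ℝ) ^ (-|A|) * C) := by
    have h2 := (card_le_card hcov).trans (card_biUnion_le.trans (sum_le_sum fun x _ => card_biUnion_le))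
    have h3 : (Ex.card : ℝ) ≤ ∑ x ∈ Ioo (y - 1) (X + 1), ∑ l ∈ Λ x, ((if ∀ i, Real.log x ≤ c * r i then Bd x l else ∅).card : ℝ) := by
      exact_mod_cast h2
    refine h3.trans (sum_le_sum fun x hx => ?_)
    rw [mem_Ioo] at hx
    have hxx : x₀ ≤ x := by omega
    have hxp : (0 : ℝ) < x := by exact_mod_cast (by omega : 0 < x)
    have h4 : ∀ l ∈ Λ x, (((if ∀ i, Real.log x ≤ c * r i then Bd x l else ∅) : Finset (Fin d → Finset ℕ)).card : ℝ) ≤
        (x : ℝ) ^ (-(|A| + A₂ + 2)) * C := by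
      intro l hl
      split_ifs with hlog
      · rw [hC]
        refine h r K x hrK hxx hlog N hN f hf (I x l) (q l) (hq x l hl) (hcop x l hl) (T l) (hT x l hl) (Bd x l) ?_ ?_
        · rw [hBd]
          exact (filter_subset _ _).trans hEx
        · intro S hS
          rw [hBd, mem_filter] at hS
          exact hS.2
      · rw [card_empty, Nat.cast_zero]
        positivity
    refine (sum_le_sum h4).trans ?_
    rw [sum_const, nsmul_eq_mul]
    calc ((Λ x).card : ℝ) * ((x : ℝ) ^ (-(|A| + A₂ + 2)) * C) ≤ (x : ℝ) ^ A₂ * ((x : ℝ) ^ (-(|A| + A₂ + 2)) * C) :=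
          mul_le_mul_of_nonneg_right (hΛ x (by omega)) (by positivity)
      _ = ((x : ℝ) ^ A₂ * (x : ℝ) ^ (-(|A| + A₂ + 2))) * C := by ring
      _ = ((x : ℝ) ^ 2)⁻¹ * ((x : ℝ) ^ (-|A|) * C) := by
          rw [← Real.rpow_natCast, ← Real.rpow_neg hxp.le, ← mul_assoc, ← Real.rpow_add hxp, ← Real.rpow_add hxp]
          congr 2
          push_cast
          ring
  have h5 : ∑ x ∈ Ioo (y - 1) (X + 1), ((x : ℝ) ^ 2)⁻¹ * ((x : ℝ) ^ (-|A|) * C) ≤ (∑ x ∈ Ioo (y - 1) (X + 1), ((x : ℝ) ^ 2)⁻¹) * ((y : ℝ) ^ (-|A|) * C) := by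
    rw [sum_mul]
    refine sum_le_sum fun x hx => ?_
    rw [mem_Ioo] at hx
    apply mul_le_mul_of_nonneg_left _ (by positivity)
    apply mul_le_mul_of_nonneg_right _ hC0
    apply Real.rpow_le_rpow_of_nonpos hy0 _ (by have := abs_nonneg A; linarith)
    exact_mod_cast (by omega : y ≤ x)
  have h6 : ∑ x ∈ Ioo (y - 1) (X + 1), ((x : ℝ) ^ 2)⁻¹ ≤ 1 := by
    have h7 := sum_Ioo_inv_sq_le (α := ℝ) (y - 1) (X + 1)
    refine h7.trans ?_
    rw [div_le_one (by positivity)]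
    have : (1 : ℝ) ≤ ((y - 1 : ℕ) : ℝ) := by exact_mod_cast (by omega : 1 ≤ y - 1)
    linarith
  refine h1.trans (h5.trans ?_)
  calc (∑ x ∈ Ioo (y - 1) (X + 1), ((x : ℝ) ^ 2)⁻¹) * ((y : ℝ) ^ (-|A|) * C) ≤ 1 * ((y : ℝ) ^ (-|A|) * C) :=
        mul_le_mul_of_nonneg_right h6 (by positivity)
    _ = (y : ℝ) ^ (-|A|) * C := one_mul _
    _ ≤ (y : ℝ) ^ (-A) * ∏ i, ((K i).choose (r i) : ℝ) := by
        rw [← hC]
        apply mul_le_mul_of_nonneg_right _ hC0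
        apply Real.rpow_le_rpow_of_exponent_le (by linarith)
        have := le_abs_self A
        linarith

end Pool.Agent.TH894.NE
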