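import Pool.Agent.TH894.NE4

set_option autoImplicit false

/-! Arbitrary bounded local functions, uniformly in the length and in many parameters. -/

namespace Pool.Agent.TH894.NE
open Finset Filter
open Pool.Agent.TH894.ND
open Pool.Agent.TH894.SM (change change_eq)

lemma mean_abs_le {d q : ℕ} (hq : 1 ≤ q) (F : (Fin d → ℕ) → ℝ) (hF : ∀ n, |F n| ≤ 1) : |mean d q F| ≤ 1 := by
  rw [abs_le]
  constructor
  · have h1 := mean_mono (d := d) (q := q) (F := fun _ => (-1 : ℝ)) (G := F) (fun n => (abs_le.1 (hF n)).1)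
    rw [mean_const d q hq] at h1
    exact h1
  · have h1 := mean_mono (d := d) (q := q) (F := F) (G := fun _ => (1 : ℝ)) (fun n => (abs_le.1 (hF n)).2)
    rw [mean_const d q hq] at h1
    exact h1

open Classical in
theorem local_law3 (b d : ℕ) (hb : 2 ≤ b) (hd : 1 ≤ d) (δ A : ℝ) (hδ : 0 < δ) : ∃ c : ℝ, 0 < c ∧ ∃ x₀ : ℕ,
    ∀ (r K : Fin d → ℕ) (x : ℕ), (∀ i, 2 * r i ≤ K i) → x₀ ≤ x → (∀ i, Real.log x ≤ c * r i) →
    ∀ N : Fin d → ℕ, (∀ i, N i < b ^ K i) → ∀ f : Fin d → ℕ → ℕ, (∀ i j, f i j < b ∧ f i j ≠ N i / b ^ j % b) →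
    ∀ {ι : Type} (I : Finset ι) (q : ι → ℕ), (∀ a ∈ I, 1 ≤ q a ∧ q a ≤ x) →
    (∀ a ∈ I, ∀ a' ∈ I, a ≠ a' → Nat.Coprime (q a) (q a')) → ∀ G : ι → (Fin d → ℕ) → ℝ,
    (∀ a ∈ I, Per (q a) (G a)) → (∀ a ∈ I, ∀ n, |G a n| ≤ 1) →
    ∀ Ex ⊆ Fintype.piFinset (fun i => powersetCard (r i) (range (K i))),
    (∀ S ∈ Ex, Real.sqrt (max 1 (∑ a ∈ I, mean d (q a) (fun n => G a n ^ 2))) * (x : ℝ) ^ δ <
      |∑ a ∈ I, G a (fun i => change b (K i) (N i) (f i) (S i)) - ∑ a ∈ I, mean d (q a) (G a)|) →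
    (Ex.card : ℝ) ≤ (x : ℝ) ^ (-A) * ∏ i, ((K i).choose (r i) : ℝ) := by
  obtain ⟨c, hc, x₀, h⟩ := engine2 b d hb hd (δ / 2) A (by positivity)
  have hev : ∀ᶠ x : ℕ in atTop, 2 * ((b : ℝ) * b + 1) + 2 ≤ (x : ℝ) ^ (δ / 2) := by
    have h1 : Tendsto (fun x : ℝ => x ^ (δ / 2)) atTop atTop := tendsto_rpow_atTop (by positivity)
    exact (h1.comp tendsto_natCast_atTop_atTop).eventually (eventually_ge_atTop _)
  obtain ⟨x₁, hx₁⟩ := eventually_atTop.1 hev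
  refine ⟨c, hc, x₀ + x₁ + 1, fun r K x hrK hx hxr N hN f hf ι I q hq hcop G hG hG1 Ex hEx hExb => ?_⟩
  have hx1 := hx₁ x (by omega)
  have hxr1 : (1 : ℝ) ≤ x := by exact_mod_cast (by omega : 1 ≤ x)
  have hx0 : (0 : ℝ) < x := by linarith
  obtain ⟨F, hF⟩ : ∃ F : ι → (Fin d → ℕ) → ℝ, F = fun a n => (G a n - mean d (q a) (G a)) / 2 := ⟨_, rfl⟩
  obtain ⟨I', hI'⟩ : ∃ I', I' = I.filter (fun a => Nat.Coprime (q a) (b * b).factorial) := ⟨_, rfl⟩
  obtain ⟨V, hV⟩ : ∃ V, V = max 1 (∑ a ∈ I, mean d (q a) (fun n => G a n ^ 2)) := ⟨_, rfl⟩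
  have hFb : ∀ a ∈ I, ∀ n, |F a n| ≤ 1 := by
    intro a ha n
    rw [hF]
    show |(G a n - mean d (q a) (G a)) / 2| ≤ 1
    have h1 := abs_le.1 (hG1 a ha n)
    have h2 := abs_le.1 (mean_abs_le (hq a ha).1 (G a) (hG1 a ha))
    rw [abs_le]
    constructor <;> linarith [h1.1, h1.2, h2.1, h2.2]
  have hV1 : 1 ≤ V := by rw [hV]; exact le_max_left _ _
  have hmain := h r K x hrK (by omega) hxr N hN f hf I' q (by
    intro a ha
    rw [hI', mem_filter] at ha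
    exact ⟨(hq a ha.1).1, (hq a ha.1).2, ha.2⟩) (by
    intro a ha a' ha' hne
    rw [hI', mem_filter] at ha ha'
    exact hcop a ha.1 a' ha'.1 hne) F (by
    intro a ha
    rw [hI', mem_filter] at ha
    refine ⟨fun n => ?_, hFb a ha.1, ?_⟩
    · rw [hF]
      show (G a n - mean d (q a) (G a)) / 2 = (G a (fun i => n i % q a) - mean d (q a) (G a)) / 2
      rw [← hG a ha.1 n]
    · rw [hF]
      show mean d (q a) (fun n => (G a n - mean d (q a) (G a)) / 2) = 0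
      have h1 : (fun n : Fin d → ℕ => (G a n - mean d (q a) (G a)) / 2) =
          fun n => (1 / 2 : ℝ) * G a n + (fun _ => -(mean d (q a) (G a)) / 2) n := by
        funext n
        ring
      rw [h1, mean_add (fun n => (1 / 2 : ℝ) * G a n), mean_const d (q a) (hq a ha.1).1, mean_mul]
      ring)
    V hV1 (by
    have h1 : ∀ a ∈ I', mean d (q a) (fun n => F a n ^ 2) ≤ mean d (q a) (fun n => G a n ^ 2) := by
      intro a ha
      rw [hI', mem_filter] at ha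
      obtain ⟨M, hM⟩ : ∃ M, M = mean d (q a) (G a) := ⟨_, rfl⟩
      have h2 : (fun n : Fin d → ℕ => F a n ^ 2) = fun n => (1 / 4 : ℝ) * G a n ^ 2 + ((-(M / 2)) * G a n + (fun _ => M ^ 2 / 4) n) := by
        funext n
        rw [hF, hM]
        ring
      have h0 : 0 ≤ mean d (q a) (fun n => G a n ^ 2) := by
        unfold mean
        exact mul_nonneg (by positivity) (sum_nonneg fun n _ => sq_nonneg _)
      rw [h2, mean_add (fun n => (1 / 4 : ℝ) * G a n ^ 2), mean_add (fun n => (-(M / 2)) * G a n), mean_const d (q a) (hq a ha.1).1, mean_mul, mean_mul, ← hM]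
      nlinarith [sq_nonneg M]
    have hsub : I' ⊆ I := by rw [hI']; exact filter_subset _ _
    have h2 : ∑ a ∈ I', mean d (q a) (fun n => G a n ^ 2) ≤ ∑ a ∈ I, mean d (q a) (fun n => G a n ^ 2) := by
      apply sum_le_sum_of_subset_of_nonneg hsub
      intro a _ _
      unfold mean
      exact mul_nonneg (by positivity) (sum_nonneg fun n _ => sq_nonneg _)
    rw [hV]
    exact ((sum_le_sum h1).trans h2).trans (le_max_right _ _))
    Ex hEx ?_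
  · exact hmain
  · intro S hS
    have hlt := hExb S hS
    obtain ⟨m, hm⟩ : ∃ m : Fin d → ℕ, m = fun i => change b (K i) (N i) (f i) (S i) := ⟨_, rfl⟩
    rw [← hm] at hlt ⊢
    rw [← hV] at hlt
    have hsum : ∑ a ∈ I, G a m - ∑ a ∈ I, mean d (q a) (G a) = 2 * ∑ a ∈ I, F a m := by
      rw [hF, mul_sum, ← sum_sub_distrib]
      exact sum_congr rfl fun a _ => by ring
    rw [hsum] at hlt
    have hsplit : ∑ a ∈ I, F a m = ∑ a ∈ I', F a m + ∑ a ∈ I.filter (fun a => ¬ Nat.Coprime (q a) (b * b).factorial), F a m := by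
      rw [hI', sum_filter_add_sum_filter_not]
    have hsmall : |∑ a ∈ I.filter (fun a => ¬ Nat.Coprime (q a) (b * b).factorial), F a m| ≤ (b : ℝ) * b + 1 := by
      refine (abs_sum_le_sum_abs _ _).trans ((sum_le_sum fun a ha => hFb a (mem_filter.1 ha).1 m).trans ?_)
      rw [sum_const, nsmul_eq_mul, mul_one]
      have h1 : (I.filter (fun a => ¬ Nat.Coprime (q a) (b * b).factorial)).card ≤ (range (b * b + 1)).card := by
        have hch : ∀ a ∈ I.filter (fun a => ¬ Nat.Coprime (q a) (b * b).factorial), ∃ p : ℕ, p.Prime ∧ p ∣ q a ∧ p ∣ (b * b).factorial := by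
          intro a ha
          rw [mem_filter] at ha
          obtain ⟨p, hp, hp1, hp2⟩ := Nat.Prime.not_coprime_iff_dvd.1 ha.2
          exact ⟨p, hp, hp1, hp2⟩
        choose! g hg using hch
        refine card_le_card_of_injOn g ?_ ?_
        · intro a ha
          rw [mem_coe] at ha
          obtain ⟨hp, _, hp2⟩ := hg a ha
          rw [mem_coe, mem_range]
          have := (Nat.Prime.dvd_factorial hp).1 hp2
          omega
        · intro a ha a' ha' haa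
          by_contra hne
          rw [mem_coe] at ha ha'
          obtain ⟨hp, hp1, _⟩ := hg a ha
          obtain ⟨_, hp1', _⟩ := hg a' ha'
          have hc := hcop a (mem_filter.1 ha).1 a' (mem_filter.1 ha').1 hne
          rw [← haa] at hp1'
          exact Nat.Prime.not_coprime_iff_dvd.2 ⟨g a, hp, hp1, hp1'⟩ hc
      rw [card_range] at h1
      exact_mod_cast h1
    have hsq1 : (1 : ℝ) ≤ Real.sqrt V := by
      rw [Real.one_le_sqrt]
      exact hV1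
    have hxδ : (x : ℝ) ^ δ = (x : ℝ) ^ (δ / 2) * (x : ℝ) ^ (δ / 2) := by
      rw [← Real.rpow_add hx0]
      congr 1
      ring
    obtain ⟨u, hu⟩ : ∃ u, u = (x : ℝ) ^ (δ / 2) := ⟨_, rfl⟩
    rw [← hu] at hx1 hxδ ⊢
    rw [hxδ, hsplit, abs_mul, abs_two] at hlt
    have h3 := abs_add_le (∑ a ∈ I', F a m) (∑ a ∈ I.filter (fun a => ¬ Nat.Coprime (q a) (b * b).factorial), F a m)
    have hu4 : (4 : ℝ) ≤ u := by nlinarith [sq_nonneg (b : ℝ)]
    have hu0 : 0 ≤ u := by linarith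
    have h4 : 2 * (Real.sqrt V * u) + u ≤ Real.sqrt V * (u * u) := by
      have h6 : Real.sqrt V * (u * u) = Real.sqrt V * u * u := by ring
      have h7 : u ≤ Real.sqrt V * u := le_mul_of_one_le_left hu0 hsq1
      rw [h6]
      nlinarith
    linarith

open Classical in
theorem law3 (b d : ℕ) (hb : 2 ≤ b) (hd : 1 ≤ d) (δ A A₂ : ℝ) (hδ : 0 < δ) : ∃ c : ℝ, 0 < c ∧ ∃ x₀ : ℕ,
    ∀ (r K : Fin d → ℕ) (y : ℕ), (∀ i, 2 * r i ≤ K i) → x₀ ≤ y →
    ∀ N : Fin d → ℕ, (∀ i, N i < b ^ K i) → ∀ f : Fin d → ℕ → ℕ, (∀ i j, f i j < b ∧ f i j ≠ N i / b ^ j % b) →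
    ∀ (κ : Type) (Λ : ℕ → Finset κ), (∀ x, x₀ ≤ x → ((Λ x).card : ℝ) ≤ (x : ℝ) ^ A₂) →
    ∀ (ι : Type) (I : ℕ → κ → Finset ι) (q : κ → ι → ℕ), (∀ x, ∀ l ∈ Λ x, ∀ a ∈ I x l, 1 ≤ q l a ∧ q l a ≤ x) →
    (∀ x, ∀ l ∈ Λ x, ∀ a ∈ I x l, ∀ a' ∈ I x l, a ≠ a' → Nat.Coprime (q l a) (q l a')) → ∀ G : κ → ι → (Fin d → ℕ) → ℝ,
    (∀ x, ∀ l ∈ Λ x, ∀ a ∈ I x l, Per (q l a) (G l a)) → (∀ x, ∀ l ∈ Λ x, ∀ a ∈ I x l, ∀ n, |G l a n| ≤ 1) →
    ∀ Ex ⊆ Fintype.piFinset (fun i => powersetCard (r i) (range (K i))),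
    (∀ S ∈ Ex, ∃ x : ℕ, y ≤ x ∧ (∀ i, Real.log x ≤ c * r i) ∧ ∃ l ∈ Λ x,
      Real.sqrt (max 1 (∑ a ∈ I x l, mean d (q l a) (fun n => G l a n ^ 2))) * (x : ℝ) ^ δ <
      |∑ a ∈ I x l, G l a (fun i => change b (K i) (N i) (f i) (S i)) - ∑ a ∈ I x l, mean d (q l a) (G l a)|) →
    (Ex.card : ℝ) ≤ (y : ℝ) ^ (-A) * ∏ i, ((K i).choose (r i) : ℝ) := by
  obtain ⟨c, hc, x₀, h⟩ := local_law3 b d hb hd δ (|A| + A₂ + 2) hδ
  refine ⟨c, hc, x₀ + 2, fun r K y hrK hy N hN f hf κ Λ hΛ ι I q hq hcop G hG hG1 Ex hEx hExb => ?_⟩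
  have hyr : (2 : ℝ) ≤ y := by exact_mod_cast (by omega : 2 ≤ y)
  have hy0 : (0 : ℝ) < y := by linarith
  obtain ⟨X, hX⟩ : ∃ X, X = ⌊Real.exp (c * r ⟨0, hd⟩)⌋₊ := ⟨_, rfl⟩
  obtain ⟨C, hC⟩ : ∃ C : ℝ, C = ∏ i, ((K i).choose (r i) : ℝ) := ⟨_, rfl⟩
  have hC0 : 0 ≤ C := by rw [hC]; exact prod_nonneg fun i _ => Nat.cast_nonneg _
  obtain ⟨Bd, hBd⟩ : ∃ Bd : ℕ → κ → Finset (Fin d → Finset ℕ), Bd = fun x l => Ex.filter (fun S =>
      Real.sqrt (max 1 (∑ a ∈ I x l, mean d (q l a) (fun n => G l a n ^ 2))) * (x : ℝ) ^ δ <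
      |∑ a ∈ I x l, G l a (fun i => change b (K i) (N i) (f i) (S i)) - ∑ a ∈ I x l, mean d (q l a) (G l a)|) := ⟨_, rfl⟩
  have hcov : Ex ⊆ (Ioo (y - 1) (X + 1)).biUnion (fun x => (Λ x).biUnion (fun l => if ∀ i, Real.log x ≤ c * r i then Bd x l else ∅)) := by
    intro S hS
    obtain ⟨x, hyx, hxr, l, hl, hlt⟩ := hExb S hS
    rw [mem_biUnion]
    refine ⟨x, ?_, ?_⟩
    · rw [mem_Ioo]
      refine ⟨by omega, ?_⟩
      have hx0 : (0 : ℝ) < x := by exact_mod_cast (by omega : 0 < x)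
      have h1 : (x : ℝ) ≤ Real.exp (c * r ⟨0, hd⟩) := by
        rw [← Real.log_le_iff_le_exp hx0]
        exact hxr _
      have h2 : x ≤ X := by
        rw [hX]
        exact Nat.le_floor h1
      omega
    · rw [mem_biUnion]
      refine ⟨l, hl, ?_⟩
      rw [if_pos hxr, hBd, mem_filter]
      exact ⟨hS, hlt⟩
  have h1 : (Ex.card : ℝ) ≤ ∑ x ∈ Ioo (y - 1) (X + 1), ((x : ℝ) ^ 2)⁻¹ * ((x : ℝ) ^ (-|A|) * C) := by
    have h2 := (card_le_card hcov).trans (card_biUnion_le.trans (sum_le_sum fun x _ => card_biUnion_le))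
    have h3 : (Ex.card : ℝ) ≤ ∑ x ∈ Ioo (y - 1) (X + 1), ∑ l ∈ Λ x, ((if ∀ i, Real.log x ≤ c * r i then Bd x l else ∅).card : ℝ) := by
      exact_mod_cast h2
    refine h3.trans (sum_le_sum fun x hx => ?_)
    rw [mem_Ioo] at hx
    have hxx : x₀ ≤ x := by omega
    have hxp : (0 : ℝ) < x := by exact_mod_cast (by omega : 0 < x)
    have h4 : ∀ l ∈ Λ x, (((if ∀ i, Real.log x ≤ c * r i then Bd x l else ∅) : Finset (Fin d → Finset ℕ)).card : ℝ) ≤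
        (x : ℝ) ^ (-(|A| + A₂ + 2)) * C := by
      intro l hl
      split_ifs with hlog
      · rw [hC]
        refine h r K x hrK hxx hlog N hN f hf (I x l) (q l) (hq x l hl) (hcop x l hl) (G l) (hG x l hl) (hG1 x l hl) (Bd x l) ?_ ?_
        · rw [hBd]
          exact (filter_subset _ _).trans hEx
        · intro S hS
          rw [hBd, mem_filter] at hS
          exact hS.2
      · rw [card_empty, Nat.cast_zero]
        positivity
    refine (sum_le_sum h4).trans ?_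
    rw [sum_const, nsmul_eq_mul]
    calc ((Λ x).card : ℝ) * ((x : ℝ) ^ (-(|A| + A₂ + 2)) * C) ≤ (x : ℝ) ^ A₂ * ((x : ℝ) ^ (-(|A| + A₂ + 2)) * C) :=
          mul_le_mul_of_nonneg_right (hΛ x (by omega)) (by positivity)
      _ = ((x : ℝ) ^ A₂ * (x : ℝ) ^ (-(|A| + A₂ + 2))) * C := by ring
      _ = ((x : ℝ) ^ 2)⁻¹ * ((x : ℝ) ^ (-|A|) * C) := by
          rw [← Real.rpow_natCast, ← Real.rpow_neg hxp.le, ← mul_assoc, ← Real.rpow_add hxp, ← Real.rpow_add hxp]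
          congr 2
          push_cast
          ring
  have h5 : ∑ x ∈ Ioo (y - 1) (X + 1), ((x : ℝ) ^ 2)⁻¹ * ((x : ℝ) ^ (-|A|) * C) ≤ (∑ x ∈ Ioo (y - 1) (X + 1), ((x : ℝ) ^ 2)⁻¹) * ((y : ℝ) ^ (-|A|) * C) := by
    rw [sum_mul]
    refine sum_le_sum fun x hx => ?_
    rw [mem_Ioo] at hx
    apply mul_le_mul_of_nonneg_left _ (by positivity)
    apply mul_le_mul_of_nonneg_right _ hC0
    apply Real.rpow_le_rpow_of_nonpos hy0 _ (by have := abs_nonneg A; linarith)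
    exact_mod_cast (by omega : y ≤ x)
  have h6 : ∑ x ∈ Ioo (y - 1) (X + 1), ((x : ℝ) ^ 2)⁻¹ ≤ 1 := by
    have h7 := sum_Ioo_inv_sq_le (α := ℝ) (y - 1) (X + 1)
    refine h7.trans ?_
    rw [div_le_one (by positivity)]
    have : (1 : ℝ) ≤ ((y - 1 : ℕ) : ℝ) := by exact_mod_cast (by omega : 1 ≤ y - 1)
    linarith
  refine h1.trans (h5.trans ?_)
  calc (∑ x ∈ Ioo (y - 1) (X + 1), ((x : ℝ) ^ 2)⁻¹) * ((y : ℝ) ^ (-|A|) * C) ≤ 1 * ((y : ℝ) ^ (-|A|) * C) :=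
        mul_le_mul_of_nonneg_right h6 (by positivity)
    _ = (y : ℝ) ^ (-|A|) * C := one_mul _
    _ ≤ (y : ℝ) ^ (-A) * ∏ i, ((K i).choose (r i) : ℝ) := by
        rw [← hC]
        apply mul_le_mul_of_nonneg_right _ hC0
        apply Real.rpow_le_rpow_of_exponent_le (by linarith)
        have := le_abs_self A
        linarith

end Pool.Agent.TH894.NE
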