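import Pool.Agent.TH894.NE4
import Pool.Agent.TH862.PrimeBd

set_option autoImplicit false

/-! Angles at consecutive primes, all boxes, for vectors of numbers obtained by few changes of digits. -/

namespace Pool.Agent.TH894.NF
open Finset Filter
open Pool.Agent.TH894.NE
open Pool.Agent.TH894.ND
open Pool.Agent.TH894.SM (change change_eq)

/-- the prime number with the index `k` -/
noncomputable def pr (k : ℕ) : ℕ := Nat.nth Nat.Prime k

lemma pr_prime (k : ℕ) : (pr k).Prime := Nat.prime_nth_prime k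

lemma pr_inj {k l : ℕ} (h : pr k = pr l) : k = l := Nat.nth_injective Nat.infinite_setOfPred_prime h

/-- the product of `s` consecutive primes -/
noncomputable def qk (s k : ℕ) : ℕ := ∏ i : Fin s, pr (k + i)

lemma qk_pos (s k : ℕ) : 1 ≤ qk s k := by
  unfold qk
  exact Nat.one_le_iff_ne_zero.2 (prod_ne_zero_iff.2 fun i _ => (pr_prime _).ne_zero)

lemma pr_le_qk (s k : ℕ) (i : Fin s) : pr (k + i) ≤ qk s k := by
  apply Nat.le_of_dvd (qk_pos s k)
  unfold qk
  exact dvd_prod_of_mem (fun i : Fin s => pr (k + i)) (mem_univ i)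

lemma qk_cop (s k k' : ℕ) (h : k % s = k' % s) (hne : k ≠ k') : Nat.Coprime (qk s k) (qk s k') := by
  unfold qk
  apply Nat.Coprime.prod_left
  intro i _
  apply Nat.Coprime.prod_right
  intro i' _
  rw [Nat.coprime_primes (pr_prime _) (pr_prime _)]
  intro h2
  have h3 := pr_inj h2
  apply hne
  have hi := i.isLt
  have hi' := i'.isLt
  -- k + i = k' + i' with the same residue
  have h4 : (k : ℤ) - k' = (i' : ℤ) - i := by omega
  have h5 : (s : ℤ) ∣ (k : ℤ) - k' := by
    have h6 : k' ≡ k [MOD s] := h.symm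
    exact (Nat.modEq_iff_dvd).1 h6
  rw [h4] at h5
  have h7 : (i' : ℤ) - i = 0 := by
    apply Int.eq_zero_of_abs_lt_dvd h5
    rw [abs_lt]
    constructor <;> omega
  omega

/-- a function of the coefficients modulo `p`, with values in `[0, 1]`, and with few values -/
structure Ang (d : ℕ) where
  /-- the function -/
  a : ℕ → (Fin d → ℕ) → ℝ
  /-- it depends on the residues modulo `p` -/
  per : ∀ p n, a p n = a p (fun i => n i % p)
  /-- it is at most `1` -/
  le : ∀ p n, a p n ≤ 1
  /-- the values -/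
  W : ℕ → Finset ℝ
  /-- the values for the primes up to `x` -/
  mem : ∀ x p n, p.Prime → p ≤ x → a p n ∈ W x
  /-- the exponent -/
  e : ℕ
  /-- the number of the values -/
  card : ∀ x, 3 ≤ x → ((W x).card : ℝ) + 1 ≤ (x : ℝ) ^ e

lemma Ang.per_dvd {d : ℕ} (a : Ang d) (p q : ℕ) (h : p ∣ q) (n : Fin d → ℕ) : a.a p n = a.a p (fun i => n i % q) := by
  rw [a.per p n, a.per p (fun i => n i % q)]
  congr 1
  funext i
  exact (Nat.mod_mod_of_dvd (n i) h).symm

/-- all bounds can be taken from a finite set -/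
lemma Ang.end_pt {d : ℕ} (a : Ang d) (x : ℕ) (u : ℝ) : ∃ u' ∈ insert (2 : ℝ) (a.W x), ∀ p n, p.Prime → p ≤ x → (u ≤ a.a p n ↔ u' ≤ a.a p n) := by
  classical
  rcases ((a.W x).filter (fun w => u ≤ w)).eq_empty_or_nonempty with h | h
  · refine ⟨2, mem_insert_self _ _, fun p n hp hpx => ?_⟩
    constructor
    · intro h2
      have h3 : a.a p n ∈ (a.W x).filter (fun w => u ≤ w) := mem_filter.2 ⟨a.mem x p n hp hpx, h2⟩
      rw [h] at h3
      simp at h3
    · intro h2
      have := a.le p n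
      linarith
  · obtain ⟨m, hm⟩ : ∃ m, m = ((a.W x).filter (fun w => u ≤ w)).min' h := ⟨_, rfl⟩
    have hm1 : m ∈ (a.W x).filter (fun w => u ≤ w) := by rw [hm]; exact min'_mem _ _
    rw [mem_filter] at hm1
    refine ⟨m, mem_insert_of_mem hm1.1, fun p n hp hpx => ?_⟩
    constructor
    · intro h2
      rw [hm]
      exact min'_le _ _ (mem_filter.2 ⟨a.mem x p n hp hpx, h2⟩)
    · intro h2
      exact hm1.2.trans h2

/-- the conditions at `s` consecutive primes -/
def Bx {d : ℕ} (a : Ang d) (s : ℕ) (w : Fin s → ℝ × ℝ) (k : ℕ) (n : Fin d → ℕ) : Prop :=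
  ∀ i : Fin s, (w i).1 ≤ a.a (pr (k + i)) n ∧ a.a (pr (k + i)) n < (w i).2

lemma Bx_per {d : ℕ} (a : Ang d) (s : ℕ) (w : Fin s → ℝ × ℝ) (k : ℕ) (n : Fin d → ℕ) : Bx a s w k n ↔ Bx a s w k (fun i => n i % qk s k) := by
  unfold Bx
  apply forall_congr'
  intro i
  have h : pr (k + i) ∣ qk s k := by unfold qk; exact dvd_prod_of_mem (fun i : Fin s => pr (k + i)) (mem_univ i)
  rw [a.per_dvd (pr (k + i)) (qk s k) h n]

open Classical in
/-- the proportion at a product of consecutive primes is the product of the proportions -/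
lemma Pr_prod {d : ℕ} (a : Ang d) (s : ℕ) (w : Fin s → ℝ × ℝ) (k : ℕ) : Pr d (qk s k) (Bx a s w k) =
    ∏ i : Fin s, Pr d (pr (k + i)) (fun n => (w i).1 ≤ a.a (pr (k + i)) n ∧ a.a (pr (k + i)) n < (w i).2) := by
  have h1 : ∀ (q : ℕ) (T : (Fin d → ℕ) → Prop), Pr d q T = mean d q (fun n => if T n then (1 : ℝ) else 0) := by
    intro q T
    unfold mean Pr
    rw [← sum_filter, sum_const, nsmul_eq_mul, mul_one]
    ring
  obtain ⟨T, hT⟩ : ∃ T : Fin s → (Fin d → ℕ) → Prop, T = fun i n => (w i).1 ≤ a.a (pr (k + i)) n ∧ a.a (pr (k + i)) n < (w i).2 := ⟨_, rfl⟩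
  have hR : ∏ i : Fin s, Pr d (pr (k + i)) (fun n => (w i).1 ≤ a.a (pr (k + i)) n ∧ a.a (pr (k + i)) n < (w i).2) =
      ∏ i : Fin s, Pr d (pr (k + i)) (T i) := by rw [hT]
  rw [hR, h1, prod_congr rfl fun i _ => h1 _ _]
  have h2 := mean_prod (d := d) (univ : Finset (Fin s)) (fun i => pr (k + i)) (fun i _ => (pr_prime _).one_lt.le)
    (by
      intro i _ i' _ hne
      rw [Nat.coprime_primes (pr_prime _) (pr_prime _)]
      intro h
      have h3 := pr_inj h
      apply hne
      ext
      omega)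
    (fun i n => if T i n then (1 : ℝ) else 0)
    (by
      intro i _ n
      have h4 : T i n ↔ T i (fun l => n l % pr (k + i)) := by
        rw [hT]
        show ((w i).1 ≤ a.a (pr (k + i)) n ∧ a.a (pr (k + i)) n < (w i).2) ↔
          ((w i).1 ≤ a.a (pr (k + i)) (fun l => n l % pr (k + i)) ∧ a.a (pr (k + i)) (fun l => n l % pr (k + i)) < (w i).2)
        rw [← a.per (pr (k + i)) n]
      show (if T i n then (1 : ℝ) else 0) = if T i (fun l => n l % pr (k + i)) then (1 : ℝ) else 0
      by_cases h5 : T i n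
      · rw [if_pos h5, if_pos (h4.1 h5)]
      · rw [if_neg h5, if_neg (fun h6 => h5 (h4.2 h6))])
  rw [← h2]
  unfold qk
  congr 1
  funext n
  have hB : Bx a s w k n ↔ ∀ i, T i n := by
    rw [hT]
    rfl
  by_cases h : ∀ i, T i n
  · rw [if_pos (hB.2 h)]
    exact (prod_eq_one fun i _ => if_pos (h i)).symm
  · rw [if_neg (fun h' => h (hB.1 h'))]
    push Not at h
    obtain ⟨i, hi⟩ := h
    symm
    exact prod_eq_zero (mem_univ i) (if_neg hi)

open Classical in
/-- the number of the indices with the conditions -/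
noncomputable def cnt {d : ℕ} (a : Ang d) (s : ℕ) (w : Fin s → ℝ × ℝ) (n : ℕ) (m : Fin d → ℕ) : ℕ :=
  ((range n).filter (fun k => Bx a s w k m)).card

/-- the expected number -/
noncomputable def ex {d : ℕ} (a : Ang d) (s : ℕ) (w : Fin s → ℝ × ℝ) (n : ℕ) : ℝ := ∑ k ∈ range n, Pr d (qk s k) (Bx a s w k)

open Classical in
theorem boxes {d : ℕ} (a : Ang d) (hd : 1 ≤ d) (b s : ℕ) (hb : 2 ≤ b) (hs : 1 ≤ s) (δ : ℝ) (hδ : 0 < δ) (A : ℝ) : ∃ c : ℝ, 0 < c ∧ ∃ y₀ : ℕ,
    ∀ (r K : Fin d → ℕ) (y : ℕ), (∀ i, 2 * r i ≤ K i) → y₀ ≤ y →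
    ∀ N : Fin d → ℕ, (∀ i, N i < b ^ K i) → ∀ f : Fin d → ℕ → ℕ, (∀ i j, f i j < b ∧ f i j ≠ N i / b ^ j % b) →
    ∀ Ex ⊆ Fintype.piFinset (fun i => powersetCard (r i) (range (K i))),
    (∀ S ∈ Ex, ∃ n : ℕ, y ≤ n ∧ (∀ i, Real.log n ≤ c * r i) ∧ ∃ w : Fin s → ℝ × ℝ,
      (n : ℝ) ^ (1 / 2 + δ) < |(cnt a s w n (fun i => change b (K i) (N i) (f i) (S i)) : ℝ) - ex a s w n|) →
    (Ex.card : ℝ) ≤ (y : ℝ) ^ (-A) * ∏ i, ((K i).choose (r i) : ℝ) := by
  have hsr : (1 : ℝ) ≤ s := by exact_mod_cast hs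
  obtain ⟨c, hc, x₀, h⟩ := law2 b d hb hd (δ / (6 * s)) |A| (a.e * 2 * s + 3) (by positivity)
  have hev : ∀ᶠ n : ℕ in atTop, (s : ℝ) ≤ (n : ℝ) ^ (δ / 2) := by
    have h1 : Tendsto (fun x : ℝ => x ^ (δ / 2)) atTop atTop := tendsto_rpow_atTop (by positivity)
    exact (h1.comp tendsto_natCast_atTop_atTop).eventually (eventually_ge_atTop _)
  obtain ⟨n₁, hn₁⟩ := eventually_atTop.1 hev
  refine ⟨c / (3 * s), by positivity, x₀ + n₁ + 16 * s + 16, fun r K y hrK hy N hN f hf Ex hEx hExb => ?_⟩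
  have hyr : (1 : ℝ) ≤ y := by exact_mod_cast (by omega : 1 ≤ y)
  -- the parameters
  obtain ⟨Λ, hΛ⟩ : ∃ Λ : ℕ → Finset (ℕ × ℕ × (Fin s → ℝ × ℝ)), Λ = fun x => if x < s + 3 then ∅ else
      (range (x + 1)) ×ˢ ((range s) ×ˢ (Fintype.piFinset (fun _ : Fin s => (insert (2 : ℝ) (a.W x)) ×ˢ (insert (2 : ℝ) (a.W x))))) := ⟨_, rfl⟩
  have hmain := h r K y hrK (by omega) N hN f hf (ℕ × ℕ × (Fin s → ℝ × ℝ)) Λ ?_ ℕ
    (fun x l => (range l.1).filter (fun k => k % s = l.2.1 ∧ qk s k ≤ x)) (fun _ k => qk s k) ?_ ?_ (fun l k m => Bx a s l.2.2 k m) ?_ Ex hEx ?_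
  · refine hmain.trans ?_
    apply mul_le_mul_of_nonneg_right _ (prod_nonneg fun i _ => Nat.cast_nonneg _)
    apply Real.rpow_le_rpow_of_exponent_le hyr
    have := le_abs_self A
    linarith
  · intro x _
    rw [hΛ]
    show (((if x < s + 3 then ∅ else
      (range (x + 1)) ×ˢ ((range s) ×ˢ (Fintype.piFinset (fun _ : Fin s => (insert (2 : ℝ) (a.W x)) ×ˢ (insert (2 : ℝ) (a.W x)))))) :
        Finset (ℕ × ℕ × (Fin s → ℝ × ℝ))).card : ℝ) ≤ _
    split_ifs with hx
    · rw [card_empty, Nat.cast_zero]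
      positivity
    · push Not at hx
      have hxr : (3 : ℝ) ≤ x := by exact_mod_cast (by omega : 3 ≤ x)
      have hsx : (s : ℝ) ≤ x := by exact_mod_cast (by omega : s ≤ x)
      rw [card_product, card_product, card_range, card_range, Fintype.card_piFinset_const, card_product]
      push_cast
      have hW : ((insert (2 : ℝ) (a.W x)).card : ℝ) ≤ (x : ℝ) ^ a.e := by
        have h1 : ((insert (2 : ℝ) (a.W x)).card : ℝ) ≤ (a.W x).card + 1 := by exact_mod_cast card_insert_le _ _
        exact h1.trans (a.card x (by omega))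
      have e1 : (((insert (2 : ℝ) (a.W x)).card : ℝ) * ((insert (2 : ℝ) (a.W x)).card : ℝ)) ^ s ≤ ((x : ℝ) ^ a.e * (x : ℝ) ^ a.e) ^ s := by
        gcongr
      have e2 : (x : ℝ) ^ ((a.e : ℝ) * 2 * s + 3) = (x * x) * (x * ((x : ℝ) ^ a.e * (x : ℝ) ^ a.e) ^ s) := by
        have : ((a.e : ℝ) * 2 * s + 3) = ((a.e * 2 * s + 3 : ℕ) : ℝ) := by push_cast; ring
        rw [this, Real.rpow_natCast]
        ring
      rw [e2]
      have e3 : (x : ℝ) + 1 ≤ x * x := by nlinarith
      apply mul_le_mul e3 _ (by positivity) (by positivity)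
      apply mul_le_mul hsx e1 (by positivity) (by positivity)
  · intro x l _ k hk
    rw [mem_filter] at hk
    exact ⟨qk_pos s k, hk.2.2⟩
  · intro x l _ k hk k' hk' hne
    rw [mem_filter] at hk hk'
    exact qk_cop s k k' (hk.2.1.trans hk'.2.1.symm) hne
  · intro x l _ k _ m
    exact Bx_per a s l.2.2 k m
  · intro S hS
    obtain ⟨n, hyn, hnr, w, hlt⟩ := hExb S hS
    obtain ⟨m, hm⟩ : ∃ m : Fin d → ℕ, m = fun i => change b (K i) (N i) (f i) (S i) := ⟨_, rfl⟩
    rw [← hm] at hlt
    have hn16 : 16 * s + 16 ≤ n := by omega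
    have hnr16 : (16 : ℝ) * s + 16 ≤ n := by exact_mod_cast hn16
    have hn0 : (0 : ℝ) < n := by linarith
    have hn1 : (1 : ℝ) ≤ n := by linarith
    obtain ⟨x, hx⟩ : ∃ x, x = n ^ (3 * s) := ⟨_, rfl⟩
    have hxr : (x : ℝ) = (n : ℝ) ^ (3 * s) := by rw [hx]; push_cast; ring
    have hnx : n ≤ x := by
      rw [hx]
      exact Nat.le_self_pow (by omega) n
    have hq : ∀ k ∈ range n, qk s k ≤ x := by
      intro k hk
      rw [mem_range] at hk
      unfold qk
      calc ∏ i : Fin s, pr (k + i) ≤ ∏ _i : Fin s, n ^ 3 := by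
            apply prod_le_prod'
            intro i _
            refine (Pool.Agent.TH862.EA.nth_prime_le (k + i)).trans ?_
            have h1 : k + i + 1 ≤ n + s := by have := i.isLt; omega
            have h2 : n + s ≤ 2 * n := by omega
            calc 4 * (k + i + 1) ^ 2 ≤ 4 * (2 * n) ^ 2 := Nat.mul_le_mul_left 4 (Nat.pow_le_pow_left (h1.trans h2) 2)
              _ = 16 * n ^ 2 := by ring
              _ ≤ n * n ^ 2 := Nat.mul_le_mul_right _ (by omega)
              _ = n ^ 3 := by ring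
        _ = x := by rw [prod_const, card_univ, Fintype.card_fin, hx, ← pow_mul]
    -- a box with bounds in a finite set
    have hend : ∀ i : Fin s, ∃ w' ∈ (insert (2 : ℝ) (a.W x)) ×ˢ (insert (2 : ℝ) (a.W x)), ∀ p n, p.Prime → p ≤ x →
        (((w i).1 ≤ a.a p n ∧ a.a p n < (w i).2) ↔ (w'.1 ≤ a.a p n ∧ a.a p n < w'.2)) := by
      intro i
      obtain ⟨u, hu, hu2⟩ := a.end_pt x (w i).1
      obtain ⟨v, hv, hv2⟩ := a.end_pt x (w i).2
      refine ⟨(u, v), mem_product.2 ⟨hu, hv⟩, fun p n hp hpx => ?_⟩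
      rw [hu2 p n hp hpx, ← not_le, hv2 p n hp hpx, not_le]
    choose w' hw' hw'2 using hend
    have hBx : ∀ k ∈ range n, ∀ m : Fin d → ℕ, Bx a s w k m ↔ Bx a s w' k m := by
      intro k hk m
      unfold Bx
      apply forall_congr'
      intro i
      exact hw'2 i (pr (k + i)) m (pr_prime _) ((pr_le_qk s k i).trans (hq k hk))
    have hcnt : cnt a s w n m = cnt a s w' n m := by
      unfold cnt
      congr 1
      apply filter_congr
      intro k hk
      exact hBx k hk m
    have hex : ex a s w n = ex a s w' n := by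
      unfold ex
      refine sum_congr rfl fun k hk => ?_
      congr 1
      funext m
      exact propext (hBx k hk m)
    rw [hcnt, hex] at hlt
    -- the classes modulo s
    have hclass : ∀ t ∈ range s, ((range n).filter (fun k => k % s = t ∧ qk s k ≤ x)) = (range n).filter (fun k => k % s = t) := by
      intro t _
      apply filter_congr
      intro k hk
      exact ⟨fun h => h.1, fun h => ⟨h, hq k hk⟩⟩
    by_contra hcon
    push Not at hcon
    have hmem : ∀ t ∈ range s, (n, t, w') ∈ Λ x := by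
      intro t ht
      rw [hΛ]
      show (n, t, w') ∈ (if x < s + 3 then ∅ else
        (range (x + 1)) ×ˢ ((range s) ×ˢ (Fintype.piFinset (fun _ : Fin s => (insert (2 : ℝ) (a.W x)) ×ˢ (insert (2 : ℝ) (a.W x))))))
      rw [if_neg (by omega), mem_product, mem_product, mem_range]
      refine ⟨?_, ht, ?_⟩
      · show n < x + 1
        omega
      · rw [Fintype.mem_piFinset]
        exact hw'
    have hlogx : ∀ i, Real.log x ≤ c * r i := by
      intro i
      rw [hxr, Real.log_pow]
      have h1 := hnr i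
      push_cast
      calc (3 * (s : ℝ)) * Real.log n ≤ (3 * s) * (c / (3 * s) * r i) := mul_le_mul_of_nonneg_left h1 (by positivity)
        _ = c * r i := by field_simp
    have hpart : ∀ t ∈ range s, |((((range n).filter (fun k => k % s = t)).filter (fun k => Bx a s w' k m)).card : ℝ) -
        ∑ k ∈ (range n).filter (fun k => k % s = t), Pr d (qk s k) (Bx a s w' k)| ≤ Real.sqrt n * (n : ℝ) ^ (δ / 2) := by
      intro t ht
      have h1 := hcon x (by omega) hlogx (n, t, w') (hmem t ht)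
      simp only at h1
      rw [hclass t ht, ← hm] at h1
      refine h1.trans ?_
      apply mul_le_mul _ _ (by positivity) (Real.sqrt_nonneg _)
      · apply Real.sqrt_le_sqrt
        apply max_le hn1
        calc ∑ k ∈ (range n).filter (fun k => k % s = t), Pr d (qk s k) (Bx a s w' k) ≤ ∑ _k ∈ (range n).filter (fun k => k % s = t), (1 : ℝ) :=
              sum_le_sum fun k _ => Pr_le_one _ _ _
          _ = (((range n).filter (fun k => k % s = t)).card : ℝ) := by rw [sum_const, nsmul_eq_mul, mul_one]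
          _ ≤ n := by
              have := card_filter_le (range n) (fun k => k % s = t)
              rw [card_range] at this
              exact_mod_cast this
      · rw [hxr, ← Real.rpow_natCast, ← Real.rpow_mul hn0.le]
        apply Real.rpow_le_rpow_of_exponent_le hn1
        push_cast
        have : 3 * (s : ℝ) * (δ / (6 * s)) = δ / 2 := by field_simp; ring
        rw [this]
    have hsum : |(cnt a s w' n m : ℝ) - ex a s w' n| ≤ s * (Real.sqrt n * (n : ℝ) ^ (δ / 2)) := by
      have h1 : (cnt a s w' n m : ℝ) - ex a s w' n = ∑ t ∈ range s, (((((range n).filter (fun k => k % s = t)).filter (fun k => Bx a s w' k m)).card : ℝ) -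
          ∑ k ∈ (range n).filter (fun k => k % s = t), Pr d (qk s k) (Bx a s w' k)) := by
        rw [sum_sub_distrib]
        congr 1
        · unfold cnt
          have h2 : ((range n).filter (fun k => Bx a s w' k m)).card =
              ∑ t ∈ range s, (((range n).filter (fun k => Bx a s w' k m)).filter (fun k => k % s = t)).card :=
            card_eq_sum_card_fiberwise (fun k _ => mem_coe.2 (mem_range.2 (Nat.mod_lt _ (by omega))))
          rw [h2]
          push_cast
          refine sum_congr rfl fun t _ => ?_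
          rw [filter_filter, filter_filter]
          congr 2
          apply filter_congr
          intro k _
          exact and_comm
        · unfold ex
          rw [← sum_fiberwise_of_maps_to (s := range n) (t := range s) (g := fun k => k % s) (fun k _ => mem_range.2 (Nat.mod_lt _ (by omega)))]
      rw [h1]
      refine (abs_sum_le_sum_abs _ _).trans ((sum_le_sum hpart).trans ?_)
      rw [sum_const, card_range, nsmul_eq_mul]
    have h9 : s * (Real.sqrt n * (n : ℝ) ^ (δ / 2)) ≤ (n : ℝ) ^ (1 / 2 + δ) := by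
      have e1 : (n : ℝ) ^ (1 / 2 + δ) = (n : ℝ) ^ (δ / 2) * (Real.sqrt n * (n : ℝ) ^ (δ / 2)) := by
        rw [Real.sqrt_eq_rpow, ← Real.rpow_add hn0, ← Real.rpow_add hn0]
        congr 1
        ring
      rw [e1]
      apply mul_le_mul_of_nonneg_right (hn₁ n (by omega)) (by positivity)
    linarith

end Pool.Agent.TH894.NF
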