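import Pool.Agent.TH894.NF1

set_option autoImplicit false

/-! The case of one number. -/

namespace Pool.Agent.TH894.NF
open Finset Filter
open Pool.Agent.TH894.NE
open Pool.Agent.TH894.ND
open Pool.Agent.TH894.SM (change change_eq)

/-- the case of one number -/
theorem boxes1 (a : Ang 1) (b s : ℕ) (hb : 2 ≤ b) (hs : 1 ≤ s) (δ : ℝ) (hδ : 0 < δ) (A : ℝ) : ∃ c : ℝ, 0 < c ∧ ∃ y₀ : ℕ,
    ∀ r K y : ℕ, 2 * r ≤ K → y₀ ≤ y → ∀ N : ℕ, N < b ^ K → ∀ f : ℕ → ℕ, (∀ j, f j < b ∧ f j ≠ N / b ^ j % b) →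
    ∀ Ex ⊆ powersetCard r (range K), (∀ S ∈ Ex, ∃ n : ℕ, y ≤ n ∧ Real.log n ≤ c * r ∧ ∃ w : Fin s → ℝ × ℝ,
      (n : ℝ) ^ (1 / 2 + δ) < |(cnt a s w n (fun _ => change b K N f S) : ℝ) - ex a s w n|) →
    (Ex.card : ℝ) ≤ (y : ℝ) ^ (-A) * (K.choose r : ℝ) := by
  classical
  obtain ⟨c, hc, y₀, h⟩ := boxes a le_rfl b s hb hs δ hδ A
  refine ⟨c, hc, y₀, fun r K y hrK hy N hN f hf Ex hEx hExb => ?_⟩
  have h1 := h (fun _ => r) (fun _ => K) y (fun _ => hrK) hy (fun _ => N) (fun _ => hN) (fun _ => f) (fun _ => hf)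
    (Ex.image (fun S _ => S)) ?_ ?_
  · rw [card_image_of_injective] at h1
    · simpa using h1
    · intro S S' hSS
      exact congrFun hSS 0
  · intro S hS
    rw [mem_image] at hS
    obtain ⟨S', hS', rfl⟩ := hS
    rw [Fintype.mem_piFinset]
    intro _
    exact hEx hS'
  · intro S hS
    rw [mem_image] at hS
    obtain ⟨S', hS', rfl⟩ := hS
    obtain ⟨n, hyn, hn, w, hw⟩ := hExb S' hS'
    exact ⟨n, hyn, fun _ => hn, w, hw⟩

end Pool.Agent.TH894.NF
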