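import Pool.Agent.TH894.NF2
import Pool.Agent.TH375.KL.Core

set_option autoImplicit false

/-! The signs of the Kloosterman sums at consecutive primes. -/

namespace Pool.Agent.TH894.NF
open Finset Filter
open Pool.Agent.TH894.NE
open Pool.Agent.TH375.KL (rk KK sign_mean)

/-- The Kloosterman sum `S(a, 1; p)`. -/
noncomputable def kls (p a : ℕ) : ℝ :=
  ∑ x ∈ Ico 1 p, Real.cos (2 * Real.pi * ((((a : ZMod p) * (x : ZMod p) + (x : ZMod p)⁻¹).val : ℕ) : ℝ) / (p : ℝ))

lemma kls_mod (p a : ℕ) : kls p (a % p) = kls p a := by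
  unfold kls
  rw [ZMod.natCast_mod]

lemma kls_eq {p : ℕ} [hp : Fact p.Prime] (a : ℕ) : kls p a = rk p (a : ZMod p) 1 := by
  unfold kls rk KK Pool.Agent.Helper916.Kl
  rw [Complex.re_sum]
  have h1 : ∀ z : ZMod p, (ZMod.stdAddChar ((a : ZMod p) * z + 1 * z⁻¹) : ℂ).re =
      Real.cos (2 * Real.pi * ((((a : ZMod p) * z + z⁻¹).val : ℕ) : ℝ) / (p : ℝ)) := by
    intro z
    rw [one_mul, ZMod.stdAddChar_apply, ZMod.toCircle_apply]
    have h2 : (2 * (Real.pi : ℂ) * Complex.I * (((a : ZMod p) * z + z⁻¹).val : ℂ) / (p : ℂ)) =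
        ((2 * Real.pi * ((((a : ZMod p) * z + z⁻¹).val : ℕ) : ℝ) / (p : ℝ) : ℝ) : ℂ) * Complex.I := by
      push_cast
      ring
    rw [h2, Complex.exp_ofReal_mul_I_re]
  rw [Finset.sum_congr rfl fun z _ => h1 z]
  refine Finset.sum_nbij' (fun x => (x : ZMod p)) ZMod.val ?_ ?_ ?_ ?_ ?_
  · intro x hx
    rw [Finset.mem_Ico] at hx
    rw [Finset.mem_erase]
    refine ⟨?_, Finset.mem_univ _⟩
    intro h0
    rw [ZMod.natCast_eq_zero_iff] at h0
    exact absurd (Nat.le_of_dvd hx.1 h0) (not_le.2 hx.2)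
  · intro z hz
    rw [Finset.mem_erase] at hz
    rw [Finset.mem_Ico]
    exact ⟨Nat.pos_of_ne_zero fun h0 => hz.1 ((ZMod.val_eq_zero z).1 h0), ZMod.val_lt z⟩
  · intro x hx
    rw [Finset.mem_Ico] at hx
    exact ZMod.val_cast_of_lt hx.2
  · intro z _
    exact ZMod.natCast_zmod_val z
  · intro x _
    rfl

open Classical in
/-- the sign as a function with three values -/
noncomputable def sg (η : ℝ) (p a : ℕ) : ℝ :=
  if p ∣ a then 1 / 2 else if η * Real.sqrt p < kls p a then 1 else if η * Real.sqrt p < -kls p a then 0 else 1 / 2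

/-- the signs as a function with few values -/
noncomputable def sgA (η : ℝ) : Ang 1 where
  a := fun p m => sg η p (m 0)
  per := by
    intro p m
    unfold sg
    simp only [kls_mod]
    have h : p ∣ m 0 % p ↔ p ∣ m 0 := Nat.dvd_mod_iff (dvd_refl p)
    by_cases h1 : p ∣ m 0
    · rw [if_pos h1, if_pos (h.2 h1)]
    · rw [if_neg h1, if_neg (fun h2 => h1 (h.1 h2))]
  le := by
    intro p m
    unfold sg
    split_ifs <;> norm_num
  W := fun _ => {0, 1 / 2, 1}
  mem := by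
    intro x p m _ _
    simp only [mem_insert, mem_singleton]
    unfold sg
    split_ifs <;> simp
  e := 2
  card := by
    intro x hx
    have h1 : (({0, 1 / 2, 1} : Finset ℝ).card : ℝ) ≤ 3 := by exact_mod_cast card_le_three
    have h2 : (3 : ℝ) ≤ x := by exact_mod_cast hx
    nlinarith

/-- the box of a pattern of signs -/
noncomputable def bxs {s : ℕ} (σ : Fin s → ℝ) : Fin s → ℝ × ℝ := fun i => if σ i = 1 then (3 / 4, 2) else (-1, 1 / 4)

lemma sg_iff (η : ℝ) (hη : 0 ≤ η) (σ : ℝ) (hσ : σ = 1 ∨ σ = -1) (p a : ℕ) :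
    ((if σ = 1 then ((3 / 4 : ℝ), (2 : ℝ)) else (-1, 1 / 4)).1 ≤ sg η p a ∧ sg η p a < (if σ = 1 then ((3 / 4 : ℝ), (2 : ℝ)) else (-1, 1 / 4)).2) ↔
      (¬ p ∣ a ∧ η * Real.sqrt p < σ * kls p a) := by
  have hs := Real.sqrt_nonneg (p : ℝ)
  have hη2 : 0 ≤ η * Real.sqrt p := mul_nonneg hη hs
  unfold sg
  rcases hσ with h | h
  · rw [h, if_pos rfl, one_mul]
    by_cases h1 : p ∣ a
    · rw [if_pos h1]
      constructor
      · rintro ⟨h2, _⟩
        norm_num at h2
      · rintro ⟨h2, _⟩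
        exact absurd h1 h2
    · rw [if_neg h1]
      by_cases h2 : η * Real.sqrt p < kls p a
      · rw [if_pos h2]
        simp only [h1, h2, not_false_eq_true, and_self, iff_true]
        norm_num
      · rw [if_neg h2]
        constructor
        · rintro ⟨h3, _⟩
          split_ifs at h3 <;> norm_num at h3
        · rintro ⟨_, h3⟩
          exact absurd h3 h2
  · have hne : ¬ ((-1 : ℝ) = 1) := by norm_num
    rw [h, if_neg hne, neg_one_mul]
    by_cases h1 : p ∣ a
    · rw [if_pos h1]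
      constructor
      · rintro ⟨_, h2⟩
        norm_num at h2
      · rintro ⟨h2, _⟩
        exact absurd h1 h2
    · rw [if_neg h1]
      by_cases h2 : η * Real.sqrt p < kls p a
      · rw [if_pos h2]
        constructor
        · rintro ⟨_, h3⟩
          norm_num at h3
        · rintro ⟨_, h3⟩
          linarith
      · rw [if_neg h2]
        by_cases h3 : η * Real.sqrt p < -kls p a
        · rw [if_pos h3]
          simp only [h1, h3, not_false_eq_true, and_self, iff_true]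
          norm_num
        · rw [if_neg h3]
          constructor
          · rintro ⟨_, h4⟩
            norm_num at h4
          · rintro ⟨_, h4⟩
            exact absurd h4 h3

open Classical in
/-- the proportion of the residues with a given sign -/
lemma sg_prop (η : ℝ) (hη : 0 ≤ η) (σ : ℝ) (hσ : σ = 1 ∨ σ = -1) (p : ℕ) (hp : p.Prime) :
    1 / 4 - η - 1 / Real.sqrt p - 1 / p ≤ Pr 1 p (fun m => ¬ p ∣ m 0 ∧ η * Real.sqrt p < σ * kls p (m 0)) := by
  haveI : Fact p.Prime := ⟨hp⟩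
  haveI : NeZero p := ⟨hp.ne_zero⟩
  have hp0 : (0 : ℝ) < p := by exact_mod_cast hp.pos
  have hσ2 : σ ^ 2 = 1 := by rcases hσ with h | h <;> rw [h] <;> norm_num
  have h1 : (1 / 4 - η - 1 / Real.sqrt p) * p ≤ ∑ a : ZMod p, if η * Real.sqrt p < σ * rk p a 1 then (1 : ℝ) else 0 := by
    have h := sign_mean (p := p) hσ2 hη
    convert h
  unfold Pr
  rw [pow_one, le_div_iff₀ hp0]
  -- the sum over the classes
  have h2 : (∑ a : ZMod p, if η * Real.sqrt p < σ * rk p a 1 then (1 : ℝ) else 0) ≤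
      (((box 1 p).filter (fun m => ¬ p ∣ m 0 ∧ η * Real.sqrt p < σ * kls p (m 0))).card : ℝ) + 1 := by
    rw [← sum_filter, sum_const, nsmul_eq_mul, mul_one]
    have h3 : ((univ : Finset (ZMod p)).filter (fun a => η * Real.sqrt p < σ * rk p a 1)).card ≤
        (insert (0 : ZMod p) (((box 1 p).filter (fun m => ¬ p ∣ m 0 ∧ η * Real.sqrt p < σ * kls p (m 0))).image
          (fun m => ((m 0 : ℕ) : ZMod p)))).card := by
      apply card_le_card
      intro a ha
      rw [mem_filter] at ha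
      rw [mem_insert]
      by_cases h0 : a = 0
      · left
        exact h0
      · right
        rw [mem_image]
        refine ⟨fun _ => a.val, ?_, ?_⟩
        · rw [mem_filter, mem_box]
          refine ⟨fun _ => ZMod.val_lt a, ?_, ?_⟩
          · intro h4
            apply h0
            rw [← ZMod.natCast_zmod_val a, ZMod.natCast_eq_zero_iff]
            exact h4
          · rw [kls_eq, ZMod.natCast_zmod_val]
            exact ha.2
        · show ((a.val : ℕ) : ZMod p) = a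
          exact ZMod.natCast_zmod_val a
    have h4 := h3.trans ((card_insert_le _ _).trans (Nat.add_le_add_right card_image_le 1))
    exact_mod_cast h4
  have h5 : (1 / 4 - η - 1 / Real.sqrt p - 1 / p) * (p : ℝ) = (1 / 4 - η - 1 / Real.sqrt p) * p - 1 := by
    field_simp
  rw [h5]
  have h6 := h1.trans h2
  have h7 : (1 / 4 - η - 1 / Real.sqrt p) * p - 1 ≤ (((box 1 p).filter (fun m => ¬ p ∣ m 0 ∧ η * Real.sqrt p < σ * kls p (m 0))).card : ℝ) := by
    linarith
  refine h7.trans (le_of_eq ?_)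
  congr!

lemma pow_diff (x y : ℝ) (hy : 0 ≤ y) (hyx : y ≤ x) (hx : x ≤ 1) (s : ℕ) : x ^ s - s * (x - y) ≤ y ^ s := by
  induction s with
  | zero => simp
  | succ s ih =>
    have h1 : y ^ s ≤ 1 := pow_le_one₀ hy (hyx.trans hx)
    have h2 : 0 ≤ y ^ s := by positivity
    have h3 : x ^ s ≤ 1 := pow_le_one₀ (hy.trans hyx) hx
    have h4 : 0 ≤ x ^ s := pow_nonneg (hy.trans hyx) s
    have h5 : y ^ s * x - y ^ s * (x - y) = y ^ (s + 1) := by ring
    have h6 : (x ^ s - s * (x - y)) * x ≤ y ^ s * x := mul_le_mul_of_nonneg_right ih (hy.trans hyx)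
    have h7 : (s : ℝ) * (x - y) * x ≤ s * (x - y) := by
      have : 0 ≤ (s : ℝ) * (x - y) := mul_nonneg (Nat.cast_nonneg _) (by linarith)
      nlinarith
    have h8 : y ^ s * (x - y) ≤ x - y := by nlinarith
    push_cast
    rw [pow_succ]
    nlinarith

/-- The signs at consecutive primes. -/
theorem signs (b s : ℕ) (hb : 2 ≤ b) (hs : 1 ≤ s) (η ε : ℝ) (hη : 0 ≤ η) (hη1 : η ≤ 1 / 4) (hε : 0 < ε) (A : ℝ) : ∃ c : ℝ, 0 < c ∧ ∃ y₀ : ℕ,
    ∀ r K y : ℕ, 2 * r ≤ K → y₀ ≤ y → ∀ N : ℕ, N < b ^ K → ∀ f : ℕ → ℕ, (∀ j, f j < b ∧ f j ≠ N / b ^ j % b) →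
    ∀ Ex ⊆ powersetCard r (range K), (∀ S ∈ Ex, ∃ n : ℕ, y ≤ n ∧ Real.log n ≤ c * r ∧ ∃ σ : Fin s → ℝ, (∀ i, σ i = 1 ∨ σ i = -1) ∧
      (((range n).filter (fun k => ∀ i : Fin s, ¬ pr (k + i) ∣ Pool.Agent.TH894.SM.change b K N f S ∧ η * Real.sqrt (pr (k + i)) <
        σ i * kls (pr (k + i)) (Pool.Agent.TH894.SM.change b K N f S))).card : ℝ) < ((1 / 4 - η) ^ s - ε) * n) →
    (Ex.card : ℝ) ≤ (y : ℝ) ^ (-A) * (K.choose r : ℝ) := by
  classical
  obtain ⟨c, hc, y₀, h⟩ := boxes1 (sgA η) b s hb hs (1 / 4) (by norm_num) A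
  have hsr : (1 : ℝ) ≤ s := by exact_mod_cast hs
  obtain ⟨ε₁, hε₁⟩ : ∃ ε₁, ε₁ = ε / (4 * s) := ⟨_, rfl⟩
  have hε₁0 : 0 < ε₁ := by rw [hε₁]; positivity
  obtain ⟨k₁, hk₁⟩ := exists_nat_ge ((2 / ε₁) ^ 2 + 2 / ε₁ + 1)
  have hev : ∀ᶠ n : ℕ in atTop, (4 / ε : ℝ) ≤ (n : ℝ) ^ (1 / 4 : ℝ) := by
    have h1 : Tendsto (fun x : ℝ => x ^ (1 / 4 : ℝ)) atTop atTop := tendsto_rpow_atTop (by norm_num)
    exact (h1.comp tendsto_natCast_atTop_atTop).eventually (eventually_ge_atTop _)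
  obtain ⟨n₁, hn₁⟩ := eventually_atTop.1 hev
  obtain ⟨n₂, hn₂⟩ := exists_nat_ge (4 * k₁ / ε)
  refine ⟨c, hc, y₀ + n₁ + n₂ + 1, fun r K y hrK hy N hN f hf Ex hEx hExb => ?_⟩
  refine h r K y hrK (by omega) N hN f hf Ex hEx ?_
  intro S hS
  obtain ⟨n, hyn, hn, σ, hσ, hlt⟩ := hExb S hS
  refine ⟨n, hyn, hn, bxs σ, ?_⟩
  obtain ⟨m, hm⟩ : ∃ m, m = Pool.Agent.TH894.SM.change b K N f S := ⟨_, rfl⟩
  rw [← hm] at hlt ⊢
  have hn0 : (0 : ℝ) < n := by exact_mod_cast (by omega : 0 < n)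
  -- the count
  have hcnt : cnt (sgA η) s (bxs σ) n (fun _ => m) = ((range n).filter (fun k => ∀ i : Fin s, ¬ pr (k + i) ∣ m ∧
      η * Real.sqrt (pr (k + i)) < σ i * kls (pr (k + i)) m)).card := by
    unfold cnt
    congr 1
    ext k
    rw [mem_filter, mem_filter]
    apply and_congr_right
    intro _
    unfold Bx bxs
    exact forall_congr' fun i => sg_iff η hη (σ i) (hσ i) (pr (k + i)) m
  -- the model
  have hex : ((1 / 4 - η) ^ s - ε / 4) * (n - k₁) ≤ ex (sgA η) s (bxs σ) n := by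
    unfold ex
    have h1 : ∀ k ∈ range n, 0 ≤ Pr 1 (qk s k) (Bx (sgA η) s (bxs σ) k) := fun k _ => Pr_nonneg _ _ _
    rcases Nat.lt_or_ge n k₁ with hlt' | hge
    · have hpos : (0 : ℝ) ≤ ∑ k ∈ range n, Pr 1 (qk s k) (Bx (sgA η) s (bxs σ) k) := sum_nonneg h1
      have h2 : (n : ℝ) - k₁ ≤ 0 := by
        have : (n : ℝ) < k₁ := by exact_mod_cast hlt'
        linarith
      by_cases h3 : 0 ≤ (1 / 4 - η) ^ s - ε / 4
      · exact (mul_nonpos_of_nonneg_of_nonpos h3 h2).trans hpos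
      · exfalso
        -- impossible, since `n` is large
        have h4 : (4 * k₁ / ε : ℝ) ≤ n := hn₂.trans (by exact_mod_cast (by omega : n₂ ≤ n))
        have h5 : (n : ℝ) < k₁ := by exact_mod_cast hlt'
        rw [div_le_iff₀ hε] at h4
        have h6 : 0 ≤ (1 / 4 - η) ^ s := pow_nonneg (by linarith) s
        have h7 : (0 : ℝ) < k₁ := by linarith
        push Not at h3
        have h8 : ((range n).filter (fun k => ∀ i : Fin s, ¬ pr (k + i) ∣ m ∧ η * Real.sqrt (pr (k + i)) < σ i * kls (pr (k + i)) m)).card < ((1 / 4 - η) ^ s - ε) * n := hlt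
        have h9 : (0 : ℝ) ≤ ((range n).filter (fun k => ∀ i : Fin s, ¬ pr (k + i) ∣ m ∧ η * Real.sqrt (pr (k + i)) < σ i * kls (pr (k + i)) m)).card := Nat.cast_nonneg _
        have h10 : ((1 / 4 - η) ^ s - ε) * n < 0 := mul_neg_of_neg_of_pos (by linarith) hn0
        linarith
    · have hsub : Ico k₁ n ⊆ range n := by
        intro k hk
        rw [mem_Ico] at hk
        exact mem_range.2 hk.2
      refine le_trans ?_ (sum_le_sum_of_subset_of_nonneg hsub fun k hk _ => h1 k hk)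
      have h2 : ∀ k ∈ Ico k₁ n, (1 / 4 - η) ^ s - ε / 4 ≤ Pr 1 (qk s k) (Bx (sgA η) s (bxs σ) k) := by
        intro k hk
        rw [mem_Ico] at hk
        rw [Pr_prod]
        by_cases hsm : 1 / 4 - η - ε₁ < 0
        · have h3 : 0 ≤ ∏ i : Fin s, Pr 1 (pr (k + i)) (fun n => (bxs σ i).1 ≤ (sgA η).a (pr (k + i)) n ∧ (sgA η).a (pr (k + i)) n < (bxs σ i).2) :=
            prod_nonneg fun i _ => Pr_nonneg _ _ _
          have h4 := pow_diff (1 / 4 - η) 0 le_rfl (by linarith) (by linarith) s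
          rw [zero_pow (by omega)] at h4
          have h5 : (s : ℝ) * (1 / 4 - η - 0) ≤ s * ε₁ := mul_le_mul_of_nonneg_left (by linarith) (by linarith)
          have h6 : (s : ℝ) * ε₁ = ε / 4 := by rw [hε₁]; field_simp
          linarith
        · push Not at hsm
          have h4 := pow_diff (1 / 4 - η) (1 / 4 - η - ε₁) hsm (by linarith) (by linarith) s
          have h6 : (s : ℝ) * (1 / 4 - η - (1 / 4 - η - ε₁)) = ε / 4 := by rw [hε₁]; field_simp; ring
          rw [h6] at h4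
          refine h4.trans ?_
          calc (1 / 4 - η - ε₁) ^ s = ∏ _i : Fin s, (1 / 4 - η - ε₁) := by rw [prod_const, card_univ, Fintype.card_fin]
            _ ≤ _ := by
              apply prod_le_prod (fun i _ => hsm)
              intro i _
              have h7 := sg_prop η hη (σ i) (hσ i) (pr (k + i)) (pr_prime _)
              have h8 : Pr 1 (pr (k + i)) (fun n => (bxs σ i).1 ≤ (sgA η).a (pr (k + i)) n ∧ (sgA η).a (pr (k + i)) n < (bxs σ i).2) =
                  Pr 1 (pr (k + i)) (fun m => ¬ pr (k + i) ∣ m 0 ∧ η * Real.sqrt (pr (k + i)) < σ i * kls (pr (k + i)) (m 0)) := by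
                congr 1
                funext m
                exact propext (sg_iff η hη (σ i) (hσ i) (pr (k + i)) (m 0))
              rw [h8]
              refine le_trans ?_ h7
              have h9 : k₁ ≤ pr (k + i) := by
                have : k + i ≤ pr (k + i) := (Nat.nth_strictMono Nat.infinite_setOfPred_prime).id_le (k + i)
                omega
              have h10 : (k₁ : ℝ) ≤ pr (k + i) := by exact_mod_cast h9
              obtain ⟨P, hP⟩ : ∃ P : ℝ, P = pr (k + i) := ⟨_, rfl⟩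
              rw [← hP] at h10 ⊢
              have h11 : (2 / ε₁) ^ 2 + 2 / ε₁ + 1 ≤ P := hk₁.trans h10
              have h12 : 0 < 2 / ε₁ := by positivity
              have h13 : 1 / P ≤ ε₁ / 2 := by
                rw [div_le_div_iff₀ (by nlinarith) (by norm_num)]
                have : 2 / ε₁ ≤ P := by nlinarith [sq_nonneg (2 / ε₁)]
                rw [div_le_iff₀ hε₁0] at this
                linarith
              have h14 : 2 / ε₁ ≤ Real.sqrt P := Real.le_sqrt_of_sq_le (by nlinarith)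
              have h15 : 1 / Real.sqrt P ≤ ε₁ / 2 := by
                rw [div_le_div_iff₀ (by linarith) (by norm_num)]
                rw [div_le_iff₀ hε₁0] at h14
                linarith
              linarith
      calc ((1 / 4 - η) ^ s - ε / 4) * (n - k₁) = ∑ _k ∈ Ico k₁ n, ((1 / 4 - η) ^ s - ε / 4) := by
            rw [sum_const, Nat.card_Ico, nsmul_eq_mul, Nat.cast_sub hge]
            ring
        _ ≤ _ := sum_le_sum h2
  rw [← hcnt] at hlt
  have e1 : (n : ℝ) ^ (1 / 2 + 1 / 4 : ℝ) ≤ ε / 4 * n := by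
    have h1 := hn₁ n (by omega)
    have h2 : (n : ℝ) = (n : ℝ) ^ (1 / 2 + 1 / 4 : ℝ) * (n : ℝ) ^ (1 / 4 : ℝ) := by
      rw [← Real.rpow_add hn0]
      norm_num
    have h3 : (0 : ℝ) < (n : ℝ) ^ (1 / 2 + 1 / 4 : ℝ) := Real.rpow_pos_of_pos hn0 _
    have h4 : (n : ℝ) ^ (1 / 2 + 1 / 4 : ℝ) * (4 / ε) ≤ n := by
      calc (n : ℝ) ^ (1 / 2 + 1 / 4 : ℝ) * (4 / ε) ≤ (n : ℝ) ^ (1 / 2 + 1 / 4 : ℝ) * (n : ℝ) ^ (1 / 4 : ℝ) := mul_le_mul_of_nonneg_left h1 h3.le
        _ = n := h2.symm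
    have h5 : (n : ℝ) ^ (1 / 2 + 1 / 4 : ℝ) = ε / 4 * ((n : ℝ) ^ (1 / 2 + 1 / 4 : ℝ) * (4 / ε)) := by field_simp
    rw [h5]
    exact mul_le_mul_of_nonneg_left h4 (by positivity)
  have e2 : (k₁ : ℝ) ≤ ε / 4 * n := by
    have h4 : (4 * k₁ / ε : ℝ) ≤ n := hn₂.trans (by exact_mod_cast (by omega : n₂ ≤ n))
    rw [div_le_iff₀ hε] at h4
    linarith
  have e3 : (1 / 4 - η) ^ s ≤ 1 := pow_le_one₀ (by linarith) (by linarith)
  have e4 : ((1 / 4 - η) ^ s - ε / 4) * k₁ ≤ ε / 4 * n := by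
    have hk0 : (0 : ℝ) ≤ k₁ := Nat.cast_nonneg _
    nlinarith
  rw [abs_sub_comm]
  refine lt_of_lt_of_le ?_ (le_abs_self _)
  nlinarith

end Pool.Agent.TH894.NF
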