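import Pool.Agent.TH894.ND9

set_option autoImplicit false

/-! Quadratic residues: the numbers obtained by few changes of digits. -/

namespace Pool.Agent.TH894.NG
open Finset Filter
open Pool.Agent.TH894.ND (mu mu_nonneg mu_le_one uniform_law card_zmod sum_inv)
open Pool.Agent.TH894.SM (change)

open Classical in
lemma sq_count (p : ℕ) [hp : Fact p.Prime] (hp2 : p ≠ 2) :
    (((univ : Finset (ZMod p)).filter (fun z => z ≠ 0 ∧ IsSquare z)).card : ℝ) = ((p : ℝ) - 1) / 2 ∧
    (((univ : Finset (ZMod p)).filter (fun z => ¬ IsSquare z)).card : ℝ) = ((p : ℝ) - 1) / 2 := by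
  have hchar : ringChar (ZMod p) ≠ 2 := by rwa [ZMod.ringChar_zmod_n]
  have h1 := quadraticChar_sum_zero (F := ZMod p) hchar
  have h2 : ∀ z : ZMod p, quadraticChar (ZMod p) z = (if z ≠ 0 ∧ IsSquare z then (1 : ℤ) else 0) - (if ¬ IsSquare z then (1 : ℤ) else 0) := by
    intro z
    rw [quadraticChar_apply, quadraticCharFun]
    by_cases h0 : z = 0
    · subst h0
      simp
    · by_cases h3 : IsSquare z
      · simp [h0, h3]
      · simp [h0, h3]
  rw [sum_congr rfl fun z _ => h2 z, sum_sub_distrib, ← sum_filter, ← sum_filter, sum_const, sum_const, nsmul_eq_mul, nsmul_eq_mul, mul_one, mul_one] at h1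
  have h3 : ((univ : Finset (ZMod p)).filter (fun z => z ≠ 0 ∧ IsSquare z)).card + ((univ : Finset (ZMod p)).filter (fun z => ¬ IsSquare z)).card + 1 = p := by
    have h4 : (univ : Finset (ZMod p)) = ((univ : Finset (ZMod p)).filter (fun z => z ≠ 0 ∧ IsSquare z) ∪ (univ : Finset (ZMod p)).filter (fun z => ¬ IsSquare z)) ∪ {0} := by
      ext z
      simp only [mem_univ, mem_union, mem_filter, mem_singleton, true_and, true_iff]
      by_cases h0 : z = 0
      · right; exact h0
      · left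
        by_cases h5 : IsSquare z
        · left; exact ⟨h0, h5⟩
        · right; exact h5
    have h5 : (univ : Finset (ZMod p)).card = p := by rw [card_univ, ZMod.card]
    rw [h4, card_union_of_disjoint, card_union_of_disjoint, card_singleton] at h5
    · exact h5
    · rw [disjoint_left]
      intro z hz hz'
      rw [mem_filter] at hz hz'
      exact hz'.2 hz.2.2
    · rw [disjoint_left]
      intro z hz hz'
      rw [mem_singleton] at hz'
      rw [mem_union, mem_filter, mem_filter] at hz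
      rcases hz with hz | hz
      · exact hz.2.1 hz'
      · apply hz.2
        rw [hz']
        exact ⟨0, by simp⟩
  have h4 : (((univ : Finset (ZMod p)).filter (fun z => z ≠ 0 ∧ IsSquare z)).card : ℝ) = ((univ : Finset (ZMod p)).filter (fun z => ¬ IsSquare z)).card := by
    have : (((univ : Finset (ZMod p)).filter (fun z => z ≠ 0 ∧ IsSquare z)).card : ℤ) = ((univ : Finset (ZMod p)).filter (fun z => ¬ IsSquare z)).card := by linarith
    exact_mod_cast this
  have h5 : (((univ : Finset (ZMod p)).filter (fun z => z ≠ 0 ∧ IsSquare z)).card : ℝ) + ((univ : Finset (ZMod p)).filter (fun z => ¬ IsSquare z)).card + 1 = p := by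
    exact_mod_cast h3
  constructor <;> linarith

/-- multiplication by a unit -/
lemma mul_count (p : ℕ) [hp : Fact p.Prime] (B : ZMod p) (hB : B ≠ 0) (T : ZMod p → Prop) [DecidablePred T] :
    ((univ : Finset (ZMod p)).filter (fun z => T (B * z))).card = ((univ : Finset (ZMod p)).filter T).card := by
  apply card_bij (fun z _ => B * z)
  · intro z hz
    rw [mem_filter] at hz ⊢
    exact ⟨mem_univ _, hz.2⟩
  · intro z _ z' _ h
    exact mul_left_cancel₀ hB h
  · intro w hw
    rw [mem_filter] at hw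
    refine ⟨B⁻¹ * w, ?_, ?_⟩
    · rw [mem_filter]
      refine ⟨mem_univ _, ?_⟩
      rw [mul_inv_cancel_left₀ hB]
      exact hw.2
    · rw [mul_inv_cancel_left₀ hB]

/-- the condition -/
def Tq (i : ℤ × Bool) (p : ℕ) (z : ZMod p) : Prop :=
  if i.2 then (i.1 : ZMod p) * z ≠ 0 ∧ IsSquare ((i.1 : ZMod p) * z) else ¬ IsSquare ((i.1 : ZMod p) * z)

open Classical in
lemma mu_q (i : ℤ × Bool) (p : ℕ) [hp : Fact p.Prime] : |mu p (Tq i p) - 1 / 2| ≤ (if (p : ℤ) ∣ i.1 then 1 else 0) + 1 / p + (if p = 2 then 1 else 0) := by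
  have hp0 : (0 : ℝ) < p := by exact_mod_cast hp.out.pos
  have h0 := mu_nonneg p (Tq i p)
  have h1 := mu_le_one p (Tq i p)
  have htriv : |mu p (Tq i p) - 1 / 2| ≤ 1 := by
    rw [abs_le]
    constructor <;> linarith
  have hpi : (0 : ℝ) ≤ 1 / p := by positivity
  by_cases h2 : p = 2
  · rw [if_pos h2]
    have : (0 : ℝ) ≤ if (p : ℤ) ∣ i.1 then 1 else 0 := by split_ifs <;> norm_num
    linarith
  · rw [if_neg h2]
    by_cases h3 : (p : ℤ) ∣ i.1
    · rw [if_pos h3]
      linarith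
    · rw [if_neg h3]
      have hB : ((i.1 : ℤ) : ZMod p) ≠ 0 := by
        intro h
        exact h3 ((ZMod.intCast_zmod_eq_zero_iff_dvd _ _).1 h)
      obtain ⟨s1, s2⟩ := sq_count p h2
      have hmu : mu p (Tq i p) = ((p : ℝ) - 1) / 2 / p := by
        unfold mu
        congr 1
        rw [card_zmod p (Tq i p)]
        unfold Tq
        by_cases h4 : i.2 = true
        · simp only [h4, if_true]
          rw [← s1]
          have := mul_count p _ hB (fun w => w ≠ 0 ∧ IsSquare w)
          exact_mod_cast this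
        · simp only [h4]
          rw [← s2]
          have := mul_count p _ hB (fun w => ¬ IsSquare w)
          simp only [Bool.false_eq_true, if_false]
          exact_mod_cast this
      rw [hmu]
      have h5 : ((p : ℝ) - 1) / 2 / p - 1 / 2 = -(1 / (2 * p)) := by
        field_simp
        ring
      rw [h5, abs_neg, abs_of_nonneg (by positivity)]
      have h6 : 1 / (2 * (p : ℝ)) ≤ 1 / p := one_div_le_one_div_of_le hp0 (by linarith)
      linarith

/-- the number of the primes dividing a number -/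
lemma dvd_count (P : Finset ℕ) (hP : ∀ p ∈ P, p.Prime) (B : ℤ) (hB : B ≠ 0) : ((P.filter (fun p : ℕ => (p : ℤ) ∣ B)).card : ℝ) * Real.log 2 ≤ Real.log |(B : ℝ)| := by
  classical
  obtain ⟨Q, hQ⟩ : ∃ Q, Q = P.filter (fun p : ℕ => (p : ℤ) ∣ B) := ⟨_, rfl⟩
  rw [← hQ]
  have h1 : ∏ p ∈ Q, p ∣ B.natAbs := by
    apply Finset.prod_primes_dvd
    · intro p hp
      rw [hQ, mem_filter] at hp
      exact (hP p hp.1).prime
    · intro p hp
      rw [hQ, mem_filter] at hp
      exact Int.natCast_dvd.1 hp.2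
  have h2 : 2 ^ Q.card ≤ ∏ p ∈ Q, p := by
    apply Finset.pow_card_le_prod
    intro p hp
    rw [hQ, mem_filter] at hp
    exact (hP p hp.1).two_le
  have h3 : 2 ^ Q.card ≤ B.natAbs := h2.trans (Nat.le_of_dvd (Int.natAbs_pos.2 hB) h1)
  have h4 : (2 : ℝ) ^ Q.card ≤ |(B : ℝ)| := by
    have : (((2 : ℕ) ^ Q.card : ℕ) : ℝ) ≤ ((B.natAbs : ℕ) : ℝ) := by exact_mod_cast h3
    push_cast at this
    rwa [Nat.cast_natAbs, Int.cast_abs] at this
  have h5 := Real.log_le_log (by positivity) h4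
  rwa [Real.log_pow] at h5

open Classical in
/-- the counts -/
noncomputable def cq (P : Finset ℕ) (i : ℤ × Bool) (m : ℕ) : ℕ := (P.filter (fun p : ℕ => Tq i p (m : ZMod p))).card

/-- quadratic residues and nonresidues -/
theorem quad_law (b : ℕ) (hb : 2 ≤ b) (δ : ℝ) (hδ : 0 < δ) (A A' : ℕ) : ∃ c : ℝ, 0 < c ∧ ∃ x₀ : ℕ, ∀ r K y : ℕ, 2 * r ≤ K → x₀ ≤ y →
    ∀ N : ℕ, N < b ^ K → ∀ f : ℕ → ℕ, (∀ j, f j < b ∧ f j ≠ N / b ^ j % b) →
    ∀ P : ℕ → Finset ℕ, (∀ x, ∀ p ∈ P x, p.Prime ∧ p ≤ x) →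
    ∀ Ex ⊆ powersetCard r (range K), (∀ S ∈ Ex, ∃ x : ℕ, y ≤ x ∧ Real.log x ≤ c * r ∧ ∃ i : ℤ × Bool, i.1 ≠ 0 ∧ |i.1| ≤ (x : ℤ) ^ A' ∧
      Real.sqrt (P x).card * (x : ℝ) ^ δ < |(cq (P x) i (change b K N f S) : ℝ) - (P x).card / 2|) →
    (Ex.card : ℝ) ≤ (y : ℝ) ^ (-(A : ℝ)) * (K.choose r : ℝ) := by
  classical
  obtain ⟨c, hc, x₀, h⟩ := uniform_law b hb (δ / 2) A (A' + 3) (by positivity)
  have hl2 : 0 < Real.log 2 := Real.log_pos (by norm_num)
  have hev : ∀ᶠ x : ℕ in atTop, (A' / Real.log 2 + 1) * Real.log x + 2 ≤ (x : ℝ) ^ (δ / 2) * ((x : ℝ) ^ (δ / 2) - 1) := by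
    have h1 : Tendsto (fun x : ℕ => (x : ℝ) ^ (δ / 2)) atTop atTop := (tendsto_rpow_atTop (by positivity)).comp tendsto_natCast_atTop_atTop
    have h2 : ∀ᶠ x : ℝ in atTop, Real.log x ≤ x ^ (δ / 2) := by
      have h3 := (isLittleO_log_rpow_atTop (by positivity : 0 < δ / 2)).bound (by norm_num : (0 : ℝ) < 1)
      filter_upwards [h3, eventually_gt_atTop 1] with x hx hx1
      rw [Real.norm_of_nonneg (Real.log_nonneg hx1.le), Real.norm_of_nonneg (by positivity), one_mul] at hx
      exact hx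
    have h3 := tendsto_natCast_atTop_atTop.eventually h2
    filter_upwards [h1.eventually (eventually_ge_atTop ((A' / Real.log 2 + 1) + 3)), h3] with x hx1 hx2
    obtain ⟨t, ht⟩ : ∃ t : ℝ, t = (x : ℝ) ^ (δ / 2) := ⟨_, rfl⟩
    rw [← ht] at hx1 hx2 ⊢
    have h4 : 0 ≤ A' / Real.log 2 := by positivity
    have h5 : (A' / Real.log 2 + 1) * Real.log x ≤ (A' / Real.log 2 + 1) * t := mul_le_mul_of_nonneg_left hx2 (by linarith)
    nlinarith
  obtain ⟨x₁, hx₁⟩ := eventually_atTop.1 hev
  refine ⟨c, hc, x₀ + x₁ + 5, fun r K y hrK hy N hN f hf P hP Ex hEx hExb => ?_⟩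
  obtain ⟨Λ, hΛ⟩ : ∃ Λ : ℕ → Finset (ℤ × Bool), Λ = fun (x : ℕ) => if x < 5 then ∅ else (Icc (-((x : ℤ) ^ A')) ((x : ℤ) ^ A')) ×ˢ univ := ⟨_, rfl⟩
  refine h r K y hrK (by omega) N hN f hf (ℤ × Bool) Λ ?_
    (fun x _ => P x) (fun x _ => hP x) (fun i p z => Tq i p z) Ex hEx ?_
  · intro x _
    rw [hΛ]
    show (((if x < 5 then ∅ else (Icc (-((x : ℤ) ^ A')) ((x : ℤ) ^ A')) ×ˢ univ) : Finset (ℤ × Bool)).card : ℝ) ≤ _
    split_ifs with hx
    · rw [card_empty, Nat.cast_zero]
      positivity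
    · rw [card_product, Int.card_Icc, card_univ, Fintype.card_bool]
      have hx5 : (5 : ℝ) ≤ x := by exact_mod_cast (by omega : 5 ≤ x)
      have e3 : (((((x : ℤ) ^ A' + 1 - -((x : ℤ) ^ A')).toNat : ℕ)) : ℝ) = 2 * (x : ℝ) ^ A' + 1 := by
        have e4 : ((((((x : ℤ) ^ A' + 1 - -((x : ℤ) ^ A')).toNat : ℕ)) : ℤ) : ℝ) = (((x : ℤ) ^ A' + 1 - -((x : ℤ) ^ A') : ℤ) : ℝ) := by
          rw [Int.toNat_of_nonneg (by have : (0 : ℤ) ≤ (x : ℤ) ^ A' := by positivity
                                      linarith)]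
        push_cast at e4
        rw [e4]
        ring
      push_cast
      rw [e3]
      have e5 : (x : ℝ) ^ ((A' : ℝ) + 3) = (x : ℝ) ^ A' * (x : ℝ) ^ 3 := by
        rw [show ((A' : ℝ) + 3) = ((A' + 3 : ℕ) : ℝ) by push_cast; ring, Real.rpow_natCast, pow_add]
      rw [e5]
      have e6 : (1 : ℝ) ≤ (x : ℝ) ^ A' := one_le_pow₀ (by linarith)
      have e7 : (125 : ℝ) ≤ (x : ℝ) ^ 3 := by
        have := pow_le_pow_left₀ (by norm_num : (0 : ℝ) ≤ 5) hx5 3
        norm_num at this
        exact this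
      nlinarith
  · intro S hS
    obtain ⟨x, hyx, hxr, i, hi0, hi, hlt⟩ := hExb S hS
    refine ⟨x, hyx, hxr, i, ?_, ?_⟩
    · rw [hΛ]
      show i ∈ (if x < 5 then ∅ else (Icc (-((x : ℤ) ^ A')) ((x : ℤ) ^ A')) ×ˢ univ)
      rw [if_neg (by omega), mem_product, mem_Icc]
      rw [abs_le] at hi
      exact ⟨hi, mem_univ _⟩
    · show Real.sqrt (P x).card * (x : ℝ) ^ (δ / 2) < |(((P x).filter (fun p => Tq i p ((change b K N f S : ℕ) : ZMod p))).card : ℝ) - ∑ p ∈ P x, mu p (Tq i p)|
      have hxr1 : (1 : ℝ) ≤ x := by exact_mod_cast (by omega : 1 ≤ x)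
      -- the main term
      have hmain : |∑ p ∈ P x, mu p (Tq i p) - (P x).card / 2| ≤ (A' / Real.log 2 + 1) * Real.log x + 2 := by
        have h1 : ∑ p ∈ P x, mu p (Tq i p) - (P x).card / 2 = ∑ p ∈ P x, (mu p (Tq i p) - 1 / 2) := by
          rw [sum_sub_distrib, sum_const, nsmul_eq_mul]
          ring
        rw [h1]
        refine (abs_sum_le_sum_abs _ _).trans ?_
        have h2 : ∀ p ∈ P x, |mu p (Tq i p) - 1 / 2| ≤ (if (p : ℤ) ∣ i.1 then 1 else 0) + 1 / p + (if p = 2 then 1 else 0) := by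
          intro p hp
          haveI : Fact p.Prime := ⟨(hP x p hp).1⟩
          exact mu_q i p
        refine (sum_le_sum h2).trans ?_
        rw [sum_add_distrib, sum_add_distrib]
        have h3 : ∑ p ∈ P x, (if (p : ℤ) ∣ i.1 then (1 : ℝ) else 0) ≤ A' / Real.log 2 * Real.log x := by
          rw [← sum_filter, sum_const, nsmul_eq_mul, mul_one]
          have h4 := dvd_count (P x) (fun p hp => (hP x p hp).1) i.1 hi0
          have h5 : Real.log |(i.1 : ℝ)| ≤ A' * Real.log x := by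
            rw [← Real.log_pow]
            apply Real.log_le_log
            · exact abs_pos.2 (by exact_mod_cast hi0)
            · have : ((|i.1| : ℤ) : ℝ) ≤ (((x : ℤ) ^ A' : ℤ) : ℝ) := by exact_mod_cast hi
              push_cast at this
              exact this
          have h6 := h4.trans h5
          rw [div_mul_eq_mul_div, le_div_iff₀ hl2]
          exact h6
        have h4 := sum_inv x (by omega) (P x) (hP x)
        have h5 : ∑ p ∈ P x, (if p = 2 then (1 : ℝ) else 0) ≤ 1 := by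
          rw [sum_ite_eq']
          split_ifs <;> norm_num
        linarith
      have hcard : 0 < (P x).card := by
        rcases Nat.eq_zero_or_pos (P x).card with h0 | h0
        · exfalso
          have h1 : P x = ∅ := card_eq_zero.1 h0
          unfold cq at hlt
          rw [h1] at hlt
          simp at hlt
        · exact h0
      have hs1 : 1 ≤ Real.sqrt (P x).card := by
        rw [Real.one_le_sqrt]
        exact_mod_cast hcard
      have h6 := hx₁ x (by omega)
      obtain ⟨t, ht⟩ : ∃ t : ℝ, t = (x : ℝ) ^ (δ / 2) := ⟨_, rfl⟩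
      have ht2 : (x : ℝ) ^ δ = t * t := by
        rw [ht, ← Real.rpow_add (by linarith)]
        congr 1
        ring
      have ht1 : 1 ≤ t := by rw [ht]; exact Real.one_le_rpow hxr1 (by positivity)
      rw [← ht] at h6 ⊢
      rw [ht2] at hlt
      unfold cq at hlt
      have h7 : Real.sqrt (P x).card * (t * t) - Real.sqrt (P x).card * t ≥ t * (t - 1) := by
        have : Real.sqrt (P x).card * (t * t) - Real.sqrt (P x).card * t = Real.sqrt (P x).card * (t * (t - 1)) := by ring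
        rw [this]
        have h8 : 0 ≤ t * (t - 1) := mul_nonneg (by linarith) (by linarith)
        nlinarith
      have h9 := abs_sub_le ((((P x).filter (fun p => Tq i p ((change b K N f S : ℕ) : ZMod p))).card : ℝ)) (∑ p ∈ P x, mu p (Tq i p)) ((P x).card / 2)
      linarith

end Pool.Agent.TH894.NG
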