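import Pool.Agent.TH894.NG1
import Pool.Agent.TH862.PrimeBd

set_option autoImplicit false

/-! Splitting of primes in the imaginary quadratic fields given by the numbers obtained by few changes of digits. -/

namespace Pool.Agent.TH894.NG
open Finset Filter
open Pool.Agent.TH894.SM (change)

/-- negative fundamental discriminants -/
def NFD (d : ℤ) : Prop := d < 0 ∧ ((d % 4 = 1 ∧ Squarefree d) ∨ (∃ m : ℤ, d = 4 * m ∧ (m % 4 = 2 ∨ m % 4 = 3) ∧ Squarefree m))

/-- `p` splits -/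
def Sp (d : ℤ) (p : ℕ) : Prop := ¬ ((p : ℤ) ∣ d) ∧ ∃ x : ℤ, (4 * (p : ℤ)) ∣ x ^ 2 - d

/-- `p` is inert -/
def In (d : ℤ) (p : ℕ) : Prop := ¬ ∃ x : ℤ, (4 * (p : ℤ)) ∣ x ^ 2 - d

/-- the same field -/
def SF (d : ℤ) (m : ℕ) : Prop := ∃ u v : ℤ, u ≠ 0 ∧ v ≠ 0 ∧ d * u ^ 2 = -(m : ℤ) * v ^ 2

lemma sqf {e n U V : ℤ} (he : Squarefree e) (hV : V ≠ 0) (h : e * U ^ 2 = n * V ^ 2) : ∃ w : ℤ, n = e * w ^ 2 := by
  obtain ⟨g, hg⟩ : ∃ g : ℤ, g = Int.gcd U V := ⟨_, rfl⟩
  have hg0 : g ≠ 0 := by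
    rw [hg]
    intro h0
    have : Int.gcd U V = 0 := by exact_mod_cast h0
    rw [Int.gcd_eq_zero_iff] at this
    exact hV this.2
  obtain ⟨U', hU⟩ : g ∣ U := by rw [hg]; exact Int.gcd_dvd_left U V
  obtain ⟨V', hV'⟩ : g ∣ V := by rw [hg]; exact Int.gcd_dvd_right U V
  have hcop : IsCoprime U' V' := by
    rw [Int.isCoprime_iff_gcd_eq_one]
    have hgpos : 0 < Int.gcd U V := Int.gcd_pos_of_ne_zero_right U hV
    have h1 := Int.gcd_div_gcd_div_gcd hgpos
    rw [← hg, hU, hV', Int.mul_ediv_cancel_left _ hg0, Int.mul_ediv_cancel_left _ hg0] at h1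
    exact h1
  have h2 : e * U' ^ 2 = n * V' ^ 2 := by
    have h3 : g ^ 2 * (e * U' ^ 2) = g ^ 2 * (n * V' ^ 2) := by
      rw [hU, hV'] at h
      linear_combination h
    exact mul_left_cancel₀ (pow_ne_zero 2 hg0) h3
  have h3 : V' ^ 2 ∣ e := by
    have h4 : V' ^ 2 ∣ e * U' ^ 2 := by rw [h2]; exact Dvd.intro_left n rfl
    exact (hcop.symm.pow).dvd_of_dvd_mul_right h4
  have h4 : IsUnit V' := he V' (by rw [← sq]; exact h3)
  have h5 : V' ^ 2 = 1 := by
    rcases Int.isUnit_iff.1 h4 with h | h <;> rw [h] <;> norm_num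
  exact ⟨U', by rw [h2, h5, mul_one]⟩

lemma kernel {d : ℤ} {m : ℕ} (hd : NFD d) (hs : SF d m) : ∃ e w : ℤ, e < 0 ∧ (d = e ∨ d = 4 * e) ∧ -(m : ℤ) = e * w ^ 2 ∧ (d % 4 = 0 ∨ d % 4 = 1) := by
  obtain ⟨hneg, h⟩ := hd
  obtain ⟨u, v, hu, hv, huv⟩ := hs
  rcases h with ⟨h1, hsq⟩ | ⟨e, he, h1, hsq⟩
  · obtain ⟨w, hw⟩ := sqf (n := -(m : ℤ)) hsq hv huv
    exact ⟨d, w, hneg, Or.inl rfl, hw, Or.inr h1⟩
  · obtain ⟨w, hw⟩ := sqf (e := e) (U := 2 * u) (n := -(m : ℤ)) hsq hv (by rw [← huv, he]; ring)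
    exact ⟨e, w, by omega, Or.inr he, hw, Or.inl (by omega)⟩

lemma sq_mod4p {d : ℤ} (hd : d % 4 = 0 ∨ d % 4 = 1) {p : ℕ} (hp : p.Prime) (hp2 : p ≠ 2) :
    (∃ x : ℤ, (4 * (p : ℤ)) ∣ x ^ 2 - d) ↔ IsSquare (d : ZMod p) := by
  have : Fact p.Prime := ⟨hp⟩
  constructor
  · rintro ⟨x, hx⟩
    have h1 : (p : ℤ) ∣ x ^ 2 - d := (Dvd.intro_left 4 rfl).trans hx
    rw [← ZMod.intCast_zmod_eq_zero_iff_dvd] at h1
    push_cast at h1
    exact ⟨x, by linear_combination -h1⟩
  · rintro ⟨r, hr⟩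
    obtain ⟨x, hx⟩ : ∃ x : ℤ, (x : ZMod p) = r := ⟨r.val, by simp⟩
    have h1 : (p : ℤ) ∣ x ^ 2 - d := by
      rw [← ZMod.intCast_zmod_eq_zero_iff_dvd]
      push_cast
      rw [hx, hr]; ring
    have hodd : (p : ℤ) % 2 = 1 := by
      have := hp.eq_two_or_odd
      omega
    obtain ⟨z, hz1, hz2⟩ : ∃ z : ℤ, (p : ℤ) ∣ z ^ 2 - d ∧ z % 2 = d % 2 := by
      rcases Int.emod_two_eq_zero_or_one (x - d) with h | h
      · exact ⟨x, h1, by omega⟩
      · refine ⟨x + p, ?_, by omega⟩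
        have : (x + p) ^ 2 - d = (x ^ 2 - d) + p * (2 * x + p) := by ring
        rw [this]
        exact dvd_add h1 (Dvd.intro _ rfl)
    have h4 : (4 : ℤ) ∣ z ^ 2 - d := by
      rcases Int.emod_two_eq_zero_or_one z with h | h
      · obtain ⟨w, hw⟩ : ∃ w, z = 2 * w := ⟨z / 2, by omega⟩
        have : z ^ 2 = 4 * (w ^ 2) := by rw [hw]; ring
        rw [this]; omega
      · obtain ⟨w, hw⟩ : ∃ w, z = 2 * w + 1 := ⟨z / 2, by omega⟩
        have : z ^ 2 = 4 * (w ^ 2 + w) + 1 := by rw [hw]; ring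
        rw [this]; omega
    have hcop : IsCoprime (4 : ℤ) (p : ℤ) := by
      rw [Int.isCoprime_iff_gcd_eq_one]
      have : Nat.Coprime 4 p := by
        have h2 : Nat.Coprime 2 p := (Nat.coprime_primes Nat.prime_two hp).mpr (Ne.symm hp2)
        exact Nat.Coprime.pow_left 2 h2
      simpa [Int.gcd] using this
    exact ⟨z, hcop.mul_dvd h4 hz1⟩

lemma sq_unit {p : ℕ} [hp : Fact p.Prime] (a t : ZMod p) (ht : t ≠ 0) : IsSquare (a * t ^ 2) ↔ IsSquare a := by
  constructor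
  · rintro ⟨s, hs⟩
    refine ⟨s / t, ?_⟩
    rw [div_mul_div_comm, ← hs]
    field_simp
  · rintro ⟨s, hs⟩
    exact ⟨s * t, by rw [hs]; ring⟩

lemma split_iff {d : ℤ} {m : ℕ} (hd : NFD d) (hs : SF d m) {p : ℕ} (hp : p.Prime) (hp2 : p ≠ 2) (hm : (m : ZMod p) ≠ 0) :
    (Sp d p ↔ Tq (-1, true) p (m : ZMod p)) ∧ (In d p ↔ Tq (-1, false) p (m : ZMod p)) := by
  haveI : Fact p.Prime := ⟨hp⟩
  obtain ⟨e, w, he, hde, hmw, hd4⟩ := kernel hd hs
  have h1 : (-(m : ZMod p)) = (e : ZMod p) * (w : ZMod p) ^ 2 := by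
    have := congrArg (Int.cast : ℤ → ZMod p) hmw
    push_cast at this
    exact this
  have hne : (-(m : ZMod p)) ≠ 0 := neg_ne_zero.2 hm
  have hw : (w : ZMod p) ≠ 0 := by
    intro h
    apply hne
    rw [h1, h]
    ring
  have he0 : (e : ZMod p) ≠ 0 := by
    intro h
    apply hne
    rw [h1, h]
    ring
  have h2 : ((2 : ℤ) : ZMod p) ≠ 0 := by
    intro h
    rw [ZMod.intCast_zmod_eq_zero_iff_dvd] at h
    have : p ∣ 2 := by exact_mod_cast h
    exact hp2 ((Nat.prime_dvd_prime_iff_eq hp Nat.prime_two).1 this)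
  have h3 : IsSquare (-(m : ZMod p)) ↔ IsSquare (e : ZMod p) := by rw [h1]; exact sq_unit _ _ hw
  have h4 : IsSquare (d : ZMod p) ↔ IsSquare (e : ZMod p) := by
    rcases hde with h | h
    · rw [h]
    · rw [h]
      have : ((4 * e : ℤ) : ZMod p) = (e : ZMod p) * ((2 : ℤ) : ZMod p) ^ 2 := by push_cast; ring
      rw [this]
      exact sq_unit _ _ h2
  have hd0 : (d : ZMod p) ≠ 0 := by
    rcases hde with h | h
    · rw [h]; exact he0
    · rw [h]
      have : ((4 * e : ℤ) : ZMod p) = (e : ZMod p) * ((2 : ℤ) : ZMod p) ^ 2 := by push_cast; ring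
      rw [this]
      exact mul_ne_zero he0 (pow_ne_zero 2 h2)
  have hpd : ¬ (p : ℤ) ∣ d := fun h => hd0 ((ZMod.intCast_zmod_eq_zero_iff_dvd d p).2 h)
  have hneg : (((-1 : ℤ) : ZMod p)) * (m : ZMod p) = -(m : ZMod p) := by push_cast; ring
  unfold Sp In Tq
  simp only [if_true, Bool.false_eq_true, if_false]
  rw [sq_mod4p hd4 hp hp2, hneg, h4, ← h3]
  refine ⟨?_, Iff.rfl⟩
  constructor
  · rintro ⟨_, h⟩
    exact ⟨hne, h⟩
  · rintro ⟨_, h⟩
    exact ⟨hpd, h⟩

open Classical in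
lemma split_count {d : ℤ} {m : ℕ} (hd : NFD d) (hs : SF d m) (P : Finset ℕ) (hP : ∀ p ∈ P, p.Prime) (β : Bool) :
    |((P.filter (fun p => if β then Sp d p else In d p)).card : ℝ) - cq P (-1, β) m| ≤
      1 + ((P.card : ℝ) - cq P (-1, true) m - cq P (-1, false) m) := by
  obtain ⟨Z, hZ⟩ : ∃ Z, Z = P.filter (fun p : ℕ => (m : ZMod p) = 0) := ⟨_, rfl⟩
  obtain ⟨F, hF⟩ : ∃ F, F = P.filter (fun p => if β then Sp d p else In d p) := ⟨_, rfl⟩
  obtain ⟨G, hG⟩ : ∃ G, G = P.filter (fun p : ℕ => Tq (-1, β) p (m : ZMod p)) := ⟨_, rfl⟩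
  have hkey : ∀ p ∈ P, p ≠ 2 → (m : ZMod p) ≠ 0 → ((if β then Sp d p else In d p) ↔ Tq (-1, β) p (m : ZMod p)) := by
    intro p hp hp2 hm
    have h := split_iff hd hs (hP p hp) hp2 hm
    cases β
    · simpa using h.2
    · simpa using h.1
  have h1 : F ⊆ G ∪ ({2} ∪ Z) := by
    intro p hp
    rw [hF, mem_filter] at hp
    rw [mem_union, mem_union, mem_singleton, hG, hZ, mem_filter, mem_filter]
    by_cases h2 : p = 2
    · right; left; exact h2
    · by_cases h3 : (m : ZMod p) = 0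
      · right; right; exact ⟨hp.1, h3⟩
      · left; exact ⟨hp.1, (hkey p hp.1 h2 h3).1 hp.2⟩
  have h2 : G ⊆ F ∪ ({2} ∪ Z) := by
    intro p hp
    rw [hG, mem_filter] at hp
    rw [mem_union, mem_union, mem_singleton, hF, hZ, mem_filter, mem_filter]
    by_cases h2 : p = 2
    · right; left; exact h2
    · by_cases h3 : (m : ZMod p) = 0
      · right; right; exact ⟨hp.1, h3⟩
      · left; exact ⟨hp.1, (hkey p hp.1 h2 h3).2 hp.2⟩
  have hZc : (Z.card : ℝ) + cq P (-1, true) m + cq P (-1, false) m = P.card := by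
    have h3 : P = Z ∪ (P.filter (fun p : ℕ => Tq (-1, true) p (m : ZMod p)) ∪ P.filter (fun p : ℕ => Tq (-1, false) p (m : ZMod p))) := by
      ext p
      rw [mem_union, mem_union, hZ, mem_filter, mem_filter, mem_filter]
      constructor
      · intro hp
        haveI : Fact p.Prime := ⟨hP p hp⟩
        by_cases h4 : (m : ZMod p) = 0
        · left; exact ⟨hp, h4⟩
        · right
          have hneg : (((-1 : ℤ) : ZMod p)) * (m : ZMod p) = -(m : ZMod p) := by push_cast; ring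
          by_cases h5 : IsSquare (-(m : ZMod p))
          · left
            refine ⟨hp, ?_⟩
            unfold Tq
            simp only [if_true]
            rw [hneg]
            exact ⟨neg_ne_zero.2 h4, h5⟩
          · right
            refine ⟨hp, ?_⟩
            unfold Tq
            simp only [Bool.false_eq_true, if_false]
            rw [hneg]
            exact h5
      · rintro (h | h | h) <;> exact h.1
    have h4 : P.card = Z.card + ((P.filter (fun p : ℕ => Tq (-1, true) p (m : ZMod p))).card + (P.filter (fun p : ℕ => Tq (-1, false) p (m : ZMod p))).card) := by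
      rw [← card_union_of_disjoint, ← card_union_of_disjoint, ← h3]
      · rw [disjoint_left]
        intro p hp hp'
        rw [hZ, mem_filter] at hp
        rw [mem_union, mem_filter, mem_filter] at hp'
        unfold Tq at hp'
        simp only [if_true, Bool.false_eq_true, if_false, hp.2, mul_zero] at hp'
        rcases hp' with h | h
        · exact h.2.1 rfl
        · exact h.2 ⟨0, by simp⟩
      · rw [disjoint_left]
        intro p hp hp'
        rw [mem_filter] at hp hp'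
        unfold Tq at hp hp'
        simp only [if_true, Bool.false_eq_true, if_false] at hp hp'
        exact hp'.2 hp.2.2
    unfold cq
    have h5 : (P.card : ℝ) = Z.card + ((P.filter (fun p : ℕ => Tq (-1, true) p (m : ZMod p))).card + (P.filter (fun p : ℕ => Tq (-1, false) p (m : ZMod p))).card) := by
      exact_mod_cast h4
    rw [h5]
    ring
  have h3 : (F.card : ℝ) ≤ G.card + (1 + Z.card) := by
    have := (card_le_card h1).trans ((card_union_le _ _).trans (Nat.add_le_add_left (card_union_le _ _) _))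
    rw [card_singleton] at this
    exact_mod_cast this
  have h4 : (G.card : ℝ) ≤ F.card + (1 + Z.card) := by
    have := (card_le_card h2).trans ((card_union_le _ _).trans (Nat.add_le_add_left (card_union_le _ _) _))
    rw [card_singleton] at this
    exact_mod_cast this
  have h5 : (cq P (-1, β) m : ℝ) = G.card := by rw [hG]; rfl
  rw [← hF, h5, abs_le]
  constructor <;> linarith

open Classical in
/-- the law for the splitting -/
lemma split_of {d : ℤ} {m : ℕ} (hd : NFD d) (hs : SF d m) (P : Finset ℕ) (hP : ∀ p ∈ P, p.Prime) (E : ℝ)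
    (h : ∀ β : Bool, |(cq P (-1, β) m : ℝ) - P.card / 2| ≤ E) (β : Bool) :
    |((P.filter (fun p => if β then Sp d p else In d p)).card : ℝ) - P.card / 2| ≤ 3 * E + 1 := by
  have h1 := split_count hd hs P hP β
  have h2 := h β
  have h3 := h true
  have h4 := h false
  have h5 := abs_sub_le (((P.filter (fun p => if β then Sp d p else In d p)).card : ℝ)) (cq P (-1, β) m : ℝ) (P.card / 2)
  rw [abs_le] at h3 h4
  linarith [h3.1, h4.1]

end Pool.Agent.TH894.NG
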