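import Pool.Agent.TH894.NG2

set_option autoImplicit false

/-! The threshold of the question. -/

namespace Pool.Agent.TH894.NG
open Finset Filter
open Pool.Agent.TH894.SM (change)

/-- the primes up to `x` -/
def PX (x : ℕ) : Finset ℕ := (range (x + 1)).filter Nat.Prime

lemma mem_PX {x p : ℕ} : p ∈ PX x ↔ p.Prime ∧ p ≤ x := by
  unfold PX
  rw [mem_filter, mem_range]
  constructor
  · rintro ⟨h1, h2⟩
    exact ⟨h2, by omega⟩
  · rintro ⟨h1, h2⟩
    exact ⟨by omega, h1⟩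

lemma PX_card (x : ℕ) : Nat.sqrt x / 2 ≤ (PX x).card := by
  have h1 : (range (Nat.sqrt x / 2)).image (Nat.nth Nat.Prime) ⊆ PX x := by
    intro p hp
    rw [mem_image] at hp
    obtain ⟨k, hk, rfl⟩ := hp
    rw [mem_range] at hk
    rw [mem_PX]
    refine ⟨Nat.prime_nth_prime k, (Pool.Agent.TH862.EA.nth_prime_le k).trans ?_⟩
    have h2 : 2 * (k + 1) ≤ Nat.sqrt x := by omega
    have h3 : Nat.sqrt x * Nat.sqrt x ≤ x := Nat.sqrt_le x
    calc 4 * (k + 1) ^ 2 = (2 * (k + 1)) * (2 * (k + 1)) := by ring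
      _ ≤ Nat.sqrt x * Nat.sqrt x := Nat.mul_le_mul h2 h2
      _ ≤ x := h3
  have h2 := card_le_card h1
  rw [card_image_of_injective _ (Nat.nth_injective Nat.infinite_setOfPred_prime), card_range] at h2
  exact h2

lemma PX_ev : ∃ x₀ : ℕ, ∀ x : ℕ, x₀ ≤ x → (x : ℝ) ^ (2 / 5 : ℝ) ≤ (PX x).card := by
  have hev : ∀ᶠ x : ℕ in atTop, (8 : ℝ) ≤ (x : ℝ) ^ (1 / 10 : ℝ) := by
    have h1 : Tendsto (fun x : ℝ => x ^ (1 / 10 : ℝ)) atTop atTop := tendsto_rpow_atTop (by norm_num)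
    exact (h1.comp tendsto_natCast_atTop_atTop).eventually (eventually_ge_atTop _)
  obtain ⟨x₀, h0⟩ := eventually_atTop.1 hev
  refine ⟨x₀ + 1, fun x hx => ?_⟩
  have h1 := h0 x (by omega)
  have hx0 : (0 : ℝ) < x := by exact_mod_cast (by omega : 0 < x)
  have hx1 : (1 : ℝ) ≤ x := by exact_mod_cast (by omega : 1 ≤ x)
  have h2 : (Nat.sqrt x : ℝ) ≤ 2 * (PX x).card + 1 := by
    have := PX_card x
    exact_mod_cast (by omega : Nat.sqrt x ≤ 2 * (PX x).card + 1)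
  have h3 : √(x : ℝ) ≤ Nat.sqrt x + 1 := Real.real_sqrt_le_nat_sqrt_succ
  have h4 : √(x : ℝ) = (x : ℝ) ^ (2 / 5 : ℝ) * (x : ℝ) ^ (1 / 10 : ℝ) := by
    rw [Real.sqrt_eq_rpow, ← Real.rpow_add hx0]
    norm_num
  have h5 : (1 : ℝ) ≤ (x : ℝ) ^ (2 / 5 : ℝ) := Real.one_le_rpow hx1 (by norm_num)
  nlinarith

lemma change_lt (b K N : ℕ) (hb : 2 ≤ b) (f : ℕ → ℕ) (hf : ∀ j, f j < b) (S : Finset ℕ) : change b K N f S < b ^ K := by
  unfold change
  induction K with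
  | zero => simp
  | succ K ih =>
    rw [sum_range_succ, pow_succ]
    have h1 : (if K ∈ S then f K else N / b ^ K % b) + 1 ≤ b := by
      split_ifs
      · exact hf K
      · exact Nat.mod_lt _ (by omega)
    have h2 : ((if K ∈ S then f K else N / b ^ K % b) + 1) * b ^ K ≤ b * b ^ K := Nat.mul_le_mul_right _ h1
    nlinarith

/-- the field of a number without exceptional behaviour has a large discriminant -/
lemma large_disc {d : ℤ} {m x : ℕ} (hd : NFD d) (hs : SF d m) (δ' : ℝ) (hx1 : 1 ≤ x)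
    (hlaw : ∀ i : ℤ × Bool, i.1 ≠ 0 → |i.1| ≤ (x : ℤ) ^ 1 → |(cq (PX x) i m : ℝ) - (PX x).card / 2| ≤ Real.sqrt (PX x).card * (x : ℝ) ^ δ')
    (hbig : 4 * ((x : ℝ) ^ δ') ^ 2 < (PX x).card) : (x : ℤ) < |d| := by
  classical
  by_contra hcon
  push Not at hcon
  obtain ⟨e, w, he, hde, hmw, _⟩ := kernel hd hs
  have hed : |e| ≤ |d| := by
    rcases hde with h | h
    · rw [h]
    · rw [h, abs_mul]
      have := abs_nonneg e
      norm_num
      linarith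
  have h1 := hlaw (-e, false) (neg_ne_zero.2 he.ne) (by rw [pow_one]; show |-e| ≤ _; rw [abs_neg]; exact hed.trans hcon)
  have h2 : cq (PX x) (-e, false) m = 0 := by
    unfold cq
    rw [card_eq_zero, filter_eq_empty_iff]
    intro p _ h
    unfold Tq at h
    simp only [Bool.false_eq_true, if_false] at h
    apply h
    have h3 : ((((-e : ℤ)) : ZMod p)) * (m : ZMod p) = ((e * w : ℤ) : ZMod p) * ((e * w : ℤ) : ZMod p) := by
      have h4 : (-e) * (m : ℤ) = (e * w) * (e * w) := by linear_combination e * hmw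
      have := congrArg (Int.cast : ℤ → ZMod p) h4
      push_cast at this ⊢
      exact this
    exact ⟨_, h3⟩
  rw [h2, Nat.cast_zero, zero_sub, abs_neg, abs_of_nonneg (by positivity)] at h1
  have hs0 : 0 ≤ Real.sqrt ((PX x).card : ℝ) := Real.sqrt_nonneg _
  have h3 : Real.sqrt ((PX x).card : ℝ) * Real.sqrt ((PX x).card : ℝ) = (PX x).card := Real.mul_self_sqrt (Nat.cast_nonneg _)
  have ht : 0 ≤ (x : ℝ) ^ δ' := by positivity
  have h4 : Real.sqrt ((PX x).card : ℝ) ≤ 2 * (x : ℝ) ^ δ' := by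
    by_contra h5
    push Not at h5
    nlinarith
  nlinarith

/-- the threshold -/
noncomputable def thr (d : ℤ) : ℝ := Real.log |(d : ℝ)| ^ 2 * Real.log (Real.log |(d : ℝ)|) ^ 2

open Classical in
/-- the property -/
def GF (c δ : ℝ) (r m : ℕ) : Prop := ∀ d : ℤ, NFD d → SF d m → c * r ≤ Real.log |(d : ℝ)| ∧
  |2 * (((PX (⌈thr d⌉₊ - 1)).filter (fun p => Sp d p)).card : ℝ) - (PX (⌈thr d⌉₊ - 1)).card| ≤ ((PX (⌈thr d⌉₊ - 1)).card : ℝ) ^ (1 / 2 + δ)

theorem thr_law (b : ℕ) (hb : 2 ≤ b) (δ : ℝ) (hδ : 0 < δ) (A : ℕ) : ∃ C c : ℝ, 0 < C ∧ 0 < c ∧ ∃ K₀ : ℕ, ∀ K : ℕ, K₀ ≤ K → ∀ r : ℕ,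
    C * Real.log K ≤ r → 2 * r ≤ K → ∀ N : ℕ, N < b ^ K → ∀ f : ℕ → ℕ, (∀ j, f j < b ∧ f j ≠ N / b ^ j % b) →
    ∀ Ex ⊆ powersetCard r (range K), (∀ S ∈ Ex, ¬ GF c δ r (change b K N f S)) →
    (Ex.card : ℝ) ≤ 1 / (r : ℝ) ^ A * (K.choose r : ℝ) := by
  classical
  obtain ⟨δ₁, hδ₁⟩ : ∃ δ₁, δ₁ = min δ 1 := ⟨_, rfl⟩
  have hδ₁0 : 0 < δ₁ := by rw [hδ₁]; exact lt_min hδ one_pos
  have hδ₁1 : δ₁ ≤ 1 := by rw [hδ₁]; exact min_le_right _ _
  have hδ₁δ : δ₁ ≤ δ := by rw [hδ₁]; exact min_le_left _ _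
  obtain ⟨c, hc, x₀, h⟩ := quad_law b hb (δ₁ / 8) (by positivity) A 1
  obtain ⟨x₁, h1⟩ := PX_ev
  have hev1 : ∀ᶠ x : ℕ in atTop, (8 : ℝ) ≤ (x : ℝ) ^ (δ₁ * (11 / 40)) := by
    have h1 : Tendsto (fun x : ℝ => x ^ (δ₁ * (11 / 40))) atTop atTop := tendsto_rpow_atTop (by positivity)
    exact (h1.comp tendsto_natCast_atTop_atTop).eventually (eventually_ge_atTop _)
  have hev2 : ∀ᶠ x : ℕ in atTop, (5 : ℝ) ≤ (x : ℝ) ^ (3 / 20 : ℝ) := by
    have h1 : Tendsto (fun x : ℝ => x ^ (3 / 20 : ℝ)) atTop atTop := tendsto_rpow_atTop (by norm_num)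
    exact (h1.comp tendsto_natCast_atTop_atTop).eventually (eventually_ge_atTop _)
  obtain ⟨x₂, h2⟩ := eventually_atTop.1 hev1
  obtain ⟨x₃, h3⟩ := eventually_atTop.1 hev2
  -- the exponential is large
  have hev3 : ∀ᶠ r : ℕ in atTop, (r : ℝ) + 1 ≤ Real.exp (c * r) := by
    have h4 : Tendsto (fun r : ℝ => Real.exp (c * r) / r ^ (2 : ℝ)) atTop atTop := tendsto_exp_mul_div_rpow_atTop 2 c hc
    have h5 := (h4.comp tendsto_natCast_atTop_atTop).eventually (eventually_ge_atTop 1)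
    filter_upwards [h5, eventually_ge_atTop 2] with r hr hr2
    have hr2' : (2 : ℝ) ≤ r := by exact_mod_cast hr2
    have h6 : (1 : ℝ) ≤ Real.exp (c * r) / (r : ℝ) ^ (2 : ℝ) := hr
    rw [le_div_iff₀ (by positivity), one_mul] at h6
    have h7 : (r : ℝ) ^ (2 : ℝ) = (r : ℝ) ^ 2 := by
      rw [show (2 : ℝ) = ((2 : ℕ) : ℝ) by norm_num, Real.rpow_natCast]
    rw [h7] at h6
    nlinarith
  obtain ⟨r₁, hr₁⟩ := eventually_atTop.1 hev3
  obtain ⟨r₂, hr₂⟩ := exists_nat_ge (Real.exp 2 / c + 4 / c ^ 2 + 4)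
  obtain ⟨K₁, hK₁⟩ := exists_nat_ge (Real.exp ((x₀ + x₁ + x₂ + x₃ + r₁ + r₂ + 4 : ℕ) : ℝ))
  refine ⟨5 / c + 1, c, by positivity, hc, K₁ + 16 * b ^ 4 + 3, fun K hK r hr hrK N hN f hf Ex hEx hExb => ?_⟩
  have hbr : (2 : ℝ) ≤ b := by exact_mod_cast hb
  have hKr : (3 : ℝ) ≤ K := by exact_mod_cast (by omega : 3 ≤ K)
  have hlK : ((x₀ + x₁ + x₂ + x₃ + r₁ + r₂ + 4 : ℕ) : ℝ) ≤ Real.log K := by
    rw [Real.le_log_iff_exp_le (by linarith)]
    exact hK₁.trans (by exact_mod_cast (by omega : K₁ ≤ K))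
  have hlK0 : 0 ≤ Real.log K := Real.log_nonneg (by linarith)
  have hr1 : Real.log K ≤ r := by
    have : Real.log K ≤ (5 / c + 1) * Real.log K := by
      have h5 : 0 ≤ 5 / c := by positivity
      nlinarith
    linarith
  have hrbig : x₀ + x₁ + x₂ + x₃ + r₁ + r₂ + 4 ≤ r := by exact_mod_cast hlK.trans hr1
  have hr5 : 5 * Real.log K ≤ c * r := by
    have h5 : 5 * Real.log K = c * (5 / c * Real.log K) := by field_simp
    rw [h5]
    apply mul_le_mul_of_nonneg_left _ hc.le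
    linarith
  have hr0 : (0 : ℝ) < r := by exact_mod_cast (by omega : 0 < r)
  have hpow : 1 / (r : ℝ) ^ A = (r : ℝ) ^ (-(A : ℝ)) := by
    rw [Real.rpow_neg hr0.le, Real.rpow_natCast, one_div]
  rw [hpow]
  refine h r K r hrK (by omega) N hN f hf PX (fun x p hp => mem_PX.1 hp) Ex hEx ?_
  intro S hS
  by_contra hcon
  apply hExb S hS
  obtain ⟨m, hm⟩ : ∃ m, m = change b K N f S := ⟨_, rfl⟩
  rw [← hm] at hcon ⊢
  have hlaw : ∀ x : ℕ, r ≤ x → Real.log x ≤ c * r → ∀ i : ℤ × Bool, i.1 ≠ 0 → |i.1| ≤ (x : ℤ) ^ 1 →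
      |(cq (PX x) i m : ℝ) - (PX x).card / 2| ≤ Real.sqrt (PX x).card * (x : ℝ) ^ (δ₁ / 8) := by
    intro x hx1 hx2 i hi hi2
    by_contra hlt
    push Not at hlt
    exact hcon ⟨x, hx1, hx2, i, hi, hi2, hlt⟩
  intro d hd hs
  obtain ⟨e, w, he, hde, hmw, _⟩ := kernel hd hs
  have hd0 : d < 0 := hd.1
  have hdr : (0 : ℝ) < |(d : ℝ)| := abs_pos.2 (by exact_mod_cast hd0.ne)
  -- the discriminant is large
  have hlarge : c * r ≤ Real.log |(d : ℝ)| := by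
    obtain ⟨x, hx⟩ : ∃ x, x = ⌊Real.exp (c * r)⌋₊ := ⟨_, rfl⟩
    have hxr : r ≤ x := by
      rw [hx, Nat.le_floor_iff (Real.exp_pos _).le]
      have := hr₁ r (by omega)
      linarith
    have hxe : (x : ℝ) ≤ Real.exp (c * r) := by rw [hx]; exact Nat.floor_le (Real.exp_pos _).le
    have hx0 : (0 : ℝ) < x := by exact_mod_cast (by omega : 0 < x)
    have h5 := large_disc hd hs (δ₁ / 8) (by omega : 1 ≤ x) (hlaw x hxr ((Real.log_le_iff_le_exp hx0).2 hxe)) ?_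
    · have h6 : Real.exp (c * r) < |(d : ℝ)| := by
        have h7 : (x : ℤ) + 1 ≤ |d| := h5
        have h8 : ((x : ℝ) + 1) ≤ |(d : ℝ)| := by exact_mod_cast h7
        have h9 := Nat.lt_floor_add_one (Real.exp (c * r))
        rw [← hx] at h9
        linarith
      rw [Real.le_log_iff_exp_le hdr]
      exact h6.le
    · have h6 := h1 x (by omega)
      have h7 := h3 x (by omega)
      have h8 : (x : ℝ) ^ (2 / 5 : ℝ) = (x : ℝ) ^ (1 / 4 : ℝ) * (x : ℝ) ^ (3 / 20 : ℝ) := by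
        rw [← Real.rpow_add hx0]
        norm_num
      have hx1 : (1 : ℝ) ≤ x := by exact_mod_cast (by omega : 1 ≤ x)
      have h9 : ((x : ℝ) ^ (δ₁ / 8)) ^ 2 ≤ (x : ℝ) ^ (1 / 4 : ℝ) := by
        rw [← Real.rpow_natCast, ← Real.rpow_mul hx0.le]
        apply Real.rpow_le_rpow_of_exponent_le hx1
        push_cast
        linarith
      have h10 : (0 : ℝ) < (x : ℝ) ^ (1 / 4 : ℝ) := Real.rpow_pos_of_pos hx0 _
      nlinarith
  refine ⟨hlarge, ?_⟩
  -- upper bound for the discriminant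
  have hm0 : m ≠ 0 := by
    intro h0
    obtain ⟨u, v, hu, hv, huv⟩ := hs
    rw [h0] at huv
    simp only [Nat.cast_zero, neg_zero, zero_mul, mul_eq_zero, pow_eq_zero_iff, ne_eq, OfNat.ofNat_ne_zero, not_false_eq_true] at huv
    rcases huv with h | h
    · exact hd0.ne h
    · exact hu h
  have hem : |e| ≤ (m : ℤ) := by
    have hw0 : w ≠ 0 := by
      intro h0
      rw [h0] at hmw
      apply hm0
      have : (m : ℤ) = 0 := by linarith
      exact_mod_cast this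
    have h5 : 1 ≤ w ^ 2 := by
      have := Int.one_le_abs hw0
      nlinarith [sq_abs w]
    rw [abs_of_neg he]
    nlinarith
  have hmb : m < b ^ K := by rw [hm]; exact change_lt b K N hb f (fun j => (hf j).1) S
  have hdm : |(d : ℝ)| ≤ 4 * (b : ℝ) ^ K := by
    have h5 : |d| ≤ 4 * |e| := by
      rcases hde with h | h
      · rw [h]
        have := abs_nonneg e
        linarith
      · rw [h, abs_mul]
        norm_num
    have h6 : |d| ≤ 4 * ((b : ℤ) ^ K) := by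
      have h7 : (m : ℤ) < (b : ℤ) ^ K := by exact_mod_cast hmb
      linarith
    exact_mod_cast h6
  obtain ⟨L, hL⟩ : ∃ L, L = Real.log |(d : ℝ)| := ⟨_, rfl⟩
  have hLup : L ≤ 2 * K * b := by
    have h5 : L ≤ Real.log (4 * (b : ℝ) ^ K) := by rw [hL]; exact Real.log_le_log hdr hdm
    rw [Real.log_mul (by norm_num) (by positivity), Real.log_pow] at h5
    have h6 : Real.log (b : ℝ) ≤ b - 1 := Real.log_le_sub_one_of_pos (by linarith)
    have h7 : Real.log (4 : ℝ) ≤ 3 := by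
      have := Real.log_le_sub_one_of_pos (by norm_num : (0 : ℝ) < 4)
      linarith
    nlinarith
  have hLlow : Real.exp 2 ≤ L ∧ 2 * Real.sqrt r ≤ L := by
    have h5 : Real.exp 2 / c + 4 / c ^ 2 + 4 ≤ r := hr₂.trans (by exact_mod_cast (by omega : r₂ ≤ r))
    have h6 : 0 ≤ Real.exp 2 / c := by positivity
    have h7 : 0 ≤ 4 / c ^ 2 := by positivity
    have h8 : Real.exp 2 / c ≤ r := by linarith
    have h9 : 4 / c ^ 2 ≤ r := by linarith
    rw [div_le_iff₀ hc] at h8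
    rw [div_le_iff₀ (by positivity)] at h9
    rw [hL]
    refine ⟨by linarith, ?_⟩
    refine le_trans ?_ hlarge
    have h10 : Real.sqrt r * Real.sqrt r = r := Real.mul_self_sqrt hr0.le
    have h11 : 0 ≤ Real.sqrt r := Real.sqrt_nonneg _
    have h12 : 2 ≤ c * Real.sqrt r := by
      by_contra h13
      push Not at h13
      have h14 : 0 ≤ c * Real.sqrt r := by positivity
      have h15 : (c * Real.sqrt r) * (c * Real.sqrt r) < 2 * 2 := mul_self_lt_mul_self h14 h13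
      have h16 : (c * Real.sqrt r) * (c * Real.sqrt r) = r * c ^ 2 := by
        calc (c * Real.sqrt r) * (c * Real.sqrt r) = (Real.sqrt r * Real.sqrt r) * c ^ 2 := by ring
          _ = _ := by rw [h10]
      linarith
    calc 2 * Real.sqrt r ≤ (c * Real.sqrt r) * Real.sqrt r := mul_le_mul_of_nonneg_right h12 h11
      _ = c * (Real.sqrt r * Real.sqrt r) := by ring
      _ = c * r := by rw [h10]
  have hLL2 : 2 ≤ Real.log L := by
    rw [Real.le_log_iff_exp_le (lt_of_lt_of_le (Real.exp_pos 2) hLlow.1)]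
    exact hLlow.1
  have hL0 : 0 < L := lt_of_lt_of_le (Real.exp_pos 2) hLlow.1
  have hLLL : Real.log L ≤ L := (Real.log_le_sub_one_of_pos hL0).trans (by linarith)
  have hthr : thr d = L ^ 2 * Real.log L ^ 2 := by unfold thr; rw [hL]
  have ht1 : (r : ℝ) + 1 ≤ thr d := by
    rw [hthr]
    have h10 : Real.sqrt r * Real.sqrt r = r := Real.mul_self_sqrt hr0.le
    have h11 : 0 ≤ Real.sqrt r := Real.sqrt_nonneg _
    have h12 : 4 * (r : ℝ) ≤ L ^ 2 := by nlinarith [hLlow.2]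
    have h13 : (4 : ℝ) ≤ Real.log L ^ 2 := by nlinarith
    have hr1' : (1 : ℝ) ≤ r := by exact_mod_cast (by omega : 1 ≤ r)
    nlinarith
  have ht2 : thr d ≤ (K : ℝ) ^ 5 := by
    rw [hthr]
    have h12 : Real.log L ^ 2 ≤ (2 * K * b) ^ 2 := pow_le_pow_left₀ (by linarith) (hLLL.trans hLup) 2
    have h13 : L ^ 2 ≤ (2 * K * b) ^ 2 := pow_le_pow_left₀ hL0.le hLup 2
    have hKb : (16 : ℝ) * (b : ℝ) ^ 4 ≤ K := by exact_mod_cast (by omega : 16 * b ^ 4 ≤ K)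
    calc L ^ 2 * Real.log L ^ 2 ≤ (2 * K * b) ^ 2 * (2 * K * b) ^ 2 := mul_le_mul h13 h12 (by positivity) (by positivity)
      _ = (16 * (b : ℝ) ^ 4) * (K : ℝ) ^ 4 := by ring
      _ ≤ K * (K : ℝ) ^ 4 := mul_le_mul_of_nonneg_right hKb (by positivity)
      _ = _ := by ring
  obtain ⟨x, hx⟩ : ∃ x, x = ⌈thr d⌉₊ - 1 := ⟨_, rfl⟩
  rw [← hx]
  have hceil : r + 1 ≤ ⌈thr d⌉₊ := by
    have h5 := Nat.le_ceil (thr d)
    have h6 : ((r + 1 : ℕ) : ℝ) ≤ (⌈thr d⌉₊ : ℝ) := by push_cast; linarith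
    exact_mod_cast h6
  have hxr : r ≤ x := by omega
  have hx0 : (0 : ℝ) < x := by exact_mod_cast (by omega : 0 < x)
  have hx1 : (1 : ℝ) ≤ x := by exact_mod_cast (by omega : 1 ≤ x)
  have hxt : (x : ℝ) ≤ thr d := by
    have h5 : x < ⌈thr d⌉₊ := by omega
    exact (Nat.lt_ceil.1 h5).le
  have hlx : Real.log x ≤ c * r := by
    have h5 : Real.log x ≤ Real.log ((K : ℝ) ^ 5) := Real.log_le_log hx0 (hxt.trans ht2)
    rw [Real.log_pow] at h5
    push_cast at h5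
    linarith
  obtain ⟨Y, hY⟩ : ∃ Y : ℝ, Y = (PX x).card := ⟨_, rfl⟩
  have hE : ∀ β : Bool, |(cq (PX x) (-1, β) m : ℝ) - (PX x).card / 2| ≤ Real.sqrt (PX x).card * (x : ℝ) ^ (δ₁ / 8) := by
    intro β
    refine hlaw x hxr hlx (-1, β) (by norm_num) ?_
    rw [pow_one]
    show |(-1 : ℤ)| ≤ x
    rw [abs_neg, abs_one]
    exact_mod_cast (by omega : 1 ≤ x)
  have h5 := split_of hd hs (PX x) (fun p hp => (mem_PX.1 hp).1) _ hE true
  simp only [if_true] at h5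
  rw [← hY] at h5 ⊢
  have h6 := h1 x (by omega)
  rw [← hY] at h6
  have h7 := h2 x (by omega)
  have hY1 : 1 ≤ Y := (Real.one_le_rpow hx1 (by norm_num)).trans h6
  have hY0 : 0 < Y := by linarith
  obtain ⟨t, ht⟩ : ∃ t : ℝ, t = (x : ℝ) ^ (δ₁ / 8) := ⟨_, rfl⟩
  rw [← ht] at h5
  have ht1' : 1 ≤ t := by rw [ht]; exact Real.one_le_rpow hx1 (by positivity)
  have hsY : 1 ≤ Real.sqrt Y := Real.one_le_sqrt.2 hY1
  have h8 : |2 * (((PX x).filter (fun p => Sp d p)).card : ℝ) - Y| ≤ 8 * (Real.sqrt Y * t) := by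
    have h9 : 2 * (((PX x).filter (fun p => Sp d p)).card : ℝ) - Y = 2 * ((((PX x).filter (fun p => Sp d p)).card : ℝ) - Y / 2) := by ring
    rw [h9, abs_mul, abs_two]
    nlinarith
  refine h8.trans ?_
  have h9 : 8 * t ≤ Y ^ δ := by
    have h10 : ((x : ℝ) ^ (2 / 5 : ℝ)) ^ δ₁ ≤ Y ^ δ₁ := Real.rpow_le_rpow (by positivity) h6 hδ₁0.le
    have h11 : Y ^ δ₁ ≤ Y ^ δ := Real.rpow_le_rpow_of_exponent_le hY1 hδ₁δ
    have h12 : ((x : ℝ) ^ (2 / 5 : ℝ)) ^ δ₁ = (x : ℝ) ^ (δ₁ * (11 / 40)) * t := by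
      rw [ht, ← Real.rpow_mul hx0.le, ← Real.rpow_add hx0]
      congr 1
      ring
    rw [h12] at h10
    have h13 : 8 * t ≤ (x : ℝ) ^ (δ₁ * (11 / 40)) * t := mul_le_mul_of_nonneg_right h7 (by linarith)
    linarith
  rw [Real.rpow_add hY0, ← Real.sqrt_eq_rpow]
  calc 8 * (Real.sqrt Y * t) = Real.sqrt Y * (8 * t) := by ring
    _ ≤ Real.sqrt Y * Y ^ δ := mul_le_mul_of_nonneg_left h9 (Real.sqrt_nonneg _)

end Pool.Agent.TH894.NG
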