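import Pool.Agent.TH894.LH1

set_option autoImplicit false

/-! Frequencies near rationals with small denominators, under linear relations between two frequencies; counting the
nearly extremal ones. -/

namespace Pool.Agent.TH894.PA
open Finset
open Pool.Agent.H807R2.Dav
open Pool.Agent.H373R2.T7
open Pool.Agent.W93.DG

/-- the part of a small number composed of the primes dividing `b` -/
lemma decomp_le (b e α : ℕ) (hb : 2 ≤ b) (hα : 1 ≤ α) (hαe : α ≤ b ^ e) :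
    ∃ α₁ α₂ : ℕ, α = α₁ * α₂ ∧ α₁ ∣ b ^ (b * e) ∧ α₂.Coprime b ∧ 1 ≤ α₁ ∧ 1 ≤ α₂ := by
  obtain ⟨q₁, q₂, a, h1, h2, h3, h4, h5, h6⟩ := decomp b hb α hα
  refine ⟨q₁, q₂, h1, h2.trans (pow_dvd_pow b ?_), h4, h5, h6⟩
  have h7 : q₁ ≤ α := by rw [h1]; exact Nat.le_mul_of_pos_right _ h6
  have h8 : 2 ^ a ≤ 2 ^ (b * e) := by
    calc 2 ^ a ≤ b ^ e := h3.trans (h7.trans hαe)
      _ ≤ (2 ^ b) ^ e := Nat.pow_le_pow_left (Nat.lt_two_pow_self).le e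
      _ = 2 ^ (b * e) := (pow_mul 2 b e).symm
  exact (Nat.pow_le_pow_iff_right (by norm_num)).1 h8

/-- a linear relation between frequencies -/
lemma rel_scale (b k c e v i₁ i₂ i₃ r s : ℕ) (hb : 2 ≤ b) (α : ℕ) (h1α : 1 ≤ α) (hα : α ≤ b ^ e) (η : ℤ) (hη : |η| ≤ (b : ℤ) ^ e)
    (hr : InScale b (k + c) v i₁ i₂ i₃ r) (j : ℤ)
    (hrel : |(α : ℤ) * (b : ℤ) ^ c * s - η * r - j * (b : ℤ) ^ (k + c + 1)| ≤ α * (b : ℤ) ^ c) :
    InScale b k (v + b * e) (i₁ + e) (i₂ + e) (i₃ + e + 1) s := by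
  obtain ⟨q₁, q₂, c₀, h1, h2, h3, h4, h5, h6, h7⟩ := hr
  obtain ⟨α₁, α₂, g1, g2, g3, g4, g5⟩ := decomp_le b e α hb h1α hα
  have hb0 : (0 : ℤ) < b := by exact_mod_cast (by omega : 0 < b)
  have hb2 : (2 : ℤ) ≤ b := by exact_mod_cast hb
  obtain ⟨c₁, hc₁⟩ : ∃ c₁ : ℤ, c₁ = η * c₀ + j * (q₁ * q₂) := ⟨_, rfl⟩
  -- the main inequality
  have hq : (0 : ℤ) ≤ q₁ * q₂ := by positivity
  have hB : (0 : ℤ) < (b : ℤ) ^ c := by positivity
  have hα0 : (1 : ℤ) ≤ α := by exact_mod_cast h1α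
  have key : |(s : ℤ) * (α * (q₁ * q₂)) - c₁ * (b : ℤ) ^ (k + 1)| ≤ α * (q₁ * q₂) * (b : ℤ) ^ (i₃ + e + 1 + 1) := by
    have e1 : ((s : ℤ) * (α * (q₁ * q₂)) - c₁ * (b : ℤ) ^ (k + 1)) * (b : ℤ) ^ c =
        ((α : ℤ) * (b : ℤ) ^ c * s - η * r - j * (b : ℤ) ^ (k + c + 1)) * (q₁ * q₂) +
        η * ((r : ℤ) * (q₁ * q₂) - c₀ * (b : ℤ) ^ (k + c + 1)) := by
      rw [hc₁, show k + c + 1 = (k + 1) + c by ring, pow_add (b : ℤ) (k + 1) c]
      ring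
    have e2 : |((s : ℤ) * (α * (q₁ * q₂)) - c₁ * (b : ℤ) ^ (k + 1)) * (b : ℤ) ^ c| ≤
        α * (b : ℤ) ^ c * (q₁ * q₂) + (b : ℤ) ^ e * (q₁ * q₂ * (b : ℤ) ^ (i₃ + 1)) := by
      rw [e1]
      refine (abs_add_le _ _).trans (add_le_add ?_ ?_)
      · rw [abs_mul, abs_of_nonneg hq]
        exact mul_le_mul_of_nonneg_right hrel hq
      · rw [abs_mul]
        exact mul_le_mul hη h7 (abs_nonneg _) (by positivity)
    rw [abs_mul, abs_of_pos hB] at e2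
    have e3 : α * (b : ℤ) ^ c * (q₁ * q₂) + (b : ℤ) ^ e * (q₁ * q₂ * (b : ℤ) ^ (i₃ + 1)) ≤
        (α * (q₁ * q₂) * (b : ℤ) ^ (i₃ + e + 1 + 1)) * (b : ℤ) ^ c := by
      have f1 : (b : ℤ) ^ e * (q₁ * q₂ * (b : ℤ) ^ (i₃ + 1)) ≤ (α * (q₁ * q₂) * (b : ℤ) ^ (i₃ + e + 1)) * (b : ℤ) ^ c := by
        have f2 : (b : ℤ) ^ e * (q₁ * q₂ * (b : ℤ) ^ (i₃ + 1)) = (1 * (q₁ * q₂) * (b : ℤ) ^ (i₃ + e + 1)) * 1 := by
          rw [show i₃ + e + 1 = e + (i₃ + 1) by ring, pow_add (b : ℤ) e]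
          ring
        rw [f2]
        apply mul_le_mul _ (one_le_pow₀ (by linarith)) (by norm_num) (by positivity)
        apply mul_le_mul_of_nonneg_right _ (by positivity)
        exact mul_le_mul_of_nonneg_right hα0 hq
      have f3 : α * (b : ℤ) ^ c * (q₁ * q₂) ≤ (α * (q₁ * q₂) * (b : ℤ) ^ (i₃ + e + 1)) * (b : ℤ) ^ c := by
        have f4 : α * (b : ℤ) ^ c * (q₁ * q₂) = (α * (q₁ * q₂) * 1) * (b : ℤ) ^ c := by ring
        rw [f4]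
        apply mul_le_mul_of_nonneg_right _ hB.le
        apply mul_le_mul_of_nonneg_left _ (by positivity)
        exact one_le_pow₀ (by linarith)
      have f5 : (α * (q₁ * q₂) * (b : ℤ) ^ (i₃ + e + 1 + 1)) * (b : ℤ) ^ c = ((α * (q₁ * q₂) * (b : ℤ) ^ (i₃ + e + 1)) * (b : ℤ) ^ c) * b := by
        rw [pow_succ (b : ℤ) (i₃ + e + 1)]
        ring
      rw [f5]
      have f6 : 0 ≤ (α * (q₁ * q₂) * (b : ℤ) ^ (i₃ + e + 1)) * (b : ℤ) ^ c := by positivity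
      nlinarith
    exact le_of_mul_le_mul_right (e2.trans e3) hB
  -- reduction of the fraction
  obtain ⟨Q₂, hQ₂⟩ : ∃ Q₂ : ℕ, Q₂ = q₂ * α₂ := ⟨_, rfl⟩
  have hQ₂1 : 1 ≤ Q₂ := by rw [hQ₂]; exact Nat.mul_pos h3 g5
  obtain ⟨g, hg⟩ : ∃ g : ℕ, g = Int.gcd c₁ Q₂ := ⟨_, rfl⟩
  have hg0 : 0 < g := by
    rw [hg]
    apply Int.gcd_pos_of_ne_zero_right
    exact_mod_cast (by omega : Q₂ ≠ 0)
  have hgc : (g : ℤ) ∣ c₁ := by rw [hg]; exact Int.gcd_dvd_left _ _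
  have hgQ : g ∣ Q₂ := by
    have : (g : ℤ) ∣ (Q₂ : ℤ) := by rw [hg]; exact Int.gcd_dvd_right _ _
    exact_mod_cast this
  obtain ⟨c₂, hc₂⟩ := hgc
  obtain ⟨q₃, hq₃⟩ := hgQ
  have hq₃1 : 1 ≤ q₃ := by
    rcases Nat.eq_zero_or_pos q₃ with h0 | h0
    · rw [h0, mul_zero] at hq₃; omega
    · exact h0
  have hcop : IsCoprime c₂ (q₃ : ℤ) := by
    rw [Int.isCoprime_iff_gcd_eq_one]
    have e1 : Int.gcd ((g : ℤ) * c₂) ((g : ℤ) * q₃) = g := by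
      rw [← hc₂]
      have : ((g : ℤ) * q₃) = (Q₂ : ℤ) := by exact_mod_cast hq₃.symm
      rw [this, hg]
    rw [Int.gcd_mul_left] at e1
    have e2 : g * Int.gcd c₂ q₃ = g * 1 := by
      rw [mul_one]
      simpa using e1
    exact Nat.eq_of_mul_eq_mul_left hg0 e2
  refine ⟨q₁ * α₁, q₃, c₂, ?_, ?_, hq₃1, ?_, ?_, hcop, ?_⟩
  · rw [pow_add]
    exact mul_dvd_mul h1 g2
  · have : α₁ ≤ b ^ e := by
      refine le_trans ?_ hα
      rw [g1]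
      exact Nat.le_mul_of_pos_right _ g5
    rw [pow_add]
    exact Nat.mul_le_mul h2 this
  · have e1 : q₃ ≤ Q₂ := Nat.le_of_dvd (by omega) ⟨g, by rw [hq₃]; ring⟩
    have e2 : α₂ ≤ b ^ e := by
      refine le_trans ?_ hα
      rw [g1]
      exact Nat.le_mul_of_pos_left _ g4
    rw [pow_add]
    refine e1.trans ?_
    rw [hQ₂]
    exact Nat.mul_le_mul h4 e2
  · have e1 : q₃ ∣ Q₂ := ⟨g, by rw [hq₃]; ring⟩
    apply Nat.Coprime.coprime_dvd_left e1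
    rw [hQ₂]
    exact Nat.Coprime.mul_left h5 g3
  · have hgz : (0 : ℤ) < g := by exact_mod_cast hg0
    have e0 : (α : ℤ) * (q₁ * q₂) = g * ((q₁ * α₁) * q₃) := by
      have e1 : (α : ℤ) = α₁ * α₂ := by exact_mod_cast g1
      have e2 : (q₂ : ℤ) * α₂ = g * q₃ := by
        have : q₂ * α₂ = g * q₃ := by rw [← hQ₂, hq₃]
        exact_mod_cast this
      rw [e1]
      linear_combination (q₁ : ℤ) * α₁ * e2
    rw [e0, hc₂] at key
    have e3 : (s : ℤ) * (g * ((q₁ * α₁) * q₃)) - g * c₂ * (b : ℤ) ^ (k + 1) = g * ((s : ℤ) * ((q₁ * α₁) * q₃) - c₂ * (b : ℤ) ^ (k + 1)) := by ring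
    rw [e3, abs_mul, abs_of_pos hgz] at key
    have e4 : (g : ℤ) * ((q₁ * α₁) * q₃) * (b : ℤ) ^ (i₃ + e + 1 + 1) = g * ((q₁ * α₁) * q₃ * (b : ℤ) ^ (i₃ + e + 1 + 1)) := by ring
    rw [e4] at key
    have e5 := le_of_mul_le_mul_left key hgz
    push_cast
    exact e5

/-- counting nearly extremal frequencies near rationals with small denominators -/
theorem cnt_bad (b : ℕ) (hb : 2 ≤ b) : ∃ R C : ℕ, 1 ≤ R ∧ 1 ≤ C ∧
    (∀ (k m h r₀ μ : ℕ), m = k / (16 * b) → 15 ≤ k → 1 ≤ μ → ∀ S : Finset ℕ,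
      (∀ s ∈ S, s < b ^ (k + 1) ∧ Bad b R k h m ((μ * s + r₀) % b ^ (k + 1))) →
      S.card ≤ b ^ (2 * (m / 8) + m / 8 + 2) * μ) ∧
    (∀ (k m h v r₀ μ e₀ I : ℕ), m = k / (16 * b) → 15 ≤ k → 1 ≤ μ → μ ≤ b ^ e₀ → m ≤ I → m ≤ v →
      I + e₀ + h + 3 ≤ k → 2 * (3 * I + e₀ + v + 3) ≤ k → ∀ i₁ i₂ i₃ : ℕ, i₁ ≤ I → i₂ ≤ I → i₃ ≤ I → (h ≤ i₁ ∨ h ≤ i₂ ∨ h ≤ i₃) →
      ∀ S : Finset ℕ, (∀ s ∈ S, s < b ^ (k + 1) ∧ InScale b k v i₁ i₂ i₃ s ∧ Bad b R k h m ((μ * s + r₀) % b ^ (k + 1))) →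
      S.card * b ^ (h / 2) ≤ C * k ^ (b + 1) * b ^ (i₁ + i₂ + i₃ + 2 * e₀)) := by
  classical
  obtain ⟨R, C, hR, hC, hent, hcount⟩ := count_all b hb (128 * b) (by omega)
  have hbn : 0 < b := by omega
  refine ⟨R, C, hR, hC, ?_, ?_⟩
  · intro k m h r₀ μ hm hk9 hμ S hS
    have hMpos : 0 < b ^ (k + 1) := Nat.pow_pos hbn
    have himg : ∀ r ∈ S, (μ * r) % b ^ (k + 1) < b ^ (k + 1) ∧
        Bad b R k h m (((μ * r) % b ^ (k + 1) + r₀) % b ^ (k + 1)) := by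
      intro r hr
      refine ⟨Nat.mod_lt _ hMpos, ?_⟩
      rw [Nat.mod_add_mod]
      exact (hS r hr).2
    have h0 := mul_card (b ^ (k + 1)) μ hμ S (fun r hr => (hS r hr).1)
    have h1 := bad_card b R (128 * b) k (m / 8) r₀ hb hR hent (by
        have : m ≤ k := by rw [hm]; exact Nat.div_le_self _ _
        omega) (S.image (fun r => (μ * r) % b ^ (k + 1))) (by
      intro x hx
      obtain ⟨r, hr, rfl⟩ := mem_image.1 hx
      exact ⟨(himg r hr).1, (himg r hr).2.2.2⟩)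
    have h2 : k / (128 * b) = m / 8 := by
      rw [hm, Nat.div_div_eq_div_mul]
      congr 1
      ring
    rw [h2] at h1
    exact h0.trans (Nat.mul_le_mul_right _ h1)
  · intro k m h v r₀ μ e₀ I hm hk9 hμ hμb hmI hmv hIk hIv i₁ i₂ i₃ hi1 hi2 hi3 hlarge S hS
    have hMpos : 0 < b ^ (k + 1) := Nat.pow_pos hbn
    have himg : ∀ r ∈ S, (μ * r) % b ^ (k + 1) < b ^ (k + 1) ∧
        Bad b R k h m (((μ * r) % b ^ (k + 1) + r₀) % b ^ (k + 1)) := by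
      intro r hr
      refine ⟨Nat.mod_lt _ hMpos, ?_⟩
      rw [Nat.mod_add_mod]
      exact (hS r hr).2.2
    obtain ⟨nb, hnb'⟩ : ∃ nb, nb = (k - (I + e₀ + 2) - v) / (2 * i₂ + 1) := ⟨_, rfl⟩
    have hnbl : nb * (2 * i₂ + 1) ≤ k - (I + e₀ + 2) - v := by rw [hnb']; exact Nat.div_mul_le_self _ _
    have hnbl2 : k - (I + e₀ + 2) - v < nb * (2 * i₂ + 1) + (2 * i₂ + 1) := by
      rw [hnb']; exact Nat.lt_div_mul_add (by omega)
    have hnb : nb ≤ k := by rw [hnb']; exact (Nat.div_le_self _ _).trans (by omega)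
    have key := hcount k (I + e₀) v h r₀ (by omega) (by omega) (by omega) i₁ i₂ (i₃ + e₀) (by omega) (by omega) (by omega)
      (by omega) nb hnb (fun n => (I + e₀ + 2) + n * (2 * i₂ + 1)) (by
        intro n hn
        have h2 : (n + 1) * (2 * i₂ + 1) ≤ nb * (2 * i₂ + 1) := Nat.mul_le_mul_right _ hn
        rw [add_mul, one_mul] at h2
        constructor
        · omega
        · omega) (S.image (fun r => (μ * r) % b ^ (k + 1))) (by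
        intro x hx
        obtain ⟨r, hr, rfl⟩ := mem_image.1 hx
        obtain ⟨hr1, hr2⟩ := himg r hr
        refine ⟨hr1, ?_, ?_, hr2.1, hr2.2.1⟩
        · exact InScale_mul b e₀ k v i₁ i₂ i₃ r μ hμ hμb (hS r hr).2.1
        · exact block_ex b R k (I + e₀ + 2) (2 * i₂ + 1) nb (m / 8) (k - 2 * (m / 8)) _
            (by omega) (by omega) (by omega) (by omega) (by omega) hr2.2.2)
    have h0 := mul_card (b ^ (k + 1)) μ hμ S (fun r hr => (hS r hr).1)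
    calc S.card * b ^ (h / 2) ≤ ((S.image (fun r => (μ * r) % b ^ (k + 1))).card * μ) * b ^ (h / 2) :=
          Nat.mul_le_mul_right _ h0
      _ = ((S.image (fun r => (μ * r) % b ^ (k + 1))).card * b ^ (h / 2)) * μ := by ring
      _ ≤ (C * k ^ (b + 1) * b ^ (i₁ + i₂ + (i₃ + e₀))) * b ^ e₀ := Nat.mul_le_mul key hμb
      _ = _ := by
        rw [mul_assoc, ← pow_add]
        congr 2
        ring

end Pool.Agent.TH894.PA
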