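import Pool.Agent.TH894.PA1

set_option autoImplicit false

/-! The sum of the weights of the frequencies over pairs of frequencies which satisfy a linear relation. -/

namespace Pool.Agent.TH894.PA
open Finset
open Pool.Agent.H807R2.Dav
open Pool.Agent.H373R2.T7
open Pool.Agent.W93.DG

lemma card_fib (P : Finset (ℕ × ℕ)) (F : ℕ) (h : ∀ t, (P.filter (fun p => p.2 = t)).card ≤ F) :
    P.card ≤ (P.image Prod.snd).card * F := by
  classical
  have h1 := card_eq_sum_card_image Prod.snd P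
  rw [h1, ← smul_eq_mul, ← sum_const]
  exact sum_le_sum fun t _ => h t

/-- the weights of the pairs -/
theorem wt_pairs (b : ℕ) (hb : 2 ≤ b) : ∃ R C : ℕ, 1 ≤ R ∧ ∀ (k c e e₀ h r₀ μ : ℕ), 15 ≤ k → c ≤ e →
    4 * e₀ + 40 * (b * e) + 4 * h + 100 ≤ k → 1 ≤ μ → μ ≤ b ^ e₀ → ∀ α : ℕ, 1 ≤ α → α ≤ b ^ e → ∀ η : ℤ, |η| ≤ (b : ℤ) ^ e →
    ∀ t₁ : ℕ, t₁ ≤ b ^ (k + 1) → ∀ P : Finset (ℕ × ℕ),
    (∀ p ∈ P, p.2 < b ^ (k + 1) ∧ Bad b R k h (k / (16 * b)) ((μ * p.2 + r₀) % b ^ (k + 1)) ∧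
      ∃ j : ℤ, |(α : ℤ) * (b : ℤ) ^ c * ((p.2 : ℤ) - t₁) - η * p.1 - j * (b : ℤ) ^ (k + c + 1)| ≤ α * (b : ℤ) ^ c) →
    (∀ t, (P.filter (fun p => p.2 = t)).card ≤ b ^ e) →
    ∑ p ∈ P, wt b (k + c) ((k + c) / (16 * b)) h p.1 ≤
      (b : ℝ) ^ (e + e₀ + 2) / 2 ^ (k / (16 * b) / 2) + C * (b : ℝ) ^ (4 * e + 2 * e₀ + 5) * ((k + c : ℕ) : ℝ) ^ (b + 4) / (b : ℝ) ^ (h / 2) := by
  classical
  obtain ⟨R, C, hR, hC, hcard, hcnt⟩ := cnt_bad b hb
  refine ⟨R, C, hR, fun k c e e₀ h r₀ μ hk15 hce hk hμ hμb α hα1 hα η hη t₁ ht₁ P hP hfib => ?_⟩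
  have hbn : 0 < b := by omega
  have hbr : (2 : ℝ) ≤ b := by exact_mod_cast hb
  have hb0 : (0 : ℝ) < b := by linarith
  obtain ⟨M, hM⟩ : ∃ M, M = b ^ (k + 1) := ⟨_, rfl⟩
  have hMpos : 0 < M := by rw [hM]; exact Nat.pow_pos hbn
  obtain ⟨m, hm⟩ : ∃ m, m = k / (16 * b) := ⟨_, rfl⟩
  obtain ⟨m₁, hm₁⟩ : ∃ m₁, m₁ = (k + c) / (16 * b) := ⟨_, rfl⟩
  obtain ⟨v, hv⟩ : ∃ v, v = b * m₁ := ⟨_, rfl⟩
  obtain ⟨be, hbe⟩ : ∃ be, be = b * e := ⟨_, rfl⟩
  have hebe : 2 * e ≤ be := by rw [hbe]; exact Nat.mul_le_mul_right _ hb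
  have hmm₁ : m ≤ m₁ := by rw [hm, hm₁]; exact Nat.div_le_div_right (by omega)
  have h16 : 16 * v ≤ k + c := by
    have := Nat.mul_div_le (k + c) (16 * b)
    rw [← hm₁] at this
    calc 16 * v = 16 * b * m₁ := by rw [hv]; ring
      _ ≤ k + c := this
  have h2m : 2 * m₁ ≤ v := by rw [hv]; exact Nat.mul_le_mul_right _ hb
  rw [← hbe] at hk
  rw [← hM] at hP ht₁
  rw [← hm] at hP ⊢
  rw [← hm₁]
  unfold wt
  rw [sum_add_distrib, sum_const, nsmul_eq_mul, sum_comm]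
  apply add_le_add
  · have h1 := card_fib P (b ^ e) hfib
    have h2 := hcard k m h r₀ μ hm hk15 hμ (P.image Prod.snd) (by
      intro s hs
      rw [mem_image] at hs
      obtain ⟨p, hp, rfl⟩ := hs
      have := hP p hp
      rw [← hM]
      exact ⟨this.1, this.2.1⟩)
    have h3 : (P.card : ℝ) ≤ ((b : ℝ) ^ (2 * (m / 8) + m / 8 + 2) * (b : ℝ) ^ e₀) * (b : ℝ) ^ e := by
      have : P.card ≤ (b ^ (2 * (m / 8) + m / 8 + 2) * b ^ e₀) * b ^ e :=
        h1.trans (Nat.mul_le_mul_right _ (h2.trans (Nat.mul_le_mul_left _ hμb)))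
      exact_mod_cast this
    rw [mul_one_div, div_le_div_iff₀ (by positivity) (by positivity)]
    calc (P.card : ℝ) * 2 ^ (m / 2) ≤ (((b : ℝ) ^ (2 * (m / 8) + m / 8 + 2) * (b : ℝ) ^ e₀) * (b : ℝ) ^ e) * (b : ℝ) ^ (m / 2) := by
          apply mul_le_mul h3 (pow_le_pow_left₀ (by norm_num) hbr _) (by positivity) (by positivity)
      _ = (b : ℝ) ^ (e + e₀ + 2 + (2 * (m / 8) + m / 8 + m / 2)) := by rw [← pow_add, ← pow_add, ← pow_add]; congr 1; ring
      _ ≤ (b : ℝ) ^ (e + e₀ + 2 + m₁) := pow_le_pow_right₀ (by linarith) (by omega)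
      _ = _ := by rw [pow_add]
  · have h1 : ∀ i ∈ TL m₁ h, ∑ p ∈ P, (if InScale b (k + c) (b * m₁) i.1 i.2.1 i.2.2 p.1 then 2 * (b : ℝ) ^ 3 / (b : ℝ) ^ (i.1 + i.2.1 + i.2.2) else 0) ≤
        2 * (b : ℝ) ^ (4 * e + 2 * e₀ + 4) * C * (((k + c : ℕ) : ℝ)) ^ (b + 1) / (b : ℝ) ^ (h / 2) := by
      intro i hi
      obtain ⟨i₁, i₂, i₃⟩ := i
      rw [mem_TL] at hi
      obtain ⟨⟨hi1, hi2, hi3⟩, hlarge⟩ := hi
      simp only
      rw [← sum_filter, sum_const, nsmul_eq_mul]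
      obtain ⟨Pi, hPi⟩ : ∃ Pi, Pi = P.filter (fun p => InScale b (k + c) (b * m₁) i₁ i₂ i₃ p.1) := ⟨_, rfl⟩
      rw [← hPi]
      have hfib' : ∀ t, (Pi.filter (fun p => p.2 = t)).card ≤ b ^ e := by
        intro t
        refine le_trans (card_le_card ?_) (hfib t)
        rw [hPi]
        exact filter_subset_filter _ (filter_subset _ _)
      have g1 := card_fib Pi (b ^ e) hfib'
      obtain ⟨sh, hsh⟩ : ∃ sh : ℕ → ℕ, sh = fun t => (t + (M - t₁)) % M := ⟨_, rfl⟩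
      have hinj : Set.InjOn sh ((Pi.image Prod.snd : Finset ℕ) : Set ℕ) := by
        intro t ht t' ht' htt
        rw [mem_coe, mem_image] at ht ht'
        obtain ⟨p, hp, rfl⟩ := ht
        obtain ⟨p', hp', rfl⟩ := ht'
        rw [hPi, mem_filter] at hp hp'
        have a1 := (hP p hp.1).1
        have a2 := (hP p' hp'.1).1
        rw [hsh] at htt
        simp only at htt
        have a3 : (p.2 + (M - t₁)) ≡ (p'.2 + (M - t₁)) [MOD M] := htt
        have a4 := Nat.ModEq.add_right_cancel' _ a3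
        unfold Nat.ModEq at a4
        rwa [Nat.mod_eq_of_lt a1, Nat.mod_eq_of_lt a2] at a4
      have g2 := hcnt k m h (v + be) (μ * t₁ + r₀) μ e₀ (m₁ + e + 1) hm hk15 hμ hμb (by omega) (by omega) (by omega) (by omega)
        (i₁ + e) (i₂ + e) (i₃ + e + 1) (by omega) (by omega) (by omega) (by omega)
        ((Pi.image Prod.snd).image sh) (by
          intro s hs
          rw [mem_image] at hs
          obtain ⟨t, ht, rfl⟩ := hs
          rw [mem_image] at ht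
          obtain ⟨p, hp, rfl⟩ := ht
          rw [hPi, mem_filter] at hp
          obtain ⟨a1, a2, j, a3⟩ := hP p hp.1
          have b1 : sh p.2 < M := by rw [hsh]; exact Nat.mod_lt _ hMpos
          -- the relation for the translated frequency
          obtain ⟨w, hw⟩ : ∃ w : ℕ, w = (p.2 + (M - t₁)) / M := ⟨_, rfl⟩
          have b2 : M * w + sh p.2 = p.2 + (M - t₁) := by
            rw [hw, hsh]
            exact Nat.div_add_mod _ _
          have b3 : (M : ℤ) * w + (sh p.2 : ℕ) = p.2 + (M - t₁) := by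
            have : ((M * w + sh p.2 : ℕ) : ℤ) = ((p.2 + (M - t₁) : ℕ) : ℤ) := by rw [b2]
            rw [Nat.cast_add, Nat.cast_add, Nat.cast_mul, Nat.cast_sub ht₁] at this
            exact this
          refine ⟨by rw [← hM]; exact b1, ?_, ?_⟩
          · rw [hv, hbe]
            apply rel_scale b k c e (b * m₁) i₁ i₂ i₃ p.1 (sh p.2) hb α hα1 hα η hη hp.2 (j + α * (1 - w))
            have b4 : (b : ℤ) ^ (k + c + 1) = M * (b : ℤ) ^ c := by
              rw [hM]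
              push_cast
              rw [← pow_add]
              congr 1
              ring
            have b5 : (α : ℤ) * (b : ℤ) ^ c * (sh p.2 : ℕ) - η * p.1 - (j + α * (1 - w)) * (b : ℤ) ^ (k + c + 1) =
                (α : ℤ) * (b : ℤ) ^ c * ((p.2 : ℤ) - t₁) - η * p.1 - j * (b : ℤ) ^ (k + c + 1) := by
              rw [b4]
              linear_combination (α : ℤ) * (b : ℤ) ^ c * b3
            rw [b5]
            exact a3
          · rw [← hM]
            have b4 : (μ * sh p.2 + (μ * t₁ + r₀)) % M = (μ * p.2 + r₀) % M := by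
              have b5 : μ * sh p.2 + (μ * t₁ + r₀) ≡ μ * p.2 + r₀ [MOD M] := by
                have b6 : sh p.2 + t₁ ≡ p.2 [MOD M] := by
                  have b7 : sh p.2 + t₁ + M * w = p.2 + M := by omega
                  have b8 : sh p.2 + t₁ + M * w ≡ sh p.2 + t₁ [MOD M] := by
                    unfold Nat.ModEq
                    rw [Nat.add_mul_mod_self_left]
                  have b9 : p.2 + M ≡ p.2 [MOD M] := by
                    unfold Nat.ModEq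
                    rw [Nat.add_mod_right]
                  exact b8.symm.trans (by rw [b7]; exact b9)
                have b10 : μ * sh p.2 + (μ * t₁ + r₀) = μ * (sh p.2 + t₁) + r₀ := by ring
                rw [b10]
                exact Nat.ModEq.add_right _ (Nat.ModEq.mul_left _ b6)
              exact b5
            rw [b4]
            exact a2)
      rw [card_image_of_injOn hinj] at g2
      have g3 : Pi.card * b ^ (h / 2) ≤ (C * k ^ (b + 1) * b ^ (i₁ + e + (i₂ + e) + (i₃ + e + 1) + 2 * e₀)) * b ^ e := by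
        calc Pi.card * b ^ (h / 2) ≤ ((Pi.image Prod.snd).card * b ^ e) * b ^ (h / 2) := Nat.mul_le_mul_right _ g1
          _ = ((Pi.image Prod.snd).card * b ^ (h / 2)) * b ^ e := by ring
          _ ≤ _ := Nat.mul_le_mul_right _ g2
      have g4 : (Pi.card : ℝ) * (b : ℝ) ^ (h / 2) ≤ C * ((k + c : ℕ) : ℝ) ^ (b + 1) * (b : ℝ) ^ (i₁ + i₂ + i₃) * (b : ℝ) ^ (4 * e + 2 * e₀ + 1) := by
        have g5 : (Pi.card : ℝ) * (b : ℝ) ^ (h / 2) ≤ (C * (k : ℝ) ^ (b + 1) * (b : ℝ) ^ (i₁ + e + (i₂ + e) + (i₃ + e + 1) + 2 * e₀)) * (b : ℝ) ^ e := by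
          exact_mod_cast g3
        refine g5.trans ?_
        have g6 : (b : ℝ) ^ (i₁ + e + (i₂ + e) + (i₃ + e + 1) + 2 * e₀) * (b : ℝ) ^ e = (b : ℝ) ^ (i₁ + i₂ + i₃) * (b : ℝ) ^ (4 * e + 2 * e₀ + 1) := by
          rw [← pow_add, ← pow_add]
          congr 1
          ring
        have g7 : (k : ℝ) ^ (b + 1) ≤ ((k + c : ℕ) : ℝ) ^ (b + 1) := by
          apply pow_le_pow_left₀ (Nat.cast_nonneg _)
          exact_mod_cast Nat.le_add_right k c
        calc (C * (k : ℝ) ^ (b + 1) * (b : ℝ) ^ (i₁ + e + (i₂ + e) + (i₃ + e + 1) + 2 * e₀)) * (b : ℝ) ^ e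
            = C * (k : ℝ) ^ (b + 1) * ((b : ℝ) ^ (i₁ + i₂ + i₃) * (b : ℝ) ^ (4 * e + 2 * e₀ + 1)) := by rw [← g6]; ring
          _ ≤ C * ((k + c : ℕ) : ℝ) ^ (b + 1) * ((b : ℝ) ^ (i₁ + i₂ + i₃) * (b : ℝ) ^ (4 * e + 2 * e₀ + 1)) := by
              apply mul_le_mul_of_nonneg_right _ (by positivity)
              exact mul_le_mul_of_nonneg_left g7 (Nat.cast_nonneg _)
          _ = _ := by ring
      rw [le_div_iff₀ (by positivity)]
      calc (Pi.card : ℝ) * (2 * (b : ℝ) ^ 3 / (b : ℝ) ^ (i₁ + i₂ + i₃)) * (b : ℝ) ^ (h / 2)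
          = (2 * (b : ℝ) ^ 3 / (b : ℝ) ^ (i₁ + i₂ + i₃)) * ((Pi.card : ℝ) * (b : ℝ) ^ (h / 2)) := by ring
        _ ≤ (2 * (b : ℝ) ^ 3 / (b : ℝ) ^ (i₁ + i₂ + i₃)) * (C * ((k + c : ℕ) : ℝ) ^ (b + 1) * (b : ℝ) ^ (i₁ + i₂ + i₃) * (b : ℝ) ^ (4 * e + 2 * e₀ + 1)) :=
            mul_le_mul_of_nonneg_left g4 (by positivity)
        _ = _ := by
          rw [show 4 * e + 2 * e₀ + 4 = 3 + (4 * e + 2 * e₀ + 1) by ring, pow_add (b : ℝ) 3]
          field_simp
    refine (sum_le_sum h1).trans ?_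
    rw [sum_const, nsmul_eq_mul]
    have h2 : (((TL m₁ h).card : ℕ) : ℝ) ≤ ((k + c : ℕ) : ℝ) ^ 3 := by
      have h3 : (TL m₁ h).card ≤ (k + c) ^ 3 := by
        refine (card_filter_le _ _).trans ?_
        rw [card_product, card_product, card_range]
        calc (m₁ + 1) * ((m₁ + 1) * (m₁ + 1)) = (m₁ + 1) ^ 3 := by ring
          _ ≤ (k + c) ^ 3 := Nat.pow_le_pow_left (by omega) 3
      exact_mod_cast h3
    calc _ ≤ ((k + c : ℕ) : ℝ) ^ 3 * (2 * (b : ℝ) ^ (4 * e + 2 * e₀ + 4) * C * (((k + c : ℕ) : ℝ)) ^ (b + 1) / (b : ℝ) ^ (h / 2)) :=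
          mul_le_mul_of_nonneg_right h2 (by positivity)
      _ = (2 * (b : ℝ) ^ (4 * e + 2 * e₀ + 4)) * (C * ((k + c : ℕ) : ℝ) ^ (b + 4) / (b : ℝ) ^ (h / 2)) := by
          rw [show b + 4 = 3 + (b + 1) by ring, pow_add (((k + c : ℕ) : ℝ)) 3]
          ring
      _ ≤ ((b : ℝ) ^ (4 * e + 2 * e₀ + 5)) * (C * ((k + c : ℕ) : ℝ) ^ (b + 4) / (b : ℝ) ^ (h / 2)) := by
          apply mul_le_mul_of_nonneg_right _ (by positivity)
          rw [pow_succ' (b : ℝ) (4 * e + 2 * e₀ + 4)]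
          exact mul_le_mul_of_nonneg_right hbr (by positivity)
      _ = _ := by ring

end Pool.Agent.TH894.PA
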