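import Pool.Agent.TH894.PA2

set_option autoImplicit false

/-! The `L²` norm of an exponential sum over pairs of frequencies which satisfy a linear relation, one of them nearly
extremal. -/

namespace Pool.Agent.TH894.PA
open Finset
open Pool.Agent.H807R2.Dav
open Pool.Agent.H373R2.T7
open Pool.Agent.W93.DG
open Pool.Agent.W93.RD
open Pool.Agent.W93.LM
open Pool.Agent.W93.TD (p1_num)

/-- frequencies close to rationals with very small denominators -/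
def PL (b k h r : ℕ) : Prop := ∃ i₁ i₂ i₃ : ℕ, i₁ ≤ h ∧ i₂ ≤ h ∧ i₃ ≤ h ∧ InScale b k (b * (k / (16 * b))) i₁ i₂ i₃ r

/-- the bounds for an exponential sum at the frequencies `r / b ^ (k + 1)` -/
structure Gd (b k h U' W : ℕ) (F : ℕ → ℂ) : Prop where
  small : ∀ r < b ^ (k + 1), PL b k h r → ‖F r‖ ≤ ((b ^ k : ℕ) : ℝ) / Real.log ((b ^ k : ℕ) : ℝ) ^ U'
  big : ∃ E : ℕ → ℝ, (∀ r, 0 ≤ E r) ∧ ∑ r ∈ range (b ^ (k + 1)), E r ≤ ((b ^ (k + 1) : ℕ) : ℝ) * ((b ^ k : ℕ) : ℝ) / (k : ℝ) ^ W ∧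
    ∀ r < b ^ (k + 1), ¬ PL b k h r →
      ‖F r‖ ^ 2 ≤ (4000000 * Real.log ((b ^ k : ℕ) : ℝ) ^ 8 * ((b ^ k : ℕ) : ℝ)) ^ 2 * wt b k (k / (16 * b)) h r + E r

lemma sum_fst (P : Finset (ℕ × ℕ)) (M F : ℕ) (h : ∀ r, (P.filter (fun p => p.1 = r)).card ≤ F) (hM : ∀ p ∈ P, p.1 < M)
    (E : ℕ → ℝ) (hE : ∀ r, 0 ≤ E r) : ∑ p ∈ P, E p.1 ≤ F * ∑ r ∈ range M, E r := by
  classical
  rw [← sum_fiberwise_of_maps_to (g := Prod.fst) (t := range M) (fun p hp => mem_range.2 (hM p hp)), mul_sum]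
  apply sum_le_sum
  intro r _
  have h1 : ∑ p ∈ P with p.1 = r, E p.1 = ((P.filter (fun p => p.1 = r)).card : ℝ) * E r := by
    rw [← nsmul_eq_mul, ← sum_const]
    apply sum_congr rfl
    intro p hp
    rw [(mem_filter.1 hp).2]
  rw [h1]
  apply mul_le_mul_of_nonneg_right _ (hE r)
  exact_mod_cast h r

lemma card_fst (P : Finset (ℕ × ℕ)) (F : ℕ) (h : ∀ r, (P.filter (fun p => p.1 = r)).card ≤ F) :
    P.card ≤ (P.image Prod.fst).card * F := by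
  classical
  have h1 := card_eq_sum_card_image Prod.fst P
  rw [h1, ← smul_eq_mul, ← sum_const]
  exact sum_le_sum fun t _ => h t

/-- the `L²` norm over the pairs -/
theorem bad_pairs (b : ℕ) (hb : 2 ≤ b) : ∃ R : ℕ, 1 ≤ R ∧ ∀ e₀ κ U : ℕ, ∃ A U' W : ℕ, U ≤ A ∧ ∃ k₀ : ℕ, ∀ k : ℕ, k₀ ≤ k →
    ∀ c e : ℕ, c ≤ e → e ≤ κ * (Nat.log b k + 1) → ∀ F : ℕ → ℂ, Gd b (k + c) (hh b A k) U' W F →
    ∀ r₀ μ : ℕ, 1 ≤ μ → μ ≤ b ^ e₀ → ∀ α : ℕ, 1 ≤ α → α ≤ b ^ e → ∀ η : ℤ, |η| ≤ (b : ℤ) ^ e → ∀ t₁ : ℕ, t₁ ≤ b ^ (k + 1) →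
    ∀ P : Finset (ℕ × ℕ),
    (∀ p ∈ P, p.2 < b ^ (k + 1) ∧ Bad b R k (hh b A k) (k / (16 * b)) ((μ * p.2 + r₀) % b ^ (k + 1)) ∧
      ∃ j : ℤ, |(α : ℤ) * (b : ℤ) ^ c * ((p.2 : ℤ) - t₁) - η * p.1 - j * (b : ℤ) ^ (k + c + 1)| ≤ α * (b : ℤ) ^ c) →
    (∀ p ∈ P, p.1 < b ^ (k + c + 1)) →
    (∀ t, (P.filter (fun p => p.2 = t)).card ≤ b ^ e) → (∀ r, (P.filter (fun p => p.1 = r)).card ≤ b ^ e) →
    ∑ p ∈ P, ‖F p.1‖ ^ 2 ≤ ((b ^ (k + c + 1) : ℕ) : ℝ) * ((b ^ (k + c) : ℕ) : ℝ) / (k : ℝ) ^ U := by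
  classical
  obtain ⟨R, C, hR, hwt⟩ := wt_pairs b hb
  refine ⟨R, hR, fun e₀ κ U => ?_⟩
  obtain ⟨U₁, hU₁⟩ : ∃ U₁, U₁ = U + 5 * κ + 2 := ⟨_, rfl⟩
  obtain ⟨A, hA⟩ : ∃ A, A = U₁ + b + 24 := ⟨_, rfl⟩
  obtain ⟨U', hU'⟩ : ∃ U', U' = U₁ + 2 + 10 * A := ⟨_, rfl⟩
  refine ⟨A, U', U + κ + 2, by omega, ?_⟩
  obtain ⟨k4, h4⟩ := hh_small b A 16 hb
  obtain ⟨k5, h5⟩ := half_big b (U₁ + 16) hb
  obtain ⟨k7, h7⟩ := hh_small b κ (80 * b) hb
  have hbr : (2 : ℝ) ≤ b := by exact_mod_cast hb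
  have hb0 : (0 : ℝ) < b := by linarith
  have hbn : 0 < b := by omega
  obtain ⟨D, hD⟩ : ∃ D : ℝ, D = (b : ℝ) ^ (e₀ + 2) := ⟨_, rfl⟩
  obtain ⟨C', hC'⟩ : ∃ C' : ℝ, C' = C * (b : ℝ) ^ (2 * e₀ + 5) * 2 ^ (b + 4) := ⟨_, rfl⟩
  obtain ⟨D', hD'⟩ : ∃ D' : ℝ, D' = (b : ℝ) ^ (4 * κ) * (D + C') := ⟨_, rfl⟩
  obtain ⟨C2, hC2⟩ : ∃ C2 : ℝ, C2 = 4000000 ^ 2 * (2 * b : ℝ) ^ 16 * D' := ⟨_, rfl⟩
  obtain ⟨C3, hC3⟩ : ∃ C3 : ℝ, C3 = 6 * (b : ℝ) ^ 8 * (b : ℝ) ^ (10 * A) * 2 ^ U' := ⟨_, rfl⟩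
  have hD0 : 0 ≤ D := by rw [hD]; positivity
  have hC'0 : 0 ≤ C' := by rw [hC']; positivity
  have hD'0 : 0 ≤ D' := by rw [hD']; positivity
  have hC20 : 0 ≤ C2 := by rw [hC2]; positivity
  have hC30 : 0 ≤ C3 := by rw [hC3]; positivity
  obtain ⟨k6, hk6⟩ := exists_nat_ge ((b : ℝ) ^ κ * C3 + C2 + (b : ℝ) ^ κ)
  refine ⟨k4 + k5 + k6 + k7 + 48 * b + 32 * e₀ + 800, fun k hk c e hce he F hF r₀ μ hμ1 hμb α hα1 hα η hη t₁ ht₁ P hP hP1 hf2 hf1 => ?_⟩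
  obtain ⟨X, hX⟩ : ∃ X, X = b ^ (k + c) := ⟨_, rfl⟩
  obtain ⟨M, hM⟩ : ∃ M, M = b ^ (k + c + 1) := ⟨_, rfl⟩
  have hX1 : 1 ≤ X := by rw [hX]; exact Nat.one_le_pow _ _ hbn
  have hXM : X ≤ M := by rw [hX, hM]; exact Nat.pow_le_pow_right hbn (by omega)
  have hk1 : 1 ≤ k := by omega
  have hkr : (1 : ℝ) ≤ k := by exact_mod_cast hk1
  have hk0 : (0 : ℝ) < k := by linarith
  have hX0 : (0 : ℝ) < X := by exact_mod_cast hX1
  have hXMr : (X : ℝ) ≤ M := by exact_mod_cast hXM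
  have hM0 : (0 : ℝ) < M := by linarith
  obtain ⟨hL1, hL2⟩ := logX b (k + c) hb
  rw [← hX] at hL1 hL2
  obtain ⟨L, hL⟩ : ∃ L, L = Real.log (X : ℝ) := ⟨_, rfl⟩
  rw [← hL] at hL1 hL2
  -- the sizes
  have hek : 80 * (b * e) ≤ k := by
    have e1 := h7 k (by omega)
    have e2 : e ≤ hh b κ k := by
      refine he.trans ?_
      unfold hh
      exact Nat.mul_le_mul_right _ (by omega)
    calc 80 * (b * e) = 80 * b * e := by ring
      _ ≤ 80 * b * hh b κ k := Nat.mul_le_mul_left _ e2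
      _ ≤ k := e1
  have hck : c ≤ k := by
    have e1 : 1 * e ≤ b * e := Nat.mul_le_mul_right _ (by omega)
    omega
  obtain ⟨h, hh'⟩ : ∃ h, h = hh b A k := ⟨_, rfl⟩
  have hhk : 16 * h ≤ k := by rw [hh']; exact h4 k (by omega)
  have hhup := hh_up b A k hk1
  have hhhalf := hh_half b A k hb hk1
  rw [← hh'] at hhup hhhalf hF hP
  have hckr : ((k + c : ℕ) : ℝ) ≤ 2 * k := by
    have : k + c ≤ 2 * k := by omega
    exact_mod_cast this
  have hkkc : (k : ℝ) ≤ ((k + c : ℕ) : ℝ) := by exact_mod_cast Nat.le_add_right k c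
  have hLk : (k : ℝ) / 2 ≤ L := by linarith
  have hL0 : 0 < L := by linarith
  have hLge1 : 1 ≤ L := by
    have : (2 : ℝ) ≤ k := by exact_mod_cast (by omega : 2 ≤ k)
    linarith
  have hLb : L ≤ (2 * b : ℝ) * k := by
    calc L ≤ b * ((k + c : ℕ) : ℝ) := hL2
      _ ≤ b * (2 * k) := mul_le_mul_of_nonneg_left hckr hb0.le
      _ = _ := by ring
  have hbe : (b : ℝ) ^ e ≤ (b : ℝ) ^ κ * (k : ℝ) ^ κ := by
    have e1 : b ^ (Nat.log b k + 1) ≤ b * k := by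
      rw [pow_succ']
      exact Nat.mul_le_mul_left _ (Nat.pow_log_le_self b (show k ≠ 0 by omega))
    have e2 : b ^ e ≤ (b * k) ^ κ := by
      calc b ^ e ≤ b ^ (κ * (Nat.log b k + 1)) := Nat.pow_le_pow_right hbn he
        _ = (b ^ (Nat.log b k + 1)) ^ κ := by rw [mul_comm, pow_mul]
        _ ≤ (b * k) ^ κ := Nat.pow_le_pow_left e1 κ
    rw [← mul_pow]
    exact_mod_cast e2
  have hbe1 : (1 : ℝ) ≤ (b : ℝ) ^ e := one_le_pow₀ (by linarith)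
  obtain ⟨hsmall, Er, hEr0, hErs, hbig⟩ := hF
  rw [← hM, ← hX] at hErs
  rw [← hX, ← hL] at hbig hsmall
  rw [← hM] at hsmall hbig hP1
  rw [← hM, ← hX]
  rw [← sum_filter_add_sum_filter_not P (fun p => PL b (k + c) h p.1)]
  have hpart1 : ∑ p ∈ P.filter (fun p => PL b (k + c) h p.1), ‖F p.1‖ ^ 2 ≤ ((b : ℝ) ^ κ * C3) * (M * X / (k : ℝ) ^ (U + 2)) := by
    have e1 : ∀ p ∈ P.filter (fun p => PL b (k + c) h p.1), ‖F p.1‖ ^ 2 ≤ (X / L ^ U') ^ 2 := by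
      intro p hp
      rw [mem_filter] at hp
      exact pow_le_pow_left₀ (norm_nonneg _) (hsmall p.1 (hP1 p hp.1) hp.2) 2
    have e2 : (((P.filter (fun p => PL b (k + c) h p.1)).image Prod.fst).card : ℝ) ≤ (b : ℝ) ^ (5 * h + 8) := by
      have := log_count b (k + c) (b * ((k + c) / (16 * b))) h hb (by omega) ((P.filter (fun p => PL b (k + c) h p.1)).image Prod.fst) (fun r hr => by
        rw [mem_image] at hr
        obtain ⟨p, hp, rfl⟩ := hr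
        rw [mem_filter] at hp
        rw [← hM]
        exact ⟨hP1 p hp.1, hp.2⟩)
      exact_mod_cast this
    have e3 : ((P.filter (fun p => PL b (k + c) h p.1)).card : ℝ) ≤
        (((P.filter (fun p => PL b (k + c) h p.1)).image Prod.fst).card : ℝ) * (b : ℝ) ^ e := by
      have := card_fst (P.filter (fun p => PL b (k + c) h p.1)) (b ^ e) (fun r => by
        refine le_trans (card_le_card ?_) (hf1 r)
        exact filter_subset_filter _ (filter_subset _ _))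
      exact_mod_cast this
    have e4 := p1_num b k X M L _ U₁ U' A h hb0 hk0 hX0 hXMr hLk hLge1 hU' e2 hhup
    rw [← hC3] at e4
    calc _ ≤ ∑ _p ∈ P.filter (fun p => PL b (k + c) h p.1), ((X : ℝ) / L ^ U') ^ 2 := sum_le_sum e1
      _ = ((P.filter (fun p => PL b (k + c) h p.1)).card : ℝ) * (X / L ^ U') ^ 2 := by rw [sum_const, nsmul_eq_mul]
      _ ≤ ((((P.filter (fun p => PL b (k + c) h p.1)).image Prod.fst).card : ℝ) * (b : ℝ) ^ e) * (X / L ^ U') ^ 2 :=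
          mul_le_mul_of_nonneg_right e3 (by positivity)
      _ = (b : ℝ) ^ e * ((((P.filter (fun p => PL b (k + c) h p.1)).image Prod.fst).card : ℝ) * (X / L ^ U') ^ 2) := by ring
      _ ≤ ((b : ℝ) ^ κ * (k : ℝ) ^ κ) * (C3 * (M * X / (k : ℝ) ^ (U₁ + 2))) := mul_le_mul hbe e4 (by positivity) (by positivity)
      _ ≤ ((b : ℝ) ^ κ * (k : ℝ) ^ κ) * (C3 * (M * X / (k : ℝ) ^ (κ + (U + 2)))) := by
          apply mul_le_mul_of_nonneg_left _ (by positivity)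
          apply mul_le_mul_of_nonneg_left _ hC30
          apply div_le_div_of_nonneg_left (by positivity) (by positivity)
          exact pow_le_pow_right₀ hkr (by omega)
      _ = _ := by
          rw [pow_add (k : ℝ) κ]
          field_simp
  have hpart2 : ∑ p ∈ P.filter (fun p => ¬ PL b (k + c) h p.1), ‖F p.1‖ ^ 2 ≤ (C2 + (b : ℝ) ^ κ) * (M * X / (k : ℝ) ^ (U + 2)) := by
    have e1 : ∀ p ∈ P.filter (fun p => ¬ PL b (k + c) h p.1), ‖F p.1‖ ^ 2 ≤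
        (4000000 * L ^ 8 * X) ^ 2 * wt b (k + c) ((k + c) / (16 * b)) h p.1 + Er p.1 := by
      intro p hp
      rw [mem_filter] at hp
      exact hbig p.1 (hP1 p hp.1) hp.2
    have e2 : ∑ p ∈ P.filter (fun p => ¬ PL b (k + c) h p.1), wt b (k + c) ((k + c) / (16 * b)) h p.1 ≤ D' / (k : ℝ) ^ ((U + κ) + 2 + 16) := by
      have f1 : ∀ p ∈ P, 0 ≤ wt b (k + c) ((k + c) / (16 * b)) h p.1 := by
        intro p _
        unfold wt
        apply add_nonneg (by positivity)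
        apply sum_nonneg
        intro i _
        split_ifs <;> positivity
      have f2 : ∑ p ∈ P.filter (fun p => ¬ PL b (k + c) h p.1), wt b (k + c) ((k + c) / (16 * b)) h p.1 ≤
          ∑ p ∈ P, wt b (k + c) ((k + c) / (16 * b)) h p.1 :=
        sum_le_sum_of_subset_of_nonneg (filter_subset _ _) fun p hp _ => f1 p hp
      have f3 := hwt k c e e₀ h r₀ μ (by omega) hce (by omega) hμ1 hμb α hα1 hα η hη t₁ ht₁ P hP hf2
      have f4 := e2_num b D C' k b A U₁ (k / (16 * b) / 2) (h / 2) hb0 hD0 hC'0 hkr (h5 k (by omega)) hhhalf (by omega)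
      refine f2.trans (f3.trans ?_)
      obtain ⟨y, hy⟩ : ∃ y : ℝ, y = (b : ℝ) ^ κ * (k : ℝ) ^ κ := ⟨_, rfl⟩
      rw [← hy] at hbe
      have hy1 : 1 ≤ y := by
        rw [hy]
        exact one_le_mul_of_one_le_of_one_le (one_le_pow₀ (by linarith)) (one_le_pow₀ hkr)
      have f5 : (b : ℝ) ^ (e + e₀ + 2) ≤ y ^ 4 * D := by
        rw [hD, add_assoc, pow_add (b : ℝ) e]
        apply mul_le_mul_of_nonneg_right _ (by positivity)
        exact hbe.trans (le_self_pow₀ hy1 (by norm_num))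
      have f6 : C * (b : ℝ) ^ (4 * e + 2 * e₀ + 5) * ((k + c : ℕ) : ℝ) ^ (b + 4) ≤ y ^ 4 * (C' * (k : ℝ) ^ (b + 4)) := by
        have g1 : ((k + c : ℕ) : ℝ) ^ (b + 4) ≤ (2 * k) ^ (b + 4) := pow_le_pow_left₀ (Nat.cast_nonneg _) hckr _
        have g2 : (b : ℝ) ^ (4 * e + 2 * e₀ + 5) ≤ y ^ 4 * (b : ℝ) ^ (2 * e₀ + 5) := by
          rw [add_assoc, pow_add (b : ℝ) (4 * e), mul_comm 4 e, pow_mul]
          apply mul_le_mul_of_nonneg_right _ (by positivity)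
          exact pow_le_pow_left₀ (by positivity) hbe 4
        calc C * (b : ℝ) ^ (4 * e + 2 * e₀ + 5) * ((k + c : ℕ) : ℝ) ^ (b + 4) ≤ C * (y ^ 4 * (b : ℝ) ^ (2 * e₀ + 5)) * (2 * k) ^ (b + 4) := by
              apply mul_le_mul _ g1 (by positivity) (by positivity)
              exact mul_le_mul_of_nonneg_left g2 (Nat.cast_nonneg _)
          _ = _ := by rw [hC', mul_pow]; ring
      calc (b : ℝ) ^ (e + e₀ + 2) / 2 ^ (k / (16 * b) / 2) + C * (b : ℝ) ^ (4 * e + 2 * e₀ + 5) * ((k + c : ℕ) : ℝ) ^ (b + 4) / (b : ℝ) ^ (h / 2)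
          ≤ (y ^ 4 * D) / 2 ^ (k / (16 * b) / 2) + (y ^ 4 * (C' * (k : ℝ) ^ (b + 4))) / (b : ℝ) ^ (h / 2) := by
            apply add_le_add
            · exact div_le_div_of_nonneg_right f5 (by positivity)
            · exact div_le_div_of_nonneg_right f6 (by positivity)
        _ = y ^ 4 * (D / 2 ^ (k / (16 * b) / 2) + C' * (k : ℝ) ^ (b + 4) / (b : ℝ) ^ (h / 2)) := by ring
        _ ≤ y ^ 4 * ((D + C') / (k : ℝ) ^ (U₁ + 16)) := mul_le_mul_of_nonneg_left f4 (by positivity)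
        _ ≤ y ^ 4 * ((D + C') / (k : ℝ) ^ (4 * κ + ((U + κ) + 2 + 16))) := by
            apply mul_le_mul_of_nonneg_left _ (by positivity)
            apply div_le_div_of_nonneg_left (by positivity) (by positivity)
            exact pow_le_pow_right₀ hkr (by omega)
        _ = _ := by
            rw [hy, hD', pow_add (k : ℝ) (4 * κ), mul_pow, ← pow_mul, ← pow_mul, mul_comm κ 4]
            field_simp
    have e3 := p2_num 4000000 (2 * b) k X M L D' _ (U + κ) (by norm_num) (by positivity) hk0 hX0 hXMr hL0.le hLb hD'0 e2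
    rw [← hC2] at e3
    have e4 : ∑ p ∈ P.filter (fun p => ¬ PL b (k + c) h p.1), Er p.1 ≤ (b : ℝ) ^ κ * (M * X / (k : ℝ) ^ (U + 2)) := by
      have f1 := sum_fst (P.filter (fun p => ¬ PL b (k + c) h p.1)) M (b ^ e) (fun r => by
        refine le_trans (card_le_card ?_) (hf1 r)
        exact filter_subset_filter _ (filter_subset _ _)) (fun p hp => hP1 p (mem_filter.1 hp).1) Er hEr0
      have hs0 : 0 ≤ ∑ r ∈ range M, Er r := sum_nonneg fun r _ => hEr0 r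
      refine f1.trans ?_
      push_cast
      calc (b : ℝ) ^ e * ∑ r ∈ range M, Er r ≤ ((b : ℝ) ^ κ * (k : ℝ) ^ κ) * (M * X / ((k + c : ℕ) : ℝ) ^ (U + κ + 2)) :=
            mul_le_mul hbe hErs hs0 (by positivity)
        _ ≤ ((b : ℝ) ^ κ * (k : ℝ) ^ κ) * (M * X / (k : ℝ) ^ (κ + (U + 2))) := by
            apply mul_le_mul_of_nonneg_left _ (by positivity)
            apply div_le_div_of_nonneg_left (by positivity) (by positivity)
            calc (k : ℝ) ^ (κ + (U + 2)) ≤ ((k + c : ℕ) : ℝ) ^ (κ + (U + 2)) := pow_le_pow_left₀ hk0.le hkkc _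
              _ = _ := by congr 1; ring
        _ = _ := by
            rw [pow_add (k : ℝ) κ]
            field_simp
    have e5 : (M : ℝ) * X / (k : ℝ) ^ ((U + κ) + 2) ≤ M * X / (k : ℝ) ^ (U + 2) := by
      apply div_le_div_of_nonneg_left (by positivity) (by positivity)
      exact pow_le_pow_right₀ hkr (by omega)
    calc _ ≤ ∑ p ∈ P.filter (fun p => ¬ PL b (k + c) h p.1), ((4000000 * L ^ 8 * X) ^ 2 * wt b (k + c) ((k + c) / (16 * b)) h p.1 + Er p.1) := sum_le_sum e1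
      _ = (4000000 * L ^ 8 * X) ^ 2 * ∑ p ∈ P.filter (fun p => ¬ PL b (k + c) h p.1), wt b (k + c) ((k + c) / (16 * b)) h p.1 +
          ∑ p ∈ P.filter (fun p => ¬ PL b (k + c) h p.1), Er p.1 := by rw [sum_add_distrib, mul_sum]
      _ ≤ C2 * (M * X / (k : ℝ) ^ ((U + κ) + 2)) + (b : ℝ) ^ κ * (M * X / (k : ℝ) ^ (U + 2)) := add_le_add e3 e4
      _ ≤ C2 * (M * X / (k : ℝ) ^ (U + 2)) + (b : ℝ) ^ κ * (M * X / (k : ℝ) ^ (U + 2)) := by
          have := mul_le_mul_of_nonneg_left e5 hC20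
          linarith
      _ = _ := by ring
  have hfin : ((b : ℝ) ^ κ * C3 + C2 + (b : ℝ) ^ κ) * (M * X / (k : ℝ) ^ (U + 2)) ≤ M * X / (k : ℝ) ^ U :=
    Pool.Agent.W93.DG.fin_num k _ (M * X) U hkr (hk6.trans (by exact_mod_cast (by omega : k6 ≤ k))) (by positivity)
  calc _ ≤ ((b : ℝ) ^ κ * C3) * (M * X / (k : ℝ) ^ (U + 2)) + (C2 + (b : ℝ) ^ κ) * (M * X / (k : ℝ) ^ (U + 2)) := add_le_add hpart1 hpart2
    _ = ((b : ℝ) ^ κ * C3 + C2 + (b : ℝ) ^ κ) * (M * X / (k : ℝ) ^ (U + 2)) := by ring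
    _ ≤ _ := hfin

end Pool.Agent.TH894.PA
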