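import Pool.Agent.TH894.PA3

set_option autoImplicit false

/-! The functions to which the estimates apply. -/

namespace Pool.Agent.TH894.PA
open Finset
open Pool.Agent.H807R2.Dav
open Pool.Agent.H373R2.T7
open Pool.Agent.W93.DG
open Pool.Agent.W93.RD
open Pool.Agent.W93.LM
open Pool.Agent.W93.TD (p3_num sq_sub_norm)
open Pool.Agent.TH894.LG (uz FC_uz)

/-- functions with small exponential sums and major arc bounds -/
lemma Gd_PP (b : ℕ) (hb : 2 ≤ b) (k h U' W : ℕ) (f : ℕ → ℂ)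
    (hsup : ∀ α : ℝ, ‖∑ n ∈ Icc 1 (b ^ k), f n * ee ((n : ℝ) * α)‖ ≤ ((b ^ k : ℕ) : ℝ) / Real.log ((b ^ k : ℕ) : ℝ) ^ U')
    (hPP : PP f 4000000 8 (b ^ k) (b ^ (k / (16 * b)))) : Gd b k h U' W (FC f (b ^ k) (b ^ (k + 1))) := by
  refine ⟨fun r _ _ => ?_, fun _ => 0, fun _ => le_rfl, ?_, fun r _ hr => ?_⟩
  · exact hsup ((r : ℝ) / ((b ^ (k + 1) : ℕ) : ℝ))
  · rw [sum_const_zero]
    positivity
  · rw [add_zero]
    exact pointwise2 b hb k (k / (16 * b)) h 4000000 8 (by norm_num) f hPP r hr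

lemma Gd_nice (b : ℕ) (hb : 2 ≤ b) (f : ℕ → ℂ) (hf : Nice f) (U' W : ℕ) : ∃ k₀ : ℕ, ∀ k : ℕ, k₀ ≤ k → ∀ h : ℕ,
    Gd b k h U' W (FC f (b ^ k) (b ^ (k + 1))) := by
  obtain ⟨hf1, hf2, N1, hf3⟩ := hf
  obtain ⟨N2, h2⟩ := hf2 U'
  refine ⟨N1 + N2 + 32 * b + 64, fun k hk h => ?_⟩
  have hkX : k < b ^ k := Nat.lt_pow_self (by omega)
  apply Gd_PP b hb k h U' W f
  · intro α
    exact h2 (b ^ k) (by omega) α
  · apply hf3 (b ^ k) (by omega)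
    · have h3 : 2 ≤ k / (16 * b) := (Nat.le_div_iff_mul_le (by omega)).2 (by omega)
      calc 4 = 2 ^ 2 := by norm_num
        _ ≤ b ^ 2 := Nat.pow_le_pow_left hb 2
        _ ≤ b ^ (k / (16 * b)) := Nat.pow_le_pow_right (by omega) h3
    · rw [← pow_add, ← pow_add, ← pow_add]
      apply Nat.pow_le_pow_right (by omega)
      have h3 := Nat.mul_div_le k (16 * b)
      have h4 : 8 * (k / (16 * b)) ≤ 16 * b * (k / (16 * b)) := Nat.mul_le_mul_right _ (by omega)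
      omega

/-- the von Mangoldt function and the sieve model -/
theorem Gd_uz (b : ℕ) (hb : 2 ≤ b) (U' W : ℕ) : ∃ B : ℕ, ∀ Ez : ℕ, ∃ k₀ : ℕ, ∀ k : ℕ, k₀ ≤ k →
    ∀ z : ℕ, Real.log ((b ^ k : ℕ) : ℝ) ^ B ≤ z → (z : ℝ) ≤ Real.log ((b ^ k : ℕ) : ℝ) ^ Ez → ∀ h : ℕ,
    Gd b k h U' W (FC (uz z) (b ^ k) (b ^ (k + 1))) := by
  classical
  obtain ⟨B, hsup⟩ := sup_diff U'
  refine ⟨B, fun Ez => ?_⟩
  obtain ⟨n1, h1⟩ := hsup Ez
  obtain ⟨n2, h2⟩ := model Ez (W + 2)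
  have hbr : (2 : ℝ) ≤ b := by exact_mod_cast hb
  have hb0 : (0 : ℝ) < b := by linarith
  have hbn : 0 < b := by omega
  refine ⟨n1 + n2 + 48 * b + 2 ^ (W + 3) + 15, fun k hk z hz1 hz2 h => ?_⟩
  have hp2 : 0 < 2 ^ (W + 3) := by positivity
  obtain ⟨X, hX⟩ : ∃ X, X = b ^ k := ⟨_, rfl⟩
  obtain ⟨M, hM⟩ : ∃ M, M = b ^ (k + 1) := ⟨_, rfl⟩
  have hkX : k < X := by rw [hX]; exact Nat.lt_pow_self (by omega)
  have hX1 : 1 ≤ X := by omega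
  have hM1 : 1 ≤ M := by rw [hM]; exact Nat.one_le_pow _ _ hbn
  have hXM : X ≤ M := by rw [hX, hM]; exact Nat.pow_le_pow_right hbn (by omega)
  have hk1 : 1 ≤ k := by omega
  have hkr : (1 : ℝ) ≤ k := by exact_mod_cast hk1
  have hk0 : (0 : ℝ) < k := by linarith
  have hX0 : (0 : ℝ) < X := by exact_mod_cast hX1
  have hM0 : (0 : ℝ) < M := by exact_mod_cast hM1
  obtain ⟨hL1, hL2⟩ := logX b k hb
  rw [← hX] at hL1 hL2
  obtain ⟨L, hL⟩ : ∃ L, L = Real.log (X : ℝ) := ⟨_, rfl⟩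
  rw [← hL] at hL1 hL2
  have hL0 : 0 < L := by linarith
  have hLge1 : 1 ≤ L := by
    have : (2 : ℝ) ≤ k := by exact_mod_cast (by omega : 2 ≤ k)
    linarith
  rw [← hX] at hz1 hz2
  rw [← hX, ← hM]
  have hz : 1 ≤ z := by
    have : (1 : ℝ) ≤ z := (one_le_pow₀ (by rw [← hL]; exact hLge1)).trans hz1
    exact_mod_cast this
  obtain ⟨m, hm⟩ : ∃ m, m = k / (16 * b) := ⟨_, rfl⟩
  have hm2 : 2 ≤ m := by rw [hm]; exact (Nat.le_div_iff_mul_le (by omega)).2 (by omega)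
  have hmk : 16 * b * m ≤ k := by rw [hm]; exact Nat.mul_div_le k (16 * b)
  have hmk32 : 32 * m ≤ k := by
    have h7 : 16 * 2 * m ≤ 16 * b * m := Nat.mul_le_mul_right _ (Nat.mul_le_mul_left _ hb)
    omega
  obtain ⟨r', hrL, hrM⟩ := h2 X (by omega) z hz hz2
  obtain ⟨f1, hf1⟩ : ∃ f1 : ℕ → ℝ, f1 = fun n => ArithmeticFunction.vonMangoldt n - lamR z r' n := ⟨_, rfl⟩
  obtain ⟨f2, hf2⟩ : ∃ f2 : ℕ → ℝ, f2 = fun n => lamz z n - lamR z r' n := ⟨_, rfl⟩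
  obtain ⟨Φ, hΦ⟩ : ∃ Φ : ℝ, Φ = 200000 * L ^ 7 * X := ⟨_, rfl⟩
  have hΦ0 : 0 ≤ Φ := by rw [hΦ]; positivity
  have hf1b : ∀ V q : ℕ, 1 ≤ V → (V * V) * (V * V) ≤ b ^ k → 1 ≤ q → q ≤ b ^ k →
      ∀ c : ℤ, IsCoprime c (q : ℤ) → ∀ α : ℝ, |α - c / q| ≤ 1 / (q : ℝ) ^ 2 →
      ‖∑ n ∈ Icc 1 (b ^ k), ((f1 n : ℝ) : ℂ) * ee ((n : ℝ) * α)‖ ≤ Φ * √(1 / (q : ℝ) + 1 / V + q / (b ^ k : ℕ)) := by
    intro V q hV hVN hq hqN c hc α hα
    rw [← hX] at hVN hqN ⊢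
    have := hrM V q hV hVN hq hqN c hc α hα
    rw [hf1]
    refine this.trans (le_of_eq ?_)
    rw [hΦ, ← hL]
    ring
  have hpt : ∀ r, ¬ PL b k h r → ‖FF f1 X M r‖ * ‖FF f1 X M r‖ ≤ 16 * Φ ^ 2 * wt b k m h r := by
    intro r hr
    rw [hX, hM]
    unfold PL at hr
    rw [← hm] at hr
    exact pointwise b hb k m h hm2 (by omega) Φ hΦ0 f1 f1 hf1b hf1b r hr
  have hsplit : ∀ r, ‖FC (uz z) X M r‖ ^ 2 ≤ 2 * (‖FF f1 X M r‖ * ‖FF f1 X M r‖) + 2 * ‖FF f2 X M r‖ ^ 2 := by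
    intro r
    have e1 : FC (uz z) X M r = FF f1 X M r - FF f2 X M r := by
      rw [FC_uz, ← FF_sub]
      congr 1
      ext n
      rw [hf1, hf2]
      ring
    rw [e1]
    exact sq_sub_norm _ _
  refine ⟨fun r _ _ => ?_, fun r => 2 * ‖FF f2 X M r‖ ^ 2, fun _ => by positivity, ?_, fun r _ hr => ?_⟩
  · rw [FC_uz, ← hX]
    exact h1 X (by omega) z hz1 hz2 ((r : ℝ) / (M : ℝ))
  · rw [← hX, ← hM, ← mul_sum, FF_pars f2 X M hM1 hXM]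
    rw [← hL] at hrL
    have hrL' : ∑ n ∈ Icc 1 X, f2 n ^ 2 ≤ X / L ^ (W + 2) := by rw [hf2]; exact hrL
    have e1 := p3_num k X M L (∑ n ∈ Icc 1 X, f2 n ^ 2) W hk0 hX0 hM0 hL1 hrL'
    have hkk : (2 : ℝ) ^ (W + 3) ≤ k := by exact_mod_cast (by omega : 2 ^ (W + 3) ≤ k)
    calc 2 * ((M : ℝ) * ∑ n ∈ Icc 1 X, f2 n ^ 2) ≤ 2 * (2 ^ (W + 2) * (M * X / (k : ℝ) ^ (W + 2))) := by linarith
      _ = 2 ^ (W + 3) * (M * X / (k : ℝ) ^ (W + 2)) := by rw [pow_succ (2 : ℝ) (W + 2)]; ring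
      _ ≤ M * X / (k : ℝ) ^ W := Pool.Agent.W93.DG.fin_num k _ (M * X) W hkr hkk (by positivity)
  · rw [← hX, ← hL, ← hm]
    refine (hsplit r).trans ?_
    have e1 := hpt r hr
    have e2 : 0 ≤ wt b k m h r := by
      unfold wt
      apply add_nonneg (by positivity)
      apply sum_nonneg
      intro i _
      split_ifs <;> positivity
    have e3 : 2 * (16 * Φ ^ 2) ≤ (4000000 * L ^ 8 * X) ^ 2 := by
      rw [hΦ]
      have f1 : (200000 * L ^ 7 * X) ^ 2 = 40000000000 * (L ^ 14 * (X : ℝ) ^ 2) := by ring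
      have f2 : (4000000 * L ^ 8 * X) ^ 2 = 16000000000000 * (L ^ 16 * (X : ℝ) ^ 2) := by ring
      rw [f1, f2]
      have f3 : L ^ 14 * (X : ℝ) ^ 2 ≤ L ^ 16 * (X : ℝ) ^ 2 := mul_le_mul_of_nonneg_right (pow_le_pow_right₀ hLge1 (by norm_num)) (by positivity)
      have f4 : 0 ≤ L ^ 14 * (X : ℝ) ^ 2 := by positivity
      linarith
    have e4 := mul_le_mul_of_nonneg_right e3 e2
    linarith

end Pool.Agent.TH894.PA
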