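import Pool.Agent.TH894.PA4

set_option autoImplicit false

/-! The second moment over random changes of digits when the frequencies are finer than the digits. -/

namespace Pool.Agent.TH894.PA
open Finset
open Pool.Agent.H807R2.Dav
open Pool.Agent.H373R2.T7
open Pool.Agent.W93.DG
open Pool.Agent.W93.RD (EE)
open Pool.Agent.TH894.SM (Ph Om nw card_Om dl Pos mu mu_pos Ph_le change Win un)
open Pool.Agent.TH894.CW (core)
open Pool.Agent.TH894.LG (pow_small_log few_sets few_general)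

lemma sum_split {γ : Type} [AddCommMonoid γ] (B M : ℕ) (hB : 0 < B) (F : ℕ → γ) :
    ∑ r ∈ range (M * B), F r = ∑ t₀ ∈ range B, ∑ t₁ ∈ range M, F (t₀ + B * t₁) := by
  rw [← sum_product']
  symm
  refine sum_nbij' (fun p => p.1 + B * p.2) (fun r => (r % B, r / B)) ?_ ?_ ?_ ?_ ?_
  · intro p hp
    rw [mem_product, mem_range, mem_range] at hp
    rw [mem_range]
    calc p.1 + B * p.2 < B + B * p.2 := by omega
      _ = (p.2 + 1) * B := by ring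
      _ ≤ M * B := Nat.mul_le_mul_right _ (by omega)
  · intro r hr
    rw [mem_range] at hr
    rw [mem_product, mem_range, mem_range]
    exact ⟨Nat.mod_lt _ hB, Nat.div_lt_of_lt_mul (by rw [mul_comm]; exact hr)⟩
  · intro p hp
    rw [mem_product, mem_range, mem_range] at hp
    have e1 : (p.1 + B * p.2) % B = p.1 := by
      rw [Nat.add_mul_mod_self_left]
      exact Nat.mod_eq_of_lt hp.1
    have e2 : (p.1 + B * p.2) / B = p.2 := by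
      rw [Nat.add_mul_div_left _ _ hB, Nat.div_eq_of_lt hp.1, zero_add]
    simp only [e1, e2]
  · intro r _
    exact Nat.mod_add_div r B
  · intro p _
    rfl

lemma EE_split (b K c : ℕ) (hb : 2 ≤ b) (V : ℕ → ℂ) (n : ℤ) :
    EE V (b ^ (K + c + 1)) n = ∑ t₀ ∈ range (b ^ c), ee (-((n : ℝ) * ((t₀ : ℝ) / ((b ^ (K + c + 1) : ℕ) : ℝ)))) *
      EE (fun t₁ => V (t₀ + b ^ c * t₁)) (b ^ (K + 1)) n := by
  have hb0 : (0 : ℝ) < b := by exact_mod_cast (by omega : 0 < b)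
  have e1 : b ^ (K + c + 1) = b ^ (K + 1) * b ^ c := by rw [← pow_add]; congr 1; ring
  unfold EE
  conv_lhs => rw [e1, sum_split (b ^ c) (b ^ (K + 1)) (Nat.pow_pos (by omega))]
  apply sum_congr rfl
  intro t₀ _
  rw [mul_sum]
  apply sum_congr rfl
  intro t₁ _
  rw [mul_left_comm, ← ee_add]
  congr 2
  rw [e1]
  push_cast
  field_simp
  ring

/-- the second moment -/
theorem core_c (b : ℕ) (hb : 2 ≤ b) (R : ℕ) (hR : 1 ≤ R) : ∃ η : ℝ, 0 < η ∧ η ≤ 1 ∧ ∀ A : ℕ, 3 ≤ A → ∃ k₀ : ℕ, ∀ K : ℕ, k₀ ≤ K →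
    ∀ (c N : ℕ) (e : ℕ → ℤ), (∀ j, e j ≠ 0 ∧ |e j| < b) → ∀ J : Fin 3 → Finset ℕ, Pos b R K (hh b A K) J →
    ∀ t : ℕ, 4 ≤ t → ∀ (V : ℕ → ℂ) (E₀ Ms : ℝ), 0 ≤ E₀ → 0 ≤ Ms → ∑ r ∈ range (b ^ (K + c + 1)), ‖V r‖ ≤ Ms →
    (∀ r < b ^ (K + 1), ∀ S : Finset ℕ, (∀ s ∈ S, s < b ^ (K + c + 1) ∧
        Bad b R K (hh b A K) (K / (16 * b)) ((mu b * (s / b ^ c) + mu b * (b ^ (K + 1) - r)) % b ^ (K + 1))) →
      ∑ s ∈ S, ‖V s‖ ≤ E₀) →
    ∑ ω ∈ Om J t, ‖EE V (b ^ (K + c + 1)) (nw b N e ω)‖ ^ 2 ≤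
      (b : ℝ) ^ (2 * c) * (E₀ * Ms + (1 - η) ^ (t - 4) * Ms ^ 2) * (Om J t).card := by
  classical
  obtain ⟨η, hη0, hη1, hcore⟩ := core b hb R hR
  refine ⟨η, hη0, hη1, fun A hA => ?_⟩
  obtain ⟨k₀, h0⟩ := hcore A hA
  refine ⟨k₀, fun K hK c N e he J hJ t ht V E₀ Ms hE₀ hMs hmass hbad => ?_⟩
  have hbn : 0 < b := by omega
  have hBpos : 0 < b ^ c := Nat.pow_pos hbn
  have e1 : b ^ (K + c + 1) = b ^ (K + 1) * b ^ c := by rw [← pow_add]; congr 1; ring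
  have hη' : 0 ≤ 1 - η := by linarith
  obtain ⟨Vt, hVt⟩ : ∃ Vt : ℕ → ℕ → ℂ, Vt = fun t₀ t₁ => V (t₀ + b ^ c * t₁) := ⟨_, rfl⟩
  have hmt : ∀ t₀ ∈ range (b ^ c), ∑ t₁ ∈ range (b ^ (K + 1)), ‖Vt t₀ t₁‖ ≤ Ms := by
    intro t₀ ht₀
    refine le_trans ?_ hmass
    rw [e1, sum_split (b ^ c) (b ^ (K + 1)) hBpos]
    rw [hVt]
    exact single_le_sum (f := fun t₀ => ∑ t₁ ∈ range (b ^ (K + 1)), ‖V (t₀ + b ^ c * t₁)‖)
      (fun t₀ _ => sum_nonneg fun t₁ _ => norm_nonneg _) ht₀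
  have hone : ∀ t₀ ∈ range (b ^ c), ∑ ω ∈ Om J t, ‖EE (Vt t₀) (b ^ (K + 1)) (nw b N e ω)‖ ^ 2 ≤
      (E₀ * Ms + (1 - η) ^ (t - 4) * Ms ^ 2) * (Om J t).card := by
    intro t₀ ht₀
    rw [mem_range] at ht₀
    have g1 := h0 K hK N e he J hJ t ht (Vt t₀) E₀ (by
      intro r hr S hS
      have g2 := hbad r hr (S.image (fun t₁ => t₀ + b ^ c * t₁)) (by
        intro s hs
        rw [mem_image] at hs
        obtain ⟨t₁, ht₁, rfl⟩ := hs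
        obtain ⟨g3, g4⟩ := hS t₁ ht₁
        have g5 : (t₀ + b ^ c * t₁) / b ^ c = t₁ := by
          rw [Nat.add_mul_div_left _ _ hBpos, Nat.div_eq_of_lt ht₀, zero_add]
        refine ⟨?_, by rw [g5]; exact g4⟩
        rw [e1]
        calc t₀ + b ^ c * t₁ < b ^ c + b ^ c * t₁ := by omega
          _ = (t₁ + 1) * b ^ c := by ring
          _ ≤ b ^ (K + 1) * b ^ c := Nat.mul_le_mul_right _ (by omega))
      rw [sum_image] at g2
      · rw [hVt]; exact g2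
      · intro x _ y _ hxy
        simp only at hxy
        have : b ^ c * x = b ^ c * y := by omega
        exact Nat.eq_of_mul_eq_mul_left hBpos this)
    refine g1.trans ?_
    apply mul_le_mul_of_nonneg_right _ (Nat.cast_nonneg _)
    apply add_le_add
    · exact mul_le_mul_of_nonneg_left (hmt t₀ (mem_range.2 ht₀)) hE₀
    · obtain ⟨T, hT⟩ : ∃ T : ℝ, T = ((J 1).card : ℝ) := ⟨_, rfl⟩
      have hT0 : 0 ≤ T := by rw [hT]; exact Nat.cast_nonneg _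
      rw [← hT]
      have hfour : ∑ r ∈ range (b ^ (K + 1)), ∑ r' ∈ range (b ^ (K + 1)), ‖Vt t₀ r‖ * ‖Vt t₀ r'‖ *
          ‖Ph (dl b e) (J 1) (((r' : ℝ) - r) / ((b ^ (K + 1) : ℕ) : ℝ))‖ ^ 4 ≤ Ms ^ 2 * T ^ 4 := by
        have f1 : ∀ r ∈ range (b ^ (K + 1)), ∀ r' ∈ range (b ^ (K + 1)), ‖Vt t₀ r‖ * ‖Vt t₀ r'‖ *
            ‖Ph (dl b e) (J 1) (((r' : ℝ) - r) / ((b ^ (K + 1) : ℕ) : ℝ))‖ ^ 4 ≤ ‖Vt t₀ r‖ * ‖Vt t₀ r'‖ * T ^ 4 := by
          intro r _ r' _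
          apply mul_le_mul_of_nonneg_left _ (by positivity)
          apply pow_le_pow_left₀ (norm_nonneg _)
          rw [hT]
          exact Ph_le _ _ _
        refine (sum_le_sum fun r hr => sum_le_sum (f1 r hr)).trans ?_
        have f2 : ∑ r ∈ range (b ^ (K + 1)), ∑ r' ∈ range (b ^ (K + 1)), ‖Vt t₀ r‖ * ‖Vt t₀ r'‖ * T ^ 4 =
            (∑ r ∈ range (b ^ (K + 1)), ‖Vt t₀ r‖) ^ 2 * T ^ 4 := by
          rw [sq, sum_mul_sum, sum_mul]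
          apply sum_congr rfl
          intro r _
          rw [sum_mul]
        rw [f2]
        apply mul_le_mul_of_nonneg_right _ (by positivity)
        exact pow_le_pow_left₀ (sum_nonneg fun _ _ => norm_nonneg _) (hmt t₀ (mem_range.2 ht₀)) 2
      rcases hT0.eq_or_lt with h | h
      · rw [← h]
        have f3 : (1 - η) ^ (t - 4) / (0 : ℝ) ^ 4 = 0 := by simp
        rw [f3, zero_mul]
        positivity
      · calc (1 - η) ^ (t - 4) / T ^ 4 * ∑ r ∈ range (b ^ (K + 1)), ∑ r' ∈ range (b ^ (K + 1)), ‖Vt t₀ r‖ * ‖Vt t₀ r'‖ *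
              ‖Ph (dl b e) (J 1) (((r' : ℝ) - r) / ((b ^ (K + 1) : ℕ) : ℝ))‖ ^ 4
            ≤ (1 - η) ^ (t - 4) / T ^ 4 * (Ms ^ 2 * T ^ 4) := mul_le_mul_of_nonneg_left hfour (by positivity)
          _ = _ := by field_simp
  have hpt : ∀ ω ∈ Om J t, ‖EE V (b ^ (K + c + 1)) (nw b N e ω)‖ ^ 2 ≤
      (b : ℝ) ^ c * ∑ t₀ ∈ range (b ^ c), ‖EE (Vt t₀) (b ^ (K + 1)) (nw b N e ω)‖ ^ 2 := by
    intro ω _
    rw [EE_split b K c hb V]
    have f1 : ‖∑ t₀ ∈ range (b ^ c), ee (-(((nw b N e ω : ℤ) : ℝ) * ((t₀ : ℝ) / ((b ^ (K + c + 1) : ℕ) : ℝ)))) *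
        EE (fun t₁ => V (t₀ + b ^ c * t₁)) (b ^ (K + 1)) (nw b N e ω)‖ ≤ ∑ t₀ ∈ range (b ^ c), ‖EE (Vt t₀) (b ^ (K + 1)) (nw b N e ω)‖ := by
      refine (norm_sum_le _ _).trans (le_of_eq ?_)
      apply sum_congr rfl
      intro t₀ _
      rw [norm_mul, norm_ee, one_mul, hVt]
    refine (pow_le_pow_left₀ (norm_nonneg _) f1 2).trans ?_
    have f2 := sq_sum_le_card_mul_sum_sq (s := range (b ^ c)) (f := fun t₀ => ‖EE (Vt t₀) (b ^ (K + 1)) (nw b N e ω)‖)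
    rw [card_range] at f2
    push_cast at f2
    exact f2
  refine (sum_le_sum hpt).trans ?_
  rw [← mul_sum, sum_comm]
  calc (b : ℝ) ^ c * ∑ t₀ ∈ range (b ^ c), ∑ ω ∈ Om J t, ‖EE (Vt t₀) (b ^ (K + 1)) (nw b N e ω)‖ ^ 2
      ≤ (b : ℝ) ^ c * ∑ _t₀ ∈ range (b ^ c), (E₀ * Ms + (1 - η) ^ (t - 4) * Ms ^ 2) * (Om J t).card :=
        mul_le_mul_of_nonneg_left (sum_le_sum hone) (by positivity)
    _ = _ := by
        rw [sum_const, card_range, nsmul_eq_mul]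
        push_cast
        rw [two_mul, pow_add]
        ring

/-- few sets of positions are exceptional -/
theorem count_c (b : ℕ) (hb : 2 ≤ b) (R : ℕ) (hR : 1 ≤ R) (κ V : ℕ) : ∃ C₁ : ℕ, 4 ≤ C₁ ∧ ∀ A : ℕ, 5 * C₁ ^ 2 ≤ A → ∃ k₀ : ℕ, ∀ K : ℕ, k₀ ≤ K →
    ∀ c : ℕ, c ≤ κ * (Nat.log b K + 1) → ∀ (V₁ : ℕ → ℂ) (Y : ℝ), 0 < Y →
    ∑ r ∈ range (b ^ (K + c + 1)), ‖V₁ r‖ ≤ Y * (K : ℝ) ^ κ →
    (∀ r < b ^ (K + 1), ∀ S : Finset ℕ, (∀ s ∈ S, s < b ^ (K + c + 1) ∧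
        Bad b R K (hh b A K) (K / (16 * b)) ((mu b * (s / b ^ c) + mu b * (b ^ (K + 1) - r)) % b ^ (K + 1))) →
      ∑ s ∈ S, ‖V₁ s‖ ≤ Y / (K : ℝ) ^ (3 * κ + 3 * V + 6)) →
    ∀ N : ℕ, N < b ^ K → ∀ f : ℕ → ℕ, (∀ j, f j < b ∧ f j ≠ N / b ^ j % b) →
    ∀ r : Fin 3 → ℕ, (∀ q, C₁ * (Nat.log b K + 1) ≤ r q) → (∀ q, 8 * R * r q ≤ (Win (hh b A K) K q).card) →
    ∀ S ⊆ Fintype.piFinset (fun q => powersetCard (r q) (Win (hh b A K) K q)),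
    (∀ T ∈ S, Y / (K : ℝ) ^ V < ‖EE V₁ (b ^ (K + c + 1)) ((change b K N f (un T) : ℕ) : ℤ)‖) →
    (S.card : ℝ) ≤ 1 / (K : ℝ) ^ V * ∏ q, ((Win (hh b A K) K q).card.choose (r q) : ℝ) := by
  classical
  obtain ⟨η, hη0, hη1, hsec⟩ := core_c b hb R hR
  obtain ⟨C₁, hC₁, hpow⟩ := pow_small_log b hb η hη0 hη1 (4 * κ + 3 * V + 6)
  refine ⟨C₁, hC₁, fun A hA => ?_⟩
  have hA3 : 3 ≤ A := by
    have : 5 * 4 ^ 2 ≤ 5 * C₁ ^ 2 := Nat.mul_le_mul_left _ (Nat.pow_le_pow_left hC₁ 2)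
    omega
  obtain ⟨k0, h0⟩ := hsec A hA3
  obtain ⟨k1, h1⟩ := few_sets b hb R A C₁ hR (by omega) hA
  obtain ⟨k2, h2⟩ := hh_small b A 4 hb
  refine ⟨k0 + k1 + k2 + 2 * b ^ (2 * κ) + 4, fun K hK c hc V₁ Y hY hmass hbad N hN f hf r hr hr' S hS hSb => ?_⟩
  have hbn : 0 < b := by omega
  have hbr : (2 : ℝ) ≤ b := by exact_mod_cast hb
  have hb0 : (0 : ℝ) < b := by linarith
  have hK0 : (0 : ℝ) < K := by exact_mod_cast (by omega : 0 < K)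
  have hK1 : (1 : ℝ) ≤ K := by exact_mod_cast (by omega : 1 ≤ K)
  have hb2c : (b : ℝ) ^ (2 * c) ≤ (b : ℝ) ^ (2 * κ) * (K : ℝ) ^ (2 * κ) := by
    have e1 : b ^ (Nat.log b K + 1) ≤ b * K := by
      rw [pow_succ']
      exact Nat.mul_le_mul_left _ (Nat.pow_log_le_self b (show K ≠ 0 by omega))
    have e2 : b ^ (2 * c) ≤ (b * K) ^ (2 * κ) := by
      calc b ^ (2 * c) ≤ b ^ ((Nat.log b K + 1) * (2 * κ)) := by
            apply Nat.pow_le_pow_right hbn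
            calc 2 * c ≤ 2 * (κ * (Nat.log b K + 1)) := Nat.mul_le_mul_left _ hc
              _ = _ := by ring
        _ = (b ^ (Nat.log b K + 1)) ^ (2 * κ) := pow_mul _ _ _
        _ ≤ _ := Nat.pow_le_pow_left e1 _
    rw [← mul_pow]
    exact_mod_cast e2
  have hKb : 2 * (b : ℝ) ^ (2 * κ) ≤ K := by
    have : 2 * b ^ (2 * κ) ≤ K := by omega
    exact_mod_cast this
  have key : (S.card : ℝ) ≤ (1 / (K : ℝ) ^ (V + 4)) * (K : ℝ) ^ 4 * ∏ q, ((Win (hh b A K) K q).card.choose (r q) : ℝ) := by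
    refine few_general b hb R A K (C₁ * (Nat.log b K + 1)) (by omega) (h2 K (by omega))
      (fun y => Y / (K : ℝ) ^ V < ‖EE V₁ (b ^ (K + c + 1)) y‖) _ ?_ N hN f hf r hr hr' hR S hS hSb
    intro N' e he J hJ
    refine h1 K (by omega) (fun y => Y / (K : ℝ) ^ V < ‖EE V₁ (b ^ (K + c + 1)) y‖)
      (1 / (K : ℝ) ^ (V + 4)) (by positivity) N' e he J hJ ?_
    intro Z hZ hZb
    have ht4 : 4 ≤ C₁ * (Nat.log b K + 1) := by
      have : 4 * 1 ≤ C₁ * (Nat.log b K + 1) := Nat.mul_le_mul hC₁ (by omega)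
      omega
    have hmom := h0 K (by omega) c N' e he J hJ _ ht4 V₁ (Y / (K : ℝ) ^ (3 * κ + 3 * V + 6)) (Y * (K : ℝ) ^ κ)
      (by positivity) (by positivity) hmass hbad
    have hp := hpow K (by omega) _ le_rfl
    have h3 : ∀ ω ∈ Z, (Y / (K : ℝ) ^ V) ^ 2 ≤ ‖EE V₁ (b ^ (K + c + 1)) (nw b N' e ω)‖ ^ 2 := by
      intro ω hω
      exact pow_le_pow_left₀ (by positivity) (hZb ω hω).le 2
    have h4 : (Z.card : ℝ) * (Y / (K : ℝ) ^ V) ^ 2 ≤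
        (b : ℝ) ^ (2 * c) * (Y / (K : ℝ) ^ (3 * κ + 3 * V + 6) * (Y * (K : ℝ) ^ κ) + (1 - η) ^ (C₁ * (Nat.log b K + 1) - 4) * (Y * (K : ℝ) ^ κ) ^ 2) *
          (Om J (C₁ * (Nat.log b K + 1))).card := by
      rw [← nsmul_eq_mul]
      refine (card_nsmul_le_sum _ _ _ h3).trans ?_
      exact (sum_le_sum_of_subset_of_nonneg hZ fun ω _ _ => sq_nonneg _).trans hmom
    rw [← card_Om]
    have h5 : (b : ℝ) ^ (2 * c) * (Y / (K : ℝ) ^ (3 * κ + 3 * V + 6) * (Y * (K : ℝ) ^ κ) + (1 - η) ^ (C₁ * (Nat.log b K + 1) - 4) * (Y * (K : ℝ) ^ κ) ^ 2) ≤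
        (1 / (K : ℝ) ^ (V + 4)) * (Y / (K : ℝ) ^ V) ^ 2 := by
      have g1 : Y / (K : ℝ) ^ (3 * κ + 3 * V + 6) * (Y * (K : ℝ) ^ κ) = Y ^ 2 / (K : ℝ) ^ (2 * κ + 3 * V + 6) := by
        rw [show 3 * κ + 3 * V + 6 = κ + (2 * κ + 3 * V + 6) by ring, pow_add (K : ℝ) κ]
        field_simp
      have g2 : (1 - η) ^ (C₁ * (Nat.log b K + 1) - 4) * (Y * (K : ℝ) ^ κ) ^ 2 ≤ Y ^ 2 / (K : ℝ) ^ (2 * κ + 3 * V + 6) := by
        calc (1 - η) ^ (C₁ * (Nat.log b K + 1) - 4) * (Y * (K : ℝ) ^ κ) ^ 2 ≤ 1 / (K : ℝ) ^ (4 * κ + 3 * V + 6) * (Y * (K : ℝ) ^ κ) ^ 2 :=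
              mul_le_mul_of_nonneg_right hp (by positivity)
          _ = _ := by
              rw [show 4 * κ + 3 * V + 6 = 2 * κ + (2 * κ + 3 * V + 6) by ring, pow_add (K : ℝ) (2 * κ), mul_pow, ← pow_mul, mul_comm κ 2]
              field_simp
      calc _ ≤ ((b : ℝ) ^ (2 * κ) * (K : ℝ) ^ (2 * κ)) * (Y ^ 2 / (K : ℝ) ^ (2 * κ + 3 * V + 6) + Y ^ 2 / (K : ℝ) ^ (2 * κ + 3 * V + 6)) := by
            apply mul_le_mul hb2c _ _ (by positivity)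
            · rw [g1]; linarith
            · have : 0 ≤ (1 - η) ^ (C₁ * (Nat.log b K + 1) - 4) := pow_nonneg (by linarith) _
              positivity
        _ = (2 * (b : ℝ) ^ (2 * κ)) * (Y ^ 2 / (K : ℝ) ^ (3 * V + 6)) := by
            rw [show 2 * κ + 3 * V + 6 = 2 * κ + (3 * V + 6) by ring, pow_add (K : ℝ) (2 * κ)]
            field_simp
            ring
        _ ≤ K * (Y ^ 2 / (K : ℝ) ^ (3 * V + 6)) := mul_le_mul_of_nonneg_right hKb (by positivity)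
        _ ≤ K ^ 2 * (Y ^ 2 / (K : ℝ) ^ (3 * V + 6)) := by
            apply mul_le_mul_of_nonneg_right _ (by positivity)
            nlinarith
        _ = _ := by
            rw [show 3 * V + 6 = 2 + (V + 4) + V + V by ring, pow_add, pow_add, pow_add]
            field_simp
    have h6 : (Z.card : ℝ) * (Y / (K : ℝ) ^ V) ^ 2 ≤ (1 / (K : ℝ) ^ (V + 4) * (Om J (C₁ * (Nat.log b K + 1))).card) * (Y / (K : ℝ) ^ V) ^ 2 := by
      refine h4.trans ?_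
      refine (mul_le_mul_of_nonneg_right h5 (Nat.cast_nonneg _)).trans (le_of_eq ?_)
      ring
    exact le_of_mul_le_mul_right h6 (by positivity)
  refine key.trans (le_of_eq ?_)
  congr 1
  rw [show (K : ℝ) ^ (V + 4) = K ^ V * K ^ 4 by ring]
  field_simp

end Pool.Agent.TH894.PA
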