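import Pool.Agent.TH894.PA5

set_option autoImplicit false

/-! Correlations whose shift is a small multiple of a number obtained by a few changes of digits. -/

namespace Pool.Agent.TH894.PA
open Finset
open Pool.Agent.H807R2.Dav
open Pool.Agent.H373R2.T7
open Pool.Agent.W93.DG
open Pool.Agent.W93.RD (EE)
open Pool.Agent.W93.LM (FC FC_pars Nice EE_corrC)
open Pool.Agent.TH894.SM (mu mu_pos change Win un change_lt)

/-- the frequencies multiplied by `η` -/
noncomputable def pf (η M : ℕ) (V : ℕ → ℂ) (t : ℕ) : ℂ := ∑ r ∈ (range M).filter (fun r => (η * r) % M = t), V r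

lemma pf_norm (η M : ℕ) (hM : 0 < M) (V : ℕ → ℂ) (S : Finset ℕ) :
    ∑ t ∈ S, ‖pf η M V t‖ ≤ ∑ r ∈ (range M).filter (fun r => (η * r) % M ∈ S), ‖V r‖ := by
  classical
  have h1 : ∑ t ∈ S, ‖pf η M V t‖ ≤ ∑ t ∈ S, ∑ r ∈ (range M).filter (fun r => (η * r) % M = t), ‖V r‖ :=
    sum_le_sum fun t _ => norm_sum_le _ _
  refine h1.trans (le_of_eq ?_)
  rw [← sum_fiberwise_of_maps_to (s := (range M).filter (fun r => (η * r) % M ∈ S)) (t := S) (g := fun r => (η * r) % M)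
    (fun r hr => (mem_filter.1 hr).2)]
  apply sum_congr rfl
  intro t ht
  apply sum_congr _ (fun _ _ => rfl)
  ext r
  rw [mem_filter, mem_filter, mem_filter]
  constructor
  · rintro ⟨h2, h3⟩
    exact ⟨⟨h2, by rw [h3]; exact ht⟩, h3⟩
  · rintro ⟨⟨h2, _⟩, h3⟩
    exact ⟨h2, h3⟩

lemma EE_pf (η M : ℕ) (hM : 0 < M) (V : ℕ → ℂ) (y : ℤ) : EE (pf η M V) M y = EE V M ((η : ℤ) * y) := by
  classical
  have hM0 : (M : ℝ) ≠ 0 := by exact_mod_cast hM.ne'
  unfold EE pf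
  have h1 : ∀ t ∈ range M, (∑ r ∈ (range M).filter (fun r => (η * r) % M = t), V r) * ee (-((y : ℝ) * ((t : ℝ) / (M : ℝ)))) =
      ∑ r ∈ (range M).filter (fun r => (η * r) % M = t), V r * ee (-((((η : ℤ) * y : ℤ) : ℝ) * ((r : ℝ) / (M : ℝ)))) := by
    intro t _
    rw [sum_mul]
    apply sum_congr rfl
    intro r hr
    rw [mem_filter] at hr
    congr 1
    obtain ⟨w, hw⟩ : ∃ w : ℕ, w = η * r / M := ⟨_, rfl⟩
    have h2 : ((η * r : ℕ) : ℝ) = M * (w : ℝ) + t := by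
      rw [← hr.2, hw]
      exact_mod_cast (Nat.div_add_mod (η * r) M).symm
    have h3 : -((y : ℝ) * ((t : ℝ) / (M : ℝ))) = -((((η : ℤ) * y : ℤ) : ℝ) * ((r : ℝ) / (M : ℝ))) + ((y * (w : ℤ) : ℤ) : ℝ) := by
      push_cast at h2 ⊢
      have h4 : (t : ℝ) = η * r - M * (w : ℝ) := by linarith
      rw [h4]
      field_simp
      ring
    rw [h3, ee_add_int]
  rw [sum_congr rfl h1]
  rw [sum_fiberwise_of_maps_to (s := range M) (t := range M) (g := fun r => (η * r) % M)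
    (fun r _ => mem_range.2 (Nat.mod_lt _ hM))]

/-- few choices are exceptional for a multiple of the shift -/
theorem mul_log (b : ℕ) (hb : 2 ≤ b) : ∃ R : ℕ, 1 ≤ R ∧ ∀ κ V : ℕ, ∃ C₁ : ℕ, 4 ≤ C₁ ∧ ∀ A₀ : ℕ, ∃ A U' W : ℕ, A₀ ≤ A ∧ 5 * C₁ ^ 2 ≤ A ∧
    ∃ k₀ : ℕ, ∀ K : ℕ, k₀ ≤ K → ∀ c e : ℕ, c ≤ e → e ≤ κ * (Nat.log b K + 1) → ∀ u : ℕ → ℂ,
    Gd b (K + c) (hh b A K) U' W (FC u (b ^ (K + c)) (b ^ (K + c + 1))) →
    ∑ r ∈ range (b ^ (K + c + 1)), ‖FC u (b ^ (K + c)) (b ^ (K + c + 1)) r‖ ^ 2 ≤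
      ((b ^ (K + c + 1) : ℕ) : ℝ) * ((b ^ (K + c) : ℕ) : ℝ) * (K : ℝ) ^ 4 →
    ∀ g : ℕ → ℂ, (∀ n, ‖g n‖ ≤ 1) → ∀ N₁ η : ℕ, 1 ≤ η → η ≤ b ^ e → N₁ + η * b ^ K ≤ b ^ (K + c) →
    ∀ N : ℕ, N < b ^ K → ∀ f : ℕ → ℕ, (∀ j, f j < b ∧ f j ≠ N / b ^ j % b) →
    ∀ r : Fin 3 → ℕ, (∀ q, C₁ * (Nat.log b K + 1) ≤ r q) → (∀ q, 8 * R * r q ≤ (Win (hh b A K) K q).card) →
    ∀ S ⊆ Fintype.piFinset (fun q => powersetCard (r q) (Win (hh b A K) K q)),
    (∀ T ∈ S, (b : ℝ) ^ (K + c) / (K : ℝ) ^ V < ‖∑ n ∈ Icc 1 N₁, g n * exI u ((n : ℤ) + (η * change b K N f (un T) : ℕ))‖) →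
    (S.card : ℝ) ≤ 1 / (K : ℝ) ^ V * ∏ q, ((Win (hh b A K) K q).card.choose (r q) : ℝ) := by
  classical
  obtain ⟨R, hR, hbp⟩ := bad_pairs b hb
  refine ⟨R, hR, fun κ V => ?_⟩
  obtain ⟨κ', hκ'⟩ : ∃ κ', κ' = 2 * κ + 2 := ⟨_, rfl⟩
  obtain ⟨C₁, hC₁, hcount⟩ := count_c b hb R hR κ' V
  refine ⟨C₁, hC₁, fun A₀ => ?_⟩
  obtain ⟨A, U', W, hUA, k1, h1⟩ := hbp (mu b) κ' (2 * (3 * κ' + 3 * V + 6) + A₀ + 5 * C₁ ^ 2)
  obtain ⟨k0, h0⟩ := hcount A (by omega)
  refine ⟨A, U', W, by omega, by omega, k0 + k1 + 4, fun K hK c e hce he u hu hu2 g hg N₁ η hη1 hηe hN₁ N hN f hf r hr hr' S hS hSb => ?_⟩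
  have hbn : 0 < b := by omega
  have hb1 : 1 < b := by omega
  have hbr : (2 : ℝ) ≤ b := by exact_mod_cast hb
  have hb0 : (0 : ℝ) < b := by linarith
  have hK0 : (0 : ℝ) < K := by exact_mod_cast (by omega : 0 < K)
  have hK1 : (1 : ℝ) ≤ K := by exact_mod_cast (by omega : 1 ≤ K)
  obtain ⟨X, hX⟩ : ∃ X, X = b ^ (K + c) := ⟨_, rfl⟩
  obtain ⟨M, hM⟩ : ∃ M, M = b ^ (K + c + 1) := ⟨_, rfl⟩
  have hMX : M = b * X := by rw [hM, hX, pow_succ']
  have hX1 : 1 ≤ X := by rw [hX]; exact Nat.one_le_pow _ _ hbn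
  have hMpos : 0 < M := by rw [hM]; exact Nat.pow_pos hbn
  have hM0 : (0 : ℝ) < M := by exact_mod_cast hMpos
  have hX0 : (0 : ℝ) < X := by exact_mod_cast hX1
  have hXM : X ≤ M := by rw [hMX]; exact Nat.le_mul_of_pos_left _ hbn
  have hMX0 : (0 : ℝ) ≤ M * X := by positivity
  have he2 : 2 * e ≤ κ' * (Nat.log b K + 1) := by
    rw [hκ', add_mul, mul_assoc]
    omega
  have hηe2 : η ≤ b ^ (2 * e) := hηe.trans (Nat.pow_le_pow_right hbn (by omega))
  -- the functions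
  obtain ⟨g', hg'⟩ : ∃ g' : ℕ → ℂ, g' = fun n => if n ≤ N₁ then g n else 0 := ⟨_, rfl⟩
  have hg'1 : ∀ n, ‖g' n‖ ≤ 1 := by
    intro n
    rw [hg']
    simp only
    split_ifs
    · exact hg n
    · rw [norm_zero]; norm_num
  obtain ⟨Fg, hFg⟩ : ∃ Fg : ℕ → ℂ, Fg = FC (fun n => (starRingEnd ℂ) (g' n)) X M := ⟨_, rfl⟩
  obtain ⟨Fu, hFu⟩ : ∃ Fu : ℕ → ℂ, Fu = FC u X M := ⟨_, rfl⟩
  rw [← hX, ← hM, ← hFu] at hu hu2
  have hg2 : ∑ r ∈ range M, ‖Fg r‖ ^ 2 ≤ M * X := by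
    rw [hFg, FC_pars _ X M (by omega) hXM]
    apply mul_le_mul_of_nonneg_left _ hM0.le
    refine (sum_le_sum (fun n _ => pow_le_one₀ (norm_nonneg _) ?_)).trans (le_of_eq ?_)
    · rw [RCLike.norm_conj]; exact hg'1 n
    · rw [sum_const, Nat.card_Icc, nsmul_eq_mul, Nat.add_sub_cancel, mul_one]
  obtain ⟨V₀, hV₀⟩ : ∃ V₀ : ℕ → ℂ, V₀ = fun r => (starRingEnd ℂ) (Fg r) * Fu r := ⟨_, rfl⟩
  have hV₀n : ∀ r, ‖V₀ r‖ = ‖Fg r‖ * ‖Fu r‖ := fun r => by rw [hV₀]; simp only [norm_mul, RCLike.norm_conj]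
  have hcs : ∀ (S : Finset ℕ) (B : ℝ), S ⊆ range M → 0 ≤ B → ∑ r ∈ S, ‖Fu r‖ ^ 2 ≤ (M * X) * B ^ 2 → ∑ r ∈ S, ‖V₀ r‖ ≤ (M * X) * B := by
    intro S B hSM hB hSB
    simp only [hV₀n]
    refine (Real.sum_mul_le_sqrt_mul_sqrt _ _ _).trans ?_
    have e2 : ∑ r ∈ S, ‖Fg r‖ ^ 2 ≤ M * X :=
      (sum_le_sum_of_subset_of_nonneg hSM fun _ _ _ => sq_nonneg _).trans hg2
    calc √(∑ r ∈ S, ‖Fg r‖ ^ 2) * √(∑ r ∈ S, ‖Fu r‖ ^ 2) ≤ √((M : ℝ) * X) * √((M : ℝ) * X * B ^ 2) :=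
          mul_le_mul (Real.sqrt_le_sqrt e2) (Real.sqrt_le_sqrt hSB) (Real.sqrt_nonneg _) (Real.sqrt_nonneg _)
      _ = M * X * B := by
          rw [Real.sqrt_mul hMX0, ← mul_assoc, Real.mul_self_sqrt hMX0, Real.sqrt_sq hB]
  refine h0 K (by omega) c (by omega) (pf η M V₀) ((M : ℝ) * X) (by positivity) ?_ ?_ N hN f hf r hr hr' S hS ?_
  · rw [← hM]
    refine (pf_norm η M hMpos V₀ (range M)).trans ?_
    have e1 : (range M).filter (fun r => (η * r) % M ∈ range M) = range M := by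
      apply filter_true_of_mem
      intro r _
      rw [mem_range]
      exact Nat.mod_lt _ hMpos
    rw [e1]
    refine (hcs (range M) ((K : ℝ) ^ 2) (Subset.refl _) (by positivity) ?_).trans ?_
    · refine hu2.trans (le_of_eq ?_)
      ring
    · apply mul_le_mul_of_nonneg_left _ hMX0
      exact pow_le_pow_right₀ hK1 (by omega)
  · intro r₁ hr₁ S' hS'
    rw [← hM] at hS'
    refine (pf_norm η M hMpos V₀ S').trans ?_
    obtain ⟨Q, hQ⟩ : ∃ Q, Q = (range M).filter (fun r => (η * r) % M ∈ S') := ⟨_, rfl⟩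
    rw [← hQ]
    have hB : M * X / (K : ℝ) ^ (3 * κ' + 3 * V + 6) = (M * X) * (1 / (K : ℝ) ^ (3 * κ' + 3 * V + 6)) := by ring
    rw [hB]
    refine hcs Q _ (by rw [hQ]; exact filter_subset _ _) (by positivity) ?_
    have e1 := h1 K (by omega) c (2 * e) (by omega) he2 Fu hu (mu b * (b ^ (K + 1) - r₁)) (mu b) (mu_pos b) (Nat.lt_pow_self hb1).le
      1 le_rfl (Nat.one_le_pow _ _ hbn) (η : ℤ) (by
        rw [abs_of_nonneg (Int.natCast_nonneg _)]
        exact_mod_cast hηe2) 0 (Nat.zero_le _) (Q.image (fun r => (r, ((η * r) % M) / b ^ c))) (by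
        intro p hp
        rw [mem_image] at hp
        obtain ⟨r, hr, rfl⟩ := hp
        rw [hQ, mem_filter, mem_range] at hr
        have g1 := hS' _ hr.2
        simp only
        refine ⟨?_, g1.2, ?_⟩
        · apply Nat.div_lt_of_lt_mul
          have : M = b ^ c * b ^ (K + 1) := by rw [hM, ← pow_add]; congr 1; ring
          rw [← this]
          exact g1.1
        · refine ⟨-((η * r / M : ℕ) : ℤ), ?_⟩
          have g2 : (η : ℤ) * r = M * ((η * r / M : ℕ) : ℤ) + ((η * r % M : ℕ) : ℤ) := by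
            exact_mod_cast (Nat.div_add_mod (η * r) M).symm
          have g3 : ((η * r % M : ℕ) : ℤ) = (b : ℤ) ^ c * (((η * r % M) / b ^ c : ℕ) : ℤ) + (((η * r % M) % b ^ c : ℕ) : ℤ) := by
            exact_mod_cast (Nat.div_add_mod (η * r % M) (b ^ c)).symm
          have g4 : ((M : ℕ) : ℤ) = (b : ℤ) ^ (K + c + 1) := by rw [hM]; push_cast; ring
          rw [g4] at g2
          have g5 : ((1 : ℕ) : ℤ) * (b : ℤ) ^ c * ((((η * r % M) / b ^ c : ℕ) : ℤ) - ((0 : ℕ) : ℤ)) - (η : ℤ) * r - -((η * r / M : ℕ) : ℤ) * (b : ℤ) ^ (K + c + 1) =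
              -(((η * r % M) % b ^ c : ℕ) : ℤ) := by
            push_cast at g2 g3 ⊢
            linarith
          rw [g5, abs_neg, abs_of_nonneg (Int.natCast_nonneg _)]
          have g6 : (η * r % M) % b ^ c < b ^ c := Nat.mod_lt _ (Nat.pow_pos hbn)
          have g7 : (((η * r % M) % b ^ c : ℕ) : ℤ) ≤ ((b ^ c : ℕ) : ℤ) := by exact_mod_cast g6.le
          push_cast at g7 ⊢
          linarith) (by
        intro p hp
        rw [mem_image] at hp
        obtain ⟨r, hr, rfl⟩ := hp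
        rw [hQ, mem_filter, mem_range] at hr
        rw [← hM]
        exact hr.1) (by
        intro t
        have g1 : ((Q.image (fun r => (r, ((η * r) % M) / b ^ c))).filter (fun p => p.2 = t)).card ≤
            (Q.filter (fun r => ((η * r) % M) / b ^ c = t)).card := by
          have g2 : (Q.image (fun r => (r, ((η * r) % M) / b ^ c))).filter (fun p => p.2 = t) ⊆
              (Q.filter (fun r => ((η * r) % M) / b ^ c = t)).image (fun r => (r, ((η * r) % M) / b ^ c)) := by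
            intro p hp
            rw [mem_filter, mem_image] at hp
            obtain ⟨⟨r, hr, rfl⟩, hp2⟩ := hp
            rw [mem_image]
            exact ⟨r, mem_filter.2 ⟨hr, hp2⟩, rfl⟩
          exact (card_le_card g2).trans card_image_le
        have g2 := mul_card M η hη1 (Q.filter (fun r => ((η * r) % M) / b ^ c = t)) (by
          intro r hr
          rw [mem_filter, hQ, mem_filter, mem_range] at hr
          exact hr.1.1)
        have g3 : ((Q.filter (fun r => ((η * r) % M) / b ^ c = t)).image (fun r => (η * r) % M)).card ≤ b ^ c := by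
          have g4 : (Q.filter (fun r => ((η * r) % M) / b ^ c = t)).image (fun r => (η * r) % M) ⊆ Ico (b ^ c * t) (b ^ c * t + b ^ c) := by
            intro x hx
            rw [mem_image] at hx
            obtain ⟨r, hr, rfl⟩ := hx
            rw [mem_filter] at hr
            have g5 := Nat.div_add_mod ((η * r) % M) (b ^ c)
            have g6 : ((η * r) % M) % b ^ c < b ^ c := Nat.mod_lt _ (Nat.pow_pos hbn)
            rw [hr.2] at g5
            rw [mem_Ico]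
            clear hr
            generalize (η * r) % M % b ^ c = yy at g5 g6
            generalize (η * r) % M = xx at g5
            generalize b ^ c * t = tt at g5
            generalize b ^ c = bb at g6
            constructor <;> omega
          refine (card_le_card g4).trans ?_
          rw [Nat.card_Ico]
          omega
        calc _ ≤ _ := g1
          _ ≤ _ := g2
          _ ≤ b ^ c * b ^ e := Nat.mul_le_mul g3 hηe
          _ ≤ b ^ e * b ^ e := Nat.mul_le_mul_right _ (Nat.pow_le_pow_right hbn hce)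
          _ = b ^ (2 * e) := by rw [← pow_add, two_mul]) (by
        intro r₂
        have g2 : (Q.image (fun r => (r, ((η * r) % M) / b ^ c))).filter (fun p => p.1 = r₂) ⊆ {(r₂, ((η * r₂) % M) / b ^ c)} := by
          intro p hp
          rw [mem_filter, mem_image] at hp
          obtain ⟨⟨r, hr, rfl⟩, hp2⟩ := hp
          simp only at hp2
          rw [mem_singleton, hp2]
        refine (card_le_card g2).trans ?_
        rw [card_singleton]
        exact Nat.one_le_pow _ _ hbn)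
    rw [sum_image (by
      intro x _ y _ hxy
      simp only [Prod.mk.injEq] at hxy
      exact hxy.1)] at e1
    rw [← hM, ← hX] at e1
    refine e1.trans ?_
    rw [mul_div_assoc, div_pow, one_pow, ← pow_mul, ← mul_div_assoc, mul_one_div]
    apply div_le_div_of_nonneg_left hMX0 (by positivity)
    exact pow_le_pow_right₀ hK1 (by omega)
  · intro T hT
    have hT2 := hSb T hT
    have hch : change b K N f (un T) < b ^ K := change_lt b K N (by omega) f (fun j => (hf j).1) _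
    have e2 : ((N₁ : ℕ) : ℤ) + ((η * change b K N f (un T) : ℕ) : ℤ) ≤ (X : ℤ) := by
      have : N₁ + η * change b K N f (un T) ≤ X := by
        rw [hX]
        refine le_trans ?_ hN₁
        have := Nat.mul_le_mul_left η hch.le
        omega
      exact_mod_cast this
    have e3 := EE_corrC g' u X M N₁ hX1 (by rw [hMX]; exact Nat.mul_le_mul_right _ hb) (by omega)
      (fun n hn => by rw [hg']; simp only; rw [if_neg (by omega)]) (((η * change b K N f (un T) : ℕ) : ℤ)) (by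
        have : (0 : ℤ) ≤ ((η * change b K N f (un T) : ℕ) : ℤ) := Int.natCast_nonneg _
        have : (0 : ℤ) < X := by exact_mod_cast hX1
        omega) e2
    rw [← hM, EE_pf η M hMpos]
    have e4 : ((η : ℤ) * ((change b K N f (un T) : ℕ) : ℤ)) = ((η * change b K N f (un T) : ℕ) : ℤ) := by push_cast; ring
    rw [e4, hV₀, hFg, hFu, e3, norm_mul, Complex.norm_natCast, mul_div_assoc]
    apply mul_lt_mul_of_pos_left _ hM0
    have e5 : (b : ℝ) ^ (K + c) = X := by rw [hX]; push_cast; ring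
    rw [e5] at hT2
    refine lt_of_lt_of_le hT2 (le_of_eq ?_)
    congr 1
    apply sum_congr rfl
    intro n hn
    rw [mem_Icc] at hn
    rw [hg']
    simp only
    rw [if_pos hn.2]
    rfl

end Pool.Agent.TH894.PA
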