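import Pool.Agent.TH894.PA6
import Pool.Agent.TH894.LG5

set_option autoImplicit false

/-! Correlations of the primes along all small multiples of a number obtained by a few changes of digits. -/

namespace Pool.Agent.TH894.PA
open Finset
open Pool.Agent.H807R2.Dav
open Pool.Agent.H373R2.T7
open Pool.Agent.W93.DG
open Pool.Agent.W93.RD
open Pool.Agent.W93.LM (FC FC_pars)
open Pool.Agent.TH894.SM (change Win un change_lt)
open Pool.Agent.TH894.CW (change_succ)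
open Pool.Agent.TH894.LG (uz Ch card_Ch un_Ch)

/-- the correlation up to `N₁` with shift `y` -/
noncomputable def cz (z N₁ y : ℕ) : ℝ :=
  ∑ n ∈ Icc 1 N₁, ArithmeticFunction.vonMangoldt n * (lamI ((n : ℤ) + (y : ℤ)) - lamzI z ((n : ℤ) + (y : ℤ)))

/-- the individual terms -/
lemma cz_term (z X n y : ℕ) (D : ℝ) (hX : n + y ≤ X) (hn : 1 ≤ n) (hD : Real.log (X : ℝ) + (Vz z)⁻¹ ≤ D) :
    |ArithmeticFunction.vonMangoldt n * (lamI ((n : ℤ) + (y : ℤ)) - lamzI z ((n : ℤ) + (y : ℤ)))| ≤ D * D := by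
  have hX1 : (1 : ℝ) ≤ X := by exact_mod_cast (by omega : 1 ≤ X)
  have hV0 : 0 ≤ (Vz z)⁻¹ := (inv_pos.2 (Vz_pos z)).le
  have hD0 : 0 ≤ D := le_trans (add_nonneg (Real.log_nonneg hX1) hV0) hD
  rw [abs_mul]
  apply mul_le_mul _ _ (abs_nonneg _) hD0
  · rw [abs_of_nonneg ArithmeticFunction.vonMangoldt_nonneg]
    refine ArithmeticFunction.vonMangoldt_le_log.trans ?_
    have : Real.log (n : ℝ) ≤ Real.log X := Real.log_le_log (by exact_mod_cast hn) (by exact_mod_cast (by omega : n ≤ X))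
    linarith
  · refine (abs_sub _ _).trans ?_
    rw [abs_of_nonneg (lamI_nonneg _), abs_of_nonneg (lamzI_nonneg _ _)]
    refine le_trans (add_le_add (lamI_le _ _ hX1 ?_) (lamzI_le z _)) hD
    exact_mod_cast hX

lemma cz_split (z s j N₁ y X : ℕ) (D : ℝ) (hj : j = N₁ / s) (hs : 1 ≤ s) (hX : N₁ + y ≤ X) (hD : Real.log (X : ℝ) + (Vz z)⁻¹ ≤ D) :
    |cz z N₁ y| ≤ |cz z (j * s) y| + s * (D * D) := by
  have hjs : j * s ≤ N₁ := by rw [hj]; exact Nat.div_mul_le_self _ _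
  have hjs2 : N₁ < j * s + s := by
    rw [hj]
    have := Nat.lt_div_mul_add (a := N₁) (b := s) hs
    exact this
  have h1 : cz z N₁ y = cz z (j * s) y + ∑ n ∈ Ioc (j * s) N₁, ArithmeticFunction.vonMangoldt n * (lamI ((n : ℤ) + (y : ℤ)) - lamzI z ((n : ℤ) + (y : ℤ))) := by
    unfold cz
    have e1 : Icc 1 N₁ = Ioc 0 N₁ := rfl
    have e2 : Icc 1 (j * s) = Ioc 0 (j * s) := rfl
    rw [e1, e2, Finset.sum_Ioc_consecutive _ (Nat.zero_le _) hjs]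
  rw [h1]
  refine (abs_add_le _ _).trans ?_
  apply add_le_add le_rfl
  refine (abs_sum_le_sum_abs _ _).trans ?_
  have h2 : ∀ n ∈ Ioc (j * s) N₁, |ArithmeticFunction.vonMangoldt n * (lamI ((n : ℤ) + (y : ℤ)) - lamzI z ((n : ℤ) + (y : ℤ)))| ≤ D * D := by
    intro n hn
    rw [mem_Ioc] at hn
    exact cz_term z X n y D (by omega) (by omega) hD
  refine (sum_le_sum h2).trans ?_
  rw [sum_const, Nat.card_Ioc, nsmul_eq_mul]
  apply mul_le_mul_of_nonneg_right _ (mul_self_nonneg D)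
  exact_mod_cast (by omega : N₁ - j * s ≤ s)

/-- all small multiples -/
theorem mult_P (b : ℕ) (hb : 2 ≤ b) : ∃ R : ℕ, 1 ≤ R ∧ ∀ κ V : ℕ, ∃ C₁ : ℕ, 4 ≤ C₁ ∧ ∀ A₀ : ℕ, ∃ A B : ℕ, A₀ ≤ A ∧ ∀ Ez : ℕ, ∃ k₀ : ℕ, ∀ K : ℕ, k₀ ≤ K →
    ∀ z : ℕ, Real.log ((b ^ K : ℕ) : ℝ) ^ B ≤ z → (z : ℝ) ≤ Real.log ((b ^ K : ℕ) : ℝ) ^ Ez →
    ∀ N : ℕ, N < b ^ K → ∀ f : ℕ → ℕ, (∀ j, f j < b ∧ f j ≠ N / b ^ j % b) →
    ∀ r : Fin 3 → ℕ, (∀ q, C₁ * (Nat.log b (K + 1) + 1) ≤ r q) → (∀ q, 8 * R * r q ≤ (Win (hh b A (K + 1)) (K + 1) q).card) →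
    ∃ S ⊆ Ch b A K r, (S.card : ℝ) ≤ 1 / (K : ℝ) ^ V * (Ch b A K r).card ∧
    ∀ T ∈ Ch b A K r, T ∉ S → ∀ h : ℕ, 1 ≤ h → h ≤ K ^ κ → ∀ N₁ : ℕ, N₁ ≤ b ^ K * K ^ κ →
      |cz z N₁ (h * change b K N f (un T))| ≤ (b : ℝ) ^ K / (K : ℝ) ^ V := by
  classical
  obtain ⟨R, hR, hV⟩ := mul_log b hb
  refine ⟨R, hR, fun κ V => ?_⟩
  obtain ⟨κ₁, hκ₁⟩ : ∃ κ₁, κ₁ = κ + 2 := ⟨_, rfl⟩
  obtain ⟨V₃, hV₃⟩ : ∃ V₃, V₃ = 2 * V + 2 * κ + 2 * κ₁ + 10 := ⟨_, rfl⟩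
  obtain ⟨C₁, hC₁, hA⟩ := hV κ₁ V₃
  refine ⟨C₁, hC₁, fun A₀ => ?_⟩
  obtain ⟨A, U', W, hAA, hA5, k0, h0⟩ := hA A₀
  obtain ⟨B, hB⟩ := Gd_uz b hb U' W
  refine ⟨A, B + 1, hAA, fun Ez => ?_⟩
  obtain ⟨k1, h1⟩ := hB Ez
  obtain ⟨k2, h2⟩ := Vz_inv_small Ez
  obtain ⟨k3, h3⟩ := ev_L' (3 ^ B + 2)
  obtain ⟨k4, h4⟩ := hh_small b 1 (κ₁ + 4) hb
  obtain ⟨k5, h5⟩ := hh_small b A 4 hb
  obtain ⟨k6, h6⟩ := hh_small b 1 (V + 6) hb
  refine ⟨k0 + k1 + k2 + k3 + k4 + k5 + k6 + 8 * b + 16, fun K hK z hz1 hz2 N hN f hf r hr hr' => ?_⟩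
  have hb1 : 1 < b := by omega
  have hbn : 0 < b := by omega
  have hbr : (2 : ℝ) ≤ b := by exact_mod_cast hb
  have hKX : K < b ^ K := Nat.lt_pow_self hb1
  obtain ⟨K', hK'⟩ : ∃ K', K' = K + 1 := ⟨_, rfl⟩
  have hK0 : (0 : ℝ) < K := by exact_mod_cast (by omega : 0 < K)
  have hK'0 : (0 : ℝ) < K' := by exact_mod_cast (by omega : 0 < K')
  have hKK' : (K : ℝ) ≤ K' := by exact_mod_cast (by omega : K ≤ K')
  have hK'8 : (8 * b + 16 : ℝ) ≤ K' := by exact_mod_cast (by omega : 8 * b + 16 ≤ K')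
  have hK'1 : (1 : ℝ) ≤ K' := by linarith
  obtain ⟨l, hl⟩ : ∃ l, l = Nat.log b K' + 1 := ⟨_, rfl⟩
  obtain ⟨c, hc⟩ : ∃ c, c = κ₁ * l := ⟨_, rfl⟩
  have hbl1 : K' ≤ b ^ l := by rw [hl]; exact (Nat.lt_pow_succ_log_self hb1 _).le
  have hbl2 : b ^ l ≤ b * K' := by
    rw [hl, pow_succ']
    exact Nat.mul_le_mul_left _ (Nat.pow_log_le_self b (by omega))
  have hbc1 : K' ^ κ₁ ≤ b ^ c := by
    rw [hc, mul_comm κ₁ l, pow_mul]
    exact Nat.pow_le_pow_left hbl1 _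
  have hbc2 : b ^ c ≤ K' ^ (2 * κ₁) := by
    rw [hc, mul_comm κ₁ l, pow_mul, pow_mul]
    apply Nat.pow_le_pow_left
    refine hbl2.trans ?_
    rw [pow_two]
    apply Nat.mul_le_mul_right
    omega
  have hcK : c ≤ K := by
    have e1 := h4 K' (by omega)
    unfold hh at e1
    rw [← hl] at e1
    have e2 : (κ₁ + 4) * (2 * 1 * l) = 2 * (κ₁ * l) + 8 * l := by ring
    rw [e2, ← hc] at e1
    have e3 : 1 ≤ l := by omega
    omega
  obtain ⟨k, hk⟩ : ∃ k, k = K' + c := ⟨_, rfl⟩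
  obtain ⟨L, hL⟩ : ∃ L, L = Real.log ((b ^ K : ℕ) : ℝ) := ⟨_, rfl⟩
  obtain ⟨Lk, hLk⟩ : ∃ Lk, Lk = Real.log ((b ^ k : ℕ) : ℝ) := ⟨_, rfl⟩
  have hlb : 0 < Real.log b := Real.log_pos (by linarith)
  have hlb2 : Real.log b ≤ b := (Real.log_le_sub_one_of_pos (by linarith)).trans (by linarith)
  have hLK : L = (K : ℝ) * Real.log b := by rw [hL]; push_cast; rw [Real.log_pow]
  have hLkk : Lk = (k : ℝ) * Real.log b := by rw [hLk]; push_cast; rw [Real.log_pow]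
  have hkK : (k : ℝ) ≤ 2 * K' := by
    have : k ≤ 2 * K' := by omega
    exact_mod_cast this
  have hkK2 : (k : ℝ) ≤ 3 * K := by
    have : k ≤ 3 * K := by omega
    exact_mod_cast this
  have hKk : (K : ℝ) ≤ k := by exact_mod_cast (by omega : K ≤ k)
  have hLLk : L ≤ Lk := by rw [hLK, hLkk]; exact mul_le_mul_of_nonneg_right hKk hlb.le
  have hLk3 : Lk ≤ 3 * L := by rw [hLK, hLkk]; nlinarith
  have hLbig := h3 (b ^ K) (by omega)
  rw [← hL] at hLbig hz1 hz2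
  have hp2 : (0 : ℝ) < 3 ^ B := by positivity
  have hL1 : 1 ≤ L := by linarith
  have hL0 : 0 < L := by linarith
  have hz : 1 ≤ z := by
    have : (1 : ℝ) ≤ z := (one_le_pow₀ hL1).trans hz1
    exact_mod_cast this
  have hVz := h2 (b ^ K) (by omega) z hz (by rw [← hL]; exact hz2)
  rw [← hL] at hVz
  have hV0 : 0 ≤ (Vz z)⁻¹ := (inv_pos.2 (Vz_pos z)).le
  have hu := h1 k (by omega) z (by
      rw [← hLk]
      refine le_trans ?_ hz1
      calc Lk ^ B ≤ (3 * L) ^ B := pow_le_pow_left₀ (by linarith) hLk3 B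
        _ = 3 ^ B * L ^ B := mul_pow _ _ _
        _ ≤ L * L ^ B := mul_le_mul_of_nonneg_right (by linarith) (by positivity)
        _ = L ^ (B + 1) := by ring) (by
      rw [← hLk]
      exact hz2.trans (pow_le_pow_left₀ hL0.le hLLk _)) (hh b A K')
  -- the bound of the terms
  have hD : Real.log ((b ^ k : ℕ) : ℝ) + (Vz z)⁻¹ ≤ (K' : ℝ) ^ 2 := by
    rw [← hLk]
    have e1 : L ≤ b * K := by rw [hLK]; nlinarith
    have e2 : Lk ≤ b * (2 * K') := by rw [hLkk]; nlinarith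
    have e3 : (b : ℝ) * K ≤ b * K' := mul_le_mul_of_nonneg_left hKK' (by linarith)
    have e4 : (8 * b) * (K' : ℝ) ≤ K' * K' := mul_le_mul_of_nonneg_right (by linarith) hK'0.le
    have e5 : 0 ≤ (b : ℝ) * K' := by positivity
    nlinarith
  have hlog1 : ∀ n : ℕ, 1 ≤ n → n ≤ b ^ k → ArithmeticFunction.vonMangoldt n ≤ (K' : ℝ) ^ 2 := by
    intro n hn1 hn2
    refine ArithmeticFunction.vonMangoldt_le_log.trans ?_
    have : Real.log (n : ℝ) ≤ Real.log ((b ^ k : ℕ) : ℝ) := Real.log_le_log (by exact_mod_cast hn1) (by exact_mod_cast hn2)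
    linarith
  have hu2 : ∑ r ∈ range (b ^ (K' + c + 1)), ‖FC (uz z) (b ^ (K' + c)) (b ^ (K' + c + 1)) r‖ ^ 2 ≤
      ((b ^ (K' + c + 1) : ℕ) : ℝ) * ((b ^ (K' + c) : ℕ) : ℝ) * (K' : ℝ) ^ 4 := by
    rw [← hk, FC_pars _ _ _ (Nat.one_le_pow _ _ hbn) (Nat.pow_le_pow_right hbn (by omega)), mul_assoc]
    apply mul_le_mul_of_nonneg_left _ (Nat.cast_nonneg _)
    have e1 : ∀ n ∈ Icc 1 (b ^ k), ‖uz z n‖ ^ 2 ≤ (K' : ℝ) ^ 4 := by
      intro n hn
      rw [mem_Icc] at hn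
      have e2 : ‖uz z n‖ ≤ (K' : ℝ) ^ 2 := by
        unfold uz
        rw [Complex.norm_real, Real.norm_eq_abs]
        refine (abs_sub _ _).trans ?_
        rw [abs_of_nonneg ArithmeticFunction.vonMangoldt_nonneg]
        refine le_trans (add_le_add (ArithmeticFunction.vonMangoldt_le_log.trans (Real.log_le_log (by exact_mod_cast hn.1) (by exact_mod_cast hn.2))) ?_) hD
        unfold lamz
        split_ifs
        · rw [abs_of_nonneg hV0]
        · rw [abs_zero]; exact hV0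
      calc ‖uz z n‖ ^ 2 ≤ ((K' : ℝ) ^ 2) ^ 2 := pow_le_pow_left₀ (norm_nonneg _) e2 2
        _ = _ := by ring
    refine (sum_le_sum e1).trans ?_
    rw [sum_const, Nat.card_Icc, Nat.add_sub_cancel, nsmul_eq_mul]
  obtain ⟨g, hg⟩ : ∃ g : ℕ → ℂ, g = fun n => if 1 ≤ n ∧ n ≤ b ^ k then ((ArithmeticFunction.vonMangoldt n / (K' : ℝ) ^ 2 : ℝ) : ℂ) else 0 := ⟨_, rfl⟩
  have hg1 : ∀ n, ‖g n‖ ≤ 1 := by
    intro n
    rw [hg]
    simp only
    split_ifs with h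
    · rw [Complex.norm_real, Real.norm_eq_abs, abs_div, abs_of_nonneg ArithmeticFunction.vonMangoldt_nonneg, abs_of_pos (by positivity), div_le_one (by positivity)]
      exact hlog1 n h.1 h.2
    · rw [norm_zero]; norm_num
  have hrel : ∀ N₁ y : ℕ, N₁ ≤ b ^ k → |cz z N₁ y| = (K' : ℝ) ^ 2 * ‖∑ n ∈ Icc 1 N₁, g n * exI (uz z) ((n : ℤ) + (y : ℕ))‖ := by
    intro N₁ y hN₁
    have e1 : ∑ n ∈ Icc 1 N₁, g n * exI (uz z) ((n : ℤ) + (y : ℕ)) = ((cz z N₁ y / (K' : ℝ) ^ 2 : ℝ) : ℂ) := by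
      unfold cz
      rw [sum_div, Complex.ofReal_sum]
      apply sum_congr rfl
      intro n hn
      rw [mem_Icc] at hn
      rw [hg]
      simp only
      rw [if_pos ⟨hn.1, by omega⟩]
      unfold exI uz lamI lamzI
      have h7 : 1 ≤ (n : ℤ) + (y : ℕ) := by omega
      rw [if_pos h7, if_pos h7, if_pos h7]
      push_cast
      ring
    rw [e1, Complex.norm_real, Real.norm_eq_abs, abs_div, abs_of_pos (show (0 : ℝ) < (K' : ℝ) ^ 2 by positivity)]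
    field_simp
  -- the grid
  obtain ⟨P, hP⟩ : ∃ P, P = K' ^ (V + 6) := ⟨_, rfl⟩
  have hP1 : 1 ≤ P := by rw [hP]; exact Nat.one_le_pow _ _ (by omega)
  obtain ⟨s, hs⟩ : ∃ s, s = b ^ K / P := ⟨_, rfl⟩
  have hPK : P ≤ b ^ K := by
    have e1 := h6 K' (by omega)
    unfold hh at e1
    rw [← hl] at e1
    have e2 : (V + 6) * (2 * 1 * l) = 2 * ((V + 6) * l) := by ring
    rw [e2] at e1
    rw [hP]
    calc K' ^ (V + 6) ≤ (b ^ l) ^ (V + 6) := Nat.pow_le_pow_left hbl1 _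
      _ = b ^ ((V + 6) * l) := by rw [← pow_mul]; congr 1; ring
      _ ≤ b ^ K := Nat.pow_le_pow_right hbn (by omega)
  have hs1 : 1 ≤ s := by rw [hs]; exact (Nat.one_le_div_iff (by omega)).2 hPK
  have hs2 : s * P ≤ b ^ K := by rw [hs]; exact Nat.div_mul_le_self _ _
  have hs3 : b ^ K ≤ 2 * P * s := by
    have e1 : b ^ K < s * P + P := by rw [hs]; exact Nat.lt_div_mul_add hP1
    have e2 : P ≤ s * P := Nat.le_mul_of_pos_left _ hs1
    nlinarith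
  obtain ⟨J, hJ⟩ : ∃ J, J = 2 * P * K ^ κ := ⟨_, rfl⟩
  obtain ⟨E, hE⟩ : ∃ E : ℕ → ℕ → Finset (Fin 3 → Finset ℕ), E = fun h j => (Ch b A K r).filter (fun T => (b : ℝ) ^ (K' + c) / (K' : ℝ) ^ V₃ <
      ‖∑ n ∈ Icc 1 (j * s), g n * exI (uz z) ((n : ℤ) + (h * change b K' N f (un T) : ℕ))‖) := ⟨_, rfl⟩
  have hNK : N < b ^ K' := hN.trans_le (Nat.pow_le_pow_right hbn (by omega))
  have hKκ : K ^ κ ≤ K' ^ κ := Nat.pow_le_pow_left (by omega) _
  have hbKc : b ^ K' * (K' * K' ^ κ) ≤ b ^ (K' + c) := by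
    rw [pow_add]
    apply Nat.mul_le_mul_left
    refine le_trans ?_ hbc1
    rw [hκ₁]
    calc K' * K' ^ κ = K' ^ (κ + 1) := by ring
      _ ≤ K' ^ (κ + 2) := Nat.pow_le_pow_right (by omega) (by omega)
  have hbKK : b ^ K ≤ b ^ K' := Nat.pow_le_pow_right hbn (by omega)
  have hkey : ∀ h j : ℕ, 1 ≤ h → h ≤ K ^ κ → j * s ≤ b ^ K * K ^ κ → ((E h j).card : ℝ) ≤ 1 / (K' : ℝ) ^ V₃ * (Ch b A K r).card := by
    intro h j hh1 hh2 hjs
    rw [card_Ch, ← hK']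
    refine h0 K' (by omega) c c le_rfl (by rw [hc, hl]) (uz z) (by rw [← hk]; exact hu) hu2 g hg1 (j * s) h hh1 ?_ ?_ N hNK f hf r ?_ ?_ (E h j) ?_ ?_
    · refine hh2.trans (hKκ.trans ?_)
      refine le_trans (Nat.pow_le_pow_right (by omega) (by omega)) hbc1
    · refine le_trans ?_ hbKc
      have e1 : j * s ≤ b ^ K' * K' ^ κ := hjs.trans (Nat.mul_le_mul hbKK hKκ)
      have e2 : h * b ^ K' ≤ b ^ K' * K' ^ κ := by rw [mul_comm]; exact Nat.mul_le_mul_left _ (hh2.trans hKκ)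
      have e3 : 2 * (b ^ K' * K' ^ κ) ≤ K' * (b ^ K' * K' ^ κ) := Nat.mul_le_mul_right _ (by omega)
      have e4 : K' * (b ^ K' * K' ^ κ) = b ^ K' * (K' * K' ^ κ) := by ring
      omega
    · rw [hK']; exact hr
    · rw [hK']; exact hr'
    · rw [hE, hK']
      exact filter_subset _ _
    · intro T hT
      rw [hE] at hT
      exact (mem_filter.1 hT).2
  refine ⟨((Icc 1 (K ^ κ)) ×ˢ ((range (J + 1)).filter (fun j => j * s ≤ b ^ K * K ^ κ))).biUnion (fun p => E p.1 p.2), ?_, ?_, ?_⟩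
  · intro T hT
    rw [mem_biUnion] at hT
    obtain ⟨p, _, hp⟩ := hT
    rw [hE] at hp
    exact (mem_filter.1 hp).1
  · have e1 : ((((Icc 1 (K ^ κ)) ×ˢ ((range (J + 1)).filter (fun j => j * s ≤ b ^ K * K ^ κ))).biUnion (fun p => E p.1 p.2)).card : ℝ) ≤
        ∑ p ∈ (Icc 1 (K ^ κ)) ×ˢ ((range (J + 1)).filter (fun j => j * s ≤ b ^ K * K ^ κ)), ((E p.1 p.2).card : ℝ) := by
      exact_mod_cast card_biUnion_le
    refine e1.trans ?_
    have e2 : ∀ p ∈ (Icc 1 (K ^ κ)) ×ˢ ((range (J + 1)).filter (fun j => j * s ≤ b ^ K * K ^ κ)), ((E p.1 p.2).card : ℝ) ≤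
        1 / (K' : ℝ) ^ V₃ * (Ch b A K r).card := by
      intro p hp
      rw [mem_product, mem_Icc, mem_filter] at hp
      exact hkey p.1 p.2 hp.1.1 hp.1.2 hp.2.2
    refine (sum_le_sum e2).trans ?_
    rw [sum_const, nsmul_eq_mul, ← mul_assoc]
    apply mul_le_mul_of_nonneg_right _ (Nat.cast_nonneg _)
    have e3 : ((((Icc 1 (K ^ κ)) ×ˢ ((range (J + 1)).filter (fun j => j * s ≤ b ^ K * K ^ κ))).card : ℕ) : ℝ) ≤ (K' : ℝ) ^ (2 * κ + V + 8) := by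
      rw [card_product, Nat.card_Icc, Nat.add_sub_cancel]
      have e4 : ((range (J + 1)).filter (fun j => j * s ≤ b ^ K * K ^ κ)).card ≤ J + 1 := (card_filter_le _ _).trans (by rw [card_range])
      have e5 : K ^ κ * (J + 1) ≤ K' ^ (2 * κ + V + 8) := by
        have e6 : 1 ≤ K' ^ κ * P := Nat.mul_pos (Nat.pow_pos (by omega)) hP1
        calc K ^ κ * (J + 1) ≤ K' ^ κ * (2 * P * K' ^ κ + 1) := by
              rw [hJ]
              exact Nat.mul_le_mul hKκ (Nat.succ_le_succ (Nat.mul_le_mul_left _ hKκ))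
          _ ≤ K' ^ κ * (3 * (K' ^ κ * P)) := by
              apply Nat.mul_le_mul_left
              nlinarith
          _ = 3 * (K' ^ (2 * κ) * P) := by ring
          _ ≤ K' * (K' ^ (2 * κ) * P) := Nat.mul_le_mul_right _ (by omega)
          _ = K' ^ (2 * κ + V + 7) := by rw [hP]; ring
          _ ≤ K' ^ (2 * κ + V + 8) := Nat.pow_le_pow_right (by omega) (by omega)
      exact_mod_cast (Nat.mul_le_mul_left _ e4).trans e5
    calc ((((Icc 1 (K ^ κ)) ×ˢ ((range (J + 1)).filter (fun j => j * s ≤ b ^ K * K ^ κ))).card : ℕ) : ℝ) * (1 / (K' : ℝ) ^ V₃)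
        ≤ (K' : ℝ) ^ (2 * κ + V + 8) * (1 / (K' : ℝ) ^ V₃) := mul_le_mul_of_nonneg_right e3 (by positivity)
      _ ≤ 1 / (K' : ℝ) ^ V := by
          rw [mul_one_div, div_le_div_iff₀ (by positivity) (by positivity), one_mul, ← pow_add]
          exact pow_le_pow_right₀ hK'1 (by omega)
      _ ≤ 1 / (K : ℝ) ^ V := by
          apply one_div_le_one_div_of_le (by positivity)
          exact pow_le_pow_left₀ hK0.le hKK' _
  · intro T hT hTS h hh1 hh2 N₁ hN₁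
    have hKT : K ∉ un T := by
      intro hx
      have := mem_Ico.1 (un_Ch b A K (by have := h5 (K + 1) (by omega); omega) r T hT hx)
      omega
    have hch : change b K' N f (un T) = change b K N f (un T) := by rw [hK']; exact change_succ b K N hN f _ hKT
    obtain ⟨j, hj⟩ : ∃ j, j = N₁ / s := ⟨_, rfl⟩
    have hjs : j * s ≤ N₁ := by rw [hj]; exact Nat.div_mul_le_self _ _
    have hjJ : j ≤ J := by
      rw [hj]
      apply Nat.div_le_of_le_mul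
      calc N₁ ≤ b ^ K * K ^ κ := hN₁
        _ ≤ (2 * P * s) * K ^ κ := Nat.mul_le_mul_right _ hs3
        _ = s * J := by rw [hJ]; ring
    have hchl : change b K N f (un T) < b ^ K := change_lt b K N (by omega) f (fun j => (hf j).1) _
    have hNk : N₁ + h * change b K N f (un T) ≤ b ^ k := by
      rw [hk]
      refine le_trans ?_ hbKc
      have e1 : N₁ ≤ b ^ K' * K' ^ κ := hN₁.trans (Nat.mul_le_mul hbKK hKκ)
      have e2 : h * change b K N f (un T) ≤ b ^ K' * K' ^ κ := by rw [mul_comm]; exact Nat.mul_le_mul (hchl.le.trans hbKK) (hh2.trans hKκ)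
      have e3 : 2 * (b ^ K' * K' ^ κ) ≤ K' * (b ^ K' * K' ^ κ) := Nat.mul_le_mul_right _ (by omega)
      have e4 : K' * (b ^ K' * K' ^ κ) = b ^ K' * (K' * K' ^ κ) := by ring
      omega
    have e1 := cz_split z s j N₁ (h * change b K N f (un T)) (b ^ k) ((K' : ℝ) ^ 2) hj hs1 hNk hD
    refine e1.trans ?_
    have e2 : |cz z (j * s) (h * change b K N f (un T))| ≤ (K' : ℝ) ^ 2 * ((b : ℝ) ^ (K' + c) / (K' : ℝ) ^ V₃) := by
      rw [hrel _ _ (by omega)]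
      apply mul_le_mul_of_nonneg_left _ (by positivity)
      by_contra hcon
      push Not at hcon
      apply hTS
      rw [mem_biUnion]
      refine ⟨(h, j), ?_, ?_⟩
      · rw [mem_product, mem_Icc, mem_filter, mem_range]
        exact ⟨⟨hh1, hh2⟩, by simp only; omega, hjs.trans hN₁⟩
      · rw [hE]
        simp only
        rw [mem_filter, hch]
        exact ⟨hT, hcon⟩
    have hbK0 : (0 : ℝ) < (b : ℝ) ^ K := by positivity
    have e3 : (K' : ℝ) ^ 2 * ((b : ℝ) ^ (K' + c) / (K' : ℝ) ^ V₃) ≤ (b : ℝ) ^ K / (K' : ℝ) ^ (V + 1) := by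
      have g1 : (b : ℝ) ^ (K' + c) ≤ (b : ℝ) ^ K * (K' : ℝ) ^ (2 * κ₁ + 1) := by
        have g2 : b ^ (K' + c) ≤ b ^ K * K' ^ (2 * κ₁ + 1) := by
          rw [hK', pow_add, pow_succ, ← hK', mul_assoc]
          apply Nat.mul_le_mul_left
          rw [pow_succ' K' (2 * κ₁)]
          exact Nat.mul_le_mul (by omega) hbc2
        exact_mod_cast g2
      rw [← mul_div_assoc, div_le_div_iff₀ (by positivity) (by positivity)]
      calc (K' : ℝ) ^ 2 * (b : ℝ) ^ (K' + c) * (K' : ℝ) ^ (V + 1) ≤ (K' : ℝ) ^ 2 * ((b : ℝ) ^ K * (K' : ℝ) ^ (2 * κ₁ + 1)) * (K' : ℝ) ^ (V + 1) := by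
            gcongr
        _ = (b : ℝ) ^ K * (K' : ℝ) ^ (2 * κ₁ + V + 4) := by ring
        _ ≤ (b : ℝ) ^ K * (K' : ℝ) ^ V₃ := by
            apply mul_le_mul_of_nonneg_left _ hbK0.le
            exact pow_le_pow_right₀ hK'1 (by omega)
    have e4 : (s : ℝ) * ((K' : ℝ) ^ 2 * (K' : ℝ) ^ 2) ≤ (b : ℝ) ^ K / (K' : ℝ) ^ (V + 1) := by
      have g1 : (s : ℝ) * (K' : ℝ) ^ (V + 6) ≤ (b : ℝ) ^ K := by
        rw [hP] at hs2
        exact_mod_cast hs2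
      rw [le_div_iff₀ (by positivity)]
      calc (s : ℝ) * ((K' : ℝ) ^ 2 * (K' : ℝ) ^ 2) * (K' : ℝ) ^ (V + 1) = s * (K' : ℝ) ^ (V + 5) := by ring
        _ ≤ s * (K' : ℝ) ^ (V + 6) := mul_le_mul_of_nonneg_left (pow_le_pow_right₀ hK'1 (by omega)) (Nat.cast_nonneg _)
        _ ≤ _ := g1
    calc |cz z (j * s) (h * change b K N f (un T))| + (s : ℝ) * ((K' : ℝ) ^ 2 * (K' : ℝ) ^ 2)
        ≤ (b : ℝ) ^ K / (K' : ℝ) ^ (V + 1) + (b : ℝ) ^ K / (K' : ℝ) ^ (V + 1) := add_le_add (e2.trans e3) e4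
      _ = (2 / K') * ((b : ℝ) ^ K / (K' : ℝ) ^ V) := by rw [pow_succ]; field_simp; ring
      _ ≤ 1 * ((b : ℝ) ^ K / (K' : ℝ) ^ V) := by
          apply mul_le_mul_of_nonneg_right _ (by positivity)
          rw [div_le_one hK'0]
          linarith
      _ = (b : ℝ) ^ K / (K' : ℝ) ^ V := one_mul _
      _ ≤ (b : ℝ) ^ K / (K : ℝ) ^ V := by
          apply div_le_div_of_nonneg_left hbK0.le (by positivity)
          exact pow_le_pow_left₀ hK0.le hKK' _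

end Pool.Agent.TH894.PA
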