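import Pool.Agent.TH935.DF3
import Pool.Agent.TH935.LF11

set_option autoImplicit false

/-! Prime pairs in progressions and windows: the deterministic part, with errors smaller than a constant. -/

namespace Pool.Agent.TH894.PR
open Finset
open Pool.Agent.H807R2.Dav
open Pool.Agent.H373R2.T7
open Pool.Agent.W93.PP
open Pool.Agent.W93.GB (one_le_sing)
open Pool.Agent.H560R3.GB (sing)
open Pool.Agent.TH935.DF (cc Wc wc_le cc_le)
open Pool.Agent.TH935.LF (num2)

lemma cnt_pos (q a h : ℕ) (hq : 1 ≤ q) (ha : Nat.Coprime a q) (hah : Nat.Coprime (a + h) q) : 0 < Cnt q h := by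
  have haq : a % q < q := Nat.mod_lt _ (by omega)
  have hmod : a % q ≡ a [MOD q] := Nat.mod_modEq _ _
  have ha1 : Nat.Coprime (a % q) q := by
    have := hmod.gcd_eq
    unfold Nat.Coprime at ha ⊢
    rw [this, ha]
  have hah1 : Nat.Coprime (a % q + h) q := by
    have := (hmod.add_right h).gcd_eq
    unfold Nat.Coprime at hah ⊢
    rw [this, hah]
  unfold Cnt
  rw [card_pos]
  exact ⟨a % q, mem_filter.2 ⟨mem_range.2 haq, ha1, hah1⟩⟩

lemma cnt_le (q h : ℕ) : Cnt q h ≤ q := by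
  unfold Cnt
  refine (card_filter_le _ _).trans ?_
  rw [card_range]

/-- from the correlations to the weighted numbers -/
theorem det_w (Q₀ T E1 : ℕ) (hT2 : 2 ≤ T) (hE1 : 8 ≤ E1) (δ : ℝ) (hδ : 0 < δ) : ∃ X0 : ℕ, ∀ X : ℕ, X0 ≤ X → ∀ h : ℕ, h ≤ X → 2 ∣ h → h ≠ 0 →
    ∀ z : ℕ, Real.log X ^ E1 ≤ z → (z : ℝ) ≤ Real.log X ^ (E1 + 1) →
    (∀ i ∈ range (T + 1), ∀ q a : ℕ, 1 ≤ q → q ≤ Q₀ → a < q →
      |∑ n ∈ Icc 1 (min (i * (X / T + 1)) X), (if n ≡ a [MOD q] then ArithmeticFunction.vonMangoldt n else 0) *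
        (lamI ((n : ℤ) + (h : ℤ)) - lamzI z ((n : ℤ) + (h : ℤ)))| ≤ δ * X) →
    ∀ q a : ℕ, 1 ≤ q → q ≤ Q₀ → Nat.Coprime a q → Nat.Coprime (a + h) q →
    ∀ y : ℕ, y ≤ X → |∑ n ∈ Icc 1 y, (if n ≡ a [MOD q] then ArithmeticFunction.vonMangoldt n else 0) *
      lamI ((n : ℤ) + (h : ℤ)) - sing h / Cnt q h * y| ≤ 3 * (δ * X) + sing h / Cnt q h * (2 * X / T) := by
  classical
  obtain ⟨N0, h0⟩ := ap_main (E1 + 2) 1
  obtain ⟨n2, h2⟩ := ev_L' (2 ^ (E1 + 5) + 2 / δ + Q₀ + 100)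
  obtain ⟨n3, h3⟩ := Vz_inv_small (E1 + 1)
  refine ⟨(N0 + n2 + n3 + Q₀ + 4) * (T ^ 2 + 1), fun X hX h hhXn h2d hne z hz1 hz2 hyp => ?_⟩
  have hTT : N0 + n2 + n3 + Q₀ + 4 ≤ (N0 + n2 + n3 + Q₀ + 4) * (T ^ 2 + 1) := Nat.le_mul_of_pos_right _ (by positivity)
  have hTT2 : (N0 + n2 + n3 + Q₀ + 4) * T ^ 2 ≤ (N0 + n2 + n3 + Q₀ + 4) * (T ^ 2 + 1) := Nat.mul_le_mul_left _ (by omega)
  have hX4 : 4 ≤ X := by omega
  have hL := h2 X (by omega)
  have hV := h3 X (by omega) z
  obtain ⟨L, hLd⟩ : ∃ L, L = Real.log (X : ℝ) := ⟨_, rfl⟩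
  rw [← hLd] at hL hV hz1 hz2
  have hp1 : (0 : ℝ) < 2 ^ (E1 + 5) := by positivity
  have hp2 : (0 : ℝ) < 2 / δ := by positivity
  have hQ0' : (0 : ℝ) ≤ Q₀ := Nat.cast_nonneg _
  have hL100 : 100 ≤ L := by linarith
  have hL1 : 1 ≤ L := by linarith
  have hL0 : 0 < L := by linarith
  have hLδ : 2 ≤ L * δ := by
    have : 2 / δ ≤ L := by linarith
    rwa [div_le_iff₀ hδ] at this
  have hXr : (4 : ℝ) ≤ X := by exact_mod_cast hX4
  have hX0 : (0 : ℝ) < X := by linarith
  have hss : √(X : ℝ) * √(X : ℝ) = X := Real.mul_self_sqrt hX0.le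
  have hs0 : 0 < √(X : ℝ) := Real.sqrt_pos.2 hX0
  have hz0 : (1 : ℝ) ≤ z := (one_le_pow₀ hL1).trans hz1
  have hzn : 1 ≤ z := by exact_mod_cast hz0
  have hV' := hV hzn hz2
  have hT0 : (1 : ℝ) ≤ T := by exact_mod_cast (by omega : 1 ≤ T)
  have hTn : 1 ≤ T := by omega
  -- `T ≤ √X`
  have hTX : (T : ℝ) ≤ √(X : ℝ) := by
    apply Real.le_sqrt_of_sq_le
    have : 1 * T ^ 2 ≤ (N0 + n2 + n3 + Q₀ + 4) * T ^ 2 := Nat.mul_le_mul_right _ (by omega)
    exact_mod_cast (by omega : T ^ 2 ≤ X)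
  intro q a hq1 hq2 ha hah
  have hqL : (q : ℝ) ≤ L := by
    have : (q : ℝ) ≤ Q₀ := by exact_mod_cast hq2
    linarith
  have hqz : q ≤ z := by
    have h5 : (q : ℝ) ≤ z := by
      refine hqL.trans (le_trans ?_ hz1)
      exact le_self_pow₀ hL1 (by omega)
    exact_mod_cast h5
  -- the residue class
  obtain ⟨a', ha'⟩ : ∃ a', a' = a % q := ⟨_, rfl⟩
  have haq : a' < q := by rw [ha']; exact Nat.mod_lt _ (by omega)
  have hmod : a' ≡ a [MOD q] := by rw [ha']; exact Nat.mod_modEq _ _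
  have ha1 : Nat.Coprime a' q := by
    have := hmod.gcd_eq
    unfold Nat.Coprime at ha ⊢
    rw [this, ha]
  have hah1 : Nat.Coprime (a' + h) q := by
    have := (hmod.add_right h).gcd_eq
    unfold Nat.Coprime at hah ⊢
    rw [this, hah]
  have hcnt : 0 < Cnt q h := cnt_pos q a h hq1 ha hah
  have hif : ∀ n : ℕ, (if n ≡ a [MOD q] then ArithmeticFunction.vonMangoldt n else 0) = (if n ≡ a' [MOD q] then ArithmeticFunction.vonMangoldt n else 0) := by
    intro n
    by_cases h5 : n ≡ a [MOD q]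
    · rw [if_pos h5, if_pos (h5.trans hmod.symm)]
    · rw [if_neg h5, if_neg (fun h6 => h5 (h6.trans hmod))]
  have hlogh : (Nat.log 2 h : ℝ) ≤ 2 * L := by
    have h5 : Nat.log 2 h ≤ Nat.log 2 X := Nat.log_mono_right hhXn
    have h6 : (Nat.log 2 h : ℝ) ≤ Nat.log 2 X := by exact_mod_cast h5
    have h7 := natlog_le X (by omega)
    rw [← hLd] at h7
    exact h6.trans h7
  have hzL : L ^ 4 ≤ z := le_trans (pow_le_pow_right₀ hL1 (by omega)) hz1
  obtain ⟨m1, m2, m3⟩ := MT_sing z q h L hL1 hq1 hqz h2d hne hcnt hV' hlogh (by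
    refine le_trans ?_ hzL
    calc 8 * L ≤ L * L := mul_le_mul_of_nonneg_right (by linarith) hL0.le
      _ = L ^ 2 := by ring
      _ ≤ L ^ 4 := pow_le_pow_right₀ hL1 (by norm_num))
  obtain ⟨S, hS⟩ : ∃ S, S = sing h / Cnt q h := ⟨_, rfl⟩
  rw [← hS] at m1 m2 m3 ⊢
  have m1' : |MT z q h - S| ≤ δ := by
    refine m1.trans ?_
    rw [div_le_iff₀ (by linarith)]
    calc 8 * L ^ 2 ≤ L * L ^ 2 := mul_le_mul_of_nonneg_right (by linarith) (by positivity)
      _ = 1 * L ^ 3 := by ring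
      _ ≤ (L * δ) * L ^ 3 := mul_le_mul_of_nonneg_right (by linarith) (by positivity)
      _ = δ * L ^ 4 := by ring
      _ ≤ δ * z := mul_le_mul_of_nonneg_left hzL hδ.le
  obtain ⟨s, hs⟩ : ∃ s, s = X / T + 1 := ⟨_, rfl⟩
  have hsT : X < T * s := by
    rw [hs]
    have := Nat.lt_div_mul_add (a := X) (b := T) (by omega)
    calc X < X / T * T + T := this
      _ = T * (X / T + 1) := by ring
  obtain ⟨ε, hε⟩ : ∃ ε : ℝ, ε = δ * X := ⟨_, rfl⟩
  have hε0 : 0 < ε := by rw [hε]; positivity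
  rw [← hs] at hyp
  have hsr : (s : ℝ) ≤ 2 * X / T := by
    rw [hs]
    push_cast
    have h5 : ((X / T : ℕ) : ℝ) ≤ X / T := Nat.cast_div_le
    have h7 : 1 ≤ (X : ℝ) / T := by
      rw [le_div_iff₀ (by linarith), one_mul]
      refine hTX.trans ?_
      have h8 : 1 ≤ √(X : ℝ) := by
        apply Real.le_sqrt_of_sq_le
        linarith
      nlinarith
    have : 2 * (X : ℝ) / T = X / T + X / T := by ring
    linarith
  have hgrid : ∀ i ∈ range (T + 1), |(fun y : ℕ => ∑ n ∈ Icc 1 y, (if n ≡ a' [MOD q] then ArithmeticFunction.vonMangoldt n else 0) * lamI ((n : ℤ) + (h : ℤ))) (min (i * s) X) -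
      S * ((min (i * s) X : ℕ) : ℝ)| ≤ 3 * ε := by
    intro i hi
    obtain ⟨y, hy⟩ : ∃ y, y = min (i * s) X := ⟨_, rfl⟩
    have g1 := hyp i hi q a' hq1 hq2 haq
    rw [← hy, ← hε] at g1
    simp only
    rw [← hy]
    have hyX : y ≤ X := by rw [hy]; exact min_le_right _ _
    have hyXr : (y : ℝ) ≤ X := by exact_mod_cast hyX
    rcases Nat.eq_zero_or_pos i with h5 | h5
    · have : y = 0 := by rw [hy, h5]; simp
      rw [this]
      simp
      linarith
    · -- y is large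
      have hyl : (X : ℝ) / T ≤ y := by
        have h6 : X / T < y := by
          rw [hy, lt_min_iff]
          constructor
          · calc X / T < s := by rw [hs]; omega
              _ ≤ i * s := Nat.le_mul_of_pos_left _ h5
          · exact Nat.div_lt_self (by omega) (by omega)
        rw [div_le_iff₀ (by linarith)]
        have h8 : X < (X / T + 1) * T := by
          have := Nat.lt_div_mul_add (a := X) (b := T) (by omega)
          rw [add_mul, one_mul]
          exact this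
        have h9 : X ≤ y * T := h8.le.trans (Nat.mul_le_mul_right _ h6)
        exact_mod_cast h9
      have hysq : √(X : ℝ) ≤ y := by
        refine le_trans ?_ hyl
        rw [le_div_iff₀ (by linarith)]
        calc √(X : ℝ) * T ≤ √(X : ℝ) * √(X : ℝ) := mul_le_mul_of_nonneg_left hTX hs0.le
          _ = X := hss
      have hy0 : (0 : ℝ) < y := lt_of_lt_of_le hs0 hysq
      have hlogy : L / 2 ≤ Real.log y := by
        have h6 : Real.log (√(X : ℝ)) = L / 2 := by rw [Real.log_sqrt hX0.le, ← hLd]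
        rw [← h6]
        exact Real.log_le_log hs0 hysq
      have hyN : N0 ≤ y := by
        have h6 : ((N0 : ℝ)) ≤ (X : ℝ) / T := by
          rw [le_div_iff₀ (by linarith)]
          have h7 : N0 * T ≤ X := by
            calc N0 * T ≤ (N0 + n2 + n3 + Q₀ + 4) * T ^ 2 := Nat.mul_le_mul (by omega) (by nlinarith)
              _ ≤ X := hTT2.trans hX
          exact_mod_cast h7
        exact_mod_cast h6.trans hyl
      have hLy : ∀ j : ℕ, j ≤ E1 + 1 → L ^ j ≤ Real.log y ^ (E1 + 2) := by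
        intro j hj
        have h6 : (L / 2) ^ (E1 + 2) ≤ Real.log y ^ (E1 + 2) := pow_le_pow_left₀ (by linarith) hlogy _
        refine le_trans ?_ h6
        calc L ^ j ≤ L ^ (E1 + 1) := pow_le_pow_right₀ hL1 hj
          _ ≤ (L / 2) ^ (E1 + 2) := by
              rw [div_pow, le_div_iff₀ (by positivity), show E1 + 2 = (E1 + 1) + 1 by ring, pow_succ L (E1 + 1)]
              apply mul_le_mul_of_nonneg_left _ (by positivity)
              have : (2 : ℝ) ^ (E1 + 1 + 1) ≤ 2 ^ (E1 + 5) := pow_le_pow_right₀ (by norm_num) (by omega)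
              linarith
      have g2 := h0 y hyN z hzn (hz2.trans (hLy (E1 + 1) le_rfl)) q a' h hq1 (hqL.trans (by
        have := hLy 1 (by omega)
        rwa [pow_one] at this)) ha1 hah1
      have hly0 : 0 < Real.log y := by linarith
      have g3 : (y : ℝ) / Real.log y ^ 1 ≤ ε := by
        rw [hε, pow_one, div_le_iff₀ hly0]
        calc (y : ℝ) ≤ X * 1 := by linarith
          _ ≤ X * (δ * (L / 2)) := mul_le_mul_of_nonneg_left (by linarith) hX0.le
          _ ≤ X * (δ * Real.log y) := by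
              apply mul_le_mul_of_nonneg_left _ hX0.le
              exact mul_le_mul_of_nonneg_left hlogy hδ.le
          _ = _ := by ring
      have g4 : |MT z q h - S| * y ≤ ε := by
        calc |MT z q h - S| * y ≤ δ * X := mul_le_mul m1' hyXr hy0.le hδ.le
          _ = ε := by rw [hε]
      have e1 : ∑ n ∈ Icc 1 y, (if n ≡ a' [MOD q] then ArithmeticFunction.vonMangoldt n else 0) *
        (lamI ((n : ℤ) + (h : ℤ)) - lamzI z ((n : ℤ) + (h : ℤ))) =
        ∑ n ∈ Icc 1 y, (if n ≡ a' [MOD q] then ArithmeticFunction.vonMangoldt n else 0) * lamI ((n : ℤ) + (h : ℤ)) -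
        ∑ n ∈ Icc 1 y, (if n ≡ a' [MOD q] then ArithmeticFunction.vonMangoldt n else 0) * lamzI z ((n : ℤ) + (h : ℤ)) := by
        rw [← sum_sub_distrib]
        apply sum_congr rfl
        intro n _
        ring
      rw [e1] at g1
      have e2 : ∑ n ∈ Icc 1 y, (if n ≡ a' [MOD q] then ArithmeticFunction.vonMangoldt n else 0) * lamI ((n : ℤ) + (h : ℤ)) - S * y =
        (∑ n ∈ Icc 1 y, (if n ≡ a' [MOD q] then ArithmeticFunction.vonMangoldt n else 0) * lamI ((n : ℤ) + (h : ℤ)) -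
        ∑ n ∈ Icc 1 y, (if n ≡ a' [MOD q] then ArithmeticFunction.vonMangoldt n else 0) * lamzI z ((n : ℤ) + (h : ℤ))) +
        (∑ n ∈ Icc 1 y, (if n ≡ a' [MOD q] then ArithmeticFunction.vonMangoldt n else 0) * lamzI z ((n : ℤ) + (h : ℤ)) - MT z q h * y) +
        (MT z q h - S) * y := by ring
      rw [e2]
      refine (abs_add_le _ _).trans ?_
      have f1 := abs_add_le (∑ n ∈ Icc 1 y, (if n ≡ a' [MOD q] then ArithmeticFunction.vonMangoldt n else 0) * lamI ((n : ℤ) + (h : ℤ)) -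
        ∑ n ∈ Icc 1 y, (if n ≡ a' [MOD q] then ArithmeticFunction.vonMangoldt n else 0) * lamzI z ((n : ℤ) + (h : ℤ)))
        (∑ n ∈ Icc 1 y, (if n ≡ a' [MOD q] then ArithmeticFunction.vonMangoldt n else 0) * lamzI z ((n : ℤ) + (h : ℤ)) - MT z q h * y)
      have f2 : |(MT z q h - S) * y| ≤ ε := by rw [abs_mul, abs_of_nonneg hy0.le]; exact g4
      linarith [g2.trans g3]
  have hall := grid (fun y : ℕ => ∑ n ∈ Icc 1 y, (if n ≡ a' [MOD q] then ArithmeticFunction.vonMangoldt n else 0) * lamI ((n : ℤ) + (h : ℤ)))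
    (fun y y' hyy => by
      apply sum_le_sum_of_subset_of_nonneg (Icc_subset_Icc_right hyy)
      intro n _ _
      apply mul_nonneg _ (lamI_nonneg _)
      split_ifs
      · exact ArithmeticFunction.vonMangoldt_nonneg
      · exact le_rfl) S (3 * ε) m2 X s T (by rw [hs]; exact Nat.le_add_left 1 _) hsT hgrid
  intro y hy
  have e0 : ∑ n ∈ Icc 1 y, (if n ≡ a [MOD q] then ArithmeticFunction.vonMangoldt n else 0) * lamI ((n : ℤ) + (h : ℤ)) =
      ∑ n ∈ Icc 1 y, (if n ≡ a' [MOD q] then ArithmeticFunction.vonMangoldt n else 0) * lamI ((n : ℤ) + (h : ℤ)) :=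
    sum_congr rfl fun n _ => by rw [hif]
  rw [e0]
  refine (hall y hy).trans ?_
  have h5 : S * s ≤ S * (2 * X / T) := mul_le_mul_of_nonneg_left hsr m2
  rw [hε]
  linarith

end Pool.Agent.TH894.PR
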