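import Pool.Agent.TH894.PR2

set_option autoImplicit false

/-! Prime pairs in progressions and windows: from the weighted numbers to the numbers. -/

namespace Pool.Agent.TH894.PR
open Finset
open Pool.Agent.H807R2.Dav
open Pool.Agent.H373R2.T7
open Pool.Agent.W93.PP
open Pool.Agent.W93.GB (one_le_sing)
open Pool.Agent.H560R3.GB (sing)
open Pool.Agent.TH935.DF (cc Wc wc_le cc_le)
open Pool.Agent.TH935.LF (num2)

/-- all windows and all admissible residue classes to small moduli contain the expected number of prime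
pairs -/
def HCe (ε : ℝ) (Q₀ X h : ℕ) : Prop :=
  ∀ q a : ℕ, 1 ≤ q → q ≤ Q₀ → Nat.Coprime a q → Nat.Coprime (a + h) q →
    ∀ y₁ y₂ : ℕ, y₁ < y₂ → y₂ ≤ X → ε * X ≤ (y₂ : ℝ) - y₁ →
      |(cc q a h y₁ y₂ : ℝ) - sing h * ((y₂ : ℝ) - y₁) / (Cnt q h * Real.log X ^ 2)| ≤
        ε * (sing h * ((y₂ : ℝ) - y₁) / (Cnt q h * Real.log X ^ 2))

lemma wc_win (q a h X : ℕ) (F : ℝ) (hG : ∀ y : ℕ, y ≤ X → |∑ n ∈ Icc 1 y, (if n ≡ a [MOD q] then ArithmeticFunction.vonMangoldt n else 0) *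
      lamI ((n : ℤ) + (h : ℤ)) - sing h / Cnt q h * y| ≤ F) (y₁ y₂ : ℕ) (h12 : y₁ ≤ y₂) (hy : y₂ ≤ X) :
    |Wc q a h y₁ y₂ - sing h / Cnt q h * ((y₂ : ℝ) - y₁)| ≤ 2 * F := by
  have g1 := hG y₁ (h12.trans hy)
  have g2 := hG y₂ hy
  have hs : ∑ n ∈ Icc 1 y₂, (if n ≡ a [MOD q] then ArithmeticFunction.vonMangoldt n else 0) * lamI ((n : ℤ) + (h : ℤ)) =
      ∑ n ∈ Icc 1 y₁, (if n ≡ a [MOD q] then ArithmeticFunction.vonMangoldt n else 0) * lamI ((n : ℤ) + (h : ℤ)) + Wc q a h y₁ y₂ := by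
    unfold Wc
    have h3 : Icc 1 y₂ = Icc 1 y₁ ∪ Ioc y₁ y₂ := by
      ext n
      rw [mem_union, mem_Icc, mem_Icc, mem_Ioc]
      omega
    rw [h3, sum_union]
    rw [disjoint_left]
    intro n hn hn2
    rw [mem_Icc] at hn
    rw [mem_Ioc] at hn2
    omega
  rw [hs] at g2
  rw [abs_le] at g1 g2 ⊢
  constructor <;> nlinarith [g1.1, g1.2, g2.1, g2.2]

set_option maxHeartbeats 4000000 in
theorem win_e (ε : ℝ) (hε : 0 < ε) (hε1 : ε ≤ 1 / 2) (Q₀ : ℕ) : ∃ N0 : ℕ, ∀ N : ℕ, N0 ≤ N → ∀ h : ℕ, h ≤ N →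
    ∀ q a : ℕ, 1 ≤ q → q ≤ Q₀ → Nat.Coprime a q → Nat.Coprime (a + h) q →
    ∀ y₁ y₂ : ℕ, y₁ < y₂ → y₂ ≤ N → ε * N ≤ (y₂ : ℝ) - y₁ →
    |Wc q a h y₁ y₂ - sing h / Cnt q h * ((y₂ : ℝ) - y₁)| ≤ ε / 64 * (sing h / Cnt q h * ((y₂ : ℝ) - y₁)) →
      |(cc q a h y₁ y₂ : ℝ) - sing h * ((y₂ : ℝ) - y₁) / (Cnt q h * Real.log N ^ 2)| ≤
        ε * (sing h * ((y₂ : ℝ) - y₁) / (Cnt q h * Real.log N ^ 2)) := by
  obtain ⟨n1, h1⟩ := ev_L' ((96 / ε) ^ 2 + 64 / ε + 64 + 64 * Q₀ / ε)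
  obtain ⟨n2, h2⟩ := ev_log' 10 1
  refine ⟨n1 + n2 + 4, fun N hN h hh q a hq hqQ ha hah y₁ y₂ h12 hy2 hΔ hWt => ?_⟩
  have b1 := h1 N (by omega)
  have b2 := h2 N (by omega)
  obtain ⟨L, hL⟩ : ∃ L, L = Real.log (N : ℝ) := ⟨_, rfl⟩
  rw [← hL] at b1 b2 ⊢
  rw [one_mul] at b2
  have hQ00 : (0 : ℝ) ≤ Q₀ := Nat.cast_nonneg _
  have hp1 : 0 < (96 / ε) ^ 2 := by positivity
  have hp2 : 0 < 64 / ε := by positivity
  have hp3 : 0 ≤ 64 * (Q₀ : ℝ) / ε := by positivity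
  have hL64 : 64 ≤ L := by linarith
  have hL1 : 1 ≤ L := by linarith
  have hL0 : 0 < L := by linarith
  have hLε : 64 ≤ L * ε := by
    have : 64 / ε ≤ L := by linarith
    rwa [div_le_iff₀ hε] at this
  have hLQ : 64 * Q₀ ≤ L * ε := by
    have : 64 * (Q₀ : ℝ) / ε ≤ L := by linarith
    rwa [div_le_iff₀ hε] at this
  have hNr : (4 : ℝ) ≤ N := by exact_mod_cast (by omega : 4 ≤ N)
  have hN0 : (0 : ℝ) < N := by linarith
  have hss : √(N : ℝ) * √(N : ℝ) = N := Real.mul_self_sqrt hN0.le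
  have hs0 : 0 < √(N : ℝ) := Real.sqrt_pos.2 hN0
  have hs1 : 1 ≤ √(N : ℝ) := (one_le_pow₀ hL1).trans b2
  -- logarithms
  have hlogL : 3 * Real.log L ≤ ε / 16 * L := by
    have d2 : Real.log L ≤ 2 * √L := by
      have d3 := Real.log_le_sub_one_of_pos (Real.sqrt_pos.2 hL0)
      rw [Real.log_sqrt hL0.le] at d3
      linarith [Real.sqrt_nonneg L]
    have d4 : 96 / ε ≤ √L := by
      apply Real.le_sqrt_of_sq_le
      linarith
    have d5 : 96 ≤ √L * ε := by rwa [div_le_iff₀ hε] at d4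
    have d6 : √L * √L = L := Real.mul_self_sqrt hL0.le
    calc 3 * Real.log L ≤ 3 * (2 * √L) := mul_le_mul_of_nonneg_left d2 (by norm_num)
      _ = 96 * √L / 16 := by ring
      _ ≤ (√L * ε) * √L / 16 := by
          apply div_le_div_of_nonneg_right _ (by norm_num)
          exact mul_le_mul_of_nonneg_right d5 (Real.sqrt_nonneg _)
      _ = ε / 16 * (√L * √L) := by ring
      _ = ε / 16 * L := by rw [d6]
  have hlL0 : 0 ≤ Real.log L := Real.log_nonneg hL1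
  have hX2L : ((2 * N : ℕ) : ℝ) ≤ N * L := by
    push_cast
    nlinarith
  have hlog2X : Real.log (2 * N : ℕ) ≤ (1 + ε / 8) * L := by
    have e2 := Real.log_le_log (by push_cast; linarith) hX2L
    rw [Real.log_mul (by positivity) (by positivity), ← hL] at e2
    have e4 : Real.log L ≤ ε / 16 * L := by linarith
    have e5 : 0 ≤ ε / 16 * L := by positivity
    linarith
  have hlog2X0 : 0 < Real.log (2 * N : ℕ) := by
    apply Real.log_pos
    push_cast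
    linarith
  -- the main quantity
  have hcnt := cnt_pos q a h hq ha hah
  obtain ⟨K, hK⟩ : ∃ K : ℝ, K = Cnt q h := ⟨_, rfl⟩
  have hK0 : 0 < K := by rw [hK]; exact_mod_cast hcnt
  have hKL : K ≤ Q₀ := by
    rw [hK]
    exact_mod_cast (cnt_le q h).trans hqQ
  obtain ⟨S, hS⟩ : ∃ S, S = sing h := ⟨_, rfl⟩
  have hS1 : 1 ≤ S := by rw [hS]; exact one_le_sing _
  obtain ⟨Q, hQ⟩ : ∃ Q, Q = S / K * ((y₂ : ℝ) - y₁) := ⟨_, rfl⟩
  have hΔ0 : 0 < (y₂ : ℝ) - y₁ := lt_of_lt_of_le (by positivity) hΔ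
  have hQ0 : 0 < Q := by rw [hQ]; positivity
  have hQlow : (N : ℝ) ≤ Q * L := by
    have e1 : ε * N ≤ Q * K := by
      have e2 : Q * K = S * ((y₂ : ℝ) - y₁) := by rw [hQ]; field_simp
      rw [e2]
      nlinarith
    have e3 : Q * K ≤ Q * (L * ε) := by
      apply mul_le_mul_of_nonneg_left _ hQ0.le
      linarith
    have e4 : ε * N ≤ ε * (Q * L) := by
      calc ε * N ≤ Q * (L * ε) := e1.trans e3
        _ = _ := by ring
    exact le_of_mul_le_mul_left e4 hε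
  have hgoal : sing h * ((y₂ : ℝ) - y₁) / (Cnt q h * L ^ 2) = Q / L ^ 2 := by
    rw [hQ, ← hS, ← hK]; field_simp
  rw [hgoal]
  rw [← hS, ← hK, ← hQ, abs_le] at hWt
  obtain ⟨num_a, num_b, num_c⟩ := num2 ε hε hε1
  have hQε : 0 < Q * ε := by positivity
  rw [abs_le]
  constructor
  · -- lower bound
    have g2 := wc_le q a h (2 * N) y₁ y₂ (by omega) (by omega)
    have g3 : 4 * √((2 * N : ℕ) : ℝ) * Real.log (2 * N : ℕ) ^ 2 ≤ Q / L := by
      have e2 : √((2 * N : ℕ) : ℝ) ≤ √(N : ℝ) * L := by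
        rw [Real.sqrt_le_left (by positivity)]
        refine hX2L.trans ?_
        rw [mul_pow, Real.sq_sqrt hN0.le]
        apply mul_le_mul_of_nonneg_left _ hN0.le
        nlinarith
      have e3 : Real.log (2 * N : ℕ) ≤ 2 * L := by
        refine hlog2X.trans ?_
        nlinarith
      have e4 : Real.log (2 * N : ℕ) ^ 2 ≤ (2 * L) ^ 2 := pow_le_pow_left₀ hlog2X0.le e3 _
      calc 4 * √((2 * N : ℕ) : ℝ) * Real.log (2 * N : ℕ) ^ 2 ≤ 4 * (√(N : ℝ) * L) * (2 * L) ^ 2 := by gcongr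
        _ = 16 * L ^ 3 * √N := by ring
        _ ≤ L * L ^ 3 * √N := by gcongr; linarith
        _ = √N * L ^ 4 := by ring
        _ ≤ Q / L := by
            rw [le_div_iff₀ hL0]
            have e5 : (√(N : ℝ) * L ^ 4 * L) * L ≤ Q * L := by
              refine le_trans ?_ hQlow
              calc √(N : ℝ) * L ^ 4 * L * L = √N * L ^ 6 := by ring
                _ ≤ √N * L ^ 10 := by
                    apply mul_le_mul_of_nonneg_left _ hs0.le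
                    exact pow_le_pow_right₀ hL1 (by omega)
                _ ≤ √N * √N := mul_le_mul_of_nonneg_left b2 hs0.le
                _ = N := hss
            exact le_of_mul_le_mul_right e5 hL0
    have hQL : Q / L ≤ Q * (ε / 64) := by
      rw [div_le_iff₀ hL0]
      nlinarith
    have g4 : Q * (1 - ε / 2) ≤ cc q a h y₁ y₂ * Real.log (2 * N : ℕ) ^ 2 := by
      have e0 : Q * (1 - ε / 2) = Q - Q * ε / 2 := by ring
      rw [e0]
      nlinarith [hWt.1]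
    have g5 : Q * (1 - ε) / L ^ 2 ≤ cc q a h y₁ y₂ := by
      rw [div_le_iff₀ (by positivity)]
      have e1 : Real.log (2 * N : ℕ) ^ 2 ≤ ((1 + ε / 8) * L) ^ 2 := pow_le_pow_left₀ hlog2X0.le hlog2X _
      have e2 : (cc q a h y₁ y₂ : ℝ) * Real.log (2 * N : ℕ) ^ 2 ≤ cc q a h y₁ y₂ * ((1 + ε / 8) * L) ^ 2 :=
        mul_le_mul_of_nonneg_left e1 (Nat.cast_nonneg _)
      have e3 : 0 < (1 + ε / 8) ^ 2 := by positivity
      have e4 : Q * (1 - ε) * (1 + ε / 8) ^ 2 ≤ cc q a h y₁ y₂ * L ^ 2 * (1 + ε / 8) ^ 2 := by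
        calc Q * (1 - ε) * (1 + ε / 8) ^ 2 = Q * ((1 - ε) * (1 + ε / 8) ^ 2) := by ring
          _ ≤ Q * (1 - ε / 2) := mul_le_mul_of_nonneg_left num_c hQ0.le
          _ ≤ cc q a h y₁ y₂ * ((1 + ε / 8) * L) ^ 2 := g4.trans e2
          _ = _ := by ring
      exact le_of_mul_le_mul_right e4 e3
    have g6 : Q * (1 - ε) / L ^ 2 = Q / L ^ 2 - ε * (Q / L ^ 2) := by ring
    linarith
  · -- upper bound
    obtain ⟨y, hy⟩ : ∃ y, y = ⌈(N : ℝ) / L ^ 3⌉₊ := ⟨_, rfl⟩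
    -- `N / L ^ 3 ≤ Q / L ^ 2` is not enough: use `L ^ 4`
    obtain ⟨y, hy⟩ : ∃ y, y = ⌈(N : ℝ) / L ^ 4⌉₊ := ⟨_, rfl⟩
    have hq : √(N : ℝ) ≤ (N : ℝ) / L ^ 4 := by
      rw [le_div_iff₀ (by positivity)]
      calc √(N : ℝ) * L ^ 4 ≤ √(N : ℝ) * L ^ 10 :=
            mul_le_mul_of_nonneg_left (pow_le_pow_right₀ hL1 (by omega)) hs0.le
        _ ≤ √(N : ℝ) * √(N : ℝ) := mul_le_mul_of_nonneg_left b2 hs0.le
        _ = N := hss
    have hsN2 : 2 ≤ √(N : ℝ) := by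
      apply Real.le_sqrt_of_sq_le
      linarith
    have hy1 : (N : ℝ) / L ^ 4 ≤ y := by rw [hy]; exact Nat.le_ceil _
    have hy2' : (y : ℝ) ≤ (N : ℝ) / L ^ 4 + 1 := by rw [hy]; exact (Nat.ceil_lt_add_one (by positivity)).le
    have hy2n : 2 ≤ y := by
      have : (2 : ℝ) ≤ y := by linarith
      exact_mod_cast this
    have c0 := cc_le q a h y₁ y₂ y hy2n
    have c1 : (y : ℝ) ≤ ε / 4 * (Q / L ^ 2) := by
      have d1 : (N : ℝ) / L ^ 4 ≤ Q / L ^ 3 := by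
        rw [div_le_div_iff₀ (by positivity) (by positivity)]
        calc (N : ℝ) * L ^ 3 ≤ (Q * L) * L ^ 3 := mul_le_mul_of_nonneg_right hQlow (by positivity)
          _ = Q * L ^ 4 := by ring
      have d2 : Q / L ^ 3 ≤ ε / 64 * (Q / L ^ 2) := by
        have : Q / L ^ 3 = Q / L / L ^ 2 := by rw [pow_succ L 2]; field_simp
        rw [this]
        have hQL : Q / L ≤ Q * (ε / 64) := by
          rw [div_le_iff₀ hL0]
          nlinarith
        calc Q / L / L ^ 2 ≤ Q * (ε / 64) / L ^ 2 := div_le_div_of_nonneg_right hQL (by positivity)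
          _ = _ := by ring
      linarith
    have hlogy : (1 - ε / 8) * L ≤ Real.log y := by
      have d1 : Real.log ((N : ℝ) / L ^ 4) ≤ Real.log y := Real.log_le_log (by positivity) hy1
      rw [Real.log_div hN0.ne' (by positivity), Real.log_pow, ← hL] at d1
      push_cast at d1
      have h6 : 0 ≤ ε * L := by positivity
      linarith
    have hεM : 0 < (1 - ε / 8) * L := mul_pos (by linarith) hL0
    have hly0 : 0 < Real.log y := lt_of_lt_of_le hεM hlogy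
    have c2 : Wc q a h y₁ y₂ / Real.log y ^ 2 ≤ Q * (1 + ε / 16) * (1 + ε / 2) / L ^ 2 := by
      have d1 : Wc q a h y₁ y₂ ≤ Q * (1 + ε / 16) := by
        have d0 : Q * (1 + ε / 16) = Q + Q * (ε / 64) * 4 := by ring
        rw [d0]
        have : 0 ≤ Q * (ε / 64) := by positivity
        linarith [hWt.2]
      have d2 : ((1 - ε / 8) * L) ^ 2 ≤ Real.log y ^ 2 := pow_le_pow_left₀ hεM.le hlogy 2
      rw [div_le_div_iff₀ (by positivity) (by positivity)]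
      calc Wc q a h y₁ y₂ * L ^ 2 ≤ (Q * (1 + ε / 16)) * L ^ 2 := mul_le_mul_of_nonneg_right d1 (by positivity)
        _ ≤ (Q * (1 + ε / 16)) * (((1 + ε / 2) * (1 - ε / 8) ^ 2) * L ^ 2) := by
            apply mul_le_mul_of_nonneg_left _ (by positivity)
            exact le_mul_of_one_le_left (sq_nonneg L) num_a
        _ = Q * (1 + ε / 16) * (1 + ε / 2) * ((1 - ε / 8) * L) ^ 2 := by ring
        _ ≤ Q * (1 + ε / 16) * (1 + ε / 2) * Real.log y ^ 2 := mul_le_mul_of_nonneg_left d2 (by positivity)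
    have c4 : Q * (1 + ε / 16) * (1 + ε / 2) / L ^ 2 = (1 + ε / 16) * (1 + ε / 2) * (Q / L ^ 2) := by ring
    rw [c4] at c2
    have c6 : 0 ≤ Q / L ^ 2 := by positivity
    have c5 := mul_le_mul_of_nonneg_right num_b c6
    linarith

/-- the deterministic part -/
theorem det_e (ε : ℝ) (hε : 0 < ε) (Q₀ : ℕ) : ∃ (δ : ℝ) (T : ℕ), 0 < δ ∧ 1 ≤ T ∧ ∀ E1 : ℕ, 8 ≤ E1 → ∃ X0 : ℕ, ∀ X : ℕ, X0 ≤ X →
    ∀ h : ℕ, h ≤ X → 2 ∣ h → h ≠ 0 → ∀ z : ℕ, Real.log X ^ E1 ≤ z → (z : ℝ) ≤ Real.log X ^ (E1 + 1) →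
    (∀ i ∈ range (T + 1), ∀ q a : ℕ, 1 ≤ q → q ≤ Q₀ → a < q →
      |∑ n ∈ Icc 1 (min (i * (X / T + 1)) X), (if n ≡ a [MOD q] then ArithmeticFunction.vonMangoldt n else 0) *
        (lamI ((n : ℤ) + (h : ℤ)) - lamzI z ((n : ℤ) + (h : ℤ)))| ≤ δ * X) → HCe ε Q₀ X h := by
  obtain ⟨ε', hε'⟩ : ∃ ε' : ℝ, ε' = min ε (1 / 2) := ⟨_, rfl⟩
  have hε0 : 0 < ε' := by rw [hε']; exact lt_min hε (by norm_num)
  have hε1 : ε' ≤ 1 / 2 := by rw [hε']; exact min_le_right _ _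
  have hεε : ε' ≤ ε := by rw [hε']; exact min_le_left _ _
  obtain ⟨T', hT'⟩ := exists_nat_ge (512 / ε' ^ 2)
  have hQ00 : (0 : ℝ) ≤ Q₀ := Nat.cast_nonneg _
  obtain ⟨δ, hδ⟩ : ∃ δ : ℝ, δ = ε' ^ 2 / (768 * (Q₀ + 1)) := ⟨_, rfl⟩
  have hδ0 : 0 < δ := by rw [hδ]; positivity
  refine ⟨δ, T' + 2, hδ0, by omega, fun E1 hE1 => ?_⟩
  obtain ⟨N0, h0⟩ := win_e ε' hε0 hε1 Q₀
  obtain ⟨X0, h1⟩ := det_w Q₀ (T' + 2) E1 (by omega) hE1 δ hδ0
  refine ⟨N0 + X0 + 1, fun X hX h hh h2d hne z hz1 hz2 hyp => ?_⟩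
  intro q a hq1 hq2 ha hah y₁ y₂ h12 hy2 hΔ
  have hX0 : (0 : ℝ) < X := by exact_mod_cast (by omega : 0 < X)
  have hΔ' : ε' * X ≤ (y₂ : ℝ) - y₁ := (mul_le_mul_of_nonneg_right hεε hX0.le).trans hΔ
  have g1 := h1 X (by omega) h hh h2d hne z hz1 hz2 hyp q a hq1 hq2 ha hah
  have g2 := wc_win q a h X _ g1 y₁ y₂ h12.le hy2
  have hcnt := cnt_pos q a h hq1 ha hah
  obtain ⟨K, hK⟩ : ∃ K : ℝ, K = Cnt q h := ⟨_, rfl⟩
  have hK0 : 0 < K := by rw [hK]; exact_mod_cast hcnt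
  have hKQ : K ≤ Q₀ := by
    rw [hK]
    exact_mod_cast (cnt_le q h).trans hq2
  have hS1 : 1 ≤ sing h := one_le_sing _
  obtain ⟨S, hS⟩ : ∃ S, S = sing h / K := ⟨_, rfl⟩
  have hSK : 1 ≤ S * K := by
    have : S * K = sing h := by rw [hS]; field_simp
    rw [this]; exact hS1
  have hS0 : 0 < S := by rw [hS]; positivity
  have hSQ : 1 ≤ S * (Q₀ + 1) := by nlinarith
  obtain ⟨D, hD⟩ : ∃ D : ℝ, D = (y₂ : ℝ) - y₁ := ⟨_, rfl⟩
  rw [← hD] at hΔ'
  have hD0 : 0 < D := lt_of_lt_of_le (by positivity) hΔ'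
  have g3 := h0 X (by omega) h hh q a hq1 hq2 ha hah y₁ y₂ h12 hy2 (by rw [← hD]; exact hΔ') (by
    refine g2.trans ?_
    rw [← hK, ← hS, ← hD]
    have e1 : 2 * (3 * (δ * X)) ≤ ε' / 128 * (S * D) := by
      have e3 : 768 * (Q₀ + 1) * δ = ε' ^ 2 := by rw [hδ]; field_simp
      calc 2 * (3 * (δ * X)) = 6 * δ * 1 * X := by ring
        _ ≤ 6 * δ * (S * (Q₀ + 1)) * X := by
            apply mul_le_mul_of_nonneg_right _ hX0.le
            exact mul_le_mul_of_nonneg_left hSQ (by positivity)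
        _ = (768 * (Q₀ + 1) * δ) * (S * X) / 128 := by ring
        _ = ε' / 128 * (S * (ε' * X)) := by rw [e3]; ring
        _ ≤ ε' / 128 * (S * D) := by
            apply mul_le_mul_of_nonneg_left _ (by positivity)
            exact mul_le_mul_of_nonneg_left hΔ' hS0.le
    have e2 : 2 * (S * (2 * X / ((T' + 2 : ℕ) : ℝ))) ≤ ε' / 128 * (S * D) := by
      have e3 : 512 ≤ ε' ^ 2 * ((T' + 2 : ℕ) : ℝ) := by
        rw [div_le_iff₀ (by positivity)] at hT'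
        push_cast
        nlinarith
      have e4 : 0 < ((T' + 2 : ℕ) : ℝ) := by positivity
      have e5 : 4 / ((T' + 2 : ℕ) : ℝ) ≤ ε' ^ 2 / 128 := by
        rw [div_le_div_iff₀ e4 (by norm_num)]
        linarith
      calc 2 * (S * (2 * X / ((T' + 2 : ℕ) : ℝ))) = 4 / ((T' + 2 : ℕ) : ℝ) * (S * X) := by ring
        _ ≤ ε' ^ 2 / 128 * (S * X) := mul_le_mul_of_nonneg_right e5 (by positivity)
        _ = ε' / 128 * (S * (ε' * X)) := by ring
        _ ≤ ε' / 128 * (S * D) := by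
            apply mul_le_mul_of_nonneg_left _ (by positivity)
            exact mul_le_mul_of_nonneg_left hΔ' hS0.le
    calc 2 * (3 * (δ * X) + S * (2 * X / ((T' + 2 : ℕ) : ℝ))) = 2 * (3 * (δ * X)) + 2 * (S * (2 * X / ((T' + 2 : ℕ) : ℝ))) := by ring
      _ ≤ ε' / 128 * (S * D) + ε' / 128 * (S * D) := add_le_add e1 e2
      _ = _ := by ring)
  refine g3.trans ?_
  apply mul_le_mul_of_nonneg_right hεε
  rw [← hD]
  have : 0 < (Cnt q h : ℝ) := by rw [← hK]; exact hK0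
  positivity

end Pool.Agent.TH894.PR
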