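import Pool.Agent.TH894.PR1
import Pool.Agent.TH894.PR3
import Pool.Agent.TH894.CV

set_option autoImplicit false

/-! Prime pairs whose difference arises by few changes of digits: the final forms. -/

namespace Pool.Agent.TH894.PR
open Finset
open Pool.Agent.H807R2.Dav
open Pool.Agent.H373R2.T7
open Pool.Agent.W93.DG
open Pool.Agent.TH894.SM (change change_lt Win Win_sub un Om nw Pos Sph sphere_avg)
open Pool.Agent.TH894.CW (change_succ)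

/-- the bad property -/
def BdP (b : ℕ) (ε : ℝ) (Q₀ : ℕ) (_i : Unit) (K : ℕ) (y : ℤ) : Prop :=
  0 < y ∧ y < (b : ℤ) ^ (K - 1) ∧ 2 ∣ y ∧ ¬ HCe ε Q₀ (b ^ (K - 1)) y.toNat

/-- few choices are bad -/
theorem choices_pairs (b : ℕ) (hb : 2 ≤ b) : ∃ R A : ℕ, 1 ≤ R ∧ 1 ≤ A ∧ ∀ ε : ℝ, 0 < ε → ∀ Q₀ : ℕ, ∀ ρ : ℝ, 0 < ρ →
    ∃ t₀ : ℕ, ∀ t : ℕ, t₀ ≤ t → ∃ k₀ : ℕ, ∀ K : ℕ, k₀ ≤ K → ∀ i : Unit, ∀ (N : ℕ) (e : ℕ → ℤ),
      (∀ j, e j ≠ 0 ∧ |e j| < b) → ∀ J : Fin 3 → Finset ℕ, Pos b R K (hh b A K) J → ∀ S ⊆ Om J t,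
      (∀ ω ∈ S, BdP b ε Q₀ i K (nw b N e ω)) → (S.card : ℝ) ≤ ρ * ∏ q, ((J q).card : ℝ) ^ t := by
  classical
  obtain ⟨R, A, B, hR, hA, hch⟩ := choices_P b hb
  refine ⟨R, A, hR, by omega, fun ε hε Q₀ ρ hρ => ?_⟩
  obtain ⟨δ, T, hδ, hT, hdet⟩ := det_e ε hε Q₀
  obtain ⟨E1, hE1⟩ : ∃ E1, E1 = B + 8 := ⟨_, rfl⟩
  obtain ⟨X0, hdet⟩ := hdet E1 (by omega)
  obtain ⟨t₀, ht₀⟩ := hch δ hδ (ρ / ((T + 1) * (Q₀ + 1) * (Q₀ + 1))) (by positivity)
  refine ⟨t₀, fun t ht => ?_⟩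
  obtain ⟨k₀, hk₀⟩ := ht₀ t ht (E1 + 2)
  obtain ⟨n1, h1⟩ := ev_L' (2 ^ B + 2)
  refine ⟨k₀ + X0 + n1 + 3, fun K hK _ N e he J hJ S hS hSb => ?_⟩
  have hbr : (2 : ℝ) ≤ b := by exact_mod_cast hb
  have hlb : 0 < Real.log b := Real.log_pos (by linarith)
  obtain ⟨X, hX⟩ : ∃ X, X = b ^ (K - 1) := ⟨_, rfl⟩
  have hKX : K - 1 < X := by rw [hX]; exact Nat.lt_pow_self (by omega)
  obtain ⟨L, hL⟩ : ∃ L, L = Real.log (X : ℝ) := ⟨_, rfl⟩
  have hLK : L = ((K - 1 : ℕ) : ℝ) * Real.log b := by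
    rw [hL, hX]
    push_cast
    rw [Real.log_pow]
  have hLbig := h1 X (by omega)
  rw [← hL] at hLbig
  have h2B : (0 : ℝ) < 2 ^ B := by positivity
  have hL2 : 2 ≤ L := by linarith
  have hL1 : 1 ≤ L := by linarith
  have hL0 : 0 < L := by linarith
  obtain ⟨L', hL'⟩ : ∃ L', L' = Real.log ((b ^ K : ℕ) : ℝ) := ⟨_, rfl⟩
  have hLK' : L' = (K : ℝ) * Real.log b := by
    rw [hL']
    push_cast
    rw [Real.log_pow]
  have hKr : ((K - 1 : ℕ) : ℝ) = K - 1 := by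
    rw [Nat.cast_sub (by omega)]
    push_cast
    ring
  have hK3 : (3 : ℝ) ≤ K := by exact_mod_cast (by omega : 3 ≤ K)
  have hLL' : L ≤ L' := by
    rw [hLK, hLK', hKr]
    apply mul_le_mul_of_nonneg_right _ hlb.le
    linarith
  have hL'2 : L' ≤ 2 * L := by
    rw [hLK, hLK', hKr]
    nlinarith
  obtain ⟨z, hz⟩ : ∃ z, z = ⌈L ^ E1⌉₊ := ⟨_, rfl⟩
  have hz1 : L ^ E1 ≤ z := by rw [hz]; exact Nat.le_ceil _
  have hz2 : (z : ℝ) ≤ L ^ (E1 + 1) := by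
    have q1 : (z : ℝ) < L ^ E1 + 1 := by rw [hz]; exact Nat.ceil_lt_add_one (by positivity)
    have q2 : 1 ≤ L ^ E1 := one_le_pow₀ hL1
    rw [pow_succ]
    nlinarith
  have hz3 : L' ^ B ≤ z := by
    refine le_trans ?_ hz1
    calc L' ^ B ≤ (2 * L) ^ B := pow_le_pow_left₀ (by linarith) hL'2 B
      _ = 2 ^ B * L ^ B := mul_pow _ _ _
      _ ≤ L * L ^ B := mul_le_mul_of_nonneg_right (by linarith) (by positivity)
      _ = L ^ (B + 1) := by ring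
      _ ≤ L ^ E1 := pow_le_pow_right₀ hL1 (by omega)
  have hz4 : (z : ℝ) ≤ L' ^ (E1 + 2) := by
    calc (z : ℝ) ≤ L ^ (E1 + 1) := hz2
      _ ≤ L ^ (E1 + 2) := pow_le_pow_right₀ hL1 (by omega)
      _ ≤ L' ^ (E1 + 2) := pow_le_pow_left₀ hL0.le hLL' _
  have hdetX := hdet X (by omega)
  have hYX : (b : ℝ) ^ (K - 1) = X := by rw [hX]; push_cast; ring
  have hbZ : (b : ℤ) ^ (K - 1) = (X : ℤ) := by rw [hX]; push_cast; ring
  -- the pieces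
  obtain ⟨G, hG⟩ : ∃ G : ℕ → ℕ → ℕ → ℝ, G = fun q a n => if n ≡ a [MOD q] then ArithmeticFunction.vonMangoldt n else 0 := ⟨_, rfl⟩
  have hGr : ∀ q a n, G q a n = (if n ≡ a [MOD q] then ArithmeticFunction.vonMangoldt n else 0) := fun q a n => by rw [hG]
  obtain ⟨P, hP⟩ : ∃ P : ℕ × ℕ × ℕ → Finset (Fin 3 × Fin t → ℕ), P = fun p => S.filter (fun ω =>
      δ * (b : ℝ) ^ (K - 1) < |∑ n ∈ Icc 1 (min (p.1 * (X / T + 1)) X), G p.2.1 p.2.2 n *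
        (lamI ((n : ℤ) + nw b N e ω) - lamzI z ((n : ℤ) + nw b N e ω))|) := ⟨_, rfl⟩
  have hpiece : ∀ p : ℕ × ℕ × ℕ, ((P p).card : ℝ) ≤ ρ / ((T + 1) * (Q₀ + 1) * (Q₀ + 1)) * ∏ q, ((J q).card : ℝ) ^ t := by
    intro p
    rw [hP]
    refine hk₀ K (by omega) z (by rw [← hL']; exact hz3) (by rw [← hL']; exact hz4) N e he J hJ (G p.2.1 p.2.2) ?_
      (min (p.1 * (X / T + 1)) X) (by rw [← hX]; exact min_le_right _ _) _ ((filter_subset _ _).trans hS) ?_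
    · intro n
      rw [hGr]
      split_ifs
      · rw [abs_of_nonneg ArithmeticFunction.vonMangoldt_nonneg]
      · rw [abs_zero]; exact ArithmeticFunction.vonMangoldt_nonneg
    · intro ω hω
      rw [mem_filter] at hω
      obtain ⟨hωS, hω2⟩ := hω
      obtain ⟨h3, h4, _, _⟩ := hSb ω hωS
      exact ⟨h3.le, h4, hω2⟩
  have hcover : S ⊆ (range (T + 1) ×ˢ (range (Q₀ + 1) ×ˢ range (Q₀ + 1))).biUnion P := by
    intro ω hω
    obtain ⟨h3, h4, h5, h6⟩ := hSb ω hω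
    obtain ⟨y, hy⟩ : ∃ y, y = (nw b N e ω).toNat := ⟨_, rfl⟩
    have hyc : ((y : ℕ) : ℤ) = nw b N e ω := by rw [hy]; exact Int.toNat_of_nonneg h3.le
    rw [← hy, ← hX] at h6
    rw [hbZ, ← hyc] at h4
    have hyX : y ≤ X := by exact_mod_cast h4.le
    have hy2 : 2 ∣ y := by
      rw [← hyc] at h5
      exact_mod_cast h5
    have hy0 : y ≠ 0 := by
      rintro rfl
      rw [← hyc] at h3
      simp at h3
    by_contra hcon
    apply h6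
    refine hdetX y hyX hy2 hy0 z (by rw [← hL]; exact hz1) (by rw [← hL]; exact hz2) ?_
    intro i hi q a hq1 hq2 haq
    by_contra hbig
    push Not at hbig
    apply hcon
    rw [mem_biUnion]
    refine ⟨(i, q, a), ?_, ?_⟩
    · rw [mem_product, mem_product, mem_range, mem_range]
      exact ⟨mem_range.1 hi, by simp only; omega, by simp only; rw [mem_range]; omega⟩
    · rw [hP]
      simp only
      rw [mem_filter]
      refine ⟨hω, ?_⟩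
      rw [hYX, ← hyc]
      simp only [hGr]
      exact hbig
  have hP0 : 0 ≤ ∏ q, ((J q).card : ℝ) ^ t := prod_nonneg fun q _ => pow_nonneg (Nat.cast_nonneg _) _
  calc (S.card : ℝ) ≤ (((range (T + 1) ×ˢ (range (Q₀ + 1) ×ˢ range (Q₀ + 1))).biUnion P).card : ℝ) := by
        exact_mod_cast card_le_card hcover
    _ ≤ ∑ p ∈ range (T + 1) ×ˢ (range (Q₀ + 1) ×ˢ range (Q₀ + 1)), ((P p).card : ℝ) := by
        exact_mod_cast card_biUnion_le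
    _ ≤ ∑ _p ∈ range (T + 1) ×ˢ (range (Q₀ + 1) ×ˢ range (Q₀ + 1)), ρ / ((T + 1) * (Q₀ + 1) * (Q₀ + 1)) * ∏ q, ((J q).card : ℝ) ^ t :=
        sum_le_sum fun p _ => hpiece p
    _ = ρ * ∏ q, ((J q).card : ℝ) ^ t := by
        rw [sum_const, card_product, card_product, card_range, card_range, nsmul_eq_mul]
        push_cast
        field_simp

/-- choices in three windows -/
theorem final_W (b : ℕ) (hb : 2 ≤ b) : ∃ R A : ℕ, 1 ≤ R ∧ 1 ≤ A ∧ ∀ ε : ℝ, 0 < ε → ∀ Q₀ : ℕ, ∃ t K₀ : ℕ,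
    ∀ K : ℕ, K₀ ≤ K → (∀ q, 8 * R * t ≤ (Win (hh b A (K + 1)) (K + 1) q).card) ∧
    ∀ N : ℕ, N < b ^ K → ∀ f : ℕ → ℕ, (∀ j, f j < b ∧ f j ≠ N / b ^ j % b) →
    ∀ r : Fin 3 → ℕ, (∀ q, t ≤ r q ∧ 8 * R * r q ≤ (Win (hh b A (K + 1)) (K + 1) q).card) →
    ∀ S ⊆ Fintype.piFinset (fun q => powersetCard (r q) (Win (hh b A (K + 1)) (K + 1) q)),
    (∀ T ∈ S, 0 < change b K N f (un T) ∧ Even (change b K N f (un T)) ∧ ¬ HCe ε Q₀ (b ^ K) (change b K N f (un T))) →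
    (S.card : ℝ) ≤ ε * ∏ q, ((Win (hh b A (K + 1)) (K + 1) q).card.choose (r q) : ℝ) := by
  classical
  obtain ⟨R, A, hR, hA, H⟩ := choices_pairs b hb
  refine ⟨R, A, hR, hA, fun ε hε Q₀ => ?_⟩
  obtain ⟨t, h1⟩ := GN.few_general b hb R A hR hA (BdP b ε Q₀) (H ε hε Q₀) ε hε
  obtain ⟨k₀, hk₀⟩ := h1 t le_rfl
  obtain ⟨k1, hk1⟩ := hh_small b A 4 hb
  refine ⟨t, k₀ + k1 + b ^ (8 * R * t) + 4, fun K hK => ⟨?_, fun N hN f hf r hr S hS hSb => ?_⟩⟩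
  · have h2 := hk1 (K + 1) (by omega)
    have hK0 : 1 ≤ b ^ (8 * R * t) := Nat.one_le_pow _ _ (by omega)
    have h3 : 8 * R * t ≤ Nat.log b (K + 1) := Nat.le_log_of_pow_le (by omega) (by omega)
    have h4 : 8 * R * t + 2 ≤ hh b A (K + 1) := by
      unfold hh
      calc 8 * R * t + 2 ≤ 2 * 1 * (Nat.log b (K + 1) + 1) := by omega
        _ ≤ 2 * A * (Nat.log b (K + 1) + 1) := Nat.mul_le_mul_right _ (Nat.mul_le_mul_left _ hA)
    intro q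
    unfold Win
    split_ifs <;> rw [Nat.card_Ico] <;> omega
  · have hh2 := hk1 (K + 1) (by omega)
    have hNK : N < b ^ (K + 1) := hN.trans (Nat.pow_lt_pow_right (by omega) (by omega))
    refine hk₀ (K + 1) (by omega) () N hNK f hf r (fun q => (hr q).1) (fun q => (hr q).2) S hS ?_
    intro T hT
    have hT1 := hS hT
    rw [Fintype.mem_piFinset] at hT1
    have hKT : K ∉ un T := by
      intro hx
      unfold un at hx
      rw [mem_biUnion] at hx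
      obtain ⟨q, _, hxq⟩ := hx
      have h3 := (mem_powersetCard.1 (hT1 q)).1 hxq
      have := mem_Ico.1 (Win_sub _ _ q (by omega) h3)
      omega
    rw [change_succ b K N hN f _ hKT]
    obtain ⟨h3, h4, h5⟩ := hSb T hT
    refine ⟨by exact_mod_cast h3, ?_, by exact_mod_cast h4.two_dvd, ?_⟩
    · rw [Nat.add_sub_cancel]
      exact_mod_cast change_lt b K N (by omega) f (fun j => (hf j).1) _
    · rw [Nat.add_sub_cancel, Int.toNat_natCast]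
      exact h5

/-- Hamming spheres -/
theorem final_H (b : ℕ) (hb : 2 ≤ b) : ∃ R : ℕ, 1 ≤ R ∧ ∀ ε : ℝ, 0 < ε → ∀ Q₀ : ℕ, ∃ (C : ℝ) (K₀ : ℕ), 0 < C ∧
    ∀ K : ℕ, K₀ ≤ K → ∀ N : ℕ, N < b ^ K → ∀ f : ℕ → ℕ, (∀ j, f j < b ∧ f j ≠ N / b ^ j % b) →
    ∀ r : ℕ, C * K / Real.log K ≤ r → R * r ≤ K →
    ∀ S ⊆ powersetCard r (Ico 1 K),
    (∀ T ∈ S, 0 < change b K N f T ∧ Even (change b K N f T) ∧ ¬ HCe ε Q₀ (b ^ K) (change b K N f T)) →
    (S.card : ℝ) ≤ ε * ((K - 1).choose r : ℝ) := by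
  classical
  obtain ⟨R, A, hR, hA, H⟩ := choices_pairs b hb
  refine ⟨24 * R, by omega, fun ε hε Q₀ => ?_⟩
  obtain ⟨C, k₀, hC, hk₀⟩ := GN.few_uniform b hb R A hR hA (BdP b ε Q₀) (H ε hε Q₀) ε hε
  refine ⟨2 * C, k₀ + 4, by positivity, fun K hK N hN f hf r hr hr' S hS hSb => ?_⟩
  have hNK : N < b ^ (K + 1) := hN.trans (Nat.pow_lt_pow_right (by omega) (by omega))
  have hK4 : (4 : ℝ) ≤ K := by exact_mod_cast (by omega : 4 ≤ K)
  have hlK : 0 < Real.log K := Real.log_pos (by linarith)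
  have hr2 : C * ((K + 1 : ℕ) : ℝ) / Real.log ((K + 1 : ℕ) : ℝ) ≤ r := by
    refine le_trans ?_ hr
    push_cast
    have h1 : Real.log K ≤ Real.log ((K : ℝ) + 1) := Real.log_le_log (by linarith) (by linarith)
    calc C * ((K : ℝ) + 1) / Real.log ((K : ℝ) + 1) ≤ C * ((K : ℝ) + 1) / Real.log K := by
          apply div_le_div_of_nonneg_left (by positivity) hlK h1
      _ ≤ 2 * C * K / Real.log K := by
          apply div_le_div_of_nonneg_right _ hlK.le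
          nlinarith
  have h2 := hk₀ (K + 1) (by omega) () N hNK f hf r hr2 (by omega) S (by rw [Nat.add_sub_cancel]; exact hS) ?_
  · refine h2.trans (le_of_eq ?_)
    congr 3
  intro T hT
  have hT1 := mem_powersetCard.1 (hS hT)
  have hKT : K ∉ T := by
    intro hx
    have := mem_Ico.1 (hT1.1 hx)
    omega
  rw [change_succ b K N hN f _ hKT]
  obtain ⟨h3, h4, h5⟩ := hSb T hT
  refine ⟨by exact_mod_cast h3, ?_, by exact_mod_cast h4.two_dvd, ?_⟩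
  · rw [Nat.add_sub_cancel]
    exact_mod_cast change_lt b K N (by omega) f (fun j => (hf j).1) _
  · rw [Nat.add_sub_cancel, Int.toNat_natCast]
    exact h5

end Pool.Agent.TH894.PR
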