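import Pool.Agent.H373R2.T7.LamZ2

set_option autoImplicit false

/-! The average of the singular series over multiples. -/

namespace Pool.Agent.TH894.PV
open Finset
open Pool.Agent.H373R2.T7

/-- sums over the multiples of `d` -/
lemma sum_mult (N d : ℕ) (hd : 1 ≤ d) (g : ℕ → ℝ) : ∑ h ∈ (Icc 1 N).filter (fun h => d ∣ h), g h = ∑ m ∈ Icc 1 (N / d), g (d * m) := by
  symm
  apply sum_bij (fun m _ => d * m)
  · intro m hm
    rw [mem_Icc] at hm
    rw [mem_filter, mem_Icc]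
    refine ⟨⟨Nat.mul_pos hd hm.1, ?_⟩, Dvd.intro m rfl⟩
    calc d * m ≤ d * (N / d) := Nat.mul_le_mul_left _ hm.2
      _ ≤ N := Nat.mul_div_le _ _
  · intro a _ b _ hab
    exact Nat.eq_of_mul_eq_mul_left hd hab
  · intro h hh
    rw [mem_filter, mem_Icc] at hh
    obtain ⟨m, rfl⟩ := hh.2
    refine ⟨m, ?_, rfl⟩
    rw [mem_Icc]
    refine ⟨?_, (Nat.le_div_iff_mul_le hd).2 (by rw [mul_comm]; exact hh.1.2)⟩
    by_contra hcon
    have : m = 0 := by omega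
    rw [this] at hh
    omega
  · intro m _
    rfl

lemma sum_tri (n : ℕ) (w : ℝ) : ∑ m ∈ Icc 1 n, (w - (m : ℝ)) = w * n - n * (n + 1) / 2 := by
  induction n with
  | zero => simp
  | succ n ih =>
    rw [Finset.sum_Icc_succ_top (by omega), ih]
    push_cast
    ring

/-- a progression -/
lemma tri_dvd (y σ : ℝ) (hy : 0 ≤ y) (hσ : 0 < σ) (hσ1 : σ ≤ 1) (d : ℕ) (hd : 1 ≤ d) :
    |∑ h ∈ (Icc 1 ⌊y⌋₊).filter (fun h => d ∣ h), (y - (h : ℝ)) - y ^ 2 / (2 * d)| ≤ y * (y / d) ^ σ := by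
  have hd0 : (0 : ℝ) < d := by exact_mod_cast hd
  rw [sum_mult _ d hd, ← Nat.floor_div_natCast]
  obtain ⟨w, hw⟩ : ∃ w, w = y / (d : ℝ) := ⟨_, rfl⟩
  have hw0 : 0 ≤ w := by rw [hw]; positivity
  have hyw : y = d * w := by rw [hw]; field_simp
  rw [← hw]
  have h1 : ∑ m ∈ Icc 1 ⌊w⌋₊, (y - ((d * m : ℕ) : ℝ)) = d * (w * (⌊w⌋₊ : ℝ) - (⌊w⌋₊ : ℝ) * ((⌊w⌋₊ : ℝ) + 1) / 2) := by
    rw [← sum_tri, mul_sum]
    apply sum_congr rfl
    intro m _
    rw [hyw]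
    push_cast
    ring
  rw [h1]
  obtain ⟨n, hn⟩ : ∃ n : ℝ, n = (⌊w⌋₊ : ℝ) := ⟨_, rfl⟩
  have hn1 : n ≤ w := by rw [hn]; exact Nat.floor_le hw0
  have hn2 : w < n + 1 := by rw [hn]; exact Nat.lt_floor_add_one w
  have hn0 : 0 ≤ n := by rw [hn]; exact Nat.cast_nonneg _
  rw [← hn]
  have h2 : d * (w * n - n * (n + 1) / 2) - y ^ 2 / (2 * d) = -(d * (((w - n) ^ 2 + n) / 2)) := by
    rw [hyw]
    field_simp
    ring
  rw [h2, abs_neg, abs_of_nonneg (by positivity), hyw, mul_assoc]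
  apply mul_le_mul_of_nonneg_left _ hd0.le
  by_cases h3 : w < 1
  · have h4 : n = 0 := by
      rw [hn, Nat.floor_eq_zero.2 h3, Nat.cast_zero]
    rw [h4, sub_zero, add_zero]
    rcases hw0.eq_or_lt with h5 | h5
    · rw [← h5]; simp
    · have h6 : w ≤ w ^ σ := by
        calc w = w ^ (1 : ℝ) := (Real.rpow_one w).symm
          _ ≤ w ^ σ := Real.rpow_le_rpow_of_exponent_ge h5 h3.le hσ1
      nlinarith
  · push Not at h3
    have h6 : 1 ≤ w ^ σ := Real.one_le_rpow h3 hσ.le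
    have h7 : (w - n) ^ 2 ≤ 1 := by
      rw [sq_le_one_iff_abs_le_one, abs_le]
      constructor <;> linarith
    have h8 : w * 1 ≤ w * w ^ σ := mul_le_mul_of_nonneg_left h6 hw0
    linarith

/-- the local factor -/
noncomputable def al (p : ℕ) : ℝ := (p : ℝ) / ((p : ℝ) - 1) ^ 2

noncomputable def be (p : ℕ) : ℝ := 1 - 1 / ((p : ℝ) - 1) ^ 2

/-- the part of the singular series which depends on `h` -/
noncomputable def fs (P : Finset ℕ) (h : ℕ) : ℝ := ∏ p ∈ P, ((if p ∣ h then al p else 0) + be p)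

lemma al_nonneg (p : ℕ) : 0 ≤ al p := by unfold al; positivity

lemma al_le (p : ℕ) (hp : 2 ≤ p) : al p ≤ 4 / p := by
  unfold al
  have h1 : (2 : ℝ) ≤ p := by exact_mod_cast hp
  rw [div_le_div_iff₀ (by nlinarith) (by linarith)]
  nlinarith

lemma be_nonneg (p : ℕ) (hp : 2 ≤ p) : 0 ≤ be p := by
  unfold be
  have h1 : (2 : ℝ) ≤ p := by exact_mod_cast hp
  rw [sub_nonneg, div_le_one (by nlinarith)]
  nlinarith

lemma be_le (p : ℕ) : be p ≤ 1 := by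
  unfold be
  have : 0 ≤ 1 / ((p : ℝ) - 1) ^ 2 := by positivity
  linarith

lemma al_be (p : ℕ) (hp : 2 ≤ p) : al p * (1 / (p : ℝ)) + be p = 1 := by
  unfold al be
  have h1 : (2 : ℝ) ≤ p := by exact_mod_cast hp
  have h2 : (p : ℝ) - 1 ≠ 0 := by linarith
  field_simp
  ring

lemma fs_nonneg (P : Finset ℕ) (hP : ∀ p ∈ P, p.Prime) (h : ℕ) : 0 ≤ fs P h := by
  unfold fs
  apply prod_nonneg
  intro p hp
  have := be_nonneg p (hP p hp).two_le
  have h2 := al_nonneg p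
  split_ifs <;> linarith

lemma fs_expand (P : Finset ℕ) (hP : ∀ p ∈ P, p.Prime) (h : ℕ) :
    fs P h = ∑ t ∈ P.powerset, ((∏ p ∈ t, al p) * ∏ p ∈ P \ t, be p) * (if (∏ p ∈ t, p) ∣ h then 1 else 0) := by
  classical
  unfold fs
  rw [prod_add]
  apply sum_congr rfl
  intro t ht
  rw [mem_powerset] at ht
  have h1 : ∏ p ∈ t, (if p ∣ h then al p else 0) = (∏ p ∈ t, al p) * (if (∏ p ∈ t, p) ∣ h then 1 else 0) := by
    by_cases h2 : ∀ p ∈ t, p ∣ h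
    · rw [if_pos ((prod_dvd_iff t (fun p hp => hP p (ht hp)) h).1 h2), mul_one]
      apply prod_congr rfl
      intro p hp
      rw [if_pos (h2 p hp)]
    · rw [if_neg (fun hc => h2 ((prod_dvd_iff t (fun p hp => hP p (ht hp)) h).2 hc)), mul_zero]
      push Not at h2
      obtain ⟨p, hp, hp2⟩ := h2
      exact prod_eq_zero hp (if_neg hp2)
  rw [h1]
  ring

/-- the average of the singular series -/
theorem sing_avg (P : Finset ℕ) (hP : ∀ p ∈ P, p.Prime) (y σ : ℝ) (hy : 0 ≤ y) (hσ : 0 < σ) (hσ1 : σ ≤ 1) :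
    |∑ h ∈ Icc 1 ⌊y⌋₊, (y - (h : ℝ)) * fs P h - y ^ 2 / 2| ≤ y * y ^ σ * ∏ p ∈ P, (1 + 4 * (p : ℝ) ^ (-(1 + σ))) := by
  classical
  obtain ⟨a, ha⟩ : ∃ a : Finset ℕ → ℝ, a = fun t => (∏ p ∈ t, al p) * ∏ p ∈ P \ t, be p := ⟨_, rfl⟩
  have ha0 : ∀ t ∈ P.powerset, 0 ≤ a t := by
    intro t ht
    rw [ha]
    apply mul_nonneg
    · exact prod_nonneg fun p _ => al_nonneg p
    · exact prod_nonneg fun p hp => be_nonneg p (hP p (mem_sdiff.1 hp).1).two_le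
  have h1 : ∑ h ∈ Icc 1 ⌊y⌋₊, (y - (h : ℝ)) * fs P h = ∑ t ∈ P.powerset, a t * ∑ h ∈ (Icc 1 ⌊y⌋₊).filter (fun h => (∏ p ∈ t, p) ∣ h), (y - (h : ℝ)) := by
    have e1 : ∀ h ∈ Icc 1 ⌊y⌋₊, (y - (h : ℝ)) * fs P h = ∑ t ∈ P.powerset, a t * (if (∏ p ∈ t, p) ∣ h then (y - (h : ℝ)) else 0) := by
      intro h _
      rw [fs_expand P hP, mul_sum]
      apply sum_congr rfl
      intro t _
      rw [ha]
      simp only
      split_ifs <;> ring
    rw [sum_congr rfl e1, sum_comm]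
    apply sum_congr rfl
    intro t _
    rw [← mul_sum, sum_filter]
  have h2 : ∑ t ∈ P.powerset, a t * (1 / ((∏ p ∈ t, p : ℕ) : ℝ)) = 1 := by
    have e1 : ∏ p ∈ P, (al p * (1 / (p : ℝ)) + be p) = 1 := by
      apply prod_eq_one
      intro p hp
      exact al_be p (hP p hp).two_le
    rw [prod_add] at e1
    refine Eq.trans ?_ e1
    apply sum_congr rfl
    intro t _
    rw [ha, prod_mul_distrib]
    simp only
    rw [prod_div_distrib, prod_const_one]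
    push_cast
    ring
  have h3 : y ^ 2 / 2 = ∑ t ∈ P.powerset, a t * (y ^ 2 / (2 * ((∏ p ∈ t, p : ℕ) : ℝ))) := by
    calc y ^ 2 / 2 = y ^ 2 / 2 * ∑ t ∈ P.powerset, a t * (1 / ((∏ p ∈ t, p : ℕ) : ℝ)) := by rw [h2, mul_one]
      _ = _ := by
        rw [mul_sum]
        apply sum_congr rfl
        intro t _
        ring
  rw [h1, h3, ← sum_sub_distrib]
  refine (abs_sum_le_sum_abs _ _).trans ?_
  have h4 : ∀ t ∈ P.powerset, |a t * ∑ h ∈ (Icc 1 ⌊y⌋₊).filter (fun h => (∏ p ∈ t, p) ∣ h), (y - (h : ℝ)) - a t * (y ^ 2 / (2 * ((∏ p ∈ t, p : ℕ) : ℝ)))| ≤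
      y * y ^ σ * (a t * ((∏ p ∈ t, p : ℕ) : ℝ) ^ (-σ)) := by
    intro t ht
    have hd1 : 1 ≤ ∏ p ∈ t, p := by
      apply Nat.one_le_iff_ne_zero.2
      rw [prod_ne_zero_iff]
      intro p hp
      exact (hP p (mem_powerset.1 ht hp)).ne_zero
    rw [← mul_sub, abs_mul, abs_of_nonneg (ha0 t ht)]
    have e1 := mul_le_mul_of_nonneg_left (tri_dvd y σ hy hσ hσ1 (∏ p ∈ t, p) hd1) (ha0 t ht)
    refine e1.trans (le_of_eq ?_)
    rw [Real.div_rpow hy (Nat.cast_nonneg _), Real.rpow_neg (Nat.cast_nonneg _)]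
    ring
  refine (sum_le_sum h4).trans ?_
  rw [← mul_sum]
  apply mul_le_mul_of_nonneg_left _ (by positivity)
  have h5 : ∑ t ∈ P.powerset, a t * ((∏ p ∈ t, p : ℕ) : ℝ) ^ (-σ) = ∏ p ∈ P, (al p * (p : ℝ) ^ (-σ) + be p) := by
    rw [prod_add]
    apply sum_congr rfl
    intro t _
    rw [ha, prod_mul_distrib]
    simp only
    have e1 : ((∏ p ∈ t, p : ℕ) : ℝ) ^ (-σ) = ∏ p ∈ t, (p : ℝ) ^ (-σ) := by
      push_cast
      rw [Real.finset_prod_rpow t _ (fun p _ => Nat.cast_nonneg p)]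
    rw [e1]
    ring
  rw [h5]
  apply prod_le_prod
  · intro p hp
    have e1 := be_nonneg p (hP p hp).two_le
    have e2 := al_nonneg p
    positivity
  · intro p hp
    have e1 := be_le p
    have e2 := al_le p (hP p hp).two_le
    have hp0 : (0 : ℝ) < p := by exact_mod_cast (hP p hp).pos
    have e3 : (p : ℝ) ^ (-(1 + σ)) = 1 / p * (p : ℝ) ^ (-σ) := by
      rw [neg_add, Real.rpow_add hp0, Real.rpow_neg_one, one_div]
    have e4 : 0 ≤ (p : ℝ) ^ (-σ) := by positivity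
    have e5 : al p * (p : ℝ) ^ (-σ) ≤ 4 / p * (p : ℝ) ^ (-σ) := mul_le_mul_of_nonneg_right e2 e4
    rw [e3]
    have e6 : 4 / (p : ℝ) * (p : ℝ) ^ (-σ) = 4 * (1 / p * (p : ℝ) ^ (-σ)) := by ring
    linarith

/-- the product is bounded -/
lemma prod_bdd (σ : ℝ) (hσ : 0 < σ) : ∃ C : ℝ, 1 ≤ C ∧ ∀ P : Finset ℕ, ∏ p ∈ P, (1 + 4 * (p : ℝ) ^ (-(1 + σ))) ≤ C := by
  have hs : Summable (fun n : ℕ => (n : ℝ) ^ (-(1 + σ))) := by
    rw [Real.summable_nat_rpow]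
    linarith
  refine ⟨Real.exp (4 * ∑' n : ℕ, (n : ℝ) ^ (-(1 + σ))), ?_, fun P => ?_⟩
  · apply Real.one_le_exp
    have : 0 ≤ ∑' n : ℕ, (n : ℝ) ^ (-(1 + σ)) := tsum_nonneg fun n => by positivity
    linarith
  · calc ∏ p ∈ P, (1 + 4 * (p : ℝ) ^ (-(1 + σ))) ≤ ∏ p ∈ P, Real.exp (4 * (p : ℝ) ^ (-(1 + σ))) := by
          apply prod_le_prod
          · intro p _; positivity
          · intro p _
            rw [add_comm]
            exact Real.add_one_le_exp _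
      _ = Real.exp (4 * ∑ p ∈ P, (p : ℝ) ^ (-(1 + σ))) := by rw [← Real.exp_sum, mul_sum]
      _ ≤ _ := by
          apply Real.exp_le_exp.2
          apply mul_le_mul_of_nonneg_left _ (by norm_num)
          exact hs.sum_le_tsum P (fun n _ => by positivity)

end Pool.Agent.TH894.PV
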