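import Pool.Agent.W110.HV.Norm
import Pool.Agent.H373R2.T7.LamZ2

set_option autoImplicit false

/-! The expansion of the variance. -/

namespace Pool.Agent.TH894.PV
open Finset
open Pool.Agent.H373R2.T7

lemma sq_mod (X Q : ℕ) (hQ : 1 ≤ Q) (v : ℕ → ℝ) :
    ∑ a ∈ range Q, (∑ n ∈ (Icc 1 X).filter (fun n => n % Q = a), v n) ^ 2 =
      ∑ n ∈ Icc 1 X, ∑ m ∈ (Icc 1 X).filter (fun m => m % Q = n % Q), v n * v m := by
  have h1 : ∀ a ∈ range Q, (∑ n ∈ (Icc 1 X).filter (fun n => n % Q = a), v n) ^ 2 =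
      ∑ n ∈ (Icc 1 X).filter (fun n => n % Q = a), ∑ m ∈ (Icc 1 X).filter (fun m => m % Q = n % Q), v n * v m := by
    intro a _
    rw [pow_two, sum_mul_sum]
    apply sum_congr rfl
    intro n hn
    rw [(mem_filter.1 hn).2]
  rw [sum_congr rfl h1]
  rw [sum_fiberwise_of_maps_to (s := Icc 1 X) (t := range Q) (g := fun n => n % Q) (fun n _ => mem_range.2 (Nat.mod_lt _ hQ))]

/-- the pairs with larger second entry -/
lemma upper_pairs (X Q : ℕ) (hQ : 1 ≤ Q) (v : ℕ → ℝ) :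
    ∑ n ∈ Icc 1 X, ∑ m ∈ (Icc 1 X).filter (fun m => m % Q = n % Q ∧ n < m), v n * v m =
      ∑ h ∈ Icc 1 (X / Q), ∑ n ∈ Icc 1 (X - h * Q), v n * v (n + h * Q) := by
  rw [sum_sigma', sum_sigma']
  apply sum_bij' (fun (p : (_ : ℕ) × ℕ) _ => (⟨(p.2 - p.1) / Q, p.1⟩ : (_ : ℕ) × ℕ)) (fun (p : (_ : ℕ) × ℕ) _ => (⟨p.2, p.2 + p.1 * Q⟩ : (_ : ℕ) × ℕ))
  · rintro ⟨n, m⟩ h
    simp only [mem_sigma, mem_Icc, mem_filter] at h ⊢
    obtain ⟨⟨h1, h2⟩, ⟨h3, h4⟩, h5, h6⟩ := h
    obtain ⟨k, hk⟩ : Q ∣ m - n := (Nat.modEq_iff_dvd' h6.le).1 h5.symm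
    have hk1 : 1 ≤ k := by
      by_contra hcon
      have : k = 0 := by omega
      rw [this] at hk
      omega
    have e1 : (m - n) / Q = k := by rw [hk, Nat.mul_div_cancel_left _ hQ]
    rw [e1]
    have e2 : n + k * Q = m := by rw [mul_comm k Q]; omega
    refine ⟨⟨hk1, ?_⟩, h1, by omega⟩
    rw [Nat.le_div_iff_mul_le hQ]
    omega
  · rintro ⟨h, n⟩ hh
    simp only [mem_sigma, mem_Icc, mem_filter] at hh ⊢
    obtain ⟨⟨h1, h2⟩, h3, h4⟩ := hh
    have h5 : Q ≤ h * Q := Nat.le_mul_of_pos_left _ h1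
    refine ⟨⟨h3, by omega⟩, ⟨by omega, by omega⟩, by simp, by omega⟩
  · rintro ⟨n, m⟩ h
    simp only [mem_sigma, mem_Icc, mem_filter] at h ⊢
    obtain ⟨⟨h1, h2⟩, ⟨h3, h4⟩, h5, h6⟩ := h
    obtain ⟨k, hk⟩ : Q ∣ m - n := (Nat.modEq_iff_dvd' h6.le).1 h5.symm
    have e1 : (m - n) / Q = k := by rw [hk, Nat.mul_div_cancel_left _ hQ]
    rw [e1]
    have e2 : n + k * Q = m := by rw [mul_comm k Q]; omega
    rw [e2]
  · rintro ⟨h, n⟩ hh
    simp only [Nat.add_sub_cancel_left]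
    rw [Nat.mul_div_cancel _ hQ]
  · rintro ⟨n, m⟩ h
    simp only [mem_sigma, mem_Icc, mem_filter] at h ⊢
    obtain ⟨⟨h1, h2⟩, ⟨h3, h4⟩, h5, h6⟩ := h
    obtain ⟨k, hk⟩ : Q ∣ m - n := (Nat.modEq_iff_dvd' h6.le).1 h5.symm
    have e1 : (m - n) / Q = k := by rw [hk, Nat.mul_div_cancel_left _ hQ]
    rw [e1]
    have e2 : n + k * Q = m := by rw [mul_comm k Q]; omega
    rw [e2]

/-- the expansion of the square -/
theorem sq_expand (X Q : ℕ) (hQ : 1 ≤ Q) (v : ℕ → ℝ) :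
    ∑ a ∈ range Q, (∑ n ∈ (Icc 1 X).filter (fun n => n % Q = a), v n) ^ 2 =
      ∑ n ∈ Icc 1 X, v n ^ 2 + 2 * ∑ h ∈ Icc 1 (X / Q), ∑ n ∈ Icc 1 (X - h * Q), v n * v (n + h * Q) := by
  rw [sq_mod X Q hQ, ← upper_pairs X Q hQ]
  have h1 : ∀ n ∈ Icc 1 X, ∑ m ∈ (Icc 1 X).filter (fun m => m % Q = n % Q), v n * v m =
      v n ^ 2 + (∑ m ∈ (Icc 1 X).filter (fun m => m % Q = n % Q ∧ n < m), v n * v m +
        ∑ m ∈ (Icc 1 X).filter (fun m => m % Q = n % Q ∧ m < n), v n * v m) := by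
    intro n hn
    have e1 : (Icc 1 X).filter (fun m => m % Q = n % Q) = ((Icc 1 X).filter (fun m => m % Q = n % Q ∧ n < m) ∪
        (Icc 1 X).filter (fun m => m % Q = n % Q ∧ m < n)) ∪ {n} := by
      ext m
      simp only [mem_filter, mem_union, mem_singleton]
      constructor
      · rintro ⟨h2, h3⟩
        rcases lt_trichotomy m n with h4 | h4 | h4
        · exact Or.inl (Or.inr ⟨h2, h3, h4⟩)
        · exact Or.inr h4
        · exact Or.inl (Or.inl ⟨h2, h3, h4⟩)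
      · rintro ((⟨h2, h3, _⟩ | ⟨h2, h3, _⟩) | h2)
        · exact ⟨h2, h3⟩
        · exact ⟨h2, h3⟩
        · rw [h2]; exact ⟨hn, rfl⟩
    rw [e1, sum_union, sum_union, sum_singleton]
    · ring
    · rw [disjoint_left]
      intro m hm hm2
      rw [mem_filter] at hm hm2
      omega
    · rw [disjoint_left]
      intro m hm hm2
      rw [mem_union, mem_filter, mem_filter] at hm
      rw [mem_singleton] at hm2
      omega
  rw [sum_congr rfl h1, sum_add_distrib, sum_add_distrib]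
  have h2 : ∑ n ∈ Icc 1 X, ∑ m ∈ (Icc 1 X).filter (fun m => m % Q = n % Q ∧ m < n), v n * v m =
      ∑ n ∈ Icc 1 X, ∑ m ∈ (Icc 1 X).filter (fun m => m % Q = n % Q ∧ n < m), v n * v m := by
    have e1 : ∀ n ∈ Icc 1 X, ∑ m ∈ (Icc 1 X).filter (fun m => m % Q = n % Q ∧ m < n), v n * v m =
        ∑ m ∈ Icc 1 X, if m % Q = n % Q ∧ m < n then v n * v m else 0 := fun n _ => sum_filter _ _
    have e2 : ∀ n ∈ Icc 1 X, ∑ m ∈ (Icc 1 X).filter (fun m => m % Q = n % Q ∧ n < m), v n * v m =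
        ∑ m ∈ Icc 1 X, if m % Q = n % Q ∧ n < m then v n * v m else 0 := fun n _ => sum_filter _ _
    rw [sum_congr rfl e1, sum_congr rfl e2, sum_comm]
    apply sum_congr rfl
    intro m _
    apply sum_congr rfl
    intro n _
    have e3 : (m % Q = n % Q ∧ m < n) ↔ (n % Q = m % Q ∧ m < n) := by
      constructor
      · rintro ⟨h3, h4⟩; exact ⟨h3.symm, h4⟩
      · rintro ⟨h3, h4⟩; exact ⟨h3.symm, h4⟩
    by_cases h3 : m % Q = n % Q ∧ m < n
    · rw [if_pos h3, if_pos (e3.1 h3), mul_comm]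
    · rw [if_neg h3, if_neg (fun h4 => h3 (e3.2 h4))]
  rw [h2]
  ring

/-- the coprime part of the von Mangoldt function -/
noncomputable def vq (Q n : ℕ) : ℝ := if n.Coprime Q then ArithmeticFunction.vonMangoldt n else 0

lemma vq_nonneg (Q n : ℕ) : 0 ≤ vq Q n := by
  unfold vq
  split_ifs
  · exact ArithmeticFunction.vonMangoldt_nonneg
  · exact le_rfl

lemma vq_le (Q n : ℕ) : vq Q n ≤ ArithmeticFunction.vonMangoldt n := by
  unfold vq
  split_ifs
  · exact le_rfl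
  · exact ArithmeticFunction.vonMangoldt_nonneg

/-- restricting to the reduced classes -/
lemma classes (X Q : ℕ) (hQ : 1 ≤ Q) (F : ℝ → ℝ) (hF : F 0 = 0) :
    ∑ a ∈ (range Q).filter (fun a => Nat.Coprime a Q), F (∑ n ∈ (Icc 1 X).filter (fun n => n % Q = a), ArithmeticFunction.vonMangoldt n) =
      ∑ a ∈ range Q, F (∑ n ∈ (Icc 1 X).filter (fun n => n % Q = a), vq Q n) := by
  rw [sum_filter]
  apply sum_congr rfl
  intro a _
  have hc : ∀ n, n % Q = a → (n.Coprime Q ↔ a.Coprime Q) := by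
    intro n hn
    rw [← hn]
    unfold Nat.Coprime
    rw [Nat.gcd_comm n Q, Nat.gcd_rec Q n]
  split_ifs with h
  · congr 1
    apply sum_congr rfl
    intro n hn
    rw [mem_filter] at hn
    unfold vq
    rw [if_pos ((hc n hn.2).2 h)]
  · have : ∑ n ∈ (Icc 1 X).filter (fun n => n % Q = a), vq Q n = 0 := by
      apply sum_eq_zero
      intro n hn
      rw [mem_filter] at hn
      unfold vq
      rw [if_neg (fun hcon => h ((hc n hn.2).1 hcon))]
    rw [this, hF]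

/-- the sum over prime powers not coprime to `Q` -/
lemma not_cop (Q X : ℕ) (hQ : 1 ≤ Q) (hX : 1 ≤ X) :
    ∑ n ∈ Icc 1 X, (ArithmeticFunction.vonMangoldt n - vq Q n) ≤ Q.primeFactors.card * Real.log X := by
  have h0 : ∑ n ∈ Icc 1 X, (ArithmeticFunction.vonMangoldt n - vq Q n) =
      ∑ n ∈ (Icc 1 X).filter (fun n => ¬ n.Coprime Q), ArithmeticFunction.vonMangoldt n := by
    rw [sum_filter]
    apply sum_congr rfl
    intro n _
    unfold vq
    split_ifs <;> simp_all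
  rw [h0]
  have h1 : ∑ n ∈ (Icc 1 X).filter (fun n => ¬ n.Coprime Q), ArithmeticFunction.vonMangoldt n ≤
      ∑ p ∈ Q.primeFactors, ∑ n ∈ (Icc 1 X).filter (fun n => p ∣ n), ArithmeticFunction.vonMangoldt n := by
    have e1 : ∀ n ∈ (Icc 1 X).filter (fun n => ¬ n.Coprime Q), ArithmeticFunction.vonMangoldt n ≤
        ∑ p ∈ Q.primeFactors, if p ∣ n then ArithmeticFunction.vonMangoldt n else 0 := by
      intro n hn
      rw [mem_filter] at hn
      obtain ⟨p, hp, hpn, hpQ⟩ := Nat.Prime.not_coprime_iff_dvd.1 hn.2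
      have hpm : p ∈ Q.primeFactors := Nat.mem_primeFactors.2 ⟨hp, hpQ, by omega⟩
      have e2 := single_le_sum (f := fun p => if p ∣ n then ArithmeticFunction.vonMangoldt n else 0) (s := Q.primeFactors) (fun i _ => by
        split_ifs
        · exact ArithmeticFunction.vonMangoldt_nonneg
        · exact le_rfl) hpm
      rwa [if_pos hpn] at e2
    refine (sum_le_sum e1).trans ?_
    rw [sum_comm]
    apply sum_le_sum
    intro p _
    rw [← sum_filter]
    apply sum_le_sum_of_subset_of_nonneg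
    · intro n hn
      rw [mem_filter, mem_filter] at hn
      rw [mem_filter]
      exact ⟨hn.1.1, hn.2⟩
    · intro n _ _
      exact ArithmeticFunction.vonMangoldt_nonneg
  refine h1.trans ?_
  have h2 : ∀ p ∈ Q.primeFactors, ∑ n ∈ (Icc 1 X).filter (fun n => p ∣ n), ArithmeticFunction.vonMangoldt n ≤ Real.log X := by
    intro p hp
    have hpp := Nat.prime_of_mem_primeFactors hp
    have e1 : ∑ n ∈ (Icc 1 X).filter (fun n => p ∣ n), ArithmeticFunction.vonMangoldt n ≤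
        ∑ m ∈ (Icc 1 (p.log X)).image (p ^ ·), ArithmeticFunction.vonMangoldt m := by
      rw [← Finset.sum_filter_ne_zero]
      apply Finset.sum_le_sum_of_subset_of_nonneg
      · intro n hn
        rw [mem_filter, mem_filter, mem_Icc] at hn
        obtain ⟨⟨⟨h1, h2⟩, h3⟩, h4⟩ := hn
        have h5 := ArithmeticFunction.vonMangoldt_ne_zero_iff.1 h4
        obtain ⟨p', k, hp', hk, rfl⟩ := (isPrimePow_nat_iff _).1 h5
        have h6 : p = p' := (Nat.prime_dvd_prime_iff_eq hpp hp').1 (hpp.dvd_of_dvd_pow h3)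
        rw [← h6] at h2 ⊢
        rw [mem_image]
        exact ⟨k, mem_Icc.2 ⟨hk, Nat.le_log_of_pow_le hpp.one_lt h2⟩, rfl⟩
      · intro n _ _
        exact ArithmeticFunction.vonMangoldt_nonneg
    refine e1.trans ?_
    rw [sum_image fun a _ b _ hab ↦ Nat.pow_right_injective hpp.two_le hab]
    have : ∀ k ∈ Icc 1 (p.log X), ArithmeticFunction.vonMangoldt (p ^ k) = Real.log p := by
      intro k hk
      rw [mem_Icc] at hk
      rw [ArithmeticFunction.vonMangoldt_apply_pow (by omega),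
        ArithmeticFunction.vonMangoldt_apply_prime hpp]
    rw [sum_congr rfl this, sum_const, Nat.card_Icc, Nat.add_sub_cancel, nsmul_eq_mul]
    have h7 : ((p ^ (p.log X) : ℕ) : ℝ) ≤ X := by exact_mod_cast Nat.pow_log_le_self p (by omega)
    have h8 := Real.log_le_log (by exact_mod_cast Nat.pow_pos hpp.pos) h7
    rwa [Nat.cast_pow, Real.log_pow] at h8
  refine (sum_le_sum h2).trans ?_
  rw [sum_const, nsmul_eq_mul]

end Pool.Agent.TH894.PV
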