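import Pool.Agent.TH894.PV1
import Pool.Agent.TH894.PV2
import Pool.Agent.H373R2.T7.SysMain2

set_option autoImplicit false

/-! The main terms. -/

namespace Pool.Agent.TH894.PV
open Finset
open Pool.Agent.H373R2.T7

/-- the inverse of `Vz` is smaller than a fourth root -/
theorem Vz_root (E : ℕ) : ∃ N0 : ℕ, ∀ N : ℕ, N0 ≤ N → ∀ z : ℕ, 1 ≤ z → (z : ℝ) ≤ Real.log N ^ E →
    (Vz z)⁻¹ ≤ 2 * Real.log N ^ (1 / 4 : ℝ) := by
  obtain ⟨n0, h0⟩ := Vz_inv_small (4 * E)
  obtain ⟨n1, h1⟩ := ev_L' (((n0 : ℝ) + 1) ^ 4 + 1)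
  refine ⟨n1, fun N hN z hz hzE => ?_⟩
  have hL := h1 N hN
  obtain ⟨L, hLd⟩ : ∃ L, L = Real.log (N : ℝ) := ⟨_, rfl⟩
  rw [← hLd] at hL hzE ⊢
  have hn0 : (0 : ℝ) ≤ n0 := Nat.cast_nonneg _
  have hL1 : 1 ≤ L := by
    have : 0 ≤ ((n0 : ℝ) + 1) ^ 4 := by positivity
    linarith
  have hL0 : 0 < L := by linarith
  obtain ⟨q, hq⟩ : ∃ q, q = L ^ (1 / 4 : ℝ) := ⟨_, rfl⟩
  have hq4 : q ^ 4 = L := by
    rw [hq, ← Real.rpow_natCast, ← Real.rpow_mul hL0.le]
    norm_num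
  have hq0 : 0 ≤ q := by rw [hq]; positivity
  have hqn : (n0 : ℝ) + 1 ≤ q := by
    have e1 : ((n0 : ℝ) + 1) ^ 4 ≤ q ^ 4 := by rw [hq4]; linarith
    exact (pow_le_pow_iff_left₀ (by positivity) hq0 (by norm_num)).1 e1
  have hq1 : 1 ≤ q := by linarith
  rw [← hq]
  have hexp : q ≤ Real.exp q := by
    have := Real.add_one_le_exp q
    linarith
  have hN' : n0 ≤ ⌈Real.exp q⌉₊ := by
    have e1 : (n0 : ℝ) ≤ ⌈Real.exp q⌉₊ := by
      refine le_trans ?_ (Nat.le_ceil _)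
      linarith
    exact_mod_cast e1
  have hlog1 : q ≤ Real.log ((⌈Real.exp q⌉₊ : ℕ) : ℝ) := by
    rw [Real.le_log_iff_exp_le (lt_of_lt_of_le (Real.exp_pos q) (Nat.le_ceil _))]
    exact Nat.le_ceil _
  have hlog2 : Real.log ((⌈Real.exp q⌉₊ : ℕ) : ℝ) ≤ 2 * q := by
    have e1 : ((⌈Real.exp q⌉₊ : ℕ) : ℝ) ≤ Real.exp q + 1 := (Nat.ceil_lt_add_one (Real.exp_pos q).le).le
    have e2 : Real.exp q + 1 ≤ Real.exp (2 * q) := by
      have e3 : Real.exp (2 * q) = Real.exp q * Real.exp q := by rw [← Real.exp_add]; ring_nf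
      rw [e3]
      have e4 : 2 ≤ Real.exp q := by
        have := Real.add_one_le_exp q
        linarith
      nlinarith
    rw [Real.log_le_iff_le_exp (lt_of_lt_of_le (Real.exp_pos q) (Nat.le_ceil _))]
    linarith
  refine (h0 _ hN' z hz ?_).trans hlog2
  refine hzE.trans ?_
  rw [← hq4, ← pow_mul]
  exact pow_le_pow_left₀ hq0 hlog1 _

/-- the primes up to `z` which divide `Q` -/
noncomputable def CQ (z Q : ℕ) : ℝ := ∏ p ∈ (pz z).filter (fun p => p ∣ Q), (1 - 1 / (p : ℝ))⁻¹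

lemma one_le_fac (p : ℕ) (hp : 2 ≤ p) : 1 ≤ (1 - 1 / (p : ℝ))⁻¹ := by
  have h1 : (2 : ℝ) ≤ p := by exact_mod_cast hp
  rw [one_le_inv₀ (by rw [sub_pos, div_lt_one (by linarith)]; linarith)]
  have : 0 ≤ 1 / (p : ℝ) := by positivity
  linarith

lemma CQ_one (z Q : ℕ) : 1 ≤ CQ z Q := by
  unfold CQ
  have h1 : ∀ p ∈ (pz z).filter (fun p => p ∣ Q), 1 ≤ (1 - 1 / (p : ℝ))⁻¹ := fun p hp =>
    one_le_fac p (mem_pz.1 (mem_filter.1 hp).1).2.two_le
  calc (1 : ℝ) = ∏ _p ∈ (pz z).filter (fun p => p ∣ Q), 1 := prod_const_one.symm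
    _ ≤ _ := prod_le_prod (fun _ _ => by norm_num) h1

lemma CQ_le (z Q : ℕ) : CQ z Q ≤ (Vz z)⁻¹ := by
  unfold CQ Vz
  rw [← prod_inv_distrib]
  rw [← prod_filter_mul_prod_filter_not (pz z) (fun p => p ∣ Q)]
  apply le_mul_of_one_le_right
  · apply prod_nonneg
    intro p hp
    have := one_le_fac p (mem_pz.1 (mem_filter.1 hp).1).2.two_le
    linarith
  · have h1 : ∀ p ∈ (pz z).filter (fun p => ¬ p ∣ Q), 1 ≤ (1 - 1 / (p : ℝ))⁻¹ := fun p hp =>
      one_le_fac p (mem_pz.1 (mem_filter.1 hp).1).2.two_le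
    calc (1 : ℝ) = ∏ _p ∈ (pz z).filter (fun p => ¬ p ∣ Q), 1 := prod_const_one.symm
      _ ≤ _ := prod_le_prod (fun _ _ => by norm_num) h1

lemma rho_eq (Y p : ℕ) (hp : p.Prime) : rhoA (fun p n => p ∣ n + Y) p = if p ∣ Y then 0 else 1 := by
  classical
  have h0 : rhoA (fun p n => p ∣ n + Y) p = ((range p).filter (fun r => ¬ p ∣ r ∧ p ∣ r + Y)).card := by
    unfold rhoA
    congr!
  rw [h0]
  split_ifs with h1
  · rw [card_eq_zero, filter_eq_empty_iff]
    intro r _ ⟨h2, h3⟩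
    exact h2 ((Nat.dvd_add_iff_left h1).2 h3)
  · rw [card_eq_one]
    refine ⟨(p - Y % p) % p, ?_⟩
    ext r
    rw [mem_filter, mem_singleton, mem_range]
    have hm : Y % p < p := Nat.mod_lt _ hp.pos
    have hm0 : Y % p ≠ 0 := fun hc => h1 (Nat.dvd_of_mod_eq_zero hc)
    have hm1 : (p - Y % p) % p = p - Y % p := Nat.mod_eq_of_lt (by omega)
    rw [hm1]
    have hdiv : p ∣ r + Y ↔ p ∣ r + Y % p := by
      rw [Nat.dvd_iff_mod_eq_zero, Nat.dvd_iff_mod_eq_zero, Nat.add_mod, Nat.add_mod r (Y % p), Nat.mod_mod]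
    constructor
    · rintro ⟨h2, h3, h4⟩
      rw [hdiv] at h4
      obtain ⟨k, hk⟩ := h4
      have hk1 : k = 1 := by
        have hk2 : k < 2 := by
          by_contra hcon
          push Not at hcon
          have : p * 2 ≤ p * k := Nat.mul_le_mul_left _ hcon
          omega
        have hk3 : k ≠ 0 := by
          intro hc
          rw [hc] at hk
          omega
        omega
      rw [hk1] at hk
      omega
    · intro h2
      refine ⟨by omega, ?_, ?_⟩
      · intro h3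
        have h4 := Nat.le_of_dvd (by omega) h3
        omega
      · rw [hdiv]
        refine ⟨1, ?_⟩
        omega

/-- the local factors -/
lemma main_fac (z Q h : ℕ) : (Vz z)⁻¹ * ∏ p ∈ pz z, (1 - (rhoA (fun p n => p ∣ n + h * Q) p : ℝ) / (p - 1 : ℝ)) =
    CQ z Q * fs ((pz z).filter (fun p => ¬ p ∣ Q)) h := by
  unfold Vz CQ fs
  rw [← prod_inv_distrib, ← prod_mul_distrib]
  rw [← prod_filter_mul_prod_filter_not (pz z) (fun p => p ∣ Q)]
  congr 1
  · apply prod_congr rfl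
    intro p hp
    rw [mem_filter, mem_pz] at hp
    rw [rho_eq _ p hp.1.2, if_pos (Dvd.dvd.mul_left hp.2 h)]
    simp
  · apply prod_congr rfl
    intro p hp
    rw [mem_filter, mem_pz] at hp
    have h2 : (2 : ℝ) ≤ p := by exact_mod_cast hp.1.2.two_le
    have h3 : (p : ℝ) - 1 ≠ 0 := by linarith
    have h4 : (p : ℝ) ≠ 0 := by linarith
    rw [rho_eq _ p hp.1.2]
    have hiff : p ∣ h * Q ↔ p ∣ h := by
      rw [hp.1.2.dvd_mul]
      tauto
    simp only [hiff]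
    unfold al be
    have h5 : (1 - 1 / (p : ℝ)) = (p - 1) / p := by field_simp
    rw [h5]
    split_ifs
    · push_cast
      field_simp
      ring
    · push_cast
      field_simp
      ring

lemma fs_le (z Q h : ℕ) : CQ z Q * fs ((pz z).filter (fun p => ¬ p ∣ Q)) h ≤ (Vz z)⁻¹ := by
  rw [← main_fac]
  have hV := (inv_pos.2 (Vz_pos z)).le
  apply mul_le_of_le_one_right hV
  apply prod_le_one
  · intro p hp
    rw [mem_pz] at hp
    have h2 : (2 : ℝ) ≤ p := by exact_mod_cast hp.2.two_le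
    rw [rho_eq _ p hp.2, sub_nonneg, div_le_one (by linarith)]
    split_ifs
    · push_cast; linarith
    · push_cast; linarith
  · intro p hp
    rw [mem_pz] at hp
    have h2 : (2 : ℝ) ≤ p := by exact_mod_cast hp.2.two_le
    have : 0 ≤ (rhoA (fun p n => p ∣ n + h * Q) p : ℝ) / (p - 1 : ℝ) := div_nonneg (Nat.cast_nonneg _) (by linarith)
    linarith

/-- the number of prime factors -/
lemma card_pf (Q : ℕ) (hQ : 1 ≤ Q) : (Q.primeFactors.card : ℝ) ≤ 2 * Real.log Q := by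
  have h1 : 2 ^ Q.primeFactors.card ≤ Q := by
    calc 2 ^ Q.primeFactors.card = ∏ _p ∈ Q.primeFactors, 2 := by rw [prod_const]
      _ ≤ ∏ p ∈ Q.primeFactors, p := prod_le_prod' fun p hp => (Nat.prime_of_mem_primeFactors hp).two_le
      _ ≤ Q := Nat.le_of_dvd hQ (Nat.prod_primeFactors_dvd Q)
  have h2 : ((2 ^ Q.primeFactors.card : ℕ) : ℝ) ≤ Q := by exact_mod_cast h1
  have h3 := Real.log_le_log (by positivity) h2
  rw [Nat.cast_pow, Real.log_pow] at h3
  have h4 := Real.log_two_gt_d9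
  have h5 : (0 : ℝ) ≤ Q.primeFactors.card := Nat.cast_nonneg _
  push_cast at h3
  nlinarith

/-- Euler's function -/
lemma totient_fac (z Q : ℕ) (hz : 1 ≤ z) (hQ : 1 ≤ Q) (hω : (Q.primeFactors.card : ℝ) ≤ z) :
    CQ z Q ≤ (Q : ℝ) / (Q.totient : ℝ) ∧ (Q : ℝ) / (Q.totient : ℝ) ≤ CQ z Q * (1 + 2 * (Q.primeFactors.card / z)) := by
  have hz0 : (0 : ℝ) < z := by exact_mod_cast hz
  have hQ0 : (0 : ℝ) < Q := by exact_mod_cast hQ
  have h1 : (Q.totient : ℝ) = Q * ∏ p ∈ Q.primeFactors, (1 - (p : ℝ)⁻¹) := by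
    have h0 := Nat.totient_eq_mul_prod_factors Q
    have h00 : (((Q.totient : ℕ) : ℚ) : ℝ) = (((Q : ℚ) * ∏ p ∈ Q.primeFactors, (1 - (p : ℚ)⁻¹) : ℚ) : ℝ) := by rw [h0]
    push_cast at h00
    exact h00
  have h2 : (Q : ℝ) / (Q.totient : ℝ) = ∏ p ∈ Q.primeFactors, (1 - 1 / (p : ℝ))⁻¹ := by
    rw [h1, ← div_div, div_self hQ0.ne', one_div, ← prod_inv_distrib]
    apply prod_congr rfl
    intro p _
    rw [one_div]
  have h3 : CQ z Q = ∏ p ∈ Q.primeFactors.filter (fun p => p ≤ z), (1 - 1 / (p : ℝ))⁻¹ := by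
    unfold CQ
    apply prod_congr _ (fun _ _ => rfl)
    ext p
    rw [mem_filter, mem_filter, mem_pz, Nat.mem_primeFactors]
    constructor
    · rintro ⟨⟨a, b⟩, c⟩; exact ⟨⟨b, c, by omega⟩, a⟩
    · rintro ⟨⟨a, b, _⟩, c⟩; exact ⟨⟨c, a⟩, b⟩
  have h4 : (Q : ℝ) / (Q.totient : ℝ) = CQ z Q * ∏ p ∈ Q.primeFactors.filter (fun p => ¬ p ≤ z), (1 - 1 / (p : ℝ))⁻¹ := by
    rw [h2, h3, prod_filter_mul_prod_filter_not]
  have h5 : 0 ≤ CQ z Q := by
    unfold CQ
    apply prod_nonneg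
    intro p hp
    have := one_le_fac p (mem_pz.1 (mem_filter.1 hp).1).2.two_le
    linarith
  rw [h4]
  constructor
  · apply le_mul_of_one_le_right h5
    have h1 : ∀ p ∈ Q.primeFactors.filter (fun p => ¬ p ≤ z), 1 ≤ (1 - 1 / (p : ℝ))⁻¹ := fun p hp =>
      one_le_fac p (Nat.prime_of_mem_primeFactors (mem_filter.1 hp).1).two_le
    calc (1 : ℝ) = ∏ _p ∈ Q.primeFactors.filter (fun p => ¬ p ≤ z), 1 := prod_const_one.symm
      _ ≤ _ := prod_le_prod (fun _ _ => by norm_num) h1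
  · apply mul_le_mul_of_nonneg_left _ h5
    have h6 : ∀ p ∈ Q.primeFactors.filter (fun p => ¬ p ≤ z), (1 - 1 / (p : ℝ))⁻¹ ≤ Real.exp (1 / z) := by
      intro p hp
      rw [mem_filter] at hp
      have hp2 : (2 : ℝ) ≤ p := by exact_mod_cast (Nat.prime_of_mem_primeFactors hp.1).two_le
      have hpz : (z : ℝ) + 1 ≤ p := by exact_mod_cast (by omega : z + 1 ≤ p)
      have e1 : (1 - 1 / (p : ℝ))⁻¹ = 1 / (p - 1) + 1 := by
        have e2 : (p : ℝ) - 1 ≠ 0 := by linarith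
        have e3 : (p : ℝ) ≠ 0 := by linarith
        have e4 : 1 - 1 / (p : ℝ) = (p - 1) / p := by field_simp
        rw [e4, inv_div]
        field_simp
        ring
      rw [e1]
      refine le_trans ?_ (Real.add_one_le_exp _)
      have : 1 / ((p : ℝ) - 1) ≤ 1 / z := one_div_le_one_div_of_le hz0 (by linarith)
      linarith
    calc ∏ p ∈ Q.primeFactors.filter (fun p => ¬ p ≤ z), (1 - 1 / (p : ℝ))⁻¹ ≤ ∏ _p ∈ Q.primeFactors.filter (fun p => ¬ p ≤ z), Real.exp (1 / z) := by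
          apply prod_le_prod _ h6
          intro p hp
          have := one_le_fac p (Nat.prime_of_mem_primeFactors (mem_filter.1 hp).1).two_le
          linarith
      _ = Real.exp ((Q.primeFactors.filter (fun p => ¬ p ≤ z)).card * (1 / z)) := by
          rw [prod_const, ← Real.exp_nat_mul]
      _ ≤ Real.exp (Q.primeFactors.card / z) := by
          apply Real.exp_le_exp.2
          rw [mul_one_div]
          apply div_le_div_of_nonneg_right _ hz0.le
          exact_mod_cast card_filter_le _ _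
      _ ≤ 1 + 2 * (Q.primeFactors.card / z) := by
          have h7 : (0 : ℝ) ≤ Q.primeFactors.card / z := by positivity
          have h8 : (Q.primeFactors.card : ℝ) / z ≤ 1 := by rw [div_le_one hz0]; exact hω
          have h9 := Real.abs_exp_sub_one_le (x := (Q.primeFactors.card : ℝ) / z) (by rw [abs_of_nonneg h7]; exact h8)
          rw [abs_of_nonneg h7] at h9
          have := (abs_le.1 h9).2
          linarith

end Pool.Agent.TH894.PV
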