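import Pool.Agent.TH894.PV3
import Pool.Agent.H373R2.T7.BilLam

set_option autoImplicit false

/-! The main terms, continued. -/

namespace Pool.Agent.TH894.PV
open Finset
open Pool.Agent.H373R2.T7

/-- the correlations of the primes with the sieve model -/
theorem main_one (E U : ℕ) : ∃ Y₀ : ℕ, ∀ Y : ℕ, Y₀ ≤ Y → ∀ z : ℕ, 1 ≤ z → (z : ℝ) ≤ Real.log Y ^ E → ∀ Q h N₁ : ℕ,
    |∑ n ∈ Icc 1 N₁, ArithmeticFunction.vonMangoldt n * lamzI z ((n : ℤ) + ((h * Q : ℕ) : ℤ)) -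
      N₁ * (CQ z Q * fs ((pz z).filter (fun p => ¬ p ∣ Q)) h)| ≤ (N₁ + Y) / Real.log Y ^ U := by
  classical
  obtain ⟨n0, h0⟩ := sys_main 1 (E + 1) (U + 2) le_rfl
  obtain ⟨n1, h1⟩ := Vz_inv_small E
  obtain ⟨n2, h2⟩ := ev_L' (2 ^ (E + 1) + 2 ^ (U + 2) + 2)
  obtain ⟨n3, h3⟩ := ev_log' (U + 1) 7
  refine ⟨n0 * n0 + n1 + n2 + n3 + 4, fun Y hY z hz hzE Q h N₁ => ?_⟩
  obtain ⟨L, hL⟩ : ∃ L, L = Real.log (Y : ℝ) := ⟨_, rfl⟩
  have hLb := h2 Y (by nlinarith)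
  have hV := h1 Y (by nlinarith) z hz hzE
  have hs := h3 Y (by nlinarith)
  rw [← hL] at hLb hV hs hzE ⊢
  have q1 : (0 : ℝ) < 2 ^ (E + 1) := by positivity
  have q2 : (0 : ℝ) < 2 ^ (U + 2) := by positivity
  have hL1 : 1 ≤ L := by linarith
  have hL0 : 0 < L := by linarith
  have hY0 : (0 : ℝ) < Y := by exact_mod_cast (by nlinarith : 0 < Y)
  have hV0 : 0 ≤ (Vz z)⁻¹ := (inv_pos.2 (Vz_pos z)).le
  obtain ⟨F, hF⟩ : ∃ F, F = CQ z Q * fs ((pz z).filter (fun p => ¬ p ∣ Q)) h := ⟨_, rfl⟩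
  have hF0 : 0 ≤ F := by
    rw [hF]
    apply mul_nonneg
    · linarith [CQ_one z Q]
    · exact fs_nonneg _ (fun p hp => (mem_pz.1 (mem_filter.1 hp).1).2) h
  have hF1 : F ≤ L := by rw [hF]; exact (fs_le z Q h).trans hV
  rw [← hF]
  have hS : ∑ n ∈ Icc 1 N₁, ArithmeticFunction.vonMangoldt n * lamzI z ((n : ℤ) + ((h * Q : ℕ) : ℤ)) =
      (Vz z)⁻¹ * ∑ n ∈ (Icc 1 N₁).filter (fun n : ℕ => ∀ p ∈ pz z, ¬ (fun p n => p ∣ n + h * Q) p n), ArithmeticFunction.vonMangoldt n := by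
    rw [sum_filter, mul_sum]
    apply sum_congr rfl
    intro n hn
    rw [mem_Icc] at hn
    have e1 : 1 ≤ (n : ℤ) + ((h * Q : ℕ) : ℤ) := by omega
    have e2 : ((n : ℤ) + ((h * Q : ℕ) : ℤ)).toNat = n + h * Q := by omega
    unfold lamzI lamz
    rw [if_pos e1, e2]
    simp only
    split_ifs <;> ring
  rcases lt_or_ge (N₁ * N₁) Y with hN | hN
  · -- short sums
    have e1 : ∑ n ∈ (Icc 1 N₁).filter (fun n : ℕ => ∀ p ∈ pz z, ¬ (fun p n => p ∣ n + h * Q) p n), ArithmeticFunction.vonMangoldt n ≤ 6 * N₁ := by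
      refine le_trans ?_ (lam1_le N₁)
      unfold lam1
      exact sum_le_sum_of_subset_of_nonneg (filter_subset _ _) (fun _ _ _ => ArithmeticFunction.vonMangoldt_nonneg)
    have e2 : 0 ≤ ∑ n ∈ (Icc 1 N₁).filter (fun n : ℕ => ∀ p ∈ pz z, ¬ (fun p n => p ∣ n + h * Q) p n), ArithmeticFunction.vonMangoldt n :=
      sum_nonneg fun _ _ => ArithmeticFunction.vonMangoldt_nonneg
    rw [hS]
    have hN0 : (0 : ℝ) ≤ N₁ := Nat.cast_nonneg _
    have e3 : (Vz z)⁻¹ * ∑ n ∈ (Icc 1 N₁).filter (fun n : ℕ => ∀ p ∈ pz z, ¬ (fun p n => p ∣ n + h * Q) p n), ArithmeticFunction.vonMangoldt n ≤ L * (6 * N₁) :=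
      mul_le_mul hV e1 e2 hL0.le
    have e4 : N₁ * F ≤ N₁ * L := mul_le_mul_of_nonneg_left hF1 hN0
    have e5 : (N₁ : ℝ) ≤ √Y := by
      apply Real.le_sqrt_of_sq_le
      rw [pow_two]
      exact_mod_cast hN.le
    have e6 : 7 * L * N₁ ≤ Y / L ^ U := by
      rw [le_div_iff₀ (by positivity)]
      calc 7 * L * N₁ * L ^ U = (7 * L ^ (U + 1)) * N₁ := by ring
        _ ≤ √Y * √Y := mul_le_mul hs e5 hN0 (Real.sqrt_nonneg _)
        _ = Y := Real.mul_self_sqrt hY0.le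
    have e7 : Y / L ^ U ≤ (N₁ + Y) / L ^ U := div_le_div_of_nonneg_right (by linarith) (by positivity)
    have e8 : 0 ≤ (Vz z)⁻¹ * ∑ n ∈ (Icc 1 N₁).filter (fun n : ℕ => ∀ p ∈ pz z, ¬ (fun p n => p ∣ n + h * Q) p n), ArithmeticFunction.vonMangoldt n := mul_nonneg hV0 e2
    have e9 : 0 ≤ N₁ * F := mul_nonneg hN0 hF0
    rw [abs_le]
    constructor <;> nlinarith
  · have hN0n : n0 ≤ N₁ := by
      by_contra hcon
      push Not at hcon
      have : N₁ * N₁ ≤ n0 * n0 := Nat.mul_le_mul hcon.le hcon.le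
      omega
    have hN1 : 1 ≤ N₁ := by
      by_contra hcon
      have : N₁ = 0 := by omega
      rw [this] at hN
      omega
    have hN0 : (0 : ℝ) < N₁ := by exact_mod_cast hN1
    have hlog : L / 2 ≤ Real.log N₁ := by
      have e1 : (Y : ℝ) ≤ N₁ ^ 2 := by rw [pow_two]; exact_mod_cast hN
      have e2 := Real.log_le_log hY0 e1
      rw [Real.log_pow, ← hL] at e2
      push_cast at e2
      linarith
    have hlog0 : 0 < Real.log N₁ := by linarith
    have hz2 : (z : ℝ) ≤ Real.log N₁ ^ (E + 1) := by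
      refine hzE.trans ?_
      calc L ^ E = L ^ E * 1 := (mul_one _).symm
        _ ≤ L ^ E * (L / 2 ^ (E + 1)) := by
            apply mul_le_mul_of_nonneg_left _ (by positivity)
            rw [le_div_iff₀ (by positivity)]
            linarith
        _ = (L / 2) ^ (E + 1) := by rw [div_pow]; ring
        _ ≤ _ := pow_le_pow_left₀ (by positivity) hlog _
    have hper : PerA (fun p n => p ∣ n + h * Q) 1 := by
      constructor
      · intro p n
        show p ∣ n + h * Q ↔ p ∣ n % p + h * Q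
        rw [Nat.dvd_iff_mod_eq_zero, Nat.dvd_iff_mod_eq_zero]
        have hmm : (n + h * Q) % p = (n % p + h * Q) % p := by
          rw [Nat.add_mod, Nat.add_mod (n % p) (h * Q), Nat.mod_mod]
        rw [hmm]
      · intro p hp
        rw [rho_eq _ p hp]
        split_ifs <;> omega
    have e1 := h0 N₁ hN0n z hz hz2 (fun p n => p ∣ n + h * Q) hper
    rw [hS, hF, ← main_fac]
    have e2 : (Vz z)⁻¹ * ∑ n ∈ (Icc 1 N₁).filter (fun n : ℕ => ∀ p ∈ pz z, ¬ (fun p n => p ∣ n + h * Q) p n), ArithmeticFunction.vonMangoldt n -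
        N₁ * ((Vz z)⁻¹ * ∏ p ∈ pz z, (1 - (rhoA (fun p n => p ∣ n + h * Q) p : ℝ) / (p - 1 : ℝ))) =
        (Vz z)⁻¹ * (∑ n ∈ (Icc 1 N₁).filter (fun n : ℕ => ∀ p ∈ pz z, ¬ (fun p n => p ∣ n + h * Q) p n), ArithmeticFunction.vonMangoldt n -
        N₁ * ∏ p ∈ pz z, (1 - (rhoA (fun p n => p ∣ n + h * Q) p : ℝ) / (p - 1 : ℝ))) := by ring
    rw [e2, abs_mul, abs_of_nonneg hV0]
    have e3 : (N₁ : ℝ) / Real.log N₁ ^ (U + 2) ≤ N₁ / (L / 2) ^ (U + 2) := by
      apply div_le_div_of_nonneg_left hN0.le (by positivity)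
      exact pow_le_pow_left₀ (by positivity) hlog _
    have e1' := e1.trans e3
    calc _ ≤ L * (N₁ / (L / 2) ^ (U + 2)) := by
          apply mul_le_mul hV _ (abs_nonneg _) hL0.le
          refine le_trans (le_of_eq ?_) e1'
          congr 1
          congr 1
          apply sum_congr _ (fun _ _ => rfl)
          ext n
          simp only [mem_filter]
      _ = 2 ^ (U + 2) / L * (N₁ / L ^ U) := by rw [div_pow, pow_add]; field_simp
      _ ≤ 1 * (N₁ / L ^ U) := by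
          apply mul_le_mul_of_nonneg_right _ (by positivity)
          rw [div_le_one hL0]
          linarith
      _ = N₁ / L ^ U := one_mul _
      _ ≤ (N₁ + Y) / L ^ U := div_le_div_of_nonneg_right (by linarith) (by positivity)

/-- the diagonal terms -/
theorem diag (ε : ℝ) (hε : 0 < ε) : ∃ X₀ : ℕ, ∀ X : ℕ, X₀ ≤ X → ∀ Q : ℕ, 1 ≤ Q → Q ≤ X →
    |∑ n ∈ Icc 1 X, vq Q n ^ 2 - X * Real.log X| ≤ ε * (X * Real.log X) := by
  obtain ⟨n0, h0⟩ := Pool.Agent.W110.HV.norm_asymp (ε / 2) (by positivity)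
  obtain ⟨C, hC, hvd⟩ := Pool.Agent.W110.HV.vdiff
  obtain ⟨n1, h1⟩ := ev_log' 2 (16 / ε)
  obtain ⟨n2, h2⟩ := ev_log' 0 (8 * C / ε)
  obtain ⟨n3, h3⟩ := ev_L' 1
  refine ⟨n0 + n1 + n2 + n3 + 1, fun X hX Q hQ hQX => ?_⟩
  have hX1 : 1 ≤ X := by omega
  have hX0 : (0 : ℝ) < X := by exact_mod_cast hX1
  have a0 := h0 X (by omega)
  have a1 := h1 X (by omega)
  have a2 := h2 X (by omega)
  have a3 := h3 X (by omega)
  rw [pow_zero, mul_one] at a2
  obtain ⟨L, hL⟩ : ∃ L, L = Real.log (X : ℝ) := ⟨_, rfl⟩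
  rw [← hL] at a0 a1 a3 ⊢
  have hL0 : 0 < L := by linarith
  have hss : √(X : ℝ) * √(X : ℝ) = X := Real.mul_self_sqrt hX0.le
  have hs0 : 0 < √(X : ℝ) := Real.sqrt_pos.2 hX0
  have hs1 : 1 ≤ √(X : ℝ) := by
    rw [Real.one_le_sqrt]
    exact_mod_cast hX1
  have hd1 := hvd X
  have hd2 := not_cop Q X hQ hX1
  rw [← hL] at hd2
  have hω : (Q.primeFactors.card : ℝ) ≤ 2 * L := by
    refine (card_pf Q hQ).trans ?_
    rw [hL]
    have : Real.log (Q : ℝ) ≤ Real.log X := Real.log_le_log (by exact_mod_cast hQ) (by exact_mod_cast hQX)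
    linarith
  have hd3 : ∑ n ∈ Icc 1 X, (ArithmeticFunction.vonMangoldt n - vq Q n) ≤ 2 * L * L := hd2.trans (mul_le_mul_of_nonneg_right hω hL0.le)
  have hdiff : |∑ n ∈ Icc 1 X, vq Q n ^ 2 - ∑ n ∈ Icc 1 X, ‖Pool.Agent.W110.HV.uu X n‖ ^ 2| ≤ 2 * L * (C * √X + 2 * L * L) := by
    rw [← sum_sub_distrib]
    refine (abs_sum_le_sum_abs _ _).trans ?_
    have e1 : ∀ n ∈ Icc 1 X, |vq Q n ^ 2 - ‖Pool.Agent.W110.HV.uu X n‖ ^ 2| ≤
        2 * L * ((ArithmeticFunction.vonMangoldt n - Pool.Agent.W110.HV.uR X n) + (ArithmeticFunction.vonMangoldt n - vq Q n)) := by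
      intro n hn
      rw [mem_Icc] at hn
      rw [Pool.Agent.W110.HV.norm_uu]
      have g1 := Pool.Agent.W110.HV.uR_le X n
      have g2 := Pool.Agent.W110.HV.uR_nonneg X n
      have g3 := vq_le Q n
      have g4 := vq_nonneg Q n
      have g5 : ArithmeticFunction.vonMangoldt n ≤ L := by
        refine ArithmeticFunction.vonMangoldt_le_log.trans ?_
        rw [hL]
        exact Real.log_le_log (by exact_mod_cast hn.1) (by exact_mod_cast hn.2)
      have g6 : vq Q n ^ 2 - Pool.Agent.W110.HV.uR X n ^ 2 = (vq Q n - Pool.Agent.W110.HV.uR X n) * (vq Q n + Pool.Agent.W110.HV.uR X n) := by ring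
      rw [g6, abs_mul, mul_comm (2 * L)]
      apply mul_le_mul
      · rw [abs_le]; constructor <;> linarith
      · rw [abs_of_nonneg (by linarith)]; linarith
      · exact abs_nonneg _
      · linarith
    refine (sum_le_sum e1).trans ?_
    rw [← mul_sum, sum_add_distrib]
    apply mul_le_mul_of_nonneg_left _ (by positivity)
    linarith
  have e2 : 2 * L * (C * √X + 2 * L * L) ≤ ε / 2 * (X * L) := by
    have g1 : C * √X ≤ ε / 8 * X := by
      rw [div_le_iff₀ hε] at a2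
      calc C * √X ≤ (√X * ε / 8) * √X := by
            apply mul_le_mul_of_nonneg_right _ hs0.le
            linarith
        _ = ε / 8 * (√X * √X) := by ring
        _ = _ := by rw [hss]
    have g2 : 2 * L * L ≤ ε / 8 * X := by
      have g3 : 16 * L ^ 2 ≤ ε * √X := by
        rw [div_mul_eq_mul_div, div_le_iff₀ hε] at a1
        linarith
      have g4 : √X ≤ X := by
        calc √X = √X * 1 := (mul_one _).symm
          _ ≤ √X * √X := mul_le_mul_of_nonneg_left hs1 hs0.le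
          _ = X := hss
      nlinarith
    nlinarith
  have e3 : ∑ n ∈ Icc 1 X, vq Q n ^ 2 - X * L = (∑ n ∈ Icc 1 X, vq Q n ^ 2 - ∑ n ∈ Icc 1 X, ‖Pool.Agent.W110.HV.uu X n‖ ^ 2) +
      (∑ n ∈ Icc 1 X, ‖Pool.Agent.W110.HV.uu X n‖ ^ 2 - X * L) := by ring
  rw [e3]
  refine (abs_add_le _ _).trans ?_
  linarith

/-- the first moment -/
theorem first (U : ℕ) : ∃ C : ℝ, 0 < C ∧ ∃ X₀ : ℕ, ∀ X : ℕ, X₀ ≤ X → ∀ Q : ℕ, 1 ≤ Q → Q ≤ X →
    |∑ n ∈ Icc 1 X, vq Q n - X| ≤ C * (X / Real.log X ^ U) := by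
  obtain ⟨C, n0, hC, h0⟩ := pnt_lam U
  obtain ⟨n1, h1⟩ := ev_log' (U + 2) 4
  obtain ⟨n3, h3⟩ := ev_L' 1
  refine ⟨C + 1, by linarith, n0 + n1 + n3 + 1, fun X hX Q hQ hQX => ?_⟩
  have hX1 : 1 ≤ X := by omega
  have hX0 : (0 : ℝ) < X := by exact_mod_cast hX1
  have a0 := h0 X (by omega)
  have a1 := h1 X (by omega)
  have a3 := h3 X (by omega)
  obtain ⟨L, hL⟩ : ∃ L, L = Real.log (X : ℝ) := ⟨_, rfl⟩
  rw [← hL] at a0 a1 a3 ⊢
  have hL0 : 0 < L := by linarith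
  have hss : √(X : ℝ) * √(X : ℝ) = X := Real.mul_self_sqrt hX0.le
  have hs0 : 0 < √(X : ℝ) := Real.sqrt_pos.2 hX0
  have hd2 := not_cop Q X hQ hX1
  rw [← hL, sum_sub_distrib] at hd2
  have hω : (Q.primeFactors.card : ℝ) ≤ 2 * L := by
    refine (card_pf Q hQ).trans ?_
    rw [hL]
    have : Real.log (Q : ℝ) ≤ Real.log X := Real.log_le_log (by exact_mod_cast hQ) (by exact_mod_cast hQX)
    linarith
  have hd3 : (Q.primeFactors.card : ℝ) * L ≤ 2 * L * L := mul_le_mul_of_nonneg_right hω hL0.le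
  have hd4 : ∑ n ∈ Icc 1 X, vq Q n ≤ lam1 X := sum_le_sum fun n _ => vq_le Q n
  have hd5 : lam1 X - ∑ n ∈ Icc 1 X, vq Q n ≤ 2 * L * L := by
    unfold lam1
    linarith
  have e1 : 2 * L * L + 2 ≤ X / L ^ U := by
    rw [le_div_iff₀ (by positivity)]
    have g1 : (2 * L * L + 2) * L ^ U ≤ 4 * L ^ (U + 2) := by
      have : 1 ≤ L ^ 2 := one_le_pow₀ a3
      have g2 : 2 * L * L + 2 ≤ 4 * L ^ 2 := by nlinarith
      calc (2 * L * L + 2) * L ^ U ≤ 4 * L ^ 2 * L ^ U := mul_le_mul_of_nonneg_right g2 (by positivity)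
        _ = _ := by ring
    have g4 : √X ≤ X := by
      have hs1 : 1 ≤ √(X : ℝ) := by
        rw [Real.one_le_sqrt]
        exact_mod_cast hX1
      calc √X = √X * 1 := (mul_one _).symm
        _ ≤ √X * √X := mul_le_mul_of_nonneg_left hs1 hs0.le
        _ = X := hss
    linarith
  rw [abs_le] at a0 ⊢
  have e2 : (C + 1) * (X / L ^ U) = C * (X / L ^ U) + X / L ^ U := by ring
  constructor <;> linarith

end Pool.Agent.TH894.PV
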