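import Pool.Agent.TH894.PV4
import Pool.Agent.TH894.PA7

set_option autoImplicit false

/-! The variance of the primes in the classes of one modulus: the deterministic part. -/

namespace Pool.Agent.TH894.PV
open Finset
open Pool.Agent.H373R2.T7
open Pool.Agent.TH894.PA (cz)

/-- `ψ(X; q, a) = ∑_{n ≤ X, n ≡ a mod q} Λ(n)` for `0 ≤ a < q` -/
noncomputable def psiAP (X : ℝ) (q a : ℕ) : ℝ :=
  ∑ n ∈ (Icc 1 ⌊X⌋₊).filter (fun n => n % q = a), ArithmeticFunction.vonMangoldt n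

/-- `G(X,q) = ∑_{a mod q, (a,q)=1} (ψ(X;q,a) - X/φ(q))²` -/
noncomputable def G (X : ℝ) (q : ℕ) : ℝ :=
  ∑ a ∈ (range q).filter (fun a => Nat.Coprime a q), (psiAP X q a - X / (Nat.totient q : ℝ)) ^ 2

lemma G_expand (x : ℝ) (Q : ℕ) (hQ : 1 ≤ Q) :
    G x Q = (∑ n ∈ Icc 1 ⌊x⌋₊, vq Q n ^ 2 + 2 * ∑ h ∈ Icc 1 (⌊x⌋₊ / Q), ∑ n ∈ Icc 1 (⌊x⌋₊ - h * Q), vq Q n * vq Q (n + h * Q)) -
      2 * (x / (Nat.totient Q : ℝ)) * (∑ n ∈ Icc 1 ⌊x⌋₊, vq Q n) + x ^ 2 / (Nat.totient Q : ℝ) := by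
  have hφ : (0 : ℝ) < (Nat.totient Q : ℝ) := by exact_mod_cast Nat.totient_pos.2 hQ
  have hcard : (((range Q).filter (fun a => Nat.Coprime a Q)).card : ℝ) = (Nat.totient Q : ℝ) := by
    rw [Nat.totient_eq_card_coprime]
    congr 2
    ext a
    rw [mem_filter, mem_filter, Nat.coprime_comm]
  have h1 := classes ⌊x⌋₊ Q hQ (fun t => t ^ 2) (by norm_num)
  have h2 := classes ⌊x⌋₊ Q hQ (fun t => t) rfl
  rw [sq_expand _ Q hQ] at h1
  rw [sum_fiberwise_of_maps_to (s := Icc 1 ⌊x⌋₊) (t := range Q) (g := fun n => n % Q) (fun n _ => mem_range.2 (Nat.mod_lt _ hQ))] at h2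
  unfold G psiAP
  have h3 : ∀ a ∈ (range Q).filter (fun a => Nat.Coprime a Q),
      (∑ n ∈ (Icc 1 ⌊x⌋₊).filter (fun n => n % Q = a), ArithmeticFunction.vonMangoldt n - x / (Nat.totient Q : ℝ)) ^ 2 =
      (∑ n ∈ (Icc 1 ⌊x⌋₊).filter (fun n => n % Q = a), ArithmeticFunction.vonMangoldt n) ^ 2 -
      2 * (x / (Nat.totient Q : ℝ)) * (∑ n ∈ (Icc 1 ⌊x⌋₊).filter (fun n => n % Q = a), ArithmeticFunction.vonMangoldt n) + (x / (Nat.totient Q : ℝ)) ^ 2 := by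
    intro a _
    ring
  rw [sum_congr rfl h3, sum_add_distrib, sum_sub_distrib, ← mul_sum, h1, h2, sum_const, nsmul_eq_mul, hcard]
  congr 1
  field_simp

/-- one off-diagonal sum -/
lemma off_one (z Q h X : ℕ) (F D Y L₂ : ℝ) (hQ : 1 ≤ Q) (hQX : Q ≤ X) (hh : 1 ≤ h) (hhX : h * Q ≤ X)
    (hL : Real.log X ≤ L₂) (hω : (Q.primeFactors.card : ℝ) ≤ L₂)
    (hc : |cz z (X - h * Q) (h * Q)| ≤ D)
    (hm : |∑ n ∈ Icc 1 (X - h * Q), ArithmeticFunction.vonMangoldt n * lamzI z ((n : ℤ) + ((h * Q : ℕ) : ℤ)) - ((X - h * Q : ℕ) : ℝ) * F| ≤ Y) :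
    |∑ n ∈ Icc 1 (X - h * Q), vq Q n * vq Q (n + h * Q) - ((X - h * Q : ℕ) : ℝ) * F| ≤ L₂ ^ 3 + D + Y := by
  have hX1 : 1 ≤ X := by omega
  have hX1r : (1 : ℝ) ≤ X := by exact_mod_cast hX1
  have hlX0 : 0 ≤ Real.log X := Real.log_nonneg hX1r
  have hL0 : 0 ≤ L₂ := hlX0.trans hL
  have e1 : ∀ n, vq Q n * vq Q (n + h * Q) = vq Q n * ArithmeticFunction.vonMangoldt (n + h * Q) := by
    intro n
    unfold vq
    have : (n + h * Q).Coprime Q ↔ n.Coprime Q := by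
      rw [Nat.coprime_add_mul_right_left]
    by_cases hn : n.Coprime Q
    · rw [if_pos hn, if_pos (this.2 hn)]
    · rw [if_neg hn, zero_mul, zero_mul]
  have e2 : ∑ n ∈ Icc 1 (X - h * Q), vq Q n * vq Q (n + h * Q) - ((X - h * Q : ℕ) : ℝ) * F =
      -(∑ n ∈ Icc 1 (X - h * Q), (ArithmeticFunction.vonMangoldt n - vq Q n) * ArithmeticFunction.vonMangoldt (n + h * Q)) + cz z (X - h * Q) (h * Q) +
      (∑ n ∈ Icc 1 (X - h * Q), ArithmeticFunction.vonMangoldt n * lamzI z ((n : ℤ) + ((h * Q : ℕ) : ℤ)) - ((X - h * Q : ℕ) : ℝ) * F) := by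
    unfold cz
    have e3 : ∀ n ∈ Icc 1 (X - h * Q), lamI ((n : ℤ) + ((h * Q : ℕ) : ℤ)) = ArithmeticFunction.vonMangoldt (n + h * Q) := by
      intro n hn
      rw [mem_Icc] at hn
      unfold lamI
      rw [if_pos (by omega)]
      congr 1
    have e4 : ∑ n ∈ Icc 1 (X - h * Q), ArithmeticFunction.vonMangoldt n * (lamI ((n : ℤ) + ((h * Q : ℕ) : ℤ)) - lamzI z ((n : ℤ) + ((h * Q : ℕ) : ℤ))) =
        ∑ n ∈ Icc 1 (X - h * Q), ArithmeticFunction.vonMangoldt n * ArithmeticFunction.vonMangoldt (n + h * Q) -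
        ∑ n ∈ Icc 1 (X - h * Q), ArithmeticFunction.vonMangoldt n * lamzI z ((n : ℤ) + ((h * Q : ℕ) : ℤ)) := by
      rw [← sum_sub_distrib]
      apply sum_congr rfl
      intro n hn
      rw [e3 n hn]
      ring
    rw [e4, sum_congr rfl (fun n _ => e1 n)]
    have e5 : ∑ n ∈ Icc 1 (X - h * Q), (ArithmeticFunction.vonMangoldt n - vq Q n) * ArithmeticFunction.vonMangoldt (n + h * Q) =
        ∑ n ∈ Icc 1 (X - h * Q), ArithmeticFunction.vonMangoldt n * ArithmeticFunction.vonMangoldt (n + h * Q) -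
        ∑ n ∈ Icc 1 (X - h * Q), vq Q n * ArithmeticFunction.vonMangoldt (n + h * Q) := by
      rw [← sum_sub_distrib]
      apply sum_congr rfl
      intro n _
      ring
    rw [e5]
    ring
  rw [e2]
  have e6 : |∑ n ∈ Icc 1 (X - h * Q), (ArithmeticFunction.vonMangoldt n - vq Q n) * ArithmeticFunction.vonMangoldt (n + h * Q)| ≤ L₂ ^ 3 := by
    rw [abs_of_nonneg (sum_nonneg fun n _ => mul_nonneg (sub_nonneg.2 (vq_le Q n)) ArithmeticFunction.vonMangoldt_nonneg)]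
    have g1 : ∀ n ∈ Icc 1 (X - h * Q), (ArithmeticFunction.vonMangoldt n - vq Q n) * ArithmeticFunction.vonMangoldt (n + h * Q) ≤
        (ArithmeticFunction.vonMangoldt n - vq Q n) * L₂ := by
      intro n hn
      rw [mem_Icc] at hn
      apply mul_le_mul_of_nonneg_left _ (sub_nonneg.2 (vq_le Q n))
      refine ArithmeticFunction.vonMangoldt_le_log.trans (le_trans ?_ hL)
      exact Real.log_le_log (by exact_mod_cast (by omega : 0 < n + h * Q)) (by exact_mod_cast (by omega : n + h * Q ≤ X))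
    refine (sum_le_sum g1).trans ?_
    rw [← sum_mul]
    have g2 : ∑ n ∈ Icc 1 (X - h * Q), (ArithmeticFunction.vonMangoldt n - vq Q n) ≤ L₂ * L₂ := by
      refine le_trans ?_ ((not_cop Q X hQ hX1).trans (mul_le_mul hω hL hlX0 hL0))
      apply sum_le_sum_of_subset_of_nonneg
      · exact Icc_subset_Icc_right (Nat.sub_le _ _)
      · intro n _ _
        exact sub_nonneg.2 (vq_le Q n)
    calc _ ≤ L₂ * L₂ * L₂ := mul_le_mul_of_nonneg_right g2 hL0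
      _ = L₂ ^ 3 := by ring
  refine (abs_add_le _ _).trans ?_
  have e7 := abs_add_le (-(∑ n ∈ Icc 1 (X - h * Q), (ArithmeticFunction.vonMangoldt n - vq Q n) * ArithmeticFunction.vonMangoldt (n + h * Q))) (cz z (X - h * Q) (h * Q))
  rw [abs_neg] at e7
  linarith

/-- the main term -/
lemma main_sum (z Q : ℕ) (x σ C : ℝ) (hQ : 1 ≤ Q) (hx : (Q : ℝ) ≤ x) (hσ : 0 < σ) (hσ1 : σ ≤ 1)
    (hC : ∀ P : Finset ℕ, ∏ p ∈ P, (1 + 4 * (p : ℝ) ^ (-(1 + σ))) ≤ C) :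
    |2 * ∑ h ∈ Icc 1 (⌊x⌋₊ / Q), (x - ((h * Q : ℕ) : ℝ)) * (CQ z Q * fs ((pz z).filter (fun p => ¬ p ∣ Q)) h) - CQ z Q * (x ^ 2 / Q)| ≤
      2 * CQ z Q * x * (x / Q) ^ σ * C := by
  have hQ0 : (0 : ℝ) < Q := by exact_mod_cast hQ
  have hx0 : 0 < x := by linarith
  obtain ⟨y, hy⟩ : ∃ y, y = x / (Q : ℝ) := ⟨_, rfl⟩
  have hxy : x = Q * y := by rw [hy]; field_simp
  have hy0 : 0 ≤ y := by rw [hy]; positivity
  have hCQ := CQ_one z Q
  have hCQ0 : 0 ≤ CQ z Q := by linarith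
  have h1 : ⌊x⌋₊ / Q = ⌊y⌋₊ := by rw [hy, Nat.floor_div_natCast]
  have h2 : ∑ h ∈ Icc 1 (⌊x⌋₊ / Q), (x - ((h * Q : ℕ) : ℝ)) * (CQ z Q * fs ((pz z).filter (fun p => ¬ p ∣ Q)) h) =
      Q * CQ z Q * ∑ h ∈ Icc 1 ⌊y⌋₊, (y - (h : ℝ)) * fs ((pz z).filter (fun p => ¬ p ∣ Q)) h := by
    rw [h1, mul_sum]
    apply sum_congr rfl
    intro h _
    rw [hxy]
    push_cast
    ring
  rw [h2, ← hy]
  have h3 := sing_avg ((pz z).filter (fun p => ¬ p ∣ Q)) (fun p hp => (mem_pz.1 (mem_filter.1 hp).1).2) y σ hy0 hσ hσ1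
  have h4 : 2 * (Q * CQ z Q * ∑ h ∈ Icc 1 ⌊y⌋₊, (y - (h : ℝ)) * fs ((pz z).filter (fun p => ¬ p ∣ Q)) h) - CQ z Q * (x ^ 2 / Q) =
      2 * Q * CQ z Q * (∑ h ∈ Icc 1 ⌊y⌋₊, (y - (h : ℝ)) * fs ((pz z).filter (fun p => ¬ p ∣ Q)) h - y ^ 2 / 2) := by
    rw [hxy]
    field_simp
  rw [h4, abs_mul, abs_of_nonneg (by positivity)]
  calc 2 * Q * CQ z Q * |_| ≤ 2 * Q * CQ z Q * (y * y ^ σ * C) := by
        apply mul_le_mul_of_nonneg_left _ (by positivity)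
        exact h3.trans (mul_le_mul_of_nonneg_left (hC _) (by positivity))
    _ = _ := by rw [hxy]; ring

end Pool.Agent.TH894.PV
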