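import Pool.Agent.TH894.PV6

set_option autoImplicit false

/-! The variance of the primes in the classes of the moduli which arise by few changes of digits. -/

namespace Pool.Agent.TH894.PV
open Finset
open Pool.Agent.H373R2.T7
open Pool.Agent.W93.DG
open Pool.Agent.TH894.SM (change Win un change_lt)
open Pool.Agent.TH894.LG (Ch card_Ch un_Ch)
open Pool.Agent.TH894.PA (cz mult_P)

theorem var_ch (b : ℕ) (hb : 2 ≤ b) : ∃ R : ℕ, 1 ≤ R ∧ ∀ κ U : ℕ, ∀ ε : ℝ, 0 < ε → ε ≤ 1 → ∃ C₁ : ℕ, 1 ≤ C₁ ∧ ∀ A₀ : ℕ, ∃ A : ℕ, A₀ ≤ A ∧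
    ∃ k₀ : ℕ, ∀ K : ℕ, k₀ ≤ K → ∀ N : ℕ, N < b ^ K → ∀ f : ℕ → ℕ, (∀ j, f j < b ∧ f j ≠ N / b ^ j % b) →
    ∀ r : Fin 3 → ℕ, (∀ q, C₁ * (Nat.log b (K + 1) + 1) ≤ r q) → (∀ q, 8 * R * r q ≤ (Win (hh b A (K + 1)) (K + 1) q).card) →
    ∀ S' ⊆ Ch b A K r, (∀ T ∈ S', ∃ x : ℝ, b ^ K ≤ change b K N f (un T) * K ^ κ ∧ (change b K N f (un T) : ℝ) ≤ x ∧
      x ≤ change b K N f (un T) * (K : ℝ) ^ κ ∧
      ¬ |G x (change b K N f (un T)) - x * Real.log (change b K N f (un T))| ≤ ε * (x * Real.log (change b K N f (un T)))) →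
    (S'.card : ℝ) ≤ 1 / (K : ℝ) ^ U * (Ch b A K r).card := by
  classical
  obtain ⟨R, hR, hV⟩ := mult_P b hb
  refine ⟨R, hR, fun κ U ε hε hε1 => ?_⟩
  obtain ⟨κ', hκ'⟩ : ∃ κ', κ' = κ + 1 := ⟨_, rfl⟩
  obtain ⟨C₁, hC₁, hA⟩ := hV (2 * κ') (4 * κ' + U)
  refine ⟨C₁, by omega, fun A₀ => ?_⟩
  obtain ⟨A, B, hAA, hEz⟩ := hA A₀
  refine ⟨A, hAA, ?_⟩
  obtain ⟨E, hE⟩ : ∃ E, E = B + κ' + 2 := ⟨_, rfl⟩
  obtain ⟨k0, h0⟩ := hEz (E + 1)
  obtain ⟨n1, h1⟩ := det_var κ' ε hε hε1 (E + 1)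
  obtain ⟨n2, h2⟩ := ev_L' (2 ^ κ + 2)
  refine ⟨k0 + n1 + n2 + b + 4, fun K hK N hN f hf r hr hr' S' hS' hSb => ?_⟩
  have hb1 : 1 < b := by omega
  have hbr : (2 : ℝ) ≤ b := by exact_mod_cast hb
  have hKX : K < b ^ K := Nat.lt_pow_self hb1
  have hK0 : (0 : ℝ) < K := by exact_mod_cast (by omega : 0 < K)
  have hK1 : (1 : ℝ) ≤ K := by exact_mod_cast (by omega : 1 ≤ K)
  have hKb : (b : ℝ) ≤ K := by exact_mod_cast (by omega : b ≤ K)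
  obtain ⟨L, hL⟩ : ∃ L, L = Real.log ((b ^ K : ℕ) : ℝ) := ⟨_, rfl⟩
  obtain ⟨q1, q2⟩ := logX b K hb
  rw [← hL] at q1 q2
  have hLK2 : L ≤ (K : ℝ) ^ 2 := by
    rw [pow_two]
    exact q2.trans (mul_le_mul_of_nonneg_right hKb hK0.le)
  have hLb := h2 (b ^ K) (by omega)
  rw [← hL] at hLb
  have q3 : (0 : ℝ) < 2 ^ κ := by positivity
  have hL1 : 1 ≤ L := by linarith
  have hL0 : 0 < L := by linarith
  have hKL : (K : ℝ) ^ κ ≤ L ^ κ' := by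
    calc (K : ℝ) ^ κ ≤ (2 * L) ^ κ := pow_le_pow_left₀ hK0.le (by linarith) _
      _ = 2 ^ κ * L ^ κ := mul_pow _ _ _
      _ ≤ L * L ^ κ := mul_le_mul_of_nonneg_right (by linarith) (by positivity)
      _ = L ^ κ' := by rw [hκ']; ring
  have hLK : L ^ κ' ≤ (K : ℝ) ^ (2 * κ') := by
    rw [pow_mul]
    exact pow_le_pow_left₀ hL0.le hLK2 _
  obtain ⟨z, hz⟩ : ∃ z, z = ⌈L ^ E⌉₊ := ⟨_, rfl⟩
  have hz1 : L ^ E ≤ z := by rw [hz]; exact Nat.le_ceil _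
  have hz2 : (z : ℝ) ≤ L ^ (E + 1) := by
    have q1 : (z : ℝ) < L ^ E + 1 := by rw [hz]; exact Nat.ceil_lt_add_one (by positivity)
    have q2 : 1 ≤ L ^ E := one_le_pow₀ hL1
    rw [pow_succ]
    nlinarith
  obtain ⟨S, hS, hScard, hgood⟩ := h0 K (by omega) z (by rw [← hL]; exact (pow_le_pow_right₀ hL1 (by omega)).trans hz1)
    (by rw [← hL]; exact hz2) N hN f hf r hr hr'
  have hsub : S' ⊆ S := by
    intro T hT
    by_contra hTS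
    obtain ⟨x, hx1, hx2, hx3, hx4⟩ := hSb T hT
    apply hx4
    have hcl : change b K N f (un T) < b ^ K := change_lt b K N (by omega) f (fun j => (hf j).1) _
    apply h1 (b ^ K) (by omega) z (by rw [← hL]; exact (pow_le_pow_right₀ hL1 (by omega)).trans hz1) (by rw [← hL]; exact hz2)
      _ hcl.le
    · rw [← hL]
      have e1 : ((b ^ K : ℕ) : ℝ) ≤ (change b K N f (un T) : ℝ) * (K : ℝ) ^ κ := by exact_mod_cast hx1
      exact e1.trans (mul_le_mul_of_nonneg_left hKL (Nat.cast_nonneg _))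
    · exact hx2
    · rw [← hL]
      exact hx3.trans (mul_le_mul_of_nonneg_left hKL (Nat.cast_nonneg _))
    · intro h hh1 hh2 N₁ hN₁
      rw [← hL] at hh2 hN₁ ⊢
      have e1 : h ≤ K ^ (2 * κ') := by exact_mod_cast hh2.trans hLK
      have e2 : N₁ ≤ b ^ K * K ^ (2 * κ') := by
        have e3 : (N₁ : ℝ) ≤ ((b ^ K : ℕ) : ℝ) * (K : ℝ) ^ (2 * κ') := hN₁.trans (mul_le_mul_of_nonneg_left hLK (Nat.cast_nonneg _))
        exact_mod_cast e3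
      refine (hgood T (hS' hT) hTS h hh1 e1 N₁ e2).trans ?_
      push_cast
      apply div_le_div_of_nonneg_left (by positivity) (by positivity)
      calc L ^ (2 * κ') = (L ^ κ') ^ 2 := by rw [← pow_mul, mul_comm]
        _ ≤ ((K : ℝ) ^ (2 * κ')) ^ 2 := pow_le_pow_left₀ (by positivity) hLK 2
        _ = (K : ℝ) ^ (4 * κ') := by rw [← pow_mul]; congr 1; ring
        _ ≤ (K : ℝ) ^ (4 * κ' + U) := pow_le_pow_right₀ hK1 (by omega)
  have e1 : (S'.card : ℝ) ≤ S.card := by exact_mod_cast card_le_card hsub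
  refine e1.trans (hScard.trans ?_)
  apply mul_le_mul_of_nonneg_right _ (Nat.cast_nonneg _)
  apply one_div_le_one_div_of_le (by positivity)
  exact pow_le_pow_right₀ hK1 (by omega)

end Pool.Agent.TH894.PV
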