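import Pool.Agent.TH894.PV7

set_option autoImplicit false

/-! Least primes in almost all classes of one modulus. -/

namespace Pool.Agent.TH894.PV
open Finset
open Pool.Agent.H373R2.T7

open Classical in
/-- the classes without a prime up to `x` -/
noncomputable def noP (x : ℝ) (Q : ℕ) : Finset ℕ :=
  ((range Q).filter (fun a => Nat.Coprime a Q)).filter (fun a => ∀ p : ℕ, p.Prime → (p : ℝ) ≤ x → p % Q ≠ a)

open Pool.Agent.W110.HV (uR uR_le uR_nonneg vdiff)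

lemma cs_classes (x : ℝ) (Q : ℕ) (hQ : 1 ≤ Q) :
    (∑ n ∈ Icc 1 ⌊x⌋₊, (if n.Coprime Q then uR ⌊x⌋₊ n else 0)) ^ 2 ≤
      ((Nat.totient Q : ℝ) - (noP x Q).card) * ∑ a ∈ (range Q).filter (fun a => Nat.Coprime a Q), psiAP x Q a ^ 2 := by
  classical
  obtain ⟨X, hX⟩ : ∃ X, X = ⌊x⌋₊ := ⟨_, rfl⟩
  obtain ⟨w, hw⟩ : ∃ w : ℕ → ℝ, w = fun n => if n.Coprime Q then uR X n else 0 := ⟨_, rfl⟩
  obtain ⟨R, hR⟩ : ∃ R, R = (range Q).filter (fun a => Nat.Coprime a Q) := ⟨_, rfl⟩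
  have hc : ∀ n, ((n % Q).Coprime Q ↔ n.Coprime Q) := by
    intro n
    unfold Nat.Coprime
    rw [Nat.gcd_comm n Q, Nat.gcd_rec Q n]
  have h1 : ∑ n ∈ Icc 1 X, w n = ∑ a ∈ R, ∑ n ∈ (Icc 1 X).filter (fun n => n % Q = a), w n := by
    have e1 : ∑ n ∈ Icc 1 X, w n = ∑ a ∈ range Q, ∑ n ∈ (Icc 1 X).filter (fun n => n % Q = a), w n := by
      rw [sum_fiberwise_of_maps_to (s := Icc 1 X) (t := range Q) (g := fun n => n % Q) (fun n _ => mem_range.2 (Nat.mod_lt _ hQ))]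
    rw [e1, hR, sum_filter]
    apply sum_congr rfl
    intro a _
    split_ifs with h
    · rfl
    · apply sum_eq_zero
      intro n hn
      rw [mem_filter] at hn
      rw [hw]
      simp only
      rw [if_neg]
      intro hcon
      apply h
      rw [← hn.2]
      exact (hc n).2 hcon
  have h2 : ∀ a ∈ noP x Q, ∑ n ∈ (Icc 1 X).filter (fun n => n % Q = a), w n = 0 := by
    intro a ha
    unfold noP at ha
    rw [mem_filter] at ha
    apply sum_eq_zero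
    intro n hn
    rw [mem_filter] at hn
    rw [hw]
    simp only
    split_ifs with h
    · unfold uR
      rw [if_neg]
      rintro ⟨h3, _⟩
      apply ha.2 n h3 _ hn.2
      have h5 := (mem_Icc.1 hn.1).2
      rw [hX] at h5
      exact (Nat.le_floor_iff' h3.ne_zero).1 h5
    · rfl
  have hsub : noP x Q ⊆ R := by rw [hR]; exact filter_subset _ _
  have h3 : ∑ a ∈ R, ∑ n ∈ (Icc 1 X).filter (fun n => n % Q = a), w n = ∑ a ∈ R \ noP x Q, ∑ n ∈ (Icc 1 X).filter (fun n => n % Q = a), w n := by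
    rw [← sum_sdiff hsub, sum_eq_zero h2, add_zero]
  have h4 : ∀ a ∈ R \ noP x Q, |∑ n ∈ (Icc 1 X).filter (fun n => n % Q = a), w n| ≤ psiAP x Q a := by
    intro a _
    have hw0 : ∀ n, 0 ≤ w n := by
      intro n
      rw [hw]
      simp only
      split_ifs
      · exact uR_nonneg X n
      · exact le_rfl
    rw [abs_of_nonneg (sum_nonneg fun n _ => hw0 n)]
    unfold psiAP
    rw [← hX]
    apply sum_le_sum
    intro n _
    rw [hw]
    simp only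
    split_ifs
    · exact uR_le X n
    · exact ArithmeticFunction.vonMangoldt_nonneg
  have hcard : ((R \ noP x Q).card : ℝ) = (Nat.totient Q : ℝ) - (noP x Q).card := by
    rw [card_sdiff_of_subset hsub, Nat.cast_sub (card_le_card hsub)]
    congr 1
    rw [Nat.totient_eq_card_coprime, hR]
    congr 2
    ext a
    rw [mem_filter, mem_filter, Nat.coprime_comm]
  rw [← hX, ← hR]
  have hwe : ∑ n ∈ Icc 1 X, (if n.Coprime Q then uR X n else 0) = ∑ n ∈ Icc 1 X, w n := by rw [hw]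
  rw [hwe, h1, h3, ← hcard]
  refine (sq_sum_le_card_mul_sum_sq (s := R \ noP x Q) (f := fun a => ∑ n ∈ (Icc 1 X).filter (fun n => n % Q = a), w n)).trans ?_
  apply mul_le_mul_of_nonneg_left _ (Nat.cast_nonneg _)
  calc ∑ a ∈ R \ noP x Q, (∑ n ∈ (Icc 1 X).filter (fun n => n % Q = a), w n) ^ 2 ≤ ∑ a ∈ R \ noP x Q, psiAP x Q a ^ 2 := by
        apply sum_le_sum
        intro a ha
        rw [← sq_abs]
        exact pow_le_pow_left₀ (abs_nonneg _) (h4 a ha) 2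
    _ ≤ _ := sum_le_sum_of_subset_of_nonneg sdiff_subset (fun _ _ _ => sq_nonneg _)

/-- the second moment -/
lemma second_moment (x : ℝ) (Q : ℕ) (hQ : 1 ≤ Q) :
    ∑ a ∈ (range Q).filter (fun a => Nat.Coprime a Q), psiAP x Q a ^ 2 =
      G x Q + 2 * (x / (Nat.totient Q : ℝ)) * (∑ n ∈ Icc 1 ⌊x⌋₊, vq Q n) - x ^ 2 / (Nat.totient Q : ℝ) := by
  have h1 := classes ⌊x⌋₊ Q hQ (fun t => t ^ 2) (by norm_num)
  rw [sq_expand _ Q hQ] at h1
  unfold psiAP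
  rw [h1, G_expand x Q hQ]
  ring

/-- the final inequality -/
lemma fin_ineq (φ x l N δ ε S P : ℝ) (hφ : 0 < φ) (hx : 0 < x) (hl : 0 < l) (hδ0 : 0 ≤ δ)
    (hε : 0 < ε) (hN0 : 0 ≤ N) (hδ : 16 * δ * x ≤ ε * (φ * l))
    (hS : S ≤ (1 + ε / 4) * (x * l) + 2 * (x / φ) * P - x ^ 2 / φ) (hP : P ≤ (1 + δ) * x)
    (hcs : ((1 - δ) * x) ^ 2 ≤ (φ - N) * S) (hNφ : N ≤ φ) :
    N * (x + φ * l) ≤ (1 + ε) * φ * (φ * l) := by
  have h1 : S ≤ (x / φ) * ((1 + 2 * δ) * x + (1 + ε / 4) * (φ * l)) := by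
    have e1 : 2 * (x / φ) * P ≤ 2 * (x / φ) * ((1 + δ) * x) := mul_le_mul_of_nonneg_left hP (by positivity)
    have e2 : (x / φ) * ((1 + 2 * δ) * x + (1 + ε / 4) * (φ * l)) = (1 + ε / 4) * (x * l) + 2 * (x / φ) * ((1 + δ) * x) - x ^ 2 / φ := by
      field_simp
      ring
    linarith
  have h2 : ((1 - δ) * x) ^ 2 ≤ (φ - N) * ((x / φ) * ((1 + 2 * δ) * x + (1 + ε / 4) * (φ * l))) :=
    hcs.trans (mul_le_mul_of_nonneg_left h1 (by linarith))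
  have h3 : (1 - δ) ^ 2 * x * φ ≤ (φ - N) * ((1 + 2 * δ) * x + (1 + ε / 4) * (φ * l)) := by
    have e1 : (φ - N) * ((x / φ) * ((1 + 2 * δ) * x + (1 + ε / 4) * (φ * l))) = (x / φ) * ((φ - N) * ((1 + 2 * δ) * x + (1 + ε / 4) * (φ * l))) := by ring
    rw [e1] at h2
    have e2 : ((1 - δ) * x) ^ 2 = (x / φ) * ((1 - δ) ^ 2 * x * φ) := by field_simp
    rw [e2] at h2
    exact le_of_mul_le_mul_left h2 (by positivity)
  have hs : 0 < φ * l := by positivity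
  obtain ⟨s, hsd⟩ : ∃ s, s = φ * l := ⟨_, rfl⟩
  rw [← hsd] at h3 hδ hs ⊢
  have h4 : (1 - 2 * δ) * (x * φ) ≤ (1 - δ) ^ 2 * x * φ := by
    have : (1 - δ) ^ 2 * x * φ - (1 - 2 * δ) * (x * φ) = δ ^ 2 * (x * φ) := by ring
    have h5 : 0 ≤ δ ^ 2 * (x * φ) := by positivity
    linarith
  have h5 : 0 ≤ N * (2 * δ * x + ε / 4 * s) := by positivity
  have h6 : (φ - N) * ((1 + 2 * δ) * x + (1 + ε / 4) * s) = φ * x + φ * (2 * δ * x) + φ * s + φ * (ε / 4 * s) - N * (x + s) - N * (2 * δ * x + ε / 4 * s) := by ring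
  rw [h6] at h3
  have h7 : (1 - 2 * δ) * (x * φ) = φ * x - φ * (2 * δ * x) := by ring
  rw [h7] at h4
  have h8 : φ * (4 * δ * x) ≤ φ * (ε / 4 * s) := mul_le_mul_of_nonneg_left (by linarith) hφ.le
  have h9 : φ * (4 * δ * x) = φ * (2 * δ * x) + φ * (2 * δ * x) := by ring
  have h10 : (1 + ε) * φ * s = φ * s + φ * (ε / 4 * s) + φ * (ε / 4 * s) + φ * (ε / 2 * s) := by ring
  have h11 : 0 ≤ φ * (ε / 2 * s) := by positivity
  linarith

theorem lp_det (κ : ℕ) (ε : ℝ) (hε : 0 < ε) (hε1 : ε ≤ 1) : ∃ Y₀ : ℕ, ∀ Y : ℕ, Y₀ ≤ Y → ∀ Q : ℕ, Q ≤ Y → (Y : ℝ) ≤ Q * Real.log Y ^ κ →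
    ∀ x : ℝ, (Q : ℝ) ≤ x → x ≤ Q * Real.log Y ^ κ → |G x Q - x * Real.log Q| ≤ ε / 4 * (x * Real.log Q) →
    ((noP x Q).card : ℝ) * (x + (Nat.totient Q : ℝ) * Real.log Q) ≤ (1 + ε) * (Nat.totient Q : ℝ) * ((Nat.totient Q : ℝ) * Real.log Q) := by
  obtain ⟨C, hC, n1, h1⟩ := first (κ + 1)
  obtain ⟨C', hC', hvd⟩ := vdiff
  obtain ⟨n2, h2⟩ := Vz_inv_small 3
  obtain ⟨n3, h3⟩ := ev_log' (2 * κ + 6) ((C' + 8) ^ 2)
  obtain ⟨n4, h4⟩ := ev_L' (96 * (C * 2 ^ (κ + 1) + 3) / ε + C * 2 ^ (κ + 1) + 16)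
  refine ⟨n1 * n1 + n2 + n3 + n4 + 16, fun Y hY Q hQY hYQ x hQx hxQ hG => ?_⟩
  have a3 := h3 Y (by nlinarith)
  have a4 := h4 Y (by nlinarith)
  obtain ⟨L, hL⟩ : ∃ L, L = Real.log (Y : ℝ) := ⟨_, rfl⟩
  rw [← hL] at a3 a4 hYQ hxQ
  have p1 : 0 ≤ 96 * (C * 2 ^ (κ + 1) + 3) / ε := by positivity
  have p2 : 0 ≤ C * 2 ^ (κ + 1) := by positivity
  have hL16 : 16 ≤ L := by linarith
  have hL1 : 1 ≤ L := by linarith
  have hL0 : 0 < L := by linarith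
  have hYn : 0 < Y := by omega
  have hY0 : (0 : ℝ) < Y := by exact_mod_cast hYn
  have hLκ : 0 < L ^ κ := by positivity
  have hLκ1 : 1 ≤ L ^ κ := one_le_pow₀ hL1
  have hss : √(Y : ℝ) * √(Y : ℝ) = Y := Real.mul_self_sqrt hY0.le
  have hs0 : 0 < √(Y : ℝ) := Real.sqrt_pos.2 hY0
  have hQ0 : (0 : ℝ) < Q := by
    by_contra hcon
    push Not at hcon
    have : (Q : ℝ) * L ^ κ ≤ 0 := mul_nonpos_of_nonpos_of_nonneg hcon hLκ.le
    linarith
  have hQ : 1 ≤ Q := by exact_mod_cast hQ0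
  have hLs : (C' + 8) ^ 2 * L ^ (2 * κ + 6) ≤ √Y := a3
  have hLκs : L ^ κ ≤ √Y := by
    have e1 : L ^ κ ≤ L ^ (2 * κ + 6) := pow_le_pow_right₀ hL1 (by omega)
    have e2 : 0 ≤ L ^ (2 * κ + 6) := by positivity
    have e3 : (1 : ℝ) ≤ (C' + 8) ^ 2 := one_le_pow₀ (by linarith)
    have e4 : 1 * L ^ (2 * κ + 6) ≤ (C' + 8) ^ 2 * L ^ (2 * κ + 6) := mul_le_mul_of_nonneg_right e3 e2
    linarith
  have hQs : √(Y : ℝ) ≤ Q := by
    have e1 : √(Y : ℝ) * L ^ κ ≤ Q * L ^ κ := by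
      calc √(Y : ℝ) * L ^ κ ≤ √Y * √Y := mul_le_mul_of_nonneg_left hLκs hs0.le
        _ = Y := hss
        _ ≤ _ := hYQ
    exact le_of_mul_le_mul_right e1 hLκ
  obtain ⟨l, hl⟩ : ∃ l, l = Real.log (Q : ℝ) := ⟨_, rfl⟩
  have hl1 : L / 2 ≤ l := by
    have e1 := Real.log_le_log hs0 hQs
    rw [Real.log_sqrt hY0.le, ← hL, ← hl] at e1
    exact e1
  have hl2 : l ≤ L := by
    rw [hl, hL]
    exact Real.log_le_log hQ0 (by exact_mod_cast hQY)
  have hl0 : 0 < l := by linarith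
  have hx0 : 0 < x := by linarith
  obtain ⟨X, hX⟩ : ∃ X, X = ⌊x⌋₊ := ⟨_, rfl⟩
  have hXx : (X : ℝ) ≤ x := by rw [hX]; exact Nat.floor_le hx0.le
  have hxX : x < X + 1 := by rw [hX]; exact Nat.lt_floor_add_one x
  have hQX : Q ≤ X := by rw [hX]; exact Nat.le_floor hQx
  have hX1 : 1 ≤ X := by omega
  have hX0 : (0 : ℝ) < X := by exact_mod_cast hX1
  have hQXr : (Q : ℝ) ≤ X := by exact_mod_cast hQX
  have hXn : n1 ≤ X := by
    have e1 : (n1 : ℝ) ≤ √Y := by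
      apply Real.le_sqrt_of_sq_le
      rw [pow_two]
      exact_mod_cast (by nlinarith : n1 * n1 ≤ Y)
    have e2 : (n1 : ℝ) ≤ X := e1.trans (hQs.trans hQXr)
    exact_mod_cast e2
  have hlX3 : l ≤ Real.log X := by rw [hl]; exact Real.log_le_log hQ0 hQXr
  have hxY : x ≤ Y * L ^ κ := hxQ.trans (mul_le_mul_of_nonneg_right (by exact_mod_cast hQY) hLκ.le)
  have hlX : Real.log X ≤ 2 * L := by
    have e1 : (X : ℝ) ≤ Y * Y := by
      refine hXx.trans (hxY.trans ?_)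
      apply mul_le_mul_of_nonneg_left _ hY0.le
      have : √(Y : ℝ) ≤ Y := by
        have g1 : 1 ≤ √(Y : ℝ) := by rw [Real.one_le_sqrt]; exact_mod_cast hYn
        nlinarith
      linarith
    have e2 := Real.log_le_log hX0 e1
    rw [Real.log_mul hY0.ne' hY0.ne', ← hL] at e2
    linarith
  have hω : (Q.primeFactors.card : ℝ) ≤ 2 * L := (card_pf Q hQ).trans (by rw [← hl]; linarith)
  -- Euler's function
  have hφ : (0 : ℝ) < (Nat.totient Q : ℝ) := by exact_mod_cast Nat.totient_pos.2 hQ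
  obtain ⟨φ, hφd⟩ : ∃ φ : ℝ, φ = (Nat.totient Q : ℝ) := ⟨_, rfl⟩
  have hQφ : (Q : ℝ) / φ ≤ 3 * L := by
    obtain ⟨z, hz⟩ : ∃ z, z = ⌈L ^ 2⌉₊ := ⟨_, rfl⟩
    have hz1 : L ^ 2 ≤ z := by rw [hz]; exact Nat.le_ceil _
    have hz2 : (z : ℝ) ≤ L ^ 3 := by
      have q1 : (z : ℝ) < L ^ 2 + 1 := by rw [hz]; exact Nat.ceil_lt_add_one (by positivity)
      have q2 : 1 ≤ L ^ 2 := one_le_pow₀ hL1
      have q3 : L ^ 3 = L ^ 2 * L := by ring
      rw [q3]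
      nlinarith
    have hz3 : 1 ≤ z := by
      have : (1 : ℝ) ≤ z := (one_le_pow₀ hL1).trans hz1
      exact_mod_cast this
    have hz0 : (0 : ℝ) < z := by exact_mod_cast hz3
    have hωz : (Q.primeFactors.card : ℝ) ≤ z := by nlinarith
    obtain ⟨_, t2⟩ := totient_fac z Q hz3 hQ hωz
    have e0 := h2 Y (by nlinarith) z hz3 (by rw [← hL]; exact hz2)
    rw [← hL] at e0
    have e1 : (Q.primeFactors.card : ℝ) / z ≤ 1 := by rw [div_le_one hz0]; exact hωz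
    have e3 : CQ z Q ≤ L := (CQ_le z Q).trans e0
    have e4 := CQ_one z Q
    have e2 : CQ z Q * (1 + 2 * (Q.primeFactors.card / z)) ≤ CQ z Q * 3 := mul_le_mul_of_nonneg_left (by linarith) (by linarith)
    rw [hφd]
    linarith
  have hφQ : φ ≤ Q := by rw [hφd]; exact_mod_cast Nat.totient_le Q
  rw [← hφd] at hφ
  have hQφ2 : (Q : ℝ) ≤ 6 * (φ * l) := by
    rw [div_le_iff₀ hφ] at hQφ
    nlinarith
  -- the error
  obtain ⟨δ, hδd⟩ : ∃ δ, δ = (C * 2 ^ (κ + 1) + 3) / L ^ (κ + 1) := ⟨_, rfl⟩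
  have hδ0 : 0 ≤ δ := by rw [hδd]; positivity
  have hδ1 : δ ≤ 1 := by
    rw [hδd, div_le_one (by positivity)]
    have : L ≤ L ^ (κ + 1) := le_self_pow₀ hL1 (by omega)
    linarith
  have hδx : 16 * δ * x ≤ ε * (φ * l) := by
    have e1 : δ * L ^ κ = (C * 2 ^ (κ + 1) + 3) / L := by
      rw [hδd, pow_succ L κ]
      field_simp
    have e2 : (C * 2 ^ (κ + 1) + 3) / L ≤ ε / 96 := by
      rw [div_le_div_iff₀ hL0 (by norm_num)]
      have : 96 * (C * 2 ^ (κ + 1) + 3) / ε ≤ L := by linarith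
      rw [div_le_iff₀ hε] at this
      linarith
    calc 16 * δ * x ≤ 16 * δ * (Q * L ^ κ) := mul_le_mul_of_nonneg_left hxQ (by positivity)
      _ = 16 * (δ * L ^ κ) * Q := by ring
      _ ≤ 16 * (ε / 96) * (6 * (φ * l)) := by
          rw [e1]
          apply mul_le_mul _ hQφ2 hQ0.le (by positivity)
          linarith
      _ = ε * (φ * l) := by ring
  have hfirst := h1 X hXn Q hQ hQX
  have hCx : C * ((X : ℝ) / Real.log X ^ (κ + 1)) ≤ (C * 2 ^ (κ + 1)) / L ^ (κ + 1) * x := by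
    have g5 : (L / 2) ^ (κ + 1) ≤ Real.log X ^ (κ + 1) := pow_le_pow_left₀ (by positivity) (hl1.trans hlX3) _
    calc C * ((X : ℝ) / Real.log X ^ (κ + 1)) ≤ C * (x / (L / 2) ^ (κ + 1)) := by
          apply mul_le_mul_of_nonneg_left _ hC.le
          exact div_le_div₀ hx0.le hXx (by positivity) g5
      _ = _ := by rw [div_pow]; field_simp
  have hsmall : 1 + C' * √X + 2 * L * (2 * L) ≤ 3 / L ^ (κ + 1) * x := by
    have g1 : √(X : ℝ) ≤ √x := Real.sqrt_le_sqrt hXx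
    have g0 : √x * √x = x := Real.mul_self_sqrt hx0.le
    have g2 : √(Y : ℝ) ≤ x := hQs.trans hQx
    have g3 : 0 < √x := Real.sqrt_pos.2 hx0
    obtain ⟨T, hT⟩ : ∃ T, T = √x := ⟨_, rfl⟩
    rw [← hT] at g0 g1 g3
    have g5 : (C' + 8) * L ^ (κ + 3) ≤ T := by
      rw [hT]
      apply Real.le_sqrt_of_sq_le
      have e1 : ((C' + 8) * L ^ (κ + 3)) ^ 2 = (C' + 8) ^ 2 * L ^ (2 * κ + 6) := by rw [mul_pow, ← pow_mul]; congr 2; ring
      rw [e1]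
      linarith
    have hLk1 : 0 < L ^ (κ + 1) := by positivity
    have e2 : L ^ (κ + 3) = L ^ (κ + 1) * L ^ 2 := by rw [← pow_add]
    have e20 : 1 ≤ L ^ 2 := one_le_pow₀ hL1
    have e21 : L ^ (κ + 1) ≤ L ^ (κ + 3) := pow_le_pow_right₀ hL1 (by omega)
    have e22 : (C' + 8) * L ^ (κ + 3) = C' * L ^ (κ + 3) + 8 * L ^ (κ + 3) := by ring
    have e23 : 0 ≤ L ^ (κ + 3) := by positivity
    have e24 : C' * L ^ (κ + 1) ≤ C' * L ^ (κ + 3) := mul_le_mul_of_nonneg_left e21 hC'.le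
    have e25 : 0 ≤ C' * L ^ (κ + 3) := by positivity
    have e3 : C' * √X * L ^ (κ + 1) ≤ x := by
      calc C' * √X * L ^ (κ + 1) = (C' * L ^ (κ + 1)) * √X := by ring
        _ ≤ T * T := mul_le_mul (by linarith) g1 (Real.sqrt_nonneg _) g3.le
        _ = x := g0
    have e4 : (1 + 2 * L * (2 * L)) * L ^ (κ + 1) ≤ x := by
      have f1 : (1 + 2 * L * (2 * L)) * L ^ (κ + 1) ≤ 8 * L ^ 2 * L ^ (κ + 1) := by
        apply mul_le_mul_of_nonneg_right _ hLk1.le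
        have : 2 * L * (2 * L) = 4 * L ^ 2 := by ring
        linarith
      have f2 : 8 * L ^ 2 * L ^ (κ + 1) = 8 * L ^ (κ + 3) := by rw [e2]; ring
      have f3 : 1 ≤ T := by
        have : 1 ≤ L ^ (κ + 3) := one_le_pow₀ hL1
        linarith
      have f4 : T ≤ T * T := le_mul_of_one_le_left g3.le f3
      linarith
    rw [div_mul_eq_mul_div, le_div_iff₀ hLk1]
    have e5 : (1 + C' * √X + 2 * L * (2 * L)) * L ^ (κ + 1) = C' * √X * L ^ (κ + 1) + (1 + 2 * L * (2 * L)) * L ^ (κ + 1) := by ring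
    rw [e5]
    linarith
  obtain ⟨P, hP⟩ : ∃ P, P = ∑ n ∈ Icc 1 X, vq Q n := ⟨_, rfl⟩
  obtain ⟨S, hS⟩ : ∃ S, S = ∑ a ∈ (range Q).filter (fun a => Nat.Coprime a Q), psiAP x Q a ^ 2 := ⟨_, rfl⟩
  have hδsum : δ * x = (C * 2 ^ (κ + 1)) / L ^ (κ + 1) * x + 3 / L ^ (κ + 1) * x := by rw [hδd]; ring
  have hpos2 : 0 ≤ C' * √X + 2 * L * (2 * L) := by positivity
  rw [← hP] at hfirst
  have hfirst2 := hfirst.trans hCx
  rw [abs_le] at hfirst2
  have hPx : P ≤ (1 + δ) * x := by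
    have : (1 + δ) * x = x + δ * x := by ring
    rw [this, hδsum]
    linarith
  have hw : (1 - δ) * x ≤ ∑ n ∈ Icc 1 X, (if n.Coprime Q then uR X n else 0) := by
    have e1 : ∑ n ∈ Icc 1 X, uR X n - ∑ n ∈ Icc 1 X, (ArithmeticFunction.vonMangoldt n - vq Q n) ≤
        ∑ n ∈ Icc 1 X, (if n.Coprime Q then uR X n else 0) := by
      rw [← sum_sub_distrib]
      apply sum_le_sum
      intro n _
      unfold vq
      have := uR_le X n
      split_ifs <;> linarith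
    have e2 := not_cop Q X hQ hX1
    have e3 : (Q.primeFactors.card : ℝ) * Real.log X ≤ 2 * L * (2 * L) :=
      mul_le_mul hω hlX (Real.log_nonneg (by exact_mod_cast hX1)) (by positivity)
    have e4 := hvd X
    rw [sum_sub_distrib] at e4
    have e5 : P ≤ ∑ n ∈ Icc 1 X, ArithmeticFunction.vonMangoldt n := by
      rw [hP]
      exact sum_le_sum fun n _ => vq_le Q n
    have e6 : (1 - δ) * x = x - δ * x := by ring
    rw [e6, hδsum]
    linarith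
  have hcs := cs_classes x Q hQ
  rw [← hX, ← hφd, ← hS] at hcs
  have hSm := second_moment x Q hQ
  rw [← hX, ← hφd, ← hS, ← hP] at hSm
  rw [← hl] at hG
  have hN1 : ((noP x Q).card : ℝ) ≤ φ := by
    rw [hφd, Nat.totient_eq_card_coprime]
    have e1 : (noP x Q).card ≤ ((range Q).filter (fun a => Nat.Coprime a Q)).card := by
      classical
      unfold noP
      exact card_le_card (filter_subset _ _)
    have e2 : ((range Q).filter (fun a => Nat.Coprime a Q)) = ((range Q).filter (fun a => Nat.Coprime Q a)) := by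
      ext a
      rw [mem_filter, mem_filter, Nat.coprime_comm]
    rw [e2] at e1
    exact_mod_cast e1
  rw [← hφd, ← hl]
  refine fin_ineq φ x l _ δ ε S P hφ hx0 hl0 hδ0 hε (Nat.cast_nonneg _) hδx ?_ hPx ?_ hN1
  · rw [hSm]
    have := (abs_le.1 hG).2
    have e1 : (1 + ε / 4) * (x * l) = x * l + ε / 4 * (x * l) := by ring
    rw [e1]
    linarith
  · refine le_trans ?_ hcs
    apply pow_le_pow_left₀ _ hw
    apply mul_nonneg _ hx0.le
    linarith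

open Pool.Agent.W93.DG
open Pool.Agent.TH894.SM (change Win un change_lt)
open Pool.Agent.TH894.LG (Ch card_Ch un_Ch)

theorem lp_ch (b : ℕ) (hb : 2 ≤ b) : ∃ R : ℕ, 1 ≤ R ∧ ∀ κ U : ℕ, ∀ ε : ℝ, 0 < ε → ε ≤ 1 → ∃ C₁ : ℕ, 1 ≤ C₁ ∧ ∀ A₀ : ℕ, ∃ A : ℕ, A₀ ≤ A ∧
    ∃ k₀ : ℕ, ∀ K : ℕ, k₀ ≤ K → ∀ N : ℕ, N < b ^ K → ∀ f : ℕ → ℕ, (∀ j, f j < b ∧ f j ≠ N / b ^ j % b) →
    ∀ r : Fin 3 → ℕ, (∀ q, C₁ * (Nat.log b (K + 1) + 1) ≤ r q) → (∀ q, 8 * R * r q ≤ (Win (hh b A (K + 1)) (K + 1) q).card) →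
    ∀ S' ⊆ Ch b A K r, (∀ T ∈ S', ∃ x : ℝ, b ^ K ≤ change b K N f (un T) * K ^ κ ∧ (change b K N f (un T) : ℝ) ≤ x ∧
      x ≤ change b K N f (un T) * (K : ℝ) ^ κ ∧
      ¬ ((noP x (change b K N f (un T))).card : ℝ) * (x + (Nat.totient (change b K N f (un T)) : ℝ) * Real.log (change b K N f (un T))) ≤
        (1 + ε) * (Nat.totient (change b K N f (un T)) : ℝ) * ((Nat.totient (change b K N f (un T)) : ℝ) * Real.log (change b K N f (un T)))) →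
    (S'.card : ℝ) ≤ 1 / (K : ℝ) ^ U * (Ch b A K r).card := by
  classical
  obtain ⟨R, hR, hV⟩ := var_ch b hb
  refine ⟨R, hR, fun κ U ε hε hε1 => ?_⟩
  obtain ⟨C₁, hC₁, hA⟩ := hV κ U (ε / 4) (by positivity) (by linarith)
  refine ⟨C₁, hC₁, fun A₀ => ?_⟩
  obtain ⟨A, hAA, k0, h0⟩ := hA A₀
  refine ⟨A, hAA, ?_⟩
  obtain ⟨n1, h1⟩ := lp_det (κ + 1) ε hε hε1
  obtain ⟨n2, h2⟩ := ev_L' (2 ^ κ + 2)
  refine ⟨k0 + n1 + n2 + b + 4, fun K hK N hN f hf r hr hr' S' hS' hSb => ?_⟩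
  refine h0 K (by omega) N hN f hf r hr hr' S' hS' ?_
  intro T hT
  obtain ⟨x, hx1, hx2, hx3, hx4⟩ := hSb T hT
  refine ⟨x, hx1, hx2, hx3, fun hG => hx4 ?_⟩
  have hb1 : 1 < b := by omega
  have hKX : K < b ^ K := Nat.lt_pow_self hb1
  have hK0 : (0 : ℝ) < K := by exact_mod_cast (by omega : 0 < K)
  obtain ⟨L, hL⟩ : ∃ L, L = Real.log ((b ^ K : ℕ) : ℝ) := ⟨_, rfl⟩
  obtain ⟨q1, q2⟩ := logX b K hb
  rw [← hL] at q1 q2
  have hLb := h2 (b ^ K) (by omega)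
  rw [← hL] at hLb
  have q3 : (0 : ℝ) < 2 ^ κ := by positivity
  have hL1 : 1 ≤ L := by linarith
  have hKL : (K : ℝ) ^ κ ≤ L ^ (κ + 1) := by
    calc (K : ℝ) ^ κ ≤ (2 * L) ^ κ := pow_le_pow_left₀ hK0.le (by linarith) _
      _ = 2 ^ κ * L ^ κ := mul_pow _ _ _
      _ ≤ L * L ^ κ := mul_le_mul_of_nonneg_right (by linarith) (by positivity)
      _ = L ^ (κ + 1) := by ring
  have hcl : change b K N f (un T) < b ^ K := change_lt b K N (by omega) f (fun j => (hf j).1) _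
  apply h1 (b ^ K) (by omega) _ hcl.le
  · rw [← hL]
    have e1 : ((b ^ K : ℕ) : ℝ) ≤ (change b K N f (un T) : ℝ) * (K : ℝ) ^ κ := by exact_mod_cast hx1
    exact e1.trans (mul_le_mul_of_nonneg_left hKL (Nat.cast_nonneg _))
  · exact hx2
  · rw [← hL]
    exact hx3.trans (mul_le_mul_of_nonneg_left hKL (Nat.cast_nonneg _))
  · exact hG

end Pool.Agent.TH894.PV
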